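import Pool.Agent.Helper19_TP.AxL

/-! Table and kernel checks B, generated (helper19). -/

set_option autoImplicit false
set_option maxRecDepth 100000

namespace Pool.Agent.TP

def tB0 : Tb := (Tb.node (nat_lit 2063) (Tb.node (nat_lit 2061) (Tb.leaf (nat_lit 2059) (nat_lit 17) (V.cons (nat_lit 44) false (nat_lit 1) V.nil) (Rw.df (nat_lit 44) (nat_lit 0) (nat_lit 0))) (Tb.leaf (nat_lit 2061) (nat_lit 20) (V.cons (nat_lit 50) false (nat_lit 1) V.nil) (Rw.df (nat_lit 50) (nat_lit 0) (nat_lit 0)))) (Tb.node (nat_lit 2065) (Tb.leaf (nat_lit 2063) (nat_lit 24) (V.cons (nat_lit 58) false (nat_lit 1) V.nil) (Rw.df (nat_lit 58) (nat_lit 0) (nat_lit 0))) (Tb.node (nat_lit 2067) (Tb.leaf (nat_lit 2065) (nat_lit 25) (V.cons (nat_lit 60) false (nat_lit 1) V.nil) (Rw.df (nat_lit 60) (nat_lit 0) (nat_lit 0))) (Tb.leaf (nat_lit 2067) (nat_lit 26) (V.cons (nat_lit 62) false (nat_lit 1) V.nil) (Rw.df (nat_lit 62) (nat_lit 0) (nat_lit 0))))))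
def tB1 : Tb := (Tb.node (nat_lit 2059) (Tb.node (nat_lit 2055) (Tb.node (nat_lit 2053) (Tb.leaf (nat_lit 2051) (nat_lit 5) (V.cons (nat_lit 20) false (nat_lit 1) V.nil) (Rw.df (nat_lit 20) (nat_lit 0) (nat_lit 0))) (Tb.leaf (nat_lit 2053) (nat_lit 4) (V.cons (nat_lit 18) false (nat_lit 1) V.nil) (Rw.df (nat_lit 18) (nat_lit 0) (nat_lit 0)))) (Tb.node (nat_lit 2057) (Tb.leaf (nat_lit 2055) (nat_lit 3) (V.cons (nat_lit 16) false (nat_lit 1) V.nil) (Rw.df (nat_lit 16) (nat_lit 0) (nat_lit 0))) (Tb.leaf (nat_lit 2057) (nat_lit 13) (V.cons (nat_lit 36) false (nat_lit 1) V.nil) (Rw.df (nat_lit 36) (nat_lit 0) (nat_lit 0))))) tB0)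
def tB2 : Tb := (Tb.node (nat_lit 2081) (Tb.node (nat_lit 2079) (Tb.leaf (nat_lit 2077) (nat_lit 62) (V.cons (nat_lit 110) false (nat_lit 1) V.nil) (Rw.df (nat_lit 110) (nat_lit 0) (nat_lit 0))) (Tb.leaf (nat_lit 2079) (nat_lit 68) (V.cons (nat_lit 118) false (nat_lit 1) V.nil) (Rw.df (nat_lit 118) (nat_lit 0) (nat_lit 0)))) (Tb.node (nat_lit 2083) (Tb.leaf (nat_lit 2081) (nat_lit 74) (V.cons (nat_lit 126) false (nat_lit 1) V.nil) (Rw.df (nat_lit 126) (nat_lit 0) (nat_lit 0))) (Tb.node (nat_lit 2085) (Tb.leaf (nat_lit 2083) (nat_lit 80) (V.cons (nat_lit 134) false (nat_lit 1) V.nil) (Rw.df (nat_lit 134) (nat_lit 0) (nat_lit 0))) (Tb.leaf (nat_lit 2085) (nat_lit 81) (V.cons (nat_lit 136) false (nat_lit 1) V.nil) (Rw.df (nat_lit 136) (nat_lit 0) (nat_lit 0))))))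
def tB3 : Tb := (Tb.node (nat_lit 2077) (Tb.node (nat_lit 2073) (Tb.node (nat_lit 2071) (Tb.leaf (nat_lit 2069) (nat_lit 41) (V.cons (nat_lit 82) false (nat_lit 1) V.nil) (Rw.df (nat_lit 82) (nat_lit 0) (nat_lit 0))) (Tb.leaf (nat_lit 2071) (nat_lit 47) (V.cons (nat_lit 90) false (nat_lit 1) V.nil) (Rw.df (nat_lit 90) (nat_lit 0) (nat_lit 0)))) (Tb.node (nat_lit 2075) (Tb.leaf (nat_lit 2073) (nat_lit 48) (V.cons (nat_lit 92) false (nat_lit 1) V.nil) (Rw.df (nat_lit 92) (nat_lit 0) (nat_lit 0))) (Tb.leaf (nat_lit 2075) (nat_lit 49) (V.cons (nat_lit 94) false (nat_lit 1) V.nil) (Rw.df (nat_lit 94) (nat_lit 0) (nat_lit 0))))) tB2)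
def tB4 : Tb := (Tb.node (nat_lit 2069) tB1 tB3)
def tB5 : Tb := (Tb.node (nat_lit 2099) (Tb.node (nat_lit 2097) (Tb.leaf (nat_lit 2095) (nat_lit 93) (V.cons (nat_lit 144) true (nat_lit 1) (V.cons (nat_lit 148) false (nat_lit 1) (V.cons (nat_lit 150) true (nat_lit 1) V.nil))) (Rw.rw (nat_lit 0) (nat_lit 0) (Ct.cons false (nat_lit 1) (nat_lit 0) (nat_lit 9223374235882225666) Ct.nil))) (Tb.leaf (nat_lit 2097) (nat_lit 94) (V.cons (nat_lit 152) false (nat_lit 1) V.nil) (Rw.df (nat_lit 152) (nat_lit 0) (nat_lit 0)))) (Tb.node (nat_lit 2101) (Tb.leaf (nat_lit 2099) (nat_lit 95) (V.cons (nat_lit 154) false (nat_lit 1) V.nil) (Rw.df (nat_lit 154) (nat_lit 0) (nat_lit 0))) (Tb.node (nat_lit 2103) (Tb.leaf (nat_lit 2101) (nat_lit 96) (V.cons (nat_lit 156) false (nat_lit 1) V.nil) (Rw.df (nat_lit 156) (nat_lit 0) (nat_lit 0))) (Tb.leaf (nat_lit 2103) (nat_lit 100) (V.cons (nat_lit 160) false (nat_lit 1) V.nil) (Rw.df (nat_lit 160) (nat_lit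 0) (nat_lit 0))))))
def tB6 : Tb := (Tb.node (nat_lit 2095) (Tb.node (nat_lit 2091) (Tb.node (nat_lit 2089) (Tb.leaf (nat_lit 2087) (nat_lit 82) (V.cons (nat_lit 138) false (nat_lit 1) V.nil) (Rw.df (nat_lit 138) (nat_lit 0) (nat_lit 0))) (Tb.leaf (nat_lit 2089) (nat_lit 86) (V.cons (nat_lit 142) false (nat_lit 1) V.nil) (Rw.df (nat_lit 142) (nat_lit 0) (nat_lit 0)))) (Tb.node (nat_lit 2093) (Tb.leaf (nat_lit 2091) (nat_lit 88) (V.cons (nat_lit 144) false (nat_lit 1) V.nil) (Rw.df (nat_lit 144) (nat_lit 0) (nat_lit 0))) (Tb.leaf (nat_lit 2093) (nat_lit 89) (V.cons (nat_lit 146) false (nat_lit 1) V.nil) (Rw.df (nat_lit 146) (nat_lit 0) (nat_lit 0))))) tB5)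
def tB7 : Tb := (Tb.node (nat_lit 2123) (Tb.node (nat_lit 2121) (Tb.leaf (nat_lit 2119) (nat_lit 150) (V.cons (nat_lit 208) false (nat_lit 1) V.nil) (Rw.df (nat_lit 208) (nat_lit 0) (nat_lit 0))) (Tb.leaf (nat_lit 2121) (nat_lit 151) (V.cons (nat_lit 210) false (nat_lit 1) V.nil) (Rw.df (nat_lit 210) (nat_lit 0) (nat_lit 0)))) (Tb.node (nat_lit 2125) (Tb.leaf (nat_lit 2123) (nat_lit 152) (V.cons (nat_lit 212) false (nat_lit 1) V.nil) (Rw.df (nat_lit 212) (nat_lit 0) (nat_lit 0))) (Tb.node (nat_lit 2127) (Tb.leaf (nat_lit 2125) (nat_lit 153) (V.cons (nat_lit 214) false (nat_lit 1) V.nil) (Rw.df (nat_lit 214) (nat_lit 0) (nat_lit 0))) (Tb.leaf (nat_lit 2127) (nat_lit 184) (V.cons (nat_lit 240) false (nat_lit 1) V.nil) (Rw.df (nat_lit 240) (nat_lit 0) (nat_lit 0))))))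
def tB8 : Tb := (Tb.node (nat_lit 2119) (Tb.node (nat_lit 2115) (Tb.node (nat_lit 2113) (Tb.leaf (nat_lit 2111) (nat_lit 141) (V.cons (nat_lit 178) false (nat_lit 3) (V.cons (nat_lit 180) true (nat_lit 1) (V.cons (nat_lit 182) false (nat_lit 1) (V.cons (nat_lit 184) true (nat_lit 2) (V.cons (nat_lit 186) true (nat_lit 3) (V.cons (nat_lit 188) false (nat_lit 1) (V.cons (nat_lit 190) true (nat_lit 2) (V.cons (nat_lit 192) false (nat_lit 1) (V.cons (nat_lit 196) true (nat_lit 2) (V.cons (nat_lit 198) false (nat_lit 2) (V.cons (nat_lit 200) true (nat_lit 2) (V.cons (nat_lit 202) false (nat_lit 3) (V.cons (nat_lit 204) true (nat_lit 1) (V.cons (nat_lit 206) false (nat_lit 1) V.nil)))))))))))))) (Rw.rw (nat_lit 1) (nat_lit 0) (Ct.cons false (nat_lit 2) (nat_lit 0) (nat_lit 11529221643142430722) (Ct.cons false (nat_lit 2) (nat_lit 0) (nat_lit 9223378633943416836) (Ct.cons true (nat_lit 2) (nat_lit 0) (nat_lit 20752595879022559236) (Ct.cons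 true (nat_lit 2) (nat_lit 0) (nat_lit 13835064652358221826) (Ct.cons true (nat_lit 2) (nat_lit 0) (nat_lit 16140907661574012930) (Ct.cons true (nat_lit 4) (nat_lit 0) (nat_lit 9223391828070367236) (Ct.cons true (nat_lit 6) (nat_lit 0) (nat_lit 6917535624723431426) (Ct.cons false (nat_lit 4) (nat_lit 0) (nat_lit 11529219444121272322) (Ct.cons false (nat_lit 2) (nat_lit 0) (nat_lit 6917533425698078722) (Ct.cons true (nat_lit 2) (nat_lit 0) (nat_lit 9223387430023856130) (Ct.cons true (nat_lit 1) (nat_lit 1) (nat_lit 9671411168609648901095426) (Ct.cons true (nat_lit 2) (nat_lit 0) (nat_lit 9223394027093622790) Ct.nil)))))))))))))) (Tb.leaf (nat_lit 2113) (nat_lit 116) (V.cons (nat_lit 176) false (nat_lit 1) V.nil) (Rw.df (nat_lit 176) (nat_lit 0) (nat_lit 0)))) (Tb.node (nat_lit 2117) (Tb.leaf (nat_lit 2115) (nat_lit 117) (V.cons (nat_lit 178) false (nat_lit 1) V.nil) (Rw.df (nat_lit 178) (nat_lit 0) (nat_lit 0))) (Tb.leaf (nat_lit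 2117) (nat_lit 118) (V.cons (nat_lit 180) false (nat_lit 1) V.nil) (Rw.df (nat_lit 180) (nat_lit 0) (nat_lit 0))))) tB7)
def tB9 : Tb := (Tb.node (nat_lit 2111) tB6 tB8)
def tB10 : Tb := (Tb.node (nat_lit 2087) tB4 tB9)
def tB11 : Tb := (Tb.node (nat_lit 2141) (Tb.node (nat_lit 2139) (Tb.leaf (nat_lit 2137) (nat_lit 212) (V.cons (nat_lit 268) false (nat_lit 1) V.nil) (Rw.df (nat_lit 268) (nat_lit 0) (nat_lit 0))) (Tb.leaf (nat_lit 2139) (nat_lit 213) (V.cons (nat_lit 270) false (nat_lit 1) V.nil) (Rw.df (nat_lit 270) (nat_lit 0) (nat_lit 0)))) (Tb.node (nat_lit 2143) (Tb.leaf (nat_lit 2141) (nat_lit 214) (V.cons (nat_lit 272) false (nat_lit 1) V.nil) (Rw.df (nat_lit 272) (nat_lit 0) (nat_lit 0))) (Tb.node (nat_lit 2145) (Tb.leaf (nat_lit 2143) (nat_lit 215) (V.cons (nat_lit 274) false (nat_lit 1) V.nil) (Rw.df (nat_lit 274) (nat_lit 0) (nat_lit 0))) (Tb.leaf (nat_lit 2145) (nat_lit 216) (V.cons (nat_lit 276) false (nat_lit 1)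 V.nil) (Rw.df (nat_lit 276) (nat_lit 0) (nat_lit 0))))))
def tB12 : Tb := (Tb.node (nat_lit 2137) (Tb.node (nat_lit 2133) (Tb.node (nat_lit 2131) (Tb.leaf (nat_lit 2129) (nat_lit 198) (V.cons (nat_lit 254) false (nat_lit 1) V.nil) (Rw.df (nat_lit 254) (nat_lit 0) (nat_lit 0))) (Tb.leaf (nat_lit 2131) (nat_lit 199) (V.cons (nat_lit 256) false (nat_lit 1) V.nil) (Rw.df (nat_lit 256) (nat_lit 0) (nat_lit 0)))) (Tb.node (nat_lit 2135) (Tb.leaf (nat_lit 2133) (nat_lit 200) (V.cons (nat_lit 258) false (nat_lit 1) V.nil) (Rw.df (nat_lit 258) (nat_lit 0) (nat_lit 0))) (Tb.leaf (nat_lit 2135) (nat_lit 201) (V.cons (nat_lit 260) false (nat_lit 1) V.nil) (Rw.df (nat_lit 260) (nat_lit 0) (nat_lit 0))))) tB11)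
def tB13 : Tb := (Tb.node (nat_lit 2159) (Tb.node (nat_lit 2157) (Tb.leaf (nat_lit 2155) (nat_lit 220) (V.cons (nat_lit 284) false (nat_lit 1) V.nil) (Rw.df (nat_lit 284) (nat_lit 0) (nat_lit 0))) (Tb.leaf (nat_lit 2157) (nat_lit 257) (V.cons (nat_lit 302) true (nat_lit 1) (V.cons (nat_lit 306) false (nat_lit 2) (V.cons (nat_lit 310) true (nat_lit 1) (V.cons (nat_lit 312) false (nat_lit 1) V.nil)))) (Rw.rw (nat_lit 1) (nat_lit 0) (Ct.cons false (nat_lit 1) (nat_lit 1) (nat_lit 7253559529380390547488770) (Ct.cons false (nat_lit 2) (nat_lit 0) (nat_lit 20752593679997206530) Ct.nil))))) (Tb.node (nat_lit 2161) (Tb.leaf (nat_lit 2159) (nat_lit 246) (V.cons (nat_lit 300) false (nat_lit 1) V.nil) (Rw.df (nat_lit 300) (nat_lit 0) (nat_lit 0))) (Tb.node (nat_lit 2163) (Tb.leaf (nat_lit 2161) (nat_lit 247) (V.cons (nat_lit 302) false (nat_lit 1) V.nil) (Rw.df (nat_lit 302) (nat_lit 0) (nat_lit 0))) (Tb.leaf (nat_lit 2163) (nat_lit 248)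 (V.cons (nat_lit 304) false (nat_lit 1) V.nil) (Rw.df (nat_lit 304) (nat_lit 0) (nat_lit 0))))))
def tB14 : Tb := (Tb.node (nat_lit 2155) (Tb.node (nat_lit 2151) (Tb.node (nat_lit 2149) (Tb.leaf (nat_lit 2147) (nat_lit 217) (V.cons (nat_lit 278) false (nat_lit 1) V.nil) (Rw.df (nat_lit 278) (nat_lit 0) (nat_lit 0))) (Tb.leaf (nat_lit 2149) (nat_lit 218) (V.cons (nat_lit 280) false (nat_lit 1) V.nil) (Rw.df (nat_lit 280) (nat_lit 0) (nat_lit 0)))) (Tb.node (nat_lit 2153) (Tb.leaf (nat_lit 2151) (nat_lit 219) (V.cons (nat_lit 282) false (nat_lit 1) V.nil) (Rw.df (nat_lit 282) (nat_lit 0) (nat_lit 0))) (Tb.leaf (nat_lit 2153) (nat_lit 238) (V.cons (nat_lit 268) false (nat_lit 4) (V.cons (nat_lit 270) false (nat_lit 1) (V.cons (nat_lit 272) false (nat_lit 2) (V.cons (nat_lit 276) true (nat_lit 2) (V.cons (nat_lit 278) false (nat_lit 5) (V.cons (nat_lit 280) true (nat_lit 2) (V.cons (nat_lit 282) true (nat_lit 3) (V.cons (nat_lit 286)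 false (nat_lit 2) (V.cons (nat_lit 288) true (nat_lit 5) (V.cons (nat_lit 290) false (nat_lit 5) (V.cons (nat_lit 292) false (nat_lit 3) (V.cons (nat_lit 294) false (nat_lit 2) (V.cons (nat_lit 296) true (nat_lit 3) (V.cons (nat_lit 298) true (nat_lit 2) V.nil)))))))))))))) (Rw.rw (nat_lit 0) (nat_lit 0) (Ct.cons true (nat_lit 1) (nat_lit 1) (nat_lit 7253557223539580359147522) Ct.nil))))) tB13)
def tB15 : Tb := (Tb.node (nat_lit 2147) tB12 tB14)
def tB16 : Tb := (Tb.node (nat_lit 2177) (Tb.node (nat_lit 2175) (Tb.leaf (nat_lit 2173) (nat_lit 274) (V.cons (nat_lit 328) false (nat_lit 1) V.nil) (Rw.df (nat_lit 328) (nat_lit 0) (nat_lit 0))) (Tb.leaf (nat_lit 2175) (nat_lit 275) (V.cons (nat_lit 330) false (nat_lit 1) V.nil) (Rw.df (nat_lit 330) (nat_lit 0) (nat_lit 0)))) (Tb.node (nat_lit 2179) (Tb.leaf (nat_lit 2177) (nat_lit 285) (V.cons (nat_lit 328) false (nat_lit 3) (V.cons (nat_lit 330) false (nat_lit 1) (V.cons (nat_lit 332)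 false (nat_lit 3) (V.cons (nat_lit 334) true (nat_lit 4) (V.cons (nat_lit 336) true (nat_lit 3) (V.cons (nat_lit 338) true (nat_lit 1) (V.cons (nat_lit 340) false (nat_lit 4) V.nil))))))) (Rw.rw (nat_lit 1) (nat_lit 0) (Ct.cons false (nat_lit 4) (nat_lit 0) (nat_lit 6917533425708564482) (Ct.cons true (nat_lit 1) (nat_lit 1) (nat_lit 7253559529378191524233218) Ct.nil)))) (Tb.node (nat_lit 4101) (Tb.leaf (nat_lit 2179) (nat_lit 276) (V.cons (nat_lit 332) false (nat_lit 1) V.nil) (Rw.df (nat_lit 332) (nat_lit 0) (nat_lit 0))) (Tb.leaf (nat_lit 4101) (nat_lit 2) (V.cons (nat_lit 14) false (nat_lit 1) V.nil) (Rw.df (nat_lit 14) (nat_lit 0) (nat_lit 0))))))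
def tB17 : Tb := (Tb.node (nat_lit 2173) (Tb.node (nat_lit 2169) (Tb.node (nat_lit 2167) (Tb.leaf (nat_lit 2165) (nat_lit 260) (V.cons (nat_lit 314) false (nat_lit 1) V.nil) (Rw.df (nat_lit 314) (nat_lit 0) (nat_lit 0))) (Tb.leaf (nat_lit 2167) (nat_lit 261) (V.cons (nat_lit 316) false (nat_lit 1) V.nil) (Rw.df (nat_lit 316) (nat_lit 0) (nat_lit 0)))) (Tb.node (nat_lit 2171) (Tb.leaf (nat_lit 2169) (nat_lit 262) (V.cons (nat_lit 318) false (nat_lit 1) V.nil) (Rw.df (nat_lit 318) (nat_lit 0) (nat_lit 0))) (Tb.leaf (nat_lit 2171) (nat_lit 263) (V.cons (nat_lit 320) false (nat_lit 1) V.nil) (Rw.df (nat_lit 320) (nat_lit 0) (nat_lit 0))))) tB16)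
def tB18 : Tb := (Tb.node (nat_lit 4115) (Tb.node (nat_lit 4113) (Tb.leaf (nat_lit 4111) (nat_lit 18) (V.cons (nat_lit 46) false (nat_lit 1) V.nil) (Rw.df (nat_lit 46) (nat_lit 0) (nat_lit 0))) (Tb.leaf (nat_lit 4113) (nat_lit 21) (V.cons (nat_lit 52) false (nat_lit 1) V.nil) (Rw.df (nat_lit 52) (nat_lit 0) (nat_lit 0)))) (Tb.node (nat_lit 4117) (Tb.leaf (nat_lit 4115) (nat_lit 23) (V.cons (nat_lit 56) false (nat_lit 1) V.nil) (Rw.df (nat_lit 56) (nat_lit 0) (nat_lit 0))) (Tb.node (nat_lit 4119) (Tb.leaf (nat_lit 4117) (nat_lit 27) (V.cons (nat_lit 64) false (nat_lit 1) V.nil) (Rw.df (nat_lit 64) (nat_lit 0) (nat_lit 0))) (Tb.leaf (nat_lit 4119) (nat_lit 33) (V.cons (nat_lit 72) false (nat_lit 1) V.nil) (Rw.df (nat_lit 72) (nat_lit 0) (nat_lit 0))))))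
def tB19 : Tb := (Tb.node (nat_lit 4111) (Tb.node (nat_lit 4107) (Tb.node (nat_lit 4105) (Tb.leaf (nat_lit 4103) (nat_lit 1) (V.cons (nat_lit 12) false (nat_lit 1) V.nil) (Rw.df (nat_lit 12) (nat_lit 0) (nat_lit 0))) (Tb.leaf (nat_lit 4105) (nat_lit 7) (V.cons (nat_lit 24) false (nat_lit 1) V.nil) (Rw.df (nat_lit 24) (nat_lit 0) (nat_lit 0)))) (Tb.node (nat_lit 4109) (Tb.leaf (nat_lit 4107) (nat_lit 11) (V.cons (nat_lit 32) false (nat_lit 1) V.nil) (Rw.df (nat_lit 32) (nat_lit 0) (nat_lit 0))) (Tb.leaf (nat_lit 4109) (nat_lit 12) (V.cons (nat_lit 34) false (nat_lit 1) V.nil) (Rw.df (nat_lit 34) (nat_lit 0) (nat_lit 0))))) tB18)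
def tB20 : Tb := (Tb.node (nat_lit 4103) tB17 tB19)
def tB21 : Tb := (Tb.node (nat_lit 2165) tB15 tB20)
def tB22 : Tb := (Tb.node (nat_lit 2129) tB10 tB21)
def tB23 : Tb := (Tb.node (nat_lit 4137) (Tb.node (nat_lit 4135) (Tb.leaf (nat_lit 4133) (nat_lit 51) (V.cons (nat_lit 98) false (nat_lit 1) V.nil) (Rw.df (nat_lit 98) (nat_lit 0) (nat_lit 0))) (Tb.leaf (nat_lit 4135) (nat_lit 52) (V.cons (nat_lit 100) false (nat_lit 1) V.nil) (Rw.df (nat_lit 100) (nat_lit 0) (nat_lit 0)))) (Tb.node (nat_lit 4139) (Tb.leaf (nat_lit 4137) (nat_lit 63) (V.cons (nat_lit 112) false (nat_lit 1) V.nil) (Rw.df (nat_lit 112) (nat_lit 0) (nat_lit 0))) (Tb.node (nat_lit 4141) (Tb.leaf (nat_lit 4139) (nat_lit 69) (V.cons (nat_lit 120) false (nat_lit 1) V.nil) (Rw.df (nat_lit 120) (nat_lit 0) (nat_lit 0))) (Tb.leaf (nat_lit 4141) (nat_lit 70) (V.cons (nat_lit 122) false (nat_lit 1) V.nil) (Rw.df (nat_lit 122) (nat_lit 0) (nat_lit 0))))))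
def tB24 : Tb := (Tb.node (nat_lit 4133) (Tb.node (nat_lit 4125) (Tb.node (nat_lit 4123) (Tb.leaf (nat_lit 4121) (nat_lit 34) (V.cons (nat_lit 74) false (nat_lit 1) V.nil) (Rw.df (nat_lit 74) (nat_lit 0) (nat_lit 0))) (Tb.leaf (nat_lit 4123) (nat_lit 35) (V.cons (nat_lit 76) false (nat_lit 1) V.nil) (Rw.df (nat_lit 76) (nat_lit 0) (nat_lit 0)))) (Tb.node (nat_lit 4131) (Tb.leaf (nat_lit 4125) (nat_lit 39) (V.cons (nat_lit 80) false (nat_lit 1) V.nil) (Rw.df (nat_lit 80) (nat_lit 0) (nat_lit 0))) (Tb.leaf (nat_lit 4131) (nat_lit 50) (V.cons (nat_lit 96) false (nat_lit 1) V.nil) (Rw.df (nat_lit 96) (nat_lit 0) (nat_lit 0))))) tB23)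
def tB25 : Tb := (Tb.node (nat_lit 4157) (Tb.node (nat_lit 4155) (Tb.leaf (nat_lit 4153) (nat_lit 90) (V.cons (nat_lit 148) false (nat_lit 1) V.nil) (Rw.df (nat_lit 148) (nat_lit 0) (nat_lit 0))) (Tb.leaf (nat_lit 4155) (nat_lit 98) (V.cons (nat_lit 154) false (nat_lit 1) (V.cons (nat_lit 156) false (nat_lit 1) (V.cons (nat_lit 158) true (nat_lit 1) V.nil))) (Rw.rw (nat_lit 0) (nat_lit 0) (Ct.cons true (nat_lit 1) (nat_lit 0) (nat_lit 6917531226668531714) Ct.nil)))) (Tb.node (nat_lit 4159) (Tb.leaf (nat_lit 4157) (nat_lit 101) (V.cons (nat_lit 160) false (nat_lit 1) V.nil) (Rw.rw (nat_lit 0) (nat_lit 0) (Ct.cons false (nat_lit 1) (nat_lit 0) (nat_lit 4611690416475996162) Ct.nil))) (Tb.node (nat_lit 4161) (Tb.leaf (nat_lit 4159) (nat_lit 102) (V.cons (nat_lit 162) false (nat_lit 1) V.nil) (Rw.df (nat_lit 162) (nat_lit 0) (nat_lit 0))) (Tb.leaf (nat_lit 4161) (nat_lit 103) (V.cons (nat_lit 164) false (nat_lit 1) V.nil) (Rw.df (nat_lit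 164) (nat_lit 0) (nat_lit 0))))))
def tB26 : Tb := (Tb.node (nat_lit 4153) (Tb.node (nat_lit 4147) (Tb.node (nat_lit 4145) (Tb.leaf (nat_lit 4143) (nat_lit 72) (V.cons (nat_lit 118) true (nat_lit 1) (V.cons (nat_lit 120) false (nat_lit 1) (V.cons (nat_lit 124) false (nat_lit 1) V.nil))) (Rw.rw (nat_lit 0) (nat_lit 0) (Ct.cons true (nat_lit 1) (nat_lit 0) (nat_lit 4611694814524604418) Ct.nil))) (Tb.leaf (nat_lit 4145) (nat_lit 79) (V.cons (nat_lit 128) false (nat_lit 1) (V.cons (nat_lit 130) true (nat_lit 1) (V.cons (nat_lit 132) true (nat_lit 1) V.nil))) (Rw.rw (nat_lit 0) (nat_lit 0) (Ct.cons false (nat_lit 1) (nat_lit 0) (nat_lit 4611692615501348866) Ct.nil)))) (Tb.node (nat_lit 4149) (Tb.leaf (nat_lit 4147) (nat_lit 75) (V.cons (nat_lit 128) false (nat_lit 1) V.nil) (Rw.df (nat_lit 128) (nat_lit 0) (nat_lit 0))) (Tb.leaf (nat_lit 4149) (nat_lit 78) (V.cons (nat_lit 126) true (nat_lit 1) (V.cons (nat_lit 128) false (nat_lit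 1) (V.cons (nat_lit 132) true (nat_lit 1) V.nil))) (Rw.rw (nat_lit 0) (nat_lit 0) (Ct.cons false (nat_lit 1) (nat_lit 0) (nat_lit 4611690416480190466) Ct.nil))))) tB25)
def tB27 : Tb := (Tb.node (nat_lit 4143) tB24 tB26)
def tB28 : Tb := (Tb.node (nat_lit 4185) (Tb.node (nat_lit 4183) (Tb.leaf (nat_lit 4181) (nat_lit 137) (V.cons (nat_lit 176) false (nat_lit 1) (V.cons (nat_lit 178) false (nat_lit 2) (V.cons (nat_lit 180) false (nat_lit 1) (V.cons (nat_lit 182) false (nat_lit 2) (V.cons (nat_lit 184) true (nat_lit 2) (V.cons (nat_lit 186) true (nat_lit 2) (V.cons (nat_lit 188) false (nat_lit 2) (V.cons (nat_lit 190) true (nat_lit 2) (V.cons (nat_lit 194) true (nat_lit 2) (V.cons (nat_lit 196) true (nat_lit 2) (V.cons (nat_lit 198) true (nat_lit 1) (V.cons (nat_lit 202) false (nat_lit 2) (V.cons (nat_lit 204) false (nat_lit 1) V.nil))))))))))))) (Rw.rw (nat_lit 1) (nat_lit 0) (Ct.cons true (nat_lit 4) (nat_lit 0) (nat_lit 20752595879022559236)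 (Ct.cons true (nat_lit 4) (nat_lit 0) (nat_lit 13835064652358221826) (Ct.cons true (nat_lit 8) (nat_lit 0) (nat_lit 6917535624723431426) (Ct.cons true (nat_lit 2) (nat_lit 0) (nat_lit 16140907661574012930) (Ct.cons true (nat_lit 1) (nat_lit 1) (nat_lit 4835705584310322011832326) (Ct.cons false (nat_lit 1) (nat_lit 1) (nat_lit 9671408862766639687401476) (Ct.cons true (nat_lit 4) (nat_lit 0) (nat_lit 9223391828070367236) (Ct.cons false (nat_lit 2) (nat_lit 0) (nat_lit 11529219444121272322) (Ct.cons false (nat_lit 2) (nat_lit 0) (nat_lit 6917533425698078722) (Ct.cons true (nat_lit 2) (nat_lit 0) (nat_lit 9223387430023856130) (Ct.cons true (nat_lit 2) (nat_lit 0) (nat_lit 6917548818858770436) Ct.nil))))))))))))) (Tb.leaf (nat_lit 4183) (nat_lit 121) (V.cons (nat_lit 186) false (nat_lit 1) V.nil) (Rw.df (nat_lit 186) (nat_lit 0) (nat_lit 0)))) (Tb.node (nat_lit 4187) (Tb.leaf (nat_lit 4185) (nat_lit 154) (V.cons (nat_lit 216) false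 (nat_lit 1) V.nil) (Rw.df (nat_lit 216) (nat_lit 0) (nat_lit 0))) (Tb.node (nat_lit 4189) (Tb.leaf (nat_lit 4187) (nat_lit 155) (V.cons (nat_lit 218) false (nat_lit 1) V.nil) (Rw.df (nat_lit 218) (nat_lit 0) (nat_lit 0))) (Tb.leaf (nat_lit 4189) (nat_lit 178) (V.cons (nat_lit 208) true (nat_lit 1) (V.cons (nat_lit 210) false (nat_lit 4) (V.cons (nat_lit 212) true (nat_lit 1) (V.cons (nat_lit 214) false (nat_lit 9) (V.cons (nat_lit 216) true (nat_lit 1) (V.cons (nat_lit 218) false (nat_lit 1) (V.cons (nat_lit 220) true (nat_lit 7) (V.cons (nat_lit 222) false (nat_lit 1) (V.cons (nat_lit 224) true (nat_lit 1) (V.cons (nat_lit 226) true (nat_lit 3) (V.cons (nat_lit 228) true (nat_lit 9) (V.cons (nat_lit 230) false (nat_lit 3) (V.cons (nat_lit 232) true (nat_lit 3) (V.cons (nat_lit 236) false (nat_lit 3) (V.cons (nat_lit 238) true (nat_lit 9) V.nil))))))))))))))) (Rw.rw (nat_lit 1) (nat_lit 0) (Ct.cons true (nat_lit 1) (nat_lit 1)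 (nat_lit 9671411168609648898998274) Ct.nil))))))
def tB29 : Tb := (Tb.node (nat_lit 4181) (Tb.node (nat_lit 4177) (Tb.node (nat_lit 4165) (Tb.leaf (nat_lit 4163) (nat_lit 104) (V.cons (nat_lit 166) false (nat_lit 1) V.nil) (Rw.df (nat_lit 166) (nat_lit 0) (nat_lit 0))) (Tb.leaf (nat_lit 4165) (nat_lit 109) (V.cons (nat_lit 162) false (nat_lit 1) (V.cons (nat_lit 164) true (nat_lit 1) (V.cons (nat_lit 166) false (nat_lit 1) (V.cons (nat_lit 168) true (nat_lit 1) (V.cons (nat_lit 174) true (nat_lit 1) V.nil))))) (Rw.rw (nat_lit 0) (nat_lit 0) (Ct.cons false (nat_lit 1) (nat_lit 0) (nat_lit 11529221643142430724) Ct.nil)))) (Tb.node (nat_lit 4179) (Tb.leaf (nat_lit 4177) (nat_lit 119) (V.cons (nat_lit 182) false (nat_lit 1) V.nil) (Rw.df (nat_lit 182) (nat_lit 0) (nat_lit 0))) (Tb.leaf (nat_lit 4179) (nat_lit 120) (V.cons (nat_lit 184) false (nat_lit 1) V.nil) (Rw.df (nat_lit 184) (nat_lit 0) (nat_lit 0))))) tB28)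
def tB30 : Tb := (Tb.node (nat_lit 4203) (Tb.node (nat_lit 4201) (Tb.leaf (nat_lit 4199) (nat_lit 159) (V.cons (nat_lit 226) false (nat_lit 1) V.nil) (Rw.df (nat_lit 226) (nat_lit 0) (nat_lit 0))) (Tb.leaf (nat_lit 4201) (nat_lit 160) (V.cons (nat_lit 228) false (nat_lit 1) V.nil) (Rw.df (nat_lit 228) (nat_lit 0) (nat_lit 0)))) (Tb.node (nat_lit 4205) (Tb.leaf (nat_lit 4203) (nat_lit 161) (V.cons (nat_lit 230) false (nat_lit 1) V.nil) (Rw.df (nat_lit 230) (nat_lit 0) (nat_lit 0))) (Tb.node (nat_lit 4207) (Tb.leaf (nat_lit 4205) (nat_lit 185) (V.cons (nat_lit 242) false (nat_lit 1) V.nil) (Rw.df (nat_lit 242) (nat_lit 0) (nat_lit 0))) (Tb.leaf (nat_lit 4207) (nat_lit 186) (V.cons (nat_lit 244) false (nat_lit 1) V.nil) (Rw.df (nat_lit 244) (nat_lit 0) (nat_lit 0))))))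
def tB31 : Tb := (Tb.node (nat_lit 4199) (Tb.node (nat_lit 4195) (Tb.node (nat_lit 4193) (Tb.leaf (nat_lit 4191) (nat_lit 156) (V.cons (nat_lit 220) false (nat_lit 1) V.nil) (Rw.df (nat_lit 220) (nat_lit 0) (nat_lit 0))) (Tb.leaf (nat_lit 4193) (nat_lit 157) (V.cons (nat_lit 222) false (nat_lit 1) V.nil) (Rw.df (nat_lit 222) (nat_lit 0) (nat_lit 0)))) (Tb.node (nat_lit 4197) (Tb.leaf (nat_lit 4195) (nat_lit 158) (V.cons (nat_lit 224) false (nat_lit 1) V.nil) (Rw.df (nat_lit 224) (nat_lit 0) (nat_lit 0))) (Tb.leaf (nat_lit 4197) (nat_lit 177) (V.cons (nat_lit 210) false (nat_lit 3) (V.cons (nat_lit 214) false (nat_lit 5) (V.cons (nat_lit 218) false (nat_lit 1) (V.cons (nat_lit 220) true (nat_lit 4) (V.cons (nat_lit 222) false (nat_lit 1) (V.cons (nat_lit 226) true (nat_lit 3) (V.cons (nat_lit 228) true (nat_lit 6) (V.cons (nat_lit 230) false (nat_lit 2) (V.cons (nat_lit 232) true (nat_lit 2) (V.cons (nat_lit 236) false (nat_lit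 2) (V.cons (nat_lit 238) true (nat_lit 6) V.nil))))))))))) (Rw.rw (nat_lit 1) (nat_lit 0) (Ct.cons false (nat_lit 1) (nat_lit 1) (nat_lit 9671408862766639685304324) Ct.nil))))) tB30)
def tB32 : Tb := (Tb.node (nat_lit 4191) tB29 tB31)
def tB33 : Tb := (Tb.node (nat_lit 4163) tB27 tB32)
def tB34 : Tb := (Tb.node (nat_lit 4237) (Tb.node (nat_lit 4235) (Tb.leaf (nat_lit 4233) (nat_lit 228) (V.cons (nat_lit 268) false (nat_lit 2) (V.cons (nat_lit 270) false (nat_lit 1) (V.cons (nat_lit 272) false (nat_lit 2) (V.cons (nat_lit 274) false (nat_lit 2) (V.cons (nat_lit 276) false (nat_lit 1) (V.cons (nat_lit 278) false (nat_lit 2) (V.cons (nat_lit 280) true (nat_lit 3) (V.cons (nat_lit 282) true (nat_lit 3) (V.cons (nat_lit 286) false (nat_lit 2) (V.cons (nat_lit 288) true (nat_lit 2) (V.cons (nat_lit 290) false (nat_lit 3) V.nil))))))))))) (Rw.rw (nat_lit 1) (nat_lit 0) (Ct.cons true (nat_lit 1) (nat_lit 1) (nat_lit 9671413474450459087339522)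 Ct.nil))) (Tb.leaf (nat_lit 4235) (nat_lit 223) (V.cons (nat_lit 290) false (nat_lit 1) V.nil) (Rw.df (nat_lit 290) (nat_lit 0) (nat_lit 0)))) (Tb.node (nat_lit 4239) (Tb.leaf (nat_lit 4237) (nat_lit 249) (V.cons (nat_lit 306) false (nat_lit 1) V.nil) (Rw.df (nat_lit 306) (nat_lit 0) (nat_lit 0))) (Tb.node (nat_lit 4241) (Tb.leaf (nat_lit 4239) (nat_lit 264) (V.cons (nat_lit 322) false (nat_lit 1) V.nil) (Rw.df (nat_lit 322) (nat_lit 0) (nat_lit 0))) (Tb.leaf (nat_lit 4241) (nat_lit 272) (V.cons (nat_lit 314) true (nat_lit 5) (V.cons (nat_lit 316) false (nat_lit 1) (V.cons (nat_lit 324) false (nat_lit 5) (V.cons (nat_lit 326) true (nat_lit 4) V.nil)))) (Rw.rw (nat_lit 0) (nat_lit 0) (Ct.cons true (nat_lit 1) (nat_lit 0) (nat_lit 4611694814541381634) Ct.nil))))))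
def tB35 : Tb := (Tb.node (nat_lit 4233) (Tb.node (nat_lit 4229) (Tb.node (nat_lit 4211) (Tb.leaf (nat_lit 4209) (nat_lit 194) (V.cons (nat_lit 240) true (nat_lit 2) (V.cons (nat_lit 242) false (nat_lit 1) (V.cons (nat_lit 244) false (nat_lit 2) (V.cons (nat_lit 246) false (nat_lit 1) (V.cons (nat_lit 250) true (nat_lit 2) (V.cons (nat_lit 252) true (nat_lit 1) V.nil)))))) (Rw.rw (nat_lit 0) (nat_lit 0) (Ct.cons false (nat_lit 1) (nat_lit 0) (nat_lit 4611692615511834626) Ct.nil))) (Tb.leaf (nat_lit 4211) (nat_lit 187) (V.cons (nat_lit 246) false (nat_lit 1) V.nil) (Rw.df (nat_lit 246) (nat_lit 0) (nat_lit 0)))) (Tb.node (nat_lit 4231) (Tb.leaf (nat_lit 4229) (nat_lit 221) (V.cons (nat_lit 286) false (nat_lit 1) V.nil) (Rw.df (nat_lit 286) (nat_lit 0) (nat_lit 0))) (Tb.leaf (nat_lit 4231) (nat_lit 222) (V.cons (nat_lit 288) false (nat_lit 1) V.nil) (Rw.df (nat_lit 288) (nat_lit 0) (nat_lit 0))))) tB34)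
def tB36 : Tb := (Tb.node (nat_lit 6151) (Tb.node (nat_lit 4253) (Tb.leaf (nat_lit 4251) (nat_lit 278) (V.cons (nat_lit 336) false (nat_lit 1) V.nil) (Rw.df (nat_lit 336) (nat_lit 0) (nat_lit 0))) (Tb.leaf (nat_lit 4253) (nat_lit 279) (V.cons (nat_lit 338) false (nat_lit 1) V.nil) (Rw.df (nat_lit 338) (nat_lit 0) (nat_lit 0)))) (Tb.node (nat_lit 6153) (Tb.leaf (nat_lit 6151) (nat_lit 0) (V.cons (nat_lit 10) false (nat_lit 1) V.nil) (Rw.df (nat_lit 10) (nat_lit 0) (nat_lit 0))) (Tb.node (nat_lit 6155) (Tb.leaf (nat_lit 6153) (nat_lit 6) (V.cons (nat_lit 22) false (nat_lit 1) V.nil) (Rw.df (nat_lit 22) (nat_lit 0) (nat_lit 0))) (Tb.leaf (nat_lit 6155) (nat_lit 8) (V.cons (nat_lit 26) false (nat_lit 1) V.nil) (Rw.df (nat_lit 26) (nat_lit 0) (nat_lit 0))))))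
def tB37 : Tb := (Tb.node (nat_lit 4251) (Tb.node (nat_lit 4247) (Tb.node (nat_lit 4245) (Tb.leaf (nat_lit 4243) (nat_lit 265) (V.cons (nat_lit 324) false (nat_lit 1) V.nil) (Rw.df (nat_lit 324) (nat_lit 0) (nat_lit 0))) (Tb.leaf (nat_lit 4245) (nat_lit 270) (V.cons (nat_lit 314) true (nat_lit 2) (V.cons (nat_lit 316) false (nat_lit 1) (V.cons (nat_lit 318) true (nat_lit 1) (V.cons (nat_lit 320) false (nat_lit 1) (V.cons (nat_lit 324) false (nat_lit 2) (V.cons (nat_lit 326) true (nat_lit 2) V.nil)))))) (Rw.rw (nat_lit 0) (nat_lit 0) (Ct.cons false (nat_lit 1) (nat_lit 0) (nat_lit 4611708008668332034) Ct.nil)))) (Tb.node (nat_lit 4249) (Tb.leaf (nat_lit 4247) (nat_lit 277) (V.cons (nat_lit 334) false (nat_lit 1) V.nil) (Rw.df (nat_lit 334) (nat_lit 0) (nat_lit 0))) (Tb.leaf (nat_lit 4249) (nat_lit 286) (V.cons (nat_lit 328) false (nat_lit 2) (V.cons (nat_lit 332) false (nat_lit 1) (V.cons (nat_lit 334) true (nat_lit 1) (V.cons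 (nat_lit 336) true (nat_lit 2) (V.cons (nat_lit 338) false (nat_lit 1) (V.cons (nat_lit 340) false (nat_lit 2) V.nil)))))) (Rw.rw (nat_lit 2) (nat_lit 0) (Ct.cons true (nat_lit 1) (nat_lit 1) (nat_lit 7253559529378191524233218) Ct.nil))))) tB36)
def tB38 : Tb := (Tb.node (nat_lit 4243) tB35 tB37)
def tB39 : Tb := (Tb.node (nat_lit 6171) (Tb.node (nat_lit 6169) (Tb.leaf (nat_lit 6167) (nat_lit 28) (V.cons (nat_lit 66) false (nat_lit 1) V.nil) (Rw.df (nat_lit 66) (nat_lit 0) (nat_lit 0))) (Tb.leaf (nat_lit 6169) (nat_lit 29) (V.cons (nat_lit 68) false (nat_lit 1) V.nil) (Rw.df (nat_lit 68) (nat_lit 0) (nat_lit 0)))) (Tb.node (nat_lit 6175) (Tb.leaf (nat_lit 6171) (nat_lit 31) (V.cons (nat_lit 64) true (nat_lit 1) (V.cons (nat_lit 66) false (nat_lit 1) (V.cons (nat_lit 70) false (nat_lit 1) V.nil))) (Rw.rw (nat_lit 0) (nat_lit 0) (Ct.cons true (nat_lit 1) (nat_lit 0) (nat_lit 6917537823740395524) Ct.nil))) (Tb.node (nat_lit 6177)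 (Tb.leaf (nat_lit 6175) (nat_lit 36) (V.cons (nat_lit 78) false (nat_lit 1) V.nil) (Rw.df (nat_lit 78) (nat_lit 0) (nat_lit 0))) (Tb.leaf (nat_lit 6177) (nat_lit 40) (V.cons (nat_lit 80) false (nat_lit 1) V.nil) (Rw.rw (nat_lit 0) (nat_lit 0) (Ct.cons false (nat_lit 1) (nat_lit 0) (nat_lit 6917535624715042820) Ct.nil))))))
def tB40 : Tb := (Tb.node (nat_lit 6167) (Tb.node (nat_lit 6161) (Tb.node (nat_lit 6159) (Tb.leaf (nat_lit 6157) (nat_lit 10) (V.cons (nat_lit 30) false (nat_lit 1) V.nil) (Rw.df (nat_lit 30) (nat_lit 0) (nat_lit 0))) (Tb.leaf (nat_lit 6159) (nat_lit 14) (V.cons (nat_lit 38) false (nat_lit 1) V.nil) (Rw.df (nat_lit 38) (nat_lit 0) (nat_lit 0)))) (Tb.node (nat_lit 6163) (Tb.leaf (nat_lit 6161) (nat_lit 16) (V.cons (nat_lit 42) false (nat_lit 1) V.nil) (Rw.df (nat_lit 42) (nat_lit 0) (nat_lit 0))) (Tb.leaf (nat_lit 6163) (nat_lit 22) (V.cons (nat_lit 54) false (nat_lit 1) V.nil) (Rw.df (nat_lit 54) (nat_lit 0)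 (nat_lit 0))))) tB39)
def tB41 : Tb := (Tb.node (nat_lit 6193) (Tb.node (nat_lit 6191) (Tb.leaf (nat_lit 6189) (nat_lit 54) (V.cons (nat_lit 104) false (nat_lit 1) V.nil) (Rw.df (nat_lit 104) (nat_lit 0) (nat_lit 0))) (Tb.leaf (nat_lit 6191) (nat_lit 57) (V.cons (nat_lit 90) true (nat_lit 1) (V.cons (nat_lit 98) false (nat_lit 1) (V.cons (nat_lit 106) true (nat_lit 1) (V.cons (nat_lit 108) true (nat_lit 1) V.nil)))) (Rw.rw (nat_lit 0) (nat_lit 0) (Ct.cons false (nat_lit 1) (nat_lit 0) (nat_lit 4611692615505543170) Ct.nil)))) (Tb.node (nat_lit 6195) (Tb.leaf (nat_lit 6193) (nat_lit 66) (V.cons (nat_lit 110) false (nat_lit 1) (V.cons (nat_lit 112) false (nat_lit 1) (V.cons (nat_lit 114) true (nat_lit 1) V.nil))) (Rw.rw (nat_lit 0) (nat_lit 0) (Ct.cons true (nat_lit 1) (nat_lit 0) (nat_lit 6917533425693884418) Ct.nil))) (Tb.node (nat_lit 6197) (Tb.leaf (nat_lit 6195) (nat_lit 64) (V.cons (nat_lit 114) false (nat_lit 1) V.nil) (Rw.df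 (nat_lit 114) (nat_lit 0) (nat_lit 0))) (Tb.leaf (nat_lit 6197) (nat_lit 65) (V.cons (nat_lit 116) false (nat_lit 1) V.nil) (Rw.df (nat_lit 116) (nat_lit 0) (nat_lit 0))))))
def tB42 : Tb := (Tb.node (nat_lit 6189) (Tb.node (nat_lit 6183) (Tb.node (nat_lit 6181) (Tb.leaf (nat_lit 6179) (nat_lit 42) (V.cons (nat_lit 84) false (nat_lit 1) V.nil) (Rw.df (nat_lit 84) (nat_lit 0) (nat_lit 0))) (Tb.leaf (nat_lit 6181) (nat_lit 43) (V.cons (nat_lit 86) false (nat_lit 1) V.nil) (Rw.df (nat_lit 86) (nat_lit 0) (nat_lit 0)))) (Tb.node (nat_lit 6187) (Tb.leaf (nat_lit 6183) (nat_lit 45) (V.cons (nat_lit 82) true (nat_lit 1) (V.cons (nat_lit 84) false (nat_lit 1) (V.cons (nat_lit 88) false (nat_lit 1) V.nil))) (Rw.rw (nat_lit 0) (nat_lit 0) (Ct.cons true (nat_lit 1) (nat_lit 0) (nat_lit 6917537823740395522) Ct.nil))) (Tb.leaf (nat_lit 6187) (nat_lit 53) (V.cons (nat_lit 102) false (nat_lit 1) V.nil) (Rw.df (nat_lit 102) (nat_lit 0) (nat_lit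 0))))) tB41)
def tB43 : Tb := (Tb.node (nat_lit 6179) tB40 tB42)
def tB44 : Tb := (Tb.node (nat_lit 6157) tB38 tB43)
def tB45 : Tb := (Tb.node (nat_lit 4209) tB33 tB44)
def tB46 : Tb := (Tb.node (nat_lit 4121) tB22 tB45)
def tB47 : Tb := (Tb.node (nat_lit 6219) (Tb.node (nat_lit 6217) (Tb.leaf (nat_lit 6215) (nat_lit 105) (V.cons (nat_lit 168) false (nat_lit 1) V.nil) (Rw.df (nat_lit 168) (nat_lit 0) (nat_lit 0))) (Tb.leaf (nat_lit 6217) (nat_lit 114) (V.cons (nat_lit 164) false (nat_lit 1) (V.cons (nat_lit 170) true (nat_lit 5) (V.cons (nat_lit 172) false (nat_lit 6) (V.cons (nat_lit 174) false (nat_lit 5) V.nil)))) (Rw.rw (nat_lit 0) (nat_lit 0) (Ct.cons false (nat_lit 1) (nat_lit 0) (nat_lit 16140907661574012932) Ct.nil)))) (Tb.node (nat_lit 6221) (Tb.leaf (nat_lit 6219) (nat_lit 106) (V.cons (nat_lit 170) false (nat_lit 1) V.nil) (Rw.df (nat_lit 170) (nat_lit 0) (nat_lit 0))) (Tb.node (nat_lit 6233) (Tb.leaf (nat_lit 6221)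 (nat_lit 112) (V.cons (nat_lit 162) false (nat_lit 1) (V.cons (nat_lit 170) true (nat_lit 1) (V.cons (nat_lit 172) false (nat_lit 2) (V.cons (nat_lit 174) false (nat_lit 1) V.nil)))) (Rw.rw (nat_lit 1) (nat_lit 0) (Ct.cons true (nat_lit 1) (nat_lit 1) (nat_lit 9671413474452658112692228) (Ct.cons false (nat_lit 2) (nat_lit 0) (nat_lit 9223378633939222532) (Ct.cons true (nat_lit 2) (nat_lit 0) (nat_lit 16140909860595171332) (Ct.cons true (nat_lit 2) (nat_lit 0) (nat_lit 13835064652358221828) (Ct.cons true (nat_lit 2) (nat_lit 0) (nat_lit 6917535624723431428) Ct.nil))))))) (Tb.leaf (nat_lit 6233) (nat_lit 145) (V.cons (nat_lit 178) false (nat_lit 6) (V.cons (nat_lit 180) true (nat_lit 4) (V.cons (nat_lit 182) false (nat_lit 3) (V.cons (nat_lit 184) true (nat_lit 5) (V.cons (nat_lit 186) true (nat_lit 6) (V.cons (nat_lit 188) false (nat_lit 3) (V.cons (nat_lit 190) true (nat_lit 7) (V.cons (nat_lit 194) false (nat_lit 1) (V.cons (nat_lit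 196) true (nat_lit 4) (V.cons (nat_lit 198) false (nat_lit 2) (V.cons (nat_lit 200) true (nat_lit 2) (V.cons (nat_lit 202) false (nat_lit 6) (V.cons (nat_lit 206) false (nat_lit 4) V.nil))))))))))))) (Rw.rw (nat_lit 1) (nat_lit 0) (Ct.cons true (nat_lit 1) (nat_lit 1) (nat_lit 9671408862766639687401476) Ct.nil))))))
def tB48 : Tb := (Tb.node (nat_lit 6215) (Tb.node (nat_lit 6203) (Tb.node (nat_lit 6201) (Tb.leaf (nat_lit 6199) (nat_lit 76) (V.cons (nat_lit 130) false (nat_lit 1) V.nil) (Rw.df (nat_lit 130) (nat_lit 0) (nat_lit 0))) (Tb.leaf (nat_lit 6201) (nat_lit 84) (V.cons (nat_lit 136) false (nat_lit 1) (V.cons (nat_lit 138) false (nat_lit 1) (V.cons (nat_lit 140) true (nat_lit 1) V.nil))) (Rw.rw (nat_lit 0) (nat_lit 0) (Ct.cons true (nat_lit 1) (nat_lit 0) (nat_lit 9223374235884322818) Ct.nil)))) (Tb.node (nat_lit 6205) (Tb.leaf (nat_lit 6203) (nat_lit 87) (V.cons (nat_lit 142) false (nat_lit 1) V.nil) (Rw.rw (nat_lit 0)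 (nat_lit 0) (Ct.cons false (nat_lit 1) (nat_lit 0) (nat_lit 6917535624712945666) Ct.nil))) (Tb.leaf (nat_lit 6205) (nat_lit 97) (V.cons (nat_lit 158) false (nat_lit 1) V.nil) (Rw.df (nat_lit 158) (nat_lit 0) (nat_lit 0))))) tB47)
def tB49 : Tb := (Tb.node (nat_lit 6247) (Tb.node (nat_lit 6245) (Tb.leaf (nat_lit 6243) (nat_lit 124) (V.cons (nat_lit 192) false (nat_lit 1) V.nil) (Rw.df (nat_lit 192) (nat_lit 0) (nat_lit 0))) (Tb.leaf (nat_lit 6245) (nat_lit 125) (V.cons (nat_lit 194) false (nat_lit 1) V.nil) (Rw.df (nat_lit 194) (nat_lit 0) (nat_lit 0)))) (Tb.node (nat_lit 6249) (Tb.leaf (nat_lit 6247) (nat_lit 144) (V.cons (nat_lit 176) true (nat_lit 1) (V.cons (nat_lit 178) false (nat_lit 1) (V.cons (nat_lit 180) true (nat_lit 3) (V.cons (nat_lit 188) false (nat_lit 1) (V.cons (nat_lit 190) true (nat_lit 2) (V.cons (nat_lit 192) false (nat_lit 1) (V.cons (nat_lit 194) false (nat_lit 2) (V.cons (nat_lit 196) true (nat_lit 1) (V.cons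 (nat_lit 198) false (nat_lit 1) (V.cons (nat_lit 200) true (nat_lit 1) (V.cons (nat_lit 202) false (nat_lit 1) (V.cons (nat_lit 204) true (nat_lit 1) (V.cons (nat_lit 206) false (nat_lit 2) V.nil))))))))))))) (Rw.rw (nat_lit 0) (nat_lit 0) (Ct.cons true (nat_lit 1) (nat_lit 0) (nat_lit 6917540022761553922) Ct.nil))) (Tb.node (nat_lit 6251) (Tb.leaf (nat_lit 6249) (nat_lit 126) (V.cons (nat_lit 196) false (nat_lit 1) V.nil) (Rw.df (nat_lit 196) (nat_lit 0) (nat_lit 0))) (Tb.leaf (nat_lit 6251) (nat_lit 127) (V.cons (nat_lit 198) false (nat_lit 1) V.nil) (Rw.df (nat_lit 198) (nat_lit 0) (nat_lit 0))))))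
def tB50 : Tb := (Tb.node (nat_lit 6243) (Tb.node (nat_lit 6239) (Tb.node (nat_lit 6237) (Tb.leaf (nat_lit 6235) (nat_lit 122) (V.cons (nat_lit 188) false (nat_lit 1) V.nil) (Rw.df (nat_lit 188) (nat_lit 0) (nat_lit 0))) (Tb.leaf (nat_lit 6237) (nat_lit 146) (V.cons (nat_lit 176) true (nat_lit 1) (V.cons (nat_lit 178) true (nat_lit 6) (V.cons (nat_lit 180) false (nat_lit 3) (V.cons (nat_lit 182) true (nat_lit 3) (V.cons (nat_lit 184) false (nat_lit 6) (V.cons (nat_lit 186) false (nat_lit 7) (V.cons (nat_lit 188) true (nat_lit 2) (V.cons (nat_lit 190) false (nat_lit 6) (V.cons (nat_lit 196) false (nat_lit 3) (V.cons (nat_lit 198) true (nat_lit 4) (V.cons (nat_lit 200) false (nat_lit 3) (V.cons (nat_lit 202) true (nat_lit 7) (V.cons (nat_lit 206) true (nat_lit 4) V.nil))))))))))))) (Rw.rw (nat_lit 0) (nat_lit 0) (Ct.cons false (nat_lit 1) (nat_lit 1) (nat_lit 7253557223539580361244676) Ct.nil)))) (Tb.node (nat_lit 6241) (Tb.leaf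 (nat_lit 6239) (nat_lit 123) (V.cons (nat_lit 190) false (nat_lit 1) V.nil) (Rw.df (nat_lit 190) (nat_lit 0) (nat_lit 0))) (Tb.leaf (nat_lit 6241) (nat_lit 147) (V.cons (nat_lit 178) false (nat_lit 6) (V.cons (nat_lit 180) true (nat_lit 6) (V.cons (nat_lit 182) false (nat_lit 2) (V.cons (nat_lit 184) true (nat_lit 5) (V.cons (nat_lit 186) true (nat_lit 5) (V.cons (nat_lit 188) false (nat_lit 3) (V.cons (nat_lit 190) true (nat_lit 8) (V.cons (nat_lit 194) false (nat_lit 3) (V.cons (nat_lit 196) true (nat_lit 3) (V.cons (nat_lit 198) false (nat_lit 3) (V.cons (nat_lit 200) true (nat_lit 3) (V.cons (nat_lit 202) false (nat_lit 6) (V.cons (nat_lit 206) false (nat_lit 5) V.nil))))))))))))) (Rw.rw (nat_lit 0) (nat_lit 0) (Ct.cons false (nat_lit 1) (nat_lit 1) (nat_lit 7253559529382589574938626) Ct.nil))))) tB49)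
def tB51 : Tb := (Tb.node (nat_lit 6235) tB48 tB50)
def tB52 : Tb := (Tb.node (nat_lit 6273) (Tb.node (nat_lit 6271) (Tb.leaf (nat_lit 6269) (nat_lit 196) (V.cons (nat_lit 240) true (nat_lit 2) (V.cons (nat_lit 242) true (nat_lit 1) (V.cons (nat_lit 244) false (nat_lit 3) (V.cons (nat_lit 246) true (nat_lit 1) (V.cons (nat_lit 248) false (nat_lit 1) (V.cons (nat_lit 250) true (nat_lit 3) V.nil)))))) (Rw.rw (nat_lit 0) (nat_lit 0) (Ct.cons false (nat_lit 1) (nat_lit 0) (nat_lit 23058436689212997636) Ct.nil))) (Tb.leaf (nat_lit 6271) (nat_lit 188) (V.cons (nat_lit 248) false (nat_lit 1) V.nil) (Rw.df (nat_lit 248) (nat_lit 0) (nat_lit 0)))) (Tb.node (nat_lit 6275) (Tb.leaf (nat_lit 6273) (nat_lit 189) (V.cons (nat_lit 250) false (nat_lit 1) V.nil) (Rw.df (nat_lit 250) (nat_lit 0) (nat_lit 0))) (Tb.node (nat_lit 6277) (Tb.leaf (nat_lit 6275) (nat_lit 190) (V.cons (nat_lit 252) false (nat_lit 1) V.nil) (Rw.df (nat_lit 252) (nat_lit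 0) (nat_lit 0))) (Tb.leaf (nat_lit 6277) (nat_lit 206) (V.cons (nat_lit 258) false (nat_lit 1) (V.cons (nat_lit 260) true (nat_lit 1) (V.cons (nat_lit 266) true (nat_lit 1) V.nil))) (Rw.rw (nat_lit 0) (nat_lit 0) (Ct.cons true (nat_lit 1) (nat_lit 0) (nat_lit 6917535624727625730) Ct.nil))))))
def tB53 : Tb := (Tb.node (nat_lit 6269) (Tb.node (nat_lit 6265) (Tb.node (nat_lit 6263) (Tb.leaf (nat_lit 6261) (nat_lit 162) (V.cons (nat_lit 232) false (nat_lit 1) V.nil) (Rw.df (nat_lit 232) (nat_lit 0) (nat_lit 0))) (Tb.leaf (nat_lit 6263) (nat_lit 175) (V.cons (nat_lit 210) true (nat_lit 1) (V.cons (nat_lit 214) true (nat_lit 3) (V.cons (nat_lit 216) false (nat_lit 1) (V.cons (nat_lit 220) false (nat_lit 3) (V.cons (nat_lit 222) true (nat_lit 1) (V.cons (nat_lit 226) false (nat_lit 1) (V.cons (nat_lit 228) false (nat_lit 4) (V.cons (nat_lit 232) false (nat_lit 1) (V.cons (nat_lit 238) false (nat_lit 4) V.nil))))))))) (Rw.rw (nat_lit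 1) (nat_lit 0) (Ct.cons true (nat_lit 1) (nat_lit 1) (nat_lit 9671408862766639685304324) (Ct.cons true (nat_lit 4) (nat_lit 0) (nat_lit 13835062453334966274) (Ct.cons true (nat_lit 4) (nat_lit 0) (nat_lit 6917533425700175874) (Ct.cons true (nat_lit 1) (nat_lit 1) (nat_lit 9671413474450459089436674) (Ct.cons false (nat_lit 4) (nat_lit 0) (nat_lit 9223387430021758978) (Ct.cons false (nat_lit 4) (nat_lit 0) (nat_lit 4611694814535090178) (Ct.cons false (nat_lit 4) (nat_lit 0) (nat_lit 6917546619831320580) (Ct.cons true (nat_lit 8) (nat_lit 0) (nat_lit 4611699212573212674) (Ct.cons true (nat_lit 4) (nat_lit 0) (nat_lit 6917542221784809474) Ct.nil)))))))))))) (Tb.node (nat_lit 6267) (Tb.leaf (nat_lit 6265) (nat_lit 176) (V.cons (nat_lit 210) true (nat_lit 4) (V.cons (nat_lit 212) true (nat_lit 1) (V.cons (nat_lit 214) true (nat_lit 3) (V.cons (nat_lit 216) false (nat_lit 2) (V.cons (nat_lit 218) false (nat_lit 1) (V.cons (nat_lit 220)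 false (nat_lit 2) (V.cons (nat_lit 222) true (nat_lit 2) (V.cons (nat_lit 224) false (nat_lit 3) (V.cons (nat_lit 226) false (nat_lit 1) (V.cons (nat_lit 228) false (nat_lit 5) (V.cons (nat_lit 230) true (nat_lit 2) (V.cons (nat_lit 232) false (nat_lit 4) (V.cons (nat_lit 234) true (nat_lit 2) (V.cons (nat_lit 236) true (nat_lit 1) (V.cons (nat_lit 238) false (nat_lit 6) V.nil))))))))))))))) (Rw.rw (nat_lit 0) (nat_lit 0) (Ct.cons false (nat_lit 1) (nat_lit 0) (nat_lit 6917551017882025988) Ct.nil))) (Tb.leaf (nat_lit 6267) (nat_lit 170) (V.cons (nat_lit 210) true (nat_lit 2) (V.cons (nat_lit 212) true (nat_lit 1) (V.cons (nat_lit 214) false (nat_lit 1) (V.cons (nat_lit 216) false (nat_lit 1) (V.cons (nat_lit 220) true (nat_lit 1) (V.cons (nat_lit 222) true (nat_lit 1) (V.cons (nat_lit 224) false (nat_lit 2) (V.cons (nat_lit 228) false (nat_lit 1) (V.cons (nat_lit 232) false (nat_lit 2) (V.cons (nat_lit 234) true (nat_lit 2) (V.cons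 (nat_lit 238) false (nat_lit 1) V.nil))))))))))) (Rw.rw (nat_lit 1) (nat_lit 0) (Ct.cons true (nat_lit 1) (nat_lit 1) (nat_lit 7253557223539580359147524) (Ct.cons false (nat_lit 2) (nat_lit 0) (nat_lit 13835062453334966274) (Ct.cons false (nat_lit 2) (nat_lit 0) (nat_lit 6917533425700175874) (Ct.cons false (nat_lit 2) (nat_lit 0) (nat_lit 20752595879020462084) (Ct.cons true (nat_lit 2) (nat_lit 0) (nat_lit 9223387430021758978) (Ct.cons true (nat_lit 2) (nat_lit 0) (nat_lit 23058438888236253188) (Ct.cons true (nat_lit 2) (nat_lit 0) (nat_lit 16140905462550757378) (Ct.cons false (nat_lit 1) (nat_lit 1) (nat_lit 9671413474450459089436674) Ct.nil)))))))))))) tB52)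
def tB54 : Tb := (Tb.node (nat_lit 6293) (Tb.node (nat_lit 6291) (Tb.leaf (nat_lit 6289) (nat_lit 225) (V.cons (nat_lit 294) false (nat_lit 1) V.nil) (Rw.df (nat_lit 294) (nat_lit 0) (nat_lit 0))) (Tb.leaf (nat_lit 6291) (nat_lit 233) (V.cons (nat_lit 268) true (nat_lit 1) (V.cons (nat_lit 272) true (nat_lit 2) (V.cons (nat_lit 274) false (nat_lit 1) (V.cons (nat_lit 276) false (nat_lit 3) (V.cons (nat_lit 278) true (nat_lit 2) (V.cons (nat_lit 280) true (nat_lit 2) (V.cons (nat_lit 282) true (nat_lit 1) (V.cons (nat_lit 284) true (nat_lit 4) (V.cons (nat_lit 286) false (nat_lit 2) (V.cons (nat_lit 288) false (nat_lit 2) (V.cons (nat_lit 290) false (nat_lit 2) (V.cons (nat_lit 294) true (nat_lit 3) (V.cons (nat_lit 296) false (nat_lit 4) V.nil))))))))))))) (Rw.rw (nat_lit 1) (nat_lit 0) (Ct.cons false (nat_lit 4) (nat_lit 0) (nat_lit 18446750670783512578) (Ct.cons false (nat_lit 4) (nat_lit 0) (nat_lit 4611692615513931778) (Ct.cons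 true (nat_lit 8) (nat_lit 0) (nat_lit 16140909860590977026) (Ct.cons false (nat_lit 4) (nat_lit 0) (nat_lit 4611703610619723778) (Ct.cons true (nat_lit 4) (nat_lit 0) (nat_lit 9223387430019661826) (Ct.cons true (nat_lit 2) (nat_lit 1) (nat_lit 9671413474450459087339522) (Ct.cons false (nat_lit 1) (nat_lit 1) (nat_lit 9671411168609648896901122) Ct.nil)))))))))) (Tb.node (nat_lit 6295) (Tb.leaf (nat_lit 6293) (nat_lit 239) (V.cons (nat_lit 268) true (nat_lit 4) (V.cons (nat_lit 272) true (nat_lit 2) (V.cons (nat_lit 274) true (nat_lit 2) (V.cons (nat_lit 278) true (nat_lit 4) (V.cons (nat_lit 280) false (nat_lit 4) (V.cons (nat_lit 282) false (nat_lit 4) (V.cons (nat_lit 284) false (nat_lit 1) (V.cons (nat_lit 286) true (nat_lit 3) (V.cons (nat_lit 288) false (nat_lit 4) (V.cons (nat_lit 290) true (nat_lit 6) (V.cons (nat_lit 292) true (nat_lit 3) (V.cons (nat_lit 296) false (nat_lit 1) (V.cons (nat_lit 298) false (nat_lit 2) V.nil)))))))))))))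 (Rw.rw (nat_lit 1) (nat_lit 0) (Ct.cons true (nat_lit 1) (nat_lit 1) (nat_lit 4835705584310322011832322) Ct.nil))) (Tb.node (nat_lit 6297) (Tb.leaf (nat_lit 6295) (nat_lit 250) (V.cons (nat_lit 308) false (nat_lit 1) V.nil) (Rw.df (nat_lit 308) (nat_lit 0) (nat_lit 0))) (Tb.leaf (nat_lit 6297) (nat_lit 253) (V.cons (nat_lit 304) false (nat_lit 1) (V.cons (nat_lit 308) false (nat_lit 1) (V.cons (nat_lit 312) true (nat_lit 1) V.nil))) (Rw.rw (nat_lit 0) (nat_lit 0) (Ct.cons true (nat_lit 1) (nat_lit 0) (nat_lit 6917535624731820034) Ct.nil))))))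
def tB55 : Tb := (Tb.node (nat_lit 6289) (Tb.node (nat_lit 6283) (Tb.node (nat_lit 6281) (Tb.leaf (nat_lit 6279) (nat_lit 208) (V.cons (nat_lit 254) false (nat_lit 5) (V.cons (nat_lit 256) true (nat_lit 4) (V.cons (nat_lit 262) true (nat_lit 5) (V.cons (nat_lit 264) false (nat_lit 6) (V.cons (nat_lit 266) false (nat_lit 5) V.nil))))) (Rw.rw (nat_lit 0) (nat_lit 0) (Ct.cons false (nat_lit 3) (nat_lit 0) (nat_lit 9223378633943416834) (Ct.cons true (nat_lit 3) (nat_lit 0) (nat_lit 20752595879022559234) (Ct.cons false (nat_lit 3) (nat_lit 0) (nat_lit 6917546619833417730) (Ct.cons false (nat_lit 2) (nat_lit 0) (nat_lit 11529217245098016770) (Ct.cons true (nat_lit 3) (nat_lit 0) (nat_lit 6917540022759456770) (Ct.cons true (nat_lit 1) (nat_lit 1) (nat_lit 9671413474452658110595074) Ct.nil)))))))) (Tb.leaf (nat_lit 6281) (nat_lit 202) (V.cons (nat_lit 262) false (nat_lit 1) V.nil) (Rw.df (nat_lit 262) (nat_lit 0) (nat_lit 0)))) (Tb.node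 (nat_lit 6287) (Tb.leaf (nat_lit 6283) (nat_lit 209) (V.cons (nat_lit 254) false (nat_lit 3) (V.cons (nat_lit 256) true (nat_lit 3) (V.cons (nat_lit 262) true (nat_lit 3) (V.cons (nat_lit 264) false (nat_lit 4) (V.cons (nat_lit 266) false (nat_lit 4) V.nil))))) (Rw.rw (nat_lit 1) (nat_lit 1) (Ct.cons false (nat_lit 1) (nat_lit 1) (nat_lit 9671413474452658110595074) Ct.nil))) (Tb.leaf (nat_lit 6287) (nat_lit 224) (V.cons (nat_lit 292) false (nat_lit 1) V.nil) (Rw.df (nat_lit 292) (nat_lit 0) (nat_lit 0))))) tB54)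
def tB56 : Tb := (Tb.node (nat_lit 6279) tB53 tB55)
def tB57 : Tb := (Tb.node (nat_lit 6261) tB51 tB56)
def tB58 : Tb := (Tb.node (nat_lit 8221) (Tb.node (nat_lit 8211) (Tb.leaf (nat_lit 8209) (nat_lit 15) (V.cons (nat_lit 40) false (nat_lit 1) V.nil) (Rw.df (nat_lit 40) (nat_lit 0) (nat_lit 0))) (Tb.leaf (nat_lit 8211) (nat_lit 19) (V.cons (nat_lit 48) false (nat_lit 1) V.nil) (Rw.df (nat_lit 48) (nat_lit 0) (nat_lit 0)))) (Tb.node (nat_lit 8225) (Tb.leaf (nat_lit 8221) (nat_lit 30) (V.cons (nat_lit 70) false (nat_lit 1) V.nil) (Rw.df (nat_lit 70) (nat_lit 0) (nat_lit 0))) (Tb.node (nat_lit 8233) (Tb.leaf (nat_lit 8225) (nat_lit 37) (V.cons (nat_lit 74) false (nat_lit 1) (V.cons (nat_lit 76) false (nat_lit 1) (V.cons (nat_lit 78) true (nat_lit 1) V.nil))) (Rw.rw (nat_lit 0) (nat_lit 0) (Ct.cons true (nat_lit 1) (nat_lit 0) (nat_lit 9223376434907578372) Ct.nil))) (Tb.leaf (nat_lit 8233) (nat_lit 44) (V.cons (nat_lit 88) false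 (nat_lit 1) V.nil) (Rw.df (nat_lit 88) (nat_lit 0) (nat_lit 0))))))
def tB59 : Tb := (Tb.node (nat_lit 8209) (Tb.node (nat_lit 6303) (Tb.node (nat_lit 6301) (Tb.leaf (nat_lit 6299) (nat_lit 258) (V.cons (nat_lit 300) true (nat_lit 1) (V.cons (nat_lit 302) true (nat_lit 3) (V.cons (nat_lit 306) false (nat_lit 4) (V.cons (nat_lit 310) false (nat_lit 1) (V.cons (nat_lit 312) false (nat_lit 4) V.nil))))) (Rw.rw (nat_lit 0) (nat_lit 0) (Ct.cons false (nat_lit 1) (nat_lit 0) (nat_lit 20752593679997206530) Ct.nil))) (Tb.leaf (nat_lit 6301) (nat_lit 251) (V.cons (nat_lit 310) false (nat_lit 1) V.nil) (Rw.df (nat_lit 310) (nat_lit 0) (nat_lit 0)))) (Tb.node (nat_lit 8205) (Tb.leaf (nat_lit 6303) (nat_lit 280) (V.cons (nat_lit 340) false (nat_lit 1) V.nil) (Rw.df (nat_lit 340) (nat_lit 0) (nat_lit 0))) (Tb.leaf (nat_lit 8205) (nat_lit 9) (V.cons (nat_lit 28) false (nat_lit 1) V.nil) (Rw.df (nat_lit 28) (nat_lit 0) (nat_lit 0))))) tB58)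
def tB60 : Tb := (Tb.node (nat_lit 8271) (Tb.node (nat_lit 8253) (Tb.leaf (nat_lit 8251) (nat_lit 83) (V.cons (nat_lit 140) false (nat_lit 1) V.nil) (Rw.df (nat_lit 140) (nat_lit 0) (nat_lit 0))) (Tb.leaf (nat_lit 8253) (nat_lit 92) (V.cons (nat_lit 144) true (nat_lit 1) (V.cons (nat_lit 146) false (nat_lit 1) (V.cons (nat_lit 150) true (nat_lit 1) V.nil))) (Rw.rw (nat_lit 0) (nat_lit 0) (Ct.cons false (nat_lit 1) (nat_lit 0) (nat_lit 4611694814522507266) Ct.nil)))) (Tb.node (nat_lit 8301) (Tb.leaf (nat_lit 8271) (nat_lit 107) (V.cons (nat_lit 172) false (nat_lit 1) V.nil) (Rw.df (nat_lit 172) (nat_lit 0) (nat_lit 0))) (Tb.node (nat_lit 8303) (Tb.leaf (nat_lit 8301) (nat_lit 128) (V.cons (nat_lit 200) false (nat_lit 1) V.nil) (Rw.df (nat_lit 200) (nat_lit 0) (nat_lit 0))) (Tb.leaf (nat_lit 8303) (nat_lit 139) (V.cons (nat_lit 176) true (nat_lit 1) (V.cons (nat_lit 178) true (nat_lit 4) (V.cons (nat_lit 180) true (nat_lit 1) (V.cons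 (nat_lit 182) true (nat_lit 3) (V.cons (nat_lit 184) false (nat_lit 4) (V.cons (nat_lit 186) false (nat_lit 5) (V.cons (nat_lit 188) true (nat_lit 1) (V.cons (nat_lit 190) false (nat_lit 2) (V.cons (nat_lit 194) false (nat_lit 3) (V.cons (nat_lit 196) false (nat_lit 2) (V.cons (nat_lit 198) true (nat_lit 2) (V.cons (nat_lit 200) false (nat_lit 1) (V.cons (nat_lit 202) true (nat_lit 4) V.nil))))))))))))) (Rw.rw (nat_lit 0) (nat_lit 0) (Ct.cons false (nat_lit 1) (nat_lit 0) (nat_lit 6917548818858770436) Ct.nil))))))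
def tB61 : Tb := (Tb.node (nat_lit 8251) (Tb.node (nat_lit 8245) (Tb.node (nat_lit 8243) (Tb.leaf (nat_lit 8241) (nat_lit 55) (V.cons (nat_lit 106) false (nat_lit 1) V.nil) (Rw.df (nat_lit 106) (nat_lit 0) (nat_lit 0))) (Tb.leaf (nat_lit 8243) (nat_lit 59) (V.cons (nat_lit 92) false (nat_lit 1) (V.cons (nat_lit 94) false (nat_lit 1) (V.cons (nat_lit 98) false (nat_lit 1) (V.cons (nat_lit 100) false (nat_lit 1) (V.cons (nat_lit 102) true (nat_lit 1) (V.cons (nat_lit 104) true (nat_lit 1) (V.cons (nat_lit 106) true (nat_lit 1) V.nil))))))) (Rw.rw (nat_lit 0) (nat_lit 0) (Ct.cons true (nat_lit 1) (nat_lit 0) (nat_lit 9223376434907578370) Ct.nil)))) (Tb.node (nat_lit 8247) (Tb.leaf (nat_lit 8245) (nat_lit 61) (V.cons (nat_lit 94) true (nat_lit 1) (V.cons (nat_lit 96) true (nat_lit 1) (V.cons (nat_lit 104) false (nat_lit 1) (V.cons (nat_lit 108) true (nat_lit 1) V.nil)))) (Rw.rw (nat_lit 0) (nat_lit 0) (Ct.cons false (nat_lit 1) (nat_lit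 0) (nat_lit 4611694814526701570) Ct.nil))) (Tb.leaf (nat_lit 8247) (nat_lit 71) (V.cons (nat_lit 124) false (nat_lit 1) V.nil) (Rw.df (nat_lit 124) (nat_lit 0) (nat_lit 0))))) tB60)
def tB62 : Tb := (Tb.node (nat_lit 8241) tB59 tB61)
def tB63 : Tb := (Tb.node (nat_lit 8333) (Tb.node (nat_lit 8323) (Tb.leaf (nat_lit 8321) (nat_lit 179) (V.cons (nat_lit 214) true (nat_lit 2) (V.cons (nat_lit 220) false (nat_lit 2) (V.cons (nat_lit 222) false (nat_lit 1) (V.cons (nat_lit 228) false (nat_lit 1) (V.cons (nat_lit 232) true (nat_lit 1) (V.cons (nat_lit 234) false (nat_lit 1) (V.cons (nat_lit 238) false (nat_lit 1) V.nil))))))) (Rw.rw (nat_lit 0) (nat_lit 0) (Ct.cons false (nat_lit 1) (nat_lit 1) (nat_lit 7253559529382589572841474) Ct.nil))) (Tb.leaf (nat_lit 8323) (nat_lit 171) (V.cons (nat_lit 208) false (nat_lit 1) (V.cons (nat_lit 210) false (nat_lit 2) (V.cons (nat_lit 212) false (nat_lit 1) (V.cons (nat_lit 214) true (nat_lit 1)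 (V.cons (nat_lit 216) true (nat_lit 2) (V.cons (nat_lit 218) true (nat_lit 1) (V.cons (nat_lit 222) false (nat_lit 2) (V.cons (nat_lit 224) true (nat_lit 3) (V.cons (nat_lit 226) false (nat_lit 1) (V.cons (nat_lit 228) true (nat_lit 1) (V.cons (nat_lit 230) true (nat_lit 1) (V.cons (nat_lit 232) true (nat_lit 2) (V.cons (nat_lit 234) false (nat_lit 2) (V.cons (nat_lit 238) true (nat_lit 2) V.nil)))))))))))))) (Rw.rw (nat_lit 0) (nat_lit 0) (Ct.cons true (nat_lit 1) (nat_lit 0) (nat_lit 6917537823755075588) Ct.nil)))) (Tb.node (nat_lit 8343) (Tb.leaf (nat_lit 8333) (nat_lit 203) (V.cons (nat_lit 264) false (nat_lit 1) V.nil) (Rw.df (nat_lit 264) (nat_lit 0) (nat_lit 0))) (Tb.node (nat_lit 8345) (Tb.leaf (nat_lit 8343) (nat_lit 226) (V.cons (nat_lit 296) false (nat_lit 1) V.nil) (Rw.df (nat_lit 296) (nat_lit 0) (nat_lit 0))) (Tb.leaf (nat_lit 8345) (nat_lit 227) (V.cons (nat_lit 298) false (nat_lit 1) V.nil) (Rw.df (nat_lit 298)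 (nat_lit 0) (nat_lit 0))))))
def tB64 : Tb := (Tb.node (nat_lit 8321) (Tb.node (nat_lit 8317) (Tb.node (nat_lit 8307) (Tb.leaf (nat_lit 8305) (nat_lit 129) (V.cons (nat_lit 202) false (nat_lit 1) V.nil) (Rw.df (nat_lit 202) (nat_lit 0) (nat_lit 0))) (Tb.leaf (nat_lit 8307) (nat_lit 130) (V.cons (nat_lit 204) false (nat_lit 1) V.nil) (Rw.df (nat_lit 204) (nat_lit 0) (nat_lit 0)))) (Tb.node (nat_lit 8319) (Tb.leaf (nat_lit 8317) (nat_lit 163) (V.cons (nat_lit 234) false (nat_lit 1) V.nil) (Rw.df (nat_lit 234) (nat_lit 0) (nat_lit 0))) (Tb.leaf (nat_lit 8319) (nat_lit 164) (V.cons (nat_lit 236) false (nat_lit 1) V.nil) (Rw.df (nat_lit 236) (nat_lit 0) (nat_lit 0))))) tB63)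
def tB65 : Tb := (Tb.node (nat_lit 10273) (Tb.node (nat_lit 10259) (Tb.leaf (nat_lit 10257) (nat_lit 46) (V.cons (nat_lit 84) true (nat_lit 1) (V.cons (nat_lit 86) false (nat_lit 1) (V.cons (nat_lit 88) true (nat_lit 1) V.nil))) (Rw.rw (nat_lit 0) (nat_lit 0) (Ct.cons false (nat_lit 1) (nat_lit 0) (nat_lit 6917535624719237122) Ct.nil))) (Tb.leaf (nat_lit 10259) (nat_lit 58) (V.cons (nat_lit 92) true (nat_lit 1) (V.cons (nat_lit 100) true (nat_lit 1) (V.cons (nat_lit 104) false (nat_lit 1) (V.cons (nat_lit 106) false (nat_lit 1) V.nil)))) (Rw.rw (nat_lit 0) (nat_lit 0) (Ct.cons false (nat_lit 1) (nat_lit 0) (nat_lit 6917533425695981570) Ct.nil)))) (Tb.node (nat_lit 10289) (Tb.leaf (nat_lit 10273) (nat_lit 110) (V.cons (nat_lit 162) true (nat_lit 1) (V.cons (nat_lit 164) false (nat_lit 1) (V.cons (nat_lit 174) false (nat_lit 1) V.nil))) (Rw.rw (nat_lit 0) (nat_lit 0) (Ct.cons true (nat_lit 1) (nat_lit 0) (nat_lit 11529219444121272324)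 Ct.nil))) (Tb.node (nat_lit 10291) (Tb.leaf (nat_lit 10289) (nat_lit 149) (V.cons (nat_lit 176) false (nat_lit 1) (V.cons (nat_lit 178) true (nat_lit 4) (V.cons (nat_lit 180) false (nat_lit 4) (V.cons (nat_lit 182) true (nat_lit 1) (V.cons (nat_lit 184) false (nat_lit 3) (V.cons (nat_lit 186) false (nat_lit 4) (V.cons (nat_lit 188) true (nat_lit 1) (V.cons (nat_lit 190) false (nat_lit 4) (V.cons (nat_lit 192) true (nat_lit 1) (V.cons (nat_lit 194) true (nat_lit 2) (V.cons (nat_lit 196) false (nat_lit 2) (V.cons (nat_lit 198) true (nat_lit 4) (V.cons (nat_lit 200) false (nat_lit 3) (V.cons (nat_lit 202) true (nat_lit 5) (V.cons (nat_lit 204) false (nat_lit 2) (V.cons (nat_lit 206) true (nat_lit 4) V.nil)))))))))))))))) (Rw.rw (nat_lit 0) (nat_lit 0) (Ct.cons true (nat_lit 1) (nat_lit 0) (nat_lit 6917533425698078722) Ct.nil))) (Tb.leaf (nat_lit 10291) (nat_lit 135) (V.cons (nat_lit 178) false (nat_lit 1) (V.cons (nat_lit 186) true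 (nat_lit 1) (V.cons (nat_lit 192) false (nat_lit 1) (V.cons (nat_lit 194) true (nat_lit 1) (V.cons (nat_lit 198) false (nat_lit 1) (V.cons (nat_lit 200) true (nat_lit 1) (V.cons (nat_lit 202) false (nat_lit 1) (V.cons (nat_lit 204) true (nat_lit 1) V.nil)))))))) (Rw.rw (nat_lit 0) (nat_lit 0) (Ct.cons true (nat_lit 1) (nat_lit 0) (nat_lit 9223391828070367236) Ct.nil))))))
def tB66 : Tb := (Tb.node (nat_lit 10257) (Tb.node (nat_lit 8351) (Tb.node (nat_lit 8349) (Tb.leaf (nat_lit 8347) (nat_lit 237) (V.cons (nat_lit 274) false (nat_lit 4) (V.cons (nat_lit 276) false (nat_lit 5) (V.cons (nat_lit 280) true (nat_lit 6) (V.cons (nat_lit 282) true (nat_lit 5) (V.cons (nat_lit 284) true (nat_lit 5) (V.cons (nat_lit 286) false (nat_lit 5) (V.cons (nat_lit 288) false (nat_lit 1) (V.cons (nat_lit 290) false (nat_lit 5) (V.cons (nat_lit 294) true (nat_lit 4) (V.cons (nat_lit 296) false (nat_lit 5) (V.cons (nat_lit 298) true (nat_lit 1) V.nil)))))))))))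 (Rw.rw (nat_lit 0) (nat_lit 0) (Ct.cons false (nat_lit 1) (nat_lit 0) (nat_lit 20752595879020462082) Ct.nil))) (Tb.leaf (nat_lit 8349) (nat_lit 236) (V.cons (nat_lit 268) true (nat_lit 1) (V.cons (nat_lit 272) true (nat_lit 1) (V.cons (nat_lit 274) false (nat_lit 1) (V.cons (nat_lit 276) false (nat_lit 2) (V.cons (nat_lit 278) true (nat_lit 1) (V.cons (nat_lit 280) true (nat_lit 1) (V.cons (nat_lit 282) true (nat_lit 1) (V.cons (nat_lit 284) true (nat_lit 1) (V.cons (nat_lit 286) false (nat_lit 1) (V.cons (nat_lit 288) false (nat_lit 2) (V.cons (nat_lit 292) true (nat_lit 1) (V.cons (nat_lit 294) true (nat_lit 2) (V.cons (nat_lit 296) false (nat_lit 2) (V.cons (nat_lit 298) false (nat_lit 1) V.nil)))))))))))))) (Rw.rw (nat_lit 0) (nat_lit 0) (Ct.cons true (nat_lit 1) (nat_lit 0) (nat_lit 4611694814539284482) Ct.nil)))) (Tb.node (nat_lit 10253) (Tb.leaf (nat_lit 8351) (nat_lit 266) (V.cons (nat_lit 326) false (nat_lit 1) V.nil)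 (Rw.df (nat_lit 326) (nat_lit 0) (nat_lit 0))) (Tb.leaf (nat_lit 10253) (nat_lit 32) (V.cons (nat_lit 66) true (nat_lit 1) (V.cons (nat_lit 68) false (nat_lit 1) (V.cons (nat_lit 70) true (nat_lit 1) V.nil))) (Rw.rw (nat_lit 0) (nat_lit 0) (Ct.cons false (nat_lit 1) (nat_lit 0) (nat_lit 6917535624719237124) Ct.nil))))) tB65)
def tB67 : Tb := (Tb.node (nat_lit 8347) tB64 tB66)
def tB68 : Tb := (Tb.node (nat_lit 8305) tB62 tB67)
def tB69 : Tb := (Tb.node (nat_lit 6299) tB57 tB68)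
def tB70 : Tb := (Tb.node (nat_lit 12307) (Tb.node (nat_lit 12305) (Tb.leaf (nat_lit 12301) (nat_lit 38) (V.cons (nat_lit 72) true (nat_lit 1) (V.cons (nat_lit 76) true (nat_lit 1) (V.cons (nat_lit 78) false (nat_lit 1) V.nil))) (Rw.rw (nat_lit 0) (nat_lit 0) (Ct.cons false (nat_lit 1) (nat_lit 0) (nat_lit 6917537823738298372) Ct.nil))) (Tb.leaf (nat_lit 12305) (nat_lit 56) (V.cons (nat_lit 108) false (nat_lit 1) V.nil) (Rw.df (nat_lit 108) (nat_lit 0) (nat_lit 0)))) (Tb.node (nat_lit 12317) (Tb.leaf (nat_lit 12307) (nat_lit 73) (V.cons (nat_lit 120) true (nat_lit 1) (V.cons (nat_lit 122) false (nat_lit 1) (V.cons (nat_lit 124) true (nat_lit 1) V.nil))) (Rw.rw (nat_lit 0) (nat_lit 0) (Ct.cons false (nat_lit 1) (nat_lit 0) (nat_lit 4611690416482287618) Ct.nil))) (Tb.node (nat_lit 12329) (Tb.leaf (nat_lit 12317) (nat_lit 115) (V.cons (nat_lit 162) false (nat_lit 1) (V.cons (nat_lit 164) true (nat_lit 1) (V.cons (nat_lit 166) false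 (nat_lit 1) (V.cons (nat_lit 168) true (nat_lit 1) (V.cons (nat_lit 170) false (nat_lit 3) (V.cons (nat_lit 172) true (nat_lit 4) (V.cons (nat_lit 174) true (nat_lit 4) V.nil))))))) (Rw.rw (nat_lit 0) (nat_lit 0) (Ct.cons true (nat_lit 1) (nat_lit 0) (nat_lit 6917537823748784132) Ct.nil))) (Tb.leaf (nat_lit 12329) (nat_lit 136) (V.cons (nat_lit 178) false (nat_lit 1) (V.cons (nat_lit 188) true (nat_lit 1) (V.cons (nat_lit 198) false (nat_lit 1) V.nil))) (Rw.rw (nat_lit 0) (nat_lit 0) (Ct.cons true (nat_lit 1) (nat_lit 0) (nat_lit 13835064652358221826) Ct.nil))))))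
def tB71 : Tb := (Tb.node (nat_lit 12301) (Tb.node (nat_lit 10299) (Tb.node (nat_lit 10295) (Tb.leaf (nat_lit 10293) (nat_lit 133) (V.cons (nat_lit 176) false (nat_lit 1) (V.cons (nat_lit 178) true (nat_lit 1) (V.cons (nat_lit 180) false (nat_lit 1) (V.cons (nat_lit 182) true (nat_lit 1) (V.cons (nat_lit 186) false (nat_lit 1) (V.cons (nat_lit 190) false (nat_lit 1) (V.cons (nat_lit 198) true (nat_lit 1) (V.cons (nat_lit 202) true (nat_lit 1) (V.cons (nat_lit 206) true (nat_lit 1) V.nil))))))))) (Rw.rw (nat_lit 0) (nat_lit 0) (Ct.cons true (nat_lit 1) (nat_lit 0) (nat_lit 11529221643142430722) Ct.nil))) (Tb.leaf (nat_lit 10295) (nat_lit 167) (V.cons (nat_lit 208) false (nat_lit 1) (V.cons (nat_lit 216) true (nat_lit 1) (V.cons (nat_lit 218) true (nat_lit 1) (V.cons (nat_lit 224) true (nat_lit 1) (V.cons (nat_lit 226) false (nat_lit 1) (V.cons (nat_lit 228) false (nat_lit 1) V.nil)))))) (Rw.rw (nat_lit 0) (nat_lit 0) (Ct.cons true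 (nat_lit 1) (nat_lit 0) (nat_lit 11529219444119175170) Ct.nil)))) (Tb.node (nat_lit 10301) (Tb.leaf (nat_lit 10299) (nat_lit 204) (V.cons (nat_lit 266) false (nat_lit 1) V.nil) (Rw.df (nat_lit 266) (nat_lit 0) (nat_lit 0))) (Tb.leaf (nat_lit 10301) (nat_lit 240) (V.cons (nat_lit 268) false (nat_lit 4) (V.cons (nat_lit 272) false (nat_lit 2) (V.cons (nat_lit 274) false (nat_lit 1) (V.cons (nat_lit 276) true (nat_lit 2) (V.cons (nat_lit 278) false (nat_lit 4) (V.cons (nat_lit 280) true (nat_lit 2) (V.cons (nat_lit 282) true (nat_lit 2) (V.cons (nat_lit 286) false (nat_lit 1) (V.cons (nat_lit 288) true (nat_lit 5) (V.cons (nat_lit 290) false (nat_lit 5) (V.cons (nat_lit 292) false (nat_lit 3) (V.cons (nat_lit 294) false (nat_lit 2) (V.cons (nat_lit 296) true (nat_lit 3) (V.cons (nat_lit 298) true (nat_lit 2) V.nil)))))))))))))) (Rw.rw (nat_lit 0) (nat_lit 0) (Ct.cons true (nat_lit 1) (nat_lit 0) (nat_lit 9223394027093622786) Ct.nil)))))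 tB70)
def tB72 : Tb := (Tb.node (nat_lit 14353) (Tb.node (nat_lit 14351) (Tb.leaf (nat_lit 12349) (nat_lit 268) (V.cons (nat_lit 318) false (nat_lit 1) (V.cons (nat_lit 320) true (nat_lit 1) (V.cons (nat_lit 322) true (nat_lit 1) V.nil))) (Rw.rw (nat_lit 0) (nat_lit 0) (Ct.cons false (nat_lit 1) (nat_lit 0) (nat_lit 4611699212569018370) Ct.nil))) (Tb.leaf (nat_lit 14351) (nat_lit 60) (V.cons (nat_lit 90) false (nat_lit 1) (V.cons (nat_lit 94) false (nat_lit 1) (V.cons (nat_lit 96) false (nat_lit 1) (V.cons (nat_lit 100) false (nat_lit 1) (V.cons (nat_lit 102) true (nat_lit 1) (V.cons (nat_lit 104) true (nat_lit 1) (V.cons (nat_lit 108) false (nat_lit 1) V.nil))))))) (Rw.rw (nat_lit 0) (nat_lit 0) (Ct.cons true (nat_lit 1) (nat_lit 0) (nat_lit 6917537823738298370) Ct.nil)))) (Tb.node (nat_lit 14355) (Tb.leaf (nat_lit 14353) (nat_lit 67) (V.cons (nat_lit 110) true (nat_lit 1) (V.cons (nat_lit 114) false (nat_lit 1) (V.cons (nat_lit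 116) true (nat_lit 1) V.nil))) (Rw.rw (nat_lit 0) (nat_lit 0) (Ct.cons false (nat_lit 1) (nat_lit 0) (nat_lit 4611692615503446018) Ct.nil))) (Tb.node (nat_lit 14359) (Tb.leaf (nat_lit 14355) (nat_lit 77) (V.cons (nat_lit 132) false (nat_lit 1) V.nil) (Rw.df (nat_lit 132) (nat_lit 0) (nat_lit 0))) (Tb.leaf (nat_lit 14359) (nat_lit 108) (V.cons (nat_lit 174) false (nat_lit 1) V.nil) (Rw.df (nat_lit 174) (nat_lit 0) (nat_lit 0))))))
def tB73 : Tb := (Tb.node (nat_lit 12349) (Tb.node (nat_lit 12341) (Tb.node (nat_lit 12339) (Tb.leaf (nat_lit 12337) (nat_lit 181) (V.cons (nat_lit 208) true (nat_lit 1) (V.cons (nat_lit 210) false (nat_lit 4) (V.cons (nat_lit 212) true (nat_lit 1) (V.cons (nat_lit 214) false (nat_lit 10) (V.cons (nat_lit 216) true (nat_lit 1) (V.cons (nat_lit 218) false (nat_lit 1) (V.cons (nat_lit 220) true (nat_lit 7) (V.cons (nat_lit 222) false (nat_lit 2) (V.cons (nat_lit 224) true (nat_lit 1) (V.cons (nat_lit 226)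 true (nat_lit 4) (V.cons (nat_lit 228) true (nat_lit 10) (V.cons (nat_lit 230) false (nat_lit 4) (V.cons (nat_lit 232) true (nat_lit 4) (V.cons (nat_lit 236) false (nat_lit 3) (V.cons (nat_lit 238) true (nat_lit 10) V.nil))))))))))))))) (Rw.rw (nat_lit 0) (nat_lit 0) (Ct.cons false (nat_lit 1) (nat_lit 0) (nat_lit 4611701411598565378) Ct.nil))) (Tb.leaf (nat_lit 12339) (nat_lit 169) (V.cons (nat_lit 224) false (nat_lit 1) (V.cons (nat_lit 230) true (nat_lit 1) (V.cons (nat_lit 236) true (nat_lit 1) V.nil))) (Rw.rw (nat_lit 0) (nat_lit 0) (Ct.cons false (nat_lit 1) (nat_lit 0) (nat_lit 20752595879020462084) Ct.nil)))) (Tb.node (nat_lit 12347) (Tb.leaf (nat_lit 12341) (nat_lit 165) (V.cons (nat_lit 238) false (nat_lit 1) V.nil) (Rw.df (nat_lit 238) (nat_lit 0) (nat_lit 0))) (Tb.leaf (nat_lit 12347) (nat_lit 230) (V.cons (nat_lit 280) false (nat_lit 1) (V.cons (nat_lit 284) false (nat_lit 1) (V.cons (nat_lit 292) true (nat_lit 1)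 V.nil))) (Rw.rw (nat_lit 0) (nat_lit 0) (Ct.cons true (nat_lit 1) (nat_lit 0) (nat_lit 13835060254311710722) Ct.nil))))) tB72)
def tB74 : Tb := (Tb.node (nat_lit 12337) tB71 tB73)
def tB75 : Tb := (Tb.node (nat_lit 14381) (Tb.node (nat_lit 14379) (Tb.leaf (nat_lit 14375) (nat_lit 131) (V.cons (nat_lit 206) false (nat_lit 1) V.nil) (Rw.df (nat_lit 206) (nat_lit 0) (nat_lit 0))) (Tb.leaf (nat_lit 14379) (nat_lit 168) (V.cons (nat_lit 210) false (nat_lit 1) (V.cons (nat_lit 230) false (nat_lit 1) (V.cons (nat_lit 232) true (nat_lit 1) (V.cons (nat_lit 238) true (nat_lit 1) V.nil)))) (Rw.rw (nat_lit 0) (nat_lit 0) (Ct.cons false (nat_lit 1) (nat_lit 0) (nat_lit 4611699212573212674) Ct.nil)))) (Tb.node (nat_lit 14383) (Tb.leaf (nat_lit 14381) (nat_lit 173) (V.cons (nat_lit 208) false (nat_lit 1) (V.cons (nat_lit 210) false (nat_lit 3) (V.cons (nat_lit 212) false (nat_lit 2) (V.cons (nat_lit 214) true (nat_lit 1) (V.cons (nat_lit 216)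 true (nat_lit 2) (V.cons (nat_lit 218) true (nat_lit 1) (V.cons (nat_lit 222) false (nat_lit 3) (V.cons (nat_lit 224) true (nat_lit 3) (V.cons (nat_lit 228) true (nat_lit 2) (V.cons (nat_lit 232) true (nat_lit 3) (V.cons (nat_lit 234) false (nat_lit 2) (V.cons (nat_lit 238) true (nat_lit 3) V.nil)))))))))))) (Rw.rw (nat_lit 0) (nat_lit 0) (Ct.cons true (nat_lit 1) (nat_lit 0) (nat_lit 6917546619831320580) Ct.nil))) (Tb.node (nat_lit 14385) (Tb.leaf (nat_lit 14383) (nat_lit 180) (V.cons (nat_lit 210) true (nat_lit 3) (V.cons (nat_lit 212) false (nat_lit 1) (V.cons (nat_lit 214) true (nat_lit 6) (V.cons (nat_lit 216) false (nat_lit 1) (V.cons (nat_lit 218) true (nat_lit 1) (V.cons (nat_lit 220) false (nat_lit 5) (V.cons (nat_lit 222) true (nat_lit 2) (V.cons (nat_lit 224) false (nat_lit 1) (V.cons (nat_lit 226) false (nat_lit 3) (V.cons (nat_lit 228) false (nat_lit 7) (V.cons (nat_lit 230) true (nat_lit 2) (V.cons (nat_lit 232)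 false (nat_lit 3) (V.cons (nat_lit 234) true (nat_lit 1) (V.cons (nat_lit 236) true (nat_lit 2) (V.cons (nat_lit 238) false (nat_lit 7) V.nil))))))))))))))) (Rw.rw (nat_lit 0) (nat_lit 0) (Ct.cons true (nat_lit 1) (nat_lit 0) (nat_lit 9223378633945513988) Ct.nil))) (Tb.leaf (nat_lit 14385) (nat_lit 193) (V.cons (nat_lit 240) false (nat_lit 1) (V.cons (nat_lit 242) false (nat_lit 1) (V.cons (nat_lit 244) true (nat_lit 1) (V.cons (nat_lit 248) true (nat_lit 1) (V.cons (nat_lit 250) false (nat_lit 2) V.nil))))) (Rw.rw (nat_lit 0) (nat_lit 0) (Ct.cons false (nat_lit 1) (nat_lit 0) (nat_lit 4611701411596468226) (Ct.cons true (nat_lit 1) (nat_lit 1) (nat_lit 7253559529380390549585922) (Ct.cons false (nat_lit 1) (nat_lit 0) (nat_lit 6917535624731820036) Ct.nil))))))))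
def tB76 : Tb := (Tb.node (nat_lit 14375) (Tb.node (nat_lit 14371) (Tb.node (nat_lit 14363) (Tb.leaf (nat_lit 14361) (nat_lit 111) (V.cons (nat_lit 166) false (nat_lit 1) (V.cons (nat_lit 168) true (nat_lit 1) (V.cons (nat_lit 170) true (nat_lit 1) V.nil))) (Rw.rw (nat_lit 0) (nat_lit 0) (Ct.cons false (nat_lit 1) (nat_lit 0) (nat_lit 9223387430023856132) Ct.nil))) (Tb.leaf (nat_lit 14363) (nat_lit 113) (V.cons (nat_lit 164) true (nat_lit 1) (V.cons (nat_lit 166) false (nat_lit 1) (V.cons (nat_lit 170) false (nat_lit 2) (V.cons (nat_lit 172) true (nat_lit 3) (V.cons (nat_lit 174) true (nat_lit 3) V.nil))))) (Rw.rw (nat_lit 0) (nat_lit 0) (Ct.cons false (nat_lit 1) (nat_lit 0) (nat_lit 6917544420812259332) Ct.nil)))) (Tb.node (nat_lit 14373) (Tb.leaf (nat_lit 14371) (nat_lit 143) (V.cons (nat_lit 180) false (nat_lit 3) (V.cons (nat_lit 182) false (nat_lit 1) (V.cons (nat_lit 186) true (nat_lit 1) (V.cons (nat_lit 190) false (nat_lit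 2) (V.cons (nat_lit 192) false (nat_lit 1) (V.cons (nat_lit 194) true (nat_lit 3) (V.cons (nat_lit 206) true (nat_lit 2) V.nil))))))) (Rw.rw (nat_lit 0) (nat_lit 0) (Ct.cons false (nat_lit 1) (nat_lit 0) (nat_lit 6917537823748784130) Ct.nil))) (Tb.leaf (nat_lit 14373) (nat_lit 140) (V.cons (nat_lit 176) false (nat_lit 2) (V.cons (nat_lit 178) false (nat_lit 2) (V.cons (nat_lit 180) false (nat_lit 2) (V.cons (nat_lit 182) false (nat_lit 2) (V.cons (nat_lit 184) true (nat_lit 3) (V.cons (nat_lit 186) true (nat_lit 3) (V.cons (nat_lit 188) false (nat_lit 1) (V.cons (nat_lit 190) true (nat_lit 2) (V.cons (nat_lit 192) true (nat_lit 1) (V.cons (nat_lit 194) true (nat_lit 2) (V.cons (nat_lit 196) true (nat_lit 1) (V.cons (nat_lit 200) true (nat_lit 1) (V.cons (nat_lit 202) false (nat_lit 3) (V.cons (nat_lit 204) false (nat_lit 1) V.nil)))))))))))))) (Rw.rw (nat_lit 0) (nat_lit 0) (Ct.cons true (nat_lit 1) (nat_lit 0) (nat_lit 16140907661574012930)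 Ct.nil))))) tB75)
def tB77 : Tb := (Tb.node (nat_lit 16403) (Tb.node (nat_lit 16401) (Tb.leaf (nat_lit 14397) (nat_lit 287) (V.cons (nat_lit 328) true (nat_lit 3) (V.cons (nat_lit 332) true (nat_lit 3) (V.cons (nat_lit 334) false (nat_lit 3) (V.cons (nat_lit 336) false (nat_lit 3) (V.cons (nat_lit 338) false (nat_lit 1) (V.cons (nat_lit 340) true (nat_lit 4) V.nil)))))) (Rw.rw (nat_lit 0) (nat_lit 0) (Ct.cons false (nat_lit 1) (nat_lit 0) (nat_lit 4611708008666234882) Ct.nil))) (Tb.leaf (nat_lit 16401) (nat_lit 85) (V.cons (nat_lit 134) true (nat_lit 1) (V.cons (nat_lit 136) false (nat_lit 1) (V.cons (nat_lit 140) true (nat_lit 1) V.nil))) (Rw.rw (nat_lit 0) (nat_lit 0) (Ct.cons true (nat_lit 1) (nat_lit 0) (nat_lit 9223378633926639618) Ct.nil)))) (Tb.node (nat_lit 16413) (Tb.leaf (nat_lit 16403) (nat_lit 91) (V.cons (nat_lit 150) false (nat_lit 1) V.nil) (Rw.df (nat_lit 150) (nat_lit 0) (nat_lit 0))) (Tb.node (nat_lit 16417)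 (Tb.leaf (nat_lit 16413) (nat_lit 142) (V.cons (nat_lit 176) false (nat_lit 1) (V.cons (nat_lit 178) true (nat_lit 3) (V.cons (nat_lit 180) false (nat_lit 5) (V.cons (nat_lit 184) false (nat_lit 2) (V.cons (nat_lit 186) false (nat_lit 2) (V.cons (nat_lit 188) true (nat_lit 1) (V.cons (nat_lit 190) false (nat_lit 4) (V.cons (nat_lit 194) true (nat_lit 3) (V.cons (nat_lit 196) false (nat_lit 1) (V.cons (nat_lit 198) true (nat_lit 2) (V.cons (nat_lit 200) false (nat_lit 1) (V.cons (nat_lit 202) true (nat_lit 2) (V.cons (nat_lit 206) true (nat_lit 3) V.nil))))))))))))) (Rw.rw (nat_lit 1) (nat_lit 0) (Ct.cons true (nat_lit 2) (nat_lit 0) (nat_lit 18446750670785609732) (Ct.cons false (nat_lit 2) (nat_lit 0) (nat_lit 9223394027093622790) (Ct.cons true (nat_lit 6) (nat_lit 0) (nat_lit 11529221643142430722) (Ct.cons true (nat_lit 6) (nat_lit 0) (nat_lit 9223378633943416836) (Ct.cons false (nat_lit 2) (nat_lit 0) (nat_lit 16140907661574012930)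 (Ct.cons true (nat_lit 4) (nat_lit 0) (nat_lit 6917533425698078722) (Ct.cons false (nat_lit 4) (nat_lit 0) (nat_lit 9223387430023856130) (Ct.cons true (nat_lit 1) (nat_lit 1) (nat_lit 4835705584310322011832326) (Ct.cons true (nat_lit 6) (nat_lit 0) (nat_lit 11529219444121272322) (Ct.cons true (nat_lit 2) (nat_lit 0) (nat_lit 6917548818858770436) (Ct.cons false (nat_lit 2) (nat_lit 1) (nat_lit 9671411168609648901095426) (Ct.cons true (nat_lit 4) (nat_lit 0) (nat_lit 4611697013549957122) (Ct.cons true (nat_lit 4) (nat_lit 0) (nat_lit 6917540022761553922) Ct.nil))))))))))))))) (Tb.leaf (nat_lit 16417) (nat_lit 172) (V.cons (nat_lit 208) false (nat_lit 1) (V.cons (nat_lit 210) false (nat_lit 3) (V.cons (nat_lit 212) false (nat_lit 2) (V.cons (nat_lit 214) true (nat_lit 1) (V.cons (nat_lit 216) true (nat_lit 2) (V.cons (nat_lit 218) true (nat_lit 1) (V.cons (nat_lit 222) false (nat_lit 2) (V.cons (nat_lit 224) true (nat_lit 3) (V.cons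 (nat_lit 226) false (nat_lit 1) (V.cons (nat_lit 228) true (nat_lit 2) (V.cons (nat_lit 232) true (nat_lit 3) (V.cons (nat_lit 234) false (nat_lit 2) (V.cons (nat_lit 238) true (nat_lit 3) V.nil))))))))))))) (Rw.rw (nat_lit 0) (nat_lit 0) (Ct.cons true (nat_lit 1) (nat_lit 0) (nat_lit 4611694814535090178) Ct.nil))))))
def tB78 : Tb := (Tb.node (nat_lit 14397) (Tb.node (nat_lit 14393) (Tb.node (nat_lit 14389) (Tb.leaf (nat_lit 14387) (nat_lit 197) (V.cons (nat_lit 240) false (nat_lit 2) (V.cons (nat_lit 244) true (nat_lit 1) (V.cons (nat_lit 248) true (nat_lit 1) (V.cons (nat_lit 250) false (nat_lit 2) (V.cons (nat_lit 252) false (nat_lit 1) V.nil))))) (Rw.rw (nat_lit 0) (nat_lit 0) (Ct.cons true (nat_lit 1) (nat_lit 0) (nat_lit 16140905462548660226) Ct.nil))) (Tb.leaf (nat_lit 14389) (nat_lit 191) (V.cons (nat_lit 246) false (nat_lit 1) (V.cons (nat_lit 250) true (nat_lit 1) (V.cons (nat_lit 252) true (nat_lit 1) V.nil))) (Rw.rw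 (nat_lit 0) (nat_lit 0) (Ct.cons true (nat_lit 1) (nat_lit 0) (nat_lit 6917535624731820036) Ct.nil)))) (Tb.node (nat_lit 14395) (Tb.leaf (nat_lit 14393) (nat_lit 245) (V.cons (nat_lit 268) false (nat_lit 5) (V.cons (nat_lit 270) false (nat_lit 1) (V.cons (nat_lit 272) false (nat_lit 3) (V.cons (nat_lit 274) false (nat_lit 1) (V.cons (nat_lit 276) true (nat_lit 2) (V.cons (nat_lit 278) false (nat_lit 6) (V.cons (nat_lit 280) true (nat_lit 3) (V.cons (nat_lit 282) true (nat_lit 4) (V.cons (nat_lit 284) false (nat_lit 1) (V.cons (nat_lit 286) false (nat_lit 2) (V.cons (nat_lit 288) true (nat_lit 5) (V.cons (nat_lit 290) false (nat_lit 5) (V.cons (nat_lit 292) false (nat_lit 3) (V.cons (nat_lit 294) false (nat_lit 2) (V.cons (nat_lit 296) true (nat_lit 4) (V.cons (nat_lit 298) true (nat_lit 2) V.nil)))))))))))))))) (Rw.rw (nat_lit 0) (nat_lit 0) (Ct.cons false (nat_lit 1) (nat_lit 0) (nat_lit 4611703610619723778) Ct.nil))) (Tb.leaf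 (nat_lit 14395) (nat_lit 254) (V.cons (nat_lit 300) false (nat_lit 1) (V.cons (nat_lit 304) true (nat_lit 1) (V.cons (nat_lit 308) true (nat_lit 1) V.nil))) (Rw.rw (nat_lit 0) (nat_lit 0) (Ct.cons false (nat_lit 1) (nat_lit 0) (nat_lit 4611705809642979330) Ct.nil))))) tB77)
def tB79 : Tb := (Tb.node (nat_lit 14387) tB76 tB78)
def tB80 : Tb := (Tb.node (nat_lit 14361) tB74 tB79)
def tB81 : Tb := (Tb.node (nat_lit 18455) (Tb.node (nat_lit 18451) (Tb.leaf (nat_lit 16439) (nat_lit 271) (V.cons (nat_lit 314) false (nat_lit 3) (V.cons (nat_lit 320) false (nat_lit 1) (V.cons (nat_lit 324) true (nat_lit 3) (V.cons (nat_lit 326) false (nat_lit 2) V.nil)))) (Rw.rw (nat_lit 0) (nat_lit 0) (Ct.cons false (nat_lit 1) (nat_lit 0) (nat_lit 23058438888234156034) Ct.nil))) (Tb.leaf (nat_lit 18451) (nat_lit 99) (V.cons (nat_lit 152) true (nat_lit 1) (V.cons (nat_lit 154) false (nat_lit 1) (V.cons (nat_lit 158) true (nat_lit 1) V.nil))) (Rw.rw (nat_lit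 0) (nat_lit 0) (Ct.cons true (nat_lit 1) (nat_lit 0) (nat_lit 6917533425689690114) Ct.nil)))) (Tb.node (nat_lit 18457) (Tb.leaf (nat_lit 18455) (nat_lit 132) (V.cons (nat_lit 186) false (nat_lit 1) (V.cons (nat_lit 198) true (nat_lit 1) (V.cons (nat_lit 202) true (nat_lit 1) (V.cons (nat_lit 206) true (nat_lit 1) V.nil)))) (Rw.rw (nat_lit 0) (nat_lit 0) (Ct.cons true (nat_lit 1) (nat_lit 0) (nat_lit 9223378633943416836) Ct.nil))) (Tb.node (nat_lit 18459) (Tb.leaf (nat_lit 18457) (nat_lit 134) (V.cons (nat_lit 178) false (nat_lit 1) (V.cons (nat_lit 194) true (nat_lit 1) (V.cons (nat_lit 198) false (nat_lit 1) V.nil))) (Rw.rw (nat_lit 0) (nat_lit 0) (Ct.cons true (nat_lit 1) (nat_lit 0) (nat_lit 6917535624723431426) Ct.nil))) (Tb.leaf (nat_lit 18459) (nat_lit 138) (V.cons (nat_lit 176) false (nat_lit 1) (V.cons (nat_lit 178) false (nat_lit 3) (V.cons (nat_lit 180) false (nat_lit 1) (V.cons (nat_lit 182) false (nat_lit 2) (V.cons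 (nat_lit 184) true (nat_lit 3) (V.cons (nat_lit 186) true (nat_lit 3) (V.cons (nat_lit 188) false (nat_lit 1) (V.cons (nat_lit 190) true (nat_lit 2) (V.cons (nat_lit 192) true (nat_lit 1) (V.cons (nat_lit 194) true (nat_lit 2) (V.cons (nat_lit 196) true (nat_lit 2) (V.cons (nat_lit 202) false (nat_lit 3) (V.cons (nat_lit 204) false (nat_lit 1) V.nil))))))))))))) (Rw.rw (nat_lit 0) (nat_lit 0) (Ct.cons true (nat_lit 1) (nat_lit 0) (nat_lit 20752595879022559236) Ct.nil))))))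
def tB82 : Tb := (Tb.node (nat_lit 16439) (Tb.node (nat_lit 16435) (Tb.node (nat_lit 16433) (Tb.leaf (nat_lit 16425) (nat_lit 211) (V.cons (nat_lit 254) true (nat_lit 3) (V.cons (nat_lit 256) false (nat_lit 3) (V.cons (nat_lit 260) false (nat_lit 1) (V.cons (nat_lit 262) false (nat_lit 3) (V.cons (nat_lit 264) true (nat_lit 4) (V.cons (nat_lit 266) true (nat_lit 3) V.nil)))))) (Rw.rw (nat_lit 0) (nat_lit 0) (Ct.cons false (nat_lit 1) (nat_lit 0) (nat_lit 20752595879022559234) Ct.nil))) (Tb.leaf (nat_lit 16433) (nat_lit 229) (V.cons (nat_lit 268) false (nat_lit 1) (V.cons (nat_lit 272) false (nat_lit 2) (V.cons (nat_lit 274) false (nat_lit 1) (V.cons (nat_lit 278) false (nat_lit 1) (V.cons (nat_lit 280) true (nat_lit 1) (V.cons (nat_lit 282) true (nat_lit 1) (V.cons (nat_lit 284) false (nat_lit 1) (V.cons (nat_lit 296) true (nat_lit 1) V.nil)))))))) (Rw.rw (nat_lit 0) (nat_lit 0) (Ct.cons false (nat_lit 1) (nat_lit 0) (nat_lit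 16140909860590977026) Ct.nil)))) (Tb.node (nat_lit 16437) (Tb.leaf (nat_lit 16435) (nat_lit 235) (V.cons (nat_lit 268) false (nat_lit 1) (V.cons (nat_lit 270) false (nat_lit 1) (V.cons (nat_lit 272) false (nat_lit 1) (V.cons (nat_lit 274) true (nat_lit 1) (V.cons (nat_lit 276) true (nat_lit 2) (V.cons (nat_lit 278) false (nat_lit 2) (V.cons (nat_lit 280) false (nat_lit 1) (V.cons (nat_lit 282) false (nat_lit 1) (V.cons (nat_lit 284) false (nat_lit 2) (V.cons (nat_lit 286) true (nat_lit 1) (V.cons (nat_lit 288) true (nat_lit 2) (V.cons (nat_lit 290) true (nat_lit 1) (V.cons (nat_lit 294) false (nat_lit 2) (V.cons (nat_lit 296) true (nat_lit 3) V.nil)))))))))))))) (Rw.rw (nat_lit 0) (nat_lit 0) (Ct.cons true (nat_lit 1) (nat_lit 0) (nat_lit 18446748471762354178) Ct.nil))) (Tb.leaf (nat_lit 16437) (nat_lit 242) (V.cons (nat_lit 268) true (nat_lit 5) (V.cons (nat_lit 270) true (nat_lit 1) (V.cons (nat_lit 272) true (nat_lit 3) (V.cons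 (nat_lit 274) true (nat_lit 1) (V.cons (nat_lit 276) false (nat_lit 3) (V.cons (nat_lit 278) true (nat_lit 6) (V.cons (nat_lit 280) false (nat_lit 3) (V.cons (nat_lit 282) false (nat_lit 4) (V.cons (nat_lit 284) true (nat_lit 1) (V.cons (nat_lit 286) true (nat_lit 3) (V.cons (nat_lit 288) false (nat_lit 6) (V.cons (nat_lit 290) true (nat_lit 6) (V.cons (nat_lit 292) true (nat_lit 3) (V.cons (nat_lit 294) true (nat_lit 3) (V.cons (nat_lit 296) false (nat_lit 4) (V.cons (nat_lit 298) false (nat_lit 2) V.nil)))))))))))))))) (Rw.rw (nat_lit 0) (nat_lit 0) (Ct.cons false (nat_lit 1) (nat_lit 0) (nat_lit 23058438888236253186) Ct.nil))))) tB81)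
def tB83 : Tb := (Tb.node (nat_lit 18477) (Tb.node (nat_lit 18475) (Tb.leaf (nat_lit 18471) (nat_lit 210) (V.cons (nat_lit 254) true (nat_lit 3) (V.cons (nat_lit 256) false (nat_lit 2) (V.cons (nat_lit 258) false (nat_lit 1) (V.cons (nat_lit 262) false (nat_lit 2) (V.cons (nat_lit 264) true (nat_lit 3) (V.cons (nat_lit 266) true (nat_lit 3) V.nil)))))) (Rw.rw (nat_lit 0) (nat_lit 0) (Ct.cons false (nat_lit 1) (nat_lit 0) (nat_lit 6917548818858770434) Ct.nil))) (Tb.leaf (nat_lit 18475) (nat_lit 232) (V.cons (nat_lit 270) false (nat_lit 1) (V.cons (nat_lit 284) false (nat_lit 1) (V.cons (nat_lit 292) true (nat_lit 1) V.nil))) (Rw.rw (nat_lit 0) (nat_lit 0) (Ct.cons true (nat_lit 1) (nat_lit 0) (nat_lit 6917542221782712322) Ct.nil)))) (Tb.node (nat_lit 18479) (Tb.leaf (nat_lit 18477) (nat_lit 244) (V.cons (nat_lit 268) true (nat_lit 5) (V.cons (nat_lit 270) true (nat_lit 1) (V.cons (nat_lit 272) true (nat_lit 2) (V.cons (nat_lit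 274) true (nat_lit 3) (V.cons (nat_lit 278) true (nat_lit 5) (V.cons (nat_lit 280) false (nat_lit 6) (V.cons (nat_lit 282) false (nat_lit 6) (V.cons (nat_lit 284) false (nat_lit 2) (V.cons (nat_lit 286) true (nat_lit 5) (V.cons (nat_lit 288) false (nat_lit 5) (V.cons (nat_lit 290) true (nat_lit 8) (V.cons (nat_lit 292) true (nat_lit 3) (V.cons (nat_lit 298) false (nat_lit 2) V.nil))))))))))))) (Rw.rw (nat_lit 0) (nat_lit 0) (Ct.cons false (nat_lit 1) (nat_lit 0) (nat_lit 18446750670783512578) Ct.nil))) (Tb.node (nat_lit 18481) (Tb.leaf (nat_lit 18479) (nat_lit 231) (V.cons (nat_lit 278) false (nat_lit 1) (V.cons (nat_lit 280) true (nat_lit 1) (V.cons (nat_lit 284) true (nat_lit 1) (V.cons (nat_lit 286) false (nat_lit 1) (V.cons (nat_lit 288) true (nat_lit 1) (V.cons (nat_lit 290) false (nat_lit 1) (V.cons (nat_lit 292) false (nat_lit 1) (V.cons (nat_lit 298) true (nat_lit 1) V.nil)))))))) (Rw.rw (nat_lit 0) (nat_lit 0) (Ct.cons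 false (nat_lit 1) (nat_lit 0) (nat_lit 4611705809645076482) Ct.nil))) (Tb.leaf (nat_lit 18481) (nat_lit 256) (V.cons (nat_lit 302) false (nat_lit 1) (V.cons (nat_lit 304) true (nat_lit 1) (V.cons (nat_lit 308) true (nat_lit 1) V.nil))) (Rw.rw (nat_lit 0) (nat_lit 0) (Ct.cons false (nat_lit 1) (nat_lit 0) (nat_lit 4611692615516028930) Ct.nil))))))
def tB84 : Tb := (Tb.node (nat_lit 18471) (Tb.node (nat_lit 18467) (Tb.node (nat_lit 18465) (Tb.leaf (nat_lit 18463) (nat_lit 182) (V.cons (nat_lit 208) true (nat_lit 1) (V.cons (nat_lit 210) false (nat_lit 1) (V.cons (nat_lit 212) true (nat_lit 1) (V.cons (nat_lit 214) false (nat_lit 4) (V.cons (nat_lit 216) true (nat_lit 1) (V.cons (nat_lit 218) false (nat_lit 1) (V.cons (nat_lit 220) true (nat_lit 3) (V.cons (nat_lit 222) false (nat_lit 1) (V.cons (nat_lit 226) true (nat_lit 1) (V.cons (nat_lit 228) true (nat_lit 4) (V.cons (nat_lit 232) true (nat_lit 1) (V.cons (nat_lit 238) true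 (nat_lit 3) V.nil)))))))))))) (Rw.rw (nat_lit 0) (nat_lit 0) (Ct.cons true (nat_lit 1) (nat_lit 0) (nat_lit 4611692615509737474) Ct.nil))) (Tb.leaf (nat_lit 18465) (nat_lit 192) (V.cons (nat_lit 242) false (nat_lit 1) (V.cons (nat_lit 246) false (nat_lit 1) (V.cons (nat_lit 248) true (nat_lit 1) V.nil))) (Rw.rw (nat_lit 0) (nat_lit 0) (Ct.cons false (nat_lit 1) (nat_lit 0) (nat_lit 16140907661569818626) Ct.nil)))) (Tb.node (nat_lit 18469) (Tb.leaf (nat_lit 18467) (nat_lit 207) (V.cons (nat_lit 254) false (nat_lit 1) (V.cons (nat_lit 256) true (nat_lit 1) (V.cons (nat_lit 266) false (nat_lit 1) V.nil))) (Rw.rw (nat_lit 0) (nat_lit 0) (Ct.cons false (nat_lit 1) (nat_lit 0) (nat_lit 11529221643140333570) Ct.nil))) (Tb.leaf (nat_lit 18469) (nat_lit 205) (V.cons (nat_lit 260) false (nat_lit 1) (V.cons (nat_lit 262) true (nat_lit 1) (V.cons (nat_lit 266) false (nat_lit 1) V.nil))) (Rw.rw (nat_lit 0) (nat_lit 0) (Ct.cons false (nat_lit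 1) (nat_lit 0) (nat_lit 9223391828070367234) Ct.nil))))) tB83)
def tB85 : Tb := (Tb.node (nat_lit 18463) tB82 tB84)
def tB86 : Tb := (Tb.node (nat_lit 20507) (Tb.node (nat_lit 20505) (Tb.leaf (nat_lit 20503) (nat_lit 166) (V.cons (nat_lit 208) false (nat_lit 1) (V.cons (nat_lit 218) true (nat_lit 1) (V.cons (nat_lit 220) true (nat_lit 1) (V.cons (nat_lit 224) true (nat_lit 1) (V.cons (nat_lit 226) false (nat_lit 1) (V.cons (nat_lit 228) false (nat_lit 1) V.nil)))))) (Rw.rw (nat_lit 0) (nat_lit 0) (Ct.cons true (nat_lit 1) (nat_lit 0) (nat_lit 4611690416484384770) Ct.nil))) (Tb.leaf (nat_lit 20505) (nat_lit 183) (V.cons (nat_lit 208) false (nat_lit 1) (V.cons (nat_lit 210) true (nat_lit 3) (V.cons (nat_lit 212) false (nat_lit 1) (V.cons (nat_lit 214) true (nat_lit 6) (V.cons (nat_lit 218) true (nat_lit 1) (V.cons (nat_lit 220) false (nat_lit 4) (V.cons (nat_lit 222) true (nat_lit 1) (V.cons (nat_lit 224) false (nat_lit 1) (V.cons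 (nat_lit 226) false (nat_lit 3) (V.cons (nat_lit 228) false (nat_lit 6) (V.cons (nat_lit 230) true (nat_lit 3) (V.cons (nat_lit 232) false (nat_lit 3) (V.cons (nat_lit 236) true (nat_lit 3) (V.cons (nat_lit 238) false (nat_lit 6) V.nil)))))))))))))) (Rw.rw (nat_lit 0) (nat_lit 0) (Ct.cons true (nat_lit 1) (nat_lit 0) (nat_lit 6917533425700175874) Ct.nil)))) (Tb.node (nat_lit 20509) (Tb.leaf (nat_lit 20507) (nat_lit 174) (V.cons (nat_lit 210) false (nat_lit 3) (V.cons (nat_lit 212) false (nat_lit 1) (V.cons (nat_lit 216) true (nat_lit 2) (V.cons (nat_lit 218) true (nat_lit 1) (V.cons (nat_lit 222) false (nat_lit 3) (V.cons (nat_lit 224) true (nat_lit 3) (V.cons (nat_lit 228) true (nat_lit 3) (V.cons (nat_lit 232) true (nat_lit 3) (V.cons (nat_lit 234) false (nat_lit 3) (V.cons (nat_lit 238) true (nat_lit 3) V.nil)))))))))) (Rw.rw (nat_lit 0) (nat_lit 0) (Ct.cons false (nat_lit 1) (nat_lit 0) (nat_lit 16140905462550757378) Ct.nil)))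 (Tb.node (nat_lit 20515) (Tb.leaf (nat_lit 20509) (nat_lit 195) (V.cons (nat_lit 240) true (nat_lit 2) (V.cons (nat_lit 242) true (nat_lit 1) (V.cons (nat_lit 244) false (nat_lit 3) (V.cons (nat_lit 250) true (nat_lit 3) V.nil)))) (Rw.rw (nat_lit 0) (nat_lit 0) (Ct.cons true (nat_lit 1) (nat_lit 0) (nat_lit 6917533425702273026) Ct.nil))) (Tb.leaf (nat_lit 20515) (nat_lit 243) (V.cons (nat_lit 268) false (nat_lit 5) (V.cons (nat_lit 272) false (nat_lit 2) (V.cons (nat_lit 276) true (nat_lit 2) (V.cons (nat_lit 278) false (nat_lit 4) (V.cons (nat_lit 280) true (nat_lit 2) (V.cons (nat_lit 282) true (nat_lit 2) (V.cons (nat_lit 286) false (nat_lit 1) (V.cons (nat_lit 288) true (nat_lit 5) (V.cons (nat_lit 290) false (nat_lit 5) (V.cons (nat_lit 292) false (nat_lit 3) (V.cons (nat_lit 294) false (nat_lit 2) (V.cons (nat_lit 296) true (nat_lit 3) (V.cons (nat_lit 298) true (nat_lit 2) V.nil))))))))))))) (Rw.rw (nat_lit 0) (nat_lit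 0) (Ct.cons false (nat_lit 1) (nat_lit 0) (nat_lit 6917537823755075586) Ct.nil))))))
def tB87 : Tb := (Tb.node (nat_lit 20503) (Tb.node (nat_lit 18487) (Tb.node (nat_lit 18485) (Tb.leaf (nat_lit 18483) (nat_lit 255) (V.cons (nat_lit 300) false (nat_lit 1) (V.cons (nat_lit 302) false (nat_lit 1) (V.cons (nat_lit 306) true (nat_lit 1) (V.cons (nat_lit 308) true (nat_lit 1) (V.cons (nat_lit 310) true (nat_lit 1) (V.cons (nat_lit 312) true (nat_lit 1) V.nil)))))) (Rw.rw (nat_lit 0) (nat_lit 0) (Ct.cons false (nat_lit 1) (nat_lit 0) (nat_lit 6917548818854576130) Ct.nil))) (Tb.leaf (nat_lit 18485) (nat_lit 252) (V.cons (nat_lit 312) false (nat_lit 1) V.nil) (Rw.df (nat_lit 312) (nat_lit 0) (nat_lit 0)))) (Tb.node (nat_lit 20501) (Tb.leaf (nat_lit 18487) (nat_lit 283) (V.cons (nat_lit 330) false (nat_lit 1) (V.cons (nat_lit 334) true (nat_lit 1) (V.cons (nat_lit 338) true (nat_lit 1) V.nil))) (Rw.rw (nat_lit 0) (nat_lit 0) (Ct.cons false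 (nat_lit 1) (nat_lit 0) (nat_lit 23058436689210900482) Ct.nil))) (Tb.leaf (nat_lit 20501) (nat_lit 148) (V.cons (nat_lit 176) false (nat_lit 1) (V.cons (nat_lit 178) false (nat_lit 6) (V.cons (nat_lit 180) true (nat_lit 3) (V.cons (nat_lit 182) false (nat_lit 3) (V.cons (nat_lit 184) true (nat_lit 6) (V.cons (nat_lit 186) true (nat_lit 7) (V.cons (nat_lit 188) false (nat_lit 3) (V.cons (nat_lit 190) true (nat_lit 7) (V.cons (nat_lit 192) false (nat_lit 1) (V.cons (nat_lit 196) true (nat_lit 4) (V.cons (nat_lit 198) false (nat_lit 3) (V.cons (nat_lit 200) true (nat_lit 3) (V.cons (nat_lit 202) false (nat_lit 7) (V.cons (nat_lit 204) true (nat_lit 1) (V.cons (nat_lit 206) false (nat_lit 4) V.nil))))))))))))))) (Rw.rw (nat_lit 0) (nat_lit 0) (Ct.cons false (nat_lit 1) (nat_lit 0) (nat_lit 9223394027093622790) Ct.nil))))) tB86)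
def tB88 : Tb := (Tb.node (nat_lit 20529) (Tb.node (nat_lit 20527) (Tb.leaf (nat_lit 20525) (nat_lit 273) (V.cons (nat_lit 314) true (nat_lit 2) (V.cons (nat_lit 316) false (nat_lit 1) (V.cons (nat_lit 320) false (nat_lit 1) (V.cons (nat_lit 324) false (nat_lit 1) (V.cons (nat_lit 326) true (nat_lit 2) V.nil))))) (Rw.rw (nat_lit 0) (nat_lit 0) (Ct.cons true (nat_lit 1) (nat_lit 0) (nat_lit 23058434490191839234) Ct.nil))) (Tb.leaf (nat_lit 20527) (nat_lit 269) (V.cons (nat_lit 314) false (nat_lit 1) (V.cons (nat_lit 320) false (nat_lit 1) (V.cons (nat_lit 322) false (nat_lit 1) (V.cons (nat_lit 324) true (nat_lit 2) (V.cons (nat_lit 326) false (nat_lit 1) V.nil))))) (Rw.rw (nat_lit 1) (nat_lit 0) (Ct.cons true (nat_lit 2) (nat_lit 0) (nat_lit 23058438888234156034) (Ct.cons false (nat_lit 2) (nat_lit 0) (nat_lit 4611703610617626626) (Ct.cons true (nat_lit 1) (nat_lit 1) (nat_lit 9671411168607449873645570) Ct.nil)))))) (Tb.node (nat_lit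 20531) (Tb.leaf (nat_lit 20529) (nat_lit 284) (V.cons (nat_lit 328) false (nat_lit 1) (V.cons (nat_lit 332) false (nat_lit 1) (V.cons (nat_lit 334) true (nat_lit 1) V.nil))) (Rw.rw (nat_lit 0) (nat_lit 0) (Ct.cons false (nat_lit 1) (nat_lit 0) (nat_lit 4611692615518126082) Ct.nil))) (Tb.node (nat_lit 20533) (Tb.leaf (nat_lit 20531) (nat_lit 281) (V.cons (nat_lit 330) false (nat_lit 1) (V.cons (nat_lit 334) true (nat_lit 1) (V.cons (nat_lit 336) true (nat_lit 1) V.nil))) (Rw.rw (nat_lit 0) (nat_lit 0) (Ct.cons true (nat_lit 1) (nat_lit 0) (nat_lit 4611690416492773378) Ct.nil))) (Tb.leaf (nat_lit 20533) (nat_lit 282) (V.cons (nat_lit 330) false (nat_lit 1) (V.cons (nat_lit 332) false (nat_lit 1) (V.cons (nat_lit 334) true (nat_lit 1) (V.cons (nat_lit 336) true (nat_lit 1) (V.cons (nat_lit 338) true (nat_lit 1) (V.cons (nat_lit 340) false (nat_lit 1) V.nil)))))) (Rw.rw (nat_lit 0) (nat_lit 0) (Ct.cons false (nat_lit 1) (nat_lit 0)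 (nat_lit 23058434490189742082) Ct.nil))))))
def tB89 : Tb := (Tb.node (nat_lit 20525) (Tb.node (nat_lit 20521) (Tb.node (nat_lit 20519) (Tb.leaf (nat_lit 20517) (nat_lit 234) (V.cons (nat_lit 274) true (nat_lit 2) (V.cons (nat_lit 276) true (nat_lit 3) (V.cons (nat_lit 278) false (nat_lit 1) (V.cons (nat_lit 280) false (nat_lit 3) (V.cons (nat_lit 282) false (nat_lit 3) (V.cons (nat_lit 284) false (nat_lit 3) (V.cons (nat_lit 286) true (nat_lit 3) (V.cons (nat_lit 288) true (nat_lit 1) (V.cons (nat_lit 290) true (nat_lit 3) (V.cons (nat_lit 294) false (nat_lit 3) (V.cons (nat_lit 296) true (nat_lit 3) V.nil))))))))))) (Rw.rw (nat_lit 0) (nat_lit 0) (Ct.cons true (nat_lit 1) (nat_lit 0) (nat_lit 6917533425704370178) Ct.nil))) (Tb.leaf (nat_lit 20519) (nat_lit 241) (V.cons (nat_lit 268) true (nat_lit 5) (V.cons (nat_lit 270) true (nat_lit 1) (V.cons (nat_lit 272) true (nat_lit 2) (V.cons (nat_lit 274) true (nat_lit 3) (V.cons (nat_lit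 278) true (nat_lit 5) (V.cons (nat_lit 280) false (nat_lit 6) (V.cons (nat_lit 282) false (nat_lit 6) (V.cons (nat_lit 284) false (nat_lit 3) (V.cons (nat_lit 286) true (nat_lit 5) (V.cons (nat_lit 288) false (nat_lit 5) (V.cons (nat_lit 290) true (nat_lit 9) (V.cons (nat_lit 292) true (nat_lit 3) (V.cons (nat_lit 298) false (nat_lit 3) V.nil))))))))))))) (Rw.rw (nat_lit 0) (nat_lit 0) (Ct.cons false (nat_lit 1) (nat_lit 0) (nat_lit 6917551017882025986) Ct.nil)))) (Tb.node (nat_lit 20523) (Tb.leaf (nat_lit 20521) (nat_lit 259) (V.cons (nat_lit 300) false (nat_lit 1) (V.cons (nat_lit 302) false (nat_lit 3) (V.cons (nat_lit 306) true (nat_lit 4) (V.cons (nat_lit 312) true (nat_lit 3) V.nil)))) (Rw.rw (nat_lit 0) (nat_lit 0) (Ct.cons true (nat_lit 1) (nat_lit 0) (nat_lit 6917533425706467330) Ct.nil))) (Tb.leaf (nat_lit 20523) (nat_lit 267) (V.cons (nat_lit 314) false (nat_lit 1) (V.cons (nat_lit 316) true (nat_lit 1) (V.cons (nat_lit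 318) false (nat_lit 1) (V.cons (nat_lit 320) true (nat_lit 1) (V.cons (nat_lit 322) true (nat_lit 1) V.nil))))) (Rw.rw (nat_lit 0) (nat_lit 0) (Ct.cons false (nat_lit 1) (nat_lit 0) (nat_lit 13835062453330771970) Ct.nil))))) tB88)
def tB90 : Tb := (Tb.node (nat_lit 20517) tB87 tB89)
def tB91 : Tb := (Tb.node (nat_lit 18483) tB85 tB90)
def tB92 : Tb := (Tb.node (nat_lit 16425) tB80 tB91)
def tB93 : Tb := (Tb.node (nat_lit 10293) tB69 tB92)
def tB94 : Tb := (Tb.node (nat_lit 6199) tB46 tB93)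
def tB : Tb := tB94
def tBD : DL := (DL.cons (nat_lit 10) (nat_lit 6) (nat_lit 8) (nat_lit 0) (nat_lit 0) (DL.cons (nat_lit 12) (nat_lit 4) (nat_lit 8) (nat_lit 0) (nat_lit 0) (DL.cons (nat_lit 14) (nat_lit 4) (nat_lit 6) (nat_lit 0) (nat_lit 0) (DL.cons (nat_lit 16) (nat_lit 2) (nat_lit 8) (nat_lit 0) (nat_lit 0) (DL.cons (nat_lit 18) (nat_lit 2) (nat_lit 6) (nat_lit 0) (nat_lit 0) (DL.cons (nat_lit 20) (nat_lit 2) (nat_lit 4) (nat_lit 0) (nat_lit 0) (DL.cons (nat_lit 22) (nat_lit 6) (nat_lit 10) (nat_lit 0) (nat_lit 0) (DL.cons (nat_lit 24) (nat_lit 4) (nat_lit 10) (nat_lit 0) (nat_lit 0) (DL.cons (nat_lit 26) (nat_lit 6) (nat_lit 12) (nat_lit 0) (nat_lit 0) (DL.cons (nat_lit 28) (nat_lit 8) (nat_lit 14) (nat_lit 0) (nat_lit 0) (DL.cons (nat_lit 30) (nat_lit 6) (nat_lit 14) (nat_lit 0) (nat_lit 0) (DL.cons (nat_lit 32) (nat_lit 4) (nat_lit 12) (nat_lit 0) (nat_lit 0) (DL.cons (nat_lit 34) (nat_lit 4) (nat_lit 14) (nat_lit 0)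 (nat_lit 0) (DL.cons (nat_lit 36) (nat_lit 2) (nat_lit 10) (nat_lit 0) (nat_lit 0) (DL.cons (nat_lit 38) (nat_lit 6) (nat_lit 16) (nat_lit 0) (nat_lit 0) (DL.cons (nat_lit 40) (nat_lit 8) (nat_lit 18) (nat_lit 0) (nat_lit 0) (DL.cons (nat_lit 42) (nat_lit 6) (nat_lit 18) (nat_lit 0) (nat_lit 0) (DL.cons (nat_lit 44) (nat_lit 2) (nat_lit 12) (nat_lit 0) (nat_lit 0) (DL.cons (nat_lit 46) (nat_lit 4) (nat_lit 16) (nat_lit 0) (nat_lit 0) (DL.cons (nat_lit 48) (nat_lit 8) (nat_lit 20) (nat_lit 0) (nat_lit 0) (DL.cons (nat_lit 50) (nat_lit 2) (nat_lit 14) (nat_lit 0) (nat_lit 0) (DL.cons (nat_lit 52) (nat_lit 4) (nat_lit 18) (nat_lit 0) (nat_lit 0) (DL.cons (nat_lit 54) (nat_lit 6) (nat_lit 20) (nat_lit 0) (nat_lit 0) (DL.cons (nat_lit 56) (nat_lit 4) (nat_lit 20) (nat_lit 0) (nat_lit 0) (DL.cons (nat_lit 58) (nat_lit 2) (nat_lit 16) (nat_lit 0) (nat_lit 0) (DL.cons (nat_lit 60) (nat_lit 2) (nat_lit 18) (nat_lit 0) (nat_lit 0) (DL.cons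 (nat_lit 62) (nat_lit 2) (nat_lit 20) (nat_lit 0) (nat_lit 0) (DL.cons (nat_lit 64) (nat_lit 4) (nat_lit 22) (nat_lit 0) (nat_lit 0) (DL.cons (nat_lit 66) (nat_lit 6) (nat_lit 24) (nat_lit 0) (nat_lit 0) (DL.cons (nat_lit 68) (nat_lit 6) (nat_lit 26) (nat_lit 0) (nat_lit 0) (DL.cons (nat_lit 70) (nat_lit 8) (nat_lit 30) (nat_lit 0) (nat_lit 0) (DL.cons (nat_lit 72) (nat_lit 4) (nat_lit 24) (nat_lit 0) (nat_lit 0) (DL.cons (nat_lit 74) (nat_lit 4) (nat_lit 26) (nat_lit 0) (nat_lit 0) (DL.cons (nat_lit 76) (nat_lit 4) (nat_lit 28) (nat_lit 0) (nat_lit 0) (DL.cons (nat_lit 78) (nat_lit 6) (nat_lit 32) (nat_lit 0) (nat_lit 0) (DL.cons (nat_lit 80) (nat_lit 4) (nat_lit 30) (nat_lit 0) (nat_lit 0) (DL.cons (nat_lit 82) (nat_lit 2) (nat_lit 22) (nat_lit 0) (nat_lit 0) (DL.cons (nat_lit 84) (nat_lit 6) (nat_lit 36) (nat_lit 0) (nat_lit 0) (DL.cons (nat_lit 86) (nat_lit 6) (nat_lit 38) (nat_lit 0) (nat_lit 0) (DL.cons (nat_lit 88) (nat_lit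 8) (nat_lit 42) (nat_lit 0) (nat_lit 0) (DL.cons (nat_lit 90) (nat_lit 2) (nat_lit 24) (nat_lit 0) (nat_lit 0) (DL.cons (nat_lit 92) (nat_lit 2) (nat_lit 26) (nat_lit 0) (nat_lit 0) (DL.cons (nat_lit 94) (nat_lit 2) (nat_lit 28) (nat_lit 0) (nat_lit 0) (DL.cons (nat_lit 96) (nat_lit 4) (nat_lit 36) (nat_lit 0) (nat_lit 0) (DL.cons (nat_lit 98) (nat_lit 4) (nat_lit 38) (nat_lit 0) (nat_lit 0) (DL.cons (nat_lit 100) (nat_lit 4) (nat_lit 40) (nat_lit 0) (nat_lit 0) (DL.cons (nat_lit 102) (nat_lit 6) (nat_lit 44) (nat_lit 0) (nat_lit 0) (DL.cons (nat_lit 104) (nat_lit 6) (nat_lit 46) (nat_lit 0) (nat_lit 0) (DL.cons (nat_lit 106) (nat_lit 8) (nat_lit 50) (nat_lit 0) (nat_lit 0) (DL.cons (nat_lit 108) (nat_lit 12) (nat_lit 18) (nat_lit 0) (nat_lit 0) (DL.cons (nat_lit 110) (nat_lit 2) (nat_lit 30) (nat_lit 0) (nat_lit 0) (DL.cons (nat_lit 112) (nat_lit 4) (nat_lit 42) (nat_lit 0) (nat_lit 0) (DL.cons (nat_lit 114) (nat_lit 6) (nat_lit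 52) (nat_lit 0) (nat_lit 0) (DL.cons (nat_lit 116) (nat_lit 6) (nat_lit 54) (nat_lit 0) (nat_lit 0) (DL.cons (nat_lit 118) (nat_lit 2) (nat_lit 32) (nat_lit 0) (nat_lit 0) (DL.cons (nat_lit 120) (nat_lit 4) (nat_lit 44) (nat_lit 0) (nat_lit 0) (DL.cons (nat_lit 122) (nat_lit 4) (nat_lit 46) (nat_lit 0) (nat_lit 0) (DL.cons (nat_lit 124) (nat_lit 8) (nat_lit 56) (nat_lit 0) (nat_lit 0) (DL.cons (nat_lit 126) (nat_lit 2) (nat_lit 34) (nat_lit 0) (nat_lit 0) (DL.cons (nat_lit 128) (nat_lit 4) (nat_lit 52) (nat_lit 0) (nat_lit 0) (DL.cons (nat_lit 130) (nat_lit 6) (nat_lit 56) (nat_lit 0) (nat_lit 0) (DL.cons (nat_lit 132) (nat_lit 14) (nat_lit 20) (nat_lit 0) (nat_lit 0) (DL.cons (nat_lit 134) (nat_lit 2) (nat_lit 36) (nat_lit 0) (nat_lit 0) (DL.cons (nat_lit 136) (nat_lit 2) (nat_lit 38) (nat_lit 0) (nat_lit 0) (DL.cons (nat_lit 138) (nat_lit 2) (nat_lit 40) (nat_lit 0) (nat_lit 0) (DL.cons (nat_lit 140) (nat_lit 8) (nat_lit 60)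 (nat_lit 0) (nat_lit 0) (DL.cons (nat_lit 142) (nat_lit 2) (nat_lit 42) (nat_lit 0) (nat_lit 0) (DL.cons (nat_lit 144) (nat_lit 2) (nat_lit 44) (nat_lit 0) (nat_lit 0) (DL.cons (nat_lit 146) (nat_lit 2) (nat_lit 46) (nat_lit 0) (nat_lit 0) (DL.cons (nat_lit 148) (nat_lit 4) (nat_lit 58) (nat_lit 0) (nat_lit 0) (DL.cons (nat_lit 150) (nat_lit 16) (nat_lit 20) (nat_lit 0) (nat_lit 0) (DL.cons (nat_lit 152) (nat_lit 2) (nat_lit 50) (nat_lit 0) (nat_lit 0) (DL.cons (nat_lit 154) (nat_lit 2) (nat_lit 52) (nat_lit 0) (nat_lit 0) (DL.cons (nat_lit 156) (nat_lit 2) (nat_lit 54) (nat_lit 0) (nat_lit 0) (DL.cons (nat_lit 158) (nat_lit 6) (nat_lit 62) (nat_lit 0) (nat_lit 0) (DL.cons (nat_lit 160) (nat_lit 2) (nat_lit 56) (nat_lit 0) (nat_lit 0) (DL.cons (nat_lit 162) (nat_lit 4) (nat_lit 64) (nat_lit 0) (nat_lit 0) (DL.cons (nat_lit 164) (nat_lit 4) (nat_lit 66) (nat_lit 0) (nat_lit 0) (DL.cons (nat_lit 166) (nat_lit 4) (nat_lit 68) (nat_lit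 0) (nat_lit 0) (DL.cons (nat_lit 168) (nat_lit 6) (nat_lit 72) (nat_lit 0) (nat_lit 0) (DL.cons (nat_lit 170) (nat_lit 6) (nat_lit 76) (nat_lit 0) (nat_lit 0) (DL.cons (nat_lit 172) (nat_lit 8) (nat_lit 80) (nat_lit 0) (nat_lit 0) (DL.cons (nat_lit 174) (nat_lit 14) (nat_lit 24) (nat_lit 0) (nat_lit 0) (DL.cons (nat_lit 176) (nat_lit 2) (nat_lit 66) (nat_lit 0) (nat_lit 0) (DL.cons (nat_lit 178) (nat_lit 2) (nat_lit 68) (nat_lit 0) (nat_lit 0) (DL.cons (nat_lit 180) (nat_lit 2) (nat_lit 70) (nat_lit 0) (nat_lit 0) (DL.cons (nat_lit 182) (nat_lit 4) (nat_lit 82) (nat_lit 0) (nat_lit 0) (DL.cons (nat_lit 184) (nat_lit 4) (nat_lit 84) (nat_lit 0) (nat_lit 0) (DL.cons (nat_lit 186) (nat_lit 4) (nat_lit 88) (nat_lit 0) (nat_lit 0) (DL.cons (nat_lit 188) (nat_lit 6) (nat_lit 92) (nat_lit 0) (nat_lit 0) (DL.cons (nat_lit 190) (nat_lit 6) (nat_lit 96) (nat_lit 0) (nat_lit 0) (DL.cons (nat_lit 192) (nat_lit 6) (nat_lit 100) (nat_lit 0)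 (nat_lit 0) (DL.cons (nat_lit 194) (nat_lit 6) (nat_lit 102) (nat_lit 0) (nat_lit 0) (DL.cons (nat_lit 196) (nat_lit 6) (nat_lit 106) (nat_lit 0) (nat_lit 0) (DL.cons (nat_lit 198) (nat_lit 6) (nat_lit 108) (nat_lit 0) (nat_lit 0) (DL.cons (nat_lit 200) (nat_lit 8) (nat_lit 110) (nat_lit 0) (nat_lit 0) (DL.cons (nat_lit 202) (nat_lit 8) (nat_lit 114) (nat_lit 0) (nat_lit 0) (DL.cons (nat_lit 204) (nat_lit 8) (nat_lit 116) (nat_lit 0) (nat_lit 0) (DL.cons (nat_lit 206) (nat_lit 14) (nat_lit 40) (nat_lit 0) (nat_lit 0) (DL.cons (nat_lit 208) (nat_lit 2) (nat_lit 72) (nat_lit 0) (nat_lit 0) (DL.cons (nat_lit 210) (nat_lit 2) (nat_lit 74) (nat_lit 0) (nat_lit 0) (DL.cons (nat_lit 212) (nat_lit 2) (nat_lit 76) (nat_lit 0) (nat_lit 0) (DL.cons (nat_lit 214) (nat_lit 2) (nat_lit 78) (nat_lit 0) (nat_lit 0) (DL.cons (nat_lit 216) (nat_lit 4) (nat_lit 90) (nat_lit 0) (nat_lit 0) (DL.cons (nat_lit 218) (nat_lit 4) (nat_lit 92) (nat_lit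 0) (nat_lit 0) (DL.cons (nat_lit 220) (nat_lit 4) (nat_lit 96) (nat_lit 0) (nat_lit 0) (DL.cons (nat_lit 222) (nat_lit 4) (nat_lit 98) (nat_lit 0) (nat_lit 0) (DL.cons (nat_lit 224) (nat_lit 4) (nat_lit 100) (nat_lit 0) (nat_lit 0) (DL.cons (nat_lit 226) (nat_lit 4) (nat_lit 104) (nat_lit 0) (nat_lit 0) (DL.cons (nat_lit 228) (nat_lit 4) (nat_lit 106) (nat_lit 0) (nat_lit 0) (DL.cons (nat_lit 230) (nat_lit 4) (nat_lit 108) (nat_lit 0) (nat_lit 0) (DL.cons (nat_lit 232) (nat_lit 6) (nat_lit 118) (nat_lit 0) (nat_lit 0) (DL.cons (nat_lit 234) (nat_lit 8) (nat_lit 126) (nat_lit 0) (nat_lit 0) (DL.cons (nat_lit 236) (nat_lit 8) (nat_lit 128) (nat_lit 0) (nat_lit 0) (DL.cons (nat_lit 238) (nat_lit 12) (nat_lit 54) (nat_lit 0) (nat_lit 0) (DL.cons (nat_lit 240) (nat_lit 2) (nat_lit 80) (nat_lit 0) (nat_lit 0) (DL.cons (nat_lit 242) (nat_lit 4) (nat_lit 110) (nat_lit 0) (nat_lit 0) (DL.cons (nat_lit 244) (nat_lit 4) (nat_lit 112) (nat_lit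 0) (nat_lit 0) (DL.cons (nat_lit 246) (nat_lit 4) (nat_lit 116) (nat_lit 0) (nat_lit 0) (DL.cons (nat_lit 248) (nat_lit 6) (nat_lit 128) (nat_lit 0) (nat_lit 0) (DL.cons (nat_lit 250) (nat_lit 6) (nat_lit 130) (nat_lit 0) (nat_lit 0) (DL.cons (nat_lit 252) (nat_lit 6) (nat_lit 132) (nat_lit 0) (nat_lit 0) (DL.cons (nat_lit 254) (nat_lit 2) (nat_lit 82) (nat_lit 0) (nat_lit 0) (DL.cons (nat_lit 256) (nat_lit 2) (nat_lit 84) (nat_lit 0) (nat_lit 0) (DL.cons (nat_lit 258) (nat_lit 2) (nat_lit 86) (nat_lit 0) (nat_lit 0) (DL.cons (nat_lit 260) (nat_lit 2) (nat_lit 88) (nat_lit 0) (nat_lit 0) (DL.cons (nat_lit 262) (nat_lit 6) (nat_lit 138) (nat_lit 0) (nat_lit 0) (DL.cons (nat_lit 264) (nat_lit 8) (nat_lit 142) (nat_lit 0) (nat_lit 0) (DL.cons (nat_lit 266) (nat_lit 10) (nat_lit 60) (nat_lit 0) (nat_lit 0) (DL.cons (nat_lit 268) (nat_lit 2) (nat_lit 90) (nat_lit 0) (nat_lit 0) (DL.cons (nat_lit 270) (nat_lit 2) (nat_lit 92) (nat_lit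 0) (nat_lit 0) (DL.cons (nat_lit 272) (nat_lit 2) (nat_lit 94) (nat_lit 0) (nat_lit 0) (DL.cons (nat_lit 274) (nat_lit 2) (nat_lit 96) (nat_lit 0) (nat_lit 0) (DL.cons (nat_lit 276) (nat_lit 2) (nat_lit 98) (nat_lit 0) (nat_lit 0) (DL.cons (nat_lit 278) (nat_lit 2) (nat_lit 100) (nat_lit 0) (nat_lit 0) (DL.cons (nat_lit 280) (nat_lit 2) (nat_lit 102) (nat_lit 0) (nat_lit 0) (DL.cons (nat_lit 282) (nat_lit 2) (nat_lit 104) (nat_lit 0) (nat_lit 0) (DL.cons (nat_lit 284) (nat_lit 2) (nat_lit 108) (nat_lit 0) (nat_lit 0) (DL.cons (nat_lit 286) (nat_lit 4) (nat_lit 134) (nat_lit 0) (nat_lit 0) (DL.cons (nat_lit 288) (nat_lit 4) (nat_lit 136) (nat_lit 0) (nat_lit 0) (DL.cons (nat_lit 290) (nat_lit 4) (nat_lit 140) (nat_lit 0) (nat_lit 0) (DL.cons (nat_lit 292) (nat_lit 6) (nat_lit 144) (nat_lit 0) (nat_lit 0) (DL.cons (nat_lit 294) (nat_lit 6) (nat_lit 146) (nat_lit 0) (nat_lit 0) (DL.cons (nat_lit 296) (nat_lit 8) (nat_lit 152) (nat_lit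 0) (nat_lit 0) (DL.cons (nat_lit 298) (nat_lit 8) (nat_lit 154) (nat_lit 0) (nat_lit 0) (DL.cons (nat_lit 300) (nat_lit 2) (nat_lit 112) (nat_lit 0) (nat_lit 0) (DL.cons (nat_lit 302) (nat_lit 2) (nat_lit 114) (nat_lit 0) (nat_lit 0) (DL.cons (nat_lit 304) (nat_lit 2) (nat_lit 116) (nat_lit 0) (nat_lit 0) (DL.cons (nat_lit 306) (nat_lit 4) (nat_lit 142) (nat_lit 0) (nat_lit 0) (DL.cons (nat_lit 308) (nat_lit 6) (nat_lit 152) (nat_lit 0) (nat_lit 0) (DL.cons (nat_lit 310) (nat_lit 6) (nat_lit 158) (nat_lit 0) (nat_lit 0) (DL.cons (nat_lit 312) (nat_lit 18) (nat_lit 54) (nat_lit 0) (nat_lit 0) (DL.cons (nat_lit 314) (nat_lit 2) (nat_lit 118) (nat_lit 0) (nat_lit 0) (DL.cons (nat_lit 316) (nat_lit 2) (nat_lit 120) (nat_lit 0) (nat_lit 0) (DL.cons (nat_lit 318) (nat_lit 2) (nat_lit 122) (nat_lit 0) (nat_lit 0) (DL.cons (nat_lit 320) (nat_lit 2) (nat_lit 124) (nat_lit 0) (nat_lit 0) (DL.cons (nat_lit 322) (nat_lit 4) (nat_lit 144)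 (nat_lit 0) (nat_lit 0) (DL.cons (nat_lit 324) (nat_lit 4) (nat_lit 148) (nat_lit 0) (nat_lit 0) (DL.cons (nat_lit 326) (nat_lit 8) (nat_lit 160) (nat_lit 0) (nat_lit 0) (DL.cons (nat_lit 328) (nat_lit 2) (nat_lit 126) (nat_lit 0) (nat_lit 0) (DL.cons (nat_lit 330) (nat_lit 2) (nat_lit 128) (nat_lit 0) (nat_lit 0) (DL.cons (nat_lit 332) (nat_lit 2) (nat_lit 132) (nat_lit 0) (nat_lit 0) (DL.cons (nat_lit 334) (nat_lit 4) (nat_lit 152) (nat_lit 0) (nat_lit 0) (DL.cons (nat_lit 336) (nat_lit 4) (nat_lit 156) (nat_lit 0) (nat_lit 0) (DL.cons (nat_lit 338) (nat_lit 4) (nat_lit 158) (nat_lit 0) (nat_lit 0) (DL.cons (nat_lit 340) (nat_lit 6) (nat_lit 160) (nat_lit 0) (nat_lit 0) DL.nil))))))))))))))))))))))))))))))))))))))))))))))))))))))))))))))))))))))))))))))))))))))))))))))))))))))))))))))))))))))))))))))))))))))))))))))))))))))))))))))))))))))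

def cB2 : Ct := (Ct.cons true (nat_lit 47445113663249) (nat_lit 2) (nat_lit 7253575670292450161721348) (Ct.cons true (nat_lit 89243528496426) (nat_lit 3) (nat_lit 7253559529415574921674754) (Ct.cons true (nat_lit 44133100368732) (nat_lit 2) (nat_lit 4835719419370576313057282) (Ct.cons true (nat_lit 78364963345368) (nat_lit 3) (nat_lit 4835705584332312244387842) (Ct.cons false (nat_lit 217854353526238) (nat_lit 3) (nat_lit 7253557223581361803100164) (Ct.cons false (nat_lit 124674351095386) (nat_lit 3) (nat_lit 4835705584321317136498696) (Ct.cons true (nat_lit 59226396975900) (nat_lit 2) (nat_lit 7253607952081385016000514) (Ct.cons true (nat_lit 24906575755116) (nat_lit 3) (nat_lit 4835705584358700525551622) (Ct.cons false (nat_lit 95835748004214) (nat_lit 2) (nat_lit 2417867780139118959263750) (Ct.cons false (nat_lit 136179649924914) (nat_lit 2) (nat_lit 2417911591156294004768772) (Ct.cons false (nat_lit 24561329532933) (nat_lit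 2) (nat_lit 7253624092986847556272132) (Ct.cons false (nat_lit 30463685004006) (nat_lit 3) (nat_lit 21760669364764736743276546) (Ct.cons true (nat_lit 47949680607756) (nat_lit 2) (nat_lit 4835726336895205916016642) (Ct.cons false (nat_lit 125367184470510) (nat_lit 3) (nat_lit 4835705584323516155559942) (Ct.cons true (nat_lit 29766826043277) (nat_lit 3) (nat_lit 33849929866743042581463042) (Ct.cons false (nat_lit 97452623390976) (nat_lit 2) (nat_lit 2417913896999303218462724) (Ct.cons false (nat_lit 56057206305324) (nat_lit 2) (nat_lit 4835765536228561567875074) (Ct.cons true (nat_lit 62554481606012) (nat_lit 3) (nat_lit 16924970697996636514156546) (Ct.cons true (nat_lit 69408906944402) (nat_lit 3) (nat_lit 7253559529437565156327428) (Ct.cons false (nat_lit 18471028183164) (nat_lit 2) (nat_lit 4835724031054395729772546) (Ct.cons false (nat_lit 1903916635320) (nat_lit 3) (nat_lit 31432078227513784232050690) (Ct.cons false (nat_lit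 132275906280) (nat_lit 3) (nat_lit 43521336423660075981209602) (Ct.cons false (nat_lit 5620049623440) (nat_lit 3) (nat_lit 36267783811815310144569346) (Ct.cons false (nat_lit 5755822864680) (nat_lit 3) (nat_lit 29014221976600706480603138) (Ct.cons false (nat_lit 3368240494080) (nat_lit 3) (nat_lit 67699852815957057523941378) (Ct.cons false (nat_lit 3173033208240) (nat_lit 3) (nat_lit 14507112141233952479248386) (Ct.cons true (nat_lit 17608661355600) (nat_lit 3) (nat_lit 7253557223546177437302786) (Ct.cons false (nat_lit 7592062169160) (nat_lit 3) (nat_lit 9671408862793027964370946) (Ct.cons false (nat_lit 12657793629600) (nat_lit 3) (nat_lit 24178537144888462516682756) (Ct.cons false (nat_lit 5354376679680) (nat_lit 2) (nat_lit 2417872391831734443835396) (Ct.cons true (nat_lit 83448285480) (nat_lit 3) (nat_lit 74953407733644832572178436) (Ct.cons false (nat_lit 2369990397600) (nat_lit 2) (nat_lit 9671478038056916098220036) (Ct.cons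 true (nat_lit 13098153468960) (nat_lit 3) (nat_lit 9671413474468051285966850) (Ct.cons false (nat_lit 4227043287600) (nat_lit 3) (nat_lit 70117704455184116848001028) Ct.nil))))))))))))))))))))))))))))))))))

def cB1 : Ct := (Ct.cons true (nat_lit 62123681306376) (nat_lit 3) (nat_lit 26596372643212258319532034) (Ct.cons true (nat_lit 463538768700914) (nat_lit 3) (nat_lit 14507114447081359739453442) (Ct.cons false (nat_lit 90668884752714) (nat_lit 3) (nat_lit 21760680893973185737785346) (Ct.cons false (nat_lit 83137930027822) (nat_lit 2) (nat_lit 7253577976135459377512452) (Ct.cons true (nat_lit 132070738849806) (nat_lit 2) (nat_lit 21760685505659204165173252) (Ct.cons true (nat_lit 55954995198096) (nat_lit 3) (nat_lit 7253557223552774507069446) (Ct.cons false (nat_lit 1775775264237) (nat_lit 2) (nat_lit 4835737866112450999353346) (Ct.cons true (nat_lit 314411695702148) (nat_lit 3) (nat_lit 4835705584316919085793282) (Ct.cons true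 (nat_lit 58729146825456) (nat_lit 2) (nat_lit 7253573364447241924771842) (Ct.cons false (nat_lit 29208824453172) (nat_lit 3) (nat_lit 7253559529441963204935686) (Ct.cons false (nat_lit 112664307817444) (nat_lit 3) (nat_lit 4835705584327914197876738) (Ct.cons true (nat_lit 25341654265451) (nat_lit 3) (nat_lit 55610592313965557539930114) (Ct.cons true (nat_lit 258461544124366) (nat_lit 3) (nat_lit 48357037396277782489595906) (Ct.cons false (nat_lit 51211171020702) (nat_lit 3) (nat_lit 45939185757048524140183554) (Ct.cons false (nat_lit 208295174261680) (nat_lit 3) (nat_lit 9671413474507633696178178) (Ct.cons true (nat_lit 4191165939250) (nat_lit 3) (nat_lit 7253559529422171993538562) (Ct.cons true (nat_lit 169001427656084) (nat_lit 3) (nat_lit 7253559529395783724957702) (Ct.cons false (nat_lit 16640423617604) (nat_lit 3) (nat_lit 41103484784435215676211202) (Ct.cons false (nat_lit 18310132036583) (nat_lit 2) (nat_lit 7253571058602033685725186)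 (Ct.cons false (nat_lit 404115755061428) (nat_lit 3) (nat_lit 12089262807852101387943938) (Ct.cons false (nat_lit 48378861183258) (nat_lit 2) (nat_lit 4835721725217983577456642) (Ct.cons false (nat_lit 29220327503562) (nat_lit 2) (nat_lit 7253596422866338945433602) (Ct.cons false (nat_lit 117594586529848) (nat_lit 2) (nat_lit 24178539450731471730376710) (Ct.cons true (nat_lit 274031420204194) (nat_lit 3) (nat_lit 7253559529395783727054856) (Ct.cons false (nat_lit 453525332758340) (nat_lit 3) (nat_lit 7253557223559371568447490) (Ct.cons true (nat_lit 100228939280580) (nat_lit 3) (nat_lit 4835705584334511269740546) (Ct.cons true (nat_lit 53734951478654) (nat_lit 3) (nat_lit 24178525615680013517979650) (Ct.cons false (nat_lit 49296530501226) (nat_lit 2) (nat_lit 4835756312854325689843714) (Ct.cons true (nat_lit 134796278368347) (nat_lit 3) (nat_lit 14507116752919970902441986) (Ct.cons false (nat_lit 118798130276154) (nat_lit 3) (nat_lit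 9671411168669022528995332) (Ct.cons true (nat_lit 642250763586126) (nat_lit 3) (nat_lit 14507116752924368951050242) (Ct.cons true (nat_lit 48528006340366) (nat_lit 3) (nat_lit 7253557223568167665664002) (Ct.cons true (nat_lit 77364719819106) (nat_lit 2) (nat_lit 7253577976126663292878850) (Ct.cons false (nat_lit 287841600910736) (nat_lit 3) (nat_lit 16924970697998835539509250) (Ct.cons false (nat_lit 119828470253706) (nat_lit 3) (nat_lit 7253559529430968088657922) (Ct.cons false (nat_lit 76154394938896) (nat_lit 3) (nat_lit 12089260502004694127738882) (Ct.cons true (nat_lit 95314817050128) (nat_lit 2) (nat_lit 9671471120527888457138178) (Ct.cons false (nat_lit 65784081776722) (nat_lit 2) (nat_lit 16924977615514669036863490) (Ct.cons true (nat_lit 143767663868338) (nat_lit 3) (nat_lit 7253559529393584701702148) (Ct.cons false (nat_lit 276163265258400) (nat_lit 3) (nat_lit 16924963780469807900524550) (Ct.cons true (nat_lit 72393956433262)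 (nat_lit 2) (nat_lit 4835726336899603958333442) (Ct.cons false (nat_lit 4139098321254) (nat_lit 3) (nat_lit 62864151843339351013457922) (Ct.cons false (nat_lit 30387603425676) (nat_lit 2) (nat_lit 4835730948581224335015938) (Ct.cons false (nat_lit 98704655288160) (nat_lit 3) (nat_lit 24178532533202444089294850) (Ct.cons false (nat_lit 57576378964302) (nat_lit 2) (nat_lit 4835744783639279619276802) (Ct.cons false (nat_lit 171119351604950) (nat_lit 3) (nat_lit 19342817725539876438278148) (Ct.cons false (nat_lit 395586354502982) (nat_lit 3) (nat_lit 24178525615684411564490756) (Ct.cons true (nat_lit 46184952070356) (nat_lit 2) (nat_lit 50774893647190860243140610) (Ct.cons true (nat_lit 84614580670684) (nat_lit 2) (nat_lit 2417874697674743657529350) (Ct.cons false (nat_lit 55660904429856) (nat_lit 3) (nat_lit 9671411168625042076467206) (Ct.cons false (nat_lit 44233816395984) (nat_lit 3) (nat_lit 65282003482568609362870274) (Ct.cons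 false (nat_lit 363363508389060) (nat_lit 3) (nat_lit 9671413474468051290161156) (Ct.cons true (nat_lit 226422828140720) (nat_lit 3) (nat_lit 72535553788572565009072132) (Ct.cons true (nat_lit 245699580252450) (nat_lit 3) (nat_lit 24178523309837004306382850) (Ct.cons false (nat_lit 765168366804) (nat_lit 2) (nat_lit 4835749395325298046664706) (Ct.cons false (nat_lit 86320841625996) (nat_lit 2) (nat_lit 74953410039485642762616836) (Ct.cons false (nat_lit 64878380939016) (nat_lit 2) (nat_lit 4835724031060992793247746) (Ct.cons false (nat_lit 32840020993968) (nat_lit 2) (nat_lit 7253614869614810701496322) (Ct.cons true (nat_lit 342441389017128) (nat_lit 3) (nat_lit 9671408862779833835323396) (Ct.cons false (nat_lit 54132020876892) (nat_lit 2) (nat_lit 4835754007011316476149762) cB2))))))))))))))))))))))))))))))))))))))))))))))))))))))))))))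

def cB0 : Ct := (Ct.cons true (nat_lit 146471538092782) (nat_lit 2) (nat_lit 7253577976131061331001346) (Ct.cons true (nat_lit 99425735845176) (nat_lit 2) (nat_lit 4835751701170506283614210) (Ct.cons true (nat_lit 43528543796304) (nat_lit 3) (nat_lit 36267776894290680552095746) (Ct.cons true (nat_lit 260146708244032) (nat_lit 3) (nat_lit 31432073615829964830015490) (Ct.cons false (nat_lit 61620320490954) (nat_lit 2) (nat_lit 7253626398829856772063236) (Ct.cons false (nat_lit 99509049677526) (nat_lit 2) (nat_lit 7253605646238375802306562) (Ct.cons true (nat_lit 276551788970452) (nat_lit 3) (nat_lit 31432075921672974041612290) (Ct.cons false (nat_lit 138924429748015) (nat_lit 3) (nat_lit 21760683199813995928223748) (Ct.cons true (nat_lit 260884177731938) (nat_lit 3) (nat_lit 9671411168649231317598210) (Ct.cons true (nat_lit 57896638018776) (nat_lit 3) (nat_lit 38685633145203758303543298) (Ct.cons true (nat_lit 194101865426004)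 (nat_lit 2) (nat_lit 7253619481300829130981378) (Ct.cons true (nat_lit 68573367391878) (nat_lit 3) (nat_lit 43521331811976256577077252) (Ct.cons false (nat_lit 116758244787616) (nat_lit 2) (nat_lit 7253575670288052115210242) (Ct.cons true (nat_lit 30327181169666) (nat_lit 2) (nat_lit 4835724031056594742542338) (Ct.cons false (nat_lit 330290171609845) (nat_lit 3) (nat_lit 21760676282282769263886338) (Ct.cons false (nat_lit 37982389899819) (nat_lit 2) (nat_lit 7253584893651292874866690) (Ct.cons true (nat_lit 116897680734904) (nat_lit 3) (nat_lit 24178523309843601376149510) (Ct.cons true (nat_lit 150745410786144) (nat_lit 2) (nat_lit 2417865474293910720217092) (Ct.cons true (nat_lit 159944819834997) (nat_lit 3) (nat_lit 21760673976455153212981252) (Ct.cons true (nat_lit 65079615461982) (nat_lit 3) (nat_lit 43521334117819265790771202) (Ct.cons true (nat_lit 49239872319399) (nat_lit 3) (nat_lit 53192740674736299190517762) (Ct.cons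 false (nat_lit 62157855044769) (nat_lit 3) (nat_lit 50774893647190860243140610) (Ct.cons false (nat_lit 111439950477858) (nat_lit 3) (nat_lit 16924963780463210830757890) (Ct.cons false (nat_lit 906479081842990) (nat_lit 3) (nat_lit 21760667058919528504229892) (Ct.cons false (nat_lit 226687775095818) (nat_lit 3) (nat_lit 21760669364769134789787652) (Ct.cons false (nat_lit 36250158477757) (nat_lit 3) (nat_lit 41103487090276025866649602) (Ct.cons true (nat_lit 148012745491950) (nat_lit 3) (nat_lit 29014226588284525882638338) (Ct.cons false (nat_lit 28059484140058) (nat_lit 2) (nat_lit 2417872391829535418482692) (Ct.cons true (nat_lit 27458513098378) (nat_lit 3) (nat_lit 21760678588127977500835842) (Ct.cons true (nat_lit 67974743931060) (nat_lit 2) (nat_lit 7253575670279256030576642) (Ct.cons true (nat_lit 642974058805588) (nat_lit 3) (nat_lit 4835705584321317132304388) (Ct.cons false (nat_lit 38247499416919) (nat_lit 3) (nat_lit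 16924977615514669036863490) (Ct.cons false (nat_lit 61299052251249) (nat_lit 3) (nat_lit 67699855121797867714379778) (Ct.cons false (nat_lit 10743992811124) (nat_lit 3) (nat_lit 19342829254741728365117442) (Ct.cons false (nat_lit 156558465041707) (nat_lit 3) (nat_lit 16924973003824252562964482) (Ct.cons false (nat_lit 129213858473528) (nat_lit 3) (nat_lit 7253557223579162779844612) (Ct.cons true (nat_lit 63183698341455) (nat_lit 3) (nat_lit 74953410039485642762616836) (Ct.cons false (nat_lit 139137208015608) (nat_lit 2) (nat_lit 2417874697670345608921092) (Ct.cons true (nat_lit 6180711427185) (nat_lit 3) (nat_lit 24178530227357235852345346) (Ct.cons false (nat_lit 117026060291599) (nat_lit 3) (nat_lit 24178534839043254279733252) (Ct.cons true (nat_lit 35848123246848) (nat_lit 3) (nat_lit 45939188062889334330621954) (Ct.cons true (nat_lit 58786544619332) (nat_lit 3) (nat_lit 24178527921514226636554242) (Ct.cons false (nat_lit 223516085021068)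 (nat_lit 3) (nat_lit 21760671670605546929520642) (Ct.cons false (nat_lit 235655927351735) (nat_lit 3) (nat_lit 9671413474512031740592132) (Ct.cons false (nat_lit 45516021088806) (nat_lit 2) (nat_lit 4835747089482288832970754) (Ct.cons true (nat_lit 131162199148526) (nat_lit 3) (nat_lit 7253557223557172545191938) (Ct.cons true (nat_lit 54813889194360) (nat_lit 3) (nat_lit 16924975309669460799913986) (Ct.cons true (nat_lit 43944981382545) (nat_lit 3) (nat_lit 36267779200133689763692546) (Ct.cons true (nat_lit 277635627775232) (nat_lit 3) (nat_lit 4835705584345506383921156) (Ct.cons true (nat_lit 4327024787300) (nat_lit 3) (nat_lit 19342820031385084675227652) (Ct.cons false (nat_lit 301782567357738) (nat_lit 3) (nat_lit 7253557223565968640311298) (Ct.cons true (nat_lit 190356628483153) (nat_lit 3) (nat_lit 48357035090434773275901956) (Ct.cons false (nat_lit 98324850605544) (nat_lit 3) (nat_lit 4835705584341108337410052) (Ct.cons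 false (nat_lit 161119244385110) (nat_lit 3) (nat_lit 4835705584325715172524034) (Ct.cons false (nat_lit 33578479882152) (nat_lit 2) (nat_lit 7253594117027727776153602) (Ct.cons true (nat_lit 34055817877932) (nat_lit 2) (nat_lit 7253601034552357372821506) (Ct.cons true (nat_lit 43801937304158) (nat_lit 3) (nat_lit 55610594619808566751526914) (Ct.cons false (nat_lit 125824796247505) (nat_lit 3) (nat_lit 24178525615686610587746310) (Ct.cons true (nat_lit 466760420916158) (nat_lit 3) (nat_lit 4835705584347705409273860) (Ct.cons false (nat_lit 95418349174504) (nat_lit 3) (nat_lit 7253557223592356921475078) cB1))))))))))))))))))))))))))))))))))))))))))))))))))))))))))))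

theorem kB0 : chkT tB axB tBD 0 288 tB = true := by decide +kernel

theorem fB : chkF tB 288 axB false (Ex.op 0 false qZ1 (Ex.v 3)) 9223378633928736770 (2 ^ 3 * 3 ^ 3) cB0 = true := by decide +kernel

end Pool.Agent.TP
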