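import Pool.Agent.Helper19_TP.AxL

/-! Table and kernel checks E, generated (helper19). -/

set_option autoImplicit false
set_option maxRecDepth 100000

namespace Pool.Agent.TP

def tE0 : Tb := (Tb.node (nat_lit 3077) (Tb.node (nat_lit 3076) (Tb.leaf (nat_lit 3074) (nat_lit 6) (V.cons (nat_lit 22) false (nat_lit 1) V.nil) (Rw.df (nat_lit 22) (nat_lit 0) (nat_lit 0))) (Tb.leaf (nat_lit 3076) (nat_lit 5) (V.cons (nat_lit 20) false (nat_lit 1) V.nil) (Rw.df (nat_lit 20) (nat_lit 0) (nat_lit 0)))) (Tb.node (nat_lit 3079) (Tb.leaf (nat_lit 3077) (nat_lit 4) (V.cons (nat_lit 19) false (nat_lit 1) V.nil) (Rw.df (nat_lit 19) (nat_lit 0) (nat_lit 0))) (Tb.node (nat_lit 3081) (Tb.leaf (nat_lit 3079) (nat_lit 3) (V.cons (nat_lit 17) false (nat_lit 1) V.nil) (Rw.df (nat_lit 17) (nat_lit 0) (nat_lit 0))) (Tb.leaf (nat_lit 3081) (nat_lit 10) (V.cons (nat_lit 31) false (nat_lit 1) V.nil) (Rw.df (nat_lit 31) (nat_lit 0) (nat_lit 0))))))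
def tE1 : Tb := (Tb.node (nat_lit 3090) (Tb.node (nat_lit 3086) (Tb.leaf (nat_lit 3084) (nat_lit 13) (V.cons (nat_lit 36) false (nat_lit 1) V.nil) (Rw.df (nat_lit 36) (nat_lit 0) (nat_lit 0))) (Tb.node (nat_lit 3088) (Tb.leaf (nat_lit 3086) (nat_lit 16) (V.cons (nat_lit 42) false (nat_lit 1) V.nil) (Rw.df (nat_lit 42) (nat_lit 0) (nat_lit 0))) (Tb.leaf (nat_lit 3088) (nat_lit 19) (V.cons (nat_lit 48) false (nat_lit 1) V.nil) (Rw.df (nat_lit 48) (nat_lit 0) (nat_lit 0))))) (Tb.node (nat_lit 3091) (Tb.leaf (nat_lit 3090) (nat_lit 21) (V.cons (nat_lit 52) false (nat_lit 1) V.nil) (Rw.df (nat_lit 52) (nat_lit 0) (nat_lit 0))) (Tb.node (nat_lit 3093) (Tb.leaf (nat_lit 3091) (nat_lit 23) (V.cons (nat_lit 57) false (nat_lit 1) V.nil) (Rw.df (nat_lit 57) (nat_lit 0) (nat_lit 0))) (Tb.leaf (nat_lit 3093) (nat_lit 25) (V.cons (nat_lit 61) false (nat_lit 1) V.nil) (Rw.df (nat_lit 61) (nat_lit 0) (nat_lit 0))))))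
def tE2 : Tb := (Tb.node (nat_lit 3084) tE0 tE1)
def tE3 : Tb := (Tb.node (nat_lit 3102) (Tb.node (nat_lit 3098) (Tb.leaf (nat_lit 3096) (nat_lit 26) (V.cons (nat_lit 62) false (nat_lit 1) V.nil) (Rw.df (nat_lit 62) (nat_lit 0) (nat_lit 0))) (Tb.node (nat_lit 3100) (Tb.leaf (nat_lit 3098) (nat_lit 27) (V.cons (nat_lit 64) false (nat_lit 1) V.nil) (Rw.df (nat_lit 64) (nat_lit 0) (nat_lit 0))) (Tb.leaf (nat_lit 3100) (nat_lit 28) (V.cons (nat_lit 66) false (nat_lit 1) V.nil) (Rw.df (nat_lit 66) (nat_lit 0) (nat_lit 0))))) (Tb.node (nat_lit 3104) (Tb.leaf (nat_lit 3102) (nat_lit 41) (V.cons (nat_lit 82) false (nat_lit 1) V.nil) (Rw.df (nat_lit 82) (nat_lit 0) (nat_lit 0))) (Tb.node (nat_lit 3106) (Tb.leaf (nat_lit 3104) (nat_lit 42) (V.cons (nat_lit 84) false (nat_lit 1) V.nil) (Rw.df (nat_lit 84) (nat_lit 0) (nat_lit 0))) (Tb.leaf (nat_lit 3106) (nat_lit 43) (V.cons (nat_lit 86) false (nat_lit 1) V.nil) (Rw.df (nat_lit 86)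 (nat_lit 0) (nat_lit 0))))))
def tE4 : Tb := (Tb.node (nat_lit 3113) (Tb.node (nat_lit 3109) (Tb.leaf (nat_lit 3107) (nat_lit 50) (V.cons (nat_lit 95) false (nat_lit 1) V.nil) (Rw.df (nat_lit 95) (nat_lit 0) (nat_lit 0))) (Tb.node (nat_lit 3111) (Tb.leaf (nat_lit 3109) (nat_lit 51) (V.cons (nat_lit 97) false (nat_lit 1) V.nil) (Rw.df (nat_lit 97) (nat_lit 0) (nat_lit 0))) (Tb.leaf (nat_lit 3111) (nat_lit 52) (V.cons (nat_lit 99) false (nat_lit 1) V.nil) (Rw.df (nat_lit 99) (nat_lit 0) (nat_lit 0))))) (Tb.node (nat_lit 3115) (Tb.leaf (nat_lit 3113) (nat_lit 59) (V.cons (nat_lit 107) false (nat_lit 1) V.nil) (Rw.df (nat_lit 107) (nat_lit 0) (nat_lit 0))) (Tb.node (nat_lit 3117) (Tb.leaf (nat_lit 3115) (nat_lit 60) (V.cons (nat_lit 109) false (nat_lit 1) V.nil) (Rw.df (nat_lit 109) (nat_lit 0) (nat_lit 0))) (Tb.leaf (nat_lit 3117) (nat_lit 61) (V.cons (nat_lit 111) false (nat_lit 1) V.nil) (Rw.df (nat_lit 111) (nat_lit 0) (nat_lit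 0))))))
def tE5 : Tb := (Tb.node (nat_lit 3107) tE3 tE4)
def tE6 : Tb := (Tb.node (nat_lit 3096) tE2 tE5)
def tE7 : Tb := (Tb.node (nat_lit 3123) (Tb.node (nat_lit 3121) (Tb.leaf (nat_lit 3119) (nat_lit 68) (V.cons (nat_lit 119) false (nat_lit 1) V.nil) (Rw.df (nat_lit 119) (nat_lit 0) (nat_lit 0))) (Tb.leaf (nat_lit 3121) (nat_lit 69) (V.cons (nat_lit 121) false (nat_lit 1) V.nil) (Rw.df (nat_lit 121) (nat_lit 0) (nat_lit 0)))) (Tb.node (nat_lit 3125) (Tb.leaf (nat_lit 3123) (nat_lit 72) (V.cons (nat_lit 125) false (nat_lit 1) V.nil) (Rw.df (nat_lit 125) (nat_lit 0) (nat_lit 0))) (Tb.node (nat_lit 3128) (Tb.leaf (nat_lit 3125) (nat_lit 73) (V.cons (nat_lit 127) false (nat_lit 1) V.nil) (Rw.df (nat_lit 127) (nat_lit 0) (nat_lit 0))) (Tb.leaf (nat_lit 3128) (nat_lit 76) (V.cons (nat_lit 130) false (nat_lit 1) V.nil) (Rw.df (nat_lit 130) (nat_lit 0) (nat_lit 0))))))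
def tE8 : Tb := (Tb.node (nat_lit 3137) (Tb.node (nat_lit 3133) (Tb.leaf (nat_lit 3130) (nat_lit 77) (V.cons (nat_lit 132) false (nat_lit 1) V.nil) (Rw.df (nat_lit 132) (nat_lit 0) (nat_lit 0))) (Tb.node (nat_lit 3135) (Tb.leaf (nat_lit 3133) (nat_lit 80) (V.cons (nat_lit 137) false (nat_lit 1) V.nil) (Rw.df (nat_lit 137) (nat_lit 0) (nat_lit 0))) (Tb.leaf (nat_lit 3135) (nat_lit 109) (V.cons (nat_lit 137) false (nat_lit 1) (V.cons (nat_lit 139) true (nat_lit 11) (V.cons (nat_lit 141) true (nat_lit 5) (V.cons (nat_lit 143) true (nat_lit 3) (V.cons (nat_lit 147) true (nat_lit 7) (V.cons (nat_lit 149) true (nat_lit 5) (V.cons (nat_lit 151) false (nat_lit 8) (V.cons (nat_lit 153) true (nat_lit 4) (V.cons (nat_lit 155) true (nat_lit 4) (V.cons (nat_lit 157) false (nat_lit 3) (V.cons (nat_lit 159) false (nat_lit 6) (V.cons (nat_lit 161) true (nat_lit 11) (V.cons (nat_lit 163) false (nat_lit 5) (V.cons (nat_lit 165) true (nat_lit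 9) (V.cons (nat_lit 169) false (nat_lit 2) (V.cons (nat_lit 171) true (nat_lit 8) (V.cons (nat_lit 173) true (nat_lit 6) V.nil))))))))))))))))) (Rw.rw (nat_lit 0) (nat_lit 0) (Ct.cons false (nat_lit 1) (nat_lit 0) (nat_lit 14987986156961923075) Ct.nil))))) (Tb.node (nat_lit 3139) (Tb.leaf (nat_lit 3137) (nat_lit 107) (V.cons (nat_lit 137) true (nat_lit 1) (V.cons (nat_lit 139) false (nat_lit 4) (V.cons (nat_lit 141) false (nat_lit 1) (V.cons (nat_lit 143) false (nat_lit 2) (V.cons (nat_lit 145) true (nat_lit 1) (V.cons (nat_lit 147) false (nat_lit 2) (V.cons (nat_lit 149) false (nat_lit 2) (V.cons (nat_lit 151) true (nat_lit 1) (V.cons (nat_lit 153) false (nat_lit 1) (V.cons (nat_lit 159) true (nat_lit 2) (V.cons (nat_lit 161) false (nat_lit 3) (V.cons (nat_lit 163) true (nat_lit 1) (V.cons (nat_lit 165) false (nat_lit 4) (V.cons (nat_lit 167) true (nat_lit 1) (V.cons (nat_lit 169) true (nat_lit 1) (V.cons (nat_lit 171) false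 (nat_lit 3) (V.cons (nat_lit 173) false (nat_lit 1) V.nil))))))))))))))))) (Rw.rw (nat_lit 0) (nat_lit 0) (Ct.cons false (nat_lit 1) (nat_lit 0) (nat_lit 9223394027093622787) Ct.nil))) (Tb.node (nat_lit 3141) (Tb.leaf (nat_lit 3139) (nat_lit 81) (V.cons (nat_lit 139) false (nat_lit 1) V.nil) (Rw.df (nat_lit 139) (nat_lit 0) (nat_lit 0))) (Tb.leaf (nat_lit 3141) (nat_lit 82) (V.cons (nat_lit 141) false (nat_lit 1) V.nil) (Rw.df (nat_lit 141) (nat_lit 0) (nat_lit 0))))))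
def tE9 : Tb := (Tb.node (nat_lit 3130) tE7 tE8)
def tE10 : Tb := (Tb.node (nat_lit 3149) (Tb.node (nat_lit 3145) (Tb.leaf (nat_lit 3143) (nat_lit 83) (V.cons (nat_lit 143) false (nat_lit 1) V.nil) (Rw.df (nat_lit 143) (nat_lit 0) (nat_lit 0))) (Tb.node (nat_lit 3147) (Tb.leaf (nat_lit 3145) (nat_lit 113) (V.cons (nat_lit 137) true (nat_lit 1) (V.cons (nat_lit 139) false (nat_lit 14) (V.cons (nat_lit 141) false (nat_lit 8) (V.cons (nat_lit 143) false (nat_lit 6) (V.cons (nat_lit 147) false (nat_lit 10) (V.cons (nat_lit 149) false (nat_lit 4) (V.cons (nat_lit 151) true (nat_lit 9) (V.cons (nat_lit 153) false (nat_lit 4) (V.cons (nat_lit 155) false (nat_lit 5) (V.cons (nat_lit 159) true (nat_lit 7) (V.cons (nat_lit 161) false (nat_lit 13) (V.cons (nat_lit 163) true (nat_lit 6) (V.cons (nat_lit 165) false (nat_lit 14) (V.cons (nat_lit 169) true (nat_lit 4) (V.cons (nat_lit 171) false (nat_lit 12) (V.cons (nat_lit 173) false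 (nat_lit 8) V.nil)))))))))))))))) (Rw.rw (nat_lit 0) (nat_lit 0) (Ct.cons true (nat_lit 1) (nat_lit 0) (nat_lit 9223377534432837635) Ct.nil))) (Tb.leaf (nat_lit 3147) (nat_lit 84) (V.cons (nat_lit 145) false (nat_lit 1) V.nil) (Rw.df (nat_lit 145) (nat_lit 0) (nat_lit 0))))) (Tb.node (nat_lit 3151) (Tb.leaf (nat_lit 3149) (nat_lit 85) (V.cons (nat_lit 147) false (nat_lit 1) V.nil) (Rw.df (nat_lit 147) (nat_lit 0) (nat_lit 0))) (Tb.node (nat_lit 3153) (Tb.leaf (nat_lit 3151) (nat_lit 86) (V.cons (nat_lit 149) false (nat_lit 1) V.nil) (Rw.df (nat_lit 149) (nat_lit 0) (nat_lit 0))) (Tb.leaf (nat_lit 3153) (nat_lit 140) (V.cons (nat_lit 175) true (nat_lit 3) (V.cons (nat_lit 177) false (nat_lit 1) (V.cons (nat_lit 179) true (nat_lit 3) (V.cons (nat_lit 181) false (nat_lit 1) (V.cons (nat_lit 183) false (nat_lit 2) (V.cons (nat_lit 185) true (nat_lit 2) (V.cons (nat_lit 187) false (nat_lit 1) (V.cons (nat_lit 189) true (nat_lit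 2) V.nil)))))))) (Rw.rw (nat_lit 0) (nat_lit 0) (Ct.cons false (nat_lit 1) (nat_lit 0) (nat_lit 9223392927578849283) Ct.nil))))))
def tE11 : Tb := (Tb.node (nat_lit 3161) (Tb.node (nat_lit 3157) (Tb.leaf (nat_lit 3155) (nat_lit 126) (V.cons (nat_lit 175) false (nat_lit 1) V.nil) (Rw.df (nat_lit 175) (nat_lit 0) (nat_lit 0))) (Tb.node (nat_lit 3159) (Tb.leaf (nat_lit 3157) (nat_lit 127) (V.cons (nat_lit 177) false (nat_lit 1) V.nil) (Rw.df (nat_lit 177) (nat_lit 0) (nat_lit 0))) (Tb.leaf (nat_lit 3159) (nat_lit 141) (V.cons (nat_lit 175) true (nat_lit 3) (V.cons (nat_lit 179) true (nat_lit 2) (V.cons (nat_lit 183) false (nat_lit 2) (V.cons (nat_lit 185) true (nat_lit 2) (V.cons (nat_lit 189) true (nat_lit 3) V.nil))))) (Rw.rw (nat_lit 0) (nat_lit 0) (Ct.cons true (nat_lit 1) (nat_lit 1) (nat_lit 3626780917617197443973123) Ct.nil))))) (Tb.node (nat_lit 3163) (Tb.leaf (nat_lit 3161) (nat_lit 128) (V.cons (nat_lit 179) false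 (nat_lit 1) V.nil) (Rw.df (nat_lit 179) (nat_lit 0) (nat_lit 0))) (Tb.node (nat_lit 3166) (Tb.leaf (nat_lit 3163) (nat_lit 129) (V.cons (nat_lit 181) false (nat_lit 1) V.nil) (Rw.df (nat_lit 181) (nat_lit 0) (nat_lit 0))) (Tb.leaf (nat_lit 3166) (nat_lit 164) (V.cons (nat_lit 192) true (nat_lit 1) (V.cons (nat_lit 194) true (nat_lit 2) (V.cons (nat_lit 196) true (nat_lit 4) (V.cons (nat_lit 198) false (nat_lit 2) (V.cons (nat_lit 200) false (nat_lit 3) (V.cons (nat_lit 202) true (nat_lit 2) (V.cons (nat_lit 204) true (nat_lit 1) (V.cons (nat_lit 206) false (nat_lit 2) (V.cons (nat_lit 208) false (nat_lit 1) V.nil))))))))) (Rw.rw (nat_lit 0) (nat_lit 0) (Ct.cons true (nat_lit 1) (nat_lit 0) (nat_lit 9223396226115829763) Ct.nil))))))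
def tE12 : Tb := (Tb.node (nat_lit 3155) tE10 tE11)
def tE13 : Tb := (Tb.node (nat_lit 3143) tE9 tE12)
def tE14 : Tb := (Tb.node (nat_lit 3119) tE6 tE13)
def tE15 : Tb := (Tb.node (nat_lit 3172) (Tb.node (nat_lit 3170) (Tb.leaf (nat_lit 3168) (nat_lit 160) (V.cons (nat_lit 192) false (nat_lit 1) (V.cons (nat_lit 194) false (nat_lit 3) (V.cons (nat_lit 196) false (nat_lit 3) (V.cons (nat_lit 198) true (nat_lit 2) (V.cons (nat_lit 200) true (nat_lit 2) (V.cons (nat_lit 202) false (nat_lit 2) (V.cons (nat_lit 206) true (nat_lit 1) (V.cons (nat_lit 208) true (nat_lit 1) V.nil)))))))) (Rw.rw (nat_lit 1) (nat_lit 0) (Ct.cons false (nat_lit 3) (nat_lit 0) (nat_lit 5764626214735052803) (Ct.cons false (nat_lit 1) (nat_lit 1) (nat_lit 3626780917617197442924547) Ct.nil)))) (Tb.leaf (nat_lit 3170) (nat_lit 146) (V.cons (nat_lit 192) false (nat_lit 1) V.nil) (Rw.df (nat_lit 192) (nat_lit 0) (nat_lit 0)))) (Tb.node (nat_lit 3174) (Tb.leaf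 (nat_lit 3172) (nat_lit 147) (V.cons (nat_lit 194) false (nat_lit 1) V.nil) (Rw.df (nat_lit 194) (nat_lit 0) (nat_lit 0))) (Tb.node (nat_lit 3176) (Tb.leaf (nat_lit 3174) (nat_lit 148) (V.cons (nat_lit 196) false (nat_lit 1) V.nil) (Rw.df (nat_lit 196) (nat_lit 0) (nat_lit 0))) (Tb.leaf (nat_lit 3176) (nat_lit 149) (V.cons (nat_lit 198) false (nat_lit 1) V.nil) (Rw.df (nat_lit 198) (nat_lit 0) (nat_lit 0))))))
def tE16 : Tb := (Tb.node (nat_lit 3184) (Tb.node (nat_lit 3180) (Tb.leaf (nat_lit 3178) (nat_lit 166) (V.cons (nat_lit 210) false (nat_lit 1) V.nil) (Rw.df (nat_lit 210) (nat_lit 0) (nat_lit 0))) (Tb.node (nat_lit 3182) (Tb.leaf (nat_lit 3180) (nat_lit 167) (V.cons (nat_lit 212) false (nat_lit 1) V.nil) (Rw.df (nat_lit 212) (nat_lit 0) (nat_lit 0))) (Tb.leaf (nat_lit 3182) (nat_lit 168) (V.cons (nat_lit 214) false (nat_lit 1) V.nil) (Rw.df (nat_lit 214) (nat_lit 0) (nat_lit 0))))) (Tb.node (nat_lit 3186) (Tb.leaf (nat_lit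 3184) (nat_lit 169) (V.cons (nat_lit 216) false (nat_lit 1) V.nil) (Rw.df (nat_lit 216) (nat_lit 0) (nat_lit 0))) (Tb.node (nat_lit 3188) (Tb.leaf (nat_lit 3186) (nat_lit 170) (V.cons (nat_lit 218) false (nat_lit 1) V.nil) (Rw.df (nat_lit 218) (nat_lit 0) (nat_lit 0))) (Tb.leaf (nat_lit 3188) (nat_lit 171) (V.cons (nat_lit 220) false (nat_lit 1) V.nil) (Rw.df (nat_lit 220) (nat_lit 0) (nat_lit 0))))))
def tE17 : Tb := (Tb.node (nat_lit 3178) tE15 tE16)
def tE18 : Tb := (Tb.node (nat_lit 5136) (Tb.node (nat_lit 5127) (Tb.leaf (nat_lit 5125) (nat_lit 2) (V.cons (nat_lit 15) false (nat_lit 1) V.nil) (Rw.df (nat_lit 15) (nat_lit 0) (nat_lit 0))) (Tb.node (nat_lit 5129) (Tb.leaf (nat_lit 5127) (nat_lit 1) (V.cons (nat_lit 13) false (nat_lit 1) V.nil) (Rw.df (nat_lit 13) (nat_lit 0) (nat_lit 0))) (Tb.leaf (nat_lit 5129) (nat_lit 7) (V.cons (nat_lit 25) false (nat_lit 1) V.nil) (Rw.df (nat_lit 25) (nat_lit 0) (nat_lit 0))))) (Tb.node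 (nat_lit 5138) (Tb.leaf (nat_lit 5136) (nat_lit 14) (V.cons (nat_lit 38) false (nat_lit 1) V.nil) (Rw.df (nat_lit 38) (nat_lit 0) (nat_lit 0))) (Tb.node (nat_lit 5141) (Tb.leaf (nat_lit 5138) (nat_lit 17) (V.cons (nat_lit 44) false (nat_lit 1) V.nil) (Rw.df (nat_lit 44) (nat_lit 0) (nat_lit 0))) (Tb.leaf (nat_lit 5141) (nat_lit 24) (V.cons (nat_lit 59) false (nat_lit 1) V.nil) (Rw.df (nat_lit 59) (nat_lit 0) (nat_lit 0))))))
def tE19 : Tb := (Tb.node (nat_lit 5167) (Tb.node (nat_lit 5152) (Tb.leaf (nat_lit 5150) (nat_lit 29) (V.cons (nat_lit 68) false (nat_lit 1) V.nil) (Rw.df (nat_lit 68) (nat_lit 0) (nat_lit 0))) (Tb.node (nat_lit 5154) (Tb.leaf (nat_lit 5152) (nat_lit 30) (V.cons (nat_lit 70) false (nat_lit 1) V.nil) (Rw.df (nat_lit 70) (nat_lit 0) (nat_lit 0))) (Tb.leaf (nat_lit 5154) (nat_lit 31) (V.cons (nat_lit 72) false (nat_lit 1) V.nil) (Rw.df (nat_lit 72) (nat_lit 0) (nat_lit 0))))) (Tb.node (nat_lit 5169) (Tb.leaf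 (nat_lit 5167) (nat_lit 53) (V.cons (nat_lit 101) false (nat_lit 1) V.nil) (Rw.df (nat_lit 101) (nat_lit 0) (nat_lit 0))) (Tb.node (nat_lit 5171) (Tb.leaf (nat_lit 5169) (nat_lit 57) (V.cons (nat_lit 95) true (nat_lit 1) (V.cons (nat_lit 97) false (nat_lit 1) (V.cons (nat_lit 103) true (nat_lit 1) (V.cons (nat_lit 105) false (nat_lit 1) V.nil)))) (Rw.rw (nat_lit 0) (nat_lit 0) (Ct.cons true (nat_lit 1) (nat_lit 0) (nat_lit 5764616319130402819) Ct.nil))) (Tb.leaf (nat_lit 5171) (nat_lit 62) (V.cons (nat_lit 113) false (nat_lit 1) V.nil) (Rw.df (nat_lit 113) (nat_lit 0) (nat_lit 0))))))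
def tE20 : Tb := (Tb.node (nat_lit 5150) tE18 tE19)
def tE21 : Tb := (Tb.node (nat_lit 5125) tE17 tE20)
def tE22 : Tb := (Tb.node (nat_lit 5203) (Tb.node (nat_lit 5180) (Tb.leaf (nat_lit 5173) (nat_lit 63) (V.cons (nat_lit 115) false (nat_lit 1) V.nil) (Rw.df (nat_lit 115) (nat_lit 0) (nat_lit 0))) (Tb.node (nat_lit 5201) (Tb.leaf (nat_lit 5180) (nat_lit 78) (V.cons (nat_lit 134) false (nat_lit 1) V.nil) (Rw.df (nat_lit 134) (nat_lit 0) (nat_lit 0))) (Tb.leaf (nat_lit 5201) (nat_lit 87) (V.cons (nat_lit 151) false (nat_lit 1) V.nil) (Rw.df (nat_lit 151) (nat_lit 0) (nat_lit 0))))) (Tb.node (nat_lit 5205) (Tb.leaf (nat_lit 5203) (nat_lit 118) (V.cons (nat_lit 137) false (nat_lit 3) (V.cons (nat_lit 139) true (nat_lit 28) (V.cons (nat_lit 141) true (nat_lit 17) (V.cons (nat_lit 143) true (nat_lit 13) (V.cons (nat_lit 147) true (nat_lit 21) (V.cons (nat_lit 149) true (nat_lit 9) (V.cons (nat_lit 151) false (nat_lit 19) (V.cons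 (nat_lit 153) true (nat_lit 8) (V.cons (nat_lit 155) true (nat_lit 12) (V.cons (nat_lit 157) false (nat_lit 3) (V.cons (nat_lit 159) false (nat_lit 15) (V.cons (nat_lit 161) true (nat_lit 27) (V.cons (nat_lit 163) false (nat_lit 12) (V.cons (nat_lit 165) true (nat_lit 27) (V.cons (nat_lit 169) false (nat_lit 6) (V.cons (nat_lit 171) true (nat_lit 24) (V.cons (nat_lit 173) true (nat_lit 18) V.nil))))))))))))))))) (Rw.rw (nat_lit 1) (nat_lit 0) (Ct.cons false (nat_lit 1) (nat_lit 2) (nat_lit 9671412321531153504796675) Ct.nil))) (Tb.node (nat_lit 5207) (Tb.leaf (nat_lit 5205) (nat_lit 88) (V.cons (nat_lit 153) false (nat_lit 1) V.nil) (Rw.df (nat_lit 153) (nat_lit 0) (nat_lit 0))) (Tb.leaf (nat_lit 5207) (nat_lit 89) (V.cons (nat_lit 155) false (nat_lit 1) V.nil) (Rw.df (nat_lit 155) (nat_lit 0) (nat_lit 0))))))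
def tE23 : Tb := (Tb.node (nat_lit 5240) (Tb.node (nat_lit 5211) (Tb.leaf (nat_lit 5209) (nat_lit 119) (V.cons (nat_lit 137) true (nat_lit 4) (V.cons (nat_lit 139) false (nat_lit 30) (V.cons (nat_lit 141) false (nat_lit 21) (V.cons (nat_lit 143) false (nat_lit 17) (V.cons (nat_lit 145) false (nat_lit 2) (V.cons (nat_lit 147) false (nat_lit 24) (V.cons (nat_lit 149) false (nat_lit 7) (V.cons (nat_lit 151) true (nat_lit 21) (V.cons (nat_lit 153) false (nat_lit 8) (V.cons (nat_lit 155) false (nat_lit 14) (V.cons (nat_lit 159) true (nat_lit 17) (V.cons (nat_lit 161) false (nat_lit 29) (V.cons (nat_lit 163) true (nat_lit 12) (V.cons (nat_lit 165) false (nat_lit 31) (V.cons (nat_lit 167) false (nat_lit 1) (V.cons (nat_lit 169) true (nat_lit 7) (V.cons (nat_lit 171) false (nat_lit 28) (V.cons (nat_lit 173) false (nat_lit 22) V.nil)))))))))))))))))) (Rw.rw (nat_lit 0) (nat_lit 0) (Ct.cons false (nat_lit 1) (nat_lit 1) (nat_lit 7253558376461084967043075)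 Ct.nil))) (Tb.node (nat_lit 5238) (Tb.leaf (nat_lit 5211) (nat_lit 90) (V.cons (nat_lit 157) false (nat_lit 1) V.nil) (Rw.df (nat_lit 157) (nat_lit 0) (nat_lit 0))) (Tb.leaf (nat_lit 5238) (nat_lit 150) (V.cons (nat_lit 200) false (nat_lit 1) V.nil) (Rw.df (nat_lit 200) (nat_lit 0) (nat_lit 0))))) (Tb.node (nat_lit 5242) (Tb.leaf (nat_lit 5240) (nat_lit 159) (V.cons (nat_lit 192) true (nat_lit 1) (V.cons (nat_lit 194) false (nat_lit 1) (V.cons (nat_lit 200) true (nat_lit 1) (V.cons (nat_lit 202) false (nat_lit 1) (V.cons (nat_lit 204) false (nat_lit 1) (V.cons (nat_lit 208) true (nat_lit 2) V.nil)))))) (Rw.rw (nat_lit 0) (nat_lit 0) (Ct.cons true (nat_lit 1) (nat_lit 0) (nat_lit 9223396226115829763) (Ct.cons true (nat_lit 1) (nat_lit 0) (nat_lit 9223394027090477059) (Ct.cons true (nat_lit 1) (nat_lit 0) (nat_lit 9223377534435983363) (Ct.cons false (nat_lit 1) (nat_lit 0) (nat_lit 23058438888233107459) (Ct.cons false (nat_lit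 1) (nat_lit 0) (nat_lit 14987982858427039747) (Ct.cons false (nat_lit 1) (nat_lit 0) (nat_lit 5764626214735052803) (Ct.cons false (nat_lit 1) (nat_lit 0) (nat_lit 19599668876856524803) Ct.nil))))))))) (Tb.node (nat_lit 5244) (Tb.leaf (nat_lit 5242) (nat_lit 161) (V.cons (nat_lit 192) true (nat_lit 1) (V.cons (nat_lit 194) true (nat_lit 2) (V.cons (nat_lit 196) true (nat_lit 3) (V.cons (nat_lit 198) false (nat_lit 2) (V.cons (nat_lit 200) false (nat_lit 2) (V.cons (nat_lit 202) true (nat_lit 2) (V.cons (nat_lit 206) false (nat_lit 2) V.nil))))))) (Rw.rw (nat_lit 0) (nat_lit 1) (Ct.cons true (nat_lit 1) (nat_lit 1) (nat_lit 3626780917617197442924547) Ct.nil))) (Tb.leaf (nat_lit 5244) (nat_lit 172) (V.cons (nat_lit 222) false (nat_lit 1) V.nil) (Rw.df (nat_lit 222) (nat_lit 0) (nat_lit 0))))))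
def tE24 : Tb := (Tb.node (nat_lit 5209) tE22 tE23)
def tE25 : Tb := (Tb.node (nat_lit 6156) (Tb.node (nat_lit 5248) (Tb.leaf (nat_lit 5246) (nat_lit 182) (V.cons (nat_lit 210) true (nat_lit 3) (V.cons (nat_lit 212) false (nat_lit 3) (V.cons (nat_lit 214) false (nat_lit 3) (V.cons (nat_lit 216) false (nat_lit 5) (V.cons (nat_lit 218) true (nat_lit 2) (V.cons (nat_lit 222) true (nat_lit 5) (V.cons (nat_lit 224) false (nat_lit 3) (V.cons (nat_lit 226) true (nat_lit 3) V.nil)))))))) (Rw.rw (nat_lit 0) (nat_lit 0) (Ct.cons true (nat_lit 1) (nat_lit 0) (nat_lit 6917553216902135811) Ct.nil))) (Tb.node (nat_lit 6151) (Tb.leaf (nat_lit 5248) (nat_lit 180) (V.cons (nat_lit 210) true (nat_lit 2) (V.cons (nat_lit 212) false (nat_lit 2) (V.cons (nat_lit 214) false (nat_lit 3) (V.cons (nat_lit 216) false (nat_lit 4) (V.cons (nat_lit 218) true (nat_lit 2) (V.cons (nat_lit 220) false (nat_lit 1) (V.cons (nat_lit 222) true (nat_lit 4) (V.cons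 (nat_lit 224) false (nat_lit 2) (V.cons (nat_lit 226) true (nat_lit 2) V.nil))))))))) (Rw.rw (nat_lit 0) (nat_lit 0) (Ct.cons false (nat_lit 1) (nat_lit 0) (nat_lit 6917534525222289411) Ct.nil))) (Tb.leaf (nat_lit 6151) (nat_lit 0) (V.cons (nat_lit 10) false (nat_lit 1) V.nil) (Rw.df (nat_lit 10) (nat_lit 0) (nat_lit 0))))) (Tb.node (nat_lit 6160) (Tb.leaf (nat_lit 6156) (nat_lit 8) (V.cons (nat_lit 27) false (nat_lit 1) V.nil) (Rw.df (nat_lit 27) (nat_lit 0) (nat_lit 0))) (Tb.node (nat_lit 6163) (Tb.leaf (nat_lit 6160) (nat_lit 11) (V.cons (nat_lit 33) false (nat_lit 1) V.nil) (Rw.df (nat_lit 33) (nat_lit 0) (nat_lit 0))) (Tb.leaf (nat_lit 6163) (nat_lit 18) (V.cons (nat_lit 46) false (nat_lit 1) V.nil) (Rw.df (nat_lit 46) (nat_lit 0) (nat_lit 0))))))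
def tE26 : Tb := (Tb.node (nat_lit 6183) (Tb.node (nat_lit 6179) (Tb.leaf (nat_lit 6165) (nat_lit 22) (V.cons (nat_lit 54) false (nat_lit 1) V.nil) (Rw.df (nat_lit 54) (nat_lit 0) (nat_lit 0))) (Tb.node (nat_lit 6181) (Tb.leaf (nat_lit 6179) (nat_lit 32) (V.cons (nat_lit 74) false (nat_lit 1) V.nil) (Rw.df (nat_lit 74) (nat_lit 0) (nat_lit 0))) (Tb.leaf (nat_lit 6181) (nat_lit 33) (V.cons (nat_lit 76) false (nat_lit 1) V.nil) (Rw.df (nat_lit 76) (nat_lit 0) (nat_lit 0))))) (Tb.node (nat_lit 6191) (Tb.leaf (nat_lit 6183) (nat_lit 36) (V.cons (nat_lit 62) true (nat_lit 1) (V.cons (nat_lit 70) true (nat_lit 1) (V.cons (nat_lit 78) true (nat_lit 1) (V.cons (nat_lit 80) false (nat_lit 1) V.nil)))) (Rw.rw (nat_lit 0) (nat_lit 0) (Ct.cons false (nat_lit 1) (nat_lit 0) (nat_lit 5764614120112390147) Ct.nil))) (Tb.node (nat_lit 6193) (Tb.leaf (nat_lit 6191) (nat_lit 44) (V.cons (nat_lit 88) false (nat_lit 1) V.nil) (Rw.df (nat_lit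 88) (nat_lit 0) (nat_lit 0))) (Tb.leaf (nat_lit 6193) (nat_lit 45) (V.cons (nat_lit 90) false (nat_lit 1) V.nil) (Rw.df (nat_lit 90) (nat_lit 0) (nat_lit 0))))))
def tE27 : Tb := (Tb.node (nat_lit 6165) tE25 tE26)
def tE28 : Tb := (Tb.node (nat_lit 5246) tE24 tE27)
def tE29 : Tb := (Tb.node (nat_lit 5173) tE21 tE28)
def tE30 : Tb := (Tb.node (nat_lit 3168) tE14 tE29)
def tE31 : Tb := (Tb.node (nat_lit 6204) (Tb.node (nat_lit 6202) (Tb.leaf (nat_lit 6200) (nat_lit 64) (V.cons (nat_lit 117) false (nat_lit 1) V.nil) (Rw.df (nat_lit 117) (nat_lit 0) (nat_lit 0))) (Tb.leaf (nat_lit 6202) (nat_lit 67) (V.cons (nat_lit 107) false (nat_lit 2) (V.cons (nat_lit 109) true (nat_lit 1) (V.cons (nat_lit 111) true (nat_lit 1) (V.cons (nat_lit 113) true (nat_lit 1) (V.cons (nat_lit 115) false (nat_lit 1) (V.cons (nat_lit 117) false (nat_lit 1) V.nil)))))) (Rw.rw (nat_lit 0) (nat_lit 0) (Ct.cons true (nat_lit 1) (nat_lit 0) (nat_lit 6917534525202366467)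 Ct.nil)))) (Tb.node (nat_lit 6238) (Tb.leaf (nat_lit 6204) (nat_lit 75) (V.cons (nat_lit 127) true (nat_lit 1) (V.cons (nat_lit 129) false (nat_lit 1) V.nil)) (Rw.rw (nat_lit 0) (nat_lit 0) (Ct.cons true (nat_lit 1) (nat_lit 0) (nat_lit 6917532326179110915) Ct.nil))) (Tb.node (nat_lit 6240) (Tb.leaf (nat_lit 6238) (nat_lit 91) (V.cons (nat_lit 159) false (nat_lit 1) V.nil) (Rw.df (nat_lit 159) (nat_lit 0) (nat_lit 0))) (Tb.leaf (nat_lit 6240) (nat_lit 92) (V.cons (nat_lit 161) false (nat_lit 1) V.nil) (Rw.df (nat_lit 161) (nat_lit 0) (nat_lit 0))))))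
def tE32 : Tb := (Tb.node (nat_lit 6248) (Tb.node (nat_lit 6244) (Tb.leaf (nat_lit 6242) (nat_lit 101) (V.cons (nat_lit 137) false (nat_lit 2) (V.cons (nat_lit 139) true (nat_lit 8) (V.cons (nat_lit 141) true (nat_lit 7) (V.cons (nat_lit 143) true (nat_lit 6) (V.cons (nat_lit 145) true (nat_lit 1) (V.cons (nat_lit 147) true (nat_lit 6) (V.cons (nat_lit 149) true (nat_lit 2) (V.cons (nat_lit 151) false (nat_lit 6) (V.cons (nat_lit 153) true (nat_lit 1) (V.cons (nat_lit 155) true (nat_lit 5) (V.cons (nat_lit 159) false (nat_lit 6) (V.cons (nat_lit 161) true (nat_lit 8) (V.cons (nat_lit 163) false (nat_lit 3) (V.cons (nat_lit 165) true (nat_lit 8) (V.cons (nat_lit 169) false (nat_lit 1) (V.cons (nat_lit 171) true (nat_lit 9) (V.cons (nat_lit 173) true (nat_lit 8) V.nil))))))))))))))))) (Rw.rw (nat_lit 1) (nat_lit 0) (Ct.cons false (nat_lit 7) (nat_lit 0) (nat_lit 23058438888236253187) (Ct.cons false (nat_lit 7) (nat_lit 0) (nat_lit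 5764626214738198531) (Ct.cons true (nat_lit 17) (nat_lit 0) (nat_lit 6917547719343996931) (Ct.cons true (nat_lit 11) (nat_lit 0) (nat_lit 21905517383628357635) (Ct.cons false (nat_lit 11) (nat_lit 0) (nat_lit 21905514085096620035) (Ct.cons true (nat_lit 11) (nat_lit 0) (nat_lit 5764614120121827331) (Ct.cons true (nat_lit 10) (nat_lit 0) (nat_lit 9223388529532338179) (Ct.cons false (nat_lit 1) (nat_lit 1) (nat_lit 3626780917617197443973125) (Ct.cons true (nat_lit 11) (nat_lit 0) (nat_lit 23058436689215094787) (Ct.cons true (nat_lit 1) (nat_lit 0) (nat_lit 6917534525217046531) (Ct.cons true (nat_lit 4) (nat_lit 0) (nat_lit 9223394027093622787) (Ct.cons true (nat_lit 4) (nat_lit 0) (nat_lit 6917551017882025987) (Ct.cons false (nat_lit 6) (nat_lit 1) (nat_lit 9671410015688144293199875) (Ct.cons true (nat_lit 6) (nat_lit 0) (nat_lit 19599671075880828931) Ct.nil)))))))))))))))) (Tb.node (nat_lit 6246) (Tb.leaf (nat_lit 6244) (nat_lit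 93) (V.cons (nat_lit 163) false (nat_lit 1) V.nil) (Rw.df (nat_lit 163) (nat_lit 0) (nat_lit 0))) (Tb.leaf (nat_lit 6246) (nat_lit 114) (V.cons (nat_lit 137) true (nat_lit 1) (V.cons (nat_lit 139) true (nat_lit 9) (V.cons (nat_lit 141) true (nat_lit 3) (V.cons (nat_lit 143) true (nat_lit 1) (V.cons (nat_lit 145) false (nat_lit 2) (V.cons (nat_lit 147) true (nat_lit 6) (V.cons (nat_lit 149) true (nat_lit 5) (V.cons (nat_lit 151) false (nat_lit 6) (V.cons (nat_lit 153) true (nat_lit 4) (V.cons (nat_lit 155) true (nat_lit 2) (V.cons (nat_lit 157) false (nat_lit 3) (V.cons (nat_lit 159) false (nat_lit 3) (V.cons (nat_lit 161) true (nat_lit 9) (V.cons (nat_lit 163) false (nat_lit 5) (V.cons (nat_lit 165) true (nat_lit 7) (V.cons (nat_lit 167) false (nat_lit 1) (V.cons (nat_lit 169) false (nat_lit 2) (V.cons (nat_lit 171) true (nat_lit 5) (V.cons (nat_lit 173) true (nat_lit 2) V.nil))))))))))))))))))) (Rw.rw (nat_lit 0) (nat_lit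 0) (Ct.cons false (nat_lit 1) (nat_lit 1) (nat_lit 6044632556846455793385475) Ct.nil))))) (Tb.node (nat_lit 6262) (Tb.leaf (nat_lit 6248) (nat_lit 94) (V.cons (nat_lit 165) false (nat_lit 1) V.nil) (Rw.df (nat_lit 165) (nat_lit 0) (nat_lit 0))) (Tb.node (nat_lit 6264) (Tb.leaf (nat_lit 6262) (nat_lit 130) (V.cons (nat_lit 183) false (nat_lit 1) V.nil) (Rw.df (nat_lit 183) (nat_lit 0) (nat_lit 0))) (Tb.leaf (nat_lit 6264) (nat_lit 131) (V.cons (nat_lit 185) false (nat_lit 1) V.nil) (Rw.df (nat_lit 185) (nat_lit 0) (nat_lit 0))))))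
def tE33 : Tb := (Tb.node (nat_lit 6242) tE31 tE32)
def tE34 : Tb := (Tb.node (nat_lit 6277) (Tb.node (nat_lit 6273) (Tb.leaf (nat_lit 6266) (nat_lit 132) (V.cons (nat_lit 187) false (nat_lit 1) V.nil) (Rw.df (nat_lit 187) (nat_lit 0) (nat_lit 0))) (Tb.node (nat_lit 6275) (Tb.leaf (nat_lit 6273) (nat_lit 183) (V.cons (nat_lit 210) false (nat_lit 2) (V.cons (nat_lit 212) true (nat_lit 2) (V.cons (nat_lit 214) true (nat_lit 2) (V.cons (nat_lit 216) true (nat_lit 3) (V.cons (nat_lit 218) false (nat_lit 2) (V.cons (nat_lit 220) true (nat_lit 1) (V.cons (nat_lit 222) false (nat_lit 3) (V.cons (nat_lit 224) true (nat_lit 1) (V.cons (nat_lit 226) false (nat_lit 2) V.nil))))))))) (Rw.rw (nat_lit 1) (nat_lit 0) (Ct.cons true (nat_lit 1) (nat_lit 1) (nat_lit 3626780917614998419668995) Ct.nil))) (Tb.leaf (nat_lit 6275) (nat_lit 181) (V.cons (nat_lit 210) true (nat_lit 3) (V.cons (nat_lit 212) false (nat_lit 2) (V.cons (nat_lit 214)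 false (nat_lit 2) (V.cons (nat_lit 216) false (nat_lit 4) (V.cons (nat_lit 218) true (nat_lit 2) (V.cons (nat_lit 220) true (nat_lit 1) (V.cons (nat_lit 222) true (nat_lit 3) (V.cons (nat_lit 224) false (nat_lit 2) (V.cons (nat_lit 226) true (nat_lit 1) V.nil))))))))) (Rw.rw (nat_lit 0) (nat_lit 0) (Ct.cons false (nat_lit 1) (nat_lit 0) (nat_lit 5764631712296337411) Ct.nil))))) (Tb.node (nat_lit 8206) (Tb.leaf (nat_lit 6277) (nat_lit 178) (V.cons (nat_lit 210) true (nat_lit 1) (V.cons (nat_lit 212) true (nat_lit 1) (V.cons (nat_lit 216) false (nat_lit 1) (V.cons (nat_lit 220) true (nat_lit 1) (V.cons (nat_lit 222) false (nat_lit 1) (V.cons (nat_lit 226) false (nat_lit 1) V.nil)))))) (Rw.rw (nat_lit 1) (nat_lit 1) (Ct.cons false (nat_lit 6) (nat_lit 0) (nat_lit 6917551017876783107) (Ct.cons false (nat_lit 6) (nat_lit 0) (nat_lit 5764628413758308355) (Ct.cons true (nat_lit 6) (nat_lit 0) (nat_lit 23058433390678114307) (Ct.cons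 false (nat_lit 6) (nat_lit 0) (nat_lit 5764631712296337411) (Ct.cons true (nat_lit 1) (nat_lit 2) (nat_lit 7253560682298596620500995) Ct.nil))))))) (Tb.node (nat_lit 8210) (Tb.leaf (nat_lit 8206) (nat_lit 9) (V.cons (nat_lit 29) false (nat_lit 1) V.nil) (Rw.df (nat_lit 29) (nat_lit 0) (nat_lit 0))) (Tb.leaf (nat_lit 8210) (nat_lit 12) (V.cons (nat_lit 35) false (nat_lit 1) V.nil) (Rw.df (nat_lit 35) (nat_lit 0) (nat_lit 0))))))
def tE35 : Tb := (Tb.node (nat_lit 8235) (Tb.node (nat_lit 8213) (Tb.leaf (nat_lit 8211) (nat_lit 15) (V.cons (nat_lit 40) false (nat_lit 1) V.nil) (Rw.df (nat_lit 40) (nat_lit 0) (nat_lit 0))) (Tb.node (nat_lit 8233) (Tb.leaf (nat_lit 8213) (nat_lit 20) (V.cons (nat_lit 50) false (nat_lit 1) V.nil) (Rw.df (nat_lit 50) (nat_lit 0) (nat_lit 0))) (Tb.leaf (nat_lit 8233) (nat_lit 34) (V.cons (nat_lit 78) false (nat_lit 1) V.nil) (Rw.df (nat_lit 78) (nat_lit 0) (nat_lit 0))))) (Tb.node (nat_lit 8237) (Tb.leaf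 (nat_lit 8235) (nat_lit 38) (V.cons (nat_lit 64) true (nat_lit 1) (V.cons (nat_lit 66) true (nat_lit 1) (V.cons (nat_lit 70) false (nat_lit 1) (V.cons (nat_lit 72) false (nat_lit 1) (V.cons (nat_lit 74) false (nat_lit 1) (V.cons (nat_lit 76) true (nat_lit 1) (V.cons (nat_lit 78) false (nat_lit 1) V.nil))))))) (Rw.rw (nat_lit 0) (nat_lit 0) (Ct.cons false (nat_lit 1) (nat_lit 0) (nat_lit 9223377534419206147) Ct.nil))) (Tb.node (nat_lit 8243) (Tb.leaf (nat_lit 8237) (nat_lit 40) (V.cons (nat_lit 66) true (nat_lit 1) (V.cons (nat_lit 68) false (nat_lit 1) (V.cons (nat_lit 76) true (nat_lit 1) (V.cons (nat_lit 80) false (nat_lit 1) V.nil)))) (Rw.rw (nat_lit 0) (nat_lit 0) (Ct.cons false (nat_lit 1) (nat_lit 0) (nat_lit 5764616319133548547) Ct.nil))) (Tb.leaf (nat_lit 8243) (nat_lit 47) (V.cons (nat_lit 82) true (nat_lit 1) (V.cons (nat_lit 84) true (nat_lit 1) (V.cons (nat_lit 90) true (nat_lit 1) (V.cons (nat_lit 92) false (nat_lit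 1) V.nil)))) (Rw.rw (nat_lit 0) (nat_lit 0) (Ct.cons true (nat_lit 1) (nat_lit 0) (nat_lit 6917537823737249795) Ct.nil))))))
def tE36 : Tb := (Tb.node (nat_lit 8211) tE34 tE35)
def tE37 : Tb := (Tb.node (nat_lit 6266) tE33 tE36)
def tE38 : Tb := (Tb.node (nat_lit 8250) (Tb.node (nat_lit 8248) (Tb.leaf (nat_lit 8245) (nat_lit 49) (V.cons (nat_lit 82) false (nat_lit 1) (V.cons (nat_lit 86) true (nat_lit 1) (V.cons (nat_lit 88) true (nat_lit 1) (V.cons (nat_lit 92) false (nat_lit 1) V.nil)))) (Rw.rw (nat_lit 0) (nat_lit 0) (Ct.cons true (nat_lit 1) (nat_lit 0) (nat_lit 9223378633927688195) Ct.nil))) (Tb.leaf (nat_lit 8248) (nat_lit 54) (V.cons (nat_lit 103) false (nat_lit 1) V.nil) (Rw.df (nat_lit 103) (nat_lit 0) (nat_lit 0)))) (Tb.node (nat_lit 8252) (Tb.leaf (nat_lit 8250) (nat_lit 58) (V.cons (nat_lit 95) false (nat_lit 1) (V.cons (nat_lit 99) true (nat_lit 1) (V.cons (nat_lit 101) true (nat_lit 1) (V.cons (nat_lit 105)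 false (nat_lit 1) V.nil)))) (Rw.rw (nat_lit 0) (nat_lit 0) (Ct.cons true (nat_lit 1) (nat_lit 0) (nat_lit 9223377534416060419) Ct.nil))) (Tb.node (nat_lit 8298) (Tb.leaf (nat_lit 8252) (nat_lit 71) (V.cons (nat_lit 121) true (nat_lit 1) (V.cons (nat_lit 123) false (nat_lit 1) V.nil)) (Rw.rw (nat_lit 0) (nat_lit 0) (Ct.cons true (nat_lit 1) (nat_lit 0) (nat_lit 9223375335392804867) Ct.nil))) (Tb.leaf (nat_lit 8298) (nat_lit 95) (V.cons (nat_lit 167) false (nat_lit 1) V.nil) (Rw.df (nat_lit 167) (nat_lit 0) (nat_lit 0))))))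
def tE39 : Tb := (Tb.node (nat_lit 8306) (Tb.node (nat_lit 8302) (Tb.leaf (nat_lit 8300) (nat_lit 96) (V.cons (nat_lit 169) false (nat_lit 1) V.nil) (Rw.df (nat_lit 169) (nat_lit 0) (nat_lit 0))) (Tb.node (nat_lit 8304) (Tb.leaf (nat_lit 8302) (nat_lit 97) (V.cons (nat_lit 171) false (nat_lit 1) V.nil) (Rw.df (nat_lit 171) (nat_lit 0) (nat_lit 0))) (Tb.leaf (nat_lit 8304) (nat_lit 112) (V.cons (nat_lit 137) false (nat_lit 1) (V.cons (nat_lit 139) true (nat_lit 13) (V.cons (nat_lit 141) true (nat_lit 9) (V.cons (nat_lit 143) true (nat_lit 6) (V.cons (nat_lit 145) true (nat_lit 1) (V.cons (nat_lit 147) true (nat_lit 10) (V.cons (nat_lit 149) true (nat_lit 4) (V.cons (nat_lit 151) false (nat_lit 10) (V.cons (nat_lit 153) true (nat_lit 4) (V.cons (nat_lit 155) true (nat_lit 6) (V.cons (nat_lit 157) false (nat_lit 2) (V.cons (nat_lit 159) false (nat_lit 8) (V.cons (nat_lit 161) true (nat_lit 13) (V.cons (nat_lit 163) false (nat_lit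 5) (V.cons (nat_lit 165) true (nat_lit 12) (V.cons (nat_lit 169) false (nat_lit 3) (V.cons (nat_lit 171) true (nat_lit 11) (V.cons (nat_lit 173) true (nat_lit 9) V.nil)))))))))))))))))) (Rw.rw (nat_lit 0) (nat_lit 0) (Ct.cons false (nat_lit 1) (nat_lit 0) (nat_lit 9223388529532338179) Ct.nil))))) (Tb.node (nat_lit 8308) (Tb.leaf (nat_lit 8306) (nat_lit 99) (V.cons (nat_lit 137) true (nat_lit 1) (V.cons (nat_lit 139) false (nat_lit 3) (V.cons (nat_lit 141) false (nat_lit 2) (V.cons (nat_lit 143) false (nat_lit 2) (V.cons (nat_lit 147) false (nat_lit 2) (V.cons (nat_lit 149) false (nat_lit 1) (V.cons (nat_lit 151) true (nat_lit 2) (V.cons (nat_lit 155) false (nat_lit 2) (V.cons (nat_lit 157) true (nat_lit 1) (V.cons (nat_lit 159) true (nat_lit 2) (V.cons (nat_lit 161) false (nat_lit 3) (V.cons (nat_lit 163) true (nat_lit 1) (V.cons (nat_lit 165) false (nat_lit 2) (V.cons (nat_lit 167) true (nat_lit 1) (V.cons (nat_lit 169)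 false (nat_lit 1) (V.cons (nat_lit 171) false (nat_lit 3) (V.cons (nat_lit 173) false (nat_lit 2) V.nil))))))))))))))))) (Rw.rw (nat_lit 0) (nat_lit 0) (Ct.cons false (nat_lit 1) (nat_lit 0) (nat_lit 9223394027093622787) (Ct.cons false (nat_lit 1) (nat_lit 0) (nat_lit 6917551017882025987) (Ct.cons true (nat_lit 1) (nat_lit 0) (nat_lit 23058438888236253187) (Ct.cons true (nat_lit 1) (nat_lit 0) (nat_lit 5764626214738198531) (Ct.cons false (nat_lit 2) (nat_lit 0) (nat_lit 9223388529532338179) (Ct.cons true (nat_lit 1) (nat_lit 1) (nat_lit 9671410015688144293199875) (Ct.cons false (nat_lit 1) (nat_lit 0) (nat_lit 19599671075880828931) (Ct.cons false (nat_lit 3) (nat_lit 0) (nat_lit 6917547719343996931) (Ct.cons false (nat_lit 2) (nat_lit 0) (nat_lit 21905517383628357635) (Ct.cons true (nat_lit 2) (nat_lit 0) (nat_lit 21905514085096620035) (Ct.cons false (nat_lit 2) (nat_lit 0) (nat_lit 5764614120121827331) (Ct.cons false (nat_lit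 2) (nat_lit 0) (nat_lit 23058436689215094787) Ct.nil)))))))))))))) (Tb.node (nat_lit 8316) (Tb.leaf (nat_lit 8308) (nat_lit 98) (V.cons (nat_lit 173) false (nat_lit 1) V.nil) (Rw.df (nat_lit 173) (nat_lit 0) (nat_lit 0))) (Tb.leaf (nat_lit 8316) (nat_lit 135) (V.cons (nat_lit 177) false (nat_lit 1) (V.cons (nat_lit 179) true (nat_lit 1) (V.cons (nat_lit 181) false (nat_lit 1) (V.cons (nat_lit 185) true (nat_lit 1) (V.cons (nat_lit 187) false (nat_lit 2) (V.cons (nat_lit 191) false (nat_lit 1) V.nil)))))) (Rw.rw (nat_lit 1) (nat_lit 1) (Ct.cons false (nat_lit 1) (nat_lit 2) (nat_lit 9671413474449359576760323) (Ct.cons false (nat_lit 6) (nat_lit 0) (nat_lit 9223392927578849283) (Ct.cons false (nat_lit 6) (nat_lit 0) (nat_lit 9223396226116878339) (Ct.cons true (nat_lit 6) (nat_lit 0) (nat_lit 19599668876857573379) (Ct.cons false (nat_lit 12) (nat_lit 0) (nat_lit 6917547719341899779) Ct.nil))))))))))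
def tE40 : Tb := (Tb.node (nat_lit 8300) tE38 tE39)
def tE41 : Tb := (Tb.node (nat_lit 8323) (Tb.node (nat_lit 8320) (Tb.leaf (nat_lit 8318) (nat_lit 137) (V.cons (nat_lit 175) true (nat_lit 1) (V.cons (nat_lit 179) true (nat_lit 1) (V.cons (nat_lit 181) true (nat_lit 1) (V.cons (nat_lit 183) false (nat_lit 1) (V.cons (nat_lit 185) true (nat_lit 2) (V.cons (nat_lit 189) true (nat_lit 2) (V.cons (nat_lit 191) false (nat_lit 1) V.nil))))))) (Rw.rw (nat_lit 1) (nat_lit 1) (Ct.cons false (nat_lit 9) (nat_lit 0) (nat_lit 6917547719341899779) (Ct.cons false (nat_lit 3) (nat_lit 0) (nat_lit 9223392927578849283) (Ct.cons false (nat_lit 1) (nat_lit 2) (nat_lit 9671413474449359576760323) (Ct.cons false (nat_lit 3) (nat_lit 1) (nat_lit 3626780917617197443973123) (Ct.cons false (nat_lit 6) (nat_lit 0) (nat_lit 9223396226116878339) (Ct.cons true (nat_lit 6) (nat_lit 0) (nat_lit 19599668876857573379) Ct.nil)))))))) (Tb.node (nat_lit 8321)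 (Tb.leaf (nat_lit 8320) (nat_lit 133) (V.cons (nat_lit 189) false (nat_lit 1) V.nil) (Rw.df (nat_lit 189) (nat_lit 0) (nat_lit 0))) (Tb.leaf (nat_lit 8321) (nat_lit 151) (V.cons (nat_lit 202) false (nat_lit 1) V.nil) (Rw.df (nat_lit 202) (nat_lit 0) (nat_lit 0))))) (Tb.node (nat_lit 8325) (Tb.leaf (nat_lit 8323) (nat_lit 155) (V.cons (nat_lit 192) true (nat_lit 1) (V.cons (nat_lit 196) true (nat_lit 1) (V.cons (nat_lit 204) false (nat_lit 1) (V.cons (nat_lit 206) false (nat_lit 1) (V.cons (nat_lit 208) true (nat_lit 1) V.nil))))) (Rw.rw (nat_lit 0) (nat_lit 0) (Ct.cons true (nat_lit 1) (nat_lit 0) (nat_lit 9223394027090477059) Ct.nil))) (Tb.node (nat_lit 10259) (Tb.leaf (nat_lit 8325) (nat_lit 152) (V.cons (nat_lit 204) false (nat_lit 1) V.nil) (Rw.df (nat_lit 204) (nat_lit 0) (nat_lit 0))) (Tb.leaf (nat_lit 10259) (nat_lit 37) (V.cons (nat_lit 64) true (nat_lit 1) (V.cons (nat_lit 72) false (nat_lit 1) (V.cons (nat_lit 76)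 true (nat_lit 1) (V.cons (nat_lit 78) false (nat_lit 1) V.nil)))) (Rw.rw (nat_lit 0) (nat_lit 0) (Ct.cons false (nat_lit 1) (nat_lit 0) (nat_lit 6917534525207609347) Ct.nil))))))
def tE42 : Tb := (Tb.node (nat_lit 10300) (Tb.node (nat_lit 10296) (Tb.leaf (nat_lit 10261) (nat_lit 48) (V.cons (nat_lit 82) true (nat_lit 1) (V.cons (nat_lit 84) true (nat_lit 2) (V.cons (nat_lit 86) false (nat_lit 1) (V.cons (nat_lit 88) true (nat_lit 1) (V.cons (nat_lit 90) true (nat_lit 1) (V.cons (nat_lit 92) false (nat_lit 1) V.nil)))))) (Rw.rw (nat_lit 0) (nat_lit 0) (Ct.cons true (nat_lit 1) (nat_lit 0) (nat_lit 9223375335395950595) Ct.nil))) (Tb.node (nat_lit 10298) (Tb.leaf (nat_lit 10296) (nat_lit 102) (V.cons (nat_lit 137) true (nat_lit 1) (V.cons (nat_lit 143) false (nat_lit 1) (V.cons (nat_lit 145) false (nat_lit 1) (V.cons (nat_lit 149) true (nat_lit 1) (V.cons (nat_lit 151) false (nat_lit 1) (V.cons (nat_lit 157) false (nat_lit 1)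 (V.cons (nat_lit 163) false (nat_lit 1) (V.cons (nat_lit 165) false (nat_lit 1) (V.cons (nat_lit 169) true (nat_lit 1) V.nil))))))))) (Rw.rw (nat_lit 2) (nat_lit 0) (Ct.cons true (nat_lit 4) (nat_lit 0) (nat_lit 6917551017882025987) (Ct.cons true (nat_lit 2) (nat_lit 0) (nat_lit 9223388529532338179) (Ct.cons false (nat_lit 4) (nat_lit 0) (nat_lit 6917547719343996931) (Ct.cons false (nat_lit 2) (nat_lit 0) (nat_lit 21905517383628357635) (Ct.cons true (nat_lit 2) (nat_lit 0) (nat_lit 23058438888236253187) (Ct.cons true (nat_lit 4) (nat_lit 0) (nat_lit 5764626214738198531) (Ct.cons true (nat_lit 2) (nat_lit 0) (nat_lit 23058436689215094787) (Ct.cons true (nat_lit 2) (nat_lit 0) (nat_lit 9223394027093622787) (Ct.cons false (nat_lit 1) (nat_lit 2) (nat_lit 9671413474451558600015875) (Ct.cons false (nat_lit 4) (nat_lit 0) (nat_lit 11529220543629754371) (Ct.cons true (nat_lit 4) (nat_lit 0) (nat_lit 9223378633945513987) (Ct.cons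 false (nat_lit 2) (nat_lit 0) (nat_lit 6917543321295388675) (Ct.cons false (nat_lit 2) (nat_lit 0) (nat_lit 5764628413763551235) (Ct.cons true (nat_lit 1) (nat_lit 2) (nat_lit 3626780917617197443973125) (Ct.cons false (nat_lit 2) (nat_lit 0) (nat_lit 19599671075880828931) (Ct.cons false (nat_lit 2) (nat_lit 0) (nat_lit 6917553216905281541) (Ct.cons true (nat_lit 2) (nat_lit 0) (nat_lit 14987982858430185475) (Ct.cons true (nat_lit 2) (nat_lit 0) (nat_lit 11529218344608595971) Ct.nil)))))))))))))))))))) (Tb.leaf (nat_lit 10298) (nat_lit 125) (V.cons (nat_lit 139) false (nat_lit 14) (V.cons (nat_lit 141) false (nat_lit 8) (V.cons (nat_lit 143) false (nat_lit 6) (V.cons (nat_lit 147) false (nat_lit 10) (V.cons (nat_lit 149) false (nat_lit 5) (V.cons (nat_lit 151) true (nat_lit 10) (V.cons (nat_lit 153) false (nat_lit 5) (V.cons (nat_lit 155) false (nat_lit 5) (V.cons (nat_lit 157) true (nat_lit 1) (V.cons (nat_lit 159) true (nat_lit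 7) (V.cons (nat_lit 161) false (nat_lit 14) (V.cons (nat_lit 163) true (nat_lit 6) (V.cons (nat_lit 165) false (nat_lit 15) (V.cons (nat_lit 167) true (nat_lit 1) (V.cons (nat_lit 169) true (nat_lit 4) (V.cons (nat_lit 171) false (nat_lit 12) (V.cons (nat_lit 173) false (nat_lit 8) V.nil))))))))))))))))) (Rw.rw (nat_lit 0) (nat_lit 0) (Ct.cons true (nat_lit 1) (nat_lit 2) (nat_lit 7253558376461084967043075) Ct.nil))))) (Tb.node (nat_lit 13330) (Tb.leaf (nat_lit 10300) (nat_lit 138) (V.cons (nat_lit 175) true (nat_lit 3) (V.cons (nat_lit 179) true (nat_lit 1) (V.cons (nat_lit 181) true (nat_lit 1) (V.cons (nat_lit 183) false (nat_lit 3) (V.cons (nat_lit 185) true (nat_lit 1) (V.cons (nat_lit 187) true (nat_lit 1) (V.cons (nat_lit 189) true (nat_lit 3) (V.cons (nat_lit 191) true (nat_lit 1) V.nil)))))))) (Rw.rw (nat_lit 1) (nat_lit 1) (Ct.cons true (nat_lit 9) (nat_lit 0) (nat_lit 9223392927578849283) (Ct.cons true (nat_lit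 3) (nat_lit 0) (nat_lit 6917547719341899779) (Ct.cons false (nat_lit 3) (nat_lit 1) (nat_lit 3626780917617197443973123) (Ct.cons false (nat_lit 2) (nat_lit 2) (nat_lit 9671413474449359576760323) (Ct.cons false (nat_lit 6) (nat_lit 0) (nat_lit 21905511886073364483) (Ct.cons true (nat_lit 6) (nat_lit 0) (nat_lit 6917553216905281539) Ct.nil)))))))) (Tb.node (nat_lit 13333) (Tb.leaf (nat_lit 13330) (nat_lit 35) (V.cons (nat_lit 80) false (nat_lit 1) V.nil) (Rw.df (nat_lit 80) (nat_lit 0) (nat_lit 0))) (Tb.leaf (nat_lit 13333) (nat_lit 56) (V.cons (nat_lit 97) false (nat_lit 1) (V.cons (nat_lit 99) false (nat_lit 1) (V.cons (nat_lit 101) true (nat_lit 1) (V.cons (nat_lit 103) false (nat_lit 1) V.nil)))) (Rw.rw (nat_lit 0) (nat_lit 0) (Ct.cons false (nat_lit 1) (nat_lit 0) (nat_lit 9223375335394902019) Ct.nil))))))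
def tE43 : Tb := (Tb.node (nat_lit 10261) tE41 tE42)
def tE44 : Tb := (Tb.node (nat_lit 8318) tE40 tE43)
def tE45 : Tb := (Tb.node (nat_lit 8245) tE37 tE44)
def tE46 : Tb := (Tb.node (nat_lit 13372) (Tb.node (nat_lit 13365) (Tb.leaf (nat_lit 13363) (nat_lit 117) (V.cons (nat_lit 137) true (nat_lit 1) (V.cons (nat_lit 139) false (nat_lit 22) (V.cons (nat_lit 141) false (nat_lit 12) (V.cons (nat_lit 143) false (nat_lit 7) (V.cons (nat_lit 145) true (nat_lit 1) (V.cons (nat_lit 147) false (nat_lit 16) (V.cons (nat_lit 149) false (nat_lit 9) (V.cons (nat_lit 151) true (nat_lit 16) (V.cons (nat_lit 153) false (nat_lit 8) (V.cons (nat_lit 155) false (nat_lit 9) (V.cons (nat_lit 157) true (nat_lit 5) (V.cons (nat_lit 159) true (nat_lit 11) (V.cons (nat_lit 161) false (nat_lit 22) (V.cons (nat_lit 163) true (nat_lit 10) (V.cons (nat_lit 165) false (nat_lit 19) (V.cons (nat_lit 169) true (nat_lit 4) (V.cons (nat_lit 171) false (nat_lit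 17) (V.cons (nat_lit 173) false (nat_lit 12) V.nil)))))))))))))))))) (Rw.rw (nat_lit 0) (nat_lit 0) (Ct.cons false (nat_lit 1) (nat_lit 0) (nat_lit 5764628413763551235) Ct.nil))) (Tb.leaf (nat_lit 13365) (nat_lit 100) (V.cons (nat_lit 137) false (nat_lit 1) (V.cons (nat_lit 139) true (nat_lit 3) (V.cons (nat_lit 149) true (nat_lit 3) (V.cons (nat_lit 151) false (nat_lit 3) (V.cons (nat_lit 153) true (nat_lit 1) (V.cons (nat_lit 155) true (nat_lit 1) (V.cons (nat_lit 157) false (nat_lit 4) (V.cons (nat_lit 159) false (nat_lit 2) (V.cons (nat_lit 161) true (nat_lit 3) (V.cons (nat_lit 163) false (nat_lit 1) (V.cons (nat_lit 167) false (nat_lit 1) (V.cons (nat_lit 169) true (nat_lit 1) (V.cons (nat_lit 171) true (nat_lit 1) (V.cons (nat_lit 173) true (nat_lit 2) V.nil)))))))))))))) (Rw.rw (nat_lit 1) (nat_lit 0) (Ct.cons true (nat_lit 4) (nat_lit 0) (nat_lit 23058436689215094787) (Ct.cons true (nat_lit 2) (nat_lit 0) (nat_lit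 21905517383628357635) (Ct.cons false (nat_lit 2) (nat_lit 0) (nat_lit 23058438888236253187) (Ct.cons false (nat_lit 4) (nat_lit 0) (nat_lit 21905514085096620035) (Ct.cons true (nat_lit 4) (nat_lit 0) (nat_lit 5764614120121827331) (Ct.cons true (nat_lit 2) (nat_lit 0) (nat_lit 19599671075880828931) (Ct.cons true (nat_lit 2) (nat_lit 0) (nat_lit 9223388529532338179) (Ct.cons true (nat_lit 4) (nat_lit 0) (nat_lit 6917547719343996931) (Ct.cons true (nat_lit 4) (nat_lit 0) (nat_lit 5764628413763551235) (Ct.cons true (nat_lit 2) (nat_lit 0) (nat_lit 6917551017882025987) (Ct.cons false (nat_lit 2) (nat_lit 1) (nat_lit 9671410015688144293199875) (Ct.cons false (nat_lit 2) (nat_lit 0) (nat_lit 9223378633945513987) (Ct.cons false (nat_lit 1) (nat_lit 2) (nat_lit 9671412321531153504796675) Ct.nil)))))))))))))))) (Tb.node (nat_lit 15376) (Tb.leaf (nat_lit 13372) (nat_lit 163) (V.cons (nat_lit 192) true (nat_lit 2) (V.cons (nat_lit 194)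 true (nat_lit 3) (V.cons (nat_lit 196) true (nat_lit 3) (V.cons (nat_lit 198) false (nat_lit 2) (V.cons (nat_lit 200) false (nat_lit 3) (V.cons (nat_lit 202) true (nat_lit 1) (V.cons (nat_lit 206) false (nat_lit 2) V.nil))))))) (Rw.rw (nat_lit 1) (nat_lit 1) (Ct.cons true (nat_lit 1) (nat_lit 2) (nat_lit 9671412321527854969913347) Ct.nil))) (Tb.node (nat_lit 15381) (Tb.leaf (nat_lit 15376) (nat_lit 39) (V.cons (nat_lit 62) true (nat_lit 1) (V.cons (nat_lit 66) true (nat_lit 1) (V.cons (nat_lit 68) false (nat_lit 1) (V.cons (nat_lit 72) false (nat_lit 1) (V.cons (nat_lit 74) false (nat_lit 1) (V.cons (nat_lit 76) true (nat_lit 1) (V.cons (nat_lit 80) false (nat_lit 1) V.nil))))))) (Rw.rw (nat_lit 0) (nat_lit 0) (Ct.cons false (nat_lit 1) (nat_lit 0) (nat_lit 6917537823739346947) Ct.nil))) (Tb.leaf (nat_lit 15381) (nat_lit 65) (V.cons (nat_lit 109) false (nat_lit 1) (V.cons (nat_lit 111) false (nat_lit 1) (V.cons (nat_lit 113)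 true (nat_lit 1) (V.cons (nat_lit 117) false (nat_lit 1) V.nil)))) (Rw.rw (nat_lit 0) (nat_lit 0) (Ct.cons false (nat_lit 1) (nat_lit 0) (nat_lit 6917532326181208067) Ct.nil))))))
def tE47 : Tb := (Tb.node (nat_lit 17426) (Tb.node (nat_lit 15409) (Tb.leaf (nat_lit 15407) (nat_lit 111) (V.cons (nat_lit 137) false (nat_lit 3) (V.cons (nat_lit 139) true (nat_lit 19) (V.cons (nat_lit 141) true (nat_lit 14) (V.cons (nat_lit 143) true (nat_lit 11) (V.cons (nat_lit 145) true (nat_lit 1) (V.cons (nat_lit 147) true (nat_lit 15) (V.cons (nat_lit 149) true (nat_lit 5) (V.cons (nat_lit 151) false (nat_lit 13) (V.cons (nat_lit 153) true (nat_lit 5) (V.cons (nat_lit 155) true (nat_lit 9) (V.cons (nat_lit 157) false (nat_lit 1) (V.cons (nat_lit 159) false (nat_lit 12) (V.cons (nat_lit 161) true (nat_lit 18) (V.cons (nat_lit 163) false (nat_lit 7) (V.cons (nat_lit 165) true (nat_lit 19) (V.cons (nat_lit 169) false (nat_lit 4) (V.cons (nat_lit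 171) true (nat_lit 18) (V.cons (nat_lit 173) true (nat_lit 15) V.nil)))))))))))))))))) (Rw.rw (nat_lit 0) (nat_lit 0) (Ct.cons false (nat_lit 1) (nat_lit 0) (nat_lit 5764626214738198531) Ct.nil))) (Tb.node (nat_lit 15420) (Tb.leaf (nat_lit 15409) (nat_lit 120) (V.cons (nat_lit 137) true (nat_lit 1) (V.cons (nat_lit 139) false (nat_lit 13) (V.cons (nat_lit 141) false (nat_lit 4) (V.cons (nat_lit 143) false (nat_lit 4) (V.cons (nat_lit 145) true (nat_lit 2) (V.cons (nat_lit 147) false (nat_lit 8) (V.cons (nat_lit 149) false (nat_lit 6) (V.cons (nat_lit 151) true (nat_lit 7) (V.cons (nat_lit 153) false (nat_lit 4) (V.cons (nat_lit 155) false (nat_lit 2) (V.cons (nat_lit 157) true (nat_lit 1) (V.cons (nat_lit 159) true (nat_lit 5) (V.cons (nat_lit 161) false (nat_lit 11) (V.cons (nat_lit 163) true (nat_lit 5) (V.cons (nat_lit 165) false (nat_lit 11) (V.cons (nat_lit 167) true (nat_lit 2) (V.cons (nat_lit 169) true (nat_lit 3)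 (V.cons (nat_lit 171) false (nat_lit 9) (V.cons (nat_lit 173) false (nat_lit 4) V.nil))))))))))))))))))) (Rw.rw (nat_lit 1) (nat_lit 0) (Ct.cons false (nat_lit 1) (nat_lit 2) (nat_lit 7253560682304094178639875) Ct.nil))) (Tb.leaf (nat_lit 15420) (nat_lit 173) (V.cons (nat_lit 224) false (nat_lit 1) V.nil) (Rw.df (nat_lit 224) (nat_lit 0) (nat_lit 0))))) (Tb.node (nat_lit 17427) (Tb.leaf (nat_lit 17426) (nat_lit 46) (V.cons (nat_lit 92) false (nat_lit 1) V.nil) (Rw.df (nat_lit 92) (nat_lit 0) (nat_lit 0))) (Tb.node (nat_lit 17429) (Tb.leaf (nat_lit 17427) (nat_lit 55) (V.cons (nat_lit 105) false (nat_lit 1) V.nil) (Rw.df (nat_lit 105) (nat_lit 0) (nat_lit 0))) (Tb.leaf (nat_lit 17429) (nat_lit 70) (V.cons (nat_lit 123) false (nat_lit 1) V.nil) (Rw.df (nat_lit 123) (nat_lit 0) (nat_lit 0))))))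
def tE48 : Tb := (Tb.node (nat_lit 15407) tE46 tE47)
def tE49 : Tb := (Tb.node (nat_lit 17459) (Tb.node (nat_lit 17451) (Tb.leaf (nat_lit 17449) (nat_lit 105) (V.cons (nat_lit 137) false (nat_lit 1) (V.cons (nat_lit 139) true (nat_lit 2) (V.cons (nat_lit 141) true (nat_lit 4) (V.cons (nat_lit 143) true (nat_lit 3) (V.cons (nat_lit 145) true (nat_lit 1) (V.cons (nat_lit 147) true (nat_lit 2) (V.cons (nat_lit 149) false (nat_lit 1) (V.cons (nat_lit 151) false (nat_lit 2) (V.cons (nat_lit 155) true (nat_lit 3) (V.cons (nat_lit 157) true (nat_lit 1) (V.cons (nat_lit 159) false (nat_lit 2) (V.cons (nat_lit 161) true (nat_lit 2) (V.cons (nat_lit 163) false (nat_lit 1) (V.cons (nat_lit 165) true (nat_lit 3) (V.cons (nat_lit 167) true (nat_lit 1) (V.cons (nat_lit 169) false (nat_lit 1) (V.cons (nat_lit 171) true (nat_lit 3) (V.cons (nat_lit 173) true (nat_lit 4) V.nil)))))))))))))))))) (Rw.rw (nat_lit 0) (nat_lit 0) (Ct.cons true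 (nat_lit 1) (nat_lit 0) (nat_lit 5764614120121827331) Ct.nil))) (Tb.node (nat_lit 17453) (Tb.leaf (nat_lit 17451) (nat_lit 124) (V.cons (nat_lit 139) false (nat_lit 9) (V.cons (nat_lit 141) false (nat_lit 3) (V.cons (nat_lit 143) false (nat_lit 2) (V.cons (nat_lit 145) true (nat_lit 2) (V.cons (nat_lit 147) false (nat_lit 6) (V.cons (nat_lit 149) false (nat_lit 4) (V.cons (nat_lit 151) true (nat_lit 6) (V.cons (nat_lit 153) false (nat_lit 3) (V.cons (nat_lit 155) false (nat_lit 3) (V.cons (nat_lit 157) true (nat_lit 2) (V.cons (nat_lit 159) true (nat_lit 3) (V.cons (nat_lit 161) false (nat_lit 9) (V.cons (nat_lit 163) true (nat_lit 5) (V.cons (nat_lit 165) false (nat_lit 7) (V.cons (nat_lit 169) true (nat_lit 2) (V.cons (nat_lit 171) false (nat_lit 6) (V.cons (nat_lit 173) false (nat_lit 3) V.nil))))))))))))))))) (Rw.rw (nat_lit 1) (nat_lit 0) (Ct.cons false (nat_lit 1) (nat_lit 2) (nat_lit 3626780917617197443973125) Ct.nil)))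 (Tb.leaf (nat_lit 17453) (nat_lit 110) (V.cons (nat_lit 137) false (nat_lit 3) (V.cons (nat_lit 139) true (nat_lit 19) (V.cons (nat_lit 141) true (nat_lit 13) (V.cons (nat_lit 143) true (nat_lit 11) (V.cons (nat_lit 145) true (nat_lit 1) (V.cons (nat_lit 147) true (nat_lit 15) (V.cons (nat_lit 149) true (nat_lit 5) (V.cons (nat_lit 151) false (nat_lit 13) (V.cons (nat_lit 153) true (nat_lit 5) (V.cons (nat_lit 155) true (nat_lit 9) (V.cons (nat_lit 157) false (nat_lit 2) (V.cons (nat_lit 159) false (nat_lit 12) (V.cons (nat_lit 161) true (nat_lit 19) (V.cons (nat_lit 163) false (nat_lit 7) (V.cons (nat_lit 165) true (nat_lit 19) (V.cons (nat_lit 169) false (nat_lit 4) (V.cons (nat_lit 171) true (nat_lit 18) (V.cons (nat_lit 173) true (nat_lit 15) V.nil)))))))))))))))))) (Rw.rw (nat_lit 0) (nat_lit 0) (Ct.cons false (nat_lit 1) (nat_lit 0) (nat_lit 23058438888236253187) Ct.nil))))) (Tb.node (nat_lit 17461) (Tb.leaf (nat_lit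 17459) (nat_lit 134) (V.cons (nat_lit 191) false (nat_lit 1) V.nil) (Rw.df (nat_lit 191) (nat_lit 0) (nat_lit 0))) (Tb.node (nat_lit 17464) (Tb.leaf (nat_lit 17461) (nat_lit 144) (V.cons (nat_lit 175) true (nat_lit 1) (V.cons (nat_lit 179) true (nat_lit 2) (V.cons (nat_lit 181) false (nat_lit 1) (V.cons (nat_lit 183) false (nat_lit 1) (V.cons (nat_lit 185) true (nat_lit 2) (V.cons (nat_lit 187) false (nat_lit 1) (V.cons (nat_lit 189) true (nat_lit 3) (V.cons (nat_lit 191) false (nat_lit 1) V.nil)))))))) (Rw.rw (nat_lit 1) (nat_lit 0) (Ct.cons false (nat_lit 1) (nat_lit 2) (nat_lit 3626780917617197443973123) Ct.nil))) (Tb.leaf (nat_lit 17464) (nat_lit 153) (V.cons (nat_lit 206) false (nat_lit 1) V.nil) (Rw.df (nat_lit 206) (nat_lit 0) (nat_lit 0))))))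
def tE50 : Tb := (Tb.node (nat_lit 19491) (Tb.node (nat_lit 19475) (Tb.leaf (nat_lit 17466) (nat_lit 162) (V.cons (nat_lit 192) true (nat_lit 1) (V.cons (nat_lit 194) true (nat_lit 3) (V.cons (nat_lit 196) true (nat_lit 3) (V.cons (nat_lit 198) false (nat_lit 3) (V.cons (nat_lit 200) false (nat_lit 3) (V.cons (nat_lit 202) true (nat_lit 2) (V.cons (nat_lit 206) false (nat_lit 1) (V.cons (nat_lit 208) false (nat_lit 2) V.nil)))))))) (Rw.rw (nat_lit 0) (nat_lit 0) (Ct.cons false (nat_lit 1) (nat_lit 0) (nat_lit 25364281897448898563) Ct.nil))) (Tb.node (nat_lit 19477) (Tb.leaf (nat_lit 19475) (nat_lit 66) (V.cons (nat_lit 107) false (nat_lit 1) (V.cons (nat_lit 109) true (nat_lit 1) (V.cons (nat_lit 115) false (nat_lit 1) (V.cons (nat_lit 117) false (nat_lit 1) V.nil)))) (Rw.rw (nat_lit 0) (nat_lit 0) (Ct.cons false (nat_lit 1) (nat_lit 0) (nat_lit 5764614120107147267) Ct.nil))) (Tb.leaf (nat_lit 19477) (nat_lit 74) (V.cons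 (nat_lit 129) false (nat_lit 1) V.nil) (Rw.df (nat_lit 129) (nat_lit 0) (nat_lit 0))))) (Tb.node (nat_lit 19493) (Tb.leaf (nat_lit 19491) (nat_lit 108) (V.cons (nat_lit 139) false (nat_lit 8) (V.cons (nat_lit 141) false (nat_lit 5) (V.cons (nat_lit 143) false (nat_lit 3) (V.cons (nat_lit 147) false (nat_lit 7) (V.cons (nat_lit 149) false (nat_lit 1) (V.cons (nat_lit 151) true (nat_lit 5) (V.cons (nat_lit 153) false (nat_lit 3) (V.cons (nat_lit 155) false (nat_lit 3) (V.cons (nat_lit 157) false (nat_lit 1) (V.cons (nat_lit 159) true (nat_lit 3) (V.cons (nat_lit 161) false (nat_lit 8) (V.cons (nat_lit 163) true (nat_lit 4) (V.cons (nat_lit 165) false (nat_lit 9) (V.cons (nat_lit 167) false (nat_lit 1) (V.cons (nat_lit 169) true (nat_lit 3) (V.cons (nat_lit 171) false (nat_lit 7) (V.cons (nat_lit 173) false (nat_lit 4) V.nil))))))))))))))))) (Rw.rw (nat_lit 1) (nat_lit 0) (Ct.cons false (nat_lit 4) (nat_lit 0) (nat_lit 6917543321295388675)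 (Ct.cons false (nat_lit 11) (nat_lit 0) (nat_lit 23058436689215094787) (Ct.cons true (nat_lit 1) (nat_lit 0) (nat_lit 6917534525217046531) (Ct.cons false (nat_lit 11) (nat_lit 0) (nat_lit 21905517383628357635) (Ct.cons true (nat_lit 5) (nat_lit 0) (nat_lit 23058438888236253187) (Ct.cons true (nat_lit 5) (nat_lit 0) (nat_lit 5764626214738198531) (Ct.cons true (nat_lit 9) (nat_lit 0) (nat_lit 21905514085096620035) (Ct.cons false (nat_lit 11) (nat_lit 0) (nat_lit 5764614120121827331) (Ct.cons false (nat_lit 4) (nat_lit 0) (nat_lit 19599671075880828931) (Ct.cons false (nat_lit 10) (nat_lit 0) (nat_lit 9223388529532338179) (Ct.cons true (nat_lit 3) (nat_lit 1) (nat_lit 3626780917617197443973125) (Ct.cons false (nat_lit 17) (nat_lit 0) (nat_lit 6917547719343996931) (Ct.cons false (nat_lit 2) (nat_lit 0) (nat_lit 5764628413763551235) (Ct.cons false (nat_lit 8) (nat_lit 0) (nat_lit 9223394027093622787) (Ct.cons false (nat_lit 4)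 (nat_lit 0) (nat_lit 6917551017882025987) (Ct.cons true (nat_lit 6) (nat_lit 1) (nat_lit 9671410015688144293199875) (Ct.cons false (nat_lit 2) (nat_lit 1) (nat_lit 6044632556846455793385475) (Ct.cons false (nat_lit 1) (nat_lit 2) (nat_lit 9671413474451558600015875) (Ct.cons false (nat_lit 2) (nat_lit 0) (nat_lit 11529220543629754371) (Ct.cons true (nat_lit 2) (nat_lit 0) (nat_lit 9223378633945513987) Ct.nil)))))))))))))))))))))) (Tb.node (nat_lit 19495) (Tb.leaf (nat_lit 19493) (nat_lit 104) (V.cons (nat_lit 137) false (nat_lit 1) (V.cons (nat_lit 139) true (nat_lit 2) (V.cons (nat_lit 141) true (nat_lit 3) (V.cons (nat_lit 143) true (nat_lit 3) (V.cons (nat_lit 145) true (nat_lit 1) (V.cons (nat_lit 147) true (nat_lit 2) (V.cons (nat_lit 149) false (nat_lit 1) (V.cons (nat_lit 151) false (nat_lit 2) (V.cons (nat_lit 155) true (nat_lit 2) (V.cons (nat_lit 157) true (nat_lit 1) (V.cons (nat_lit 159) false (nat_lit 2) (V.cons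 (nat_lit 161) true (nat_lit 2) (V.cons (nat_lit 163) false (nat_lit 1) (V.cons (nat_lit 165) true (nat_lit 2) (V.cons (nat_lit 167) true (nat_lit 1) (V.cons (nat_lit 169) false (nat_lit 1) (V.cons (nat_lit 171) true (nat_lit 3) (V.cons (nat_lit 173) true (nat_lit 4) V.nil)))))))))))))))))) (Rw.rw (nat_lit 2) (nat_lit 0) (Ct.cons true (nat_lit 2) (nat_lit 0) (nat_lit 5764614120121827331) (Ct.cons true (nat_lit 8) (nat_lit 0) (nat_lit 9223388529532338179) (Ct.cons true (nat_lit 12) (nat_lit 0) (nat_lit 6917547719343996931) (Ct.cons true (nat_lit 6) (nat_lit 0) (nat_lit 21905517383628357635) (Ct.cons false (nat_lit 1) (nat_lit 2) (nat_lit 9671413474451558600015875) (Ct.cons false (nat_lit 2) (nat_lit 0) (nat_lit 6917534525217046531) (Ct.cons true (nat_lit 4) (nat_lit 0) (nat_lit 23058436689215094787) (Ct.cons true (nat_lit 8) (nat_lit 0) (nat_lit 19599671075880828931) (Ct.cons false (nat_lit 6) (nat_lit 0) (nat_lit 23058438888236253187)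 (Ct.cons false (nat_lit 8) (nat_lit 0) (nat_lit 5764626214738198531) (Ct.cons false (nat_lit 8) (nat_lit 0) (nat_lit 21905514085096620035) (Ct.cons true (nat_lit 2) (nat_lit 0) (nat_lit 6917551017882025987) (Ct.cons false (nat_lit 4) (nat_lit 1) (nat_lit 9671410015688144293199875) (Ct.cons false (nat_lit 2) (nat_lit 0) (nat_lit 11529220543629754371) (Ct.cons true (nat_lit 4) (nat_lit 0) (nat_lit 9223378633945513987) (Ct.cons false (nat_lit 4) (nat_lit 0) (nat_lit 6917543321295388675) (Ct.cons true (nat_lit 1) (nat_lit 2) (nat_lit 9671412321531153504796675) (Ct.cons true (nat_lit 2) (nat_lit 0) (nat_lit 14987986156961923075) (Ct.cons false (nat_lit 6) (nat_lit 0) (nat_lit 5764628413763551235) Ct.nil))))))))))))))))))))) (Tb.leaf (nat_lit 19495) (nat_lit 116) (V.cons (nat_lit 137) true (nat_lit 1) (V.cons (nat_lit 139) false (nat_lit 22) (V.cons (nat_lit 141) false (nat_lit 12) (V.cons (nat_lit 143) false (nat_lit 8) (V.cons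 (nat_lit 145) true (nat_lit 1) (V.cons (nat_lit 147) false (nat_lit 16) (V.cons (nat_lit 149) false (nat_lit 9) (V.cons (nat_lit 151) true (nat_lit 16) (V.cons (nat_lit 153) false (nat_lit 8) (V.cons (nat_lit 155) false (nat_lit 9) (V.cons (nat_lit 157) true (nat_lit 4) (V.cons (nat_lit 159) true (nat_lit 11) (V.cons (nat_lit 161) false (nat_lit 22) (V.cons (nat_lit 163) true (nat_lit 10) (V.cons (nat_lit 165) false (nat_lit 19) (V.cons (nat_lit 169) true (nat_lit 5) (V.cons (nat_lit 171) false (nat_lit 17) (V.cons (nat_lit 173) false (nat_lit 12) V.nil)))))))))))))))))) (Rw.rw (nat_lit 0) (nat_lit 0) (Ct.cons true (nat_lit 1) (nat_lit 0) (nat_lit 9223378633945513987) Ct.nil))))))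
def tE51 : Tb := (Tb.node (nat_lit 17466) tE49 tE50)
def tE52 : Tb := (Tb.node (nat_lit 17449) tE48 tE51)
def tE53 : Tb := (Tb.node (nat_lit 19514) (Tb.node (nat_lit 19505) (Tb.leaf (nat_lit 19503) (nat_lit 139) (V.cons (nat_lit 175) true (nat_lit 2) (V.cons (nat_lit 179) true (nat_lit 2) (V.cons (nat_lit 183) false (nat_lit 2) (V.cons (nat_lit 185) true (nat_lit 2) (V.cons (nat_lit 187) false (nat_lit 1) (V.cons (nat_lit 189) true (nat_lit 3) (V.cons (nat_lit 191) false (nat_lit 1) V.nil))))))) (Rw.rw (nat_lit 1) (nat_lit 1) (Ct.cons true (nat_lit 1) (nat_lit 2) (nat_lit 9671413474449359576760323) Ct.nil))) (Tb.node (nat_lit 19512) (Tb.leaf (nat_lit 19505) (nat_lit 136) (V.cons (nat_lit 179) false (nat_lit 1) (V.cons (nat_lit 185) false (nat_lit 1) (V.cons (nat_lit 187) true (nat_lit 2) V.nil))) (Rw.rw (nat_lit 0) (nat_lit 0) (Ct.cons true (nat_lit 1) (nat_lit 0) (nat_lit 21905517383626260483) Ct.nil))) (Tb.leaf (nat_lit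 19512) (nat_lit 174) (V.cons (nat_lit 226) false (nat_lit 1) V.nil) (Rw.df (nat_lit 226) (nat_lit 0) (nat_lit 0))))) (Tb.node (nat_lit 20501) (Tb.leaf (nat_lit 19514) (nat_lit 185) (V.cons (nat_lit 210) false (nat_lit 3) (V.cons (nat_lit 212) true (nat_lit 5) (V.cons (nat_lit 214) true (nat_lit 3) (V.cons (nat_lit 216) true (nat_lit 3) (V.cons (nat_lit 218) false (nat_lit 3) (V.cons (nat_lit 222) false (nat_lit 5) (V.cons (nat_lit 224) true (nat_lit 2) (V.cons (nat_lit 226) false (nat_lit 3) V.nil)))))))) (Rw.rw (nat_lit 1) (nat_lit 0) (Ct.cons false (nat_lit 1) (nat_lit 2) (nat_lit 3626780917614998419668995) Ct.nil))) (Tb.node (nat_lit 20510) (Tb.leaf (nat_lit 20501) (nat_lit 79) (V.cons (nat_lit 132) false (nat_lit 1) (V.cons (nat_lit 134) true (nat_lit 1) V.nil)) (Rw.rw (nat_lit 0) (nat_lit 0) (Ct.cons false (nat_lit 1) (nat_lit 0) (nat_lit 5764610821572263939) Ct.nil))) (Tb.leaf (nat_lit 20510) (nat_lit 115) (V.cons (nat_lit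 137) false (nat_lit 2) (V.cons (nat_lit 139) true (nat_lit 25) (V.cons (nat_lit 141) true (nat_lit 13) (V.cons (nat_lit 143) true (nat_lit 10) (V.cons (nat_lit 145) false (nat_lit 1) (V.cons (nat_lit 147) true (nat_lit 18) (V.cons (nat_lit 149) true (nat_lit 10) (V.cons (nat_lit 151) false (nat_lit 17) (V.cons (nat_lit 153) true (nat_lit 9) (V.cons (nat_lit 155) true (nat_lit 9) (V.cons (nat_lit 157) false (nat_lit 4) (V.cons (nat_lit 159) false (nat_lit 13) (V.cons (nat_lit 161) true (nat_lit 25) (V.cons (nat_lit 163) false (nat_lit 11) (V.cons (nat_lit 165) true (nat_lit 24) (V.cons (nat_lit 167) false (nat_lit 1) (V.cons (nat_lit 169) false (nat_lit 6) (V.cons (nat_lit 171) true (nat_lit 20) (V.cons (nat_lit 173) true (nat_lit 14) V.nil))))))))))))))))))) (Rw.rw (nat_lit 0) (nat_lit 0) (Ct.cons false (nat_lit 1) (nat_lit 0) (nat_lit 6917537823755075587) Ct.nil))))))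
def tE54 : Tb := (Tb.node (nat_lit 20529) (Tb.node (nat_lit 20514) (Tb.leaf (nat_lit 20512) (nat_lit 106) (V.cons (nat_lit 137) true (nat_lit 1) (V.cons (nat_lit 139) false (nat_lit 2) (V.cons (nat_lit 141) false (nat_lit 4) (V.cons (nat_lit 143) false (nat_lit 3) (V.cons (nat_lit 145) false (nat_lit 2) (V.cons (nat_lit 147) false (nat_lit 2) (V.cons (nat_lit 149) true (nat_lit 1) (V.cons (nat_lit 151) true (nat_lit 2) (V.cons (nat_lit 155) false (nat_lit 3) (V.cons (nat_lit 157) false (nat_lit 2) (V.cons (nat_lit 159) true (nat_lit 2) (V.cons (nat_lit 161) false (nat_lit 2) (V.cons (nat_lit 165) false (nat_lit 3) (V.cons (nat_lit 167) false (nat_lit 1) (V.cons (nat_lit 169) true (nat_lit 1) (V.cons (nat_lit 171) false (nat_lit 3) (V.cons (nat_lit 173) false (nat_lit 4) V.nil))))))))))))))))) (Rw.rw (nat_lit 0) (nat_lit 0) (Ct.cons false (nat_lit 1) (nat_lit 0) (nat_lit 6917534525217046531) Ct.nil))) (Tb.node (nat_lit 20527)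 (Tb.leaf (nat_lit 20514) (nat_lit 103) (V.cons (nat_lit 141) true (nat_lit 1) (V.cons (nat_lit 143) true (nat_lit 1) (V.cons (nat_lit 145) true (nat_lit 1) (V.cons (nat_lit 147) true (nat_lit 1) (V.cons (nat_lit 149) false (nat_lit 2) (V.cons (nat_lit 151) true (nat_lit 1) (V.cons (nat_lit 157) true (nat_lit 1) (V.cons (nat_lit 163) true (nat_lit 1) (V.cons (nat_lit 165) true (nat_lit 2) (V.cons (nat_lit 169) false (nat_lit 1) (V.cons (nat_lit 171) true (nat_lit 1) V.nil))))))))))) (Rw.rw (nat_lit 0) (nat_lit 0) (Ct.cons false (nat_lit 1) (nat_lit 0) (nat_lit 6917551017882025987) Ct.nil))) (Tb.leaf (nat_lit 20527) (nat_lit 154) (V.cons (nat_lit 208) false (nat_lit 1) V.nil) (Rw.df (nat_lit 208) (nat_lit 0) (nat_lit 0))))) (Tb.node (nat_lit 20531) (Tb.leaf (nat_lit 20529) (nat_lit 158) (V.cons (nat_lit 192) false (nat_lit 1) (V.cons (nat_lit 198) false (nat_lit 1) (V.cons (nat_lit 202) true (nat_lit 1) (V.cons (nat_lit 206)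 false (nat_lit 1) V.nil)))) (Rw.rw (nat_lit 0) (nat_lit 0) (Ct.cons true (nat_lit 1) (nat_lit 0) (nat_lit 23058438888233107459) Ct.nil))) (Tb.node (nat_lit 20533) (Tb.leaf (nat_lit 20531) (nat_lit 184) (V.cons (nat_lit 210) false (nat_lit 2) (V.cons (nat_lit 212) true (nat_lit 3) (V.cons (nat_lit 214) true (nat_lit 3) (V.cons (nat_lit 216) true (nat_lit 3) (V.cons (nat_lit 218) false (nat_lit 2) (V.cons (nat_lit 220) true (nat_lit 1) (V.cons (nat_lit 222) false (nat_lit 4) (V.cons (nat_lit 224) true (nat_lit 2) (V.cons (nat_lit 226) false (nat_lit 3) V.nil))))))))) (Rw.rw (nat_lit 1) (nat_lit 0) (Ct.cons false (nat_lit 1) (nat_lit 2) (nat_lit 6044632556844256766984195) Ct.nil))) (Tb.leaf (nat_lit 20533) (nat_lit 179) (V.cons (nat_lit 210) true (nat_lit 1) (V.cons (nat_lit 212) false (nat_lit 1) (V.cons (nat_lit 214) false (nat_lit 3) (V.cons (nat_lit 216) false (nat_lit 3) (V.cons (nat_lit 218) true (nat_lit 1) (V.cons (nat_lit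 220) false (nat_lit 2) (V.cons (nat_lit 222) true (nat_lit 3) (V.cons (nat_lit 224) false (nat_lit 1) (V.cons (nat_lit 226) true (nat_lit 1) V.nil))))))))) (Rw.rw (nat_lit 1) (nat_lit 1) (Ct.cons false (nat_lit 6) (nat_lit 0) (nat_lit 25364278598915063811) (Ct.cons false (nat_lit 6) (nat_lit 0) (nat_lit 21905511886070218755) (Ct.cons false (nat_lit 1) (nat_lit 2) (nat_lit 7253560682298596620500995) (Ct.cons false (nat_lit 9) (nat_lit 0) (nat_lit 6917551017876783107) (Ct.cons false (nat_lit 3) (nat_lit 1) (nat_lit 3626780917614998419668995) (Ct.cons false (nat_lit 15) (nat_lit 0) (nat_lit 5764628413758308355) Ct.nil)))))))))))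
def tE55 : Tb := (Tb.node (nat_lit 20512) tE53 tE54)
def tE56 : Tb := (Tb.node (nat_lit 22558) (Tb.node (nat_lit 22554) (Tb.leaf (nat_lit 22552) (nat_lit 121) (V.cons (nat_lit 137) false (nat_lit 2) (V.cons (nat_lit 139) true (nat_lit 12) (V.cons (nat_lit 141) true (nat_lit 5) (V.cons (nat_lit 143) true (nat_lit 5) (V.cons (nat_lit 147) true (nat_lit 8) (V.cons (nat_lit 149) true (nat_lit 4) (V.cons (nat_lit 151) false (nat_lit 8) (V.cons (nat_lit 153) true (nat_lit 4) (V.cons (nat_lit 155) true (nat_lit 4) (V.cons (nat_lit 157) false (nat_lit 2) (V.cons (nat_lit 159) false (nat_lit 6) (V.cons (nat_lit 161) true (nat_lit 11) (V.cons (nat_lit 163) false (nat_lit 4) (V.cons (nat_lit 165) true (nat_lit 10) (V.cons (nat_lit 169) false (nat_lit 3) (V.cons (nat_lit 171) true (nat_lit 8) (V.cons (nat_lit 173) true (nat_lit 6) V.nil))))))))))))))))) (Rw.rw (nat_lit 0) (nat_lit 0) (Ct.cons true (nat_lit 1) (nat_lit 0) (nat_lit 9223378633947611141)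 Ct.nil))) (Tb.node (nat_lit 22556) (Tb.leaf (nat_lit 22554) (nat_lit 122) (V.cons (nat_lit 139) true (nat_lit 8) (V.cons (nat_lit 141) true (nat_lit 4) (V.cons (nat_lit 143) true (nat_lit 1) (V.cons (nat_lit 145) false (nat_lit 1) (V.cons (nat_lit 147) true (nat_lit 6) (V.cons (nat_lit 149) true (nat_lit 4) (V.cons (nat_lit 151) false (nat_lit 7) (V.cons (nat_lit 153) true (nat_lit 4) (V.cons (nat_lit 155) true (nat_lit 4) (V.cons (nat_lit 157) false (nat_lit 5) (V.cons (nat_lit 159) false (nat_lit 5) (V.cons (nat_lit 161) true (nat_lit 9) (V.cons (nat_lit 163) false (nat_lit 4) (V.cons (nat_lit 165) true (nat_lit 5) (V.cons (nat_lit 171) true (nat_lit 5) (V.cons (nat_lit 173) true (nat_lit 4) V.nil)))))))))))))))) (Rw.rw (nat_lit 0) (nat_lit 0) (Ct.cons true (nat_lit 1) (nat_lit 0) (nat_lit 25364279698428788741) Ct.nil))) (Tb.leaf (nat_lit 22556) (nat_lit 123) (V.cons (nat_lit 137) true (nat_lit 4) (V.cons (nat_lit 139)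 false (nat_lit 30) (V.cons (nat_lit 141) false (nat_lit 21) (V.cons (nat_lit 143) false (nat_lit 16) (V.cons (nat_lit 145) false (nat_lit 1) (V.cons (nat_lit 147) false (nat_lit 24) (V.cons (nat_lit 149) false (nat_lit 8) (V.cons (nat_lit 151) true (nat_lit 21) (V.cons (nat_lit 153) false (nat_lit 8) (V.cons (nat_lit 155) false (nat_lit 14) (V.cons (nat_lit 157) true (nat_lit 1) (V.cons (nat_lit 159) true (nat_lit 17) (V.cons (nat_lit 161) false (nat_lit 28) (V.cons (nat_lit 163) true (nat_lit 12) (V.cons (nat_lit 165) false (nat_lit 29) (V.cons (nat_lit 167) false (nat_lit 2) (V.cons (nat_lit 169) true (nat_lit 7) (V.cons (nat_lit 171) false (nat_lit 27) (V.cons (nat_lit 173) false (nat_lit 22) V.nil))))))))))))))))))) (Rw.rw (nat_lit 0) (nat_lit 0) (Ct.cons true (nat_lit 1) (nat_lit 2) (nat_lit 6044632556846455793385475) Ct.nil))))) (Tb.node (nat_lit 22560) (Tb.leaf (nat_lit 22558) (nat_lit 143) (V.cons (nat_lit 175) true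 (nat_lit 1) (V.cons (nat_lit 179) true (nat_lit 3) (V.cons (nat_lit 181) false (nat_lit 1) (V.cons (nat_lit 183) false (nat_lit 1) (V.cons (nat_lit 185) true (nat_lit 3) (V.cons (nat_lit 187) false (nat_lit 2) (V.cons (nat_lit 189) true (nat_lit 2) (V.cons (nat_lit 191) false (nat_lit 1) V.nil)))))))) (Rw.rw (nat_lit 1) (nat_lit 0) (Ct.cons false (nat_lit 1) (nat_lit 2) (nat_lit 9671410015688144291102723) Ct.nil))) (Tb.node (nat_lit 22562) (Tb.leaf (nat_lit 22560) (nat_lit 142) (V.cons (nat_lit 175) true (nat_lit 3) (V.cons (nat_lit 179) true (nat_lit 2) (V.cons (nat_lit 181) false (nat_lit 1) (V.cons (nat_lit 183) false (nat_lit 3) (V.cons (nat_lit 185) true (nat_lit 2) (V.cons (nat_lit 189) true (nat_lit 3) (V.cons (nat_lit 191) true (nat_lit 1) V.nil))))))) (Rw.rw (nat_lit 0) (nat_lit 0) (Ct.cons true (nat_lit 1) (nat_lit 0) (nat_lit 25364279698428788739) Ct.nil))) (Tb.leaf (nat_lit 22562) (nat_lit 145) (V.cons (nat_lit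 175) false (nat_lit 4) (V.cons (nat_lit 179) false (nat_lit 3) (V.cons (nat_lit 181) false (nat_lit 2) (V.cons (nat_lit 183) true (nat_lit 4) (V.cons (nat_lit 185) false (nat_lit 3) (V.cons (nat_lit 189) false (nat_lit 5) V.nil)))))) (Rw.rw (nat_lit 0) (nat_lit 0) (Ct.cons true (nat_lit 1) (nat_lit 0) (nat_lit 25364281897449947139) Ct.nil))))))
def tE57 : Tb := (Tb.node (nat_lit 22569) (Tb.node (nat_lit 22565) (Tb.leaf (nat_lit 22563) (nat_lit 165) (V.cons (nat_lit 192) true (nat_lit 4) (V.cons (nat_lit 194) true (nat_lit 5) (V.cons (nat_lit 196) true (nat_lit 7) (V.cons (nat_lit 198) false (nat_lit 4) (V.cons (nat_lit 200) false (nat_lit 5) (V.cons (nat_lit 202) true (nat_lit 3) (V.cons (nat_lit 206) false (nat_lit 3) (V.cons (nat_lit 208) false (nat_lit 1) V.nil)))))))) (Rw.rw (nat_lit 1) (nat_lit 0) (Ct.cons false (nat_lit 1) (nat_lit 2) (nat_lit 3626780917617197442924547) Ct.nil))) (Tb.node (nat_lit 22567) (Tb.leaf (nat_lit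 22565) (nat_lit 157) (V.cons (nat_lit 194) true (nat_lit 1) (V.cons (nat_lit 198) true (nat_lit 1) (V.cons (nat_lit 200) false (nat_lit 1) (V.cons (nat_lit 206) false (nat_lit 1) V.nil)))) (Rw.rw (nat_lit 0) (nat_lit 0) (Ct.cons true (nat_lit 1) (nat_lit 0) (nat_lit 19599668876856524803) Ct.nil))) (Tb.leaf (nat_lit 22567) (nat_lit 156) (V.cons (nat_lit 196) false (nat_lit 1) (V.cons (nat_lit 198) false (nat_lit 1) (V.cons (nat_lit 202) false (nat_lit 1) (V.cons (nat_lit 208) true (nat_lit 1) V.nil)))) (Rw.rw (nat_lit 0) (nat_lit 0) (Ct.cons false (nat_lit 1) (nat_lit 0) (nat_lit 23058433390680211459) Ct.nil))))) (Tb.node (nat_lit 22571) (Tb.leaf (nat_lit 22569) (nat_lit 176) (V.cons (nat_lit 212) true (nat_lit 1) (V.cons (nat_lit 214) true (nat_lit 1) (V.cons (nat_lit 216) false (nat_lit 1) (V.cons (nat_lit 220) true (nat_lit 1) (V.cons (nat_lit 224) false (nat_lit 1) V.nil))))) (Rw.rw (nat_lit 0) (nat_lit 0) (Ct.cons true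 (nat_lit 1) (nat_lit 0) (nat_lit 17293825867640733699) Ct.nil))) (Tb.node (nat_lit 22573) (Tb.leaf (nat_lit 22571) (nat_lit 175) (V.cons (nat_lit 210) true (nat_lit 1) (V.cons (nat_lit 212) false (nat_lit 1) (V.cons (nat_lit 216) true (nat_lit 1) (V.cons (nat_lit 218) true (nat_lit 1) (V.cons (nat_lit 220) true (nat_lit 1) (V.cons (nat_lit 222) false (nat_lit 1) (V.cons (nat_lit 226) false (nat_lit 1) V.nil))))))) (Rw.rw (nat_lit 0) (nat_lit 0) (Ct.cons true (nat_lit 1) (nat_lit 0) (nat_lit 21905511886070218755) Ct.nil))) (Tb.leaf (nat_lit 22573) (nat_lit 177) (V.cons (nat_lit 210) false (nat_lit 1) (V.cons (nat_lit 214) false (nat_lit 1) (V.cons (nat_lit 218) false (nat_lit 1) (V.cons (nat_lit 220) false (nat_lit 2) (V.cons (nat_lit 222) true (nat_lit 1) (V.cons (nat_lit 224) false (nat_lit 1) (V.cons (nat_lit 226) true (nat_lit 1) V.nil))))))) (Rw.rw (nat_lit 1) (nat_lit 1) (Ct.cons false (nat_lit 6) (nat_lit 0) (nat_lit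 23058433390678114307) (Ct.cons false (nat_lit 1) (nat_lit 2) (nat_lit 7253560682298596620500995) Ct.nil)))))))
def tE58 : Tb := (Tb.node (nat_lit 22563) tE56 tE57)
def tE59 : Tb := (Tb.node (nat_lit 22552) tE55 tE58)
def tE60 : Tb := (Tb.node (nat_lit 19503) tE52 tE59)
def tE61 : Tb := (Tb.node (nat_lit 13363) tE45 tE60)
def tE62 : Tb := (Tb.node (nat_lit 6200) tE30 tE61)
def tE : Tb := tE62
def tED : DL := (DL.cons (nat_lit 10) (nat_lit 6) (nat_lit 8) (nat_lit 0) (nat_lit 0) (DL.cons (nat_lit 13) (nat_lit 5) (nat_lit 8) (nat_lit 0) (nat_lit 0) (DL.cons (nat_lit 15) (nat_lit 5) (nat_lit 6) (nat_lit 0) (nat_lit 0) (DL.cons (nat_lit 17) (nat_lit 3) (nat_lit 8) (nat_lit 0) (nat_lit 0) (DL.cons (nat_lit 19) (nat_lit 3) (nat_lit 6) (nat_lit 0) (nat_lit 0) (DL.cons (nat_lit 20) (nat_lit 3) (nat_lit 5) (nat_lit 0) (nat_lit 0) (DL.cons (nat_lit 22) (nat_lit 3) (nat_lit 3) (nat_lit 0) (nat_lit 0) (DL.cons (nat_lit 25) (nat_lit 5)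 (nat_lit 10) (nat_lit 0) (nat_lit 0) (DL.cons (nat_lit 27) (nat_lit 6) (nat_lit 13) (nat_lit 0) (nat_lit 0) (DL.cons (nat_lit 29) (nat_lit 8) (nat_lit 15) (nat_lit 0) (nat_lit 0) (DL.cons (nat_lit 31) (nat_lit 3) (nat_lit 10) (nat_lit 0) (nat_lit 0) (DL.cons (nat_lit 33) (nat_lit 6) (nat_lit 17) (nat_lit 0) (nat_lit 0) (DL.cons (nat_lit 35) (nat_lit 8) (nat_lit 19) (nat_lit 0) (nat_lit 0) (DL.cons (nat_lit 36) (nat_lit 3) (nat_lit 13) (nat_lit 0) (nat_lit 0) (DL.cons (nat_lit 38) (nat_lit 5) (nat_lit 17) (nat_lit 0) (nat_lit 0) (DL.cons (nat_lit 40) (nat_lit 8) (nat_lit 20) (nat_lit 0) (nat_lit 0) (DL.cons (nat_lit 42) (nat_lit 3) (nat_lit 15) (nat_lit 0) (nat_lit 0) (DL.cons (nat_lit 44) (nat_lit 5) (nat_lit 19) (nat_lit 0) (nat_lit 0) (DL.cons (nat_lit 46) (nat_lit 6) (nat_lit 20) (nat_lit 0) (nat_lit 0) (DL.cons (nat_lit 48) (nat_lit 3) (nat_lit 17) (nat_lit 0) (nat_lit 0) (DL.cons (nat_lit 50) (nat_lit 8) (nat_lit 22)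 (nat_lit 0) (nat_lit 0) (DL.cons (nat_lit 52) (nat_lit 3) (nat_lit 19) (nat_lit 0) (nat_lit 0) (DL.cons (nat_lit 54) (nat_lit 6) (nat_lit 22) (nat_lit 0) (nat_lit 0) (DL.cons (nat_lit 57) (nat_lit 3) (nat_lit 20) (nat_lit 0) (nat_lit 0) (DL.cons (nat_lit 59) (nat_lit 5) (nat_lit 22) (nat_lit 0) (nat_lit 0) (DL.cons (nat_lit 61) (nat_lit 3) (nat_lit 22) (nat_lit 0) (nat_lit 0) (DL.cons (nat_lit 62) (nat_lit 3) (nat_lit 25) (nat_lit 0) (nat_lit 0) (DL.cons (nat_lit 64) (nat_lit 3) (nat_lit 27) (nat_lit 0) (nat_lit 0) (DL.cons (nat_lit 66) (nat_lit 3) (nat_lit 29) (nat_lit 0) (nat_lit 0) (DL.cons (nat_lit 68) (nat_lit 5) (nat_lit 31) (nat_lit 0) (nat_lit 0) (DL.cons (nat_lit 70) (nat_lit 5) (nat_lit 33) (nat_lit 0) (nat_lit 0) (DL.cons (nat_lit 72) (nat_lit 5) (nat_lit 35) (nat_lit 0) (nat_lit 0) (DL.cons (nat_lit 74) (nat_lit 6) (nat_lit 36) (nat_lit 0) (nat_lit 0) (DL.cons (nat_lit 76) (nat_lit 6) (nat_lit 38) (nat_lit 0)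 (nat_lit 0) (DL.cons (nat_lit 78) (nat_lit 8) (nat_lit 42) (nat_lit 0) (nat_lit 0) (DL.cons (nat_lit 80) (nat_lit 13) (nat_lit 19) (nat_lit 0) (nat_lit 0) (DL.cons (nat_lit 82) (nat_lit 3) (nat_lit 31) (nat_lit 0) (nat_lit 0) (DL.cons (nat_lit 84) (nat_lit 3) (nat_lit 33) (nat_lit 0) (nat_lit 0) (DL.cons (nat_lit 86) (nat_lit 3) (nat_lit 35) (nat_lit 0) (nat_lit 0) (DL.cons (nat_lit 88) (nat_lit 6) (nat_lit 48) (nat_lit 0) (nat_lit 0) (DL.cons (nat_lit 90) (nat_lit 6) (nat_lit 50) (nat_lit 0) (nat_lit 0) (DL.cons (nat_lit 92) (nat_lit 17) (nat_lit 19) (nat_lit 0) (nat_lit 0) (DL.cons (nat_lit 95) (nat_lit 3) (nat_lit 36) (nat_lit 0) (nat_lit 0) (DL.cons (nat_lit 97) (nat_lit 3) (nat_lit 38) (nat_lit 0) (nat_lit 0) (DL.cons (nat_lit 99) (nat_lit 3) (nat_lit 40) (nat_lit 0) (nat_lit 0) (DL.cons (nat_lit 101) (nat_lit 5) (nat_lit 48) (nat_lit 0) (nat_lit 0) (DL.cons (nat_lit 103) (nat_lit 8) (nat_lit 57) (nat_lit 0) (nat_lit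 0) (DL.cons (nat_lit 105) (nat_lit 17) (nat_lit 20) (nat_lit 0) (nat_lit 0) (DL.cons (nat_lit 107) (nat_lit 3) (nat_lit 42) (nat_lit 0) (nat_lit 0) (DL.cons (nat_lit 109) (nat_lit 3) (nat_lit 44) (nat_lit 0) (nat_lit 0) (DL.cons (nat_lit 111) (nat_lit 3) (nat_lit 46) (nat_lit 0) (nat_lit 0) (DL.cons (nat_lit 113) (nat_lit 5) (nat_lit 52) (nat_lit 0) (nat_lit 0) (DL.cons (nat_lit 115) (nat_lit 5) (nat_lit 54) (nat_lit 0) (nat_lit 0) (DL.cons (nat_lit 117) (nat_lit 6) (nat_lit 57) (nat_lit 0) (nat_lit 0) (DL.cons (nat_lit 119) (nat_lit 3) (nat_lit 48) (nat_lit 0) (nat_lit 0) (DL.cons (nat_lit 121) (nat_lit 3) (nat_lit 50) (nat_lit 0) (nat_lit 0) (DL.cons (nat_lit 123) (nat_lit 17) (nat_lit 22) (nat_lit 0) (nat_lit 0) (DL.cons (nat_lit 125) (nat_lit 3) (nat_lit 52) (nat_lit 0) (nat_lit 0) (DL.cons (nat_lit 127) (nat_lit 3) (nat_lit 54) (nat_lit 0) (nat_lit 0) (DL.cons (nat_lit 129) (nat_lit 19) (nat_lit 22) (nat_lit 0) (nat_lit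 0) (DL.cons (nat_lit 130) (nat_lit 3) (nat_lit 57) (nat_lit 0) (nat_lit 0) (DL.cons (nat_lit 132) (nat_lit 3) (nat_lit 59) (nat_lit 0) (nat_lit 0) (DL.cons (nat_lit 134) (nat_lit 5) (nat_lit 61) (nat_lit 0) (nat_lit 0) (DL.cons (nat_lit 137) (nat_lit 3) (nat_lit 62) (nat_lit 0) (nat_lit 0) (DL.cons (nat_lit 139) (nat_lit 3) (nat_lit 68) (nat_lit 0) (nat_lit 0) (DL.cons (nat_lit 141) (nat_lit 3) (nat_lit 70) (nat_lit 0) (nat_lit 0) (DL.cons (nat_lit 143) (nat_lit 3) (nat_lit 72) (nat_lit 0) (nat_lit 0) (DL.cons (nat_lit 145) (nat_lit 3) (nat_lit 76) (nat_lit 0) (nat_lit 0) (DL.cons (nat_lit 147) (nat_lit 3) (nat_lit 78) (nat_lit 0) (nat_lit 0) (DL.cons (nat_lit 149) (nat_lit 3) (nat_lit 80) (nat_lit 0) (nat_lit 0) (DL.cons (nat_lit 151) (nat_lit 5) (nat_lit 82) (nat_lit 0) (nat_lit 0) (DL.cons (nat_lit 153) (nat_lit 5) (nat_lit 86) (nat_lit 0) (nat_lit 0) (DL.cons (nat_lit 155) (nat_lit 5) (nat_lit 88) (nat_lit 0) (nat_lit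 0) (DL.cons (nat_lit 157) (nat_lit 5) (nat_lit 92) (nat_lit 0) (nat_lit 0) (DL.cons (nat_lit 159) (nat_lit 6) (nat_lit 95) (nat_lit 0) (nat_lit 0) (DL.cons (nat_lit 161) (nat_lit 6) (nat_lit 97) (nat_lit 0) (nat_lit 0) (DL.cons (nat_lit 163) (nat_lit 6) (nat_lit 101) (nat_lit 0) (nat_lit 0) (DL.cons (nat_lit 165) (nat_lit 6) (nat_lit 105) (nat_lit 0) (nat_lit 0) (DL.cons (nat_lit 167) (nat_lit 8) (nat_lit 107) (nat_lit 0) (nat_lit 0) (DL.cons (nat_lit 169) (nat_lit 8) (nat_lit 109) (nat_lit 0) (nat_lit 0) (DL.cons (nat_lit 171) (nat_lit 8) (nat_lit 111) (nat_lit 0) (nat_lit 0) (DL.cons (nat_lit 173) (nat_lit 8) (nat_lit 117) (nat_lit 0) (nat_lit 0) (DL.cons (nat_lit 175) (nat_lit 3) (nat_lit 84) (nat_lit 0) (nat_lit 0) (DL.cons (nat_lit 177) (nat_lit 3) (nat_lit 86) (nat_lit 0) (nat_lit 0) (DL.cons (nat_lit 179) (nat_lit 3) (nat_lit 90) (nat_lit 0) (nat_lit 0) (DL.cons (nat_lit 181) (nat_lit 3) (nat_lit 92) (nat_lit 0) (nat_lit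 0) (DL.cons (nat_lit 183) (nat_lit 6) (nat_lit 119) (nat_lit 0) (nat_lit 0) (DL.cons (nat_lit 185) (nat_lit 6) (nat_lit 121) (nat_lit 0) (nat_lit 0) (DL.cons (nat_lit 187) (nat_lit 6) (nat_lit 123) (nat_lit 0) (nat_lit 0) (DL.cons (nat_lit 189) (nat_lit 8) (nat_lit 129) (nat_lit 0) (nat_lit 0) (DL.cons (nat_lit 191) (nat_lit 17) (nat_lit 52) (nat_lit 0) (nat_lit 0) (DL.cons (nat_lit 192) (nat_lit 3) (nat_lit 99) (nat_lit 0) (nat_lit 0) (DL.cons (nat_lit 194) (nat_lit 3) (nat_lit 101) (nat_lit 0) (nat_lit 0) (DL.cons (nat_lit 196) (nat_lit 3) (nat_lit 103) (nat_lit 0) (nat_lit 0) (DL.cons (nat_lit 198) (nat_lit 3) (nat_lit 105) (nat_lit 0) (nat_lit 0) (DL.cons (nat_lit 200) (nat_lit 5) (nat_lit 119) (nat_lit 0) (nat_lit 0) (DL.cons (nat_lit 202) (nat_lit 8) (nat_lit 130) (nat_lit 0) (nat_lit 0) (DL.cons (nat_lit 204) (nat_lit 8) (nat_lit 134) (nat_lit 0) (nat_lit 0) (DL.cons (nat_lit 206) (nat_lit 17) (nat_lit 57) (nat_lit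 0) (nat_lit 0) (DL.cons (nat_lit 208) (nat_lit 20) (nat_lit 48) (nat_lit 0) (nat_lit 0) (DL.cons (nat_lit 210) (nat_lit 3) (nat_lit 107) (nat_lit 0) (nat_lit 0) (DL.cons (nat_lit 212) (nat_lit 3) (nat_lit 109) (nat_lit 0) (nat_lit 0) (DL.cons (nat_lit 214) (nat_lit 3) (nat_lit 111) (nat_lit 0) (nat_lit 0) (DL.cons (nat_lit 216) (nat_lit 3) (nat_lit 113) (nat_lit 0) (nat_lit 0) (DL.cons (nat_lit 218) (nat_lit 3) (nat_lit 115) (nat_lit 0) (nat_lit 0) (DL.cons (nat_lit 220) (nat_lit 3) (nat_lit 117) (nat_lit 0) (nat_lit 0) (DL.cons (nat_lit 222) (nat_lit 5) (nat_lit 125) (nat_lit 0) (nat_lit 0) (DL.cons (nat_lit 224) (nat_lit 15) (nat_lit 61) (nat_lit 0) (nat_lit 0) (DL.cons (nat_lit 226) (nat_lit 19) (nat_lit 57) (nat_lit 0) (nat_lit 0) DL.nil)))))))))))))))))))))))))))))))))))))))))))))))))))))))))))))))))))))))))))))))))))))))))))))))))))))))))))))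

def cE0 : Ct := (Ct.cons true (nat_lit 14) (nat_lit 0) (nat_lit 9223434709023850499) (Ct.cons false (nat_lit 6) (nat_lit 0) (nat_lit 6917547719359725571) (Ct.cons true (nat_lit 3) (nat_lit 0) (nat_lit 5764646005944352771) (Ct.cons true (nat_lit 4) (nat_lit 0) (nat_lit 5764641607897841667) (Ct.cons true (nat_lit 14) (nat_lit 0) (nat_lit 65716532359668432899) (Ct.cons false (nat_lit 3) (nat_lit 0) (nat_lit 40352258158800928771) (Ct.cons true (nat_lit 8) (nat_lit 0) (nat_lit 9223378633984311299) (Ct.cons false (nat_lit 3) (nat_lit 0) (nat_lit 40352255959779770371) (Ct.cons true (nat_lit 3) (nat_lit 0) (nat_lit 21905517383646183429) (Ct.cons false (nat_lit 2) (nat_lit 0) (nat_lit 9223439107070361605) (Ct.cons false (nat_lit 2) (nat_lit 0) (nat_lit 70328218378095820805) (Ct.cons true (nat_lit 2) (nat_lit 0) (nat_lit 28823040913709203459) (Ct.cons true (nat_lit 6) (nat_lit 0) (nat_lit 23058438888249884675) (Ct.cons true (nat_lit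 6) (nat_lit 0) (nat_lit 65716534558689591299) (Ct.cons false (nat_lit 12) (nat_lit 0) (nat_lit 23058448783840903171) (Ct.cons false (nat_lit 18) (nat_lit 0) (nat_lit 23058436689224531971) (Ct.cons true (nat_lit 12) (nat_lit 0) (nat_lit 25364295091591577606) (Ct.cons true (nat_lit 4) (nat_lit 0) (nat_lit 11529237036304171011) (Ct.cons false (nat_lit 12) (nat_lit 0) (nat_lit 19599672175407136771) (Ct.cons true (nat_lit 12) (nat_lit 0) (nat_lit 53034398008011128835) (Ct.cons false (nat_lit 2) (nat_lit 0) (nat_lit 9223378633988505605) (Ct.cons true (nat_lit 6) (nat_lit 0) (nat_lit 6917537823793872899) (Ct.cons true (nat_lit 3) (nat_lit 0) (nat_lit 21905532776794292229) (Ct.cons false (nat_lit 12) (nat_lit 0) (nat_lit 23058433390682308611) (Ct.cons true (nat_lit 6) (nat_lit 0) (nat_lit 9223422614392799235) (Ct.cons true (nat_lit 3) (nat_lit 0) (nat_lit 25364281897463578629) (Ct.cons true (nat_lit 2) (nat_lit 0) (nat_lit 35740572140373540867)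 (Ct.cons false (nat_lit 4) (nat_lit 0) (nat_lit 11529220543649677315) (Ct.cons false (nat_lit 1) (nat_lit 2) (nat_lit 3626780917619396466180099) Ct.nil)))))))))))))))))))))))))))))

theorem kE0 : chkT tE axE tED 0 165 tE = true := by decide +kernel

theorem kE165 : chkT tE axE tED 165 186 tE = true := by decide +kernel

theorem fE : chkF tE 186 axE true (Ex.add false 1 (Ex.op 0 false (Ex.op 0 false qM (Ex.v 2)) (Ex.v 3)) (Ex.add false 1 (Ex.op 0 false (Ex.op 0 false (Ex.v 2) (Ex.v 3)) qM) (Ex.op 0 false (Ex.op 0 false (Ex.v 3) qM) (Ex.v 2)))) 9223378633929785347 (2 ^ 2 * 3 ^ 0) cE0 = true := by decide +kernel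

end Pool.Agent.TP
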