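import Pool.Agent.Helper19_TP.AxL

/-! Table and kernel checks F, generated (helper19). -/

set_option autoImplicit false
set_option maxRecDepth 100000

namespace Pool.Agent.TP

def tF0 : Tb := (Tb.node (nat_lit 3077) (Tb.node (nat_lit 3076) (Tb.leaf (nat_lit 3074) (nat_lit 2) (V.cons (nat_lit 10) false (nat_lit 1) V.nil) (Rw.df (nat_lit 10) (nat_lit 0) (nat_lit 0))) (Tb.leaf (nat_lit 3076) (nat_lit 1) (V.cons (nat_lit 8) false (nat_lit 1) V.nil) (Rw.df (nat_lit 8) (nat_lit 0) (nat_lit 0)))) (Tb.node (nat_lit 3079) (Tb.leaf (nat_lit 3077) (nat_lit 4) (V.cons (nat_lit 15) false (nat_lit 1) V.nil) (Rw.df (nat_lit 15) (nat_lit 0) (nat_lit 0))) (Tb.node (nat_lit 3081) (Tb.leaf (nat_lit 3079) (nat_lit 6) (V.cons (nat_lit 19) false (nat_lit 1) V.nil) (Rw.df (nat_lit 19) (nat_lit 0) (nat_lit 0))) (Tb.leaf (nat_lit 3081) (nat_lit 8) (V.cons (nat_lit 23) false (nat_lit 1) V.nil)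 (Rw.df (nat_lit 23) (nat_lit 0) (nat_lit 0))))))
def tF1 : Tb := (Tb.node (nat_lit 3088) (Tb.node (nat_lit 3086) (Tb.leaf (nat_lit 3084) (nat_lit 9) (V.cons (nat_lit 24) false (nat_lit 1) V.nil) (Rw.df (nat_lit 24) (nat_lit 0) (nat_lit 0))) (Tb.leaf (nat_lit 3086) (nat_lit 13) (V.cons (nat_lit 28) false (nat_lit 1) V.nil) (Rw.df (nat_lit 28) (nat_lit 0) (nat_lit 0)))) (Tb.node (nat_lit 3090) (Tb.leaf (nat_lit 3088) (nat_lit 14) (V.cons (nat_lit 30) false (nat_lit 1) V.nil) (Rw.df (nat_lit 30) (nat_lit 0) (nat_lit 0))) (Tb.node (nat_lit 3092) (Tb.leaf (nat_lit 3090) (nat_lit 18) (V.cons (nat_lit 32) false (nat_lit 1) V.nil) (Rw.df (nat_lit 32) (nat_lit 0) (nat_lit 0))) (Tb.leaf (nat_lit 3092) (nat_lit 19) (V.cons (nat_lit 34) false (nat_lit 1) V.nil) (Rw.df (nat_lit 34) (nat_lit 0) (nat_lit 0))))))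
def tF2 : Tb := (Tb.node (nat_lit 3084) tF0 tF1)
def tF3 : Tb := (Tb.node (nat_lit 3099) (Tb.node (nat_lit 3097) (Tb.leaf (nat_lit 3095) (nat_lit 22) (V.cons (nat_lit 37) false (nat_lit 1) V.nil) (Rw.df (nat_lit 37) (nat_lit 0) (nat_lit 0))) (Tb.leaf (nat_lit 3097) (nat_lit 23) (V.cons (nat_lit 39) false (nat_lit 1) V.nil) (Rw.df (nat_lit 39) (nat_lit 0) (nat_lit 0)))) (Tb.node (nat_lit 3101) (Tb.leaf (nat_lit 3099) (nat_lit 31) (V.cons (nat_lit 41) false (nat_lit 1) V.nil) (Rw.df (nat_lit 41) (nat_lit 0) (nat_lit 0))) (Tb.node (nat_lit 5124) (Tb.leaf (nat_lit 3101) (nat_lit 32) (V.cons (nat_lit 43) false (nat_lit 1) V.nil) (Rw.df (nat_lit 43) (nat_lit 0) (nat_lit 0))) (Tb.leaf (nat_lit 5124) (nat_lit 0) (V.cons (nat_lit 6) false (nat_lit 1) V.nil) (Rw.df (nat_lit 6) (nat_lit 0) (nat_lit 0))))))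
def tF4 : Tb := (Tb.node (nat_lit 5129) (Tb.node (nat_lit 5127) (Tb.leaf (nat_lit 5125) (nat_lit 3) (V.cons (nat_lit 13) false (nat_lit 1) V.nil) (Rw.df (nat_lit 13) (nat_lit 0) (nat_lit 0))) (Tb.leaf (nat_lit 5127) (nat_lit 5) (V.cons (nat_lit 17) false (nat_lit 1) V.nil) (Rw.df (nat_lit 17) (nat_lit 0) (nat_lit 0)))) (Tb.node (nat_lit 5134) (Tb.leaf (nat_lit 5129) (nat_lit 7) (V.cons (nat_lit 21) false (nat_lit 1) V.nil) (Rw.df (nat_lit 21) (nat_lit 0) (nat_lit 0))) (Tb.node (nat_lit 5136) (Tb.leaf (nat_lit 5134) (nat_lit 12) (V.cons (nat_lit 24) false (nat_lit 1) V.nil) (Rw.rw (nat_lit 0) (nat_lit 0) (Ct.cons false (nat_lit 1) (nat_lit 0) (nat_lit 5764613020597616643) Ct.nil))) (Tb.leaf (nat_lit 5136) (nat_lit 10) (V.cons (nat_lit 26) false (nat_lit 1) V.nil) (Rw.df (nat_lit 26) (nat_lit 0) (nat_lit 0))))))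
def tF5 : Tb := (Tb.node (nat_lit 5125) tF3 tF4)
def tF6 : Tb := (Tb.node (nat_lit 3095) tF2 tF5)
def tF7 : Tb := (Tb.node (nat_lit 5142) (Tb.node (nat_lit 5140) (Tb.leaf (nat_lit 5138) (nat_lit 16) (V.cons (nat_lit 30) false (nat_lit 1) V.nil) (Rw.rw (nat_lit 1) (nat_lit 0) (Ct.cons false (nat_lit 1) (nat_lit 0) (nat_lit 5764610821574361091) Ct.nil))) (Tb.leaf (nat_lit 5140) (nat_lit 17) (V.cons (nat_lit 28) true (nat_lit 1) (V.cons (nat_lit 30) false (nat_lit 2) V.nil)) (Rw.rw (nat_lit 0) (nat_lit 0) (Ct.cons false (nat_lit 1) (nat_lit 0) (nat_lit 5764613020595519491) Ct.nil)))) (Tb.node (nat_lit 5147) (Tb.leaf (nat_lit 5142) (nat_lit 21) (V.cons (nat_lit 34) false (nat_lit 1) V.nil) (Rw.rw (nat_lit 0) (nat_lit 0) (Ct.cons false (nat_lit 1) (nat_lit 0) (nat_lit 5764610821572263939) Ct.nil))) (Tb.node (nat_lit 5149) (Tb.leaf (nat_lit 5147) (nat_lit 27) (V.cons (nat_lit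 37) false (nat_lit 1) V.nil) (Rw.rw (nat_lit 0) (nat_lit 0) (Ct.cons true (nat_lit 1) (nat_lit 0) (nat_lit 6917534525202366467) Ct.nil))) (Tb.leaf (nat_lit 5149) (nat_lit 30) (V.cons (nat_lit 39) false (nat_lit 1) V.nil) (Rw.rw (nat_lit 0) (nat_lit 0) (Ct.cons false (nat_lit 1) (nat_lit 0) (nat_lit 5764613020600762371) Ct.nil))))))
def tF8 : Tb := (Tb.node (nat_lit 6151) (Tb.node (nat_lit 5153) (Tb.leaf (nat_lit 5151) (nat_lit 39) (V.cons (nat_lit 43) false (nat_lit 1) V.nil) (Rw.rw (nat_lit 0) (nat_lit 0) (Ct.cons false (nat_lit 1) (nat_lit 0) (nat_lit 9223375335394902019) Ct.nil))) (Tb.leaf (nat_lit 5153) (nat_lit 36) (V.cons (nat_lit 41) true (nat_lit 1) (V.cons (nat_lit 43) false (nat_lit 2) V.nil)) (Rw.rw (nat_lit 0) (nat_lit 0) (Ct.cons false (nat_lit 1) (nat_lit 0) (nat_lit 5764613020602859523) Ct.nil)))) (Tb.node (nat_lit 6153) (Tb.leaf (nat_lit 6151) (nat_lit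 11) V.nil (Rw.rw (nat_lit 0) (nat_lit 0) (Ct.cons false (nat_lit 1) (nat_lit 2) (nat_lit 5764613020597616643) Ct.nil))) (Tb.node (nat_lit 6162) (Tb.leaf (nat_lit 6153) (nat_lit 15) V.nil (Rw.rw (nat_lit 0) (nat_lit 0) (Ct.cons false (nat_lit 1) (nat_lit 2) (nat_lit 5764613020595519491) Ct.nil))) (Tb.leaf (nat_lit 6162) (nat_lit 28) V.nil (Rw.rw (nat_lit 0) (nat_lit 0) (Ct.cons true (nat_lit 1) (nat_lit 0) (nat_lit 6917532326181208067) Ct.nil))))))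
def tF9 : Tb := (Tb.node (nat_lit 5151) tF7 tF8)
def tF10 : Tb := (Tb.node (nat_lit 8201) (Tb.node (nat_lit 6166) (Tb.leaf (nat_lit 6164) (nat_lit 24) V.nil (Rw.rw (nat_lit 0) (nat_lit 1) (Ct.cons true (nat_lit 1) (nat_lit 2) (nat_lit 11529220543631851525) Ct.nil))) (Tb.leaf (nat_lit 6166) (nat_lit 34) V.nil (Rw.rw (nat_lit 0) (nat_lit 0) (Ct.cons true (nat_lit 1) (nat_lit 0) (nat_lit 6917532326179110915) Ct.nil)))) (Tb.node (nat_lit 8206) (Tb.leaf (nat_lit 8201) (nat_lit 20) V.nil (Rw.rw (nat_lit 0) (nat_lit 1) (Ct.cons false (nat_lit 1) (nat_lit 2) (nat_lit 5764610821572263939) Ct.nil))) (Tb.node (nat_lit 8208) (Tb.leaf (nat_lit 8206) (nat_lit 26) V.nil (Rw.rw (nat_lit 1) (nat_lit 0) (Ct.cons true (nat_lit 1) (nat_lit 2) (nat_lit 5764614120107147267) Ct.nil))) (Tb.leaf (nat_lit 8208) (nat_lit 29) V.nil (Rw.rw (nat_lit 1) (nat_lit 0) (Ct.cons true (nat_lit 1) (nat_lit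 2) (nat_lit 3458773309918806021) Ct.nil))))))
def tF11 : Tb := (Tb.node (nat_lit 10252) (Tb.node (nat_lit 8212) (Tb.leaf (nat_lit 8210) (nat_lit 38) V.nil (Rw.rw (nat_lit 1) (nat_lit 0) (Ct.cons true (nat_lit 1) (nat_lit 2) (nat_lit 5764616319130402819) Ct.nil))) (Tb.leaf (nat_lit 8212) (nat_lit 35) V.nil (Rw.rw (nat_lit 1) (nat_lit 0) (Ct.cons true (nat_lit 1) (nat_lit 2) (nat_lit 3458775508942061573) Ct.nil)))) (Tb.node (nat_lit 10254) (Tb.leaf (nat_lit 10252) (nat_lit 25) V.nil (Rw.rw (nat_lit 0) (nat_lit 0) (Ct.cons true (nat_lit 1) (nat_lit 0) (nat_lit 11529220543631851525) Ct.nil))) (Tb.node (nat_lit 10256) (Tb.leaf (nat_lit 10254) (nat_lit 33) V.nil (Rw.rw (nat_lit 0) (nat_lit 1) (Ct.cons true (nat_lit 1) (nat_lit 2) (nat_lit 6917532326179110915) Ct.nil))) (Tb.leaf (nat_lit 10256) (nat_lit 37) V.nil (Rw.rw (nat_lit 0) (nat_lit 0) (Ct.cons true (nat_lit 1) (nat_lit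 0) (nat_lit 5764618518155755523) Ct.nil))))))
def tF12 : Tb := (Tb.node (nat_lit 8210) tF10 tF11)
def tF13 : Tb := (Tb.node (nat_lit 6164) tF9 tF12)
def tF14 : Tb := (Tb.node (nat_lit 5138) tF6 tF13)
def tF : Tb := tF14
def tFD : DL := (DL.cons (nat_lit 6) (nat_lit 5) (nat_lit 5) (nat_lit 0) (nat_lit 0) (DL.cons (nat_lit 8) (nat_lit 3) (nat_lit 5) (nat_lit 0) (nat_lit 0) (DL.cons (nat_lit 10) (nat_lit 3) (nat_lit 3) (nat_lit 0) (nat_lit 0) (DL.cons (nat_lit 13) (nat_lit 5) (nat_lit 6) (nat_lit 0) (nat_lit 0) (DL.cons (nat_lit 15) (nat_lit 3) (nat_lit 6) (nat_lit 0) (nat_lit 0) (DL.cons (nat_lit 17) (nat_lit 5) (nat_lit 8) (nat_lit 0) (nat_lit 0) (DL.cons (nat_lit 19) (nat_lit 3) (nat_lit 8) (nat_lit 0) (nat_lit 0) (DL.cons (nat_lit 21) (nat_lit 5) (nat_lit 10) (nat_lit 0) (nat_lit 0) (DL.cons (nat_lit 23) (nat_lit 3) (nat_lit 10) (nat_lit 0) (nat_lit 0) (DL.cons (nat_lit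 24) (nat_lit 3) (nat_lit 13) (nat_lit 0) (nat_lit 0) (DL.cons (nat_lit 26) (nat_lit 5) (nat_lit 17) (nat_lit 0) (nat_lit 0) (DL.cons (nat_lit 28) (nat_lit 3) (nat_lit 15) (nat_lit 0) (nat_lit 0) (DL.cons (nat_lit 30) (nat_lit 3) (nat_lit 17) (nat_lit 0) (nat_lit 0) (DL.cons (nat_lit 32) (nat_lit 3) (nat_lit 19) (nat_lit 0) (nat_lit 0) (DL.cons (nat_lit 34) (nat_lit 3) (nat_lit 21) (nat_lit 0) (nat_lit 0) (DL.cons (nat_lit 37) (nat_lit 3) (nat_lit 24) (nat_lit 0) (nat_lit 0) (DL.cons (nat_lit 39) (nat_lit 3) (nat_lit 26) (nat_lit 0) (nat_lit 0) (DL.cons (nat_lit 41) (nat_lit 3) (nat_lit 28) (nat_lit 0) (nat_lit 0) (DL.cons (nat_lit 43) (nat_lit 3) (nat_lit 30) (nat_lit 0) (nat_lit 0) DL.nil)))))))))))))))))))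

def cF0 : Ct := (Ct.cons false (nat_lit 1) (nat_lit 2) (nat_lit 3462148810616078339) Ct.nil)

theorem kF0 : chkT tF axF tFD 0 40 tF = true := by decide +kernel

theorem fF : chkF tF 40 axF false (Ex.op 0 true qJ (Ex.op 0 false (Ex.op 0 false (Ex.v 1) (Ex.v 1)) (Ex.v 1))) 5242883 (2 ^ 0 * 3 ^ 0) cF0 = true := by decide +kernel

end Pool.Agent.TP
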