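import Pool.Agent.Helper19_TP.TabK

/-! Kernel checks K, part 1, generated (helper19). -/

set_option autoImplicit false
set_option maxRecDepth 100000

namespace Pool.Agent.TP

theorem kK0 : chkT tK axK tKD 0 268 tK = true := by decide +kernel

theorem kK268 : chkT tK axK tKD 268 272 tK = true := by decide +kernel

theorem kK272 : chkT tK axK tKD 272 334 tK = true := by decide +kernel

theorem kK334 : chkT tK axK tKD 334 338 tK = true := by decide +kernel

theorem kK338 : chkT tK axK tKD 338 346 tK = true := by decide +kernel

theorem kK346 : chkT tK axK tKD 346 394 tK = true := by decide +kernel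

end Pool.Agent.TP
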