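import Pool.Agent.Helper19_TP.TabK

/-! Kernel checks K, part 2, generated (helper19). -/

set_option autoImplicit false
set_option maxRecDepth 100000

namespace Pool.Agent.TP

theorem kK394 : chkT tK axK tKD 394 398 tK = true := by decide +kernel

theorem kK398 : chkT tK axK tKD 398 402 tK = true := by decide +kernel

theorem kK402 : chkT tK axK tKD 402 404 tK = true := by decide +kernel

theorem kK404 : chkT tK axK tKD 404 412 tK = true := by decide +kernel

theorem kK412 : chkT tK axK tKD 412 415 tK = true := by decide +kernel

theorem kK415 : chkT tK axK tKD 415 445 tK = true := by decide +kernel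

end Pool.Agent.TP
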