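import Pool.Agent.Helper19_TP.TabK

/-! Kernel checks K, part 3, generated (helper19). -/

set_option autoImplicit false
set_option maxRecDepth 100000

namespace Pool.Agent.TP

theorem kK445 : chkT tK axK tKD 445 500 tK = true := by decide +kernel

theorem kK500 : chkT tK axK tKD 500 504 tK = true := by decide +kernel

theorem kK504 : chkT tK axK tKD 504 507 tK = true := by decide +kernel

theorem kK507 : chkT tK axK tKD 507 566 tK = true := by decide +kernel

theorem kK566 : chkT tK axK tKD 566 584 tK = true := by decide +kernel

theorem kK584 : chkT tK axK tKD 584 601 tK = true := by decide +kernel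

end Pool.Agent.TP
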