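import Pool.Agent.Helper19_TP.TabK

/-! Kernel checks K, part 4, generated (helper19). -/

set_option autoImplicit false
set_option maxRecDepth 100000

namespace Pool.Agent.TP

theorem fK : chkF tK 601 axK false (Ex.op 0 true qK5 (Ex.op 0 false (Ex.op 0 false (Ex.v 2) (Ex.v 2)) (Ex.v 2))) 7696586637315 (2 ^ 4 * 3 ^ 3) cK0 = true := by decide +kernel

end Pool.Agent.TP
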