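import Pool.Agent.Helper19_TP.Bas
import Pool.Agent.Helper19_TP.ChkB
import Pool.Agent.Helper19_TP.ChkK1
import Pool.Agent.Helper19_TP.ChkK2
import Pool.Agent.Helper19_TP.ChkK3
import Pool.Agent.Helper19_TP.ChkK4
import Pool.Agent.Helper19_TP.ChkE
import Pool.Agent.Helper19_TP.ChkF

/-! The abstract theorem: the calculus forces the Jacobian to vanish (helper19). -/

set_option autoImplicit false
set_option maxRecDepth 100000

namespace Pool.Agent.TP

/-- parities used for the polarization of the element of degree (2,2,2) -/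
def qB (i : ℕ) : Bool := Nat.beq i 10 || (Nat.beq i 12 || Nat.beq i 14)

/-- renaming for the element of degree (2,2,2) -/
def rhB (i : ℕ) : ℕ :=
  bif Nat.beq i 0 then 0 else bif Nat.beq i 11 then 1 else bif Nat.beq i 1 then 2
  else bif Nat.beq i 13 then 3 else bif Nat.beq i 2 then 4 else 5

/-- polarization of the element of degree (2,2,2) -/
def fB' : Pl := dP 14 15 qB (dP 2 14 qB (dP 12 13 qB (dP 1 12 qB (dP 10 11 qB (dP 0 10 qB
  (toPl qZ1))))))

/-- parities K -/
noncomputable def pK (i : ℕ) : Bool := od ([3, 5, 7].getD i 0)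

/-- polarization of the element of degree (3,2) -/
noncomputable def fK' : Pl := dP 1 14 pK (dP 1 13 pK (dP 0 12 pK (dP 0 11 pK (dP 0 10 pK
  (toPl qK5)))))

/-- parities E -/
noncomputable def pE (i : ℕ) : Bool := od ([3, 5, 6, 8].getD i 0)

/-- polarization of the element of degree (3,1) -/
noncomputable def fE' : Pl := dP 1 13 pE (dP 0 12 pE (dP 0 11 pE (dP 0 10 pE (toPl qM))))

theorem nB : isNil (colV (ren rhB fB' ++ (toPl eZ1).map fun x => (-2 * x.1, x.2))) = true := by
  decide +kernel

theorem nK : isNil (colV (ren (fun i => i - 10) fK' ++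
    (toPl eK5).map fun x => (-2 * x.1, x.2))) = true := by
  decide +kernel

theorem nE : isNil (colV (ren (fun i => i - 10) fE' ++
    (toPl eM).map fun x => (-2 * x.1, x.2))) = true := by
  decide +kernel

/-- parities J -/
def q0 (i : ℕ) : Bool := Nat.beq i 0

theorem eJ : dP 0 12 q0 (dP 0 11 q0 (dP 0 10 q0 (toPl qJ))) =
    [(1, .op false (.op false (.v 12) (.v 11)) (.v 10)),
     (-1, .op false (.op false (.v 11) (.v 12)) (.v 10)),
     (-1, .op false (.op false (.v 12) (.v 10)) (.v 11)),
     (1, .op false (.op false (.v 11) (.v 10)) (.v 12)),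
     (1, .op false (.op false (.v 10) (.v 12)) (.v 11)),
     (-1, .op false (.op false (.v 10) (.v 11)) (.v 12))] := rfl

theorem covB : Cov tB axB tBD 288 := (Cov.zero _ _ _).step 288 kB0

theorem covK : Cov tK axK tKD 601 :=
  (((((((((((((((((((Cov.zero _ _ _).step 268 kK0).step 272 kK268).step 334 kK272).step 338 kK334).step 346 kK338).step 394 kK346).step 398 kK394).step 402 kK398).step 404 kK402).step 412 kK404).step 415 kK412).step 445 kK415).step 500 kK445).step 504 kK500).step 507 kK504).step 566 kK507).step 584 kK566).step 601 kK584)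

theorem covE : Cov tE axE tED 186 := ((Cov.zero _ _ _).step 165 kE0).step 186 kE165

theorem covF : Cov tF axF tFD 40 := (Cov.zero _ _ _).step 40 kF0

theorem dB : dOK 9 tBD = true := by decide +kernel
theorem dK : dOK 8 tKD = true := by decide +kernel
theorem dE : dOK 9 tED = true := by decide +kernel
theorem dF : dOK 6 tFD = true := by decide +kernel

/-- Target B -/
def gB : Ex := Ex.op 0 false qZ1 (Ex.v 3)

/-- Target K -/
def gK : Ex := Ex.op 0 true qK5 (Ex.op 0 false (Ex.op 0 false (Ex.v 2) (Ex.v 2)) (Ex.v 2))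

/-- Target E -/
def gE : Ex := Ex.add false 1 (Ex.op 0 false (Ex.op 0 false qM (Ex.v 2)) (Ex.v 3))
  (Ex.add false 1 (Ex.op 0 false (Ex.op 0 false (Ex.v 2) (Ex.v 3)) qM)
    (Ex.op 0 false (Ex.op 0 false (Ex.v 3) qM) (Ex.v 2)))

/-- Target F -/
def gF : Ex := Ex.op 0 true qJ (Ex.op 0 false (Ex.op 0 false (Ex.v 1) (Ex.v 1)) (Ex.v 1))

theorem zB : zg gB = true := by decide +kernel
theorem zK : zg gK = true := by decide +kernel
theorem zE : zg gE = true := by decide +kernel
theorem zF : zg gF = true := by decide +kernel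

theorem lB : allL (toPl gB) (fun i => Nat.blt i 4) = true := by decide +kernel
theorem lK : allL (toPl gK) (fun i => Nat.blt i 3) = true := by decide +kernel
theorem lE : allL (toPl gE) (fun i => Nat.blt i 4) = true := by decide +kernel
theorem lF : allL (toPl gF) (fun i => Nat.blt i 2) = true := by decide +kernel

theorem aB (i : ℕ) (hi : i < 4) : arg 9223378633928736770 i = [2, 4, 6, 8].getD i 0 := by
  interval_cases i <;> decide +kernel
theorem aK (i : ℕ) (hi : i < 3) : arg 7696586637315 i = [3, 5, 7].getD i 0 := by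
  interval_cases i <;> decide +kernel
theorem aE (i : ℕ) (hi : i < 4) : arg 9223378633929785347 i = [3, 5, 6, 8].getD i 0 := by
  interval_cases i <;> decide +kernel
theorem aF (i : ℕ) (hi : i < 2) : arg 5242883 i = [3, 5].getD i 0 := by
  interval_cases i <;> decide +kernel

theorem not_mem_of {f : Pl} {w : ℕ} (h : allL f (fun i => !(Nat.beq i w)) = true) :
    ∀ ct ∈ f, w ∉ ct.2.leaves := by
  intro ct hct hw
  have := allL_spec h ct hct w hw
  simp at this

section
variable {B : Type} [AddCommGroup B] {br jo : B →+ B →+ B}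

theorem sid (h : Calc br jo) {e : Ex} (ok : axOK e = true)
    (hv : ∀ v, evP (Sup.triv br jo) v (toPl e) = 0) : SId (Sup.triv br jo) (toPl e) :=
  SId.base _ (fun _ => rfl) h.tors2 _ (axOK_ML ok) hv

theorem sidP (h : Calc br jo) {f : Pl} (ok : ML f)
    (hv : ∀ v, evP (Sup.triv br jo) v f = 0) : SId (Sup.triv br jo) f :=
  SId.base _ (fun _ => rfl) h.tors2 _ ok hv

/-- from a polarized identity to an axiom -/
theorem fin_ax (h : Calc br jo) {e : Ex} (ok : axOK e = true) (f : Pl)
    (hf : ∀ v, evP (Sup.triv br jo) v f = 0)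
    (hn : isNil (colV (f ++ (toPl e).map fun x => (-2 * x.1, x.2))) = true) :
    SId (Sup.triv br jo) (toPl e) := by
  apply sid h ok
  intro v
  have h1 := col_zero (Sup.triv br jo) (fun x y => eq_neg_of_add_eq_zero_left (h.skew x y))
    (fun x y => sub_eq_zero.mp (h.symm x y)) v f _ hn (hf v)
  rw [evP_map_smul] at h1
  apply h.tors2
  have h2 : (2 : ℤ) • evP (Sup.triv br jo) v (toPl e) = 0 := by
    have : (-2 : ℤ) • evP (Sup.triv br jo) v (toPl e) = 0 := h1
    rwa [neg_smul, neg_eq_zero] at this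
  exact_mod_cast h2

theorem jac_zero (h : Calc br jo) (hd : ∀ x : B, ∃ y : B, 6 • y = x)
    (ha : ∀ r, (∀ x y z, jo r (Jc br x y z) = 0) → r = 0) : ∀ x y z, Jc br x y z = 0 := by
  have hC := Cls.triv br jo h hd ha
  have hsk := sidP h ML_skew (b_skew h)
  have hsy := sidP h ML_sym (b_sym h)
  have hm2 := sidP h ML_m2 (b_m2 h)
  have hSag := sid h okSag (b_sag h)
  have hG2 := sid h okG2 (b_g2 h)
  have hM3 := sid h okM3 (b_m3 h)
  have hG1 := sid h okG1 (b_g1 h)
  -- B
  have hB := check _ hsk hsy hm2 (L := axB)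
    ⟨⟨okSag, hSag⟩, ⟨okG2, hG2⟩, ⟨okM3, hM3⟩, ⟨okG1, hG1⟩, trivial⟩ dB covB [2, 4, 6, 8]
    (by decide) (by decide) gB zB _
    (fun ct hct i hi => blt_true (allL_spec lB ct hct i hi)) aB 3 3 false cB0 fB
  have hB1 : Holds (Sup.triv br jo) (fun i => od ([2, 4, 6, 8].getD i 0)) (toPl qZ1) :=
    Holds.cenE _ 0 3 (by decide +kernel) (not_mem_of (by decide +kernel)) hB
  have hB2 : Holds (Sup.triv br jo) qB (toPl qZ1) := Holds.congr _ hB1 (fun ct hct i hi => by
    have := allL_spec (f := toPl qZ1) (q := fun i => (od ([2, 4, 6, 8].getD i 0) == qB i))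
      (by decide +kernel) ct hct i hi
    simpa using this)
  have hB3 : Holds (Sup.triv br jo) qB fB' :=
    (((((hB2.d _ 0 10 (by decide)).d _ 10 11 (by decide)).d _ 1 12 (by decide)).d _ 12 13
      (by decide)).d _ 2 14 (by decide)).d _ 14 15 (by decide)
  have hZ1 : SId (Sup.triv br jo) (toPl eZ1) := fin_ax h okZ1 (ren rhB fB') (fun v => by
    rw [ren_ev]
    exact Holds.evP br jo hC hB3 (fun ct hct i hi => by
      have := allL_spec (f := fB') (q := fun i => !(qB i)) (by decide +kernel) ct hct i hi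
      simpa using this) _) nB
  -- K
  have hK := check _ hsk hsy hm2 (L := axK)
    ⟨⟨okSag, hSag⟩, ⟨okG2, hG2⟩, ⟨okM3, hM3⟩, ⟨okG1, hG1⟩, ⟨okZ1, hZ1⟩, trivial⟩ dK covK
    [3, 5, 7] (by decide) (by decide) gK zK _
    (fun ct hct i hi => blt_true (allL_spec lK ct hct i hi)) aK 4 3 false cK0 fK
  have hK1 : Holds (Sup.triv br jo) pK (toPl qK5) :=
    Holds.annE _ hsk 2 (by decide +kernel) (not_mem_of (by decide +kernel)) hK
  have hK3 : Holds (Sup.triv br jo) pK fK' :=
    ((((hK1.d _ 0 10 (by decide +kernel)).d _ 0 11 (by decide +kernel)).d _ 0 12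
      (by decide +kernel)).d _ 1 13 (by decide +kernel)).d _ 1 14 (by decide +kernel)
  have hK5 : SId (Sup.triv br jo) (toPl eK5) := fin_ax h okK5 (ren (fun i => i - 10) fK')
    (fun v => by
      rw [ren_ev]
      exact Holds.evP br jo hC hK3 (fun ct hct i hi => by
        have := allL_spec (f := fK') (q := fun i => !(pK i)) (by decide +kernel) ct hct i hi
        simpa using this) _) nK
  -- E
  have hE := check _ hsk hsy hm2 (L := axE)
    ⟨⟨okSag, hSag⟩, ⟨okG2, hG2⟩, ⟨okK5, hK5⟩, trivial⟩ dE covE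
    [3, 5, 6, 8] (by decide) (by decide) gE zE _
    (fun ct hct i hi => blt_true (allL_spec lE ct hct i hi)) aE 2 0 true cE0 fE
  have hE1 : Holds (Sup.triv br jo) pE (toPl qM) :=
    Holds.nucE _ 2 3 (by decide) (by decide +kernel) (by decide +kernel)
      (not_mem_of (by decide +kernel)) (not_mem_of (by decide +kernel)) hE
  have hE3 : Holds (Sup.triv br jo) pE fE' :=
    (((hE1.d _ 0 10 (by decide +kernel)).d _ 0 11 (by decide +kernel)).d _ 0 12
      (by decide +kernel)).d _ 1 13 (by decide +kernel)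
  have hM : SId (Sup.triv br jo) (toPl eM) := fin_ax h okM (ren (fun i => i - 10) fE')
    (fun v => by
      rw [ren_ev]
      exact Holds.evP br jo hC hE3 (fun ct hct i hi => by
        have := allL_spec (f := fE') (q := fun i => !(pE i)) (by decide +kernel) ct hct i hi
        simpa using this) _) nE
  -- F
  have hF := check _ hsk hsy hm2 (L := axF)
    ⟨⟨okSag, hSag⟩, ⟨okG2, hG2⟩, ⟨okM, hM⟩, trivial⟩ dF covF
    [3, 5] (by decide) (by decide) gF zF _
    (fun ct hct i hi => blt_true (allL_spec lF ct hct i hi)) aF 0 0 false cF0 fF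
  have hF1 : Holds (Sup.triv br jo) (fun i => od ([3, 5].getD i 0)) (toPl qJ) :=
    Holds.annE _ hsk 1 (by decide +kernel) (not_mem_of (by decide +kernel)) hF
  have hF2 : Holds (Sup.triv br jo) q0 (toPl qJ) := Holds.congr _ hF1 (fun ct hct i hi => by
    have := allL_spec (f := toPl qJ) (q := fun i => (od ([3, 5].getD i 0) == q0 i))
      (by decide +kernel) ct hct i hi
    simpa using this)
  have hF3 := ((hF2.d _ 0 10 (by decide)).d _ 0 11 (by decide)).d _ 0 12 (by decide)
  intro x y z
  have hF4 := Holds.evP br jo hC hF3 (fun ct hct i hi => by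
    have := allL_spec (q := fun i => !(q0 i)) (by decide +kernel) ct hct i hi
    simpa using this) (fun i => if i = 10 then x else if i = 11 then y else z)
  rw [eJ] at hF4
  have hF5 : br (br z y) x - br (br y z) x - br (br z x) y + br (br y x) z + br (br x z) y
      - br (br x y) z = 0 := by
    rw [← hF4]
    simp [Tm.ev, Sup.triv]
    abel
  have s1 := eq_neg_of_add_eq_zero_left (h.skew z y)
  have s2 := eq_neg_of_add_eq_zero_left (h.skew y x)
  have s3 := eq_neg_of_add_eq_zero_left (h.skew x z)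
  rw [s1, s2, s3] at hF5
  simp only [map_neg, AddMonoidHom.neg_apply] at hF5
  apply h.tors2
  rw [← neg_eq_zero, ← hF5, Jc]
  abel

end

/-- MODULE ABS, revised -/
theorem abs2 : Abs2Stmt := fun B _ _ _ h hd ha => jac_zero (B := B) h hd ha

end Pool.Agent.TP
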