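import Pool.Agent.Helper19_TP.Eng

/-! Axioms for the kernel checker, generated (helper19). -/

set_option autoImplicit false
set_option maxRecDepth 100000

namespace Pool.Agent.TP

def eSag : Ex := (Ex.add true (nat_lit 1) (Ex.op (nat_lit 0) false (Ex.op (nat_lit 0) false (Ex.op (nat_lit 0) false (Ex.v (nat_lit 0)) (Ex.v (nat_lit 1))) (Ex.v (nat_lit 2))) (Ex.v (nat_lit 3))) (Ex.add true (nat_lit 1) (Ex.op (nat_lit 9378889334493053480) false (Ex.op (nat_lit 0) false (Ex.op (nat_lit 0) false (Ex.v (nat_lit 1)) (Ex.v (nat_lit 2))) (Ex.v (nat_lit 3))) (Ex.v (nat_lit 0))) (Ex.add true (nat_lit 1) (Ex.op (nat_lit 918748342970748096) false (Ex.op (nat_lit 765623619142290080) false (Ex.op (nat_lit 0) false (Ex.v (nat_lit 2)) (Ex.v (nat_lit 3))) (Ex.v (nat_lit 0))) (Ex.v (nat_lit 1))) (Ex.add true (nat_lit 1) (Ex.op (nat_lit 17294086455919964160) false (Ex.op (nat_lit 14699973487531969536) false (Ex.op (nat_lit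 12249977906276641280) false (Ex.v (nat_lit 3)) (Ex.v (nat_lit 0))) (Ex.v (nat_lit 1))) (Ex.v (nat_lit 2))) (Ex.op (nat_lit 13889313184910721216) false (Ex.op (nat_lit 0) false (Ex.v (nat_lit 0)) (Ex.v (nat_lit 2))) (Ex.op (nat_lit 0) false (Ex.v (nat_lit 1)) (Ex.v (nat_lit 3))))))))

def eG2 : Ex := (Ex.add false (nat_lit 1) (Ex.op (nat_lit 0) false (Ex.v (nat_lit 0)) (Ex.add false (nat_lit 3) (Ex.op (nat_lit 17294086455919964160) false (Ex.op (nat_lit 0) false (Ex.v (nat_lit 1)) (Ex.v (nat_lit 3))) (Ex.op (nat_lit 0) false (Ex.v (nat_lit 2)) (Ex.v (nat_lit 4)))) (Ex.add false (nat_lit 1) (Ex.op (nat_lit 0) false (Ex.v (nat_lit 1)) (Ex.add false (nat_lit 1) (Ex.op (nat_lit 0) false (Ex.op (nat_lit 0) false (Ex.v (nat_lit 2)) (Ex.v (nat_lit 3))) (Ex.v (nat_lit 4))) (Ex.add false (nat_lit 1) (Ex.op (nat_lit 67817877217013760) false (Ex.op (nat_lit 0) false (Ex.v (nat_lit 3)) (Ex.v (nat_lit 4))) (Ex.v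 (nat_lit 2))) (Ex.op (nat_lit 18374686483949813760) false (Ex.op (nat_lit 17361376567555522560) false (Ex.v (nat_lit 4)) (Ex.v (nat_lit 2))) (Ex.v (nat_lit 3)))))) (Ex.add false (nat_lit 3) (Ex.op (nat_lit 918748342970748096) false (Ex.op (nat_lit 0) false (Ex.v (nat_lit 2)) (Ex.v (nat_lit 3))) (Ex.op (nat_lit 0) false (Ex.v (nat_lit 1)) (Ex.v (nat_lit 4)))) (Ex.op (nat_lit 13889313184910721216) false (Ex.v (nat_lit 2)) (Ex.add false (nat_lit 1) (Ex.op (nat_lit 0) false (Ex.op (nat_lit 0) false (Ex.v (nat_lit 1)) (Ex.v (nat_lit 3))) (Ex.v (nat_lit 4))) (Ex.add false (nat_lit 1) (Ex.op (nat_lit 57645195634461696) false (Ex.op (nat_lit 0) false (Ex.v (nat_lit 3)) (Ex.v (nat_lit 4))) (Ex.v (nat_lit 1))) (Ex.op (nat_lit 18374686483949813760) false (Ex.op (nat_lit 14757170082422194176) false (Ex.v (nat_lit 4)) (Ex.v (nat_lit 1))) (Ex.v (nat_lit 3)))))))))) (Ex.add false (nat_lit 1) (Ex.op (nat_lit 9838263505978427528)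 false (Ex.v (nat_lit 1)) (Ex.add false (nat_lit 3) (Ex.op (nat_lit 17294086455919964160) false (Ex.op (nat_lit 0) false (Ex.v (nat_lit 0)) (Ex.v (nat_lit 3))) (Ex.op (nat_lit 0) false (Ex.v (nat_lit 2)) (Ex.v (nat_lit 4)))) (Ex.add false (nat_lit 1) (Ex.op (nat_lit 0) false (Ex.v (nat_lit 0)) (Ex.add false (nat_lit 1) (Ex.op (nat_lit 0) false (Ex.op (nat_lit 0) false (Ex.v (nat_lit 2)) (Ex.v (nat_lit 3))) (Ex.v (nat_lit 4))) (Ex.add false (nat_lit 1) (Ex.op (nat_lit 67817877217013760) false (Ex.op (nat_lit 0) false (Ex.v (nat_lit 3)) (Ex.v (nat_lit 4))) (Ex.v (nat_lit 2))) (Ex.op (nat_lit 18374686483949813760) false (Ex.op (nat_lit 17361376567555522560) false (Ex.v (nat_lit 4)) (Ex.v (nat_lit 2))) (Ex.v (nat_lit 3)))))) (Ex.add false (nat_lit 3) (Ex.op (nat_lit 765623619142290080) false (Ex.op (nat_lit 0) false (Ex.v (nat_lit 2)) (Ex.v (nat_lit 3))) (Ex.op (nat_lit 0) false (Ex.v (nat_lit 0)) (Ex.v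 (nat_lit 4)))) (Ex.op (nat_lit 11574427654092267680) false (Ex.v (nat_lit 2)) (Ex.add false (nat_lit 1) (Ex.op (nat_lit 0) false (Ex.op (nat_lit 0) false (Ex.v (nat_lit 0)) (Ex.v (nat_lit 3))) (Ex.v (nat_lit 4))) (Ex.add false (nat_lit 1) (Ex.op (nat_lit 48037663028718080) false (Ex.op (nat_lit 0) false (Ex.v (nat_lit 3)) (Ex.v (nat_lit 4))) (Ex.v (nat_lit 0))) (Ex.op (nat_lit 18374686483949813760) false (Ex.op (nat_lit 12297641735351828480) false (Ex.v (nat_lit 4)) (Ex.v (nat_lit 0))) (Ex.v (nat_lit 3)))))))))) (Ex.op (nat_lit 6944656592455360608) false (Ex.v (nat_lit 2)) (Ex.add false (nat_lit 3) (Ex.op (nat_lit 14699973487531969536) false (Ex.op (nat_lit 0) false (Ex.v (nat_lit 0)) (Ex.v (nat_lit 3))) (Ex.op (nat_lit 0) false (Ex.v (nat_lit 1)) (Ex.v (nat_lit 4)))) (Ex.add false (nat_lit 1) (Ex.op (nat_lit 0) false (Ex.v (nat_lit 0)) (Ex.add false (nat_lit 1) (Ex.op (nat_lit 0) false (Ex.op (nat_lit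 0) false (Ex.v (nat_lit 1)) (Ex.v (nat_lit 3))) (Ex.v (nat_lit 4))) (Ex.add false (nat_lit 1) (Ex.op (nat_lit 57645195634461696) false (Ex.op (nat_lit 0) false (Ex.v (nat_lit 3)) (Ex.v (nat_lit 4))) (Ex.v (nat_lit 1))) (Ex.op (nat_lit 18374686483949813760) false (Ex.op (nat_lit 14757170082422194176) false (Ex.v (nat_lit 4)) (Ex.v (nat_lit 1))) (Ex.v (nat_lit 3)))))) (Ex.add false (nat_lit 3) (Ex.op (nat_lit 2488276762212442760) false (Ex.op (nat_lit 0) false (Ex.v (nat_lit 1)) (Ex.v (nat_lit 3))) (Ex.op (nat_lit 0) false (Ex.v (nat_lit 0)) (Ex.v (nat_lit 4)))) (Ex.op (nat_lit 9838263505978427528) false (Ex.v (nat_lit 1)) (Ex.add false (nat_lit 1) (Ex.op (nat_lit 0) false (Ex.op (nat_lit 0) false (Ex.v (nat_lit 0)) (Ex.v (nat_lit 3))) (Ex.v (nat_lit 4))) (Ex.add false (nat_lit 1) (Ex.op (nat_lit 48037663028718080) false (Ex.op (nat_lit 0) false (Ex.v (nat_lit 3)) (Ex.v (nat_lit 4))) (Ex.v (nat_lit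 0))) (Ex.op (nat_lit 18374686483949813760) false (Ex.op (nat_lit 12297641735351828480) false (Ex.v (nat_lit 4)) (Ex.v (nat_lit 0))) (Ex.v (nat_lit 3))))))))))))

def eM3 : Ex := (Ex.add false (nat_lit 1) (Ex.op (nat_lit 17513584985880969408) true (Ex.add false (nat_lit 1) (Ex.op (nat_lit 0) false (Ex.op (nat_lit 0) false (Ex.v (nat_lit 0)) (Ex.v (nat_lit 2))) (Ex.v (nat_lit 4))) (Ex.add false (nat_lit 1) (Ex.op (nat_lit 723567299370066080) false (Ex.op (nat_lit 0) false (Ex.v (nat_lit 2)) (Ex.v (nat_lit 4))) (Ex.v (nat_lit 0))) (Ex.op (nat_lit 17361376567555522560) false (Ex.op (nat_lit 12297641735351828480) false (Ex.v (nat_lit 4)) (Ex.v (nat_lit 0))) (Ex.v (nat_lit 2))))) (Ex.op (nat_lit 0) false (Ex.v (nat_lit 1)) (Ex.v (nat_lit 3)))) (Ex.add false (nat_lit 1) (Ex.op (nat_lit 16954469304253440) true (Ex.add false (nat_lit 1) (Ex.op (nat_lit 0) false (Ex.op (nat_lit 0) false (Ex.v (nat_lit 0))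 (Ex.v (nat_lit 3))) (Ex.v (nat_lit 4))) (Ex.add false (nat_lit 1) (Ex.op (nat_lit 48037663028718080) false (Ex.op (nat_lit 0) false (Ex.v (nat_lit 3)) (Ex.v (nat_lit 4))) (Ex.v (nat_lit 0))) (Ex.op (nat_lit 18374686483949813760) false (Ex.op (nat_lit 12297641735351828480) false (Ex.v (nat_lit 4)) (Ex.v (nat_lit 0))) (Ex.v (nat_lit 3))))) (Ex.op (nat_lit 0) false (Ex.v (nat_lit 1)) (Ex.v (nat_lit 2)))) (Ex.add false (nat_lit 1) (Ex.op (nat_lit 9043835156082862120) true (Ex.add false (nat_lit 1) (Ex.op (nat_lit 0) false (Ex.op (nat_lit 0) false (Ex.v (nat_lit 1)) (Ex.v (nat_lit 2))) (Ex.v (nat_lit 4))) (Ex.add false (nat_lit 1) (Ex.op (nat_lit 868280759244079296) false (Ex.op (nat_lit 0) false (Ex.v (nat_lit 2)) (Ex.v (nat_lit 4))) (Ex.v (nat_lit 1))) (Ex.op (nat_lit 17361376567555522560) false (Ex.op (nat_lit 14757170082422194176) false (Ex.v (nat_lit 4)) (Ex.v (nat_lit 1))) (Ex.v (nat_lit 2)))))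 (Ex.op (nat_lit 0) false (Ex.v (nat_lit 0)) (Ex.v (nat_lit 3)))) (Ex.op (nat_lit 9859174018120340104) true (Ex.add false (nat_lit 1) (Ex.op (nat_lit 0) false (Ex.op (nat_lit 0) false (Ex.v (nat_lit 1)) (Ex.v (nat_lit 3))) (Ex.v (nat_lit 4))) (Ex.add false (nat_lit 1) (Ex.op (nat_lit 57645195634461696) false (Ex.op (nat_lit 0) false (Ex.v (nat_lit 3)) (Ex.v (nat_lit 4))) (Ex.v (nat_lit 1))) (Ex.op (nat_lit 18374686483949813760) false (Ex.op (nat_lit 14757170082422194176) false (Ex.v (nat_lit 4)) (Ex.v (nat_lit 1))) (Ex.v (nat_lit 3))))) (Ex.op (nat_lit 0) false (Ex.v (nat_lit 0)) (Ex.v (nat_lit 2)))))))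

def eG1 : Ex := (Ex.add false (nat_lit 1) (Ex.op (nat_lit 4323521613979991040) true (Ex.op (nat_lit 0) false (Ex.v (nat_lit 0)) (Ex.v (nat_lit 3))) (Ex.add false (nat_lit 1) (Ex.op (nat_lit 17361376567555522560) false (Ex.op (nat_lit 0) false (Ex.v (nat_lit 1)) (Ex.v (nat_lit 4))) (Ex.v (nat_lit 2))) (Ex.op (nat_lit 868280759244079296) false (Ex.op (nat_lit 0) false (Ex.v (nat_lit 2)) (Ex.v (nat_lit 4))) (Ex.v (nat_lit 1))))) (Ex.add false (nat_lit 1) (Ex.op (nat_lit 14068119339274076160) true (Ex.op (nat_lit 0) false (Ex.v (nat_lit 0)) (Ex.v (nat_lit 4))) (Ex.add false (nat_lit 1) (Ex.op (nat_lit 17294086455919964160) false (Ex.op (nat_lit 0) false (Ex.v (nat_lit 1)) (Ex.v (nat_lit 3))) (Ex.v (nat_lit 2))) (Ex.op (nat_lit 918748342970748096) false (Ex.op (nat_lit 0) false (Ex.v (nat_lit 2)) (Ex.v (nat_lit 3))) (Ex.v (nat_lit 1))))) (Ex.add false (nat_lit 1) (Ex.op (nat_lit 15170606829887083144)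 true (Ex.op (nat_lit 0) false (Ex.v (nat_lit 1)) (Ex.v (nat_lit 3))) (Ex.add false (nat_lit 1) (Ex.op (nat_lit 17361376567555522560) false (Ex.op (nat_lit 0) false (Ex.v (nat_lit 0)) (Ex.v (nat_lit 4))) (Ex.v (nat_lit 2))) (Ex.op (nat_lit 723567299370066080) false (Ex.op (nat_lit 0) false (Ex.v (nat_lit 2)) (Ex.v (nat_lit 4))) (Ex.v (nat_lit 0))))) (Ex.add false (nat_lit 1) (Ex.op (nat_lit 3301851595281696904) true (Ex.op (nat_lit 0) false (Ex.v (nat_lit 1)) (Ex.v (nat_lit 4))) (Ex.add false (nat_lit 1) (Ex.op (nat_lit 17294086455919964160) false (Ex.op (nat_lit 0) false (Ex.v (nat_lit 0)) (Ex.v (nat_lit 3))) (Ex.v (nat_lit 2))) (Ex.op (nat_lit 765623619142290080) false (Ex.op (nat_lit 0) false (Ex.v (nat_lit 2)) (Ex.v (nat_lit 3))) (Ex.v (nat_lit 0))))) (Ex.add false (nat_lit 1) (Ex.op (nat_lit 459374171485374048) true (Ex.op (nat_lit 0) false (Ex.v (nat_lit 2)) (Ex.v (nat_lit 3))) (Ex.add false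 (nat_lit 1) (Ex.op (nat_lit 14757170082422194176) false (Ex.op (nat_lit 0) false (Ex.v (nat_lit 0)) (Ex.v (nat_lit 4))) (Ex.v (nat_lit 1))) (Ex.op (nat_lit 2459678464767330440) false (Ex.op (nat_lit 0) false (Ex.v (nat_lit 1)) (Ex.v (nat_lit 4))) (Ex.v (nat_lit 0))))) (Ex.op (nat_lit 17944135734915391584) true (Ex.op (nat_lit 0) false (Ex.v (nat_lit 2)) (Ex.v (nat_lit 4))) (Ex.add false (nat_lit 1) (Ex.op (nat_lit 14699973487531969536) false (Ex.op (nat_lit 0) false (Ex.v (nat_lit 0)) (Ex.v (nat_lit 3))) (Ex.v (nat_lit 1))) (Ex.op (nat_lit 2488276762212442760) false (Ex.op (nat_lit 0) false (Ex.v (nat_lit 1)) (Ex.v (nat_lit 3))) (Ex.v (nat_lit 0))))))))))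

def eZ1 : Ex := (Ex.add false (nat_lit 1) (Ex.op (nat_lit 17513584985880969408) true (Ex.add false (nat_lit 1) (Ex.op (nat_lit 0) false (Ex.op (nat_lit 0) false (Ex.v (nat_lit 0)) (Ex.v (nat_lit 2))) (Ex.v (nat_lit 4))) (Ex.add false (nat_lit 1) (Ex.op (nat_lit 723567299370066080) false (Ex.op (nat_lit 0) false (Ex.v (nat_lit 2)) (Ex.v (nat_lit 4))) (Ex.v (nat_lit 0))) (Ex.op (nat_lit 17361376567555522560) false (Ex.op (nat_lit 12297641735351828480) false (Ex.v (nat_lit 4)) (Ex.v (nat_lit 0))) (Ex.v (nat_lit 2))))) (Ex.add false (nat_lit 1) (Ex.op (nat_lit 0) false (Ex.op (nat_lit 0) false (Ex.v (nat_lit 1)) (Ex.v (nat_lit 3))) (Ex.v (nat_lit 5))) (Ex.add false (nat_lit 1) (Ex.op (nat_lit 57421774844906496) false (Ex.op (nat_lit 0) false (Ex.v (nat_lit 3)) (Ex.v (nat_lit 5))) (Ex.v (nat_lit 1))) (Ex.op (nat_lit 18374966855136706560) false (Ex.op (nat_lit 14757395255531667456) false (Ex.v (nat_lit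 5)) (Ex.v (nat_lit 1))) (Ex.v (nat_lit 3)))))) (Ex.add false (nat_lit 1) (Ex.op (nat_lit 933356783894839488) true (Ex.add false (nat_lit 1) (Ex.op (nat_lit 0) false (Ex.op (nat_lit 0) false (Ex.v (nat_lit 0)) (Ex.v (nat_lit 2))) (Ex.v (nat_lit 5))) (Ex.add false (nat_lit 1) (Ex.op (nat_lit 723401730907218080) false (Ex.op (nat_lit 0) false (Ex.v (nat_lit 2)) (Ex.v (nat_lit 5))) (Ex.v (nat_lit 0))) (Ex.op (nat_lit 17361641477096079360) false (Ex.op (nat_lit 12297829379609722880) false (Ex.v (nat_lit 5)) (Ex.v (nat_lit 0))) (Ex.v (nat_lit 2))))) (Ex.add false (nat_lit 1) (Ex.op (nat_lit 0) false (Ex.op (nat_lit 0) false (Ex.v (nat_lit 1)) (Ex.v (nat_lit 3))) (Ex.v (nat_lit 4))) (Ex.add false (nat_lit 1) (Ex.op (nat_lit 57645195634461696) false (Ex.op (nat_lit 0) false (Ex.v (nat_lit 3)) (Ex.v (nat_lit 4))) (Ex.v (nat_lit 1))) (Ex.op (nat_lit 18374686483949813760) false (Ex.op (nat_lit 14757170082422194176)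 false (Ex.v (nat_lit 4)) (Ex.v (nat_lit 1))) (Ex.v (nat_lit 3)))))) (Ex.add false (nat_lit 1) (Ex.op (nat_lit 16954469304253440) true (Ex.add false (nat_lit 1) (Ex.op (nat_lit 0) false (Ex.op (nat_lit 0) false (Ex.v (nat_lit 0)) (Ex.v (nat_lit 3))) (Ex.v (nat_lit 4))) (Ex.add false (nat_lit 1) (Ex.op (nat_lit 48037663028718080) false (Ex.op (nat_lit 0) false (Ex.v (nat_lit 3)) (Ex.v (nat_lit 4))) (Ex.v (nat_lit 0))) (Ex.op (nat_lit 18374686483949813760) false (Ex.op (nat_lit 12297641735351828480) false (Ex.v (nat_lit 4)) (Ex.v (nat_lit 0))) (Ex.v (nat_lit 3))))) (Ex.add false (nat_lit 1) (Ex.op (nat_lit 0) false (Ex.op (nat_lit 0) false (Ex.v (nat_lit 1)) (Ex.v (nat_lit 2))) (Ex.v (nat_lit 5))) (Ex.add false (nat_lit 1) (Ex.op (nat_lit 868082077088661696) false (Ex.op (nat_lit 0) false (Ex.v (nat_lit 2)) (Ex.v (nat_lit 5))) (Ex.v (nat_lit 1))) (Ex.op (nat_lit 17361641477096079360) false (Ex.op (nat_lit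 14757395255531667456) false (Ex.v (nat_lit 5)) (Ex.v (nat_lit 1))) (Ex.v (nat_lit 2)))))) (Ex.add false (nat_lit 9) (Ex.op (nat_lit 13889368487753466048) true (Ex.add false (nat_lit 1) (Ex.op (nat_lit 0) false (Ex.op (nat_lit 0) false (Ex.op (nat_lit 0) false (Ex.v (nat_lit 0)) (Ex.v (nat_lit 2))) (Ex.v (nat_lit 4))) (Ex.v (nat_lit 5))) (Ex.op (nat_lit 18446462598732840960) false (Ex.op (nat_lit 0) false (Ex.op (nat_lit 0) false (Ex.v (nat_lit 0)) (Ex.v (nat_lit 2))) (Ex.v (nat_lit 5))) (Ex.v (nat_lit 4)))) (Ex.op (nat_lit 0) false (Ex.v (nat_lit 1)) (Ex.v (nat_lit 3)))) (Ex.add false (nat_lit 9) (Ex.op (nat_lit 4323455899977661440) true (Ex.add false (nat_lit 1) (Ex.op (nat_lit 0) false (Ex.op (nat_lit 0) false (Ex.op (nat_lit 0) false (Ex.v (nat_lit 0)) (Ex.v (nat_lit 3))) (Ex.v (nat_lit 4))) (Ex.v (nat_lit 5))) (Ex.op (nat_lit 18446462598732840960) false (Ex.op (nat_lit 0) false (Ex.op (nat_lit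 0) false (Ex.v (nat_lit 0)) (Ex.v (nat_lit 3))) (Ex.v (nat_lit 5))) (Ex.v (nat_lit 4)))) (Ex.op (nat_lit 0) false (Ex.v (nat_lit 1)) (Ex.v (nat_lit 2)))) (Ex.add false (nat_lit 9) (Ex.op (nat_lit 2893700759990446120) true (Ex.add false (nat_lit 1) (Ex.op (nat_lit 0) false (Ex.op (nat_lit 0) false (Ex.op (nat_lit 0) false (Ex.v (nat_lit 1)) (Ex.v (nat_lit 2))) (Ex.v (nat_lit 4))) (Ex.v (nat_lit 5))) (Ex.op (nat_lit 18446462598732840960) false (Ex.op (nat_lit 0) false (Ex.op (nat_lit 0) false (Ex.v (nat_lit 1)) (Ex.v (nat_lit 2))) (Ex.v (nat_lit 5))) (Ex.v (nat_lit 4)))) (Ex.op (nat_lit 0) false (Ex.v (nat_lit 0)) (Ex.v (nat_lit 3)))) (Ex.add false (nat_lit 9) (Ex.op (nat_lit 15170525782617543304) true (Ex.add false (nat_lit 1) (Ex.op (nat_lit 0) false (Ex.op (nat_lit 0) false (Ex.op (nat_lit 0) false (Ex.v (nat_lit 1)) (Ex.v (nat_lit 3))) (Ex.v (nat_lit 4))) (Ex.v (nat_lit 5))) (Ex.op (nat_lit 18446462598732840960)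 false (Ex.op (nat_lit 0) false (Ex.op (nat_lit 0) false (Ex.v (nat_lit 1)) (Ex.v (nat_lit 3))) (Ex.v (nat_lit 5))) (Ex.v (nat_lit 4)))) (Ex.op (nat_lit 0) false (Ex.v (nat_lit 0)) (Ex.v (nat_lit 2)))) (Ex.add false (nat_lit 18) (Ex.op (nat_lit 17513584985880969408) true (Ex.op (nat_lit 0) false (Ex.op (nat_lit 0) false (Ex.v (nat_lit 0)) (Ex.v (nat_lit 2))) (Ex.v (nat_lit 4))) (Ex.op (nat_lit 0) false (Ex.op (nat_lit 0) false (Ex.v (nat_lit 1)) (Ex.v (nat_lit 3))) (Ex.v (nat_lit 5)))) (Ex.add false (nat_lit 18) (Ex.op (nat_lit 933356783894839488) true (Ex.op (nat_lit 0) false (Ex.op (nat_lit 0) false (Ex.v (nat_lit 0)) (Ex.v (nat_lit 2))) (Ex.v (nat_lit 5))) (Ex.op (nat_lit 0) false (Ex.op (nat_lit 0) false (Ex.v (nat_lit 1)) (Ex.v (nat_lit 3))) (Ex.v (nat_lit 4)))) (Ex.add false (nat_lit 18) (Ex.op (nat_lit 16954469304253440) true (Ex.op (nat_lit 0) false (Ex.op (nat_lit 0) false (Ex.v (nat_lit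 0)) (Ex.v (nat_lit 3))) (Ex.v (nat_lit 4))) (Ex.op (nat_lit 0) false (Ex.op (nat_lit 0) false (Ex.v (nat_lit 1)) (Ex.v (nat_lit 2))) (Ex.v (nat_lit 5)))) (Ex.add false (nat_lit 18) (Ex.op (nat_lit 18429574358834887680) true (Ex.op (nat_lit 0) false (Ex.op (nat_lit 0) false (Ex.v (nat_lit 0)) (Ex.v (nat_lit 3))) (Ex.v (nat_lit 5))) (Ex.op (nat_lit 0) false (Ex.op (nat_lit 0) false (Ex.v (nat_lit 1)) (Ex.v (nat_lit 2))) (Ex.v (nat_lit 4)))) (Ex.add false (nat_lit 9) (Ex.op (nat_lit 18374686483949813760) true (Ex.add false (nat_lit 1) (Ex.op (nat_lit 868280759244079296) false (Ex.op (nat_lit 723567299370066080) false (Ex.op (nat_lit 0) false (Ex.v (nat_lit 2)) (Ex.v (nat_lit 4))) (Ex.v (nat_lit 0))) (Ex.v (nat_lit 1))) (Ex.op (nat_lit 9404123126356387880) false (Ex.op (nat_lit 868280759244079296) false (Ex.op (nat_lit 0) false (Ex.v (nat_lit 2)) (Ex.v (nat_lit 4))) (Ex.v (nat_lit 1))) (Ex.v (nat_lit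 0)))) (Ex.op (nat_lit 0) false (Ex.v (nat_lit 3)) (Ex.v (nat_lit 5)))) (Ex.add false (nat_lit 9) (Ex.op (nat_lit 72056494526300160) true (Ex.add false (nat_lit 1) (Ex.op (nat_lit 868082077088661696) false (Ex.op (nat_lit 723401730907218080) false (Ex.op (nat_lit 0) false (Ex.v (nat_lit 2)) (Ex.v (nat_lit 5))) (Ex.v (nat_lit 0))) (Ex.v (nat_lit 1))) (Ex.op (nat_lit 9404222467434096680) false (Ex.op (nat_lit 868082077088661696) false (Ex.op (nat_lit 0) false (Ex.v (nat_lit 2)) (Ex.v (nat_lit 5))) (Ex.v (nat_lit 1))) (Ex.v (nat_lit 0)))) (Ex.op (nat_lit 0) false (Ex.v (nat_lit 3)) (Ex.v (nat_lit 4)))) (Ex.add false (nat_lit 9) (Ex.op (nat_lit 67817877217013760) true (Ex.add false (nat_lit 1) (Ex.op (nat_lit 57645195634461696) false (Ex.op (nat_lit 48037663028718080) false (Ex.op (nat_lit 0) false (Ex.v (nat_lit 3)) (Ex.v (nat_lit 4))) (Ex.v (nat_lit 0))) (Ex.v (nat_lit 1))) (Ex.op (nat_lit 9809440908161196680)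 false (Ex.op (nat_lit 57645195634461696) false (Ex.op (nat_lit 0) false (Ex.v (nat_lit 3)) (Ex.v (nat_lit 4))) (Ex.v (nat_lit 1))) (Ex.v (nat_lit 0)))) (Ex.op (nat_lit 0) false (Ex.v (nat_lit 2)) (Ex.v (nat_lit 5)))) (Ex.add false (nat_lit 9) (Ex.op (nat_lit 18378909639141027840) true (Ex.add false (nat_lit 1) (Ex.op (nat_lit 57421774844906496) false (Ex.op (nat_lit 47851479037422080) false (Ex.op (nat_lit 0) false (Ex.v (nat_lit 3)) (Ex.v (nat_lit 5))) (Ex.v (nat_lit 0))) (Ex.v (nat_lit 1))) (Ex.op (nat_lit 9809552618555974280) false (Ex.op (nat_lit 57421774844906496) false (Ex.op (nat_lit 0) false (Ex.v (nat_lit 3)) (Ex.v (nat_lit 5))) (Ex.v (nat_lit 1))) (Ex.v (nat_lit 0)))) (Ex.op (nat_lit 0) false (Ex.v (nat_lit 2)) (Ex.v (nat_lit 4)))) (Ex.add false (nat_lit 18) (Ex.op (nat_lit 17513584985880969408) true (Ex.op (nat_lit 723567299370066080) false (Ex.op (nat_lit 0) false (Ex.v (nat_lit 2)) (Ex.v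 (nat_lit 4))) (Ex.v (nat_lit 0))) (Ex.op (nat_lit 57421774844906496) false (Ex.op (nat_lit 0) false (Ex.v (nat_lit 3)) (Ex.v (nat_lit 5))) (Ex.v (nat_lit 1)))) (Ex.add false (nat_lit 18) (Ex.op (nat_lit 9043835156082862120) true (Ex.op (nat_lit 868280759244079296) false (Ex.op (nat_lit 0) false (Ex.v (nat_lit 2)) (Ex.v (nat_lit 4))) (Ex.v (nat_lit 1))) (Ex.op (nat_lit 47851479037422080) false (Ex.op (nat_lit 0) false (Ex.v (nat_lit 3)) (Ex.v (nat_lit 5))) (Ex.v (nat_lit 0)))) (Ex.add false (nat_lit 18) (Ex.op (nat_lit 933356783894839488) true (Ex.op (nat_lit 723401730907218080) false (Ex.op (nat_lit 0) false (Ex.v (nat_lit 2)) (Ex.v (nat_lit 5))) (Ex.v (nat_lit 0))) (Ex.op (nat_lit 57645195634461696) false (Ex.op (nat_lit 0) false (Ex.v (nat_lit 3)) (Ex.v (nat_lit 4))) (Ex.v (nat_lit 1)))) (Ex.add false (nat_lit 18) (Ex.op (nat_lit 9402809594992404520) true (Ex.op (nat_lit 868082077088661696) false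 (Ex.op (nat_lit 0) false (Ex.v (nat_lit 2)) (Ex.v (nat_lit 5))) (Ex.v (nat_lit 1))) (Ex.op (nat_lit 48037663028718080) false (Ex.op (nat_lit 0) false (Ex.v (nat_lit 3)) (Ex.v (nat_lit 4))) (Ex.v (nat_lit 0)))) (Ex.add false (nat_lit 9) (Ex.op (nat_lit 13838449776997960896) true (Ex.add false (nat_lit 1) (Ex.op (nat_lit 18374686483949813760) false (Ex.op (nat_lit 17361376567555522560) false (Ex.op (nat_lit 12297641735351828480) false (Ex.v (nat_lit 4)) (Ex.v (nat_lit 0))) (Ex.v (nat_lit 2))) (Ex.v (nat_lit 3))) (Ex.op (nat_lit 67817877217013760) false (Ex.op (nat_lit 18374686483949813760) false (Ex.op (nat_lit 12297641735351828480) false (Ex.v (nat_lit 4)) (Ex.v (nat_lit 0))) (Ex.v (nat_lit 3))) (Ex.v (nat_lit 2)))) (Ex.op (nat_lit 14757395255531667456) false (Ex.v (nat_lit 5)) (Ex.v (nat_lit 1)))) (Ex.add false (nat_lit 9) (Ex.op (nat_lit 2919038617479447080) true (Ex.add false (nat_lit 1) (Ex.op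 (nat_lit 18374686483949813760) false (Ex.op (nat_lit 17361376567555522560) false (Ex.op (nat_lit 14757170082422194176) false (Ex.v (nat_lit 4)) (Ex.v (nat_lit 1))) (Ex.v (nat_lit 2))) (Ex.v (nat_lit 3))) (Ex.op (nat_lit 67817877217013760) false (Ex.op (nat_lit 18374686483949813760) false (Ex.op (nat_lit 14757170082422194176) false (Ex.v (nat_lit 4)) (Ex.v (nat_lit 1))) (Ex.v (nat_lit 3))) (Ex.v (nat_lit 2)))) (Ex.op (nat_lit 12297829379609722880) false (Ex.v (nat_lit 5)) (Ex.v (nat_lit 0)))) (Ex.add false (nat_lit 9) (Ex.op (nat_lit 4608238001716202688) true (Ex.add false (nat_lit 1) (Ex.op (nat_lit 18374966855136706560) false (Ex.op (nat_lit 17361641477096079360) false (Ex.op (nat_lit 12297829379609722880) false (Ex.v (nat_lit 5)) (Ex.v (nat_lit 0))) (Ex.v (nat_lit 2))) (Ex.v (nat_lit 3))) (Ex.op (nat_lit 67555029229301760) false (Ex.op (nat_lit 18374966855136706560) false (Ex.op (nat_lit 12297829379609722880)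 false (Ex.v (nat_lit 5)) (Ex.v (nat_lit 0))) (Ex.v (nat_lit 3))) (Ex.v (nat_lit 2)))) (Ex.op (nat_lit 14757170082422194176) false (Ex.v (nat_lit 4)) (Ex.v (nat_lit 1)))) (Ex.add false (nat_lit 9) (Ex.op (nat_lit 15527611631237890600) true (Ex.add false (nat_lit 1) (Ex.op (nat_lit 18374966855136706560) false (Ex.op (nat_lit 17361641477096079360) false (Ex.op (nat_lit 14757395255531667456) false (Ex.v (nat_lit 5)) (Ex.v (nat_lit 1))) (Ex.v (nat_lit 2))) (Ex.v (nat_lit 3))) (Ex.op (nat_lit 67555029229301760) false (Ex.op (nat_lit 18374966855136706560) false (Ex.op (nat_lit 14757395255531667456) false (Ex.v (nat_lit 5)) (Ex.v (nat_lit 1))) (Ex.v (nat_lit 3))) (Ex.v (nat_lit 2)))) (Ex.op (nat_lit 12297641735351828480) false (Ex.v (nat_lit 4)) (Ex.v (nat_lit 0)))) (Ex.add false (nat_lit 18) (Ex.op (nat_lit 17513584985880969408) true (Ex.op (nat_lit 17361376567555522560) false (Ex.op (nat_lit 12297641735351828480)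 false (Ex.v (nat_lit 4)) (Ex.v (nat_lit 0))) (Ex.v (nat_lit 2))) (Ex.op (nat_lit 18374966855136706560) false (Ex.op (nat_lit 14757395255531667456) false (Ex.v (nat_lit 5)) (Ex.v (nat_lit 1))) (Ex.v (nat_lit 3)))) (Ex.add false (nat_lit 18) (Ex.op (nat_lit 16954469304253440) true (Ex.op (nat_lit 18374686483949813760) false (Ex.op (nat_lit 12297641735351828480) false (Ex.v (nat_lit 4)) (Ex.v (nat_lit 0))) (Ex.v (nat_lit 3))) (Ex.op (nat_lit 17361641477096079360) false (Ex.op (nat_lit 14757395255531667456) false (Ex.v (nat_lit 5)) (Ex.v (nat_lit 1))) (Ex.v (nat_lit 2)))) (Ex.add false (nat_lit 18) (Ex.op (nat_lit 9043835156082862120) true (Ex.op (nat_lit 17361376567555522560) false (Ex.op (nat_lit 14757170082422194176) false (Ex.v (nat_lit 4)) (Ex.v (nat_lit 1))) (Ex.v (nat_lit 2))) (Ex.op (nat_lit 18374966855136706560) false (Ex.op (nat_lit 12297829379609722880) false (Ex.v (nat_lit 5)) (Ex.v (nat_lit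 0))) (Ex.v (nat_lit 3)))) (Ex.add false (nat_lit 18) (Ex.op (nat_lit 9859174018120340104) true (Ex.op (nat_lit 18374686483949813760) false (Ex.op (nat_lit 14757170082422194176) false (Ex.v (nat_lit 4)) (Ex.v (nat_lit 1))) (Ex.v (nat_lit 3))) (Ex.op (nat_lit 17361641477096079360) false (Ex.op (nat_lit 12297829379609722880) false (Ex.v (nat_lit 5)) (Ex.v (nat_lit 0))) (Ex.v (nat_lit 2)))) (Ex.op (nat_lit 18429574358834887680) true (Ex.add false (nat_lit 1) (Ex.op (nat_lit 0) false (Ex.op (nat_lit 0) false (Ex.v (nat_lit 0)) (Ex.v (nat_lit 3))) (Ex.v (nat_lit 5))) (Ex.add false (nat_lit 1) (Ex.op (nat_lit 47851479037422080) false (Ex.op (nat_lit 0) false (Ex.v (nat_lit 3)) (Ex.v (nat_lit 5))) (Ex.v (nat_lit 0))) (Ex.op (nat_lit 18374966855136706560) false (Ex.op (nat_lit 12297829379609722880) false (Ex.v (nat_lit 5)) (Ex.v (nat_lit 0))) (Ex.v (nat_lit 3))))) (Ex.add false (nat_lit 1) (Ex.op (nat_lit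 0) false (Ex.op (nat_lit 0) false (Ex.v (nat_lit 1)) (Ex.v (nat_lit 2))) (Ex.v (nat_lit 4))) (Ex.add false (nat_lit 1) (Ex.op (nat_lit 868280759244079296) false (Ex.op (nat_lit 0) false (Ex.v (nat_lit 2)) (Ex.v (nat_lit 4))) (Ex.v (nat_lit 1))) (Ex.op (nat_lit 17361376567555522560) false (Ex.op (nat_lit 14757170082422194176) false (Ex.v (nat_lit 4)) (Ex.v (nat_lit 1))) (Ex.v (nat_lit 2)))))))))))))))))))))))))))))))))

def eK5 : Ex := (Ex.add false (nat_lit 1) (Ex.op (nat_lit 0) false (Ex.op (nat_lit 17294086455919964160) false (Ex.op (nat_lit 14699973487531969536) false (Ex.op (nat_lit 0) false (Ex.v (nat_lit 0)) (Ex.v (nat_lit 3))) (Ex.v (nat_lit 1))) (Ex.v (nat_lit 2))) (Ex.v (nat_lit 4))) (Ex.add true (nat_lit 1) (Ex.op (nat_lit 0) false (Ex.op (nat_lit 918748342970748096) false (Ex.op (nat_lit 17294086455919964160) false (Ex.op (nat_lit 0) false (Ex.v (nat_lit 0)) (Ex.v (nat_lit 3))) (Ex.v (nat_lit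 2))) (Ex.v (nat_lit 1))) (Ex.v (nat_lit 4))) (Ex.add true (nat_lit 1) (Ex.op (nat_lit 67817877217013760) false (Ex.op (nat_lit 57645195634461696) false (Ex.op (nat_lit 0) false (Ex.op (nat_lit 0) false (Ex.v (nat_lit 0)) (Ex.v (nat_lit 3))) (Ex.v (nat_lit 4))) (Ex.v (nat_lit 1))) (Ex.v (nat_lit 2))) (Ex.add false (nat_lit 1) (Ex.op (nat_lit 13838449776997960896) false (Ex.op (nat_lit 67817877217013760) false (Ex.op (nat_lit 0) false (Ex.op (nat_lit 0) false (Ex.v (nat_lit 0)) (Ex.v (nat_lit 3))) (Ex.v (nat_lit 4))) (Ex.v (nat_lit 2))) (Ex.v (nat_lit 1))) (Ex.add true (nat_lit 1) (Ex.op (nat_lit 18374686483949813760) false (Ex.op (nat_lit 17361376567555522560) false (Ex.op (nat_lit 14757170082422194176) false (Ex.op (nat_lit 0) false (Ex.v (nat_lit 0)) (Ex.v (nat_lit 4))) (Ex.v (nat_lit 1))) (Ex.v (nat_lit 2))) (Ex.v (nat_lit 3))) (Ex.add false (nat_lit 1) (Ex.op (nat_lit 18374686483949813760) false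 (Ex.op (nat_lit 868280759244079296) false (Ex.op (nat_lit 17361376567555522560) false (Ex.op (nat_lit 0) false (Ex.v (nat_lit 0)) (Ex.v (nat_lit 4))) (Ex.v (nat_lit 2))) (Ex.v (nat_lit 1))) (Ex.v (nat_lit 3))) (Ex.add false (nat_lit 1) (Ex.op (nat_lit 67817877217013760) false (Ex.op (nat_lit 57645195634461696) false (Ex.op (nat_lit 18374686483949813760) false (Ex.op (nat_lit 0) false (Ex.v (nat_lit 0)) (Ex.v (nat_lit 4))) (Ex.v (nat_lit 3))) (Ex.v (nat_lit 1))) (Ex.v (nat_lit 2))) (Ex.add true (nat_lit 1) (Ex.op (nat_lit 13838449776997960896) false (Ex.op (nat_lit 67817877217013760) false (Ex.op (nat_lit 18374686483949813760) false (Ex.op (nat_lit 0) false (Ex.v (nat_lit 0)) (Ex.v (nat_lit 4))) (Ex.v (nat_lit 3))) (Ex.v (nat_lit 2))) (Ex.v (nat_lit 1))) (Ex.add true (nat_lit 1) (Ex.op (nat_lit 0) false (Ex.op (nat_lit 17294086455919964160) false (Ex.op (nat_lit 2488276762212442760) false (Ex.op (nat_lit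 0) false (Ex.v (nat_lit 1)) (Ex.v (nat_lit 3))) (Ex.v (nat_lit 0))) (Ex.v (nat_lit 2))) (Ex.v (nat_lit 4))) (Ex.add false (nat_lit 1) (Ex.op (nat_lit 0) false (Ex.op (nat_lit 9378889334493053480) false (Ex.op (nat_lit 17294086455919964160) false (Ex.op (nat_lit 0) false (Ex.v (nat_lit 1)) (Ex.v (nat_lit 3))) (Ex.v (nat_lit 2))) (Ex.v (nat_lit 0))) (Ex.v (nat_lit 4))) (Ex.add false (nat_lit 1) (Ex.op (nat_lit 67817877217013760) false (Ex.op (nat_lit 9809440908161196680) false (Ex.op (nat_lit 0) false (Ex.op (nat_lit 0) false (Ex.v (nat_lit 1)) (Ex.v (nat_lit 3))) (Ex.v (nat_lit 4))) (Ex.v (nat_lit 0))) (Ex.v (nat_lit 2))) (Ex.add true (nat_lit 1) (Ex.op (nat_lit 2919038617479447080) false (Ex.op (nat_lit 67817877217013760) false (Ex.op (nat_lit 0) false (Ex.op (nat_lit 0) false (Ex.v (nat_lit 1)) (Ex.v (nat_lit 3))) (Ex.v (nat_lit 4))) (Ex.v (nat_lit 2))) (Ex.v (nat_lit 0))) (Ex.add false (nat_lit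 1) (Ex.op (nat_lit 18374686483949813760) false (Ex.op (nat_lit 17361376567555522560) false (Ex.op (nat_lit 2459678464767330440) false (Ex.op (nat_lit 0) false (Ex.v (nat_lit 1)) (Ex.v (nat_lit 4))) (Ex.v (nat_lit 0))) (Ex.v (nat_lit 2))) (Ex.v (nat_lit 3))) (Ex.add true (nat_lit 1) (Ex.op (nat_lit 18374686483949813760) false (Ex.op (nat_lit 9404123126356387880) false (Ex.op (nat_lit 17361376567555522560) false (Ex.op (nat_lit 0) false (Ex.v (nat_lit 1)) (Ex.v (nat_lit 4))) (Ex.v (nat_lit 2))) (Ex.v (nat_lit 0))) (Ex.v (nat_lit 3))) (Ex.add true (nat_lit 1) (Ex.op (nat_lit 67817877217013760) false (Ex.op (nat_lit 9809440908161196680) false (Ex.op (nat_lit 18374686483949813760) false (Ex.op (nat_lit 0) false (Ex.v (nat_lit 1)) (Ex.v (nat_lit 4))) (Ex.v (nat_lit 3))) (Ex.v (nat_lit 0))) (Ex.v (nat_lit 2))) (Ex.add false (nat_lit 1) (Ex.op (nat_lit 2919038617479447080) false (Ex.op (nat_lit 67817877217013760)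 false (Ex.op (nat_lit 18374686483949813760) false (Ex.op (nat_lit 0) false (Ex.v (nat_lit 1)) (Ex.v (nat_lit 4))) (Ex.v (nat_lit 3))) (Ex.v (nat_lit 2))) (Ex.v (nat_lit 0))) (Ex.add false (nat_lit 1) (Ex.op (nat_lit 0) false (Ex.op (nat_lit 918748342970748096) false (Ex.op (nat_lit 765623619142290080) false (Ex.op (nat_lit 0) false (Ex.v (nat_lit 2)) (Ex.v (nat_lit 3))) (Ex.v (nat_lit 0))) (Ex.v (nat_lit 1))) (Ex.v (nat_lit 4))) (Ex.add true (nat_lit 1) (Ex.op (nat_lit 0) false (Ex.op (nat_lit 9378889334493053480) false (Ex.op (nat_lit 918748342970748096) false (Ex.op (nat_lit 0) false (Ex.v (nat_lit 2)) (Ex.v (nat_lit 3))) (Ex.v (nat_lit 1))) (Ex.v (nat_lit 0))) (Ex.v (nat_lit 4))) (Ex.add true (nat_lit 1) (Ex.op (nat_lit 13838449776997960896) false (Ex.op (nat_lit 11532041480831634080) false (Ex.op (nat_lit 0) false (Ex.op (nat_lit 0) false (Ex.v (nat_lit 2)) (Ex.v (nat_lit 3))) (Ex.v (nat_lit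 4))) (Ex.v (nat_lit 0))) (Ex.v (nat_lit 1))) (Ex.add false (nat_lit 1) (Ex.op (nat_lit 2919038617479447080) false (Ex.op (nat_lit 13838449776997960896) false (Ex.op (nat_lit 0) false (Ex.op (nat_lit 0) false (Ex.v (nat_lit 2)) (Ex.v (nat_lit 3))) (Ex.v (nat_lit 4))) (Ex.v (nat_lit 1))) (Ex.v (nat_lit 0))) (Ex.add true (nat_lit 1) (Ex.op (nat_lit 18374686483949813760) false (Ex.op (nat_lit 868280759244079296) false (Ex.op (nat_lit 723567299370066080) false (Ex.op (nat_lit 0) false (Ex.v (nat_lit 2)) (Ex.v (nat_lit 4))) (Ex.v (nat_lit 0))) (Ex.v (nat_lit 1))) (Ex.v (nat_lit 3))) (Ex.add false (nat_lit 1) (Ex.op (nat_lit 18374686483949813760) false (Ex.op (nat_lit 9404123126356387880) false (Ex.op (nat_lit 868280759244079296) false (Ex.op (nat_lit 0) false (Ex.v (nat_lit 2)) (Ex.v (nat_lit 4))) (Ex.v (nat_lit 1))) (Ex.v (nat_lit 0))) (Ex.v (nat_lit 3))) (Ex.add false (nat_lit 1) (Ex.op (nat_lit 13838449776997960896)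 false (Ex.op (nat_lit 11532041480831634080) false (Ex.op (nat_lit 18374686483949813760) false (Ex.op (nat_lit 0) false (Ex.v (nat_lit 2)) (Ex.v (nat_lit 4))) (Ex.v (nat_lit 3))) (Ex.v (nat_lit 0))) (Ex.v (nat_lit 1))) (Ex.add true (nat_lit 1) (Ex.op (nat_lit 2919038617479447080) false (Ex.op (nat_lit 13838449776997960896) false (Ex.op (nat_lit 18374686483949813760) false (Ex.op (nat_lit 0) false (Ex.v (nat_lit 2)) (Ex.v (nat_lit 4))) (Ex.v (nat_lit 3))) (Ex.v (nat_lit 1))) (Ex.v (nat_lit 0))) (Ex.add false (nat_lit 2) (Ex.op (nat_lit 0) false (Ex.op (nat_lit 0) false (Ex.op (nat_lit 0) false (Ex.v (nat_lit 0)) (Ex.v (nat_lit 1))) (Ex.v (nat_lit 2))) (Ex.op (nat_lit 0) false (Ex.v (nat_lit 3)) (Ex.v (nat_lit 4)))) (Ex.add true (nat_lit 2) (Ex.op (nat_lit 0) false (Ex.op (nat_lit 13889313184910721216) false (Ex.op (nat_lit 0) false (Ex.v (nat_lit 0)) (Ex.v (nat_lit 2))) (Ex.v (nat_lit 1))) (Ex.op (nat_lit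 0) false (Ex.v (nat_lit 3)) (Ex.v (nat_lit 4)))) (Ex.add true (nat_lit 1) (Ex.op (nat_lit 17294086455919964160) false (Ex.op (nat_lit 14699973487531969536) false (Ex.op (nat_lit 0) false (Ex.v (nat_lit 0)) (Ex.v (nat_lit 3))) (Ex.v (nat_lit 1))) (Ex.op (nat_lit 0) false (Ex.v (nat_lit 2)) (Ex.v (nat_lit 4)))) (Ex.add false (nat_lit 1) (Ex.op (nat_lit 918748342970748096) false (Ex.op (nat_lit 17294086455919964160) false (Ex.op (nat_lit 0) false (Ex.v (nat_lit 0)) (Ex.v (nat_lit 3))) (Ex.v (nat_lit 2))) (Ex.op (nat_lit 0) false (Ex.v (nat_lit 1)) (Ex.v (nat_lit 4)))) (Ex.add false (nat_lit 1) (Ex.op (nat_lit 1148417905246863360) false (Ex.op (nat_lit 14757170082422194176) false (Ex.op (nat_lit 0) false (Ex.v (nat_lit 0)) (Ex.v (nat_lit 4))) (Ex.v (nat_lit 1))) (Ex.op (nat_lit 0) false (Ex.v (nat_lit 2)) (Ex.v (nat_lit 3)))) (Ex.add true (nat_lit 1) (Ex.op (nat_lit 17513584985880969408) false (Ex.op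 (nat_lit 17361376567555522560) false (Ex.op (nat_lit 0) false (Ex.v (nat_lit 0)) (Ex.v (nat_lit 4))) (Ex.v (nat_lit 2))) (Ex.op (nat_lit 0) false (Ex.v (nat_lit 1)) (Ex.v (nat_lit 3)))) (Ex.add false (nat_lit 2) (Ex.op (nat_lit 0) false (Ex.op (nat_lit 2893606913523066920) false (Ex.op (nat_lit 0) false (Ex.v (nat_lit 1)) (Ex.v (nat_lit 2))) (Ex.v (nat_lit 0))) (Ex.op (nat_lit 0) false (Ex.v (nat_lit 3)) (Ex.v (nat_lit 4)))) (Ex.add false (nat_lit 1) (Ex.op (nat_lit 17294086455919964160) false (Ex.op (nat_lit 2488276762212442760) false (Ex.op (nat_lit 0) false (Ex.v (nat_lit 1)) (Ex.v (nat_lit 3))) (Ex.v (nat_lit 0))) (Ex.op (nat_lit 0) false (Ex.v (nat_lit 2)) (Ex.v (nat_lit 4)))) (Ex.add true (nat_lit 1) (Ex.op (nat_lit 9378889334493053480) false (Ex.op (nat_lit 17294086455919964160) false (Ex.op (nat_lit 0) false (Ex.v (nat_lit 1)) (Ex.v (nat_lit 3))) (Ex.v (nat_lit 2))) (Ex.op (nat_lit 0) false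 (Ex.v (nat_lit 0)) (Ex.v (nat_lit 4)))) (Ex.add true (nat_lit 1) (Ex.op (nat_lit 1148417905246863360) false (Ex.op (nat_lit 2459678464767330440) false (Ex.op (nat_lit 0) false (Ex.v (nat_lit 1)) (Ex.v (nat_lit 4))) (Ex.v (nat_lit 0))) (Ex.op (nat_lit 0) false (Ex.v (nat_lit 2)) (Ex.v (nat_lit 3)))) (Ex.add false (nat_lit 1) (Ex.op (nat_lit 9043835156082862120) false (Ex.op (nat_lit 17361376567555522560) false (Ex.op (nat_lit 0) false (Ex.v (nat_lit 1)) (Ex.v (nat_lit 4))) (Ex.v (nat_lit 2))) (Ex.op (nat_lit 0) false (Ex.v (nat_lit 0)) (Ex.v (nat_lit 3)))) (Ex.add true (nat_lit 1) (Ex.op (nat_lit 918748342970748096) false (Ex.op (nat_lit 765623619142290080) false (Ex.op (nat_lit 0) false (Ex.v (nat_lit 2)) (Ex.v (nat_lit 3))) (Ex.v (nat_lit 0))) (Ex.op (nat_lit 0) false (Ex.v (nat_lit 1)) (Ex.v (nat_lit 4)))) (Ex.add false (nat_lit 1) (Ex.op (nat_lit 9378889334493053480) false (Ex.op (nat_lit 918748342970748096)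 false (Ex.op (nat_lit 0) false (Ex.v (nat_lit 2)) (Ex.v (nat_lit 3))) (Ex.v (nat_lit 1))) (Ex.op (nat_lit 0) false (Ex.v (nat_lit 0)) (Ex.v (nat_lit 4)))) (Ex.add true (nat_lit 1) (Ex.op (nat_lit 9043835156082862120) false (Ex.op (nat_lit 868280759244079296) false (Ex.op (nat_lit 0) false (Ex.v (nat_lit 2)) (Ex.v (nat_lit 4))) (Ex.v (nat_lit 1))) (Ex.op (nat_lit 0) false (Ex.v (nat_lit 0)) (Ex.v (nat_lit 3)))) (Ex.op (nat_lit 17513584985880969408) false (Ex.op (nat_lit 723567299370066080) false (Ex.op (nat_lit 0) false (Ex.v (nat_lit 2)) (Ex.v (nat_lit 4))) (Ex.v (nat_lit 0))) (Ex.op (nat_lit 0) false (Ex.v (nat_lit 1)) (Ex.v (nat_lit 3))))))))))))))))))))))))))))))))))))))))))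

def eM : Ex := (Ex.add true (nat_lit 1) (Ex.op (nat_lit 0) false (Ex.op (nat_lit 0) false (Ex.v (nat_lit 0)) (Ex.v (nat_lit 1))) (Ex.op (nat_lit 0) false (Ex.v (nat_lit 2)) (Ex.v (nat_lit 3)))) (Ex.add false (nat_lit 1) (Ex.op (nat_lit 13889313184910721216) false (Ex.op (nat_lit 0) false (Ex.v (nat_lit 0)) (Ex.v (nat_lit 2))) (Ex.op (nat_lit 0) false (Ex.v (nat_lit 1)) (Ex.v (nat_lit 3)))) (Ex.op (nat_lit 4323521613979991040) false (Ex.op (nat_lit 0) false (Ex.v (nat_lit 0)) (Ex.v (nat_lit 3))) (Ex.op (nat_lit 0) false (Ex.v (nat_lit 1)) (Ex.v (nat_lit 2))))))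

def axB : AL := AL.cons eSag (AL.cons eG2 (AL.cons eM3 (AL.cons eG1 AL.nil)))

def axK : AL := AL.cons eSag (AL.cons eG2 (AL.cons eM3 (AL.cons eG1 (AL.cons eZ1 AL.nil))))

def axE : AL := AL.cons eSag (AL.cons eG2 (AL.cons eK5 AL.nil))

def axF : AL := AL.cons eSag (AL.cons eG2 (AL.cons eM AL.nil))

/-- the element of degree (3,2) -/
def qK5 : Ex := (Ex.add true (nat_lit 2) (Ex.op (nat_lit 0) false (Ex.v (nat_lit 0)) (Ex.op (nat_lit 0) false (Ex.v (nat_lit 0)) (Ex.op (nat_lit 0) false (Ex.v (nat_lit 1)) (Ex.op (nat_lit 0) false (Ex.v (nat_lit 0)) (Ex.v (nat_lit 1)))))) (Ex.add false (nat_lit 2) (Ex.op (nat_lit 0) false (Ex.v (nat_lit 1)) (Ex.op (nat_lit 0) false (Ex.v (nat_lit 0)) (Ex.op (nat_lit 0) false (Ex.v (nat_lit 0)) (Ex.op (nat_lit 0) false (Ex.v (nat_lit 0)) (Ex.v (nat_lit 1)))))) (Ex.add true (nat_lit 2) (Ex.op (nat_lit 0) false (Ex.op (nat_lit 0) false (Ex.v (nat_lit 0)) (Ex.v (nat_lit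 1))) (Ex.op (nat_lit 0) false (Ex.v (nat_lit 0)) (Ex.op (nat_lit 0) false (Ex.v (nat_lit 0)) (Ex.v (nat_lit 1))))) (Ex.op (nat_lit 0) false (Ex.op (nat_lit 0) false (Ex.v (nat_lit 1)) (Ex.v (nat_lit 1))) (Ex.op (nat_lit 0) false (Ex.v (nat_lit 0)) (Ex.op (nat_lit 0) false (Ex.v (nat_lit 0)) (Ex.v (nat_lit 0))))))))

/-- the element of degree (3,1) -/
def qM : Ex := (Ex.op (nat_lit 0) false (Ex.op (nat_lit 0) false (Ex.v (nat_lit 0)) (Ex.v (nat_lit 1))) (Ex.op (nat_lit 0) false (Ex.v (nat_lit 0)) (Ex.v (nat_lit 0))))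

/-- the element of degree (2,2,2) -/
def qZ1 : Ex := (Ex.add false (nat_lit 18) (Ex.op (nat_lit 0) true (Ex.op (nat_lit 0) false (Ex.op (nat_lit 0) false (Ex.op (nat_lit 0) false (Ex.v (nat_lit 0)) (Ex.v (nat_lit 1))) (Ex.v (nat_lit 2))) (Ex.v (nat_lit 2))) (Ex.op (nat_lit 0) false (Ex.v (nat_lit 0)) (Ex.v (nat_lit 1)))) (Ex.add false (nat_lit 18) (Ex.op (nat_lit 0) true (Ex.op (nat_lit 0) false (Ex.op (nat_lit 0) false (Ex.v (nat_lit 0)) (Ex.v (nat_lit 1))) (Ex.v (nat_lit 2))) (Ex.op (nat_lit 0) false (Ex.op (nat_lit 0) false (Ex.v (nat_lit 0)) (Ex.v (nat_lit 1))) (Ex.v (nat_lit 2)))) (Ex.add false (nat_lit 18) (Ex.op (nat_lit 0) true (Ex.op (nat_lit 0) false (Ex.op (nat_lit 0) false (Ex.op (nat_lit 0) false (Ex.v (nat_lit 1)) (Ex.v (nat_lit 2))) (Ex.v (nat_lit 0))) (Ex.v (nat_lit 0))) (Ex.op (nat_lit 0) false (Ex.v (nat_lit 1)) (Ex.v (nat_lit 2)))) (Ex.add false (nat_lit 18) (Ex.op (nat_lit 0)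 true (Ex.op (nat_lit 0) false (Ex.op (nat_lit 0) false (Ex.v (nat_lit 1)) (Ex.v (nat_lit 2))) (Ex.v (nat_lit 0))) (Ex.op (nat_lit 0) false (Ex.op (nat_lit 0) false (Ex.v (nat_lit 1)) (Ex.v (nat_lit 2))) (Ex.v (nat_lit 0)))) (Ex.add false (nat_lit 18) (Ex.op (nat_lit 0) true (Ex.op (nat_lit 0) false (Ex.op (nat_lit 0) false (Ex.op (nat_lit 0) false (Ex.v (nat_lit 2)) (Ex.v (nat_lit 0))) (Ex.v (nat_lit 1))) (Ex.v (nat_lit 1))) (Ex.op (nat_lit 0) false (Ex.v (nat_lit 2)) (Ex.v (nat_lit 0)))) (Ex.add false (nat_lit 18) (Ex.op (nat_lit 0) true (Ex.op (nat_lit 0) false (Ex.op (nat_lit 0) false (Ex.v (nat_lit 2)) (Ex.v (nat_lit 0))) (Ex.v (nat_lit 1))) (Ex.op (nat_lit 0) false (Ex.op (nat_lit 0) false (Ex.v (nat_lit 2)) (Ex.v (nat_lit 0))) (Ex.v (nat_lit 1)))) (Ex.op (nat_lit 0) true (Ex.add false (nat_lit 1) (Ex.op (nat_lit 0) false (Ex.op (nat_lit 0) false (Ex.v (nat_lit 0)) (Ex.v (nat_lit 1))) (Ex.v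 (nat_lit 2))) (Ex.add false (nat_lit 1) (Ex.op (nat_lit 0) false (Ex.op (nat_lit 0) false (Ex.v (nat_lit 1)) (Ex.v (nat_lit 2))) (Ex.v (nat_lit 0))) (Ex.op (nat_lit 0) false (Ex.op (nat_lit 0) false (Ex.v (nat_lit 2)) (Ex.v (nat_lit 0))) (Ex.v (nat_lit 1))))) (Ex.add false (nat_lit 1) (Ex.op (nat_lit 0) false (Ex.op (nat_lit 0) false (Ex.v (nat_lit 0)) (Ex.v (nat_lit 1))) (Ex.v (nat_lit 2))) (Ex.add false (nat_lit 1) (Ex.op (nat_lit 0) false (Ex.op (nat_lit 0) false (Ex.v (nat_lit 1)) (Ex.v (nat_lit 2))) (Ex.v (nat_lit 0))) (Ex.op (nat_lit 0) false (Ex.op (nat_lit 0) false (Ex.v (nat_lit 2)) (Ex.v (nat_lit 0))) (Ex.v (nat_lit 1))))))))))))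

/-- the cube of an odd letter -/
def qJ : Ex := Ex.op 0 false (Ex.op 0 false (Ex.v 0) (Ex.v 0)) (Ex.v 0)

end Pool.Agent.TP
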