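import Pool.Agent.Helper19_TP.Norm
import Pool.Agent.Helper19_TP.AxL

/-! The axioms of the checker hold in the base algebra (helper19). -/

set_option autoImplicit false

namespace Pool.Agent.TP

theorem okSag : axOK eSag = true := by decide +kernel
theorem okG2 : axOK eG2 = true := by decide +kernel
theorem okM3 : axOK eM3 = true := by decide +kernel
theorem okG1 : axOK eG1 = true := by decide +kernel
theorem okM : axOK eM = true := by decide +kernel
theorem okK5 : axOK eK5 = true := by decide +kernel
theorem okZ1 : axOK eZ1 = true := by decide +kernel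

section
variable {B : Type} [AddCommGroup B]

/-- polarization of a cubic identity -/
theorem polar3 (T : B → B → B → B) (h1 : ∀ x x' y z, T (x + x') y z = T x y z + T x' y z)
    (h2 : ∀ x y y' z, T x (y + y') z = T x y z + T x y' z)
    (h3 : ∀ x y z z', T x y (z + z') = T x y z + T x y z')
    (h : ∀ x, T x x x = 0) (a b c : B) :
    T a b c + T a c b + T b a c + T b c a + T c a b + T c b a = 0 := by
  have e1 := h (a + b + c)
  have e2 := h (a + b)
  have e3 := h (a + c)
  have e4 := h (b + c)
  simp only [h1, h2, h3, h, zero_add, add_zero] at e1 e2 e3 e4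
  have e5 : T a a b + T a b a + T b a a + (T b b a + T b a b + T a b b) = 0 := by
    rw [← e2]; abel
  have e6 : T a a c + T a c a + T c a a + (T c c a + T c a c + T a c c) = 0 := by
    rw [← e3]; abel
  have e7 : T b b c + T b c b + T c b b + (T c c b + T c b c + T b c c) = 0 := by
    rw [← e4]; abel
  have : T a b c + T a c b + T b a c + T b c a + T c a b + T c b a =
      (T a a b + T a b a + T b a a + (T b b a + T b a b + T a b b) +
      (T a a c + T a c a + T c a a + (T c c a + T c a c + T a c c)) +
      (T b b c + T b c b + T c b b + (T c c b + T c b c + T b c c)) +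
      (T a b c + T a c b + T b a c + T b c a + T c a b + T c b a)) := by
    rw [e5, e6, e7]; simp
  rw [this, ← e1]
  abel

theorem polar2 (T : B → B → B) (h1 : ∀ x x' y, T (x + x') y = T x y + T x' y)
    (h2 : ∀ x y y', T x (y + y') = T x y + T x y')
    (h : ∀ x, T x x = 0) (a b : B) : T a b + T b a = 0 := by
  have e1 := h (a + b)
  simp only [h1, h2, h, zero_add, add_zero] at e1
  rw [← e1]

variable {br jo : B →+ B →+ B} (h : Calc br jo)

theorem b_skew (h : Calc br jo) (v : ℕ → B) : evP (Sup.triv br jo) v skewP = 0 := by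
  have := h.skew (v 0) (v 1)
  simpa [skewP, Tm.ev, Sup.triv] using this

theorem b_sym (h : Calc br jo) (v : ℕ → B) : evP (Sup.triv br jo) v symP = 0 := by
  have := h.symm (v 0) (v 1)
  simpa [symP, Tm.ev, Sup.triv, sub_eq_add_neg] using this

theorem b_m2 (h : Calc br jo) (v : ℕ → B) : evP (Sup.triv br jo) v m2P = 0 := by
  have := h.m2 (v 0) (v 1) (v 2)
  simp [m2P, Tm.ev, Sup.triv, this]
  abel

theorem b_sag (h : Calc br jo) (v : ℕ → B) : evP (Sup.triv br jo) v (toPl eSag) = 0 := by
  have := h.sagle (v 0) (v 1) (v 2) (v 3)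
  rw [evP_toPl]
  simp only [eSag, pv, Sup.triv, zc, cond_true, cond_false, Nat.cast_one, one_smul, neg_smul]
  rw [this]
  abel

theorem b_m3 (h : Calc br jo) (v : ℕ → B) : evP (Sup.triv br jo) v (toPl eM3) = 0 := by
  have := h.m3 (v 0) (v 1) (v 2) (v 3) (v 4)
  rw [evP_toPl]
  simp only [eM3, pv, Sup.triv, zc, cond_true, cond_false, Nat.cast_one, one_smul, neg_smul]
  rw [← this]
  simp only [Jc]
  abel

theorem b_g2 (h : Calc br jo) (v : ℕ → B) : evP (Sup.triv br jo) v (toPl eG2) = 0 := by
  have := polar3 (fun x1 x2 x3 => br x1 (3 • br (br x2 (v 3)) (br x3 (v 4)) +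
    br x2 (Jc br x3 (v 3) (v 4)))) (by intros; simp) (by intros; simp; abel)
    (by intros; simp [Jc]; abel) (fun x => h.g2 x (v 3) (v 4)) (v 0) (v 1) (v 2)
  rw [evP_toPl]
  simp only [eG2, pv, Sup.triv, zc, cond_true, cond_false, Nat.cast_one, one_smul, neg_smul]
  rw [← this]
  simp only [Jc, map_add, map_zsmul, map_nsmul]
  abel

theorem b_g1 (h : Calc br jo) (v : ℕ → B) : evP (Sup.triv br jo) v (toPl eG1) = 0 := by
  have e : ∀ y y' x : B, jo (br x y) (br (br x y') x) + jo (br x y') (br (br x y) x) = 0 := by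
    intro y y' x
    exact polar2 (fun y y' => jo (br x y) (br (br x y') x)) (by intros; simp) (by intros; simp)
      (fun y => h.g1 x y) y y'
  have := polar3 (fun x1 x2 x3 => jo (br x1 (v 3)) (br (br x2 (v 4)) x3) +
    jo (br x1 (v 4)) (br (br x2 (v 3)) x3)) (by intros; simp; abel) (by intros; simp; abel)
    (by intros; simp; abel) (fun x => e (v 3) (v 4) x) (v 0) (v 1) (v 2)
  rw [evP_toPl]
  simp only [eG1, pv, Sup.triv, zc, cond_true, cond_false, Nat.cast_one, one_smul, neg_smul]
  rw [← this]
  simp only [map_add]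
  abel

end

end Pool.Agent.TP
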