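import Pool.Agent.Helper19_TP.Super

/-! Kernel checker for certificates in superalgebras: definitions (helper19). -/

set_option autoImplicit false

namespace Pool.Agent.TP

/-- integer vectors -/
inductive V where
  | nil : V
  | bad : V
  | cons (i : ℕ) (s : Bool) (a : ℕ) (t : V) : V

/-- axioms in factored form; `g` is the table of signs -/
inductive Ex where
  | v (i : ℕ) : Ex
  | op (g : ℕ) (o : Bool) (a b : Ex) : Ex
  | add (s : Bool) (c : ℕ) (a b : Ex) : Ex

/-- combinations of instances of axioms -/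
inductive Ct where
  | nil : Ct
  | cons (s : Bool) (c : ℕ) (ax : ℕ) (args : ℕ) (t : Ct) : Ct

/-- certificate of a row: definition or combination of instances -/
inductive Rw where
  | df (i a b : ℕ) : Rw
  | rw (a b : ℕ) (ct : Ct) : Rw

/-- table of brackets -/
inductive Tb where
  | leaf (key idx : ℕ) (v : V) (r : Rw) : Tb
  | node (k : ℕ) (l r : Tb) : Tb

/-- definitions of basis elements -/
inductive DL where
  | nil : DL
  | cons (i j k a b : ℕ) (t : DL) : DL

/-- lists of axioms -/
inductive AL where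
  | nil : AL
  | cons (e : Ex) (t : AL) : AL

/-- forcing -/
noncomputable def fN {α : Type} (n : ℕ) (f : ℕ → α) : α :=
  @Nat.rec (fun _ => α) (f 0) (fun m _ => f (Nat.succ m)) n

/-- exclusive or -/
noncomputable def bx (s t : Bool) : Bool :=
  @Bool.rec (fun _ => Bool) t (@Bool.rec (fun _ => Bool) true false t) s

/-- conjunction -/
noncomputable def ba (s t : Bool) : Bool := @Bool.rec (fun _ => Bool) false t s

/-- negation -/
noncomputable def bn (s : Bool) : Bool := @Bool.rec (fun _ => Bool) true false s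

/-- nonzero -/
noncomputable def nz (n : ℕ) : Bool := @Nat.rec (fun _ => Bool) false (fun _ _ => true) n

/-- parity of a number -/
noncomputable def od (n : ℕ) : Bool := nz (Nat.mod n (nat_lit 2))

/-- binary digit -/
noncomputable def bit (σ P : ℕ) : Bool := nz (Nat.mod (Nat.shiftRight σ P) (nat_lit 2))

noncomputable def fC (i : ℕ) (s : Bool) (n : ℕ) (v : V) : V :=
  @Nat.rec (fun _ => V) v (fun m _ => V.cons i s (Nat.succ m) v) n

noncomputable def dif (i : ℕ) (s : Bool) (n : ℕ) (t : Bool) (m : ℕ) (v : V) : V :=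
  @Bool.rec (fun _ => V) (fC i s (Nat.sub n m) v) (fC i t (Nat.sub m n) v) (Nat.ble n m)

noncomputable def addS (i : ℕ) (s : Bool) (n : ℕ) (t : Bool) (m : ℕ) (v : V) : V :=
  @Bool.rec (fun _ => V) (fC i s (Nat.add n m) v) (dif i s n t m v) (bx s t)

noncomputable def aGe (i : ℕ) (s : Bool) (a : ℕ) (F : V → V) (j : ℕ) (sb : Bool) (b : ℕ)
    (w : V) : V :=
  @Bool.rec (fun _ => V) (addS i s a sb b (F w)) (V.cons i s a (F (V.cons j sb b w))) (Nat.blt i j)

noncomputable def aStep (i : ℕ) (f : ℕ → Bool → ℕ → V → V) (j : ℕ) (sb : Bool) (b : ℕ)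
    (w : V) (ih : V) : V :=
  @Bool.rec (fun _ => V) (f j sb b w) (V.cons j sb b ih) (Nat.blt j i)

noncomputable def aRow (i : ℕ) (s : Bool) (a : ℕ) (F : V → V) (w : V) : V :=
  @V.rec (fun _ => V) (V.cons i s a (F V.nil)) V.bad (aStep i (aGe i s a F)) w

noncomputable def aOut (s : Bool) (c i : ℕ) (sa : Bool) (a : ℕ) (_ : V) (F : V → V) (w : V) : V :=
  @Nat.rec (fun _ => V) (F w) (fun m _ => aRow i (bx s sa) (Nat.succ m) F w) (Nat.mul c a)

/-- `c v + w` -/
noncomputable def addc (s : Bool) (c : ℕ) (v : V) : V → V :=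
  @V.rec (fun _ => V → V) (fun w => w) (fun _ => V.bad) (aOut s c) v

noncomputable def fvK (k : V → V) (i : ℕ) (s : Bool) (a : ℕ) (t : V) : V := k (V.cons i s a t)

noncomputable def fvC (i : ℕ) (s : Bool) (a : ℕ) (_ : V) (ih : (V → V) → V) (k : V → V) : V :=
  @Bool.rec (fun _ => V) (ih (fvK k i false a)) (ih (fvK k i true a)) s

/-- full evaluation of a vector -/
noncomputable def force (v : V) (k : V → V) : V :=
  @V.rec (fun _ => (V → V) → V) (fun k => k V.nil) (fun _ => V.bad) fvC v k

noncomputable def lkL (m n : ℕ) (fb : V) (k idx : ℕ) (v : V) (_ : Rw) : V :=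
  @Bool.rec (fun _ => V) fb (@Bool.rec (fun _ => V) fb v (Nat.blt idx n)) (Nat.beq k m)

noncomputable def lkN (m k : ℕ) (_ _ : Tb) (L R : V) : V :=
  @Bool.rec (fun _ => V) R L (Nat.blt m k)

/-- search in the table -/
noncomputable def look (n m : ℕ) (fb : V) (T : Tb) : V :=
  @Tb.rec (fun _ => V) (lkL m n fb) (lkN m) T

/-- unresolved bracket -/
noncomputable def unr (top : Bool) (m : ℕ) : V :=
  @Bool.rec (fun _ => V) V.bad (V.cons (Nat.add m (nat_lit 1048577)) false (nat_lit 1) V.nil) top

noncomputable def lkF (T : Tb) (n : ℕ) (top : Bool) (m : ℕ) : V := look n m (unr top m) T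

/-- bracket of the pair of basis elements with the given key -/
noncomputable def lk (T : Tb) (n : ℕ) (top : Bool) (key : ℕ) : V :=
  @Nat.rec (fun _ => V) V.bad (fun m _ => lkF T n top m) key

/-- bracket of ordered basis elements -/
noncomputable def brL (L : ℕ → V) (s : Bool) (c x y : ℕ) (acc : V) : V :=
  addc s c (L (Nat.add (Nat.mul x (nat_lit 1024)) y)) acc

noncomputable def brJ (L : ℕ → V) (s : Bool) (c x y : ℕ) (acc : V) : V :=
  @Bool.rec (fun _ => V)
    (@Bool.rec (fun _ => V) acc (brL L s c x y acc) (od x))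
    (brL L (bx s (bn (ba (od x) (od y)))) c y x acc) (Nat.blt y x)

/-- bracket of basis elements -/
noncomputable def brI (L : ℕ → V) (s : Bool) (c x y : ℕ) (acc : V) : V :=
  @Bool.rec (fun _ => V) (brJ L s c x y acc) (brL L s c x y acc) (Nat.blt x y)

noncomputable def joK2 (s : Bool) (c : ℕ) (t : V) (k : ℕ) : V :=
  @Bool.rec (fun _ => V) V.bad (V.cons k s c t) (Nat.ble (nat_lit 1024) k)

noncomputable def joK (i j : ℕ) (s : Bool) (c : ℕ) (t : V) : V :=
  fN (Nat.add (Nat.mul i (nat_lit 1024)) j) (joK2 s c t)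

noncomputable def joF (i j : ℕ) (s : Bool) (c : ℕ) (t : V) : V :=
  @Bool.rec (fun _ => V)
    (@Bool.rec (fun _ => V) (joK i j s c t) t (od i))
    (joK j i (bx s (ba (od i) (od j))) c t) (Nat.blt j i)

/-- product of basis elements in front of a vector -/
noncomputable def joE (i j : ℕ) (s : Bool) (c : ℕ) (t : V) : V :=
  @Bool.rec (fun _ => V) (joF i j s c t) (joK i j s c t) (Nat.blt i j)

noncomputable def joLs (i : ℕ) (s : Bool) (c j : ℕ) (t : Bool) (b : ℕ) (_ : V) (ih : V) : V :=
  @Bool.rec (fun _ => V) V.bad (joE i j (bx s t) (Nat.mul c b) ih) (Nat.blt j (nat_lit 1024))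

/-- Jordan product of a basis element and a vector -/
noncomputable def joL (i : ℕ) (s : Bool) (c : ℕ) (v : V) : V :=
  @V.rec (fun _ => V) V.nil V.bad (joLs i s c) v

noncomputable def joRs (k : ℕ) (s : Bool) (c j : ℕ) (t : Bool) (b : ℕ) (_ : V) (ih : V) : V :=
  @Bool.rec (fun _ => V) V.bad (joE j k (bx s t) (Nat.mul c b) ih) (Nat.blt j (nat_lit 1024))

/-- Jordan product of a vector and a basis element -/
noncomputable def joR (k : ℕ) (s : Bool) (c : ℕ) (v : V) : V :=
  @V.rec (fun _ => V) V.nil V.bad (joRs k s c) v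

/-- bracket of the pair `j o k` and the basis element `y` -/
noncomputable def pairBr (L : ℕ → V) (s : Bool) (c j k y : ℕ) (acc : V) : V :=
  addc false (nat_lit 1) (joL j s c (brI L false (nat_lit 1) k y V.nil))
    (addc false (nat_lit 1)
      (joR k (bx s (ba (od k) (od y))) c (brI L false (nat_lit 1) j y V.nil)) acc)

/-- bracket of a pair key and a basis element -/
noncomputable def brP (L : ℕ → V) (s : Bool) (c x y : ℕ) (acc : V) : V :=
  @Bool.rec (fun _ => V) V.bad
    (fN (Nat.div x (nat_lit 1024)) fun j => fN (Nat.mod x (nat_lit 1024)) fun k =>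
      pairBr L s c j k y acc) (Nat.blt x (nat_lit 1048576))

/-- parity of a key -/
noncomputable def pk (x : ℕ) : Bool := od (Nat.add (Nat.div x (nat_lit 1024)) x)

/-- bracket of keys, first one a basis element -/
noncomputable def brA (L : ℕ → V) (s : Bool) (c x y : ℕ) (acc : V) : V :=
  @Bool.rec (fun _ => V) (brP L (bx s (bn (ba (od x) (pk y)))) c y x acc) (brI L s c x y acc)
    (Nat.blt y (nat_lit 1024))

/-- bracket of keys, first one not a basis element -/
noncomputable def brB' (L : ℕ → V) (s : Bool) (c x y : ℕ) (acc : V) : V :=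
  @Bool.rec (fun _ => V) V.bad (brP L s c x y acc) (Nat.blt y (nat_lit 1024))

noncomputable def rA (L : ℕ → V) (i : ℕ) (s : Bool) (c j : ℕ) (t : Bool) (b : ℕ) (_ : V)
    (F : V → V) (acc : V) : V := F (brA L (bx s t) (Nat.mul c b) i j acc)

noncomputable def rB (L : ℕ → V) (i : ℕ) (s : Bool) (c j : ℕ) (t : Bool) (b : ℕ) (_ : V)
    (F : V → V) (acc : V) : V := F (brB' L (bx s t) (Nat.mul c b) i j acc)

/-- bracket of a key and a vector -/
noncomputable def brRow (L : ℕ → V) (i : ℕ) (s : Bool) (c : ℕ) (v : V) : V → V :=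
  @Bool.rec (fun _ => V → V)
    (@V.rec (fun _ => V → V) (fun acc => acc) (fun _ => V.bad) (rB L i s c) v)
    (@V.rec (fun _ => V → V) (fun acc => acc) (fun _ => V.bad) (rA L i s c) v)
    (Nat.blt i (nat_lit 1024))

noncomputable def joRow (i : ℕ) (s : Bool) (c : ℕ) (v acc : V) : V :=
  @Bool.rec (fun _ => V) V.bad (addc false (nat_lit 1) (joL i s c v) acc)
    (Nat.blt i (nat_lit 1024))

noncomputable def mBr (L : ℕ → V) (s : Bool) (c : ℕ) (w : V) (i : ℕ) (t : Bool) (a : ℕ) (_ : V)
    (F : V → V) (acc : V) : V := F (brRow L i (bx s t) (Nat.mul c a) w acc)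

noncomputable def mJo (s : Bool) (c : ℕ) (w : V) (i : ℕ) (t : Bool) (a : ℕ) (_ : V)
    (F : V → V) (acc : V) : V := F (joRow i (bx s t) (Nat.mul c a) w acc)

/-- product of vectors -/
noncomputable def mulV (L : ℕ → V) (o s : Bool) (c : ℕ) (u w : V) : V → V :=
  @Bool.rec (fun _ => V → V)
    (@V.rec (fun _ => V → V) (fun acc => acc) (fun _ => V.bad) (mBr L s c w) u)
    (@V.rec (fun _ => V → V) (fun acc => acc) (fun _ => V.bad) (mJo s c w) u) o

/-- argument number `i` -/
noncomputable def arg (args i : ℕ) : ℕ :=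
  Nat.mod (Nat.shiftRight args (Nat.mul (nat_lit 20) i)) (nat_lit 1048576)

noncomputable def evV (args i : ℕ) (_ : Bool) (s : Bool) (c : ℕ) (acc : V) : V :=
  fN (arg args i) fun x => addc s c (V.cons x false (nat_lit 1) V.nil) acc

noncomputable def evO2 (Lk : Bool → ℕ → V) (o top s : Bool) (c : ℕ) (acc u w : V) : V :=
  mulV (Lk top) o s c u w acc

noncomputable def evO1 (Lk : Bool → ℕ → V) (o : Bool) (B : Bool → Bool → ℕ → V → V)
    (top s : Bool) (c : ℕ) (acc u : V) : V :=
  force (B false false (nat_lit 1) V.nil) (evO2 Lk o top s c acc u)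

noncomputable def evO (Lk : Bool → ℕ → V) (P g : ℕ) (o : Bool) (_ _ : Ex)
    (A B : Bool → Bool → ℕ → V → V) (top s : Bool) (c : ℕ) (acc : V) : V :=
  force (A false false (nat_lit 1) V.nil) (evO1 Lk o B top (bx s (bit g P)) c acc)

noncomputable def evA (s' : Bool) (c' : ℕ) (_ _ : Ex) (A B : Bool → Bool → ℕ → V → V)
    (top s : Bool) (c : ℕ) (acc : V) : V :=
  A top (bx s s') (Nat.mul c c') (B top s c acc)

/-- evaluation of an expression, added to `acc` -/
noncomputable def evE (Lk : Bool → ℕ → V) (args P : ℕ) (e : Ex) : Bool → Bool → ℕ → V → V :=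
  @Ex.rec (fun _ => Bool → Bool → ℕ → V → V) (evV args) (evO Lk P) evA e

noncomputable def pmS (args m ih : ℕ) : ℕ :=
  Nat.add ih (Nat.mul (Nat.pow (nat_lit 2) m)
    (Nat.mod (Nat.add (Nat.div (arg args m) (nat_lit 1024)) (arg args m)) (nat_lit 2)))

/-- parities of the arguments -/
noncomputable def pm (args m : ℕ) : ℕ := @Nat.rec (fun _ => ℕ) (nat_lit 0) (pmS args) m

/-- axiom number `i` -/
noncomputable def nth (L : AL) (i : ℕ) : Ex :=
  @AL.rec (fun _ => ℕ → Ex)
    (fun _ => Ex.add true (nat_lit 1) (Ex.v (nat_lit 0)) (Ex.v (nat_lit 0)))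
    (fun e _ F i => @Nat.rec (fun _ => Ex) e (fun m _ => F m) i) L i

noncomputable def ctK (Lk : Bool → ℕ → V) (L : AL) (s : Bool) (c ax args : ℕ) (acc : V)
    (F : V → V) (P : ℕ) : V := force (evE Lk args P (nth L ax) true s c acc) F

noncomputable def ctS (Lk : Bool → ℕ → V) (L : AL) (s : Bool) (c ax args : ℕ) (_ : Ct)
    (F : V → V) (acc : V) : V := fN (pm args (nat_lit 6)) (ctK Lk L s c ax args acc F)

/-- add a combination of instances -/
noncomputable def addCt (Lk : Bool → ℕ → V) (L : AL) (ct : Ct) : V → V :=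
  @Ct.rec (fun _ => V → V) (fun acc => acc) (ctS Lk L) ct

noncomputable def isNil (v : V) : Bool := @V.rec (fun _ => Bool) true false (fun _ _ _ _ _ => false) v

/-- check a row of the table -/
noncomputable def chkRow (T : Tb) (L : AL) (key idx : ℕ) (v : V) (a b : ℕ) (ct : Ct) : Bool :=
  fN (Nat.mul (Nat.pow (nat_lit 2) a) (Nat.pow (nat_lit 3) b)) fun N =>
    isNil (addCt (lk T idx) L ct
      (addc false N v (V.cons (Nat.add key (nat_lit 1048577)) true N V.nil)))

/-- membership of a definition -/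
noncomputable def memD (i key a b : ℕ) (D : DL) : Bool :=
  @DL.rec (fun _ => Bool) false
    (fun i' j' k' a' b' _ ih => @Bool.rec (fun _ => Bool) ih
      (ba (Nat.beq (Nat.succ key) (Nat.add (Nat.mul j' (nat_lit 1024)) k'))
        (ba (Nat.beq a a') (Nat.beq b b'))) (Nat.beq i i')) D

/-- the vector `N b_i` -/
noncomputable def chkDef (D : DL) (key : ℕ) (v : V) (i a b : ℕ) : Bool :=
  ba (memD i key a b D)
    (isNil (addc true (Nat.mul (Nat.pow (nat_lit 2) a) (Nat.pow (nat_lit 3) b))
      (V.cons i false (nat_lit 1) V.nil) v))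

/-- check the leaves of the table with index in `[lo, hi)` -/
noncomputable def chkT (T : Tb) (L : AL) (D : DL) (lo hi : ℕ) (T' : Tb) : Bool :=
  @Tb.rec (fun _ => Bool)
    (fun key idx v r => @Bool.rec (fun _ => Bool) true
      (@Rw.rec (fun _ => Bool) (fun i a b => chkDef D key v i a b)
        (fun a b ct => chkRow T L key idx v a b ct) r)
      (ba (Nat.ble lo idx) (Nat.blt idx hi)))
    (fun _ _ _ L' R' => ba L' R') T'

/-- final check -/
noncomputable def chkF (T : Tb) (n : ℕ) (L : AL) (top : Bool) (tgt : Ex) (args N : ℕ)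
    (ct : Ct) : Bool :=
  isNil (addCt (lk T n) L ct (evE (lk T n) args (nat_lit 0) tgt top true N V.nil))

end Pool.Agent.TP
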