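import Pool.Agent.Helper19_TP.Abs
import Pool.Agent.Helper67_TP.Prime
import Pool.Agent.Helper67_TP.Base
import Pool.Agent.Helper51_TP.Rules
import Pool.Agent.Helper66_TP.AnnR

/-! Assembly for characteristic not 2, 3 (helper19). -/

set_option autoImplicit false

namespace Pool.Agent.TP

theorem fin : FinStmt := by
  intro F _ h2 h3 S hS
  by_contra hns
  obtain ⟨B, iR, iM, iT, iC, x, hR, hA, hSat, hTP, hsol⟩ := H67.prime F S hns
  have hr := rules F S hS B x hR hA hSat hTP hsol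
  have key : ∀ (n : ℕ), (n : F) ≠ 0 → ∀ y : B, n • y = 0 → y = 0 := by
    intro n hn y hy
    have : (n : F) • y = 0 := by rw [Nat.cast_smul_eq_nsmul, hy]
    exact (smul_eq_zero.mp this).resolve_left hn
  have t2 : ∀ y : B, 2 • y = 0 → y = 0 := key 2 (by exact_mod_cast h2)
  have t3 : ∀ y : B, 3 • y = 0 → y = 0 := key 3 (by exact_mod_cast h3)
  have h6 : ((6 : ℕ) : F) ≠ 0 := by
    have : ((6 : ℕ) : F) = 2 * 3 := by norm_num
    rw [this]
    exact mul_ne_zero h2 h3
  have t6 := key 6 h6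
  have hC := H67.base B hA t2 t3 hr.nuc hr.ann
  have hJ := abs2 B (brB B) (joB B) hC
    (fun y => ⟨((6 : ℕ) : F)⁻¹ • y, by
      rw [← Nat.cast_smul_eq_nsmul F, smul_smul, mul_inv_cancel₀ h6, one_smul]⟩)
    (by
      intro r hr'
      refine H66.annRStmt B hA t2 t3 hr.ann r fun a b c => ?_
      have h1 := hr' a b c
      rw [H67.Jc_brB hA, map_nsmul] at h1
      have h3 := t6 _ h1
      exact t6 _ h3)
  obtain ⟨a, b, c, habc⟩ := hr.nonassoc
  apply habc
  have h1 := hJ a b c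
  rw [H67.Jc_brB hA] at h1
  exact t6 _ h1

end Pool.Agent.TP
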