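import Pool.Agent.Helper19_TP.Stmts

/-! Revised statements for MP_ce3ba7_al (helper19). -/

set_option autoImplicit false

namespace Pool.Agent.TP

/-- MODULE ABS, revised: also divisibility by 6 and the rule that only 0 anticommutes to zero
with all Jacobians. -/
def Abs2Stmt : Prop :=
  ∀ (B : Type) [AddCommGroup B] (br jo : B →+ B →+ B), Calc br jo →
    (∀ x : B, ∃ y : B, 6 • y = x) →
    (∀ r, (∀ x y z, jo r (Jc br x y z) = 0) → r = 0) →
    ∀ x y z, Jc br x y z = 0

/-- LEMMA R: in an alternative algebra without 2- and 3-torsion satisfying the rule ann, only 0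
anticommutes to zero with all associators. -/
def AnnRStmt : Prop :=
  ∀ (B : Type) [NonUnitalNonAssocRing B], IsAlt B → (∀ x : B, 2 • x = 0 → x = 0) →
    (∀ x : B, 3 • x = 0 → x = 0) →
    (∀ g : B, (∀ x y z, g * asc x y z = 0) → (∀ x y z, asc x y z * g = 0) →
      (∀ a x y z, g * (a * asc x y z) = 0) → g = 0) →
    ∀ r : B, (∀ x y z, r * asc x y z + asc x y z * r = 0) → r = 0

/-- MODULE FIN: characteristic not 2, 3. -/
def FinStmt : Prop :=
  ∀ (F : Type) [Field F], (2 : F) ≠ 0 → (3 : F) ≠ 0 →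
    ∀ S : Set (MonoidAlgebra F (FreeMagma ℕ)), AssNil F S → AllSolv F S

end Pool.Agent.TP
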