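import Pool.Agent.Helper19_TP.Super
import Pool.Agent.Helper19_TP.Stmts2

/-! The class of Grassmann extensions, formal derivatives and closure rules (helper19). -/

set_option autoImplicit false

namespace Pool.Agent.TP

/-- the class of superalgebras sharing the identities and the rules of `S0` -/
structure Cls {B : Type} [AddCommGroup B] (S0 : Sup B) {R : Type} [AddCommGroup R]
    (S : Sup R) : Prop where
  ids : ∀ f : Pl, ML f → SId S0 f → SId S f
  tors : ∀ x : R, (6 : ℕ) • x = 0 → x = 0
  dvs : ∀ x : R, ∃ y : R, (6 : ℕ) • y = x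
  cen : ∀ r : R, (∀ y, Hom S false y → S.op false r y = 0) → r = 0
  nuc : ∀ r : R, (∀ y z, Hom S false y → Hom S false z → Jc (S.op false) r y z = 0) → r = 0
  ann : ∀ r : R, (∀ x y z, Hom S false x → Hom S false y → Hom S false z →
    S.op true r (Jc (S.op false) x y z) = 0) → r = 0

section
variable {B : Type} [AddCommGroup B] (S0 : Sup B)
variable {R : Type} [AddCommGroup R] {S : Sup R}

theorem hom_zero (S : Sup R) (p : Bool) : Hom S p 0 := by simp [Hom]

theorem hom_emb {p : Bool} {x : R} (h : Hom S p x) : Hom S.gr p (x, 0) :=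
  (hom_gr S p _).mpr ⟨h, hom_zero S _⟩

theorem hom_emb2 {p : Bool} {x : R} (h : Hom S (!p) x) : Hom S.gr p (0, x) :=
  (hom_gr S p _).mpr ⟨hom_zero S _, h⟩

theorem hom_false {x : R} (h : Hom S false x) : S.tau x = x := by simpa [Hom, sg] using h

theorem Cls.gr (h : Cls S0 S) : Cls S0 S.gr where
  ids f hf h0 := (h.ids f hf h0).gr S f hf
  tors x hx := by
    ext
    · exact h.tors _ (by simpa using congrArg Prod.fst hx)
    · exact h.tors _ (by simpa using congrArg Prod.snd hx)
  dvs x := by
    obtain ⟨y, hy⟩ := h.dvs x.1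
    obtain ⟨z, hz⟩ := h.dvs x.2
    exact ⟨(y, z), by ext <;> simp [hy, hz]⟩
  cen r hr := by
    ext
    · refine h.cen _ fun y hy => ?_
      simpa using congrArg Prod.fst (hr (y, 0) (hom_emb hy))
    · refine h.cen _ fun y hy => ?_
      simpa [hom_false hy] using congrArg Prod.snd (hr (y, 0) (hom_emb hy))
  nuc r hr := by
    ext
    · refine h.nuc _ fun y z hy hz => ?_
      simpa [Jc] using congrArg Prod.fst (hr (y, 0) (z, 0) (hom_emb hy) (hom_emb hz))
    · refine h.nuc _ fun y z hy hz => ?_
      simpa [Jc, hom_false hy, hom_false hz] using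
        congrArg Prod.snd (hr (y, 0) (z, 0) (hom_emb hy) (hom_emb hz))
  ann r hr := by
    ext
    · refine h.ann _ fun x y z hx hy hz => ?_
      simpa [Jc] using congrArg Prod.fst
        (hr (x, 0) (y, 0) (z, 0) (hom_emb hx) (hom_emb hy) (hom_emb hz))
    · refine h.ann _ fun x y z hx hy hz => ?_
      simpa [Jc, S.tau_op, hom_false hx, hom_false hy, hom_false hz] using congrArg Prod.snd
        (hr (x, 0) (y, 0) (z, 0) (hom_emb hx) (hom_emb hy) (hom_emb hz))

/-- the polynomial `f` vanishes on all homogeneous values of parities `p` -/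
def Holds (p : ℕ → Bool) (f : Pl) : Prop :=
  ∀ (R : Type) [AddCommGroup R] (S : Sup R), Cls S0 S → ∀ v : ℕ → R, (∀ i, Hom S (p i) (v i)) →
    evP S v f = 0

/-- formal derivative of a term -/
def dT (x y : ℕ) (p : ℕ → Bool) : Tm → Pl
  | .v i => cond (Nat.beq i x) [(1, .v y)] []
  | .op o a b => (dT x y p b).map (fun ct => (ct.1, .op o a ct.2)) ++
      (dT x y p a).map (fun ct => (sg (b.par p) * ct.1, .op o ct.2 b))

/-- formal derivative of a polynomial -/
def dP (x y : ℕ) (p : ℕ → Bool) (f : Pl) : Pl :=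
  f.flatMap fun ct => (dT x y p ct.2).map fun d => (ct.1 * d.1, d.2)

theorem evP_map_right (S : Sup R) (v : ℕ → R) (o : Bool) (a : Tm) (f : Pl) :
    evP S v (f.map fun ct => (ct.1, .op o a ct.2)) = S.op o (a.ev S v) (evP S v f) := by
  induction f with
  | nil => simp
  | cons c f ih => simp [ih, Tm.ev]

theorem evP_map_left (S : Sup R) (v : ℕ → R) (o : Bool) (b : Tm) (c : ℤ) (f : Pl) :
    evP S v (f.map fun ct => (c * ct.1, .op o ct.2 b)) = c • S.op o (evP S v f) (b.ev S v) := by
  induction f with
  | nil => simp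
  | cons d f ih => simp [ih, Tm.ev, mul_smul]

theorem evP_map_smul (S : Sup R) (v : ℕ → R) (c : ℤ) (f : Pl) :
    evP S v (f.map fun d => (c * d.1, d.2)) = c • evP S v f := by
  induction f with
  | nil => simp
  | cons d f ih => simp [ih, mul_smul]

theorem ev_dT (S : Sup R) (v : ℕ → R) (x y : ℕ) (p : ℕ → Bool) : ∀ t : Tm,
    evP S v (dT x y p t) = dv S p v (fun i => if i = x then v y else 0) t
  | .v i => by
    by_cases h : i = x
    · subst h; simp [dT, dv, Tm.ev]
    · have : Nat.beq i x = false := by rw [← Bool.not_eq_true]; simpa using h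
      simp [dT, dv, this, h]
  | .op o a b => by
    rw [dT, evP_append, evP_map_right, evP_map_left, ev_dT S v x y p a, ev_dT S v x y p b, dv]

theorem ev_dP (S : Sup R) (v : ℕ → R) (x y : ℕ) (p : ℕ → Bool) : ∀ f : Pl,
    evP S v (dP x y p f) =
      (f.map fun ct => ct.1 • dv S p v (fun i => if i = x then v y else 0) ct.2).sum
  | [] => by simp [dP]
  | ct :: f => by
    have ih := ev_dP S v x y p f
    rw [dP] at ih
    rw [dP, List.flatMap_cons, evP_append, evP_map_smul, ev_dT, ih, List.map_cons, List.sum_cons]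

theorem evP_gr (S : Sup R) (p : ℕ → Bool) (v : ℕ → R × R) (hv : ∀ i, Hom S (p i) (v i).1) :
    ∀ f : Pl, evP S.gr v f = (evP S (fun i => (v i).1) f,
      (f.map fun ct => ct.1 • dv S p (fun i => (v i).1) (fun i => (v i).2) ct.2).sum)
  | [] => rfl
  | ct :: f => by
    rw [evP_cons, evP_gr S p v hv f, ev_gr S p v hv]
    ext <;> simp

theorem Holds.d {p : ℕ → Bool} {f : Pl} (h : Holds S0 p f) (x y : ℕ) (hy : p y = !(p x)) :
    Holds S0 p (dP x y p f) := by
  intro R _ S hS v hv
  have hv' : ∀ i, Hom S (p i) (v i, if i = x then v y else 0).1 := fun i => hv i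
  have h1 := h (R × R) S.gr (hS.gr S0) (fun i => (v i, if i = x then v y else 0)) (by
    intro i
    refine (hom_gr S _ _).mpr ⟨hv i, ?_⟩
    by_cases hi : i = x
    · subst hi
      simpa [← hy] using hv y
    · simpa [hi] using hom_zero S _)
  rw [evP_gr S p _ hv'] at h1
  rw [ev_dP]
  exact congrArg Prod.snd h1

theorem ev_congr (S : Sup R) (v w : ℕ → R) : ∀ t : Tm, (∀ i ∈ t.leaves, v i = w i) →
    t.ev S v = t.ev S w
  | .v i, h => h i (by simp [Tm.leaves])
  | .op o a b, h => by
    rw [Tm.ev, Tm.ev, ev_congr S v w a fun i hi => h i (by simp [Tm.leaves, hi]),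
      ev_congr S v w b fun i hi => h i (by simp [Tm.leaves, hi])]

theorem evP_congr (S : Sup R) (v w : ℕ → R) (f : Pl)
    (h : ∀ ct ∈ f, ∀ i ∈ ct.2.leaves, v i = w i) : evP S v f = evP S w f := by
  induction f with
  | nil => rfl
  | cons c f ih =>
    rw [evP_cons, evP_cons, ih fun ct hc => h ct (List.mem_cons_of_mem _ hc),
      ev_congr S v w c.2 (h c List.mem_cons_self)]

theorem Holds.congr {p q : ℕ → Bool} {f : Pl} (h : Holds S0 p f)
    (hpq : ∀ ct ∈ f, ∀ i ∈ ct.2.leaves, p i = q i) : Holds S0 q f := by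
  intro R _ S hS v hv
  have h1 := h R S hS (fun i => if p i = q i then v i else 0) (by
    intro i
    by_cases hi : p i = q i
    · simpa [hi] using hv i
    · simpa [hi] using hom_zero S _)
  rw [← h1]
  refine evP_congr S _ _ f fun ct hc i hi => ?_
  simp [hpq ct hc i hi]

/-- `f` with every term multiplied by a letter on the right -/
def mulW (o : Bool) (w : Tm) (f : Pl) : Pl := f.map fun ct => (ct.1, .op o ct.2 w)

/-- the Jacobian of `f` and two letters -/
def jacW (y z : ℕ) (f : Pl) : Pl :=
  (f.map fun ct => (ct.1, .op false (.op false ct.2 (.v y)) (.v z))) ++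
  (f.map fun ct => (ct.1, .op false (.op false (.v y) (.v z)) ct.2)) ++
  (f.map fun ct => (ct.1, .op false (.op false (.v z) ct.2) (.v y)))

theorem evP_mulW (S : Sup R) (v : ℕ → R) (o : Bool) (w : Tm) (f : Pl) :
    evP S v (mulW o w f) = S.op o (evP S v f) (w.ev S v) := by
  induction f with
  | nil => simp [mulW]
  | cons c f ih =>
    rw [mulW] at ih
    simp [mulW, ih, Tm.ev]

theorem evP_jacW1 (S : Sup R) (v : ℕ → R) (y z : ℕ) (f : Pl) :
    evP S v (f.map fun ct => (ct.1, .op false (.op false ct.2 (.v y)) (.v z))) =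
      S.op false (S.op false (evP S v f) (v y)) (v z) := by
  induction f with
  | nil => simp
  | cons c f ih => simp [ih, Tm.ev]

theorem evP_jacW2 (S : Sup R) (v : ℕ → R) (y z : ℕ) (f : Pl) :
    evP S v (f.map fun ct => (ct.1, .op false (.op false (.v y) (.v z)) ct.2)) =
      S.op false (S.op false (v y) (v z)) (evP S v f) := by
  induction f with
  | nil => simp
  | cons c f ih => simp [ih, Tm.ev]

theorem evP_jacW3 (S : Sup R) (v : ℕ → R) (y z : ℕ) (f : Pl) :
    evP S v (f.map fun ct => (ct.1, .op false (.op false (.v z) ct.2) (.v y))) =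
      S.op false (S.op false (v z) (evP S v f)) (v y) := by
  induction f with
  | nil => simp
  | cons c f ih => simp [ih, Tm.ev]

theorem evP_jacW (S : Sup R) (v : ℕ → R) (y z : ℕ) (f : Pl) :
    evP S v (jacW y z f) = Jc (S.op false) (evP S v f) (v y) (v z) := by
  rw [jacW, evP_append, evP_append, evP_jacW1, evP_jacW2, evP_jacW3, Jc]

theorem Holds.cen {p : ℕ → Bool} {f : Pl} (w : ℕ) (hw : p w = false)
    (hf : ∀ ct ∈ f, w ∉ ct.2.leaves) (h : Holds S0 p (mulW false (.v w) f)) : Holds S0 p f := by
  intro R _ S hS v hv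
  refine hS.cen _ fun y hy => ?_
  have h1 := h R S hS (Function.update v w y) (by
    intro i
    by_cases hi : i = w
    · subst hi; simpa [hw] using hy
    · simpa [Function.update_of_ne hi] using hv i)
  rw [evP_mulW, Tm.ev, Function.update_self] at h1
  rwa [evP_congr S _ v f (fun ct hc i hi => by
    rw [Function.update_of_ne]; rintro rfl; exact hf ct hc hi)] at h1

theorem Holds.nuc {p : ℕ → Bool} {f : Pl} (y z : ℕ) (hyz : y ≠ z) (hy : p y = false)
    (hz : p z = false) (hfy : ∀ ct ∈ f, y ∉ ct.2.leaves) (hfz : ∀ ct ∈ f, z ∉ ct.2.leaves)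
    (h : Holds S0 p (jacW y z f)) : Holds S0 p f := by
  intro R _ S hS v hv
  refine hS.nuc _ fun a b ha hb => ?_
  have h1 := h R S hS (Function.update (Function.update v y a) z b) (by
    intro i
    by_cases hi : i = z
    · subst hi; simpa [hz] using hb
    · rw [Function.update_of_ne hi]
      by_cases hi : i = y
      · subst hi; simpa [hy] using ha
      · simpa [Function.update_of_ne hi] using hv i)
  rw [evP_jacW, Function.update_self, Function.update_of_ne hyz, Function.update_self] at h1
  rwa [evP_congr S _ v f (fun ct hc i hi => by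
    rw [Function.update_of_ne, Function.update_of_ne]
    · rintro rfl; exact hfy ct hc hi
    · rintro rfl; exact hfz ct hc hi)] at h1

/-- skew symmetry as a multilinear polynomial -/
def skewP : Pl := [(1, .op false (.v 0) (.v 1)), (1, .op false (.v 1) (.v 0))]

theorem evP_emb (S : Sup R) (v : ℕ → R) (f : Pl) :
    evP S.gr (fun i => (v i, 0)) f = (evP S v f, 0) := by
  have hT : ∀ t : Tm, t.ev S.gr (fun i => (v i, 0)) = (t.ev S v, 0) := by
    intro t
    induction t with
    | v i => rfl
    | op o a b iha ihb => rw [Tm.ev, iha, ihb]; simp [Tm.ev]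
  induction f with
  | nil => rfl
  | cons c f ih => rw [evP_cons, ih, hT, evP_cons]; ext <;> simp

theorem skew_even (h : SId S skewP) {x y : R} (hx : Hom S false x) (hy : Hom S false y) :
    S.op false x y = - S.op false y x := by
  have := h (fun _ => false) (fun i => if i = 0 then x else if i = 1 then y else 0) (by
    intro i
    by_cases h0 : i = 0
    · simpa [h0] using hx
    · by_cases h1 : i = 1
      · simpa [h1] using hy
      · simpa [h0, h1] using hom_zero S _)
  simp [evs, skewP, Tm.ev, Tm.leaves, inv, cnt, sg] at this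
  exact eq_neg_of_add_eq_zero_left this

theorem Holds.ann {p : ℕ → Bool} {f : Pl} (hsk : SId S0 skewP) (z : ℕ) (hz : p z = true)
    (hf : ∀ ct ∈ f, z ∉ ct.2.leaves)
    (h : Holds S0 p (mulW true (.op false (.op false (.v z) (.v z)) (.v z)) f)) :
    Holds S0 p f := by
  intro R _ S hS v hv
  refine hS.ann _ fun x1 x2 x3 h1 h2 h3 => ?_
  have hgg := ((hS.gr S0).gr S0).gr S0
  have hskS := hS.ids skewP ⟨[0, 1], by decide, by
    intro ct hct
    simp only [skewP, List.mem_cons, List.not_mem_nil, or_false] at hct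
    rcases hct with rfl | rfl
    · exact List.Perm.refl _
    · exact List.Perm.swap _ _ _⟩ hsk
  set ζ : ((R × R) × (R × R)) × ((R × R) × (R × R)) :=
    (((0, x1), (x2, 0)), ((x3, 0), (0, 0))) with hζ
  have hh := h _ S.gr.gr.gr hgg
    (Function.update (fun i => (((v i, 0), (0, 0)), ((0, 0), (0, 0)))) z ζ) (by
      intro i
      by_cases hi : i = z
      · subst hi
        rw [Function.update_self, hz, hζ]
        exact (hom_gr _ _ _).mpr ⟨(hom_gr _ _ _).mpr ⟨(hom_gr _ _ _).mpr ⟨hom_zero S _, h1⟩,
          (hom_gr _ _ _).mpr ⟨h2, hom_zero S _⟩⟩, (hom_gr _ _ _).mpr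
          ⟨(hom_gr _ _ _).mpr ⟨h3, hom_zero S _⟩, hom_zero S.gr _⟩⟩
      · rw [Function.update_of_ne hi]
        exact hom_emb (hom_emb (hom_emb (hv i))))
  rw [evP_mulW, evP_congr S.gr.gr.gr _ (fun i => (((v i, 0), (0, 0)), ((0, 0), (0, 0)))) f
    (fun ct hc i hi => by
      rw [Function.update_of_ne]; rintro rfl; exact hf ct hc hi)] at hh
  have e3 : evP S.gr.gr.gr (fun i => (((v i, 0), (0, 0)), ((0, 0), (0, 0)))) f
      = (((evP S v f, 0), (0, 0)), ((0, 0), (0, 0))) := by
    have a1 := evP_emb S.gr.gr (fun i => ((v i, 0), (0, 0))) f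
    have a2 := evP_emb S.gr (fun i => (v i, 0)) f
    have a3 := evP_emb S v f
    rw [a3] at a2
    have a2' : evP S.gr.gr (fun i => ((v i, (0 : R)), ((0 : R), (0 : R)))) f
        = ((evP S v f, 0), (0, 0)) := a2
    rw [a2'] at a1
    exact a1
  rw [e3] at hh
  have h5 := congrArg (fun x => x.2.2.2) hh
  simp [Tm.ev, Function.update_self, hζ, hom_false h1, hom_false h2, hom_false h3] at h5
  rw [skew_even hskS h2 h1, skew_even hskS h1 h3, skew_even hskS h3 h2] at h5
  simp only [map_neg, AddMonoidHom.neg_apply, neg_neg] at h5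
  apply hS.tors
  rw [Jc, map_add, map_add]
  have h6 := congrArg (fun x => (3 : ℕ) • x) h5
  simp only [smul_zero] at h6
  rw [← h6]
  abel

theorem ev_zero (S : Sup R) (v : ℕ → R) (i : ℕ) (hi : v i = 0) : ∀ t : Tm, i ∈ t.leaves →
    t.ev S v = 0
  | .v j, h => by
    have : i = j := by simpa [Tm.leaves] using h
    subst this
    exact hi
  | .op o a b, h => by
    rw [Tm.leaves, List.mem_append] at h
    rcases h with h | h
    · rw [Tm.ev, ev_zero S v i hi a h, map_zero, AddMonoidHom.zero_apply]
    · rw [Tm.ev, ev_zero S v i hi b h, map_zero]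

theorem cnt_false (p : ℕ → Bool) : ∀ l : List ℕ, (∀ i ∈ l, p i = false) → cnt p l = false
  | [], _ => rfl
  | i :: l, h => by
    rw [cnt, h i List.mem_cons_self,
      cnt_false p l fun j hj => h j (List.mem_cons_of_mem _ hj)]
    rfl

theorem inv_false (p : ℕ → Bool) : ∀ l : List ℕ, (∀ i ∈ l, p i = false) → inv p l = false
  | [], _ => rfl
  | i :: l, h => by
    rw [inv, h i List.mem_cons_self,
      inv_false p l fun j hj => h j (List.mem_cons_of_mem _ hj)]
    rfl

/-- an ordinary multilinear identity of an algebra with trivial parity is a super identity -/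
theorem SId.base (S : Sup B) (h0 : ∀ x, S.tau x = x) (h2 : ∀ x : B, (2 : ℕ) • x = 0 → x = 0)
    (f : Pl) (hf : ML f) (h : ∀ v : ℕ → B, evP S v f = 0) : SId S f := by
  obtain ⟨L, hL, hf⟩ := hf
  intro p v hv
  by_cases hp : ∃ i ∈ L, p i = true
  · obtain ⟨i, hi, hpi⟩ := hp
    have hvi := hv i
    rw [hpi, Hom, h0] at hvi
    have hz : v i = 0 := by
      apply h2
      have : v i = - v i := by simpa [sg] using hvi
      rw [two_nsmul]
      nth_rw 1 [this]
      simp
    rw [evs]
    apply List.sum_eq_zero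
    intro x hx
    rw [List.mem_map] at hx
    obtain ⟨ct, hct, rfl⟩ := hx
    rw [ev_zero S v i hz _ ((hf ct hct).mem_iff.mpr hi), smul_zero]
  · push_neg at hp
    have hp' : ∀ i ∈ L, p i = false := fun i hi => by simpa using hp i hi
    rw [← h v, evs, evP]
    congr 1
    apply List.map_congr_left
    intro ct hct
    rw [inv_false p _ fun i hi => hp' i ((hf ct hct).mem_iff.mp hi)]
    simp [sg]

/-- the algebra with trivial parity -/
def Sup.triv (br jo : B →+ B →+ B) : Sup B where
  op o := cond o jo br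
  tau := AddMonoidHom.id B
  tau_tau _ := rfl
  tau_op _ _ _ := rfl

theorem hom_triv (br jo : B →+ B →+ B) (x : B) : Hom (Sup.triv br jo) false x := by
  simp [Hom, Sup.triv, sg]

theorem Cls.triv (br jo : B →+ B →+ B) (h : Calc br jo) (hd : ∀ x : B, ∃ y : B, 6 • y = x)
    (ha : ∀ r, (∀ x y z, jo r (Jc br x y z) = 0) → r = 0) :
    Cls (Sup.triv br jo) (Sup.triv br jo) where
  ids _ _ hf := hf
  tors x hx := by
    apply h.tors3
    apply h.tors2
    rw [smul_smul]
    exact hx
  dvs := hd
  cen r hr := h.cen r fun y => hr y (hom_triv br jo y)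
  nuc r hr := h.nuc r fun y z => hr y z (hom_triv br jo y) (hom_triv br jo z)
  ann r hr := ha r fun x y z => hr x y z (hom_triv br jo x) (hom_triv br jo y) (hom_triv br jo z)

/-- from a super identity with even letters in all Grassmann extensions back to the base -/
theorem Holds.evP (br jo : B →+ B →+ B) (hC : Cls (Sup.triv br jo) (Sup.triv br jo)) {f : Pl}
    {p : ℕ → Bool} (h : Holds (Sup.triv br jo) p f) (hp : ∀ ct ∈ f, ∀ i ∈ ct.2.leaves, p i = false)
    (v : ℕ → B) : evP (Sup.triv br jo) v f = 0 :=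
  Holds.congr _ h (q := fun _ => false) hp B _ hC v fun i => hom_triv br jo (v i)

end

end Pool.Agent.TP
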