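import Pool.Agent.Helper19_TP.Snd4

/-! Normal forms of multilinear identities in the base algebra (helper19). -/

set_option autoImplicit false

namespace Pool.Agent.TP

/-- code of a term -/
def code : Tm → ℕ
  | .v i => 3 * i + 2
  | .op o a b => 3 * Nat.pair (code a) (code b) + cond o 1 0

theorem code_inj : ∀ s t : Tm, code s = code t → s = t
  | .v i, .v j, h => by simp only [code] at h; congr 1; omega
  | .v i, .op o a b, h => by cases o <;> simp only [code, cond_true, cond_false] at h <;> omega
  | .op o a b, .v i, h => by cases o <;> simp only [code, cond_true, cond_false] at h <;> omega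
  | .op o a b, .op o' a' b', h => by
    have h1 : o = o' := by
      cases o <;> cases o' <;> simp only [code, cond_true, cond_false] at h <;> first | rfl | omega
    subst h1
    have h2 : Nat.pair (code a) (code b) = Nat.pair (code a') (code b') := by
      simp only [code] at h; omega
    rw [Nat.pair_eq_pair] at h2
    rw [code_inj a a' h2.1, code_inj b b' h2.2]

/-- normal form of a term under skew symmetry and symmetry -/
def nT : Tm → Bool × Tm
  | .v i => (false, .v i)
  | .op o a b =>
    bif Nat.ble (code (nT a).2) (code (nT b).2) then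
      (xor (nT a).1 (nT b).1, .op o (nT a).2 (nT b).2)
    else (xor (xor (nT a).1 (nT b).1) (!o), .op o (nT b).2 (nT a).2)

/-- collected normal form -/
noncomputable def colV : Pl → V
  | [] => V.nil
  | ct :: f => addc (xor (decide (ct.1 < 0)) (nT ct.2).1) ct.1.natAbs
      (V.cons (code (nT ct.2).2) false 1 V.nil) (colV f)

/-- renaming of letters -/
def renT (ρ : ℕ → ℕ) : Tm → Tm
  | .v i => .v (ρ i)
  | .op o a b => .op o (renT ρ a) (renT ρ b)

/-- renaming of letters -/
def ren (ρ : ℕ → ℕ) (f : Pl) : Pl := f.map fun ct => (ct.1, renT ρ ct.2)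

section
variable {R : Type} [AddCommGroup R] (S : Sup R)

theorem renT_ev (ρ : ℕ → ℕ) (v : ℕ → R) : ∀ t : Tm,
    (renT ρ t).ev S v = t.ev S (fun i => v (ρ i))
  | .v i => rfl
  | .op o a b => by rw [renT, Tm.ev, renT_ev ρ v a, renT_ev ρ v b, Tm.ev]

theorem ren_ev (ρ : ℕ → ℕ) (v : ℕ → R) (f : Pl) :
    evP S v (ren ρ f) = evP S (fun i => v (ρ i)) f := by
  induction f with
  | nil => rfl
  | cons c f ih =>
    rw [ren] at ih
    rw [ren, List.map_cons, evP_cons, ih, evP_cons, renT_ev]

open Classical in
/-- value of a code -/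
noncomputable def dec (v : ℕ → R) (k : ℕ) : R :=
  if h : ∃ t : Tm, code t = k then h.choose.ev S v else 0

theorem dec_code (v : ℕ → R) (t : Tm) : dec S v (code t) = t.ev S v := by
  have h : ∃ t' : Tm, code t' = code t := ⟨t, rfl⟩
  rw [dec, dif_pos h, code_inj _ _ h.choose_spec]

theorem nT_ev (hsk : ∀ x y : R, S.op false x y = - S.op false y x)
    (hsy : ∀ x y : R, S.op true x y = S.op true y x) (v : ℕ → R) : ∀ t : Tm,
    t.ev S v = sg (nT t).1 • (nT t).2.ev S v
  | .v i => by simp [nT, sg]
  | .op o a b => by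
    have ha := nT_ev hsk hsy v a
    have hb := nT_ev hsk hsy v b
    rw [Tm.ev, ha, hb, nT]
    generalize (nT a).1 = s
    generalize (nT b).1 = t
    generalize (nT a).2 = x
    generalize (nT b).2 = y
    cases Nat.ble (code x) (code y) with
    | true =>
      simp only [cond_true, Tm.ev, map_zsmul, AddMonoidHom.smul_apply, smul_smul]
      congr 1
      cases s <;> cases t <;> rfl
    | false =>
      simp only [cond_false, Tm.ev, map_zsmul, AddMonoidHom.smul_apply, smul_smul]
      cases o with
      | true => rw [hsy]; congr 1; cases s <;> cases t <;> rfl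
      | false =>
        rw [hsk, smul_neg, ← neg_smul]; congr 1; cases s <;> cases t <;> rfl

theorem colV_spec (hsk : ∀ x y : R, S.op false x y = - S.op false y x)
    (hsy : ∀ x y : R, S.op true x y = S.op true y x) (v : ℕ → R) : ∀ f : Pl,
    okV (colV f) → val (dec S v) (colV f) = evP S v f
  | [], _ => rfl
  | ct :: f, h => by
    obtain ⟨_, h2, h3⟩ := addc_spec (dec S v) _ _ _ _ h
    rw [colV, h3, colV_spec hsk hsy v f h2, evP_cons, nT_ev S hsk hsy v ct.2]
    congr 1
    simp only [val, zc_one, one_smul, add_zero]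
    rw [dec_code, smul_smul]
    congr 1
    rw [zc_sg]
    rcases lt_or_ge ct.1 0 with hc | hc
    · have : ((ct.1.natAbs : ℕ) : ℤ) = - ct.1 := by omega
      rw [this, decide_eq_true hc]
      cases (nT ct.2).1 <;> simp [sg]
    · have : ((ct.1.natAbs : ℕ) : ℤ) = ct.1 := by omega
      rw [this, decide_eq_false (not_lt.mpr hc)]
      cases (nT ct.2).1 <;> simp [sg]

theorem col_zero (hsk : ∀ x y : R, S.op false x y = - S.op false y x)
    (hsy : ∀ x y : R, S.op true x y = S.op true y x) (v : ℕ → R) (f g : Pl)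
    (hc : isNil (colV (f ++ g)) = true) (hf : evP S v f = 0) : evP S v g = 0 := by
  have h1 := isNil_spec hc
  have h2 := colV_spec S hsk hsy v (f ++ g) (by rw [h1]; trivial)
  rw [h1, evP_append, hf, zero_add] at h2
  exact h2.symm

/-- value without signs -/
def pv (v : ℕ → R) : Ex → R
  | .v i => v i
  | .op _ o a b => S.op o (pv v a) (pv v b)
  | .add s c a b => zc s c • pv v a + pv v b

theorem evP_toPl (v : ℕ → R) : ∀ e : Ex, evP S v (toPl e) = pv S v e
  | .v i => by simp [toPl, pv, Tm.ev]
  | .op g o a b => by rw [toPl, evP_flatMap_op, evP_toPl v a, evP_toPl v b, pv]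
  | .add s c a b => by rw [toPl, evP_append, evP_map_smul, evP_toPl v a, evP_toPl v b, pv]

end

section
variable {B : Type} [AddCommGroup B] (S0 : Sup B)

theorem Holds.cenE {p : ℕ → Bool} {e : Ex} (g w : ℕ) (hw : p w = false)
    (hf : ∀ ct ∈ toPl e, w ∉ ct.2.leaves) (h : Holds S0 p (toPl (.op g false e (.v w)))) :
    Holds S0 p (toPl e) := by
  refine Holds.cen S0 w hw hf fun R _ S hS v hv => ?_
  have := h R S hS v hv
  rw [toPl, evP_flatMap_op] at this
  rw [evP_mulW]
  simpa [toPl] using this

theorem Holds.nucE {p : ℕ → Bool} {e : Ex} (y z : ℕ) (hyz : y ≠ z) (hy : p y = false)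
    (hz : p z = false) (hfy : ∀ ct ∈ toPl e, y ∉ ct.2.leaves)
    (hfz : ∀ ct ∈ toPl e, z ∉ ct.2.leaves)
    (h : Holds S0 p (toPl (.add false 1 (.op 0 false (.op 0 false e (.v y)) (.v z))
      (.add false 1 (.op 0 false (.op 0 false (.v y) (.v z)) e)
        (.op 0 false (.op 0 false (.v z) e) (.v y)))))) :
    Holds S0 p (toPl e) := by
  refine Holds.nuc S0 y z hyz hy hz hfy hfz fun R _ S hS v hv => ?_
  have := h R S hS v hv
  rw [evP_toPl] at this
  rw [evP_jacW, evP_toPl, Jc]
  simpa [pv, zc, add_assoc] using this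

theorem Holds.annE {p : ℕ → Bool} {e : Ex} (hsk : SId S0 skewP) (z : ℕ) (hz : p z = true)
    (hf : ∀ ct ∈ toPl e, z ∉ ct.2.leaves)
    (h : Holds S0 p (toPl (.op 0 true e (.op 0 false (.op 0 false (.v z) (.v z)) (.v z))))) :
    Holds S0 p (toPl e) := by
  refine Holds.ann S0 hsk z hz hf fun R _ S hS v hv => ?_
  have := h R S hS v hv
  rw [evP_toPl] at this
  rw [evP_mulW, evP_toPl]
  simpa [pv, Tm.ev] using this

/-- all letters of a polynomial satisfy a test -/
def allL (f : Pl) (q : ℕ → Bool) : Bool := f.all fun ct => ct.2.leaves.all q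

theorem allL_spec {f : Pl} {q : ℕ → Bool} (h : allL f q = true) :
    ∀ ct ∈ f, ∀ i ∈ ct.2.leaves, q i = true := by
  rw [allL, List.all_eq_true] at h
  intro ct hct i hi
  exact List.all_eq_true.mp (h ct hct) i hi

end

end Pool.Agent.TP
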