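import Pool.Agent.Helper19_TP.Eng

/-! Soundness of the kernel checker, part 1 (helper19). -/

set_option autoImplicit false

namespace Pool.Agent.TP

/-- signed integer -/
def zc (s : Bool) (a : ℕ) : ℤ := cond s (-(a : ℤ)) a

theorem bx_eq (s t : Bool) : bx s t = xor s t := by cases s <;> cases t <;> rfl

theorem ba_eq (s t : Bool) : ba s t = (s && t) := by cases s <;> cases t <;> rfl

theorem bn_eq (s : Bool) : bn s = !s := by cases s <;> rfl

theorem zc_mul (s t : Bool) (a b : ℕ) : zc (bx s t) (Nat.mul a b) = zc s a * zc t b := by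
  have h : ((Nat.mul a b : ℕ) : ℤ) = a * b := by rw [← Nat.cast_mul]; rfl
  cases s <;> cases t <;> simp [bx_eq, zc, h]

theorem zc_zero (s : Bool) : zc s 0 = 0 := by cases s <;> simp [zc]

theorem zc_sg (s : Bool) (a : ℕ) : zc s a = sg s * a := by cases s <;> simp [zc, sg]

theorem zc_bx (s t : Bool) (a : ℕ) : zc (bx s t) a = sg t * zc s a := by
  cases s <;> cases t <;> simp [bx_eq, zc, sg]

theorem fN_eq {α : Type} (n : ℕ) (f : ℕ → α) : fN n f = f n := by cases n <;> rfl

section
variable {R : Type} [AddCommGroup R]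

/-- value of a vector -/
def val (g : ℕ → R) : V → R
  | .nil => 0
  | .bad => 0
  | .cons i s a t => zc s a • g i + val g t

/-- no failure -/
def okV : V → Prop
  | .nil => True
  | .bad => False
  | .cons _ _ _ t => okV t

/-- `F` adds `ρ` -/
def Adds (g : ℕ → R) (F : V → V) (p : Prop) (ρ : R) : Prop :=
  ∀ w, okV (F w) → p ∧ okV w ∧ val g (F w) = ρ + val g w

theorem fC_ok (i : ℕ) (s : Bool) (n : ℕ) (v : V) : okV (fC i s n v) ↔ okV v := by
  cases n <;> rfl

theorem fC_val (g : ℕ → R) (i : ℕ) (s : Bool) (n : ℕ) (v : V) :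
    val g (fC i s n v) = zc s n • g i + val g v := by
  cases n with
  | zero => rw [zc_zero, zero_smul, zero_add]; rfl
  | succ n => rfl

theorem dif_ok (i : ℕ) (s : Bool) (n : ℕ) (t : Bool) (m : ℕ) (v : V) :
    okV (dif i s n t m v) ↔ okV v := by
  unfold dif
  cases Nat.ble n m <;> exact fC_ok _ _ _ _

theorem dif_val (g : ℕ → R) (i : ℕ) (s : Bool) (n : ℕ) (t : Bool) (m : ℕ) (v : V)
    (h : bx s t = true) : val g (dif i s n t m v) = (zc s n + zc t m) • g i + val g v := by
  unfold dif
  rw [bx_eq] at h
  cases hb : Nat.ble n m with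
  | true =>
    have hle : n ≤ m := Nat.le_of_ble_eq_true hb
    show val g (fC i t (Nat.sub m n) v) = _
    rw [fC_val]
    have : ((Nat.sub m n : ℕ) : ℤ) = (m : ℤ) - n := by
      rw [← Nat.cast_sub hle]; rfl
    congr 2
    cases s <;> cases t <;> simp_all [zc] <;> ring
  | false =>
    have hle : m ≤ n := by
      have : ¬ n ≤ m := fun hh => by rw [Nat.ble_eq_true_of_le hh] at hb; cases hb
      omega
    show val g (fC i s (Nat.sub n m) v) = _
    rw [fC_val]
    have : ((Nat.sub n m : ℕ) : ℤ) = (n : ℤ) - m := by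
      rw [← Nat.cast_sub hle]; rfl
    congr 2
    cases s <;> cases t <;> simp_all [zc] <;> ring

theorem addS_ok (i : ℕ) (s : Bool) (n : ℕ) (t : Bool) (m : ℕ) (v : V) :
    okV (addS i s n t m v) ↔ okV v := by
  unfold addS
  cases bx s t
  · exact fC_ok _ _ _ _
  · exact dif_ok _ _ _ _ _ _

theorem addS_val (g : ℕ → R) (i : ℕ) (s : Bool) (n : ℕ) (t : Bool) (m : ℕ) (v : V) :
    val g (addS i s n t m v) = (zc s n + zc t m) • g i + val g v := by
  unfold addS
  cases h : bx s t with
  | true => exact dif_val g i s n t m v h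
  | false =>
    show val g (fC i s (Nat.add n m) v) = _
    rw [fC_val]
    have : ((Nat.add n m : ℕ) : ℤ) = (n : ℤ) + m := by
      rw [← Nat.cast_add]; rfl
    rw [bx_eq] at h
    congr 2
    cases s <;> cases t <;> simp_all [zc] <;> ring

theorem aRow_spec (g : ℕ → R) (i : ℕ) (s : Bool) (a : ℕ) (F : V → V) (p : Prop) (ρ : R)
    (hF : Adds g F p ρ) : Adds g (aRow i s a F) p (zc s a • g i + ρ)
  | .nil, h => by
    have h' : okV (F .nil) := h
    obtain ⟨h1, _, h2⟩ := hF _ h'
    refine ⟨h1, trivial, ?_⟩
    show zc s a • g i + val g (F .nil) = _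
    rw [h2]
    simp [val]
  | .bad, h => h.elim
  | .cons j sb b w, h => by
    have e : aRow i s a F (.cons j sb b w) =
      @Bool.rec (fun _ => V) (aGe i s a F j sb b w) (V.cons j sb b (aRow i s a F w))
        (Nat.blt j i) := rfl
    rw [e] at h ⊢
    cases h1 : Nat.blt j i with
    | true =>
      rw [h1] at h
      obtain ⟨h2, h3, h4⟩ := aRow_spec g i s a F p ρ hF w h
      refine ⟨h2, h3, ?_⟩
      show zc sb b • g j + val g (aRow i s a F w) = _
      rw [h4]
      show _ = _ + (zc sb b • g j + val g w)
      abel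
    | false =>
      rw [h1] at h
      have h' : okV (aGe i s a F j sb b w) := h
      show _ ∧ _ ∧ val g (aGe i s a F j sb b w) = _
      unfold aGe at h' ⊢
      cases h2 : Nat.blt i j with
      | true =>
        rw [h2] at h'
        obtain ⟨h3, h4, h5⟩ := hF _ (show okV (F (V.cons j sb b w)) from h')
        refine ⟨h3, h4, ?_⟩
        show zc s a • g i + val g (F (V.cons j sb b w)) = _
        rw [h5]
        abel
      | false =>
        rw [h2] at h'
        have hij : i = j := by
          have a1 : ¬ j < i := fun hh => by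
            have : Nat.blt j i = true := Nat.ble_eq_true_of_le hh
            rw [h1] at this; cases this
          have a2 : ¬ i < j := fun hh => by
            have : Nat.blt i j = true := Nat.ble_eq_true_of_le hh
            rw [h2] at this; cases this
          omega
        subst hij
        have h6 : okV (F w) := (addS_ok i s a sb b (F w)).mp h'
        obtain ⟨h3, h4, h5⟩ := hF _ h6
        refine ⟨h3, h4, ?_⟩
        show val g (addS i s a sb b (F w)) = _ + (zc sb b • g i + val g w)
        rw [addS_val, h5, add_smul]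
        abel

theorem addc_spec (g : ℕ → R) (s : Bool) (c : ℕ) : ∀ v : V,
    Adds g (addc s c v) (okV v) (zc s c • val g v)
  | .nil => fun w h => ⟨trivial, h, by show val g w = _; simp [val]⟩
  | .bad => fun _ h => h.elim
  | .cons i sa a t => by
    have ih := addc_spec g s c t
    intro w h
    have e : addc s c (.cons i sa a t) w =
      @Nat.rec (fun _ => V) (addc s c t w)
        (fun m _ => aRow i (bx s sa) (Nat.succ m) (addc s c t) w) (Nat.mul c a) := rfl
    have hz : zc (bx s sa) (Nat.mul c a) = zc s c * zc sa a := zc_mul s sa c a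
    rw [e] at h ⊢
    show okV t ∧ okV w ∧ _ = zc s c • (zc sa a • g i + val g t) + val g w
    cases hm : Nat.mul c a with
    | zero =>
      rw [hm] at h hz
      rw [zc_zero] at hz
      obtain ⟨h1, h2, h3⟩ := ih w h
      refine ⟨h1, h2, ?_⟩
      show val g (addc s c t w) = _
      rw [h3, smul_add, smul_smul, ← hz]
      simp
    | succ m =>
      rw [hm] at h hz
      obtain ⟨h1, h2, h3⟩ := aRow_spec g i (bx s sa) (Nat.succ m) (addc s c t) _ _ ih w h
      refine ⟨h1, h2, ?_⟩
      show val g (aRow i (bx s sa) (Nat.succ m) (addc s c t) w) = _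
      rw [h3, smul_add, smul_smul, ← hz]

theorem force_eq : ∀ (v : V) (k : V → V), okV (force v k) → okV v ∧ force v k = k v
  | .nil, k, _ => ⟨trivial, rfl⟩
  | .bad, _, h => h.elim
  | .cons i s a t, k, h => by
    have e : force (.cons i s a t) k =
      @Bool.rec (fun _ => V) (force t (fvK k i false a)) (force t (fvK k i true a)) s := rfl
    rw [e] at h ⊢
    cases s with
    | false =>
      obtain ⟨h1, h2⟩ := force_eq t (fvK k i false a) h
      exact ⟨h1, h2⟩
    | true =>
      obtain ⟨h1, h2⟩ := force_eq t (fvK k i true a) h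
      exact ⟨h1, h2⟩

/-- membership in the table -/
def inT (m idx : ℕ) (v : V) (r : Rw) : Tb → Prop
  | .leaf m' idx' v' r' => m = m' ∧ idx = idx' ∧ v = v' ∧ r = r'
  | .node _ l r' => inT m idx v r l ∨ inT m idx v r r'

theorem look_spec (n m : ℕ) (fb : V) : ∀ T : Tb,
    look n m fb T = fb ∨ ∃ idx r, idx < n ∧ inT m idx (look n m fb T) r T
  | .leaf k idx v r => by
    have e : look n m fb (.leaf k idx v r) =
      @Bool.rec (fun _ => V) fb (@Bool.rec (fun _ => V) fb v (Nat.blt idx n)) (Nat.beq k m) := rfl
    rw [e]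
    cases h1 : Nat.beq k m with
    | false => exact Or.inl rfl
    | true =>
      cases h2 : Nat.blt idx n with
      | false => exact Or.inl rfl
      | true =>
        exact Or.inr ⟨idx, r, Nat.le_of_ble_eq_true h2, (Nat.eq_of_beq_eq_true h1).symm, rfl, rfl,
          rfl⟩
  | .node k l r => by
    have e : look n m fb (.node k l r) =
      @Bool.rec (fun _ => V) (look n m fb r) (look n m fb l) (Nat.blt m k) := rfl
    rw [e]
    cases h1 : Nat.blt m k with
    | false =>
      rcases look_spec n m fb r with h | ⟨idx, r', h2, h3⟩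
      · exact Or.inl h
      · exact Or.inr ⟨idx, r', h2, Or.inr h3⟩
    | true =>
      rcases look_spec n m fb l with h | ⟨idx, r', h2, h3⟩
      · exact Or.inl h
      · exact Or.inr ⟨idx, r', h2, Or.inl h3⟩

end

end Pool.Agent.TP
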