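import Pool.Agent.Helper19_TP.Snd1

/-! Soundness of the kernel checker, part 2 (helper19). -/

set_option autoImplicit false

namespace Pool.Agent.TP

theorem blt_true {a b : ℕ} (h : Nat.blt a b = true) : a < b := Nat.le_of_ble_eq_true h

theorem blt_false {a b : ℕ} (h : Nat.blt a b = false) : b ≤ a := by
  by_contra hh
  have : Nat.blt a b = true := Nat.ble_eq_true_of_le (by omega : a + 1 ≤ b)
  rw [h] at this
  cases this

theorem ble_true {a b : ℕ} (h : Nat.ble a b = true) : a ≤ b := Nat.le_of_ble_eq_true h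

theorem nz_eq (n : ℕ) : nz n = !decide (n = 0) := by cases n <;> rfl

theorem od_eq (n : ℕ) : od n = decide (n % 2 = 1) := by
  unfold od
  rw [nz_eq]
  show (!decide (n % 2 = 0)) = _
  rcases Nat.mod_two_eq_zero_or_one n with h | h <;> simp [h]

theorem od_add (m n : ℕ) : od (m + n) = xor (od m) (od n) := by
  rw [od_eq, od_eq, od_eq]
  rcases Nat.mod_two_eq_zero_or_one m with h | h <;>
    rcases Nat.mod_two_eq_zero_or_one n with h' | h' <;> simp [Nat.add_mod, h, h']

section
variable {R : Type} [AddCommGroup R] (S : Sup R) (b : ℕ → R)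

/-- value of a key -/
def gk (k : ℕ) : R :=
  if k < 1024 then b k
  else if k < 1048576 then S.op true (b (k / 1024)) (b (k % 1024))
  else S.op false (b ((k - 1048576) / 1024)) (b ((k - 1048576) % 1024))

theorem gk_id {k : ℕ} (h : k < 1024) : gk S b k = b k := by simp [gk, h]

theorem gk_pair {j k : ℕ} (hj : j < 1024) (hk : k < 1024) (h : 1024 ≤ j * 1024 + k) :
    gk S b (j * 1024 + k) = S.op true (b j) (b k) := by
  have h1 : ¬ (j * 1024 + k < 1024) := by omega
  have h2 : j * 1024 + k < 1048576 := by omega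
  have h3 : (j * 1024 + k) / 1024 = j := by omega
  have h4 : (j * 1024 + k) % 1024 = k := by omega
  rw [gk, if_neg h1, if_pos h2, h3, h4]

theorem gk_pair' {x : ℕ} (h1 : 1024 ≤ x) (h2 : x < 1048576) :
    gk S b x = S.op true (b (x / 1024)) (b (x % 1024)) := by
  rw [gk, if_neg (by omega), if_pos h2]

theorem gk_unr (m : ℕ) :
    gk S b (m + 1048577) = S.op false (b ((m + 1) / 1024)) (b ((m + 1) % 1024)) := by
  rw [gk, if_neg (by omega), if_neg (by omega),
    show m + 1048577 - 1048576 = m + 1 by omega]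

/-- supersymmetry and the Leibniz rule -/
structure Gd : Prop where
  tors : ∀ x : R, (6 : ℕ) • x = 0 → x = 0
  sk : ∀ p q x y, Hom S p x → Hom S q y → S.op false x y = - (sg (p && q) • S.op false y x)
  sy : ∀ p q x y, Hom S p x → Hom S q y → S.op true x y = sg (p && q) • S.op true y x
  m2 : ∀ p q r x y z, Hom S p x → Hom S q y → Hom S r z →
    S.op false (S.op true x y) z =
      S.op true x (S.op false y z) + sg (q && r) • S.op true (S.op false x z) y

/-- the lookup function is correct -/
def LOK (L : ℕ → V) : Prop := ∀ j k, k < 1024 → okV (L (j * 1024 + k)) →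
  S.op false (b j) (b k) = val (gk S b) (L (j * 1024 + k))

variable {S b}

theorem tors2 (hG : Gd S) {x : R} (h : x = - x) : x = 0 := by
  apply hG.tors
  have h2 : (2 : ℕ) • x = 0 := by
    rw [two_nsmul]; nth_rw 1 [h]; simp
  rw [show (6 : ℕ) = 3 * 2 from rfl, mul_smul, h2, smul_zero]

theorem brL_spec {L : ℕ → V} (hL : LOK S b L) (s : Bool) (c : ℕ) {x y : ℕ} (hy : y < 1024) :
    Adds (gk S b) (brL L s c x y) True (zc s c • S.op false (b x) (b y)) := by
  intro w h
  obtain ⟨h1, h2, h3⟩ := addc_spec (gk S b) s c (L (x * 1024 + y)) w h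
  refine ⟨trivial, h2, ?_⟩
  rw [hL x y hy h1]
  exact h3

theorem brI_spec {L : ℕ → V} (hG : Gd S) (hb : ∀ i, Hom S (od i) (b i)) (hL : LOK S b L)
    (s : Bool) (c : ℕ) {x y : ℕ} (hx : x < 1024) (hy : y < 1024) :
    Adds (gk S b) (brI L s c x y) True (zc s c • S.op false (b x) (b y)) := by
  intro w h
  unfold brI at h ⊢
  cases h1 : Nat.blt x y with
  | true =>
    rw [h1] at h
    exact brL_spec hL s c hy w h
  | false =>
    rw [h1] at h
    show _ ∧ _ ∧ val _ (brJ L s c x y w) = _
    have h' : okV (brJ L s c x y w) := h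
    unfold brJ at h' ⊢
    cases h2 : Nat.blt y x with
    | true =>
      rw [h2] at h'
      obtain ⟨h3, h4, h5⟩ := brL_spec hL (bx s (bn (ba (od x) (od y)))) c (x := y) hx w h'
      refine ⟨h3, h4, ?_⟩
      show val _ (brL L (bx s (bn (ba (od x) (od y)))) c y x w) = _
      rw [h5, hG.sk _ _ _ _ (hb x) (hb y), zc_bx, bn_eq, ba_eq]
      congr 1
      rw [smul_neg, smul_smul, ← neg_smul]
      congr 1
      cases od x <;> cases od y <;> simp [sg]
    | false =>
      rw [h2] at h'
      have hxy : x = y := by have := blt_false h1; have := blt_false h2; omega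
      subst hxy
      cases h3 : od x with
      | true =>
        rw [h3] at h'
        exact brL_spec hL s c hy w h'
      | false =>
        rw [h3] at h'
        refine ⟨trivial, h', ?_⟩
        show val _ w = _
        have := hG.sk _ _ _ _ (hb x) (hb x)
        rw [h3] at this
        have hz : S.op false (b x) (b x) = 0 := tors2 hG (by simpa [sg] using this)
        rw [hz, smul_zero, zero_add]

theorem joK_spec (i j : ℕ) (s : Bool) (c : ℕ) (t : V) (hi : i < 1024) (hj : j < 1024)
    (h : okV (joK i j s c t)) : okV t ∧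
      val (gk S b) (joK i j s c t) = zc s c • S.op true (b i) (b j) + val (gk S b) t := by
  unfold joK at h ⊢
  rw [fN_eq] at h ⊢
  unfold joK2 at h ⊢
  cases h1 : Nat.ble (nat_lit 1024) (Nat.add (Nat.mul i (nat_lit 1024)) j) with
  | false => rw [h1] at h; exact h.elim
  | true =>
    rw [h1] at h
    refine ⟨h, ?_⟩
    have h2 : 1024 ≤ i * 1024 + j := ble_true h1
    show zc s c • gk S b (i * 1024 + j) + _ = _
    rw [gk_pair S b hi hj h2]

theorem joE_spec (hG : Gd S) (hb : ∀ i, Hom S (od i) (b i)) (i j : ℕ) (s : Bool) (c : ℕ) (t : V)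
    (hi : i < 1024) (hj : j < 1024) (h : okV (joE i j s c t)) : okV t ∧
      val (gk S b) (joE i j s c t) = zc s c • S.op true (b i) (b j) + val (gk S b) t := by
  unfold joE at h ⊢
  cases h1 : Nat.blt i j with
  | true =>
    rw [h1] at h
    exact joK_spec i j s c t hi hj h
  | false =>
    rw [h1] at h
    show _ ∧ val _ (joF i j s c t) = _
    have h' : okV (joF i j s c t) := h
    unfold joF at h' ⊢
    cases h2 : Nat.blt j i with
    | true =>
      rw [h2] at h'
      obtain ⟨h3, h4⟩ := joK_spec (S := S) (b := b) j i _ c t hj hi h'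
      refine ⟨h3, ?_⟩
      show val _ (joK j i (bx s (ba (od i) (od j))) c t) = _
      rw [h4, hG.sy _ _ _ _ (hb i) (hb j), zc_bx, ba_eq, smul_smul]
      congr 2
      ring
    | false =>
      rw [h2] at h'
      have hij : i = j := by have := blt_false h1; have := blt_false h2; omega
      subst hij
      cases h3 : od i with
      | false =>
        rw [h3] at h'
        exact joK_spec i i s c t hi hj h'
      | true =>
        rw [h3] at h'
        refine ⟨h', ?_⟩
        show val _ t = _
        have := hG.sy _ _ _ _ (hb i) (hb i)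
        rw [h3] at this
        have hz : S.op true (b i) (b i) = 0 := tors2 hG (by simpa [sg] using this)
        rw [hz, smul_zero, zero_add]

theorem joL_spec (hG : Gd S) (hb : ∀ i, Hom S (od i) (b i)) (i : ℕ) (s : Bool) (c : ℕ)
    (hi : i < 1024) : ∀ v : V, okV (joL i s c v) → okV v ∧
      val (gk S b) (joL i s c v) = zc s c • S.op true (b i) (val (gk S b) v)
  | .nil, _ => ⟨trivial, by show (0 : R) = _; simp [val]⟩
  | .bad, h => h.elim
  | .cons j t a v, h => by
    have e : joL i s c (.cons j t a v) = @Bool.rec (fun _ => V) V.bad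
      (joE i j (bx s t) (Nat.mul c a) (joL i s c v)) (Nat.blt j (nat_lit 1024)) := rfl
    rw [e] at h ⊢
    cases h1 : Nat.blt j (nat_lit 1024) with
    | false => rw [h1] at h; exact h.elim
    | true =>
      rw [h1] at h
      have hj : j < 1024 := blt_true h1
      obtain ⟨h2, h3⟩ := joE_spec hG hb i j _ _ _ hi hj h
      obtain ⟨h4, h5⟩ := joL_spec hG hb i s c hi v h2
      refine ⟨h4, ?_⟩
      show val _ (joE i j (bx s t) (Nat.mul c a) (joL i s c v)) =
        _ • S.op true (b i) (zc t a • gk S b j + val (gk S b) v)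
      rw [h3, h5, zc_mul, gk_id S b hj, map_add, map_zsmul, smul_add, smul_smul]

theorem joR_spec (hG : Gd S) (hb : ∀ i, Hom S (od i) (b i)) (k : ℕ) (s : Bool) (c : ℕ)
    (hk : k < 1024) : ∀ v : V, okV (joR k s c v) → okV v ∧
      val (gk S b) (joR k s c v) = zc s c • S.op true (val (gk S b) v) (b k)
  | .nil, _ => ⟨trivial, by show (0 : R) = _; simp [val]⟩
  | .bad, h => h.elim
  | .cons j t a v, h => by
    have e : joR k s c (.cons j t a v) = @Bool.rec (fun _ => V) V.bad
      (joE j k (bx s t) (Nat.mul c a) (joR k s c v)) (Nat.blt j (nat_lit 1024)) := rfl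
    rw [e] at h ⊢
    cases h1 : Nat.blt j (nat_lit 1024) with
    | false => rw [h1] at h; exact h.elim
    | true =>
      rw [h1] at h
      have hj : j < 1024 := blt_true h1
      obtain ⟨h2, h3⟩ := joE_spec hG hb j k _ _ _ hj hk h
      obtain ⟨h4, h5⟩ := joR_spec hG hb k s c hk v h2
      refine ⟨h4, ?_⟩
      show val _ (joE j k (bx s t) (Nat.mul c a) (joR k s c v)) =
        _ • S.op true (zc t a • gk S b j + val (gk S b) v) (b k)
      rw [h3, h5, zc_mul, gk_id S b hj, map_add, map_zsmul, AddMonoidHom.add_apply,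
        AddMonoidHom.smul_apply, smul_add, smul_smul]

theorem zc_one : zc false (nat_lit 1) = 1 := rfl

theorem pairBr_spec {L : ℕ → V} (hG : Gd S) (hb : ∀ i, Hom S (od i) (b i)) (hL : LOK S b L)
    (s : Bool) (c : ℕ) {j k y : ℕ} (hj : j < 1024) (hk : k < 1024) (hy : y < 1024) :
    Adds (gk S b) (pairBr L s c j k y) True
      (zc s c • S.op false (S.op true (b j) (b k)) (b y)) := by
  intro w h
  unfold pairBr at h ⊢
  obtain ⟨h1, h2, h3⟩ := addc_spec (gk S b) _ _ _ _ h
  obtain ⟨h4, h5, h6⟩ := addc_spec (gk S b) _ _ _ _ h2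
  obtain ⟨h7, h8⟩ := joL_spec hG hb j s c hj _ h1
  obtain ⟨h9, h10⟩ := joR_spec hG hb k _ c hk _ h4
  obtain ⟨_, _, h11⟩ := brI_spec hG hb hL false (nat_lit 1) hk hy _ h7
  obtain ⟨_, _, h12⟩ := brI_spec hG hb hL false (nat_lit 1) hj hy _ h9
  refine ⟨trivial, h5, ?_⟩
  rw [h3, h6, h8, h10, h11, h12, zc_one, one_smul, one_smul, one_smul, one_smul,
    hG.m2 _ _ _ _ _ _ (hb j) (hb k) (hb y), zc_bx, ba_eq]
  simp only [val, add_zero, smul_add, smul_smul, mul_comm, add_assoc]

theorem brP_spec {L : ℕ → V} (hG : Gd S) (hb : ∀ i, Hom S (od i) (b i)) (hL : LOK S b L)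
    (s : Bool) (c : ℕ) {x y : ℕ} (hx : 1024 ≤ x) (hy : y < 1024) :
    Adds (gk S b) (brP L s c x y) (x < 1048576) (zc s c • S.op false (gk S b x) (gk S b y)) := by
  intro w h
  unfold brP at h ⊢
  cases h1 : Nat.blt x (nat_lit 1048576) with
  | false => rw [h1] at h; exact h.elim
  | true =>
    rw [h1] at h
    have hx2 : x < 1048576 := blt_true h1
    have h' : okV (fN (Nat.div x (nat_lit 1024)) fun j => fN (Nat.mod x (nat_lit 1024)) fun k =>
      pairBr L s c j k y w) := h
    show _ ∧ _ ∧ val _ (fN (Nat.div x (nat_lit 1024)) fun j => fN (Nat.mod x (nat_lit 1024))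
      fun k => pairBr L s c j k y w) = _
    rw [fN_eq, fN_eq] at h' ⊢
    obtain ⟨_, h3, h4⟩ := pairBr_spec hG hb hL s c (j := x / 1024) (k := x % 1024) (y := y)
      (by omega) (by omega) hy w h'
    refine ⟨hx2, h3, ?_⟩
    rw [gk_pair' S b hx hx2, gk_id S b hy]
    exact h4

theorem pk_eq (x : ℕ) : pk x = od (x / 1024 + x) := rfl

theorem pk_id {x : ℕ} (h : x < 1024) : pk x = od x := by
  rw [pk_eq, Nat.div_eq_of_lt h, zero_add]

theorem hom_gk (hb : ∀ i, Hom S (od i) (b i)) {x : ℕ} (h : x < 1048576) :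
    Hom S (pk x) (gk S b x) := by
  by_cases h1 : x < 1024
  · rw [gk_id S b h1, pk_id h1]; exact hb x
  · rw [gk_pair' S b (by omega) h]
    have h2 := hb (x / 1024)
    have h3 := hb (x % 1024)
    have e : pk x = xor (od (x / 1024)) (od (x % 1024)) := by
      rw [pk_eq, od_add]
      congr 1
      rw [od_eq, od_eq]
      congr 1
      rw [eq_iff_iff]
      omega
    unfold Hom at *
    rw [S.tau_op, h2, h3, e, ← sg_mul]
    simp only [map_zsmul, AddMonoidHom.coe_smul, Pi.smul_apply, mul_smul]
    rw [smul_comm]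

theorem brA_spec {L : ℕ → V} (hG : Gd S) (hb : ∀ i, Hom S (od i) (b i)) (hL : LOK S b L)
    (s : Bool) (c : ℕ) {x : ℕ} (y : ℕ) (hx : x < 1024) :
    Adds (gk S b) (brA L s c x y) True (zc s c • S.op false (gk S b x) (gk S b y)) := by
  intro w h
  unfold brA at h ⊢
  cases h1 : Nat.blt y (nat_lit 1024) with
  | true =>
    rw [h1] at h
    have hy : y < 1024 := blt_true h1
    rw [gk_id S b hx, gk_id S b hy]
    exact brI_spec hG hb hL s c hx hy w h
  | false =>
    rw [h1] at h
    have hy : 1024 ≤ y := blt_false h1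
    obtain ⟨h3, h4, h5⟩ := brP_spec hG hb hL (bx s (bn (ba (od x) (pk y)))) c hy hx w h
    refine ⟨trivial, h4, ?_⟩
    show val _ (brP L (bx s (bn (ba (od x) (pk y)))) c y x w) = _
    have hy2 : Hom S (pk y) (gk S b y) := hom_gk hb h3
    have hx2 : Hom S (od x) (gk S b x) := by rw [gk_id S b hx]; exact hb x
    rw [h5, hG.sk _ _ _ _ hx2 hy2, zc_bx, bn_eq, ba_eq]
    congr 1
    rw [smul_neg, smul_smul, ← neg_smul]
    congr 1
    cases od x <;> cases pk y <;> simp [sg]

theorem brB_spec {L : ℕ → V} (hG : Gd S) (hb : ∀ i, Hom S (od i) (b i)) (hL : LOK S b L)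
    (s : Bool) (c : ℕ) {x : ℕ} (y : ℕ) (hx : 1024 ≤ x) :
    Adds (gk S b) (brB' L s c x y) True (zc s c • S.op false (gk S b x) (gk S b y)) := by
  intro w h
  unfold brB' at h ⊢
  cases h1 : Nat.blt y (nat_lit 1024) with
  | false => rw [h1] at h; exact h.elim
  | true =>
    rw [h1] at h
    obtain ⟨_, h4, h5⟩ := brP_spec hG hb hL s c hx (blt_true h1) w h
    exact ⟨trivial, h4, h5⟩

/-- sums over a vector of adding functions -/
theorem rec_spec (f : ℕ → R →+ R) (s : Bool) (c : ℕ) (i : ℕ)
    (G : ℕ → Bool → ℕ → V → (V → V) → V → V) (H : ℕ → Bool → ℕ → V → V)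
    (hG : ∀ j t a v F acc, G j t a v F acc = F (H j t a acc))
    (hH : ∀ j t a, Adds (gk S b) (H j t a) True (zc s c • zc t a • f i (gk S b j))) : ∀ v : V,
    Adds (gk S b) (@V.rec (fun _ => V → V) (fun acc => acc) (fun _ => V.bad) G v) True
      (zc s c • f i (val (gk S b) v))
  | .nil => fun w h => ⟨trivial, h, by show val _ w = _; simp [val]⟩
  | .bad => fun _ h => h.elim
  | .cons j t a v => by
    intro w h
    have ih := rec_spec f s c i G H hG hH v
    have e : @V.rec (fun _ => V → V) (fun acc => acc) (fun _ => V.bad) G (.cons j t a v) w =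
        @V.rec (fun _ => V → V) (fun acc => acc) (fun _ => V.bad) G v (H j t a w) :=
      hG j t a v _ w
    rw [e] at h ⊢
    obtain ⟨_, h2, h3⟩ := ih _ h
    obtain ⟨_, h4, h5⟩ := hH j t a w h2
    refine ⟨trivial, h4, ?_⟩
    rw [h3, h5]
    show _ = zc s c • f i (zc t a • gk S b j + val (gk S b) v) + _
    rw [map_add, map_zsmul, smul_add]
    abel

theorem brRow_spec {L : ℕ → V} (hG : Gd S) (hb : ∀ i, Hom S (od i) (b i)) (hL : LOK S b L)
    (i : ℕ) (s : Bool) (c : ℕ) (v : V) :
    Adds (gk S b) (brRow L i s c v) True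
      (zc s c • S.op false (gk S b i) (val (gk S b) v)) := by
  intro w h
  unfold brRow at h ⊢
  cases h1 : Nat.blt i (nat_lit 1024) with
  | true =>
    rw [h1] at h
    refine rec_spec (fun i => S.op false (gk S b i)) s c i (rA L i s c)
      (fun j t a acc => brA L (bx s t) (Nat.mul c a) i j acc) (fun _ _ _ _ _ _ => rfl)
      (fun j t a => ?_) v w h
    rw [smul_smul, ← zc_mul]
    exact brA_spec hG hb hL _ _ j (blt_true h1)
  | false =>
    rw [h1] at h
    refine rec_spec (fun i => S.op false (gk S b i)) s c i (rB L i s c)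
      (fun j t a acc => brB' L (bx s t) (Nat.mul c a) i j acc) (fun _ _ _ _ _ _ => rfl)
      (fun j t a => ?_) v w h
    rw [smul_smul, ← zc_mul]
    exact brB_spec hG hb hL _ _ j (blt_false h1)

theorem joRow_spec (hG : Gd S) (hb : ∀ i, Hom S (od i) (b i))
    (i : ℕ) (s : Bool) (c : ℕ) (v : V) :
    Adds (gk S b) (joRow i s c v) True
      (zc s c • S.op true (gk S b i) (val (gk S b) v)) := by
  intro w h
  unfold joRow at h ⊢
  cases h1 : Nat.blt i (nat_lit 1024) with
  | false => rw [h1] at h; exact h.elim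
  | true =>
    rw [h1] at h
    have hi : i < 1024 := blt_true h1
    obtain ⟨h2, h3, h4⟩ := addc_spec (gk S b) _ _ _ _ h
    obtain ⟨_, h6⟩ := joL_spec hG hb i s c hi v h2
    refine ⟨trivial, h3, ?_⟩
    show val _ (addc false (nat_lit 1) (joL i s c v) w) = _
    rw [h4, h6, zc_one, one_smul, gk_id S b hi]

theorem mulV_spec {L : ℕ → V} (hG : Gd S) (hb : ∀ i, Hom S (od i) (b i)) (hL : LOK S b L)
    (o s : Bool) (c : ℕ) (u w : V) :
    Adds (gk S b) (mulV L o s c u w) True
      (zc s c • S.op o (val (gk S b) u) (val (gk S b) w)) := by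
  intro acc h
  have key : ∀ (G : ℕ → Bool → ℕ → V → (V → V) → V → V) (H : ℕ → Bool → ℕ → V → V),
      (∀ j t a v F acc, G j t a v F acc = F (H j t a acc)) →
      (∀ j t a, Adds (gk S b) (H j t a) True
        (zc s c • zc t a • S.op o (gk S b j) (val (gk S b) w))) →
      okV (@V.rec (fun _ => V → V) (fun acc => acc) (fun _ => V.bad) G u acc) →
      True ∧ okV acc ∧
      val (gk S b) (@V.rec (fun _ => V → V) (fun acc => acc) (fun _ => V.bad) G u acc) =
        zc s c • S.op o (val (gk S b) u) (val (gk S b) w) + val (gk S b) acc := by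
    intro G H hG' hH h
    have := rec_spec (S := S) (b := b)
      (fun _ => (S.op o).flip (val (gk S b) w)) s c 0 G H hG' (fun j t a => by
        simpa using hH j t a) u acc h
    simpa using this
  unfold mulV at h ⊢
  cases o with
  | false =>
    refine key (mBr L s c w) (fun i t a acc => brRow L i (bx s t) (Nat.mul c a) w acc)
      (fun _ _ _ _ _ _ => rfl) (fun j t a => ?_) h
    rw [smul_smul, ← zc_mul]
    exact brRow_spec hG hb hL _ _ _ _
  | true =>
    refine key (mJo s c w) (fun i t a acc => joRow i (bx s t) (Nat.mul c a) w acc)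
      (fun _ _ _ _ _ _ => rfl) (fun j t a => ?_) h
    rw [smul_smul, ← zc_mul]
    exact joRow_spec hG hb _ _ _ _

end

end Pool.Agent.TP
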