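import Pool.Agent.Helper19_TP.Snd2
import Pool.Agent.Helper19_TP.Holds

/-! Soundness of the kernel checker, part 3: expressions and axioms (helper19). -/

set_option autoImplicit false

namespace Pool.Agent.TP

/-- inversions between two lists -/
def cross (p : ℕ → Bool) : List ℕ → List ℕ → Bool
  | [], _ => false
  | i :: l, m => xor (p i && cnt p (m.filter fun j => Nat.blt j i)) (cross p l m)

theorem inv_append (p : ℕ → Bool) : ∀ l m : List ℕ,
    inv p (l ++ m) = xor (xor (inv p l) (cross p l m)) (inv p m)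
  | [], m => by simp [inv, cross]
  | i :: l, m => by
    rw [List.cons_append, inv, List.filter_append, cnt_append, inv_append p l m, inv, cross]
    generalize cnt p (l.filter fun j => Nat.blt j i) = a
    generalize cnt p (m.filter fun j => Nat.blt j i) = b
    generalize inv p l = c
    generalize cross p l m = d
    generalize inv p m = e
    cases p i <;> cases a <;> cases b <;> cases c <;> cases d <;> cases e <;> rfl

theorem cross_perm_right (p : ℕ → Bool) {m m' : List ℕ} (h : m.Perm m') : ∀ l : List ℕ,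
    cross p l m = cross p l m'
  | [] => rfl
  | i :: l => by rw [cross, cross, cross_perm_right p h l, cnt_perm p (h.filter _)]

theorem cross_perm_left (p : ℕ → Bool) (m : List ℕ) {l l' : List ℕ} (h : l.Perm l') :
    cross p l m = cross p l' m := by
  induction h with
  | nil => rfl
  | cons x _ ih => rw [cross, cross, ih]
  | swap x y l =>
    simp only [cross]
    rw [← Bool.xor_assoc, ← Bool.xor_assoc, Bool.xor_comm (p y && _)]
  | trans _ _ h1 h2 => exact h1.trans h2

theorem cnt_congr (p q : ℕ → Bool) : ∀ l : List ℕ, (∀ i ∈ l, p i = q i) → cnt p l = cnt q l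
  | [], _ => rfl
  | i :: l, h => by
    rw [cnt, cnt, h i List.mem_cons_self,
      cnt_congr p q l fun j hj => h j (List.mem_cons_of_mem _ hj)]

theorem cross_congr (p q : ℕ → Bool) (m : List ℕ) (hm : ∀ i ∈ m, p i = q i) : ∀ l : List ℕ,
    (∀ i ∈ l, p i = q i) → cross p l m = cross q l m
  | [], _ => rfl
  | i :: l, h => by
    rw [cross, cross, h i List.mem_cons_self,
      cross_congr p q m hm l fun j hj => h j (List.mem_cons_of_mem _ hj),
      cnt_congr p q (m.filter _) fun j hj => hm j (List.mem_filter.mp hj).1]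

/-- the polynomial of an expression -/
def toPl : Ex → Pl
  | .v i => [(1, .v i)]
  | .op _ o a b => (toPl a).flatMap fun x => (toPl b).map fun y => (x.1 * y.1, .op o x.2 y.2)
  | .add s c a b => (toPl a).map (fun x => (zc s c * x.1, x.2)) ++ toPl b

/-- the letters of an expression -/
def lvs : Ex → List ℕ
  | .v i => [i]
  | .op _ _ a b => lvs a ++ lvs b
  | .add _ _ _ b => lvs b

/-- the sign tables are right for the parities `P` -/
noncomputable def wf (P : ℕ) : Ex → Bool
  | .v _ => true
  | .op g _ a b => wf P a && (wf P b && (bit g P == cross (bit P) (lvs a) (lvs b)))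
  | .add _ _ a b => wf P a && (wf P b && (lvs a).isPerm (lvs b))

section
variable {R : Type} [AddCommGroup R] (S : Sup R)

/-- super value of an expression -/
noncomputable def sv (P : ℕ) (x : ℕ → R) : Ex → R
  | .v i => x i
  | .op g o a b => sg (bit g P) • S.op o (sv P x a) (sv P x b)
  | .add s c a b => zc s c • sv P x a + sv P x b

theorem toPl_perm (P : ℕ) : ∀ e : Ex, wf P e = true → ∀ ct ∈ toPl e, ct.2.leaves.Perm (lvs e)
  | .v i, _, ct, h => by
    rw [toPl, List.mem_singleton] at h
    subst h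
    exact List.Perm.refl _
  | .op g o a b, hw, ct, h => by
    rw [wf, Bool.and_eq_true, Bool.and_eq_true] at hw
    rw [toPl, List.mem_flatMap] at h
    obtain ⟨x, hx, h⟩ := h
    rw [List.mem_map] at h
    obtain ⟨y, hy, rfl⟩ := h
    exact (toPl_perm P a hw.1 x hx).append (toPl_perm P b hw.2.1 y hy)
  | .add s c a b, hw, ct, h => by
    rw [wf, Bool.and_eq_true, Bool.and_eq_true] at hw
    rw [toPl, List.mem_append, List.mem_map] at h
    rcases h with ⟨x, hx, rfl⟩ | h
    · exact (toPl_perm P a hw.1 x hx).trans (List.isPerm_iff.mp hw.2.2)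
    · exact toPl_perm P b hw.2.1 ct h

theorem evs_append (p : ℕ → Bool) (v : ℕ → R) (f g : Pl) :
    evs S p v (f ++ g) = evs S p v f + evs S p v g := by simp [evs]

theorem evs_map_smul (p : ℕ → Bool) (v : ℕ → R) (c : ℤ) (f : Pl) :
    evs S p v (f.map fun x => (c * x.1, x.2)) = c • evs S p v f := by
  induction f with
  | nil => simp [evs]
  | cons x f ih => rw [List.map_cons, evs_cons, ih, evs_cons, smul_add, smul_smul, mul_assoc]

theorem evs_map_op (p : ℕ → Bool) (v : ℕ → R) (o : Bool) (c : ℤ) (t : Tm) (κ : Bool) :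
    ∀ f : Pl, (∀ y ∈ f, cross p t.leaves y.2.leaves = κ) →
    evs S p v (f.map fun y => (c * y.1, .op o t y.2)) =
      (c * sg (inv p t.leaves) * sg κ) • S.op o (t.ev S v) (evs S p v f)
  | [], _ => by simp [evs]
  | y :: f, h => by
    rw [List.map_cons, evs_cons, evs_map_op p v o c t κ f fun z hz => h z
      (List.mem_cons_of_mem _ hz), evs_cons, map_add, smul_add, map_zsmul, smul_smul]
    congr 1
    rw [Tm.leaves, inv_append, h y List.mem_cons_self, ← sg_mul, ← sg_mul, Tm.ev]
    congr 1
    ring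

theorem evs_flatMap_op (p : ℕ → Bool) (v : ℕ → R) (o : Bool) (κ : Bool) (g : Pl) :
    ∀ f : Pl, (∀ x ∈ f, ∀ y ∈ g, cross p x.2.leaves y.2.leaves = κ) →
    evs S p v (f.flatMap fun x => g.map fun y => (x.1 * y.1, .op o x.2 y.2)) =
      sg κ • S.op o (evs S p v f) (evs S p v g)
  | [], _ => by simp [evs]
  | x :: f, h => by
    rw [List.flatMap_cons, evs_append, evs_map_op S p v o x.1 x.2 κ g (h x List.mem_cons_self),
      evs_flatMap_op p v o κ g f fun z hz => h z (List.mem_cons_of_mem _ hz), evs_cons, map_add,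
      AddMonoidHom.add_apply, smul_add, map_zsmul, AddMonoidHom.smul_apply, smul_smul]
    congr 2
    ring

theorem sv_eq (P : ℕ) (p : ℕ → Bool) (v : ℕ → R) : ∀ e : Ex, wf P e = true →
    (∀ i ∈ lvs e, p i = bit P i) → evs S p v (toPl e) = sv S P v e
  | .v i, _, _ => by
    simp [toPl, evs, sv, Tm.leaves, inv, cnt, sg, Tm.ev]
  | .op g o a b, hw, hp => by
    rw [wf, Bool.and_eq_true, Bool.and_eq_true] at hw
    have ha : ∀ i ∈ lvs a, p i = bit P i := fun i hi => hp i (by simp [lvs, hi])
    have hb : ∀ i ∈ lvs b, p i = bit P i := fun i hi => hp i (by simp [lvs, hi])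
    rw [toPl, evs_flatMap_op S p v o (bit g P), sv_eq P p v a hw.1 ha,
      sv_eq P p v b hw.2.1 hb, sv]
    intro x hx y hy
    have h1 := toPl_perm P a hw.1 x hx
    have h2 := toPl_perm P b hw.2.1 y hy
    have h3 : bit g P = cross (bit P) (lvs a) (lvs b) := by simpa using hw.2.2
    rw [cross_perm_right p h2, cross_perm_left p _ h1, h3]
    exact cross_congr p (bit P) _ hb _ ha
  | .add s c a b, hw, hp => by
    rw [wf, Bool.and_eq_true, Bool.and_eq_true] at hw
    have ha : ∀ i ∈ lvs a, p i = bit P i := fun i hi => hp i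
      ((List.isPerm_iff.mp hw.2.2).mem_iff.mp hi)
    rw [toPl, evs_append, evs_map_smul, sv_eq P p v a hw.1 ha, sv_eq P p v b hw.2.1 hp, sv]

/-- no signs -/
def zg : Ex → Bool
  | .v _ => true
  | .op g _ a b => zg a && (zg b && g == 0)
  | .add _ _ a b => zg a && zg b

theorem evP_map_op (v : ℕ → R) (o : Bool) (c : ℤ) (t : Tm) (f : Pl) :
    evP S v (f.map fun y => (c * y.1, .op o t y.2)) = c • S.op o (t.ev S v) (evP S v f) := by
  induction f with
  | nil => simp
  | cons y f ih => simp [ih, Tm.ev, mul_smul]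

theorem evP_flatMap_op (v : ℕ → R) (o : Bool) (g f : Pl) :
    evP S v (f.flatMap fun x => g.map fun y => (x.1 * y.1, .op o x.2 y.2)) =
      S.op o (evP S v f) (evP S v g) := by
  induction f with
  | nil => simp
  | cons x f ih => simp [List.flatMap_cons, ih, evP_map_op]

theorem sv_evP (P : ℕ) (v : ℕ → R) : ∀ e : Ex, zg e = true → evP S v (toPl e) = sv S P v e
  | .v i, _ => by simp [toPl, sv, Tm.ev]
  | .op g o a b, h => by
    rw [zg, Bool.and_eq_true, Bool.and_eq_true] at h
    have hg : g = 0 := by simpa using h.2.2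
    have hbit : bit g P = false := by
      rw [hg]; unfold bit; rw [nz_eq]
      have : Nat.mod (Nat.shiftRight 0 P) 2 = 0 := by
        show (0 >>> P) % 2 = 0
        simp
      simp
    rw [toPl, evP_flatMap_op, sv_evP P v a h.1, sv_evP P v b h.2.1, sv, hbit]
    simp [sg]
  | .add s c a b, h => by
    rw [zg, Bool.and_eq_true] at h
    rw [toPl, evP_append, evP_map_smul, sv_evP P v a h.1, sv_evP P v b h.2, sv]

variable {S} {b : ℕ → R}

theorem evE_spec {Lk : Bool → ℕ → V} (hG : Gd S) (hb : ∀ i, Hom S (od i) (b i))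
    (hL : ∀ top, LOK S b (Lk top)) (args P : ℕ) : ∀ (e : Ex) (top s : Bool) (c : ℕ),
    Adds (gk S b) (evE Lk args P e top s c) True
      (zc s c • sv S P (fun i => gk S b (arg args i)) e)
  | .v i, top, s, c => by
    intro w h
    have e : evE Lk args P (.v i) top s c w =
      fN (arg args i) fun x => addc s c (V.cons x false (nat_lit 1) V.nil) w := rfl
    rw [e, fN_eq] at h ⊢
    obtain ⟨_, h2, h3⟩ := addc_spec (gk S b) _ _ _ _ h
    refine ⟨trivial, h2, ?_⟩
    rw [h3]
    simp [val, sv, zc_one]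
  | .op g o A B, top, s, c => by
    intro w h
    have e : evE Lk args P (.op g o A B) top s c w =
      force (evE Lk args P A false false (nat_lit 1) V.nil)
        (evO1 Lk o (evE Lk args P B) top (bx s (bit g P)) c w) := rfl
    rw [e] at h ⊢
    obtain ⟨h1, h2⟩ := force_eq _ _ h
    rw [h2] at h ⊢
    unfold evO1 at h ⊢
    obtain ⟨h3, h4⟩ := force_eq _ _ h
    rw [h4] at h ⊢
    unfold evO2 at h ⊢
    obtain ⟨_, h5, h6⟩ := mulV_spec hG hb (hL top) o (bx s (bit g P)) c _ _ w h
    obtain ⟨_, _, h7⟩ := evE_spec hG hb hL args P A false false (nat_lit 1) _ h1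
    obtain ⟨_, _, h8⟩ := evE_spec hG hb hL args P B false false (nat_lit 1) _ h3
    refine ⟨trivial, h5, ?_⟩
    rw [h6, h7, h8, zc_bx, sv]
    simp only [val, zc_one, one_smul, add_zero, smul_smul, mul_comm]
  | .add s' c' A B, top, s, c => by
    intro w h
    have e : evE Lk args P (.add s' c' A B) top s c w =
      evE Lk args P A top (bx s s') (Nat.mul c c') (evE Lk args P B top s c w) := rfl
    rw [e] at h ⊢
    obtain ⟨_, h1, h2⟩ := evE_spec hG hb hL args P A _ _ _ _ h
    obtain ⟨_, h3, h4⟩ := evE_spec hG hb hL args P B _ _ _ _ h1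
    refine ⟨trivial, h3, ?_⟩
    rw [h2, h4, zc_mul, sv, smul_add, smul_smul, add_assoc]

end

theorem bit_eq (X i : ℕ) : bit X i = decide (X / 2 ^ i % 2 = 1) := by
  unfold bit
  rw [nz_eq]
  show (!decide ((X >>> i) % 2 = 0)) = _
  rw [Nat.shiftRight_eq_div_pow]
  rcases Nat.mod_two_eq_zero_or_one (X / 2 ^ i) with h | h <;> simp [h]

theorem pm_spec (args : ℕ) : ∀ m : ℕ, pm args m < 2 ^ m ∧
    ∀ i < m, bit (pm args m) i = pk (arg args i)
  | 0 => ⟨by show 0 < 1; decide, fun i hi => absurd hi (Nat.not_lt_zero i)⟩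
  | m + 1 => by
    obtain ⟨h1, h2⟩ := pm_spec args m
    have e : pm args (m + 1) =
      pm args m + 2 ^ m * ((arg args m / 1024 + arg args m) % 2) := rfl
    set A := pm args m
    set d := (arg args m / 1024 + arg args m) % 2 with hd
    have hd2 : d < 2 := Nat.mod_lt _ (by decide)
    refine ⟨?_, fun i hi => ?_⟩
    · rw [e, pow_succ]
      have : 2 ^ m * d ≤ 2 ^ m * 1 := Nat.mul_le_mul_left _ (by omega)
      omega
    · rw [e, bit_eq]
      rcases Nat.lt_or_ge i m with him | him
      · rw [← h2 i him, bit_eq]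
        have e2 : 2 ^ m * d = 2 ^ i * (2 * (2 ^ (m - i - 1) * d)) := by
          have : 2 ^ m = 2 ^ i * (2 * 2 ^ (m - i - 1)) := by
            rw [← pow_succ', ← pow_add]; congr 1; omega
          rw [this]; ring
        rw [e2, Nat.add_mul_div_left _ _ (by positivity), Nat.add_mul_mod_self_left]
      · have him' : i = m := by omega
        subst him'
        rw [Nat.add_mul_div_left _ _ (by positivity), Nat.div_eq_of_lt h1, zero_add, pk_eq, od_eq,
          ← hd, Nat.mod_eq_of_lt hd2]

/-- an axiom which may be used by the checker -/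
noncomputable def axOK (e : Ex) : Bool :=
  (List.range 64).all (fun P => wf P e) && ((lvs e).all (fun i => Nat.blt i 6) &&
    decide (lvs e).Nodup)

theorem arg_lt (args i : ℕ) : arg args i < 1048576 := Nat.mod_lt _ (by decide)

section
variable {R : Type} [AddCommGroup R] {S : Sup R} {b : ℕ → R}

theorem axOK_ML {e : Ex} (h : axOK e = true) : ML (toPl e) := by
  rw [axOK, Bool.and_eq_true, Bool.and_eq_true, List.all_eq_true] at h
  exact ⟨lvs e, by simpa using h.2.2, toPl_perm 0 e (h.1 0 (by simp))⟩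

theorem inst_zero (hb : ∀ i, Hom S (od i) (b i)) (args : ℕ) {e : Ex} (he : axOK e = true)
    (hS : SId S (toPl e)) : sv S (pm args 6) (fun i => gk S b (arg args i)) e = 0 := by
  rw [axOK, Bool.and_eq_true, Bool.and_eq_true, List.all_eq_true, List.all_eq_true] at he
  obtain ⟨h1, h2⟩ := pm_spec args 6
  rw [← sv_eq S (pm args 6) (fun i => pk (arg args i)) _ e (he.1 _ (List.mem_range.mpr h1))
    (fun i hi => (h2 i (blt_true (he.2.1 i hi))).symm)]
  exact hS _ _ fun i => hom_gk hb (arg_lt args i)

/-- every axiom of the list holds -/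
def AXs (S : Sup R) : AL → Prop
  | .nil => True
  | .cons e t => (axOK e = true ∧ SId S (toPl e)) ∧ AXs S t

theorem nth_zero (hb : ∀ i, Hom S (od i) (b i)) (args : ℕ) : ∀ (L : AL) (i : ℕ), AXs S L →
    sv S (pm args 6) (fun i => gk S b (arg args i)) (nth L i) = 0
  | .nil, i, _ => by
    show zc true 1 • gk S b (arg args 0) + gk S b (arg args 0) = 0
    simp [zc]
  | .cons e t, 0, h => inst_zero hb args h.1.1 h.1.2
  | .cons e t, i + 1, h => nth_zero hb args t i h.2

theorem addCt_spec {Lk : Bool → ℕ → V} (hG : Gd S) (hb : ∀ i, Hom S (od i) (b i))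
    (hL : ∀ top, LOK S b (Lk top)) (L : AL) (hA : AXs S L) : ∀ ct : Ct,
    Adds (gk S b) (addCt Lk L ct) True 0
  | .nil => fun w h => ⟨trivial, h, by show val _ w = _; simp⟩
  | .cons s c ax args t => by
    intro w h
    have e : addCt Lk L (.cons s c ax args t) w =
      fN (pm args (nat_lit 6)) fun P =>
        force (evE Lk args P (nth L ax) true s c w) (addCt Lk L t) := rfl
    rw [e, fN_eq] at h ⊢
    obtain ⟨h1, h2⟩ := force_eq _ _ h
    rw [h2] at h ⊢
    obtain ⟨_, h3, h4⟩ := addCt_spec hG hb hL L hA t _ h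
    obtain ⟨_, h5, h6⟩ := evE_spec hG hb hL args _ _ _ _ _ _ h3
    refine ⟨trivial, h5, ?_⟩
    rw [h4, h6]
    have := nth_zero hb args L ax hA
    rw [show pm args (nat_lit 6) = pm args 6 from rfl, this]
    simp

end

end Pool.Agent.TP
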