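import Pool.Agent.Helper19_TP.Snd3

/-! Soundness of the kernel checker, part 4: tables and the final theorem (helper19). -/

set_option autoImplicit false

namespace Pool.Agent.TP

/-- symmetry of the Jordan product -/
def symP : Pl := [(1, .op true (.v 0) (.v 1)), (-1, .op true (.v 1) (.v 0))]

/-- the Leibniz rule -/
def m2P : Pl := [(1, .op false (.op true (.v 0) (.v 1)) (.v 2)),
  (-1, .op true (.v 0) (.op false (.v 1) (.v 2))),
  (-1, .op true (.op false (.v 0) (.v 2)) (.v 1))]

section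
variable {R : Type} [AddCommGroup R] {S : Sup R} {b : ℕ → R}

theorem hom_three {p q r : Bool} {x y z : R} (hx : Hom S p x) (hy : Hom S q y)
    (hz : Hom S r z) (i : ℕ) : Hom S (if i = 0 then p else if i = 1 then q else r)
      (if i = 0 then x else if i = 1 then y else z) := by
  by_cases h0 : i = 0
  · simpa [h0] using hx
  · by_cases h1 : i = 1
    · simpa [h1] using hy
    · simpa [h0, h1] using hz

theorem Gd.of (ht : ∀ x : R, (6 : ℕ) • x = 0 → x = 0) (h1 : SId S skewP) (h2 : SId S symP)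
    (h3 : SId S m2P) : Gd S where
  tors := ht
  sk p q x y hx hy := by
    have := h1 _ _ (hom_three hx hy (hom_zero S false))
    simp [evs, skewP, Tm.ev, Tm.leaves, inv, cnt] at this
    have e : S.op false x y + sg (p && q) • S.op false y x = 0 := by
      cases p <;> cases q <;> simpa [sg] using this
    exact eq_neg_of_add_eq_zero_left e
  sy p q x y hx hy := by
    have := h2 _ _ (hom_three hx hy (hom_zero S false))
    simp [evs, symP, Tm.ev, Tm.leaves, inv, cnt] at this
    have e : S.op true x y - sg (p && q) • S.op true y x = 0 := by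
      cases p <;> cases q <;> simpa [sg, sub_eq_add_neg] using this
    exact sub_eq_zero.mp e
  m2 p q r x y z hx hy hz := by
    have := h3 _ _ (hom_three hx hy hz)
    simp [evs, m2P, Tm.ev, Tm.leaves, inv, cnt] at this
    have e : S.op false (S.op true x y) z - (S.op true x (S.op false y z) +
        sg (q && r) • S.op true (S.op false x z) y) = 0 := by
      rw [← this]
      cases p <;> cases q <;> cases r <;> simp [sg] <;> abel
    exact sub_eq_zero.mp e

theorem tors_pow (ht : ∀ x : R, (6 : ℕ) • x = 0 → x = 0) : ∀ (n : ℕ) (x : R),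
    (6 ^ n : ℕ) • x = 0 → x = 0
  | 0, x, h => by simpa using h
  | n + 1, x, h => by
    rw [pow_succ, mul_smul] at h
    exact ht _ (tors_pow ht n _ h)

theorem N_mul (a c : ℕ) : (2 ^ a * 3 ^ c) * (3 ^ a * 2 ^ c) = 6 ^ (a + c) := by
  rw [pow_add, show (6 : ℕ) = 2 * 3 from rfl, mul_pow, mul_pow]; ring

theorem tors_N (ht : ∀ x : R, (6 : ℕ) • x = 0 → x = 0) (a c : ℕ) (x : R)
    (h : (2 ^ a * 3 ^ c : ℕ) • x = 0) : x = 0 := by
  apply tors_pow ht (a + c)
  rw [← N_mul, mul_comm, mul_smul, h, smul_zero]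

theorem dvs_pow (hd : ∀ x : R, ∃ y, (6 : ℕ) • y = x) : ∀ (n : ℕ) (x : R),
    ∃ y, (6 ^ n : ℕ) • y = x
  | 0, x => ⟨x, by simp⟩
  | n + 1, x => by
    obtain ⟨y, hy⟩ := dvs_pow hd n x
    obtain ⟨z, hz⟩ := hd y
    exact ⟨z, by rw [pow_succ, mul_smul, hz, hy]⟩

theorem dvs_N (hd : ∀ x : R, ∃ y, (6 : ℕ) • y = x) (a c : ℕ) (x : R) :
    ∃ y, (2 ^ a * 3 ^ c : ℕ) • y = x := by
  obtain ⟨y, hy⟩ := dvs_pow hd (a + c) x
  exact ⟨(3 ^ a * 2 ^ c : ℕ) • y, by rw [← mul_smul, N_mul, hy]⟩

/-- the list of definitions is well formed -/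
noncomputable def dOK (lo : ℕ) (D : DL) : Bool :=
  @DL.rec (fun _ => ℕ → Bool) (fun _ => true)
    (fun i j k _ _ _ F lo => ba (Nat.ble lo i) (ba (Nat.blt j i) (ba (Nat.blt k i)
      (ba (Nat.blt i (nat_lit 1024)) (ba (bn (bx (od i) (bx (od j) (od k)))) (F (Nat.succ i)))))))
    D lo

/-- the definitions hold -/
def DF (S : Sup R) (b : ℕ → R) : DL → Prop
  | .nil => True
  | .cons i j k a c t => ((2 ^ a * 3 ^ c : ℕ) • b i = S.op false (b j) (b k) ∧ k < 1024 ∧
      i < 1024) ∧ DF S b t

theorem ba_iff {x y : Bool} : ba x y = true ↔ x = true ∧ y = true := by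
  cases x <;> cases y <;> simp [ba]

theorem exists_b (ht : ∀ x : R, (6 : ℕ) • x = 0 → x = 0)
    (hd : ∀ x : R, ∃ y, (6 : ℕ) • y = x) : ∀ (D : DL) (lo : ℕ), dOK lo D = true →
    ∀ b0 : ℕ → R, (∀ i, Hom S (od i) (b0 i)) →
    ∃ b : ℕ → R, (∀ i, Hom S (od i) (b i)) ∧ (∀ i < lo, b i = b0 i) ∧ DF S b D
  | .nil, _, _, b0, h0 => ⟨b0, h0, fun _ _ => rfl, trivial⟩
  | .cons i j k a c t, lo, h, b0, h0 => by
    have h' : ba (Nat.ble lo i) (ba (Nat.blt j i) (ba (Nat.blt k i)
      (ba (Nat.blt i (nat_lit 1024)) (ba (bn (bx (od i) (bx (od j) (od k))))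
        (dOK (Nat.succ i) t))))) = true := h
    simp only [ba_iff] at h'
    obtain ⟨h1, h2, h3, h4, h5, h6⟩ := h'
    have h1 := ble_true h1
    have h2 := blt_true h2
    have h3 := blt_true h3
    have h4 := blt_true h4
    have h5 : od i = xor (od j) (od k) := by
      rw [bn_eq, bx_eq, bx_eq] at h5
      revert h5
      cases od i <;> cases od j <;> cases od k <;> simp
    obtain ⟨y, hy⟩ := dvs_N hd a c (S.op false (b0 j) (b0 k))
    have hy2 : Hom S (od i) y := by
      have hh : Hom S (od i) (S.op false (b0 j) (b0 k)) := by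
        have h7 := h0 j
        have h8 := h0 k
        unfold Hom at *
        rw [S.tau_op, h7, h8, h5, ← sg_mul]
        simp only [map_zsmul, AddMonoidHom.coe_smul, Pi.smul_apply, mul_smul]
        rw [smul_comm]
      rw [← hy] at hh
      unfold Hom at *
      rw [map_nsmul] at hh
      rw [← sub_eq_zero]
      apply tors_N ht a c
      rw [smul_sub, hh, sub_eq_zero]
      exact smul_comm _ _ _
    obtain ⟨b, hb1, hb2, hb3⟩ := exists_b ht hd t (i + 1) h6 (Function.update b0 i y) (by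
      intro l
      by_cases hl : l = i
      · subst hl; simpa using hy2
      · simpa [Function.update_of_ne hl] using h0 l)
    refine ⟨b, hb1, fun l hl => ?_, ⟨?_, by omega, h4⟩, hb3⟩
    · rw [hb2 l (by omega), Function.update_of_ne (by omega)]
    · rw [hb2 i (by omega), Function.update_self, hb2 j (by omega), hb2 k (by omega),
        Function.update_of_ne (by omega), Function.update_of_ne (by omega), hy]

/-- the leaves with index less than `n` are correct -/
def TOK (S : Sup R) (b : ℕ → R) (T : Tb) (n : ℕ) : Prop :=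
  ∀ m idx v r, inT m idx v r T → idx < n →
    S.op false (b ((m + 1) / 1024)) (b ((m + 1) % 1024)) = val (gk S b) v

theorem LOK.of {T : Tb} {n : ℕ} (h : TOK S b T n) (top : Bool) : LOK S b (lk T n top) := by
  intro j k hk hok
  cases hkey : j * 1024 + k with
  | zero =>
    rw [hkey] at hok
    exact hok.elim
  | succ m =>
    rw [hkey] at hok
    have hj : j = (m + 1) / 1024 := by omega
    have hk' : k = (m + 1) % 1024 := by omega
    have e : lk T n top (m + 1) = look n m (unr top m) T := rfl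
    rw [e] at hok ⊢
    rcases look_spec n m (unr top m) T with h1 | ⟨idx, r, h1, h2⟩
    · rw [h1] at hok ⊢
      cases top with
      | false => exact hok.elim
      | true =>
        show _ = zc false 1 • gk S b (m + 1048577) + 0
        rw [gk_unr, hj, hk']
        simp [zc]
    · rw [← h m idx _ r h2 h1, ← hj, ← hk']

theorem isNil_spec {v : V} (h : isNil v = true) : v = .nil := by
  cases v with
  | nil => rfl
  | bad => cases h
  | cons i s a t => cases h

theorem chkRow_spec (hG : Gd S) (hb : ∀ i, Hom S (od i) (b i)) {T : Tb} {L : AL}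
    (hA : AXs S L) {key idx : ℕ} {v : V} {a c : ℕ} {ct : Ct} (hT : TOK S b T idx)
    (h : chkRow T L key idx v a c ct = true) :
    S.op false (b ((key + 1) / 1024)) (b ((key + 1) % 1024)) = val (gk S b) v := by
  unfold chkRow at h
  rw [fN_eq] at h
  have h1 := isNil_spec h
  obtain ⟨_, h2, h3⟩ := addCt_spec hG hb (fun top => LOK.of hT top) L hA ct _
    (by rw [h1]; trivial)
  obtain ⟨_, _, h5⟩ := addc_spec (gk S b) _ _ _ _ h2
  rw [h1, h5] at h3
  have h4 : (0 : R) = 0 + (zc false (2 ^ a * 3 ^ c) • val (gk S b) v +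
    (zc true (2 ^ a * 3 ^ c) • gk S b (key + 1048577) + 0)) := h3
  rw [gk_unr] at h4
  have h6 : (2 ^ a * 3 ^ c : ℕ) • (S.op false (b ((key + 1) / 1024)) (b ((key + 1) % 1024)) -
      val (gk S b) v) = 0 := by
    have e1 : zc false (2 ^ a * 3 ^ c) = ((2 ^ a * 3 ^ c : ℕ) : ℤ) := rfl
    have e2 : zc true (2 ^ a * 3 ^ c) = -((2 ^ a * 3 ^ c : ℕ) : ℤ) := rfl
    rw [e1, e2, neg_smul, natCast_zsmul, natCast_zsmul] at h4
    rw [smul_sub]
    have : (2 ^ a * 3 ^ c : ℕ) • val (gk S b) v =
      (2 ^ a * 3 ^ c : ℕ) • S.op false (b ((key + 1) / 1024)) (b ((key + 1) % 1024)) := by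
      rw [← sub_eq_zero]
      rw [eq_comm] at h4
      rw [← h4]
      abel
    rw [this, sub_self]
  exact sub_eq_zero.mp (tors_N hG.tors a c _ h6)

theorem memD_spec {i key a c : ℕ} : ∀ {D : DL}, DF S b D → memD i key a c D = true →
    (2 ^ a * 3 ^ c : ℕ) • b i = S.op false (b ((key + 1) / 1024)) (b ((key + 1) % 1024)) ∧
      i < 1024
  | .nil, _, h => by cases h
  | .cons i' j' k' a' c' t, hD, h => by
    have h' : @Bool.rec (fun _ => Bool) (memD i key a c t)
      (ba (Nat.beq (Nat.succ key) (Nat.add (Nat.mul j' (nat_lit 1024)) k'))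
        (ba (Nat.beq a a') (Nat.beq c c'))) (Nat.beq i i') = true := h
    cases h1 : Nat.beq i i' with
    | false => rw [h1] at h'; exact memD_spec hD.2 h'
    | true =>
      rw [h1] at h'
      have h2 : ba (Nat.beq (Nat.succ key) (Nat.add (Nat.mul j' (nat_lit 1024)) k'))
        (ba (Nat.beq a a') (Nat.beq c c')) = true := h'
      rw [ba_iff, ba_iff] at h2
      obtain ⟨h3, h4, h5⟩ := h2
      have h1 := Nat.eq_of_beq_eq_true h1
      have h3 : key + 1 = j' * 1024 + k' := Nat.eq_of_beq_eq_true h3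
      have h4 := Nat.eq_of_beq_eq_true h4
      have h5 := Nat.eq_of_beq_eq_true h5
      subst h1 h4 h5
      obtain ⟨⟨h6, h7, h8⟩, _⟩ := hD
      refine ⟨?_, h8⟩
      rw [h3, show (j' * 1024 + k') / 1024 = j' by omega,
        show (j' * 1024 + k') % 1024 = k' by omega]
      exact h6

theorem chkDef_spec {D : DL} (hD : DF S b D) {key i a c : ℕ} {v : V}
    (h : chkDef D key v i a c = true) :
    S.op false (b ((key + 1) / 1024)) (b ((key + 1) % 1024)) = val (gk S b) v := by
  rw [chkDef, ba_iff] at h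
  obtain ⟨h1, h2⟩ := memD_spec hD h.1
  have h3 := isNil_spec h.2
  obtain ⟨_, _, h5⟩ := addc_spec (gk S b) _ _ _ _
    (by rw [h3]; trivial : okV (addc true (Nat.mul (Nat.pow (nat_lit 2) a)
      (Nat.pow (nat_lit 3) c)) (V.cons i false (nat_lit 1) V.nil) v))
  rw [h3] at h5
  have h6 : (0 : R) = zc true (2 ^ a * 3 ^ c) • (zc false 1 • gk S b i + 0) +
    val (gk S b) v := h5
  rw [gk_id S b h2] at h6
  rw [← h1]
  have e2 : zc true (2 ^ a * 3 ^ c) = -((2 ^ a * 3 ^ c : ℕ) : ℤ) := rfl
  have e3 : zc false 1 = 1 := rfl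
  rw [e2, e3, one_smul, add_zero, neg_smul, natCast_zsmul] at h6
  rw [← sub_eq_zero, ← neg_eq_zero, h6]
  abel

theorem chkT_spec (hG : Gd S) (hb : ∀ i, Hom S (od i) (b i)) {T : Tb} {L : AL} {D : DL}
    (hA : AXs S L) (hD : DF S b D) {lo hi m idx : ℕ} {v : V} {r : Rw}
    (hT : TOK S b T idx) (h1 : lo ≤ idx) (h2 : idx < hi) : ∀ T' : Tb,
    chkT T L D lo hi T' = true → inT m idx v r T' →
    S.op false (b ((m + 1) / 1024)) (b ((m + 1) % 1024)) = val (gk S b) v
  | .leaf key' idx' v' r', h, hin => by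
    obtain ⟨rfl, rfl, rfl, rfl⟩ := hin
    have h' : @Bool.rec (fun _ => Bool) true
      (@Rw.rec (fun _ => Bool) (fun i a b => chkDef D m v i a b)
        (fun a b ct => chkRow T L m idx v a b ct) r)
      (ba (Nat.ble lo idx) (Nat.blt idx hi)) = true := h
    have e : ba (Nat.ble lo idx) (Nat.blt idx hi) = true :=
      ba_iff.mpr ⟨Nat.ble_eq_true_of_le h1, Nat.ble_eq_true_of_le h2⟩
    rw [e] at h'
    cases r with
    | df i a c => exact chkDef_spec hD h'
    | rw a c ct => exact chkRow_spec hG hb hA hT h'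
  | .node k l r', h, hin => by
    have h' : ba (chkT T L D lo hi l) (chkT T L D lo hi r') = true := h
    rw [ba_iff] at h'
    rcases hin with hin | hin
    · exact chkT_spec hG hb hA hD hT h1 h2 l h'.1 hin
    · exact chkT_spec hG hb hA hD hT h1 h2 r' h'.2 hin

/-- every index less than `n` lies in a checked interval -/
def Cov (T : Tb) (L : AL) (D : DL) (n : ℕ) : Prop :=
  ∀ idx < n, ∃ lo hi, lo ≤ idx ∧ idx < hi ∧ chkT T L D lo hi T = true

theorem Cov.zero (T : Tb) (L : AL) (D : DL) : Cov T L D 0 :=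
  fun _ h => absurd h (Nat.not_lt_zero _)

theorem Cov.step {T : Tb} {L : AL} {D : DL} {n : ℕ} (m : ℕ) (h : Cov T L D n)
    (hc : chkT T L D n m T = true) : Cov T L D m := by
  intro idx hi
  rcases Nat.lt_or_ge idx n with h1 | h1
  · exact h idx h1
  · exact ⟨n, m, h1, hi, hc⟩

theorem TOK.of (hG : Gd S) (hb : ∀ i, Hom S (od i) (b i)) {T : Tb} {L : AL} {D : DL}
    (hA : AXs S L) (hD : DF S b D) {n : ℕ} (h : Cov T L D n) : ∀ k ≤ n, TOK S b T k
  | 0, _ => fun _ _ _ _ _ h => absurd h (Nat.not_lt_zero _)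
  | k + 1, hk => by
    have ih := TOK.of hG hb hA hD h k (by omega)
    intro m idx v r hin hidx
    rcases Nat.lt_or_ge idx k with h1 | h1
    · exact ih m idx v r hin h1
    · have : idx = k := by omega
      subst this
      obtain ⟨lo, hi, h2, h3, h4⟩ := h idx (by omega)
      exact chkT_spec hG hb hA hD ih h2 h3 T h4 hin

end

section
variable {B : Type} [AddCommGroup B] (S0 : Sup B)

/-- the identities of the axioms hold in the base -/
def AX0 (S0 : Sup B) : AL → Prop
  | .nil => True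
  | .cons e t => (axOK e = true ∧ SId S0 (toPl e)) ∧ AX0 S0 t

theorem AX0.cls {R : Type} [AddCommGroup R] {S : Sup R} (hS : Cls S0 S) : ∀ {L : AL},
    AX0 S0 L → AXs S L
  | .nil, _ => trivial
  | .cons _ _, h => ⟨⟨h.1.1, hS.ids _ (axOK_ML h.1.1) h.1.2⟩, AX0.cls hS h.2⟩

theorem ML_skew : ML skewP := ⟨[0, 1], by decide, by
  intro ct hct
  simp only [skewP, List.mem_cons, List.not_mem_nil, or_false] at hct
  rcases hct with rfl | rfl
  · exact List.Perm.refl _
  · exact List.Perm.swap _ _ _⟩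

theorem ML_sym : ML symP := ⟨[0, 1], by decide, by
  intro ct hct
  simp only [symP, List.mem_cons, List.not_mem_nil, or_false] at hct
  rcases hct with rfl | rfl
  · exact List.Perm.refl _
  · exact List.Perm.swap _ _ _⟩

theorem ML_m2 : ML m2P := ⟨[0, 1, 2], by decide, by
  intro ct hct
  simp only [m2P, List.mem_cons, List.not_mem_nil, or_false] at hct
  rcases hct with rfl | rfl | rfl
  · exact List.Perm.refl _
  · exact List.Perm.refl _
  · exact (List.Perm.swap _ _ _).cons _⟩

/-- the checker proves identities in all Grassmann extensions -/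
theorem check (h1 : SId S0 skewP) (h2 : SId S0 symP) (h3 : SId S0 m2P) {L : AL}
    (hA : AX0 S0 L) {T : Tb} {D : DL} {n lo : ℕ} (hD : dOK lo D = true) (hT : Cov T L D n)
    (letters : List ℕ) (hlt : ∀ i ∈ letters, i < lo ∧ i < 1024) (hnd : letters.Nodup)
    (tgt : Ex) (hz : zg tgt = true) (args : ℕ)
    (hargs : ∀ ct ∈ toPl tgt, ∀ i ∈ ct.2.leaves, i < letters.length)
    (hargs2 : ∀ i, i < letters.length → arg args i = letters.getD i 0)
    (a c : ℕ) (top : Bool) (ct : Ct)
    (hF : chkF T n L top tgt args (2 ^ a * 3 ^ c) ct = true) :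
    Holds S0 (fun i => od (letters.getD i 0)) (toPl tgt) := by
  intro R _ S hS x hx
  have hG : Gd S := Gd.of hS.tors (hS.ids _ ML_skew h1) (hS.ids _ ML_sym h2)
    (hS.ids _ ML_m2 h3)
  obtain ⟨b, hb, hb2, hb3⟩ := exists_b hS.tors hS.dvs D lo hD
    (fun k => if k ∈ letters then x (letters.idxOf k) else 0) (by
      intro k
      by_cases hk : k ∈ letters
      · have : Hom S (od (letters.getD (letters.idxOf k) 0)) (x (letters.idxOf k)) :=
          hx (letters.idxOf k)
        have hlt' := List.idxOf_lt_length_iff.mpr hk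
        rw [List.getD_eq_getElem _ _ hlt', List.getElem_idxOf hlt'] at this
        simpa [hk] using this
      · simpa [hk] using hom_zero S _)
  have hAS := AX0.cls S0 hS hA
  have hTok := TOK.of hG hb hAS hb3 hT n le_rfl
  unfold chkF at hF
  have h4 := isNil_spec hF
  obtain ⟨_, h5, h6⟩ := addCt_spec hG hb (fun top => LOK.of hTok top) L hAS ct _
    (by rw [h4]; trivial)
  obtain ⟨_, _, h7⟩ := evE_spec hG hb (fun top => LOK.of hTok top) args _ tgt _ _ _ _ h5
  rw [h4, h7] at h6
  have h8 : (0 : R) = 0 + (zc true (2 ^ a * 3 ^ c) •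
    sv S 0 (fun i => gk S b (arg args i)) tgt + 0) := h6
  rw [zero_add, add_zero] at h8
  have e2 : zc true (2 ^ a * 3 ^ c) = -((2 ^ a * 3 ^ c : ℕ) : ℤ) := rfl
  rw [e2, neg_smul, natCast_zsmul, eq_comm, neg_eq_zero] at h8
  have h9 := tors_N hG.tors a c _ h8
  rw [← sv_evP S 0 _ tgt hz] at h9
  rw [← h9]
  refine evP_congr S _ _ _ fun ct' hct i hi => ?_
  have hi' := hargs ct' hct i hi
  have hmem : letters.getD i 0 ∈ letters := by
    rw [List.getD_eq_getElem _ _ hi']; exact List.getElem_mem hi'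
  rw [hargs2 i hi', gk_id S b (hlt _ hmem).2, hb2 _ (hlt _ hmem).1, if_pos hmem]
  congr 1
  rw [List.getD_eq_getElem _ _ hi', hnd.idxOf_getElem]

end

end Pool.Agent.TP
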