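import Mathlib

/-! Statements for MP_ce3ba7_al (helper19): T-prime quotients of alternative varieties. -/

set_option autoImplicit false

namespace Pool.Agent.TP

/-- associator -/
def asc {A : Type} [NonUnitalNonAssocRing A] (x y z : A) : A := (x * y) * z - x * (y * z)

/-- alternative -/
def IsAlt (A : Type) [NonUnitalNonAssocRing A] : Prop :=
  (∀ x y : A, (x * x) * y = x * (x * y)) ∧ (∀ x y : A, (y * x) * x = y * (x * x))

section
variable (F : Type) [Field F]

/-- `A` satisfies all identities of `S` -/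
def Sat (S : Set (MonoidAlgebra F (FreeMagma ℕ))) (A : Type) [NonUnitalNonAssocRing A] [Module F A]
    [IsScalarTower F A A] [SMulCommClass F A A] : Prop :=
  ∀ f ∈ S, ∀ φ : ℕ → A, MonoidAlgebra.liftMagma F (FreeMagma.lift φ) f = 0

/-- every associative alternative algebra satisfying `S` is nilpotent -/
def AssNil (S : Set (MonoidAlgebra F (FreeMagma ℕ))) : Prop :=
  ∀ (A : Type) [NonUnitalNonAssocRing A] [Module F A] [IsScalarTower F A A]
    [SMulCommClass F A A],
    (∀ x y : A, (x * x) * y = x * (x * y)) →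
    (∀ x y : A, (y * x) * x = y * (x * x)) →
    (∀ f ∈ S, ∀ φ : ℕ → A, MonoidAlgebra.liftMagma F (FreeMagma.lift φ) f = 0) →
    (∀ x y z : A, (x * y) * z = x * (y * z)) →
    ∃ n : ℕ, ∃ V : ℕ → Submodule F A, V 0 = ⊤ ∧
      (∀ i j : ℕ, ∀ x ∈ V i, ∀ y ∈ V j, x * y ∈ V (i + j + 1)) ∧ V n = ⊥

/-- `A` is solvable of index at most `n` -/
def SolvN (n : ℕ) (A : Type) [NonUnitalNonAssocRing A] [Module F A] : Prop :=
  ∃ V : ℕ → Submodule F A, V 0 = ⊤ ∧
    (∀ k : ℕ, ∀ x ∈ V k, ∀ y ∈ V k, x * y ∈ V (k + 1)) ∧ V n = ⊥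

/-- the conclusion of the problem -/
def AllSolv (S : Set (MonoidAlgebra F (FreeMagma ℕ))) : Prop :=
  ∃ n : ℕ, ∀ (A : Type) [NonUnitalNonAssocRing A] [Module F A] [IsScalarTower F A A]
    [SMulCommClass F A A],
    (∀ x y : A, (x * x) * y = x * (x * y)) →
    (∀ x y : A, (y * x) * x = y * (x * x)) →
    (∀ f ∈ S, ∀ φ : ℕ → A, MonoidAlgebra.liftMagma F (FreeMagma.lift φ) f = 0) →
    ∃ V : ℕ → Submodule F A, V 0 = ⊤ ∧
      (∀ k : ℕ, ∀ x ∈ V k, ∀ y ∈ V k, x * y ∈ V (k + 1)) ∧ V n = ⊥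

variable (B : Type) [NonUnitalNonAssocRing B] [Module F B] [IsScalarTower F B B]
  [SMulCommClass F B B]

/-- `B` is relatively free on the generators `x i` (every map of the generators extends to an
endomorphism), and every element involves only finitely many generators -/
structure RelFree (x : ℕ → B) : Prop where
  ext : ∀ φ : ℕ → B, ∃ Φ : B →ₙₐ[F] B, ∀ i, Φ (x i) = φ i
  fin : ∀ b : B, ∃ n : ℕ, ∀ Φ Ψ : B →ₙₐ[F] B, (∀ i < n, Φ (x i) = Ψ (x i)) → Φ b = Ψ b

/-- fully invariant subspaces -/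
def FullyInv (I : Submodule F B) : Prop := ∀ Φ : B →ₙₐ[F] B, ∀ a ∈ I, Φ a ∈ I

/-- T-ideals of `B` -/
def TIdeal (I : Submodule F B) : Prop :=
  (∀ a ∈ I, ∀ b : B, a * b ∈ I ∧ b * a ∈ I) ∧ FullyInv F B I

/-- `B` is T-prime -/
def TPrime : Prop := ∀ I J : Submodule F B, TIdeal F B I → TIdeal F B J →
  (∀ a ∈ I, ∀ b ∈ J, a * b = 0) → I = ⊥ ∨ J = ⊥

end

/-- MODULE PRIME: if the variety is not solvable, it contains a T-prime relatively free algebra
which is not solvable. -/
def PrimeStmt : Prop :=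
  ∀ (F : Type) [Field F] (S : Set (MonoidAlgebra F (FreeMagma ℕ))), ¬ AllSolv F S →
    ∃ (B : Type) (_ : NonUnitalNonAssocRing B) (_ : Module F B) (_ : IsScalarTower F B B)
      (_ : SMulCommClass F B B) (x : ℕ → B),
      RelFree F B x ∧ IsAlt B ∧ Sat F S B ∧ TPrime F B ∧ ∀ n, ¬ SolvN F n B

/-- the closure rules -/
structure Rules (B : Type) [NonUnitalNonAssocRing B] : Prop where
  /-- B is not associative -/
  nonassoc : ∃ x y z : B, asc x y z ≠ 0
  /-- zero nucleus -/
  nuc : ∀ g : B, (∀ y z, asc g y z = 0) → g = 0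
  /-- nothing annihilates the associator ideal -/
  ann : ∀ g : B, (∀ x y z, g * asc x y z = 0) → (∀ x y z, asc x y z * g = 0) →
    (∀ a x y z, g * (a * asc x y z) = 0) → g = 0
  /-- one sided annihilators of B vanish -/
  right : ∀ g : B, (∀ y, g * y = 0) → g = 0
  left : ∀ g : B, (∀ y, y * g = 0) → g = 0

/-- MODULE RULES (any characteristic). -/
def RulesStmt : Prop :=
  ∀ (F : Type) [Field F] (S : Set (MonoidAlgebra F (FreeMagma ℕ))), AssNil F S →
    ∀ (B : Type) [NonUnitalNonAssocRing B] [Module F B] [IsScalarTower F B B]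
      [SMulCommClass F B B] (x : ℕ → B),
      RelFree F B x → IsAlt B → Sat F S B → TPrime F B → (∀ n, ¬ SolvN F n B) → Rules B

section
variable {B : Type} [AddCommGroup B]

/-- Jacobian of a bracket -/
def Jc (br : B →+ B →+ B) (x y z : B) : B := br (br x y) z + br (br y z) x + br (br z x) y

/-- the abstract calculus: bracket `br x y = xy - yx`, `jo x y = 6 (xy + yx)` -/
structure Calc (br jo : B →+ B →+ B) : Prop where
  tors2 : ∀ x : B, 2 • x = 0 → x = 0
  tors3 : ∀ x : B, 3 • x = 0 → x = 0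
  skew : ∀ x y, br x y + br y x = 0
  symm : ∀ x y, jo x y - jo y x = 0
  sagle : ∀ a b c d, br (br a c) (br b d) = br (br (br a b) c) d + br (br (br b c) d) a
    + br (br (br c d) a) b + br (br (br d a) b) c
  m2 : ∀ a b c, br (jo a b) c = jo a (br b c) + jo (br a c) b
  /-- linearized (x,y,z) o [x,y] = 0 -/
  m3 : ∀ x x' y y' z, jo (Jc br x y z) (br x' y') + jo (Jc br x y' z) (br x' y)
    + jo (Jc br x' y z) (br x y') + jo (Jc br x' y' z) (br x y) = 0
  m4 : ∀ a b c, jo (jo a b) c - jo a (jo b c) = 36 • br b (br a c) - 12 • Jc br a b c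
  /-- [x, 3 [[x,y],[x,z]] + [x, J(x,y,z)]] = 0 (to be linearized in x) -/
  g2 : ∀ x y z, br x (3 • br (br x y) (br x z) + br x (Jc br x y z)) = 0
  /-- [x,y]^2 commutes with x, in the form [x,y] o [[x,y],x] = 0 -/
  g1 : ∀ x y, jo (br x y) (br (br x y) x) = 0
  cen : ∀ r, (∀ y, br r y = 0) → r = 0
  nuc : ∀ r, (∀ y z, Jc br r y z = 0) → r = 0
  ann : ∀ r, (∀ x y z, jo r (Jc br x y z) = 0) → (∀ x y z, br r (Jc br x y z) = 0) → r = 0

end

/-- commutator as a biadditive map -/
def brB (B : Type) [NonUnitalNonAssocRing B] : B →+ B →+ B :=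
  AddMonoidHom.mul - AddMonoidHom.flip AddMonoidHom.mul

/-- 6 (xy + yx) as a biadditive map -/
def joB (B : Type) [NonUnitalNonAssocRing B] : B →+ B →+ B :=
  6 • (AddMonoidHom.mul + AddMonoidHom.flip AddMonoidHom.mul)

/-- MODULE BASE: an alternative algebra of characteristic not 2, 3 satisfying the closure rules
gives the abstract calculus. -/
def BaseStmt : Prop :=
  ∀ (B : Type) [NonUnitalNonAssocRing B], IsAlt B → (∀ x : B, 2 • x = 0 → x = 0) →
    (∀ x : B, 3 • x = 0 → x = 0) →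
    (∀ g : B, (∀ y z, asc g y z = 0) → g = 0) →
    (∀ g : B, (∀ x y z, g * asc x y z = 0) → (∀ x y z, asc x y z * g = 0) →
      (∀ a x y z, g * (a * asc x y z) = 0) → g = 0) →
    Calc (brB B) (joB B)

/-- MODULE ABS (helper19: reflection engine and certificates). -/
def AbsStmt : Prop :=
  ∀ (B : Type) [AddCommGroup B] (br jo : B →+ B →+ B), Calc br jo → ∀ x y z, Jc br x y z = 0

end Pool.Agent.TP
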