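import Mathlib

/-! Superalgebras with two bilinear operations, Grassmann extension, multilinear identities,
and formal derivatives (helper19). -/

set_option autoImplicit false

namespace Pool.Agent.TP

/-- terms in letters, with operations `false` (bracket) and `true` (Jordan product) -/
inductive Tm where
  | v (i : ℕ) : Tm
  | op (o : Bool) (a b : Tm) : Tm

/-- formal integer combinations of terms -/
abbrev Pl := List (ℤ × Tm)

/-- sign -/
def sg (p : Bool) : ℤ := cond p (-1) 1

theorem sg_mul (p q : Bool) : sg p * sg q = sg (xor p q) := by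
  cases p <;> cases q <;> rfl

theorem sg_sq (p : Bool) : sg p * sg p = 1 := by cases p <;> rfl

/-- two bilinear operations and a parity involution -/
structure Sup (R : Type) [AddCommGroup R] where
  op : Bool → R →+ R →+ R
  tau : R →+ R
  tau_tau : ∀ x, tau (tau x) = x
  tau_op : ∀ o x y, tau (op o x y) = op o (tau x) (tau y)

section
variable {R : Type} [AddCommGroup R]

/-- homogeneous elements -/
def Hom (S : Sup R) (p : Bool) (x : R) : Prop := S.tau x = sg p • x

/-- Grassmann extension by one odd variable -/
def Sup.gr (S : Sup R) : Sup (R × R) where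
  op o := AddMonoidHom.mk' (fun x => AddMonoidHom.mk'
    (fun y => (S.op o x.1 y.1, S.op o x.1 y.2 + S.op o x.2 (S.tau y.1)))
    (by
      intro a b
      ext
      · simp
      · simp only [Prod.fst_add, Prod.snd_add, map_add]
        abel))
    (by
      intro a b
      ext y
      · simp
      · simp only [Prod.fst_add, Prod.snd_add, map_add, AddMonoidHom.mk'_apply,
          AddMonoidHom.add_apply]
        abel)
  tau := AddMonoidHom.mk' (fun x => (S.tau x.1, - S.tau x.2))
    (by
      intro a b
      ext
      · simp
      · simp only [Prod.snd_add, map_add]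
        abel)
  tau_tau x := by
    ext
    · simp [S.tau_tau]
    · simp [S.tau_tau]
  tau_op o x y := by
    ext
    · simp [S.tau_op]
    · simp [S.tau_op, S.tau_tau, add_comm]

@[simp] theorem gr_op (S : Sup R) (o : Bool) (x y : R × R) :
    S.gr.op o x y = (S.op o x.1 y.1, S.op o x.1 y.2 + S.op o x.2 (S.tau y.1)) := rfl

@[simp] theorem gr_tau (S : Sup R) (x : R × R) :
    S.gr.tau x = (S.tau x.1, - S.tau x.2) := rfl

theorem hom_gr (S : Sup R) (p : Bool) (x : R × R) :
    Hom S.gr p x ↔ Hom S p x.1 ∧ Hom S (!p) x.2 := by
  unfold Hom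
  rw [gr_tau, Prod.ext_iff]
  constructor
  · rintro ⟨h1, h2⟩
    refine ⟨by simpa using h1, ?_⟩
    have h2' : - S.tau x.2 = sg p • x.2 := by simpa using h2
    have h3 : S.tau x.2 = - (sg p • x.2) := by rw [← h2', neg_neg]
    rw [h3]
    cases p <;> simp [sg]
  · rintro ⟨h1, h2⟩
    refine ⟨by simpa using h1, ?_⟩
    cases p <;> simp_all [sg]

/-- value of a term -/
def Tm.ev (S : Sup R) (v : ℕ → R) : Tm → R
  | .v i => v i
  | .op o a b => S.op o (a.ev S v) (b.ev S v)

/-- parity of a term -/
def Tm.par (p : ℕ → Bool) : Tm → Bool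
  | .v i => p i
  | .op _ a b => xor (a.par p) (b.par p)

theorem Tm.ev_hom (S : Sup R) (p : ℕ → Bool) (v : ℕ → R) (hv : ∀ i, Hom S (p i) (v i)) :
    ∀ t : Tm, Hom S (t.par p) (t.ev S v)
  | .v i => hv i
  | .op o a b => by
    have ha := Tm.ev_hom S p v hv a
    have hb := Tm.ev_hom S p v hv b
    unfold Hom at *
    rw [Tm.ev, S.tau_op, ha, hb, Tm.par, ← sg_mul]
    simp only [map_zsmul, AddMonoidHom.coe_smul, Pi.smul_apply, mul_smul]
    rw [smul_comm]

/-- value of a polynomial -/
def evP (S : Sup R) (v : ℕ → R) (f : Pl) : R := (f.map fun ct => ct.1 • ct.2.ev S v).sum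

@[simp] theorem evP_nil (S : Sup R) (v : ℕ → R) : evP S v [] = 0 := rfl

@[simp] theorem evP_cons (S : Sup R) (v : ℕ → R) (c : ℤ × Tm) (f : Pl) :
    evP S v (c :: f) = c.1 • c.2.ev S v + evP S v f := by simp [evP]

@[simp] theorem evP_append (S : Sup R) (v : ℕ → R) (f g : Pl) :
    evP S v (f ++ g) = evP S v f + evP S v g := by simp [evP]

/-- leaves of a term, from left to right -/
def Tm.leaves : Tm → List ℕ
  | .v i => [i]
  | .op _ a b => a.leaves ++ b.leaves

/-- parity of the number of odd letters in a list -/
def cnt (p : ℕ → Bool) : List ℕ → Bool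
  | [] => false
  | i :: l => xor (p i) (cnt p l)

theorem cnt_append (p : ℕ → Bool) (l m : List ℕ) :
    cnt p (l ++ m) = xor (cnt p l) (cnt p m) := by
  induction l with
  | nil => simp [cnt]
  | cons a l ih => simp [cnt, ih]

theorem cnt_leaves (p : ℕ → Bool) : ∀ t : Tm, cnt p t.leaves = t.par p
  | .v i => by simp [Tm.leaves, cnt, Tm.par]
  | .op _ a b => by
    rw [Tm.leaves, cnt_append, cnt_leaves p a, cnt_leaves p b, Tm.par]

theorem cnt_perm (p : ℕ → Bool) {l m : List ℕ} (h : l.Perm m) : cnt p l = cnt p m := by
  induction h with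
  | nil => rfl
  | cons x _ ih => simp [cnt, ih]
  | swap x y l => simp only [cnt]; rw [← Bool.xor_assoc, ← Bool.xor_assoc, Bool.xor_comm (p y)]
  | trans _ _ h1 h2 => exact h1.trans h2

/-- parity of the number of inversions between odd letters -/
def inv (p : ℕ → Bool) : List ℕ → Bool
  | [] => false
  | i :: l => xor (p i && cnt p (l.filter fun j => Nat.blt j i)) (inv p l)

/-- letters after `i` -/
def after (p : ℕ → Bool) (i : ℕ) : List ℕ → Bool
  | [] => false
  | j :: l => cond (Nat.beq j i) (cnt p l) (after p i l)

/-- parity with one letter flipped -/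
def flip (p : ℕ → Bool) (i : ℕ) : ℕ → Bool := fun j => if j = i then !(p j) else p j

theorem cnt_flip_not_mem (p : ℕ → Bool) (i : ℕ) : ∀ l : List ℕ, i ∉ l →
    cnt (flip p i) l = cnt p l
  | [], _ => rfl
  | j :: l, h => by
    rw [List.mem_cons, not_or] at h
    have : flip p i j = p j := by simp [flip, Ne.symm h.1]
    rw [cnt, cnt, this, cnt_flip_not_mem p i l h.2]

theorem cnt_flip_mem (p : ℕ → Bool) (i : ℕ) : ∀ l : List ℕ, l.Nodup → i ∈ l →
    cnt (flip p i) l = !(cnt p l)
  | [], _, h => by simp at h
  | j :: l, hn, h => by
    rw [List.nodup_cons] at hn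
    by_cases hj : j = i
    · subst hj
      rw [cnt, cnt, cnt_flip_not_mem p j l hn.1]
      simp [flip]
    · have h' : i ∈ l := by
        rcases List.mem_cons.mp h with h | h
        · exact absurd h.symm hj
        · exact h
      have : flip p i j = p j := by simp [flip, hj]
      rw [cnt, cnt, this, cnt_flip_mem p i l hn.2 h']
      simp

theorem inv_flip_not_mem (p : ℕ → Bool) (i : ℕ) : ∀ l : List ℕ, i ∉ l →
    inv (flip p i) l = inv p l
  | [], _ => rfl
  | j :: l, h => by
    rw [List.mem_cons, not_or] at h
    have h1 : flip p i j = p j := by simp [flip, Ne.symm h.1]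
    have h2 : i ∉ l.filter fun k => Nat.blt k j := fun hh => h.2 (List.mem_filter.mp hh).1
    rw [inv, inv, h1, cnt_flip_not_mem p i _ h2, inv_flip_not_mem p i l h.2]

theorem cnt_split (p : ℕ → Bool) (i : ℕ) : ∀ l : List ℕ, i ∉ l →
    xor (cnt p (l.filter fun k => Nat.blt k i)) (cnt p l)
      = cnt p (l.filter fun k => Nat.blt i k)
  | [], _ => rfl
  | j :: l, h => by
    rw [List.mem_cons, not_or] at h
    have ih := cnt_split p i l h.2
    rcases lt_trichotomy j i with hji | hji | hji
    · have h1 : Nat.blt j i = true := by simpa using hji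
      have h2 : ¬ (Nat.blt i j = true) := by simpa using hji.le
      rw [List.filter_cons, List.filter_cons, if_pos h1, if_neg h2,
        ← ih, cnt, cnt]
      cases p j <;> simp
    · exact absurd hji.symm h.1
    · have h1 : ¬ (Nat.blt j i = true) := by simpa using hji.le
      have h2 : Nat.blt i j = true := by simpa using hji
      rw [List.filter_cons, List.filter_cons, if_neg h1, if_pos h2,
        cnt, cnt, ← ih]
      cases p j <;> simp

/-- the sign lemma -/
theorem sign_lemma (p : ℕ → Bool) (i : ℕ) : ∀ l : List ℕ, l.Nodup → i ∈ l →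
    xor (xor (inv (flip p i) l) (inv p l)) (after p i l)
      = cnt p (l.filter fun k => Nat.blt i k)
  | [], _, h => by simp at h
  | j :: l, hn, h => by
    rw [List.nodup_cons] at hn
    by_cases hj : j = i
    · subst hj
      have e1 : flip p j j = !(p j) := by simp [flip]
      have h2 : j ∉ l.filter fun k => Nat.blt k j := fun hh => hn.1 (List.mem_filter.mp hh).1
      rw [inv, inv, e1, cnt_flip_not_mem p j _ h2, inv_flip_not_mem p j l hn.1, after,
        Nat.beq_refl, cond_true, List.filter_cons_of_neg (by simp), ← cnt_split p j l hn.1]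
      generalize cnt p (l.filter fun k => Nat.blt k j) = a
      generalize cnt p l = b
      generalize inv p l = c
      cases p j <;> cases a <;> cases b <;> cases c <;> rfl
    · have h' : i ∈ l := by
        rcases List.mem_cons.mp h with h | h
        · exact absurd h.symm hj
        · exact h
      have e1 : flip p i j = p j := by simp [flip, hj]
      have e2 : Nat.beq j i = false := by
        rw [← Bool.not_eq_true]; simpa using hj
      have ih := sign_lemma p i l hn.2 h'
      rw [inv, inv, e1, after, e2, cond_false]
      rcases lt_or_gt_of_ne hj with hji | hji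
      · -- j < i : the filter (< j) does not contain i
        have h2 : i ∉ l.filter fun k => Nat.blt k j := by
          intro hh
          have := (List.mem_filter.mp hh).2
          simp at this
          omega
        rw [cnt_flip_not_mem p i _ h2,
          List.filter_cons_of_neg (by simpa using hji.le), ← ih]
        generalize cnt p (l.filter fun k => Nat.blt k j) = a
        generalize inv (flip p i) l = b
        generalize inv p l = c
        generalize after p i l = d
        cases p j <;> cases a <;> cases b <;> cases c <;> cases d <;> rfl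
      · have h2 : i ∈ l.filter fun k => Nat.blt k j := by
          rw [List.mem_filter]; exact ⟨h', by simpa using hji⟩
        have hn2 : (l.filter fun k => Nat.blt k j).Nodup := hn.2.filter _
        rw [cnt_flip_mem p i _ hn2 h2,
          List.filter_cons_of_pos (by simpa using hji), cnt, ← ih]
        generalize cnt p (l.filter fun k => Nat.blt k j) = a
        generalize inv (flip p i) l = b
        generalize inv p l = c
        generalize after p i l = d
        cases p j <;> cases a <;> cases b <;> cases c <;> cases d <;> rfl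

/-- value of a multilinear polynomial with super signs -/
def evs (S : Sup R) (p : ℕ → Bool) (v : ℕ → R) (f : Pl) : R :=
  (f.map fun ct => (ct.1 * sg (inv p ct.2.leaves)) • ct.2.ev S v).sum

/-- super identity -/
def SId (S : Sup R) (f : Pl) : Prop :=
  ∀ (p : ℕ → Bool) (v : ℕ → R), (∀ i, Hom S (p i) (v i)) → evs S p v f = 0

/-- second component of the value in the Grassmann extension -/
def dv (S : Sup R) (p : ℕ → Bool) (v w : ℕ → R) : Tm → R
  | .v i => w i
  | .op o a b => S.op o (a.ev S v) (dv S p v w b)
      + sg (b.par p) • S.op o (dv S p v w a) (b.ev S v)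

theorem ev_gr (S : Sup R) (p : ℕ → Bool) (v : ℕ → R × R)
    (hv : ∀ i, Hom S (p i) (v i).1) : ∀ t : Tm,
    t.ev S.gr v = (t.ev S (fun i => (v i).1), dv S p (fun i => (v i).1) (fun i => (v i).2) t)
  | .v i => rfl
  | .op o a b => by
    have ha := ev_gr S p v hv a
    have hb := ev_gr S p v hv b
    have hh := Tm.ev_hom S p (fun i => (v i).1) hv b
    unfold Hom at hh
    rw [Tm.ev, ha, hb, gr_op, Tm.ev, dv]
    simp only [hh, map_zsmul]

theorem ev_update_not_mem (S : Sup R) (v : ℕ → R) (i : ℕ) (x : R) : ∀ t : Tm, i ∉ t.leaves →
    t.ev S (Function.update v i x) = t.ev S v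
  | .v j, h => by
    have : j ≠ i := by
      intro hh; apply h; simp [Tm.leaves, hh]
    simp [Tm.ev, Function.update_of_ne this]
  | .op o a b, h => by
    rw [Tm.leaves, List.mem_append, not_or] at h
    rw [Tm.ev, Tm.ev, ev_update_not_mem S v i x a h.1, ev_update_not_mem S v i x b h.2]

theorem after_append_left (p : ℕ → Bool) (i : ℕ) : ∀ (l m : List ℕ), i ∈ l →
    after p i (l ++ m) = xor (after p i l) (cnt p m)
  | [], _, h => by simp at h
  | j :: l, m, h => by
    by_cases hj : j = i
    · subst hj
      simp [after, cnt_append]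
    · have h' : i ∈ l := by
        rcases List.mem_cons.mp h with h | h
        · exact absurd h.symm hj
        · exact h
      have e2 : Nat.beq j i = false := by
        rw [← Bool.not_eq_true]; simpa using hj
      simp [after, e2, after_append_left p i l m h']

theorem after_append_right (p : ℕ → Bool) (i : ℕ) : ∀ (l m : List ℕ), i ∉ l →
    after p i (l ++ m) = after p i m
  | [], _, _ => rfl
  | j :: l, m, h => by
    rw [List.mem_cons, not_or] at h
    have e2 : Nat.beq j i = false := by
      rw [← Bool.not_eq_true]; simpa using Ne.symm h.1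
    simp [after, e2, after_append_right p i l m h.2]

theorem sum_map_smul (c : ℤ) (L : List ℕ) (f : ℕ → R) :
    c • (L.map f).sum = (L.map fun i => c • f i).sum := by
  induction L with
  | nil => simp
  | cons a l ih => simp [smul_add, ih]

theorem op_sum_left (S : Sup R) (o : Bool) (L : List ℕ) (f : ℕ → R) (y : R) :
    S.op o (L.map f).sum y = (L.map fun i => S.op o (f i) y).sum := by
  induction L with
  | nil => simp
  | cons a l ih => simp [ih]

theorem op_sum_right (S : Sup R) (o : Bool) (L : List ℕ) (f : ℕ → R) (y : R) :
    S.op o y (L.map f).sum = (L.map fun i => S.op o y (f i)).sum := by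
  induction L with
  | nil => simp
  | cons a l ih => simp [ih]

theorem dv_sum (S : Sup R) (p : ℕ → Bool) (v w : ℕ → R) : ∀ t : Tm, t.leaves.Nodup →
    dv S p v w t = (t.leaves.map fun i =>
      sg (after p i t.leaves) • t.ev S (Function.update v i (w i))).sum
  | .v i, _ => by simp [dv, Tm.leaves, after, cnt, sg, Tm.ev]
  | .op o a b, h => by
    rw [Tm.leaves, List.nodup_append] at h
    obtain ⟨ha, hb, hab⟩ := h
    have hab1 : ∀ i ∈ a.leaves, i ∉ b.leaves := fun i hi hj => hab i hi i hj rfl
    have hab2 : ∀ i ∈ b.leaves, i ∉ a.leaves := fun i hi hj => hab i hj i hi rfl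
    rw [dv, dv_sum S p v w a ha, dv_sum S p v w b hb, Tm.leaves, List.map_append,
      List.sum_append, op_sum_left, op_sum_right, sum_map_smul, add_comm]
    congr 1
    · congr 1
      apply List.map_congr_left
      intro i hi
      rw [after_append_left p i _ _ hi, cnt_leaves, ← sg_mul, Tm.ev,
        ev_update_not_mem S v i _ b (hab1 i hi), map_zsmul, AddMonoidHom.smul_apply, smul_smul,
        mul_comm]
    · congr 1
      apply List.map_congr_left
      intro i hi
      rw [after_append_right p i _ _ (hab2 i hi), Tm.ev,
        ev_update_not_mem S v i _ a (hab2 i hi), map_zsmul]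

/-- all terms have the same multiset of pairwise distinct letters -/
def ML (f : Pl) : Prop := ∃ L : List ℕ, L.Nodup ∧ ∀ ct ∈ f, ct.2.leaves.Perm L

theorem evs_cons (S : Sup R) (p : ℕ → Bool) (v : ℕ → R) (c : ℤ × Tm) (f : Pl) :
    evs S p v (c :: f) = (c.1 * sg (inv p c.2.leaves)) • c.2.ev S v + evs S p v f := by
  simp [evs]

theorem evs_gr (S : Sup R) (p : ℕ → Bool) (v : ℕ → R × R) (hv : ∀ i, Hom S (p i) (v i).1)
    (L : List ℕ) (hL : L.Nodup) : ∀ f : Pl, (∀ ct ∈ f, ct.2.leaves.Perm L) →
    evs S.gr p v f = (evs S p (fun i => (v i).1) f,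
      (L.map fun i => sg (cnt p (L.filter fun k => Nat.blt i k)) •
        evs S (flip p i) (Function.update (fun i => (v i).1) i (v i).2) f).sum)
  | [], _ => by
    have : (L.map fun i => sg (cnt p (L.filter fun k => Nat.blt i k)) •
        evs S (flip p i) (Function.update (fun i => (v i).1) i (v i).2) ([] : Pl)).sum = 0 := by
      induction L with
      | nil => rfl
      | cons a l ih => simp [evs]
    rw [this]; rfl
  | ct :: f, h => by
    have ih := evs_gr S p v hv L hL f fun c hc => h c (List.mem_cons_of_mem _ hc)
    have hp := h ct List.mem_cons_self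
    have hnd : ct.2.leaves.Nodup := hp.nodup_iff.mpr hL
    rw [evs_cons, ih, ev_gr S p v hv, dv_sum S p _ _ _ hnd]
    ext
    · simp only [Prod.fst_add, Prod.smul_fst, evs_cons]
    · simp only [Prod.snd_add, Prod.smul_snd, evs_cons, smul_add]
      rw [show (fun i => sg (cnt p (L.filter fun k => Nat.blt i k)) •
            ((ct.1 * sg (inv (flip p i) ct.2.leaves)) •
              ct.2.ev S (Function.update (fun i => (v i).1) i (v i).2)) +
            sg (cnt p (L.filter fun k => Nat.blt i k)) •
              evs S (flip p i) (Function.update (fun i => (v i).1) i (v i).2) f) =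
          fun i => (fun i => sg (cnt p (L.filter fun k => Nat.blt i k)) •
            ((ct.1 * sg (inv (flip p i) ct.2.leaves)) •
              ct.2.ev S (Function.update (fun i => (v i).1) i (v i).2))) i +
            (fun i => sg (cnt p (L.filter fun k => Nat.blt i k)) •
              evs S (flip p i) (Function.update (fun i => (v i).1) i (v i).2) f) i from rfl,
        List.sum_map_add]
      congr 1
      rw [sum_map_smul, ← (hp.map _).sum_eq]
      congr 1
      apply List.map_congr_left
      intro i hi
      rw [smul_smul, smul_smul]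
      congr 1
      have hs := sign_lemma p i ct.2.leaves hnd hi
      rw [cnt_perm p (hp.filter _)] at hs
      rw [← hs, ← sg_mul, ← sg_mul]
      have e1 := sg_sq (inv (flip p i) ct.2.leaves)
      have e2 := sg_sq (inv p ct.2.leaves)
      linear_combination (-(ct.1 * sg (inv p ct.2.leaves) * sg (after p i ct.2.leaves))) * e1

/-- Grassmann extensions satisfy the same super identities -/
theorem SId.gr (S : Sup R) (f : Pl) (hf : ML f) (h : SId S f) : SId S.gr f := by
  obtain ⟨L, hL, hf⟩ := hf
  intro p v hv
  have hv' := fun i => (hom_gr S (p i) (v i)).mp (hv i)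
  rw [evs_gr S p v (fun i => (hv' i).1) L hL f hf, h p _ fun i => (hv' i).1]
  have : (fun i => sg (cnt p (L.filter fun k => Nat.blt i k)) •
      evs S (flip p i) (Function.update (fun i => (v i).1) i (v i).2) f) = fun _ => (0 : R) := by
    funext i
    rw [h, smul_zero]
    intro j
    by_cases hj : j = i
    · subst hj
      simpa [flip] using (hv' j).2
    · simpa [flip, hj] using (hv' j).1
  rw [this]
  simp

end

end Pool.Agent.TP
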