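import Pool.Agent.Helper19_TP.AxL

/-! Table K, generated (helper19). -/

set_option autoImplicit false
set_option maxRecDepth 100000

namespace Pool.Agent.TP

def tK0 : Tb := (Tb.node (nat_lit 3085) (Tb.node (nat_lit 3083) (Tb.leaf (nat_lit 3081) (nat_lit 13) (V.cons (nat_lit 35) false (nat_lit 1) V.nil) (Rw.df (nat_lit 35) (nat_lit 0) (nat_lit 0))) (Tb.leaf (nat_lit 3083) (nat_lit 16) (V.cons (nat_lit 41) false (nat_lit 1) V.nil) (Rw.df (nat_lit 41) (nat_lit 0) (nat_lit 0)))) (Tb.node (nat_lit 3087) (Tb.leaf (nat_lit 3085) (nat_lit 18) (V.cons (nat_lit 45) false (nat_lit 1) V.nil) (Rw.df (nat_lit 45) (nat_lit 0) (nat_lit 0))) (Tb.node (nat_lit 3089) (Tb.leaf (nat_lit 3087) (nat_lit 20) (V.cons (nat_lit 49) false (nat_lit 1) V.nil) (Rw.df (nat_lit 49) (nat_lit 0) (nat_lit 0))) (Tb.leaf (nat_lit 3089) (nat_lit 22) (V.cons (nat_lit 53) false (nat_lit 1) V.nil) (Rw.df (nat_lit 53) (nat_lit 0) (nat_lit 0))))))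
def tK1 : Tb := (Tb.node (nat_lit 3081) (Tb.node (nat_lit 3078) (Tb.node (nat_lit 3076) (Tb.leaf (nat_lit 3074) (nat_lit 5) (V.cons (nat_lit 18) false (nat_lit 1) V.nil) (Rw.df (nat_lit 18) (nat_lit 0) (nat_lit 0))) (Tb.leaf (nat_lit 3076) (nat_lit 4) (V.cons (nat_lit 16) false (nat_lit 1) V.nil) (Rw.df (nat_lit 16) (nat_lit 0) (nat_lit 0)))) (Tb.node (nat_lit 3079) (Tb.leaf (nat_lit 3078) (nat_lit 3) (V.cons (nat_lit 14) false (nat_lit 1) V.nil) (Rw.df (nat_lit 14) (nat_lit 0) (nat_lit 0))) (Tb.leaf (nat_lit 3079) (nat_lit 11) (V.cons (nat_lit 31) false (nat_lit 1) V.nil) (Rw.df (nat_lit 31) (nat_lit 0) (nat_lit 0))))) tK0)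
def tK2 : Tb := (Tb.node (nat_lit 3104) (Tb.node (nat_lit 3102) (Tb.leaf (nat_lit 3100) (nat_lit 53) (V.cons (nat_lit 86) false (nat_lit 1) (V.cons (nat_lit 88) true (nat_lit 1) (V.cons (nat_lit 92) false (nat_lit 1) (V.cons (nat_lit 94) false (nat_lit 1) V.nil)))) (Rw.rw (nat_lit 0) (nat_lit 0) (Ct.cons true (nat_lit 1) (nat_lit 0) (nat_lit 8070456029811310595) Ct.nil))) (Tb.leaf (nat_lit 3102) (nat_lit 54) (V.cons (nat_lit 96) false (nat_lit 1) V.nil) (Rw.df (nat_lit 96) (nat_lit 0) (nat_lit 0)))) (Tb.node (nat_lit 3106) (Tb.leaf (nat_lit 3104) (nat_lit 55) (V.cons (nat_lit 98) false (nat_lit 1) V.nil) (Rw.df (nat_lit 98) (nat_lit 0) (nat_lit 0))) (Tb.node (nat_lit 3108) (Tb.leaf (nat_lit 3106) (nat_lit 59) (V.cons (nat_lit 102) false (nat_lit 1) V.nil) (Rw.df (nat_lit 102) (nat_lit 0) (nat_lit 0))) (Tb.leaf (nat_lit 3108) (nat_lit 60) (V.cons (nat_lit 104) false (nat_lit 1) V.nil) (Rw.df (nat_lit 104) (nat_lit 0) (nat_lit 0))))))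
def tK3 : Tb := (Tb.node (nat_lit 3100) (Tb.node (nat_lit 3096) (Tb.node (nat_lit 3094) (Tb.leaf (nat_lit 3092) (nat_lit 32) (V.cons (nat_lit 66) false (nat_lit 1) V.nil) (Rw.df (nat_lit 66) (nat_lit 0) (nat_lit 0))) (Tb.leaf (nat_lit 3094) (nat_lit 44) (V.cons (nat_lit 72) false (nat_lit 1) (V.cons (nat_lit 74) true (nat_lit 1) (V.cons (nat_lit 76) false (nat_lit 1) (V.cons (nat_lit 78) false (nat_lit 1) (V.cons (nat_lit 80) false (nat_lit 1) (V.cons (nat_lit 82) true (nat_lit 2) V.nil)))))) (Rw.rw (nat_lit 0) (nat_lit 0) (Ct.cons true (nat_lit 1) (nat_lit 0) (nat_lit 5764615219622969347) Ct.nil)))) (Tb.node (nat_lit 3098) (Tb.leaf (nat_lit 3096) (nat_lit 36) (V.cons (nat_lit 72) false (nat_lit 1) V.nil) (Rw.df (nat_lit 72) (nat_lit 0) (nat_lit 0))) (Tb.leaf (nat_lit 3098) (nat_lit 45) (V.cons (nat_lit 84) false (nat_lit 1) V.nil) (Rw.df (nat_lit 84) (nat_lit 0) (nat_lit 0))))) tK2)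
def tK4 : Tb := (Tb.node (nat_lit 3092) tK1 tK3)
def tK5 : Tb := (Tb.node (nat_lit 3122) (Tb.node (nat_lit 3120) (Tb.leaf (nat_lit 3118) (nat_lit 74) (V.cons (nat_lit 122) false (nat_lit 1) V.nil) (Rw.df (nat_lit 122) (nat_lit 0) (nat_lit 0))) (Tb.leaf (nat_lit 3120) (nat_lit 77) (V.cons (nat_lit 126) false (nat_lit 1) V.nil) (Rw.df (nat_lit 126) (nat_lit 0) (nat_lit 0)))) (Tb.node (nat_lit 3125) (Tb.leaf (nat_lit 3122) (nat_lit 78) (V.cons (nat_lit 128) false (nat_lit 1) V.nil) (Rw.df (nat_lit 128) (nat_lit 0) (nat_lit 0))) (Tb.node (nat_lit 3127) (Tb.leaf (nat_lit 3125) (nat_lit 92) (V.cons (nat_lit 145) false (nat_lit 1) V.nil) (Rw.df (nat_lit 145) (nat_lit 0) (nat_lit 0))) (Tb.leaf (nat_lit 3127) (nat_lit 93) (V.cons (nat_lit 147) false (nat_lit 1) V.nil) (Rw.df (nat_lit 147) (nat_lit 0) (nat_lit 0))))))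
def tK6 : Tb := (Tb.node (nat_lit 3118) (Tb.node (nat_lit 3114) (Tb.node (nat_lit 3112) (Tb.leaf (nat_lit 3110) (nat_lit 61) (V.cons (nat_lit 106) false (nat_lit 1) V.nil) (Rw.df (nat_lit 106) (nat_lit 0) (nat_lit 0))) (Tb.leaf (nat_lit 3112) (nat_lit 68) (V.cons (nat_lit 114) false (nat_lit 1) V.nil) (Rw.df (nat_lit 114) (nat_lit 0) (nat_lit 0)))) (Tb.node (nat_lit 3116) (Tb.leaf (nat_lit 3114) (nat_lit 69) (V.cons (nat_lit 116) false (nat_lit 1) V.nil) (Rw.df (nat_lit 116) (nat_lit 0) (nat_lit 0))) (Tb.leaf (nat_lit 3116) (nat_lit 73) (V.cons (nat_lit 120) false (nat_lit 1) V.nil) (Rw.df (nat_lit 120) (nat_lit 0) (nat_lit 0))))) tK5)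
def tK7 : Tb := (Tb.node (nat_lit 3133) (Tb.node (nat_lit 3131) (Tb.leaf (nat_lit 3129) (nat_lit 94) (V.cons (nat_lit 149) false (nat_lit 1) V.nil) (Rw.df (nat_lit 149) (nat_lit 0) (nat_lit 0))) (Tb.leaf (nat_lit 3131) (nat_lit 112) (V.cons (nat_lit 165) false (nat_lit 1) V.nil) (Rw.df (nat_lit 165) (nat_lit 0) (nat_lit 0)))) (Tb.node (nat_lit 3135) (Tb.leaf (nat_lit 3133) (nat_lit 113) (V.cons (nat_lit 167) false (nat_lit 1) V.nil) (Rw.df (nat_lit 167) (nat_lit 0) (nat_lit 0))) (Tb.node (nat_lit 3137) (Tb.leaf (nat_lit 3135) (nat_lit 129) (V.cons (nat_lit 167) true (nat_lit 1) (V.cons (nat_lit 171) false (nat_lit 1) (V.cons (nat_lit 177) false (nat_lit 1) (V.cons (nat_lit 187) false (nat_lit 1) (V.cons (nat_lit 189) false (nat_lit 1) V.nil))))) (Rw.rw (nat_lit 0) (nat_lit 0) (Ct.cons false (nat_lit 1) (nat_lit 0) (nat_lit 8070461527369449475) (Ct.cons true (nat_lit 1) (nat_lit 0) (nat_lit 5764615219626115075) (Ct.cons false (nat_lit 1) (nat_lit 0) (nat_lit 11529222742655107075) Ct.nil))))) (Tb.leaf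 (nat_lit 3137) (nat_lit 145) (V.cons (nat_lit 191) false (nat_lit 1) (V.cons (nat_lit 193) true (nat_lit 2) (V.cons (nat_lit 197) true (nat_lit 1) (V.cons (nat_lit 199) false (nat_lit 3) (V.cons (nat_lit 201) true (nat_lit 2) V.nil))))) (Rw.rw (nat_lit 0) (nat_lit 0) (Ct.cons false (nat_lit 1) (nat_lit 0) (nat_lit 16140908761084592131) Ct.nil))))))
def tK8 : Tb := (Tb.node (nat_lit 3143) (Tb.node (nat_lit 3141) (Tb.leaf (nat_lit 3139) (nat_lit 138) (V.cons (nat_lit 191) false (nat_lit 1) V.nil) (Rw.df (nat_lit 191) (nat_lit 0) (nat_lit 0))) (Tb.leaf (nat_lit 3141) (nat_lit 139) (V.cons (nat_lit 193) false (nat_lit 1) V.nil) (Rw.df (nat_lit 193) (nat_lit 0) (nat_lit 0)))) (Tb.node (nat_lit 3145) (Tb.leaf (nat_lit 3143) (nat_lit 149) (V.cons (nat_lit 203) false (nat_lit 1) V.nil) (Rw.df (nat_lit 203) (nat_lit 0) (nat_lit 0))) (Tb.node (nat_lit 3147) (Tb.leaf (nat_lit 3145) (nat_lit 150) (V.cons (nat_lit 205) false (nat_lit 1) V.nil) (Rw.df (nat_lit 205) (nat_lit 0) (nat_lit 0))) (Tb.leaf (nat_lit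 3147) (nat_lit 151) (V.cons (nat_lit 207) false (nat_lit 1) V.nil) (Rw.df (nat_lit 207) (nat_lit 0) (nat_lit 0))))))
def tK9 : Tb := (Tb.node (nat_lit 3139) tK7 tK8)
def tK10 : Tb := (Tb.node (nat_lit 3129) tK6 tK9)
def tK11 : Tb := (Tb.node (nat_lit 3110) tK4 tK10)
def tK12 : Tb := (Tb.node (nat_lit 3161) (Tb.node (nat_lit 3159) (Tb.leaf (nat_lit 3157) (nat_lit 176) (V.cons (nat_lit 231) false (nat_lit 1) V.nil) (Rw.df (nat_lit 231) (nat_lit 0) (nat_lit 0))) (Tb.leaf (nat_lit 3159) (nat_lit 177) (V.cons (nat_lit 233) false (nat_lit 1) V.nil) (Rw.df (nat_lit 233) (nat_lit 0) (nat_lit 0)))) (Tb.node (nat_lit 3163) (Tb.leaf (nat_lit 3161) (nat_lit 178) (V.cons (nat_lit 235) false (nat_lit 1) V.nil) (Rw.df (nat_lit 235) (nat_lit 0) (nat_lit 0))) (Tb.node (nat_lit 3165) (Tb.leaf (nat_lit 3163) (nat_lit 179) (V.cons (nat_lit 237) false (nat_lit 1) V.nil) (Rw.df (nat_lit 237) (nat_lit 0) (nat_lit 0))) (Tb.leaf (nat_lit 3165) (nat_lit 180) (V.cons (nat_lit 239) false (nat_lit 1) V.nil) (Rw.df (nat_lit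 239) (nat_lit 0) (nat_lit 0))))))
def tK13 : Tb := (Tb.node (nat_lit 3157) (Tb.node (nat_lit 3153) (Tb.node (nat_lit 3151) (Tb.leaf (nat_lit 3149) (nat_lit 152) (V.cons (nat_lit 209) false (nat_lit 1) V.nil) (Rw.df (nat_lit 209) (nat_lit 0) (nat_lit 0))) (Tb.leaf (nat_lit 3151) (nat_lit 153) (V.cons (nat_lit 211) false (nat_lit 1) V.nil) (Rw.df (nat_lit 211) (nat_lit 0) (nat_lit 0)))) (Tb.node (nat_lit 3155) (Tb.leaf (nat_lit 3153) (nat_lit 154) (V.cons (nat_lit 213) false (nat_lit 1) V.nil) (Rw.df (nat_lit 213) (nat_lit 0) (nat_lit 0))) (Tb.leaf (nat_lit 3155) (nat_lit 175) (V.cons (nat_lit 229) false (nat_lit 1) V.nil) (Rw.df (nat_lit 229) (nat_lit 0) (nat_lit 0))))) tK12)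
def tK14 : Tb := (Tb.node (nat_lit 3171) (Tb.node (nat_lit 3169) (Tb.leaf (nat_lit 3167) (nat_lit 211) (V.cons (nat_lit 257) false (nat_lit 3) (V.cons (nat_lit 259) true (nat_lit 1) (V.cons (nat_lit 261) true (nat_lit 1) (V.cons (nat_lit 263) true (nat_lit 1) (V.cons (nat_lit 265) true (nat_lit 1) V.nil))))) (Rw.rw (nat_lit 0) (nat_lit 0) (Ct.cons false (nat_lit 1) (nat_lit 0) (nat_lit 8070458228848197635) Ct.nil))) (Tb.leaf (nat_lit 3169) (nat_lit 201) (V.cons (nat_lit 255) false (nat_lit 1) V.nil) (Rw.df (nat_lit 255) (nat_lit 0) (nat_lit 0)))) (Tb.node (nat_lit 3173) (Tb.leaf (nat_lit 3171) (nat_lit 202) (V.cons (nat_lit 257) false (nat_lit 1) V.nil) (Rw.df (nat_lit 257) (nat_lit 0) (nat_lit 0))) (Tb.node (nat_lit 3175) (Tb.leaf (nat_lit 3173) (nat_lit 212) (V.cons (nat_lit 267) false (nat_lit 1) V.nil) (Rw.df (nat_lit 267) (nat_lit 0) (nat_lit 0))) (Tb.leaf (nat_lit 3175) (nat_lit 213) (V.cons (nat_lit 269) false (nat_lit 1) V.nil) (Rw.df (nat_lit 269) (nat_lit 0) (nat_lit 0))))))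
def tK15 : Tb := (Tb.node (nat_lit 3181) (Tb.node (nat_lit 3179) (Tb.leaf (nat_lit 3177) (nat_lit 228) (V.cons (nat_lit 267) false (nat_lit 2) (V.cons (nat_lit 271) true (nat_lit 2) (V.cons (nat_lit 273) false (nat_lit 2) (V.cons (nat_lit 275) true (nat_lit 1) (V.cons (nat_lit 277) true (nat_lit 1) (V.cons (nat_lit 279) true (nat_lit 1) (V.cons (nat_lit 281) false (nat_lit 2) (V.cons (nat_lit 285) false (nat_lit 2) V.nil)))))))) (Rw.rw (nat_lit 1) (nat_lit 0) (Ct.cons true (nat_lit 3) (nat_lit 0) (nat_lit 8070468124437118979) (Ct.cons true (nat_lit 1) (nat_lit 1) (nat_lit 3626780917616097931296771) Ct.nil)))) (Tb.leaf (nat_lit 3179) (nat_lit 214) (V.cons (nat_lit 271) false (nat_lit 1) V.nil) (Rw.df (nat_lit 271) (nat_lit 0) (nat_lit 0)))) (Tb.node (nat_lit 3183) (Tb.leaf (nat_lit 3181) (nat_lit 215) (V.cons (nat_lit 273) false (nat_lit 1) V.nil) (Rw.df (nat_lit 273) (nat_lit 0) (nat_lit 0))) (Tb.node (nat_lit 3185) (Tb.leaf (nat_lit 3183) (nat_lit 216) (V.cons (nat_lit 275) false (nat_lit 1) V.nil)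 (Rw.df (nat_lit 275) (nat_lit 0) (nat_lit 0))) (Tb.leaf (nat_lit 3185) (nat_lit 242) (V.cons (nat_lit 289) false (nat_lit 3) (V.cons (nat_lit 291) true (nat_lit 1) (V.cons (nat_lit 293) true (nat_lit 1) (V.cons (nat_lit 295) true (nat_lit 1) (V.cons (nat_lit 297) true (nat_lit 1) V.nil))))) (Rw.rw (nat_lit 0) (nat_lit 0) (Ct.cons false (nat_lit 1) (nat_lit 0) (nat_lit 5764613020611248131) Ct.nil))))))
def tK16 : Tb := (Tb.node (nat_lit 3177) tK14 tK15)
def tK17 : Tb := (Tb.node (nat_lit 3167) tK13 tK16)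
def tK18 : Tb := (Tb.node (nat_lit 3212) (Tb.node (nat_lit 3210) (Tb.leaf (nat_lit 3208) (nat_lit 244) (V.cons (nat_lit 300) false (nat_lit 1) V.nil) (Rw.df (nat_lit 300) (nat_lit 0) (nat_lit 0))) (Tb.leaf (nat_lit 3210) (nat_lit 270) (V.cons (nat_lit 298) false (nat_lit 8) (V.cons (nat_lit 300) false (nat_lit 5) (V.cons (nat_lit 302) true (nat_lit 60) (V.cons (nat_lit 304) false (nat_lit 6) (V.cons (nat_lit 306) false (nat_lit 18) (V.cons (nat_lit 308) true (nat_lit 10) (V.cons (nat_lit 310) true (nat_lit 29) (V.cons (nat_lit 312) false (nat_lit 78) (V.cons (nat_lit 314) true (nat_lit 15) (V.cons (nat_lit 316) true (nat_lit 33) (V.cons (nat_lit 318) true (nat_lit 6) (V.cons (nat_lit 320) true (nat_lit 45) (V.cons (nat_lit 322) true (nat_lit 7) (V.cons (nat_lit 324) false (nat_lit 93) (V.cons (nat_lit 326) false (nat_lit 3) (V.cons (nat_lit 328) false (nat_lit 7) (V.cons (nat_lit 330) true (nat_lit 57) (V.cons (nat_lit 332) true (nat_lit 108) V.nil)))))))))))))))))) (Rw.rw (nat_lit 0) (nat_lit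 0) (Ct.cons true (nat_lit 1) (nat_lit 0) (nat_lit 26517200103522959363) (Ct.cons true (nat_lit 2) (nat_lit 0) (nat_lit 44963946376255766533) (Ct.cons false (nat_lit 2) (nat_lit 0) (nat_lit 18446755068833169415) (Ct.cons false (nat_lit 7) (nat_lit 0) (nat_lit 40352260357828378629) (Ct.cons true (nat_lit 14) (nat_lit 0) (nat_lit 11529222742660349955) (Ct.cons true (nat_lit 12) (nat_lit 0) (nat_lit 8070458228866023429) (Ct.cons false (nat_lit 12) (nat_lit 0) (nat_lit 9223383031976296451) (Ct.cons false (nat_lit 13) (nat_lit 0) (nat_lit 18446751770301431815) (Ct.cons true (nat_lit 3) (nat_lit 0) (nat_lit 13835066851382525955) (Ct.cons false (nat_lit 3) (nat_lit 0) (nat_lit 35740574339398893573) (Ct.cons true (nat_lit 3) (nat_lit 0) (nat_lit 24211357094307168259) (Ct.cons true (nat_lit 2) (nat_lit 0) (nat_lit 8070458228857634819) (Ct.cons false (nat_lit 4) (nat_lit 0) (nat_lit 16140909860594122757) (Ct.cons true (nat_lit 8) (nat_lit 0) (nat_lit 5764615219641843715) (Ct.cons false (nat_lit 29) (nat_lit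 0) (nat_lit 8070478020043866115) (Ct.cons false (nat_lit 29) (nat_lit 0) (nat_lit 28823043112736653315) (Ct.cons true (nat_lit 1) (nat_lit 0) (nat_lit 8070480219069218819) (Ct.cons true (nat_lit 6) (nat_lit 0) (nat_lit 31128888320973602819) (Ct.cons true (nat_lit 4) (nat_lit 0) (nat_lit 11529223842166734851) (Ct.cons false (nat_lit 3) (nat_lit 0) (nat_lit 49575632394683154439) (Ct.cons true (nat_lit 5) (nat_lit 0) (nat_lit 8070486816136888325) (Ct.cons false (nat_lit 1) (nat_lit 0) (nat_lit 11529226041192087555) (Ct.cons true (nat_lit 16) (nat_lit 0) (nat_lit 16140908761087737861) (Ct.cons true (nat_lit 6) (nat_lit 0) (nat_lit 9223385231001649155) (Ct.cons false (nat_lit 6) (nat_lit 0) (nat_lit 5764613020614393859) (Ct.cons false (nat_lit 2) (nat_lit 1) (nat_lit 8462488807763931592392707) (Ct.cons false (nat_lit 4) (nat_lit 0) (nat_lit 11529220543634997251) (Ct.cons true (nat_lit 18) (nat_lit 0) (nat_lit 11529232638261854215) (Ct.cons false (nat_lit 2) (nat_lit 0) (nat_lit 13835073448452292615)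 (Ct.cons true (nat_lit 2) (nat_lit 0) (nat_lit 33434731330187296771) (Ct.cons true (nat_lit 5) (nat_lit 0) (nat_lit 16140906562062385157) (Ct.cons true (nat_lit 5) (nat_lit 0) (nat_lit 9223387430022807557) (Ct.cons true (nat_lit 1) (nat_lit 1) (nat_lit 8462488807770528664256517) (Ct.cons true (nat_lit 18) (nat_lit 0) (nat_lit 5764635010832269315) (Ct.cons false (nat_lit 6) (nat_lit 0) (nat_lit 35740572140377735173) (Ct.cons false (nat_lit 2) (nat_lit 0) (nat_lit 8070458228868120581) (Ct.cons false (nat_lit 1) (nat_lit 1) (nat_lit 8462484196077913167101957) (Ct.cons false (nat_lit 1) (nat_lit 1) (nat_lit 8462486501918723355443203) Ct.nil))))))))))))))))))))))))))))))))))))))))) (Tb.node (nat_lit 3214) (Tb.leaf (nat_lit 3212) (nat_lit 245) (V.cons (nat_lit 302) false (nat_lit 3) V.nil) (Rw.df (nat_lit 302) (nat_lit 0) (nat_lit 1))) (Tb.node (nat_lit 3216) (Tb.leaf (nat_lit 3214) (nat_lit 246) (V.cons (nat_lit 304) false (nat_lit 1) V.nil) (Rw.df (nat_lit 304) (nat_lit 0) (nat_lit 0))) (Tb.leaf (nat_lit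 3216) (nat_lit 305) (V.cons (nat_lit 336) false (nat_lit 1) V.nil) (Rw.df (nat_lit 336) (nat_lit 0) (nat_lit 0))))))
def tK19 : Tb := (Tb.node (nat_lit 3208) (Tb.node (nat_lit 3204) (Tb.node (nat_lit 3189) (Tb.leaf (nat_lit 3187) (nat_lit 232) (V.cons (nat_lit 287) false (nat_lit 1) V.nil) (Rw.df (nat_lit 287) (nat_lit 0) (nat_lit 0))) (Tb.leaf (nat_lit 3189) (nat_lit 233) (V.cons (nat_lit 289) false (nat_lit 1) V.nil) (Rw.df (nat_lit 289) (nat_lit 0) (nat_lit 0)))) (Tb.node (nat_lit 3206) (Tb.leaf (nat_lit 3204) (nat_lit 243) (V.cons (nat_lit 298) false (nat_lit 1) V.nil) (Rw.df (nat_lit 298) (nat_lit 0) (nat_lit 0))) (Tb.leaf (nat_lit 3206) (nat_lit 274) (V.cons (nat_lit 298) false (nat_lit 24) (V.cons (nat_lit 300) false (nat_lit 8) (V.cons (nat_lit 302) true (nat_lit 165) (V.cons (nat_lit 304) false (nat_lit 18) (V.cons (nat_lit 306) false (nat_lit 54) (V.cons (nat_lit 308) true (nat_lit 30) (V.cons (nat_lit 310) true (nat_lit 75) (V.cons (nat_lit 312) false (nat_lit 222) (V.cons (nat_lit 314)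 true (nat_lit 69) (V.cons (nat_lit 316) true (nat_lit 78) (V.cons (nat_lit 318) true (nat_lit 15) (V.cons (nat_lit 320) true (nat_lit 138) (V.cons (nat_lit 322) true (nat_lit 14) (V.cons (nat_lit 324) false (nat_lit 255) (V.cons (nat_lit 326) false (nat_lit 21) (V.cons (nat_lit 328) false (nat_lit 14) (V.cons (nat_lit 330) true (nat_lit 156) (V.cons (nat_lit 332) true (nat_lit 309) V.nil)))))))))))))))))) (Rw.rw (nat_lit 0) (nat_lit 0) (Ct.cons true (nat_lit 1) (nat_lit 0) (nat_lit 5764635010832269315) Ct.nil))))) tK18)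
def tK20 : Tb := (Tb.node (nat_lit 3222) (Tb.node (nat_lit 3220) (Tb.leaf (nat_lit 3218) (nat_lit 306) (V.cons (nat_lit 338) false (nat_lit 1) V.nil) (Rw.df (nat_lit 338) (nat_lit 0) (nat_lit 0))) (Tb.leaf (nat_lit 3220) (nat_lit 307) (V.cons (nat_lit 340) false (nat_lit 3) V.nil) (Rw.df (nat_lit 340) (nat_lit 0) (nat_lit 1)))) (Tb.node (nat_lit 3224) (Tb.leaf (nat_lit 3222) (nat_lit 308) (V.cons (nat_lit 342) false (nat_lit 1) V.nil) (Rw.df (nat_lit 342) (nat_lit 0) (nat_lit 0))) (Tb.node (nat_lit 3226) (Tb.leaf (nat_lit 3224) (nat_lit 309) (V.cons (nat_lit 344) false (nat_lit 6) V.nil) (Rw.df (nat_lit 344) (nat_lit 1) (nat_lit 1))) (Tb.leaf (nat_lit 3226) (nat_lit 342) (V.cons (nat_lit 336) false (nat_lit 12) (V.cons (nat_lit 338) false (nat_lit 2) (V.cons (nat_lit 340) true (nat_lit 325) (V.cons (nat_lit 342) true (nat_lit 15) (V.cons (nat_lit 344) false (nat_lit 773) (V.cons (nat_lit 348) false (nat_lit 37) (V.cons (nat_lit 350) false (nat_lit 331) (V.cons (nat_lit 352) false (nat_lit 239)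 (V.cons (nat_lit 354) false (nat_lit 4) (V.cons (nat_lit 356) true (nat_lit 77) (V.cons (nat_lit 358) true (nat_lit 2) (V.cons (nat_lit 360) true (nat_lit 1) (V.cons (nat_lit 362) true (nat_lit 43) (V.cons (nat_lit 364) false (nat_lit 179) (V.cons (nat_lit 366) false (nat_lit 194) (V.cons (nat_lit 368) true (nat_lit 187) (V.cons (nat_lit 370) true (nat_lit 131) (V.cons (nat_lit 372) false (nat_lit 23) V.nil)))))))))))))))))) (Rw.rw (nat_lit 0) (nat_lit 0) (Ct.cons true (nat_lit 1) (nat_lit 0) (nat_lit 8070456029838573571) Ct.nil))))))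
def tK21 : Tb := (Tb.node (nat_lit 3232) (Tb.node (nat_lit 3230) (Tb.leaf (nat_lit 3228) (nat_lit 310) (V.cons (nat_lit 346) false (nat_lit 1) V.nil) (Rw.df (nat_lit 346) (nat_lit 0) (nat_lit 0))) (Tb.leaf (nat_lit 3230) (nat_lit 311) (V.cons (nat_lit 348) false (nat_lit 6) V.nil) (Rw.df (nat_lit 348) (nat_lit 1) (nat_lit 1)))) (Tb.node (nat_lit 3234) (Tb.leaf (nat_lit 3232) (nat_lit 312) (V.cons (nat_lit 350) false (nat_lit 3) V.nil) (Rw.df (nat_lit 350) (nat_lit 0) (nat_lit 1))) (Tb.node (nat_lit 3236) (Tb.leaf (nat_lit 3234) (nat_lit 313) (V.cons (nat_lit 352) false (nat_lit 3) V.nil) (Rw.df (nat_lit 352) (nat_lit 0) (nat_lit 1))) (Tb.leaf (nat_lit 3236) (nat_lit 367) (V.cons (nat_lit 374) false (nat_lit 9) V.nil) (Rw.df (nat_lit 374) (nat_lit 0) (nat_lit 2))))))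
def tK22 : Tb := (Tb.node (nat_lit 3228) tK20 tK21)
def tK23 : Tb := (Tb.node (nat_lit 3218) tK19 tK22)
def tK24 : Tb := (Tb.node (nat_lit 3187) tK17 tK23)
def tK25 : Tb := (Tb.node (nat_lit 3149) tK11 tK24)
def tK26 : Tb := (Tb.node (nat_lit 3250) (Tb.node (nat_lit 3248) (Tb.leaf (nat_lit 3246) (nat_lit 372) (V.cons (nat_lit 384) false (nat_lit 3) V.nil) (Rw.df (nat_lit 384) (nat_lit 0) (nat_lit 1))) (Tb.leaf (nat_lit 3248) (nat_lit 373) (V.cons (nat_lit 386) false (nat_lit 2) V.nil) (Rw.df (nat_lit 386) (nat_lit 1) (nat_lit 0)))) (Tb.node (nat_lit 3252) (Tb.leaf (nat_lit 3250) (nat_lit 374) (V.cons (nat_lit 388) false (nat_lit 3) V.nil) (Rw.df (nat_lit 388) (nat_lit 0) (nat_lit 1))) (Tb.node (nat_lit 3254) (Tb.leaf (nat_lit 3252) (nat_lit 375) (V.cons (nat_lit 390) false (nat_lit 2) V.nil) (Rw.df (nat_lit 390) (nat_lit 1) (nat_lit 0))) (Tb.leaf (nat_lit 3254) (nat_lit 397) (V.cons (nat_lit 374) true (nat_lit 117) (V.cons (nat_lit 376) false (nat_lit 198) (V.cons (nat_lit 380) false (nat_lit 90)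 (V.cons (nat_lit 382) true (nat_lit 108) (V.cons (nat_lit 384) false (nat_lit 12) (V.cons (nat_lit 386) true (nat_lit 62) (V.cons (nat_lit 388) false (nat_lit 30) (V.cons (nat_lit 392) false (nat_lit 36) (V.cons (nat_lit 394) true (nat_lit 108) (V.cons (nat_lit 396) false (nat_lit 9) (V.cons (nat_lit 398) true (nat_lit 54) (V.cons (nat_lit 400) true (nat_lit 30) (V.cons (nat_lit 402) true (nat_lit 6) (V.cons (nat_lit 404) true (nat_lit 45) (V.cons (nat_lit 406) true (nat_lit 9) (V.cons (nat_lit 408) false (nat_lit 108) (V.cons (nat_lit 410) false (nat_lit 90) (V.cons (nat_lit 414) false (nat_lit 2) (V.cons (nat_lit 416) false (nat_lit 9) (V.cons (nat_lit 418) true (nat_lit 21) V.nil)))))))))))))))))))) (Rw.rw (nat_lit 0) (nat_lit 1) (Ct.cons false (nat_lit 1) (nat_lit 1) (nat_lit 6044632556846455792336899) Ct.nil))))))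
def tK27 : Tb := (Tb.node (nat_lit 3246) (Tb.node (nat_lit 3242) (Tb.node (nat_lit 3240) (Tb.leaf (nat_lit 3238) (nat_lit 368) (V.cons (nat_lit 376) false (nat_lit 9) V.nil) (Rw.df (nat_lit 376) (nat_lit 0) (nat_lit 2))) (Tb.leaf (nat_lit 3240) (nat_lit 369) (V.cons (nat_lit 378) false (nat_lit 18) V.nil) (Rw.df (nat_lit 378) (nat_lit 1) (nat_lit 2)))) (Tb.node (nat_lit 3244) (Tb.leaf (nat_lit 3242) (nat_lit 370) (V.cons (nat_lit 380) false (nat_lit 6) V.nil) (Rw.df (nat_lit 380) (nat_lit 1) (nat_lit 1))) (Tb.leaf (nat_lit 3244) (nat_lit 371) (V.cons (nat_lit 382) false (nat_lit 9) V.nil) (Rw.df (nat_lit 382) (nat_lit 0) (nat_lit 2))))) tK26)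
def tK28 : Tb := (Tb.node (nat_lit 3268) (Tb.node (nat_lit 3266) (Tb.leaf (nat_lit 3264) (nat_lit 466) (V.cons (nat_lit 432) true (nat_lit 1) (V.cons (nat_lit 434) false (nat_lit 1) (V.cons (nat_lit 438) true (nat_lit 1) V.nil))) (Rw.rw (nat_lit 1) (nat_lit 0) (Ct.cons true (nat_lit 1) (nat_lit 0) (nat_lit 16140909860592025603) Ct.nil))) (Tb.leaf (nat_lit 3266) (nat_lit 451) (V.cons (nat_lit 426) false (nat_lit 1) V.nil) (Rw.df (nat_lit 426) (nat_lit 0) (nat_lit 0)))) (Tb.node (nat_lit 3270) (Tb.leaf (nat_lit 3268) (nat_lit 452) (V.cons (nat_lit 428) false (nat_lit 1) V.nil) (Rw.df (nat_lit 428) (nat_lit 0) (nat_lit 0))) (Tb.node (nat_lit 3272) (Tb.leaf (nat_lit 3270) (nat_lit 453) (V.cons (nat_lit 430) false (nat_lit 1) V.nil) (Rw.df (nat_lit 430) (nat_lit 0) (nat_lit 0))) (Tb.leaf (nat_lit 3272) (nat_lit 454) (V.cons (nat_lit 432) false (nat_lit 1) V.nil) (Rw.df (nat_lit 432) (nat_lit 0) (nat_lit 0))))))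
def tK29 : Tb := (Tb.node (nat_lit 3264) (Tb.node (nat_lit 3260) (Tb.node (nat_lit 3258) (Tb.leaf (nat_lit 3256) (nat_lit 376) (V.cons (nat_lit 392) false (nat_lit 18) V.nil) (Rw.df (nat_lit 392) (nat_lit 1) (nat_lit 2))) (Tb.leaf (nat_lit 3258) (nat_lit 395) (V.cons (nat_lit 374) true (nat_lit 18) (V.cons (nat_lit 376) false (nat_lit 162) (V.cons (nat_lit 378) false (nat_lit 90) (V.cons (nat_lit 380) true (nat_lit 60) (V.cons (nat_lit 382) false (nat_lit 36) (V.cons (nat_lit 384) true (nat_lit 15) (V.cons (nat_lit 386) true (nat_lit 10) (V.cons (nat_lit 388) true (nat_lit 6) (V.cons (nat_lit 390) true (nat_lit 10) (V.cons (nat_lit 392) false (nat_lit 144) (V.cons (nat_lit 394) true (nat_lit 153) (V.cons (nat_lit 396) false (nat_lit 9) (V.cons (nat_lit 398) true (nat_lit 144) (V.cons (nat_lit 400) true (nat_lit 42) (V.cons (nat_lit 402) false (nat_lit 66) (V.cons (nat_lit 404) true (nat_lit 117) (V.cons (nat_lit 406) true (nat_lit 36) (V.cons (nat_lit 408) false (nat_lit 180) (V.cons (nat_lit 410)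 false (nat_lit 234) (V.cons (nat_lit 412) true (nat_lit 108) (V.cons (nat_lit 414) false (nat_lit 10) (V.cons (nat_lit 416) false (nat_lit 63) (V.cons (nat_lit 418) true (nat_lit 21) (V.cons (nat_lit 420) true (nat_lit 12) (V.cons (nat_lit 422) false (nat_lit 12) V.nil))))))))))))))))))))))))) (Rw.rw (nat_lit 2) (nat_lit 0) (Ct.cons false (nat_lit 4) (nat_lit 0) (nat_lit 20752594779517222919) (Ct.cons true (nat_lit 4) (nat_lit 0) (nat_lit 5764615219652329475) (Ct.cons false (nat_lit 4) (nat_lit 0) (nat_lit 8070456029842767875) (Ct.cons false (nat_lit 19) (nat_lit 0) (nat_lit 49575632394683154435) (Ct.cons false (nat_lit 6) (nat_lit 0) (nat_lit 11529232638261854211) (Ct.cons false (nat_lit 6) (nat_lit 0) (nat_lit 40352260357826281475) (Ct.cons false (nat_lit 20) (nat_lit 0) (nat_lit 8070493413206654979) (Ct.cons true (nat_lit 8) (nat_lit 0) (nat_lit 38046415149589331971) (Ct.cons false (nat_lit 18) (nat_lit 0) (nat_lit 5764615219654426627) (Ct.cons true (nat_lit 16) (nat_lit 0) (nat_lit 42658103367039975427)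 (Ct.cons false (nat_lit 18) (nat_lit 0) (nat_lit 8070489015160143875) (Ct.cons true (nat_lit 20) (nat_lit 0) (nat_lit 8070500010276421637) (Ct.cons false (nat_lit 24) (nat_lit 0) (nat_lit 8070480219065024515) (Ct.cons false (nat_lit 20) (nat_lit 0) (nat_lit 11529220543641288707) (Ct.cons false (nat_lit 46) (nat_lit 0) (nat_lit 16140908761094029317) (Ct.cons false (nat_lit 36) (nat_lit 0) (nat_lit 44963944177232510979) (Ct.cons true (nat_lit 32) (nat_lit 0) (nat_lit 8070456029846962179) (Ct.cons true (nat_lit 8) (nat_lit 0) (nat_lit 18446751770301431811) (Ct.cons true (nat_lit 14) (nat_lit 0) (nat_lit 11529222742666641411) (Ct.cons false (nat_lit 14) (nat_lit 0) (nat_lit 8070470323467714565) (Ct.cons false (nat_lit 14) (nat_lit 0) (nat_lit 28823043112732459011) (Ct.cons true (nat_lit 23) (nat_lit 0) (nat_lit 18446752869807816707) (Ct.cons true (nat_lit 10) (nat_lit 0) (nat_lit 8070491214183399427) (Ct.cons true (nat_lit 10) (nat_lit 0) (nat_lit 42658101168018817027) (Ct.cons true (nat_lit 22) (nat_lit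 0) (nat_lit 8070461527380983811) (Ct.cons false (nat_lit 4) (nat_lit 0) (nat_lit 20752595879021510661) (Ct.cons true (nat_lit 4) (nat_lit 0) (nat_lit 9223391828069318661) (Ct.cons false (nat_lit 4) (nat_lit 0) (nat_lit 13835061353825435651) (Ct.cons false (nat_lit 2) (nat_lit 0) (nat_lit 5764641607899938819) (Ct.cons true (nat_lit 4) (nat_lit 0) (nat_lit 11529230439236501507) (Ct.cons true (nat_lit 4) (nat_lit 0) (nat_lit 5764622916207509507) (Ct.cons false (nat_lit 4) (nat_lit 0) (nat_lit 28823040913711300611) (Ct.cons false (nat_lit 4) (nat_lit 0) (nat_lit 31128888320969408515) (Ct.cons true (nat_lit 4) (nat_lit 0) (nat_lit 54187316214087286789) (Ct.cons false (nat_lit 4) (nat_lit 0) (nat_lit 31128883922927091715) (Ct.cons true (nat_lit 38) (nat_lit 0) (nat_lit 18446761665902936071) (Ct.cons true (nat_lit 38) (nat_lit 0) (nat_lit 5764650403995058179) (Ct.cons false (nat_lit 25) (nat_lit 0) (nat_lit 8070458228874412035) (Ct.cons true (nat_lit 28) (nat_lit 0) (nat_lit 9223377534429691907) (Ct.cons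 true (nat_lit 4) (nat_lit 0) (nat_lit 5764646005948547075) (Ct.cons false (nat_lit 10) (nat_lit 0) (nat_lit 8070468124444459011) (Ct.cons false (nat_lit 6) (nat_lit 0) (nat_lit 9223385230997454851) (Ct.cons true (nat_lit 6) (nat_lit 0) (nat_lit 5764613020624879619) (Ct.cons false (nat_lit 11) (nat_lit 0) (nat_lit 8070497811255263235) (Ct.cons true (nat_lit 3) (nat_lit 1) (nat_lit 8462488807770528662159363) (Ct.cons false (nat_lit 1) (nat_lit 1) (nat_lit 6044632556846455792336899) (Ct.cons false (nat_lit 2) (nat_lit 0) (nat_lit 8070495612232007683) (Ct.cons true (nat_lit 2) (nat_lit 0) (nat_lit 8070463726402142211) Ct.nil))))))))))))))))))))))))))))))))))))))))))))))))))) (Tb.node (nat_lit 3262) (Tb.leaf (nat_lit 3260) (nat_lit 377) (V.cons (nat_lit 394) false (nat_lit 9) V.nil) (Rw.df (nat_lit 394) (nat_lit 0) (nat_lit 2))) (Tb.leaf (nat_lit 3262) (nat_lit 474) (V.cons (nat_lit 426) false (nat_lit 1) (V.cons (nat_lit 428) true (nat_lit 7) (V.cons (nat_lit 430) false (nat_lit 6) (V.cons (nat_lit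 432) true (nat_lit 2) (V.cons (nat_lit 434) false (nat_lit 4) (V.cons (nat_lit 436) true (nat_lit 3) (V.cons (nat_lit 440) true (nat_lit 2) (V.cons (nat_lit 442) false (nat_lit 2) V.nil)))))))) (Rw.rw (nat_lit 0) (nat_lit 0) (Ct.cons false (nat_lit 1) (nat_lit 0) (nat_lit 54187318413110542339) Ct.nil))))) tK28)
def tK30 : Tb := (Tb.node (nat_lit 3256) tK27 tK29)
def tK31 : Tb := (Tb.node (nat_lit 3286) (Tb.node (nat_lit 3284) (Tb.leaf (nat_lit 3282) (nat_lit 480) (V.cons (nat_lit 450) false (nat_lit 1) V.nil) (Rw.df (nat_lit 450) (nat_lit 0) (nat_lit 0))) (Tb.leaf (nat_lit 3284) (nat_lit 497) (V.cons (nat_lit 444) true (nat_lit 2) (V.cons (nat_lit 446) false (nat_lit 1) (V.cons (nat_lit 448) false (nat_lit 18) (V.cons (nat_lit 450) false (nat_lit 4) (V.cons (nat_lit 452) true (nat_lit 9) (V.cons (nat_lit 454) false (nat_lit 18) (V.cons (nat_lit 456) true (nat_lit 8) (V.cons (nat_lit 460) true (nat_lit 3) (V.cons (nat_lit 462) true (nat_lit 5) (V.cons (nat_lit 464) false (nat_lit 3) (V.cons (nat_lit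 466) false (nat_lit 9) (V.cons (nat_lit 468) true (nat_lit 6) (V.cons (nat_lit 470) true (nat_lit 3) (V.cons (nat_lit 472) false (nat_lit 6) (V.cons (nat_lit 474) true (nat_lit 3) (V.cons (nat_lit 476) false (nat_lit 9) (V.cons (nat_lit 478) true (nat_lit 9) (V.cons (nat_lit 480) false (nat_lit 9) V.nil)))))))))))))))))) (Rw.rw (nat_lit 2) (nat_lit 0) (Ct.cons false (nat_lit 22) (nat_lit 0) (nat_lit 8070461527383080963) (Ct.cons false (nat_lit 30) (nat_lit 0) (nat_lit 40352260357824184323) (Ct.cons true (nat_lit 48) (nat_lit 0) (nat_lit 11529230439234404355) (Ct.cons false (nat_lit 34) (nat_lit 0) (nat_lit 40352255959781867523) (Ct.cons true (nat_lit 6) (nat_lit 0) (nat_lit 5764615219662815235) (Ct.cons false (nat_lit 12) (nat_lit 0) (nat_lit 51881475403894751235) (Ct.cons false (nat_lit 12) (nat_lit 0) (nat_lit 5764657001064824835) (Ct.cons true (nat_lit 12) (nat_lit 0) (nat_lit 20752594779519320069) (Ct.cons true (nat_lit 12) (nat_lit 0) (nat_lit 5764622916211703811) (Ct.cons false (nat_lit 14)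 (nat_lit 0) (nat_lit 16140918656689242115) (Ct.cons false (nat_lit 7) (nat_lit 0) (nat_lit 5764643806921097219) (Ct.cons false (nat_lit 32) (nat_lit 0) (nat_lit 5764659200088080387) (Ct.cons false (nat_lit 36) (nat_lit 0) (nat_lit 20752594779515125763) (Ct.cons false (nat_lit 14) (nat_lit 0) (nat_lit 18446763864926191623) (Ct.cons true (nat_lit 10) (nat_lit 0) (nat_lit 16140904363041226755) (Ct.cons false (nat_lit 14) (nat_lit 0) (nat_lit 16140912059615281155) (Ct.cons false (nat_lit 12) (nat_lit 0) (nat_lit 35740569941352382467) (Ct.cons false (nat_lit 6) (nat_lit 0) (nat_lit 5764641607897841667) (Ct.cons false (nat_lit 12) (nat_lit 0) (nat_lit 44963946376251572227) (Ct.cons false (nat_lit 27) (nat_lit 0) (nat_lit 38046415149587234819) (Ct.cons true (nat_lit 27) (nat_lit 0) (nat_lit 16140920855712497669) (Ct.cons true (nat_lit 8) (nat_lit 0) (nat_lit 8070465925429592069) (Ct.cons true (nat_lit 8) (nat_lit 0) (nat_lit 54187316214087286787) (Ct.cons true (nat_lit 7) (nat_lit 0) (nat_lit 38046412950566076419)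 (Ct.cons false (nat_lit 14) (nat_lit 0) (nat_lit 16140906562068676611) (Ct.cons true (nat_lit 6) (nat_lit 0) (nat_lit 51881473204873592835) (Ct.cons false (nat_lit 4) (nat_lit 0) (nat_lit 16140908761094029315) (Ct.cons false (nat_lit 4) (nat_lit 1) (nat_lit 8462484196082311211515907) (Ct.cons true (nat_lit 2) (nat_lit 1) (nat_lit 3626780917617197442924547) (Ct.cons true (nat_lit 8) (nat_lit 0) (nat_lit 8070456029855350787) (Ct.cons false (nat_lit 6) (nat_lit 0) (nat_lit 54187318413108445187) (Ct.cons true (nat_lit 8) (nat_lit 0) (nat_lit 61104847440751624197) (Ct.cons false (nat_lit 12) (nat_lit 0) (nat_lit 28823040913709203459) (Ct.cons false (nat_lit 4) (nat_lit 0) (nat_lit 8070508806371540997) (Ct.cons true (nat_lit 10) (nat_lit 0) (nat_lit 9223389629043965955) (Ct.cons false (nat_lit 4) (nat_lit 0) (nat_lit 18446752869805719555) (Ct.cons true (nat_lit 2) (nat_lit 1) (nat_lit 3626780917619396468277251) (Ct.cons false (nat_lit 6) (nat_lit 0) (nat_lit 8070491214181302275) (Ct.cons true (nat_lit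 6) (nat_lit 0) (nat_lit 8070489015158046723) (Ct.cons false (nat_lit 1) (nat_lit 1) (nat_lit 3626780917623794514788357) (Ct.cons false (nat_lit 1) (nat_lit 1) (nat_lit 8462484196086709260124165) Ct.nil)))))))))))))))))))))))))))))))))))))))))))) (Tb.node (nat_lit 3288) (Tb.leaf (nat_lit 3286) (nat_lit 481) (V.cons (nat_lit 452) false (nat_lit 3) V.nil) (Rw.df (nat_lit 452) (nat_lit 0) (nat_lit 1))) (Tb.node (nat_lit 3290) (Tb.leaf (nat_lit 3288) (nat_lit 482) (V.cons (nat_lit 454) false (nat_lit 3) V.nil) (Rw.df (nat_lit 454) (nat_lit 0) (nat_lit 1))) (Tb.leaf (nat_lit 3290) (nat_lit 483) (V.cons (nat_lit 456) false (nat_lit 1) V.nil) (Rw.df (nat_lit 456) (nat_lit 0) (nat_lit 0))))))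
def tK32 : Tb := (Tb.node (nat_lit 3282) (Tb.node (nat_lit 3278) (Tb.node (nat_lit 3276) (Tb.leaf (nat_lit 3274) (nat_lit 498) (V.cons (nat_lit 444) true (nat_lit 7) (V.cons (nat_lit 446) false (nat_lit 7) (V.cons (nat_lit 448) false (nat_lit 69) (V.cons (nat_lit 450) false (nat_lit 9) (V.cons (nat_lit 452) true (nat_lit 21) (V.cons (nat_lit 454) false (nat_lit 45) (V.cons (nat_lit 456) true (nat_lit 35) (V.cons (nat_lit 458) false (nat_lit 6) (V.cons (nat_lit 460) true (nat_lit 11) (V.cons (nat_lit 462) true (nat_lit 22) (V.cons (nat_lit 464) false (nat_lit 9) (V.cons (nat_lit 466) false (nat_lit 39) (V.cons (nat_lit 468) true (nat_lit 27) (V.cons (nat_lit 470) true (nat_lit 9) (V.cons (nat_lit 472) false (nat_lit 21) (V.cons (nat_lit 474) true (nat_lit 13) (V.cons (nat_lit 476) false (nat_lit 36) (V.cons (nat_lit 478) true (nat_lit 30) (V.cons (nat_lit 480) false (nat_lit 33) V.nil))))))))))))))))))) (Rw.rw (nat_lit 2) (nat_lit 0) (Ct.cons false (nat_lit 86) (nat_lit 0) (nat_lit 8070461527383080963)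 (Ct.cons false (nat_lit 118) (nat_lit 0) (nat_lit 40352260357824184323) (Ct.cons true (nat_lit 182) (nat_lit 0) (nat_lit 11529230439234404355) (Ct.cons false (nat_lit 126) (nat_lit 0) (nat_lit 40352255959781867523) (Ct.cons false (nat_lit 44) (nat_lit 0) (nat_lit 44963946376251572227) (Ct.cons false (nat_lit 20) (nat_lit 0) (nat_lit 16140908761094029315) (Ct.cons true (nat_lit 32) (nat_lit 0) (nat_lit 5764622916211703811) (Ct.cons false (nat_lit 52) (nat_lit 0) (nat_lit 51881475403894751235) (Ct.cons false (nat_lit 52) (nat_lit 0) (nat_lit 5764657001064824835) (Ct.cons true (nat_lit 14) (nat_lit 0) (nat_lit 51881473204873592835) (Ct.cons false (nat_lit 50) (nat_lit 0) (nat_lit 16140918656689242115) (Ct.cons false (nat_lit 25) (nat_lit 0) (nat_lit 5764643806921097219) (Ct.cons false (nat_lit 18) (nat_lit 0) (nat_lit 8070491214181302275) (Ct.cons false (nat_lit 116) (nat_lit 0) (nat_lit 5764659200088080387) (Ct.cons false (nat_lit 132) (nat_lit 0) (nat_lit 20752594779515125763) (Ct.cons true (nat_lit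 32) (nat_lit 0) (nat_lit 8070456029855350787) (Ct.cons false (nat_lit 50) (nat_lit 0) (nat_lit 18446763864926191623) (Ct.cons true (nat_lit 38) (nat_lit 0) (nat_lit 16140904363041226755) (Ct.cons false (nat_lit 44) (nat_lit 0) (nat_lit 35740569941352382467) (Ct.cons false (nat_lit 20) (nat_lit 0) (nat_lit 5764641607897841667) (Ct.cons true (nat_lit 28) (nat_lit 0) (nat_lit 8070465925429592069) (Ct.cons true (nat_lit 28) (nat_lit 0) (nat_lit 54187316214087286787) (Ct.cons false (nat_lit 22) (nat_lit 0) (nat_lit 54187318413108445187) (Ct.cons true (nat_lit 40) (nat_lit 0) (nat_lit 20752594779519320069) (Ct.cons true (nat_lit 32) (nat_lit 0) (nat_lit 61104847440751624197) (Ct.cons false (nat_lit 48) (nat_lit 0) (nat_lit 28823040913709203459) (Ct.cons true (nat_lit 25) (nat_lit 0) (nat_lit 38046412950566076419) (Ct.cons false (nat_lit 54) (nat_lit 0) (nat_lit 16140912059615281155) (Ct.cons true (nat_lit 28) (nat_lit 0) (nat_lit 8070489015158046723) (Ct.cons false (nat_lit 93) (nat_lit 0) (nat_lit 38046415149587234819)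 (Ct.cons true (nat_lit 93) (nat_lit 0) (nat_lit 16140920855712497669) (Ct.cons false (nat_lit 56) (nat_lit 0) (nat_lit 16140906562068676611) (Ct.cons false (nat_lit 3) (nat_lit 1) (nat_lit 3626780917623794514788357) (Ct.cons true (nat_lit 26) (nat_lit 0) (nat_lit 5764615219662815235) (Ct.cons false (nat_lit 14) (nat_lit 1) (nat_lit 8462484196082311211515907) (Ct.cons true (nat_lit 8) (nat_lit 1) (nat_lit 3626780917617197442924547) (Ct.cons false (nat_lit 16) (nat_lit 0) (nat_lit 8070508806371540997) (Ct.cons true (nat_lit 40) (nat_lit 0) (nat_lit 9223389629043965955) (Ct.cons false (nat_lit 16) (nat_lit 0) (nat_lit 18446752869805719555) (Ct.cons false (nat_lit 3) (nat_lit 1) (nat_lit 8462484196086709260124165) (Ct.cons true (nat_lit 8) (nat_lit 1) (nat_lit 3626780917619396468277251) Ct.nil))))))))))))))))))))))))))))))))))))))))))) (Tb.leaf (nat_lit 3276) (nat_lit 477) (V.cons (nat_lit 444) false (nat_lit 1) V.nil) (Rw.df (nat_lit 444) (nat_lit 0) (nat_lit 0)))) (Tb.node (nat_lit 3280) (Tb.leaf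 (nat_lit 3278) (nat_lit 478) (V.cons (nat_lit 446) false (nat_lit 1) V.nil) (Rw.df (nat_lit 446) (nat_lit 0) (nat_lit 0))) (Tb.leaf (nat_lit 3280) (nat_lit 479) (V.cons (nat_lit 448) false (nat_lit 3) V.nil) (Rw.df (nat_lit 448) (nat_lit 0) (nat_lit 1))))) tK31)
def tK33 : Tb := (Tb.node (nat_lit 3296) (Tb.node (nat_lit 3294) (Tb.leaf (nat_lit 3292) (nat_lit 484) (V.cons (nat_lit 458) false (nat_lit 1) V.nil) (Rw.df (nat_lit 458) (nat_lit 0) (nat_lit 0))) (Tb.leaf (nat_lit 3294) (nat_lit 485) (V.cons (nat_lit 460) false (nat_lit 1) V.nil) (Rw.df (nat_lit 460) (nat_lit 0) (nat_lit 0)))) (Tb.node (nat_lit 3298) (Tb.leaf (nat_lit 3296) (nat_lit 486) (V.cons (nat_lit 462) false (nat_lit 1) V.nil) (Rw.df (nat_lit 462) (nat_lit 0) (nat_lit 0))) (Tb.node (nat_lit 3300) (Tb.leaf (nat_lit 3298) (nat_lit 487) (V.cons (nat_lit 464) false (nat_lit 3) V.nil) (Rw.df (nat_lit 464) (nat_lit 0) (nat_lit 1))) (Tb.leaf (nat_lit 3300) (nat_lit 585) (V.cons (nat_lit 482) false (nat_lit 24) (V.cons (nat_lit 484) true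 (nat_lit 7) (V.cons (nat_lit 486) false (nat_lit 3) (V.cons (nat_lit 488) false (nat_lit 5) (V.cons (nat_lit 490) true (nat_lit 22) (V.cons (nat_lit 492) true (nat_lit 31) (V.cons (nat_lit 494) false (nat_lit 22) (V.cons (nat_lit 496) true (nat_lit 100) (V.cons (nat_lit 498) false (nat_lit 88) (V.cons (nat_lit 500) false (nat_lit 26) (V.cons (nat_lit 502) false (nat_lit 13) (V.cons (nat_lit 504) true (nat_lit 5) (V.cons (nat_lit 506) true (nat_lit 112) (V.cons (nat_lit 508) true (nat_lit 88) (V.cons (nat_lit 510) true (nat_lit 101) (V.cons (nat_lit 512) true (nat_lit 11) (V.cons (nat_lit 514) false (nat_lit 11) (V.cons (nat_lit 516) false (nat_lit 82) V.nil)))))))))))))))))) (Rw.rw (nat_lit 0) (nat_lit 0) (Ct.cons false (nat_lit 1) (nat_lit 0) (nat_lit 5764627314254020611) Ct.nil))))))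
def tK34 : Tb := (Tb.node (nat_lit 3306) (Tb.node (nat_lit 3304) (Tb.leaf (nat_lit 3302) (nat_lit 580) (V.cons (nat_lit 482) false (nat_lit 18) (V.cons (nat_lit 484) true (nat_lit 6) (V.cons (nat_lit 486) false (nat_lit 3) (V.cons (nat_lit 488) false (nat_lit 6) (V.cons (nat_lit 490) true (nat_lit 18) (V.cons (nat_lit 492) true (nat_lit 22) (V.cons (nat_lit 494) false (nat_lit 18) (V.cons (nat_lit 496) true (nat_lit 78) (V.cons (nat_lit 498) false (nat_lit 66) (V.cons (nat_lit 500) false (nat_lit 18) (V.cons (nat_lit 502) false (nat_lit 12) (V.cons (nat_lit 504) true (nat_lit 4) (V.cons (nat_lit 506) true (nat_lit 90) (V.cons (nat_lit 508) true (nat_lit 66) (V.cons (nat_lit 510) true (nat_lit 78) (V.cons (nat_lit 512) true (nat_lit 9) (V.cons (nat_lit 514) false (nat_lit 12) (V.cons (nat_lit 516) false (nat_lit 72) V.nil)))))))))))))))))) (Rw.rw (nat_lit 0) (nat_lit 0) (Ct.cons false (nat_lit 1) (nat_lit 0) (nat_lit 5764646005944352771) Ct.nil))) (Tb.leaf (nat_lit 3304) (nat_lit 596) (V.cons (nat_lit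 482) true (nat_lit 29) (V.cons (nat_lit 484) false (nat_lit 4) (V.cons (nat_lit 486) true (nat_lit 6) (V.cons (nat_lit 488) true (nat_lit 15) (V.cons (nat_lit 490) false (nat_lit 31) (V.cons (nat_lit 492) false (nat_lit 24) (V.cons (nat_lit 494) true (nat_lit 37) (V.cons (nat_lit 496) false (nat_lit 147) (V.cons (nat_lit 498) true (nat_lit 105) (V.cons (nat_lit 500) true (nat_lit 27) (V.cons (nat_lit 502) true (nat_lit 17) (V.cons (nat_lit 504) false (nat_lit 3) (V.cons (nat_lit 506) false (nat_lit 153) (V.cons (nat_lit 508) false (nat_lit 93) (V.cons (nat_lit 510) false (nat_lit 111) (V.cons (nat_lit 512) false (nat_lit 21) (V.cons (nat_lit 514) true (nat_lit 33) (V.cons (nat_lit 516) true (nat_lit 135) V.nil)))))))))))))))))) (Rw.rw (nat_lit 1) (nat_lit 0) (Ct.cons true (nat_lit 1) (nat_lit 1) (nat_lit 6044632556853052862103555) Ct.nil)))) (Tb.node (nat_lit 3308) (Tb.leaf (nat_lit 3306) (nat_lit 563) (V.cons (nat_lit 482) true (nat_lit 4) (V.cons (nat_lit 484) false (nat_lit 2) (V.cons (nat_lit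 488) false (nat_lit 2) (V.cons (nat_lit 490) false (nat_lit 4) (V.cons (nat_lit 492) false (nat_lit 6) (V.cons (nat_lit 494) true (nat_lit 2) (V.cons (nat_lit 496) false (nat_lit 8) (V.cons (nat_lit 498) true (nat_lit 8) (V.cons (nat_lit 500) true (nat_lit 4) (V.cons (nat_lit 506) false (nat_lit 8) (V.cons (nat_lit 508) false (nat_lit 8) (V.cons (nat_lit 510) false (nat_lit 10) (V.cons (nat_lit 512) false (nat_lit 1) (V.cons (nat_lit 514) false (nat_lit 2) (V.cons (nat_lit 516) true (nat_lit 2) V.nil))))))))))))))) (Rw.rw (nat_lit 0) (nat_lit 0) (Ct.cons true (nat_lit 1) (nat_lit 0) (nat_lit 8070504408322932739) Ct.nil))) (Tb.node (nat_lit 3310) (Tb.leaf (nat_lit 3308) (nat_lit 539) (V.cons (nat_lit 482) false (nat_lit 2) V.nil) (Rw.df (nat_lit 482) (nat_lit 1) (nat_lit 0))) (Tb.leaf (nat_lit 3310) (nat_lit 540) (V.cons (nat_lit 484) false (nat_lit 2) V.nil) (Rw.df (nat_lit 484) (nat_lit 1) (nat_lit 0))))))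
def tK35 : Tb := (Tb.node (nat_lit 3302) tK33 tK34)
def tK36 : Tb := (Tb.node (nat_lit 3292) tK32 tK35)
def tK37 : Tb := (Tb.node (nat_lit 3274) tK30 tK36)
def tK38 : Tb := (Tb.node (nat_lit 3324) (Tb.node (nat_lit 3322) (Tb.leaf (nat_lit 3320) (nat_lit 543) (V.cons (nat_lit 490) false (nat_lit 2) V.nil) (Rw.df (nat_lit 490) (nat_lit 1) (nat_lit 0))) (Tb.leaf (nat_lit 3322) (nat_lit 544) (V.cons (nat_lit 492) false (nat_lit 2) V.nil) (Rw.df (nat_lit 492) (nat_lit 1) (nat_lit 0)))) (Tb.node (nat_lit 5124) (Tb.leaf (nat_lit 3324) (nat_lit 545) (V.cons (nat_lit 494) false (nat_lit 2) V.nil) (Rw.df (nat_lit 494) (nat_lit 1) (nat_lit 0))) (Tb.node (nat_lit 5126) (Tb.leaf (nat_lit 5124) (nat_lit 2) (V.cons (nat_lit 12) false (nat_lit 1) V.nil) (Rw.df (nat_lit 12) (nat_lit 0) (nat_lit 0))) (Tb.leaf (nat_lit 5126) (nat_lit 1) (V.cons (nat_lit 10) false (nat_lit 1) V.nil) (Rw.df (nat_lit 10) (nat_lit 0) (nat_lit 0))))))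
def tK39 : Tb := (Tb.node (nat_lit 3320) (Tb.node (nat_lit 3316) (Tb.node (nat_lit 3314) (Tb.leaf (nat_lit 3312) (nat_lit 541) (V.cons (nat_lit 486) false (nat_lit 1) V.nil) (Rw.df (nat_lit 486) (nat_lit 0) (nat_lit 0))) (Tb.leaf (nat_lit 3314) (nat_lit 542) (V.cons (nat_lit 488) false (nat_lit 2) V.nil) (Rw.df (nat_lit 488) (nat_lit 1) (nat_lit 0)))) (Tb.node (nat_lit 3318) (Tb.leaf (nat_lit 3316) (nat_lit 589) (V.cons (nat_lit 482) true (nat_lit 37) (V.cons (nat_lit 484) false (nat_lit 12) (V.cons (nat_lit 486) true (nat_lit 5) (V.cons (nat_lit 488) true (nat_lit 15) (V.cons (nat_lit 490) false (nat_lit 41) (V.cons (nat_lit 492) false (nat_lit 42) (V.cons (nat_lit 494) true (nat_lit 37) (V.cons (nat_lit 496) false (nat_lit 159) (V.cons (nat_lit 498) true (nat_lit 129) (V.cons (nat_lit 500) true (nat_lit 35) (V.cons (nat_lit 502) true (nat_lit 23) (V.cons (nat_lit 504) false (nat_lit 7) (V.cons (nat_lit 506) false (nat_lit 183) (V.cons (nat_lit 508) false (nat_lit 123) (V.cons (nat_lit 510) false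 (nat_lit 147) (V.cons (nat_lit 512) false (nat_lit 18) (V.cons (nat_lit 514) true (nat_lit 27) (V.cons (nat_lit 516) true (nat_lit 147) V.nil)))))))))))))))))) (Rw.rw (nat_lit 0) (nat_lit 0) (Ct.cons true (nat_lit 1) (nat_lit 0) (nat_lit 5764613020641656835) Ct.nil))) (Tb.leaf (nat_lit 3318) (nat_lit 590) (V.cons (nat_lit 482) false (nat_lit 12) (V.cons (nat_lit 484) false (nat_lit 3) (V.cons (nat_lit 486) false (nat_lit 7) (V.cons (nat_lit 488) false (nat_lit 13) (V.cons (nat_lit 490) true (nat_lit 12) (V.cons (nat_lit 492) true (nat_lit 3) (V.cons (nat_lit 494) false (nat_lit 28) (V.cons (nat_lit 496) true (nat_lit 110) (V.cons (nat_lit 498) false (nat_lit 68) (V.cons (nat_lit 500) false (nat_lit 14) (V.cons (nat_lit 502) false (nat_lit 11) (V.cons (nat_lit 504) true (nat_lit 1) (V.cons (nat_lit 506) true (nat_lit 104) (V.cons (nat_lit 508) true (nat_lit 56) (V.cons (nat_lit 510) true (nat_lit 61) (V.cons (nat_lit 512) true (nat_lit 19) (V.cons (nat_lit 514) false (nat_lit 37) (V.cons (nat_lit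 516) false (nat_lit 104) V.nil)))))))))))))))))) (Rw.rw (nat_lit 0) (nat_lit 0) (Ct.cons false (nat_lit 1) (nat_lit 1) (nat_lit 21760670517678544765583363) Ct.nil))))) tK38)
def tK40 : Tb := (Tb.node (nat_lit 5133) (Tb.node (nat_lit 5129) (Tb.leaf (nat_lit 5127) (nat_lit 7) (V.cons (nat_lit 23) false (nat_lit 1) V.nil) (Rw.df (nat_lit 23) (nat_lit 0) (nat_lit 0))) (Tb.leaf (nat_lit 5129) (nat_lit 9) (V.cons (nat_lit 27) false (nat_lit 1) V.nil) (Rw.df (nat_lit 27) (nat_lit 0) (nat_lit 0)))) (Tb.node (nat_lit 5135) (Tb.leaf (nat_lit 5133) (nat_lit 14) (V.cons (nat_lit 37) false (nat_lit 1) V.nil) (Rw.df (nat_lit 37) (nat_lit 0) (nat_lit 0))) (Tb.node (nat_lit 5137) (Tb.leaf (nat_lit 5135) (nat_lit 17) (V.cons (nat_lit 43) false (nat_lit 1) V.nil) (Rw.df (nat_lit 43) (nat_lit 0) (nat_lit 0))) (Tb.leaf (nat_lit 5137) (nat_lit 21) (V.cons (nat_lit 51) false (nat_lit 1) V.nil) (Rw.df (nat_lit 51) (nat_lit 0) (nat_lit 0))))))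
def tK41 : Tb := (Tb.node (nat_lit 5144) (Tb.node (nat_lit 5142) (Tb.leaf (nat_lit 5140) (nat_lit 23) (V.cons (nat_lit 54) false (nat_lit 1) V.nil) (Rw.df (nat_lit 54) (nat_lit 0) (nat_lit 0))) (Tb.leaf (nat_lit 5142) (nat_lit 27) (V.cons (nat_lit 60) false (nat_lit 1) V.nil) (Rw.df (nat_lit 60) (nat_lit 0) (nat_lit 0)))) (Tb.node (nat_lit 5150) (Tb.leaf (nat_lit 5144) (nat_lit 28) (V.cons (nat_lit 62) false (nat_lit 1) V.nil) (Rw.df (nat_lit 62) (nat_lit 0) (nat_lit 0))) (Tb.node (nat_lit 5152) (Tb.leaf (nat_lit 5150) (nat_lit 37) (V.cons (nat_lit 74) false (nat_lit 1) V.nil) (Rw.df (nat_lit 74) (nat_lit 0) (nat_lit 0))) (Tb.leaf (nat_lit 5152) (nat_lit 38) (V.cons (nat_lit 76) false (nat_lit 1) V.nil) (Rw.df (nat_lit 76) (nat_lit 0) (nat_lit 0))))))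
def tK42 : Tb := (Tb.node (nat_lit 5140) tK40 tK41)
def tK43 : Tb := (Tb.node (nat_lit 5127) tK39 tK42)
def tK44 : Tb := (Tb.node (nat_lit 5170) (Tb.node (nat_lit 5168) (Tb.leaf (nat_lit 5166) (nat_lit 63) (V.cons (nat_lit 110) false (nat_lit 1) V.nil) (Rw.df (nat_lit 110) (nat_lit 0) (nat_lit 0))) (Tb.leaf (nat_lit 5168) (nat_lit 70) (V.cons (nat_lit 118) false (nat_lit 1) V.nil) (Rw.df (nat_lit 118) (nat_lit 0) (nat_lit 0)))) (Tb.node (nat_lit 5172) (Tb.leaf (nat_lit 5170) (nat_lit 71) (V.cons (nat_lit 114) true (nat_lit 1) (V.cons (nat_lit 116) false (nat_lit 1) (V.cons (nat_lit 118) false (nat_lit 1) V.nil))) (Rw.rw (nat_lit 0) (nat_lit 0) (Ct.cons false (nat_lit 1) (nat_lit 0) (nat_lit 5764613020595519491) Ct.nil))) (Tb.node (nat_lit 5173) (Tb.leaf (nat_lit 5172) (nat_lit 79) (V.cons (nat_lit 130) false (nat_lit 1) V.nil) (Rw.df (nat_lit 130) (nat_lit 0) (nat_lit 0))) (Tb.leaf (nat_lit 5173) (nat_lit 81) (V.cons (nat_lit 133) false (nat_lit 1) V.nil) (Rw.df (nat_lit 133) (nat_lit 0) (nat_lit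 0))))))
def tK45 : Tb := (Tb.node (nat_lit 5166) (Tb.node (nat_lit 5158) (Tb.node (nat_lit 5156) (Tb.leaf (nat_lit 5154) (nat_lit 46) (V.cons (nat_lit 86) false (nat_lit 1) V.nil) (Rw.df (nat_lit 86) (nat_lit 0) (nat_lit 0))) (Tb.leaf (nat_lit 5156) (nat_lit 47) (V.cons (nat_lit 88) false (nat_lit 1) V.nil) (Rw.df (nat_lit 88) (nat_lit 0) (nat_lit 0)))) (Tb.node (nat_lit 5164) (Tb.leaf (nat_lit 5158) (nat_lit 48) (V.cons (nat_lit 90) false (nat_lit 1) V.nil) (Rw.df (nat_lit 90) (nat_lit 0) (nat_lit 0))) (Tb.leaf (nat_lit 5164) (nat_lit 62) (V.cons (nat_lit 108) false (nat_lit 1) V.nil) (Rw.df (nat_lit 108) (nat_lit 0) (nat_lit 0))))) tK44)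
def tK46 : Tb := (Tb.node (nat_lit 5185) (Tb.node (nat_lit 5177) (Tb.leaf (nat_lit 5175) (nat_lit 87) (V.cons (nat_lit 133) false (nat_lit 1) (V.cons (nat_lit 137) false (nat_lit 1) (V.cons (nat_lit 139) true (nat_lit 1) (V.cons (nat_lit 141) true (nat_lit 2) V.nil)))) (Rw.rw (nat_lit 0) (nat_lit 0) (Ct.cons true (nat_lit 1) (nat_lit 0) (nat_lit 11529222742657204229) Ct.nil))) (Tb.leaf (nat_lit 5177) (nat_lit 82) (V.cons (nat_lit 135) false (nat_lit 1) V.nil) (Rw.df (nat_lit 135) (nat_lit 0) (nat_lit 0)))) (Tb.node (nat_lit 5187) (Tb.leaf (nat_lit 5185) (nat_lit 109) (V.cons (nat_lit 147) true (nat_lit 2) (V.cons (nat_lit 149) false (nat_lit 2) (V.cons (nat_lit 151) false (nat_lit 3) (V.cons (nat_lit 153) true (nat_lit 3) (V.cons (nat_lit 159) false (nat_lit 1) (V.cons (nat_lit 161) true (nat_lit 2) V.nil)))))) (Rw.rw (nat_lit 0) (nat_lit 1) (Ct.cons true (nat_lit 1) (nat_lit 1) (nat_lit 8462488807760633057509379) Ct.nil))) (Tb.node (nat_lit 5189) (Tb.leaf (nat_lit 5187) (nat_lit 95) (V.cons (nat_lit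 151) false (nat_lit 1) V.nil) (Rw.df (nat_lit 151) (nat_lit 0) (nat_lit 0))) (Tb.leaf (nat_lit 5189) (nat_lit 106) (V.cons (nat_lit 145) false (nat_lit 1) (V.cons (nat_lit 149) false (nat_lit 1) (V.cons (nat_lit 151) true (nat_lit 1) (V.cons (nat_lit 157) false (nat_lit 1) (V.cons (nat_lit 159) true (nat_lit 1) (V.cons (nat_lit 163) true (nat_lit 2) V.nil)))))) (Rw.rw (nat_lit 0) (nat_lit 0) (Ct.cons true (nat_lit 1) (nat_lit 0) (nat_lit 8070458228844003333) (Ct.cons false (nat_lit 1) (nat_lit 0) (nat_lit 9223379733441413123) (Ct.cons true (nat_lit 1) (nat_lit 0) (nat_lit 18446751770298286087) (Ct.cons false (nat_lit 1) (nat_lit 0) (nat_lit 8070456029814456323) (Ct.cons true (nat_lit 1) (nat_lit 0) (nat_lit 8070461527371546627) Ct.nil))))))))))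
def tK47 : Tb := (Tb.node (nat_lit 5195) (Tb.node (nat_lit 5193) (Tb.leaf (nat_lit 5191) (nat_lit 133) (V.cons (nat_lit 165) true (nat_lit 2) (V.cons (nat_lit 167) false (nat_lit 4) (V.cons (nat_lit 171) false (nat_lit 2) (V.cons (nat_lit 173) true (nat_lit 2) (V.cons (nat_lit 175) false (nat_lit 1) (V.cons (nat_lit 177) true (nat_lit 4) (V.cons (nat_lit 179) false (nat_lit 2) (V.cons (nat_lit 187) true (nat_lit 1) (V.cons (nat_lit 189) true (nat_lit 1) V.nil))))))))) (Rw.rw (nat_lit 0) (nat_lit 0) (Ct.cons false (nat_lit 1) (nat_lit 0) (nat_lit 5764616319132499971) (Ct.cons true (nat_lit 1) (nat_lit 1) (nat_lit 8462486501917623843815427) Ct.nil)))) (Tb.leaf (nat_lit 5193) (nat_lit 114) (V.cons (nat_lit 169) false (nat_lit 1) V.nil) (Rw.df (nat_lit 169) (nat_lit 0) (nat_lit 0)))) (Tb.node (nat_lit 5197) (Tb.leaf (nat_lit 5195) (nat_lit 134) (V.cons (nat_lit 165) false (nat_lit 2) (V.cons (nat_lit 167) true (nat_lit 2) (V.cons (nat_lit 169) false (nat_lit 1) (V.cons (nat_lit 171) true (nat_lit 3)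 (V.cons (nat_lit 173) false (nat_lit 3) (V.cons (nat_lit 175) true (nat_lit 1) (V.cons (nat_lit 177) false (nat_lit 3) (V.cons (nat_lit 179) true (nat_lit 2) (V.cons (nat_lit 181) true (nat_lit 1) (V.cons (nat_lit 183) false (nat_lit 1) (V.cons (nat_lit 185) false (nat_lit 1) V.nil))))))))))) (Rw.rw (nat_lit 1) (nat_lit 0) (Ct.cons true (nat_lit 1) (nat_lit 1) (nat_lit 8462486501917623843815427) Ct.nil))) (Tb.node (nat_lit 5199) (Tb.leaf (nat_lit 5197) (nat_lit 115) (V.cons (nat_lit 171) false (nat_lit 1) V.nil) (Rw.df (nat_lit 171) (nat_lit 0) (nat_lit 0))) (Tb.leaf (nat_lit 5199) (nat_lit 135) (V.cons (nat_lit 167) false (nat_lit 2) (V.cons (nat_lit 169) false (nat_lit 1) (V.cons (nat_lit 171) true (nat_lit 1) (V.cons (nat_lit 173) false (nat_lit 1) (V.cons (nat_lit 175) true (nat_lit 1) (V.cons (nat_lit 177) true (nat_lit 1) (V.cons (nat_lit 185) false (nat_lit 1) (V.cons (nat_lit 189) true (nat_lit 2) V.nil)))))))) (Rw.rw (nat_lit 0) (nat_lit 0) (Ct.cons false (nat_lit 1) (nat_lit 0) (nat_lit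 9223377534418157571) Ct.nil))))))
def tK48 : Tb := (Tb.node (nat_lit 5191) tK46 tK47)
def tK49 : Tb := (Tb.node (nat_lit 5175) tK45 tK48)
def tK50 : Tb := (Tb.node (nat_lit 5154) tK43 tK49)
def tK51 : Tb := (Tb.node (nat_lit 3312) tK37 tK50)
def tK52 : Tb := (Tb.node (nat_lit 3238) tK25 tK51)
def tK53 : Tb := (Tb.node (nat_lit 5225) (Tb.node (nat_lit 5223) (Tb.leaf (nat_lit 5221) (nat_lit 181) (V.cons (nat_lit 241) false (nat_lit 1) V.nil) (Rw.df (nat_lit 241) (nat_lit 0) (nat_lit 0))) (Tb.leaf (nat_lit 5223) (nat_lit 198) (V.cons (nat_lit 235) false (nat_lit 1) (V.cons (nat_lit 237) false (nat_lit 1) (V.cons (nat_lit 239) true (nat_lit 1) (V.cons (nat_lit 241) false (nat_lit 1) (V.cons (nat_lit 243) true (nat_lit 1) (V.cons (nat_lit 245) false (nat_lit 1) (V.cons (nat_lit 249) true (nat_lit 2) (V.cons (nat_lit 251) true (nat_lit 2) V.nil)))))))) (Rw.rw (nat_lit 0) (nat_lit 0) (Ct.cons false (nat_lit 1) (nat_lit 0) (nat_lit 8070470323462471685) Ct.nil)))) (Tb.node (nat_lit 5227) (Tb.leaf (nat_lit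 5225) (nat_lit 182) (V.cons (nat_lit 243) false (nat_lit 1) V.nil) (Rw.df (nat_lit 243) (nat_lit 0) (nat_lit 0))) (Tb.node (nat_lit 5229) (Tb.leaf (nat_lit 5227) (nat_lit 196) (V.cons (nat_lit 229) false (nat_lit 1) (V.cons (nat_lit 231) true (nat_lit 1) (V.cons (nat_lit 233) true (nat_lit 2) (V.cons (nat_lit 235) false (nat_lit 3) (V.cons (nat_lit 237) true (nat_lit 1) (V.cons (nat_lit 239) true (nat_lit 1) (V.cons (nat_lit 241) false (nat_lit 3) (V.cons (nat_lit 243) true (nat_lit 3) (V.cons (nat_lit 245) false (nat_lit 1) (V.cons (nat_lit 247) true (nat_lit 2) (V.cons (nat_lit 249) false (nat_lit 2) V.nil))))))))))) (Rw.rw (nat_lit 1) (nat_lit 0) (Ct.cons true (nat_lit 3) (nat_lit 0) (nat_lit 20752592580488724485) (Ct.cons true (nat_lit 2) (nat_lit 1) (nat_lit 6044632556845356280709123) Ct.nil)))) (Tb.leaf (nat_lit 5229) (nat_lit 183) (V.cons (nat_lit 245) false (nat_lit 1) V.nil) (Rw.df (nat_lit 245) (nat_lit 0) (nat_lit 0))))))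
def tK54 : Tb := (Tb.node (nat_lit 5221) (Tb.node (nat_lit 5217) (Tb.node (nat_lit 5215) (Tb.leaf (nat_lit 5201) (nat_lit 116) (V.cons (nat_lit 173) false (nat_lit 1) V.nil) (Rw.df (nat_lit 173) (nat_lit 0) (nat_lit 0))) (Tb.leaf (nat_lit 5215) (nat_lit 155) (V.cons (nat_lit 215) false (nat_lit 1) V.nil) (Rw.df (nat_lit 215) (nat_lit 0) (nat_lit 0)))) (Tb.node (nat_lit 5219) (Tb.leaf (nat_lit 5217) (nat_lit 156) (V.cons (nat_lit 217) false (nat_lit 1) V.nil) (Rw.df (nat_lit 217) (nat_lit 0) (nat_lit 0))) (Tb.leaf (nat_lit 5219) (nat_lit 167) (V.cons (nat_lit 207) false (nat_lit 1) (V.cons (nat_lit 211) false (nat_lit 1) (V.cons (nat_lit 217) true (nat_lit 1) (V.cons (nat_lit 225) true (nat_lit 1) (V.cons (nat_lit 227) false (nat_lit 1) V.nil))))) (Rw.rw (nat_lit 0) (nat_lit 0) (Ct.cons true (nat_lit 1) (nat_lit 0) (nat_lit 16140906562061336579) (Ct.cons false (nat_lit 1) (nat_lit 0) (nat_lit 8070456029820747779) (Ct.cons false (nat_lit 1) (nat_lit 0) (nat_lit 16140908761082494979) (Ct.cons true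 (nat_lit 1) (nat_lit 0) (nat_lit 5764622916204363779) Ct.nil)))))))) tK53)
def tK55 : Tb := (Tb.node (nat_lit 5249) (Tb.node (nat_lit 5247) (Tb.leaf (nat_lit 5245) (nat_lit 234) (V.cons (nat_lit 291) false (nat_lit 1) V.nil) (Rw.df (nat_lit 291) (nat_lit 0) (nat_lit 0))) (Tb.leaf (nat_lit 5247) (nat_lit 235) (V.cons (nat_lit 293) false (nat_lit 1) V.nil) (Rw.df (nat_lit 293) (nat_lit 0) (nat_lit 0)))) (Tb.node (nat_lit 5264) (Tb.leaf (nat_lit 5249) (nat_lit 238) (V.cons (nat_lit 287) false (nat_lit 1) (V.cons (nat_lit 289) true (nat_lit 1) (V.cons (nat_lit 293) false (nat_lit 1) (V.cons (nat_lit 297) false (nat_lit 2) V.nil)))) (Rw.rw (nat_lit 0) (nat_lit 0) (Ct.cons false (nat_lit 1) (nat_lit 0) (nat_lit 5764625115223425027) Ct.nil))) (Tb.node (nat_lit 5266) (Tb.leaf (nat_lit 5264) (nat_lit 247) (V.cons (nat_lit 306) false (nat_lit 3) V.nil) (Rw.df (nat_lit 306) (nat_lit 0) (nat_lit 1))) (Tb.leaf (nat_lit 5266) (nat_lit 248) (V.cons (nat_lit 308) false (nat_lit 1) V.nil) (Rw.df (nat_lit 308) (nat_lit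 0) (nat_lit 0))))))
def tK56 : Tb := (Tb.node (nat_lit 5245) (Tb.node (nat_lit 5241) (Tb.node (nat_lit 5239) (Tb.leaf (nat_lit 5231) (nat_lit 197) (V.cons (nat_lit 233) false (nat_lit 2) (V.cons (nat_lit 235) true (nat_lit 2) (V.cons (nat_lit 237) false (nat_lit 2) (V.cons (nat_lit 241) true (nat_lit 2) (V.cons (nat_lit 243) false (nat_lit 3) (V.cons (nat_lit 247) false (nat_lit 2) (V.cons (nat_lit 249) true (nat_lit 4) (V.cons (nat_lit 251) true (nat_lit 1) (V.cons (nat_lit 253) false (nat_lit 1) V.nil))))))))) (Rw.rw (nat_lit 0) (nat_lit 1) (Ct.cons false (nat_lit 1) (nat_lit 1) (nat_lit 6044632556845356280709123) Ct.nil))) (Tb.leaf (nat_lit 5239) (nat_lit 225) (V.cons (nat_lit 267) true (nat_lit 1) (V.cons (nat_lit 269) false (nat_lit 1) (V.cons (nat_lit 271) false (nat_lit 1) (V.cons (nat_lit 275) false (nat_lit 1) (V.cons (nat_lit 279) true (nat_lit 1) (V.cons (nat_lit 283) true (nat_lit 1) (V.cons (nat_lit 285) false (nat_lit 1) V.nil))))))) (Rw.rw (nat_lit 0) (nat_lit 0) (Ct.cons true (nat_lit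 1) (nat_lit 0) (nat_lit 16140906562057142275) (Ct.cons false (nat_lit 1) (nat_lit 0) (nat_lit 5764615219634503683) (Ct.cons true (nat_lit 1) (nat_lit 0) (nat_lit 11529218344606498819) (Ct.cons false (nat_lit 1) (nat_lit 0) (nat_lit 8070468124437118979) Ct.nil))))))) (Tb.node (nat_lit 5243) (Tb.leaf (nat_lit 5241) (nat_lit 217) (V.cons (nat_lit 277) false (nat_lit 1) V.nil) (Rw.df (nat_lit 277) (nat_lit 0) (nat_lit 0))) (Tb.leaf (nat_lit 5243) (nat_lit 218) (V.cons (nat_lit 279) false (nat_lit 1) V.nil) (Rw.df (nat_lit 279) (nat_lit 0) (nat_lit 0))))) tK55)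
def tK57 : Tb := (Tb.node (nat_lit 5231) tK54 tK56)
def tK58 : Tb := (Tb.node (nat_lit 5280) (Tb.node (nat_lit 5278) (Tb.leaf (nat_lit 5276) (nat_lit 297) (V.cons (nat_lit 298) true (nat_lit 62) (V.cons (nat_lit 300) true (nat_lit 21) (V.cons (nat_lit 302) false (nat_lit 427) (V.cons (nat_lit 304) true (nat_lit 47) (V.cons (nat_lit 306) true (nat_lit 130) (V.cons (nat_lit 308) false (nat_lit 74) (V.cons (nat_lit 310) false (nat_lit 191) (V.cons (nat_lit 312) true (nat_lit 541) (V.cons (nat_lit 314) false (nat_lit 145) (V.cons (nat_lit 316) false (nat_lit 199) (V.cons (nat_lit 318) false (nat_lit 46) (V.cons (nat_lit 320) false (nat_lit 349) (V.cons (nat_lit 322) false (nat_lit 35) (V.cons (nat_lit 324) true (nat_lit 638) (V.cons (nat_lit 326) true (nat_lit 68) (V.cons (nat_lit 328) true (nat_lit 34) (V.cons (nat_lit 330) false (nat_lit 401) (V.cons (nat_lit 332) false (nat_lit 772) V.nil)))))))))))))))))) (Rw.rw (nat_lit 0) (nat_lit 0) (Ct.cons false (nat_lit 1) (nat_lit 0) (nat_lit 38046417348612587525)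 Ct.nil))) (Tb.leaf (nat_lit 5278) (nat_lit 251) (V.cons (nat_lit 314) false (nat_lit 3) V.nil) (Rw.df (nat_lit 314) (nat_lit 0) (nat_lit 1)))) (Tb.node (nat_lit 5282) (Tb.leaf (nat_lit 5280) (nat_lit 276) (V.cons (nat_lit 298) true (nat_lit 8) (V.cons (nat_lit 300) true (nat_lit 3) (V.cons (nat_lit 302) false (nat_lit 48) (V.cons (nat_lit 304) true (nat_lit 6) (V.cons (nat_lit 306) true (nat_lit 18) (V.cons (nat_lit 308) false (nat_lit 10) (V.cons (nat_lit 310) false (nat_lit 26) (V.cons (nat_lit 312) true (nat_lit 75) (V.cons (nat_lit 314) false (nat_lit 27) (V.cons (nat_lit 316) false (nat_lit 30) (V.cons (nat_lit 318) false (nat_lit 3) (V.cons (nat_lit 320) false (nat_lit 39) (V.cons (nat_lit 322) false (nat_lit 6) (V.cons (nat_lit 324) true (nat_lit 93) (V.cons (nat_lit 326) false (nat_lit 6) (V.cons (nat_lit 328) true (nat_lit 6) (V.cons (nat_lit 330) false (nat_lit 54) (V.cons (nat_lit 332) false (nat_lit 111) V.nil)))))))))))))))))) (Rw.rw (nat_lit 0) (nat_lit 0) (Ct.cons true (nat_lit 1)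 (nat_lit 0) (nat_lit 11529220543634997251) Ct.nil))) (Tb.node (nat_lit 5310) (Tb.leaf (nat_lit 5282) (nat_lit 265) (V.cons (nat_lit 302) false (nat_lit 3) (V.cons (nat_lit 306) false (nat_lit 3) (V.cons (nat_lit 308) true (nat_lit 1) (V.cons (nat_lit 310) true (nat_lit 1) (V.cons (nat_lit 312) false (nat_lit 6) (V.cons (nat_lit 314) true (nat_lit 9) (V.cons (nat_lit 316) true (nat_lit 6) (V.cons (nat_lit 318) false (nat_lit 3) (V.cons (nat_lit 320) false (nat_lit 6) (V.cons (nat_lit 322) true (nat_lit 2) (V.cons (nat_lit 324) false (nat_lit 12) (V.cons (nat_lit 326) true (nat_lit 15) (V.cons (nat_lit 328) false (nat_lit 2) (V.cons (nat_lit 330) true (nat_lit 3) (V.cons (nat_lit 332) true (nat_lit 12) V.nil))))))))))))))) (Rw.rw (nat_lit 1) (nat_lit 0) (Ct.cons true (nat_lit 3) (nat_lit 0) (nat_lit 16140908761087737861) (Ct.cons true (nat_lit 7) (nat_lit 0) (nat_lit 8070480219069218819) (Ct.cons true (nat_lit 7) (nat_lit 0) (nat_lit 11529220543634997251) (Ct.cons false (nat_lit 7) (nat_lit 0) (nat_lit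 18446755068833169415) (Ct.cons true (nat_lit 5) (nat_lit 0) (nat_lit 31128888320973602819) (Ct.cons true (nat_lit 4) (nat_lit 0) (nat_lit 11529232638261854215) (Ct.cons false (nat_lit 4) (nat_lit 0) (nat_lit 8070478020043866115) (Ct.cons false (nat_lit 4) (nat_lit 0) (nat_lit 28823043112736653315) (Ct.cons true (nat_lit 8) (nat_lit 0) (nat_lit 11529222742660349955) (Ct.cons true (nat_lit 1) (nat_lit 1) (nat_lit 8462486501920922380795907) (Ct.cons true (nat_lit 2) (nat_lit 0) (nat_lit 44963946376255766533) (Ct.cons true (nat_lit 8) (nat_lit 0) (nat_lit 40352260357828378629) (Ct.cons false (nat_lit 1) (nat_lit 0) (nat_lit 5764630612783661059) (Ct.cons false (nat_lit 1) (nat_lit 0) (nat_lit 24211357094307168259) (Ct.cons true (nat_lit 1) (nat_lit 0) (nat_lit 16140909860594122757) (Ct.cons false (nat_lit 2) (nat_lit 0) (nat_lit 5764615219641843715) (Ct.cons false (nat_lit 2) (nat_lit 0) (nat_lit 8070486816136888325) (Ct.cons false (nat_lit 6) (nat_lit 0) (nat_lit 11529226041192087555) (Ct.cons false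 (nat_lit 1) (nat_lit 0) (nat_lit 9223385231001649155) (Ct.cons true (nat_lit 1) (nat_lit 0) (nat_lit 5764613020614393859) (Ct.cons false (nat_lit 1) (nat_lit 1) (nat_lit 8462488807763931592392707) (Ct.cons false (nat_lit 1) (nat_lit 0) (nat_lit 5764635010832269315) (Ct.cons true (nat_lit 2) (nat_lit 0) (nat_lit 13835073448452292615) (Ct.cons false (nat_lit 2) (nat_lit 0) (nat_lit 33434731330187296771) (Ct.cons false (nat_lit 1) (nat_lit 0) (nat_lit 16140906562062385157) (Ct.cons false (nat_lit 1) (nat_lit 0) (nat_lit 9223387430022807557) Ct.nil)))))))))))))))))))))))))))) (Tb.leaf (nat_lit 5310) (nat_lit 361) (V.cons (nat_lit 336) false (nat_lit 24) (V.cons (nat_lit 338) false (nat_lit 5) (V.cons (nat_lit 340) true (nat_lit 627) (V.cons (nat_lit 342) true (nat_lit 31) (V.cons (nat_lit 344) false (nat_lit 1494) (V.cons (nat_lit 348) false (nat_lit 66) (V.cons (nat_lit 350) false (nat_lit 645) (V.cons (nat_lit 352) false (nat_lit 450) (V.cons (nat_lit 354) false (nat_lit 9) (V.cons (nat_lit 356)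 true (nat_lit 144) (V.cons (nat_lit 358) true (nat_lit 6) (V.cons (nat_lit 360) true (nat_lit 3) (V.cons (nat_lit 362) true (nat_lit 81) (V.cons (nat_lit 364) false (nat_lit 348) (V.cons (nat_lit 366) false (nat_lit 372) (V.cons (nat_lit 368) true (nat_lit 360) (V.cons (nat_lit 370) true (nat_lit 261) (V.cons (nat_lit 372) false (nat_lit 50) V.nil)))))))))))))))))) (Rw.rw (nat_lit 0) (nat_lit 0) (Ct.cons false (nat_lit 1) (nat_lit 0) (nat_lit 9223379733455044613) Ct.nil))))))
def tK59 : Tb := (Tb.node (nat_lit 5276) (Tb.node (nat_lit 5272) (Tb.node (nat_lit 5270) (Tb.leaf (nat_lit 5268) (nat_lit 249) (V.cons (nat_lit 310) false (nat_lit 1) V.nil) (Rw.df (nat_lit 310) (nat_lit 0) (nat_lit 0))) (Tb.leaf (nat_lit 5270) (nat_lit 269) (V.cons (nat_lit 298) false (nat_lit 1) (V.cons (nat_lit 300) true (nat_lit 1) (V.cons (nat_lit 302) true (nat_lit 8) (V.cons (nat_lit 304) false (nat_lit 1) (V.cons (nat_lit 306) false (nat_lit 2) (V.cons (nat_lit 312) false (nat_lit 2) (V.cons (nat_lit 314) false (nat_lit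 1) (V.cons (nat_lit 316) false (nat_lit 1) (V.cons (nat_lit 318) true (nat_lit 1) (V.cons (nat_lit 320) true (nat_lit 8) (V.cons (nat_lit 322) false (nat_lit 1) (V.cons (nat_lit 324) true (nat_lit 2) (V.cons (nat_lit 326) false (nat_lit 10) (V.cons (nat_lit 328) true (nat_lit 1) (V.cons (nat_lit 330) true (nat_lit 1) (V.cons (nat_lit 332) false (nat_lit 1) V.nil)))))))))))))))) (Rw.rw (nat_lit 2) (nat_lit 1) (Ct.cons false (nat_lit 1) (nat_lit 1) (nat_lit 8462486501918723355443203) (Ct.cons true (nat_lit 30) (nat_lit 0) (nat_lit 18446755068833169415) (Ct.cons false (nat_lit 50) (nat_lit 0) (nat_lit 40352260357828378629) (Ct.cons false (nat_lit 24) (nat_lit 0) (nat_lit 11529222742660349955) (Ct.cons true (nat_lit 6) (nat_lit 0) (nat_lit 8070458228866023429) (Ct.cons false (nat_lit 6) (nat_lit 0) (nat_lit 9223383031976296451) (Ct.cons false (nat_lit 10) (nat_lit 0) (nat_lit 18446751770301431815) (Ct.cons true (nat_lit 6) (nat_lit 0) (nat_lit 13835066851382525955) (Ct.cons false (nat_lit 6) (nat_lit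 0) (nat_lit 35740574339398893573) (Ct.cons true (nat_lit 4) (nat_lit 0) (nat_lit 5764630612783661059) (Ct.cons true (nat_lit 10) (nat_lit 0) (nat_lit 24211357094307168259) (Ct.cons true (nat_lit 3) (nat_lit 0) (nat_lit 8070458228857634819) (Ct.cons false (nat_lit 6) (nat_lit 0) (nat_lit 16140909860594122757) (Ct.cons true (nat_lit 12) (nat_lit 0) (nat_lit 5764615219641843715) (Ct.cons false (nat_lit 2) (nat_lit 0) (nat_lit 8070478020043866115) (Ct.cons false (nat_lit 2) (nat_lit 0) (nat_lit 28823043112736653315) (Ct.cons false (nat_lit 29) (nat_lit 0) (nat_lit 8070480219069218819) (Ct.cons false (nat_lit 17) (nat_lit 0) (nat_lit 31128888320973602819) (Ct.cons true (nat_lit 7) (nat_lit 0) (nat_lit 11529223842166734851) (Ct.cons false (nat_lit 6) (nat_lit 0) (nat_lit 49575632394683154439) (Ct.cons true (nat_lit 12) (nat_lit 0) (nat_lit 8070486816136888325) (Ct.cons true (nat_lit 38) (nat_lit 0) (nat_lit 11529226041192087555) (Ct.cons false (nat_lit 2) (nat_lit 0) (nat_lit 16140908761087737861) (Ct.cons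 true (nat_lit 14) (nat_lit 0) (nat_lit 9223385231001649155) (Ct.cons false (nat_lit 14) (nat_lit 0) (nat_lit 5764613020614393859) (Ct.cons true (nat_lit 5) (nat_lit 1) (nat_lit 8462488807763931592392707) (Ct.cons false (nat_lit 40) (nat_lit 0) (nat_lit 11529220543634997251) (Ct.cons false (nat_lit 4) (nat_lit 0) (nat_lit 11529232638261854215) (Ct.cons false (nat_lit 4) (nat_lit 1) (nat_lit 8462486501920922380795907) (Ct.cons false (nat_lit 8) (nat_lit 0) (nat_lit 13835073448452292615) (Ct.cons true (nat_lit 8) (nat_lit 0) (nat_lit 33434731330187296771) (Ct.cons true (nat_lit 10) (nat_lit 0) (nat_lit 16140906562062385157) (Ct.cons true (nat_lit 10) (nat_lit 0) (nat_lit 9223387430022807557) (Ct.cons true (nat_lit 2) (nat_lit 1) (nat_lit 8462488807770528664256517) (Ct.cons true (nat_lit 26) (nat_lit 0) (nat_lit 5764635010832269315) (Ct.cons false (nat_lit 10) (nat_lit 0) (nat_lit 35740572140377735173) (Ct.cons false (nat_lit 4) (nat_lit 0) (nat_lit 8070458228868120581) Ct.nil))))))))))))))))))))))))))))))))))))))))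 (Tb.node (nat_lit 5274) (Tb.leaf (nat_lit 5272) (nat_lit 250) (V.cons (nat_lit 312) false (nat_lit 3) V.nil) (Rw.df (nat_lit 312) (nat_lit 0) (nat_lit 1))) (Tb.leaf (nat_lit 5274) (nat_lit 290) (V.cons (nat_lit 298) true (nat_lit 48) (V.cons (nat_lit 300) true (nat_lit 17) (V.cons (nat_lit 302) false (nat_lit 332) (V.cons (nat_lit 304) true (nat_lit 36) (V.cons (nat_lit 306) true (nat_lit 101) (V.cons (nat_lit 308) false (nat_lit 58) (V.cons (nat_lit 310) false (nat_lit 150) (V.cons (nat_lit 312) true (nat_lit 425) (V.cons (nat_lit 314) false (nat_lit 113) (V.cons (nat_lit 316) false (nat_lit 152) (V.cons (nat_lit 318) false (nat_lit 37) (V.cons (nat_lit 320) false (nat_lit 278) (V.cons (nat_lit 322) false (nat_lit 26) (V.cons (nat_lit 324) true (nat_lit 496) (V.cons (nat_lit 326) true (nat_lit 58) (V.cons (nat_lit 328) true (nat_lit 26) (V.cons (nat_lit 330) false (nat_lit 313) (V.cons (nat_lit 332) false (nat_lit 602) V.nil)))))))))))))))))) (Rw.rw (nat_lit 0) (nat_lit 0) (Ct.cons true (nat_lit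 1) (nat_lit 0) (nat_lit 44963946376255766533) Ct.nil))))) tK58)
def tK60 : Tb := (Tb.node (nat_lit 5316) (Tb.node (nat_lit 5314) (Tb.leaf (nat_lit 5312) (nat_lit 333) (V.cons (nat_lit 336) true (nat_lit 2) (V.cons (nat_lit 338) true (nat_lit 1) (V.cons (nat_lit 340) false (nat_lit 66) (V.cons (nat_lit 342) false (nat_lit 3) (V.cons (nat_lit 344) true (nat_lit 156) (V.cons (nat_lit 346) false (nat_lit 1) (V.cons (nat_lit 350) true (nat_lit 63) (V.cons (nat_lit 352) true (nat_lit 51) (V.cons (nat_lit 356) false (nat_lit 12) (V.cons (nat_lit 362) false (nat_lit 12) (V.cons (nat_lit 364) true (nat_lit 30) (V.cons (nat_lit 366) true (nat_lit 36) (V.cons (nat_lit 368) false (nat_lit 33) (V.cons (nat_lit 370) false (nat_lit 24) (V.cons (nat_lit 372) true (nat_lit 4) V.nil))))))))))))))) (Rw.rw (nat_lit 3) (nat_lit 0) (Ct.cons true (nat_lit 2) (nat_lit 1) (nat_lit 8462484196082311213613061) (Ct.cons false (nat_lit 4) (nat_lit 0) (nat_lit 5764630612781563907) (Ct.cons false (nat_lit 4) (nat_lit 0) (nat_lit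 18446759466879680519) (Ct.cons false (nat_lit 19) (nat_lit 0) (nat_lit 8070458228866023427) (Ct.cons false (nat_lit 30) (nat_lit 0) (nat_lit 11529230439238598659) (Ct.cons false (nat_lit 24) (nat_lit 0) (nat_lit 8070465925421203459) (Ct.cons true (nat_lit 30) (nat_lit 0) (nat_lit 42658103367042072579) (Ct.cons false (nat_lit 48) (nat_lit 0) (nat_lit 16140916457665986565) (Ct.cons false (nat_lit 19) (nat_lit 0) (nat_lit 40352260357828378627) (Ct.cons false (nat_lit 40) (nat_lit 0) (nat_lit 8070461527378886659) (Ct.cons true (nat_lit 12) (nat_lit 0) (nat_lit 8070486816136888323) (Ct.cons true (nat_lit 23) (nat_lit 0) (nat_lit 11529223842164637699) (Ct.cons true (nat_lit 15) (nat_lit 0) (nat_lit 8070489015162241027) (Ct.cons true (nat_lit 16) (nat_lit 0) (nat_lit 9223389629048160259) (Ct.cons false (nat_lit 12) (nat_lit 0) (nat_lit 56493161422324236295) (Ct.cons true (nat_lit 6) (nat_lit 0) (nat_lit 5764622916205412355) (Ct.cons true (nat_lit 6) (nat_lit 0) (nat_lit 8070458228876509189) (Ct.cons true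 (nat_lit 2) (nat_lit 0) (nat_lit 38046417348612587523) (Ct.cons false (nat_lit 12) (nat_lit 0) (nat_lit 8070502209301774341) (Ct.cons true (nat_lit 30) (nat_lit 0) (nat_lit 38046415149591429123) (Ct.cons false (nat_lit 12) (nat_lit 0) (nat_lit 28823045311755714563) (Ct.cons true (nat_lit 12) (nat_lit 1) (nat_lit 8462484196077913167101955) (Ct.cons false (nat_lit 100) (nat_lit 0) (nat_lit 11529222742664544259) (Ct.cons false (nat_lit 6) (nat_lit 0) (nat_lit 8070456029840670723) (Ct.cons false (nat_lit 6) (nat_lit 0) (nat_lit 8070500010278518789) (Ct.cons true (nat_lit 12) (nat_lit 0) (nat_lit 8070484617113632771) (Ct.cons true (nat_lit 12) (nat_lit 0) (nat_lit 35740572140377735171) (Ct.cons false (nat_lit 8) (nat_lit 0) (nat_lit 24211357094305071107) (Ct.cons false (nat_lit 24) (nat_lit 0) (nat_lit 8070456029838573571) (Ct.cons false (nat_lit 8) (nat_lit 0) (nat_lit 24211354895283912707) (Ct.cons false (nat_lit 8) (nat_lit 0) (nat_lit 11529218344611741699) (Ct.cons true (nat_lit 8) (nat_lit 0) (nat_lit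 9223391828071415813) (Ct.cons false (nat_lit 2) (nat_lit 0) (nat_lit 5764643806925291523) (Ct.cons false (nat_lit 6) (nat_lit 1) (nat_lit 8462488807768329638903811) (Ct.cons true (nat_lit 20) (nat_lit 0) (nat_lit 9223383031974199299) (Ct.cons true (nat_lit 6) (nat_lit 1) (nat_lit 8462484196075714141749251) (Ct.cons true (nat_lit 8) (nat_lit 0) (nat_lit 18446751770305626119) Ct.nil))))))))))))))))))))))))))))))))))))))) (Tb.leaf (nat_lit 5314) (nat_lit 314) (V.cons (nat_lit 354) false (nat_lit 1) V.nil) (Rw.df (nat_lit 354) (nat_lit 0) (nat_lit 0)))) (Tb.node (nat_lit 5318) (Tb.leaf (nat_lit 5316) (nat_lit 363) (V.cons (nat_lit 336) false (nat_lit 17) (V.cons (nat_lit 338) false (nat_lit 5) (V.cons (nat_lit 340) true (nat_lit 437) (V.cons (nat_lit 342) true (nat_lit 24) (V.cons (nat_lit 344) false (nat_lit 1042) (V.cons (nat_lit 346) false (nat_lit 1) (V.cons (nat_lit 348) false (nat_lit 44) (V.cons (nat_lit 350) false (nat_lit 449) (V.cons (nat_lit 352) false (nat_lit 310) (V.cons (nat_lit 354)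 false (nat_lit 6) (V.cons (nat_lit 356) true (nat_lit 100) (V.cons (nat_lit 358) true (nat_lit 4) (V.cons (nat_lit 360) true (nat_lit 2) (V.cons (nat_lit 362) true (nat_lit 53) (V.cons (nat_lit 364) false (nat_lit 244) (V.cons (nat_lit 366) false (nat_lit 253) (V.cons (nat_lit 368) true (nat_lit 248) (V.cons (nat_lit 370) true (nat_lit 178) (V.cons (nat_lit 372) false (nat_lit 34) V.nil))))))))))))))))))) (Rw.rw (nat_lit 1) (nat_lit 0) (Ct.cons false (nat_lit 1) (nat_lit 1) (nat_lit 9671410015689243804827651) Ct.nil))) (Tb.node (nat_lit 5320) (Tb.leaf (nat_lit 5318) (nat_lit 362) (V.cons (nat_lit 336) false (nat_lit 10) (V.cons (nat_lit 338) false (nat_lit 5) (V.cons (nat_lit 340) true (nat_lit 280) (V.cons (nat_lit 342) true (nat_lit 16) (V.cons (nat_lit 344) false (nat_lit 665) (V.cons (nat_lit 346) false (nat_lit 1) (V.cons (nat_lit 348) false (nat_lit 19) (V.cons (nat_lit 350) false (nat_lit 286) (V.cons (nat_lit 352) false (nat_lit 191) (V.cons (nat_lit 354) false (nat_lit 3) (V.cons (nat_lit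 356) true (nat_lit 59) (V.cons (nat_lit 358) true (nat_lit 2) (V.cons (nat_lit 360) true (nat_lit 1) (V.cons (nat_lit 362) true (nat_lit 28) (V.cons (nat_lit 364) false (nat_lit 155) (V.cons (nat_lit 366) false (nat_lit 149) (V.cons (nat_lit 368) true (nat_lit 142) (V.cons (nat_lit 370) true (nat_lit 119) (V.cons (nat_lit 372) false (nat_lit 23) V.nil))))))))))))))))))) (Rw.rw (nat_lit 2) (nat_lit 0) (Ct.cons false (nat_lit 1) (nat_lit 1) (nat_lit 3626780917617197445021701) Ct.nil))) (Tb.leaf (nat_lit 5320) (nat_lit 338) (V.cons (nat_lit 336) false (nat_lit 19) (V.cons (nat_lit 338) false (nat_lit 8) (V.cons (nat_lit 340) true (nat_lit 533) (V.cons (nat_lit 342) true (nat_lit 29) (V.cons (nat_lit 344) false (nat_lit 1264) (V.cons (nat_lit 348) false (nat_lit 44) (V.cons (nat_lit 350) false (nat_lit 542) (V.cons (nat_lit 352) false (nat_lit 376) (V.cons (nat_lit 354) false (nat_lit 6) (V.cons (nat_lit 356) true (nat_lit 115) (V.cons (nat_lit 358) true (nat_lit 4) (V.cons (nat_lit 360) true (nat_lit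 2) (V.cons (nat_lit 362) true (nat_lit 65) (V.cons (nat_lit 364) false (nat_lit 292) (V.cons (nat_lit 366) false (nat_lit 298) (V.cons (nat_lit 368) true (nat_lit 287) (V.cons (nat_lit 370) true (nat_lit 220) (V.cons (nat_lit 372) false (nat_lit 42) V.nil)))))))))))))))))) (Rw.rw (nat_lit 3) (nat_lit 1) (Ct.cons false (nat_lit 23) (nat_lit 0) (nat_lit 8070456029840670723) (Ct.cons true (nat_lit 65) (nat_lit 0) (nat_lit 40352260357828378627) (Ct.cons false (nat_lit 456) (nat_lit 1) (nat_lit 8462484196077913167101955) (Ct.cons true (nat_lit 575) (nat_lit 0) (nat_lit 8070461527378886659) (Ct.cons true (nat_lit 1097) (nat_lit 0) (nat_lit 11529230439238598659) (Ct.cons true (nat_lit 1033) (nat_lit 0) (nat_lit 8070465925421203459) (Ct.cons false (nat_lit 738) (nat_lit 0) (nat_lit 11529223842164637699) (Ct.cons true (nat_lit 683) (nat_lit 0) (nat_lit 8070458228866023427) (Ct.cons true (nat_lit 2281) (nat_lit 0) (nat_lit 11529222742664544259) (Ct.cons true (nat_lit 101) (nat_lit 0) (nat_lit 18446759466879680519)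 (Ct.cons false (nat_lit 407) (nat_lit 0) (nat_lit 42658103367042072579) (Ct.cons true (nat_lit 745) (nat_lit 0) (nat_lit 16140916457665986565) (Ct.cons false (nat_lit 245) (nat_lit 0) (nat_lit 8070486816136888323) (Ct.cons false (nat_lit 307) (nat_lit 0) (nat_lit 9223389629048160259) (Ct.cons true (nat_lit 231) (nat_lit 0) (nat_lit 56493161422324236295) (Ct.cons false (nat_lit 1) (nat_lit 0) (nat_lit 5764615219648135171) (Ct.cons false (nat_lit 211) (nat_lit 0) (nat_lit 5764622916205412355) (Ct.cons false (nat_lit 211) (nat_lit 0) (nat_lit 8070458228876509189) (Ct.cons false (nat_lit 85) (nat_lit 0) (nat_lit 38046417348612587523) (Ct.cons true (nat_lit 254) (nat_lit 0) (nat_lit 8070502209301774341) (Ct.cons false (nat_lit 583) (nat_lit 0) (nat_lit 38046415149591429123) (Ct.cons true (nat_lit 254) (nat_lit 0) (nat_lit 28823045311755714563) (Ct.cons true (nat_lit 23) (nat_lit 0) (nat_lit 58799004431537930247) (Ct.cons false (nat_lit 102) (nat_lit 0) (nat_lit 18446751770305626119) (Ct.cons false (nat_lit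 381) (nat_lit 0) (nat_lit 9223383031974199299) (Ct.cons true (nat_lit 112) (nat_lit 0) (nat_lit 8070500010278518789) (Ct.cons false (nat_lit 231) (nat_lit 0) (nat_lit 8070484617113632771) (Ct.cons false (nat_lit 231) (nat_lit 0) (nat_lit 35740572140377735171) (Ct.cons true (nat_lit 203) (nat_lit 0) (nat_lit 24211357094305071107) (Ct.cons true (nat_lit 437) (nat_lit 0) (nat_lit 8070456029838573571) (Ct.cons true (nat_lit 178) (nat_lit 0) (nat_lit 24211354895283912707) (Ct.cons true (nat_lit 106) (nat_lit 0) (nat_lit 11529218344611741699) (Ct.cons false (nat_lit 226) (nat_lit 0) (nat_lit 9223391828071415813) (Ct.cons true (nat_lit 16) (nat_lit 0) (nat_lit 5764643806925291523) (Ct.cons false (nat_lit 66) (nat_lit 1) (nat_lit 8462484196075714141749251) (Ct.cons true (nat_lit 126) (nat_lit 1) (nat_lit 8462488807768329638903811) (Ct.cons false (nat_lit 533) (nat_lit 0) (nat_lit 8070489015162241027) (Ct.cons true (nat_lit 24) (nat_lit 1) (nat_lit 8462488807772727687512069) (Ct.cons true (nat_lit 102)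 (nat_lit 0) (nat_lit 5764630612781563907) (Ct.cons true (nat_lit 48) (nat_lit 0) (nat_lit 28823040913713397763) Ct.nil)))))))))))))))))))))))))))))))))))))))))))))
def tK61 : Tb := (Tb.node (nat_lit 5326) (Tb.node (nat_lit 5324) (Tb.leaf (nat_lit 5322) (nat_lit 378) (V.cons (nat_lit 396) false (nat_lit 3) V.nil) (Rw.df (nat_lit 396) (nat_lit 0) (nat_lit 1))) (Tb.leaf (nat_lit 5324) (nat_lit 379) (V.cons (nat_lit 398) false (nat_lit 18) V.nil) (Rw.df (nat_lit 398) (nat_lit 1) (nat_lit 2)))) (Tb.node (nat_lit 5328) (Tb.leaf (nat_lit 5326) (nat_lit 380) (V.cons (nat_lit 400) false (nat_lit 6) V.nil) (Rw.df (nat_lit 400) (nat_lit 1) (nat_lit 1))) (Tb.node (nat_lit 5330) (Tb.leaf (nat_lit 5328) (nat_lit 396) (V.cons (nat_lit 374) false (nat_lit 72) (V.cons (nat_lit 376) true (nat_lit 126) (V.cons (nat_lit 380) true (nat_lit 54) (V.cons (nat_lit 382) false (nat_lit 63) (V.cons (nat_lit 384) true (nat_lit 6) (V.cons (nat_lit 386) false (nat_lit 38) (V.cons (nat_lit 388) true (nat_lit 18) (V.cons (nat_lit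 390) false (nat_lit 2) (V.cons (nat_lit 392) true (nat_lit 36) (V.cons (nat_lit 394) false (nat_lit 72) (V.cons (nat_lit 396) true (nat_lit 6) (V.cons (nat_lit 398) false (nat_lit 54) (V.cons (nat_lit 400) false (nat_lit 18) (V.cons (nat_lit 402) false (nat_lit 6) (V.cons (nat_lit 404) false (nat_lit 36) (V.cons (nat_lit 408) true (nat_lit 72) (V.cons (nat_lit 410) true (nat_lit 54) (V.cons (nat_lit 414) true (nat_lit 2) (V.cons (nat_lit 416) true (nat_lit 9) (V.cons (nat_lit 418) false (nat_lit 15) V.nil)))))))))))))))))))) (Rw.rw (nat_lit 1) (nat_lit 0) (Ct.cons false (nat_lit 2) (nat_lit 1) (nat_lit 12089261654918502154240003) (Ct.cons true (nat_lit 1) (nat_lit 0) (nat_lit 20752594779517222919) (Ct.cons false (nat_lit 2) (nat_lit 0) (nat_lit 5764615219652329475) (Ct.cons true (nat_lit 2) (nat_lit 0) (nat_lit 8070456029842767875) (Ct.cons false (nat_lit 7) (nat_lit 0) (nat_lit 11529232638261854211) (Ct.cons true (nat_lit 5) (nat_lit 0) (nat_lit 40352260357826281475) (Ct.cons true (nat_lit 7)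 (nat_lit 0) (nat_lit 8070493413206654979) (Ct.cons true (nat_lit 3) (nat_lit 0) (nat_lit 38046415149589331971) (Ct.cons false (nat_lit 2) (nat_lit 0) (nat_lit 5764615219654426627) (Ct.cons false (nat_lit 2) (nat_lit 0) (nat_lit 8070489015160143875) (Ct.cons false (nat_lit 1) (nat_lit 0) (nat_lit 8070500010276421637) (Ct.cons true (nat_lit 1) (nat_lit 0) (nat_lit 8070480219065024515) (Ct.cons true (nat_lit 3) (nat_lit 0) (nat_lit 16140908761094029317) (Ct.cons true (nat_lit 7) (nat_lit 0) (nat_lit 44963944177232510979) (Ct.cons false (nat_lit 2) (nat_lit 0) (nat_lit 8070456029846962179) (Ct.cons false (nat_lit 10) (nat_lit 0) (nat_lit 18446751770301431811) (Ct.cons false (nat_lit 7) (nat_lit 0) (nat_lit 11529222742666641411) (Ct.cons true (nat_lit 5) (nat_lit 0) (nat_lit 8070470323467714565) (Ct.cons true (nat_lit 5) (nat_lit 0) (nat_lit 28823043112732459011) (Ct.cons false (nat_lit 8) (nat_lit 0) (nat_lit 18446752869807816707) (Ct.cons false (nat_lit 3) (nat_lit 0) (nat_lit 8070491214183399427)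 (Ct.cons false (nat_lit 3) (nat_lit 0) (nat_lit 42658101168018817027) (Ct.cons false (nat_lit 2) (nat_lit 0) (nat_lit 8070461527380983811) (Ct.cons true (nat_lit 3) (nat_lit 0) (nat_lit 20752595879021510661) (Ct.cons false (nat_lit 3) (nat_lit 0) (nat_lit 9223391828069318661) (Ct.cons true (nat_lit 1) (nat_lit 0) (nat_lit 13835061353825435651) (Ct.cons false (nat_lit 3) (nat_lit 0) (nat_lit 5764641607899938819) (Ct.cons false (nat_lit 1) (nat_lit 0) (nat_lit 11529230439236501507) (Ct.cons true (nat_lit 1) (nat_lit 0) (nat_lit 5764622916207509507) (Ct.cons true (nat_lit 2) (nat_lit 0) (nat_lit 28823040913711300611) (Ct.cons true (nat_lit 1) (nat_lit 0) (nat_lit 31128888320969408515) (Ct.cons false (nat_lit 1) (nat_lit 0) (nat_lit 54187316214087286789) (Ct.cons true (nat_lit 2) (nat_lit 0) (nat_lit 31128883922927091715) (Ct.cons false (nat_lit 10) (nat_lit 0) (nat_lit 18446761665902936071) (Ct.cons false (nat_lit 10) (nat_lit 0) (nat_lit 5764650403995058179) (Ct.cons true (nat_lit 5) (nat_lit 0)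 (nat_lit 8070458228874412035) (Ct.cons false (nat_lit 5) (nat_lit 0) (nat_lit 9223377534429691907) (Ct.cons false (nat_lit 1) (nat_lit 1) (nat_lit 6044632556848654817689603) (Ct.cons true (nat_lit 5) (nat_lit 0) (nat_lit 5764646005948547075) (Ct.cons false (nat_lit 5) (nat_lit 0) (nat_lit 8070468124444459011) (Ct.cons false (nat_lit 2) (nat_lit 0) (nat_lit 8070495612232007683) (Ct.cons true (nat_lit 2) (nat_lit 0) (nat_lit 8070463726402142211) (Ct.cons true (nat_lit 1) (nat_lit 1) (nat_lit 3626780917619396468277253) (Ct.cons false (nat_lit 1) (nat_lit 1) (nat_lit 8462486501927519450562563) (Ct.cons false (nat_lit 2) (nat_lit 0) (nat_lit 9223385230997454851) (Ct.cons true (nat_lit 2) (nat_lit 0) (nat_lit 5764613020624879619) (Ct.cons true (nat_lit 3) (nat_lit 0) (nat_lit 8070497811255263235) (Ct.cons true (nat_lit 1) (nat_lit 1) (nat_lit 8462486501929718473818117) Ct.nil)))))))))))))))))))))))))))))))))))))))))))))))))) (Tb.leaf (nat_lit 5330) (nat_lit 381) (V.cons (nat_lit 402) false (nat_lit 6)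 V.nil) (Rw.df (nat_lit 402) (nat_lit 1) (nat_lit 1))))))
def tK62 : Tb := (Tb.node (nat_lit 5322) tK60 tK61)
def tK63 : Tb := (Tb.node (nat_lit 5312) tK59 tK62)
def tK64 : Tb := (Tb.node (nat_lit 5268) tK57 tK63)
def tK65 : Tb := (Tb.node (nat_lit 5344) (Tb.node (nat_lit 5342) (Tb.leaf (nat_lit 5340) (nat_lit 386) (V.cons (nat_lit 412) false (nat_lit 6) V.nil) (Rw.df (nat_lit 412) (nat_lit 1) (nat_lit 1))) (Tb.leaf (nat_lit 5342) (nat_lit 387) (V.cons (nat_lit 414) false (nat_lit 2) V.nil) (Rw.df (nat_lit 414) (nat_lit 1) (nat_lit 0)))) (Tb.node (nat_lit 5346) (Tb.leaf (nat_lit 5344) (nat_lit 388) (V.cons (nat_lit 416) false (nat_lit 9) V.nil) (Rw.df (nat_lit 416) (nat_lit 0) (nat_lit 2))) (Tb.node (nat_lit 5374) (Tb.leaf (nat_lit 5346) (nat_lit 389) (V.cons (nat_lit 418) false (nat_lit 3) V.nil) (Rw.df (nat_lit 418) (nat_lit 0) (nat_lit 1))) (Tb.leaf (nat_lit 5374) (nat_lit 531) (V.cons (nat_lit 444) true (nat_lit 26) (V.cons (nat_lit 446) false (nat_lit 27) (V.cons (nat_lit 448) false (nat_lit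 213) (V.cons (nat_lit 450) false (nat_lit 31) (V.cons (nat_lit 452) true (nat_lit 66) (V.cons (nat_lit 454) false (nat_lit 144) (V.cons (nat_lit 456) true (nat_lit 108) (V.cons (nat_lit 458) false (nat_lit 18) (V.cons (nat_lit 460) true (nat_lit 39) (V.cons (nat_lit 462) true (nat_lit 66) (V.cons (nat_lit 464) false (nat_lit 48) (V.cons (nat_lit 466) false (nat_lit 111) (V.cons (nat_lit 468) true (nat_lit 81) (V.cons (nat_lit 470) true (nat_lit 27) (V.cons (nat_lit 472) false (nat_lit 66) (V.cons (nat_lit 474) true (nat_lit 37) (V.cons (nat_lit 476) false (nat_lit 108) (V.cons (nat_lit 478) true (nat_lit 105) (V.cons (nat_lit 480) false (nat_lit 108) V.nil))))))))))))))))))) (Rw.rw (nat_lit 1) (nat_lit 0) (Ct.cons false (nat_lit 1) (nat_lit 1) (nat_lit 16924964933377018853064707) Ct.nil))))))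
def tK66 : Tb := (Tb.node (nat_lit 5340) (Tb.node (nat_lit 5336) (Tb.node (nat_lit 5334) (Tb.leaf (nat_lit 5332) (nat_lit 382) (V.cons (nat_lit 404) false (nat_lit 9) V.nil) (Rw.df (nat_lit 404) (nat_lit 0) (nat_lit 2))) (Tb.leaf (nat_lit 5334) (nat_lit 383) (V.cons (nat_lit 406) false (nat_lit 9) V.nil) (Rw.df (nat_lit 406) (nat_lit 0) (nat_lit 2)))) (Tb.node (nat_lit 5338) (Tb.leaf (nat_lit 5336) (nat_lit 384) (V.cons (nat_lit 408) false (nat_lit 9) V.nil) (Rw.df (nat_lit 408) (nat_lit 0) (nat_lit 2))) (Tb.leaf (nat_lit 5338) (nat_lit 385) (V.cons (nat_lit 410) false (nat_lit 18) V.nil) (Rw.df (nat_lit 410) (nat_lit 1) (nat_lit 2))))) tK65)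
def tK67 : Tb := (Tb.node (nat_lit 5380) (Tb.node (nat_lit 5378) (Tb.leaf (nat_lit 5376) (nat_lit 530) (V.cons (nat_lit 444) false (nat_lit 38) (V.cons (nat_lit 446) true (nat_lit 35) (V.cons (nat_lit 448) true (nat_lit 297) (V.cons (nat_lit 450) true (nat_lit 33) (V.cons (nat_lit 452) false (nat_lit 72) (V.cons (nat_lit 454) true (nat_lit 180) (V.cons (nat_lit 456) false (nat_lit 153) (V.cons (nat_lit 458) true (nat_lit 36) (V.cons (nat_lit 460) false (nat_lit 52) (V.cons (nat_lit 462) false (nat_lit 87) (V.cons (nat_lit 464) true (nat_lit 48) (V.cons (nat_lit 466) true (nat_lit 162) (V.cons (nat_lit 468) false (nat_lit 123) (V.cons (nat_lit 470) false (nat_lit 30) (V.cons (nat_lit 472) true (nat_lit 87) (V.cons (nat_lit 474) false (nat_lit 53) (V.cons (nat_lit 476) true (nat_lit 150) (V.cons (nat_lit 478) false (nat_lit 129) (V.cons (nat_lit 480) true (nat_lit 138) V.nil))))))))))))))))))) (Rw.rw (nat_lit 0) (nat_lit 0) (Ct.cons false (nat_lit 1) (nat_lit 0) (nat_lit 20752602476093374469) Ct.nil)))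 (Tb.leaf (nat_lit 5378) (nat_lit 512) (V.cons (nat_lit 444) false (nat_lit 42) (V.cons (nat_lit 446) true (nat_lit 38) (V.cons (nat_lit 448) true (nat_lit 328) (V.cons (nat_lit 450) true (nat_lit 37) (V.cons (nat_lit 452) false (nat_lit 80) (V.cons (nat_lit 454) true (nat_lit 203) (V.cons (nat_lit 456) false (nat_lit 170) (V.cons (nat_lit 458) true (nat_lit 40) (V.cons (nat_lit 460) false (nat_lit 58) (V.cons (nat_lit 462) false (nat_lit 98) (V.cons (nat_lit 464) true (nat_lit 53) (V.cons (nat_lit 466) true (nat_lit 182) (V.cons (nat_lit 468) false (nat_lit 139) (V.cons (nat_lit 470) false (nat_lit 32) (V.cons (nat_lit 472) true (nat_lit 95) (V.cons (nat_lit 474) false (nat_lit 60) (V.cons (nat_lit 476) true (nat_lit 169) (V.cons (nat_lit 478) false (nat_lit 143) (V.cons (nat_lit 480) true (nat_lit 154) V.nil))))))))))))))))))) (Rw.rw (nat_lit 0) (nat_lit 0) (Ct.cons true (nat_lit 1) (nat_lit 0) (nat_lit 51881473204873592835) Ct.nil)))) (Tb.node (nat_lit 5382) (Tb.leaf (nat_lit 5380) (nat_lit 533)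 (V.cons (nat_lit 444) false (nat_lit 61) (V.cons (nat_lit 446) true (nat_lit 57) (V.cons (nat_lit 448) true (nat_lit 469) (V.cons (nat_lit 450) true (nat_lit 55) (V.cons (nat_lit 452) false (nat_lit 113) (V.cons (nat_lit 454) true (nat_lit 284) (V.cons (nat_lit 456) false (nat_lit 242) (V.cons (nat_lit 458) true (nat_lit 55) (V.cons (nat_lit 460) false (nat_lit 83) (V.cons (nat_lit 462) false (nat_lit 141) (V.cons (nat_lit 464) true (nat_lit 80) (V.cons (nat_lit 466) true (nat_lit 257) (V.cons (nat_lit 468) false (nat_lit 193) (V.cons (nat_lit 470) false (nat_lit 50) (V.cons (nat_lit 472) true (nat_lit 137) (V.cons (nat_lit 474) false (nat_lit 85) (V.cons (nat_lit 476) true (nat_lit 241) (V.cons (nat_lit 478) false (nat_lit 209) (V.cons (nat_lit 480) true (nat_lit 223) V.nil))))))))))))))))))) (Rw.rw (nat_lit 1) (nat_lit 0) (Ct.cons false (nat_lit 1) (nat_lit 1) (nat_lit 8462488807772727685414915) Ct.nil))) (Tb.node (nat_lit 5384) (Tb.leaf (nat_lit 5382) (nat_lit 532) (V.cons (nat_lit 444) false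 (nat_lit 66) (V.cons (nat_lit 446) true (nat_lit 66) (V.cons (nat_lit 448) true (nat_lit 546) (V.cons (nat_lit 450) true (nat_lit 72) (V.cons (nat_lit 452) false (nat_lit 159) (V.cons (nat_lit 454) true (nat_lit 354) (V.cons (nat_lit 456) false (nat_lit 279) (V.cons (nat_lit 458) true (nat_lit 54) (V.cons (nat_lit 460) false (nat_lit 98) (V.cons (nat_lit 462) false (nat_lit 164) (V.cons (nat_lit 464) true (nat_lit 105) (V.cons (nat_lit 466) true (nat_lit 291) (V.cons (nat_lit 468) false (nat_lit 216) (V.cons (nat_lit 470) false (nat_lit 63) (V.cons (nat_lit 472) true (nat_lit 168) (V.cons (nat_lit 474) false (nat_lit 95) (V.cons (nat_lit 476) true (nat_lit 273) (V.cons (nat_lit 478) false (nat_lit 255) (V.cons (nat_lit 480) true (nat_lit 267) V.nil))))))))))))))))))) (Rw.rw (nat_lit 0) (nat_lit 0) (Ct.cons true (nat_lit 1) (nat_lit 1) (nat_lit 21760672823521553979277315) Ct.nil))) (Tb.leaf (nat_lit 5384) (nat_lit 508) (V.cons (nat_lit 444) true (nat_lit 18) (V.cons (nat_lit 446) false (nat_lit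 18) (V.cons (nat_lit 448) false (nat_lit 143) (V.cons (nat_lit 450) false (nat_lit 19) (V.cons (nat_lit 452) true (nat_lit 40) (V.cons (nat_lit 454) false (nat_lit 91) (V.cons (nat_lit 456) true (nat_lit 73) (V.cons (nat_lit 458) false (nat_lit 14) (V.cons (nat_lit 460) true (nat_lit 26) (V.cons (nat_lit 462) true (nat_lit 44) (V.cons (nat_lit 464) false (nat_lit 28) (V.cons (nat_lit 466) false (nat_lit 76) (V.cons (nat_lit 468) true (nat_lit 56) (V.cons (nat_lit 470) true (nat_lit 16) (V.cons (nat_lit 472) false (nat_lit 43) (V.cons (nat_lit 474) true (nat_lit 25) (V.cons (nat_lit 476) false (nat_lit 71) (V.cons (nat_lit 478) true (nat_lit 67) (V.cons (nat_lit 480) false (nat_lit 71) V.nil))))))))))))))))))) (Rw.rw (nat_lit 0) (nat_lit 0) (Ct.cons true (nat_lit 1) (nat_lit 0) (nat_lit 16140906562068676611) Ct.nil))))))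
def tK68 : Tb := (Tb.node (nat_lit 5390) (Tb.node (nat_lit 5388) (Tb.leaf (nat_lit 5386) (nat_lit 546) (V.cons (nat_lit 496) false (nat_lit 6) V.nil) (Rw.df (nat_lit 496) (nat_lit 1) (nat_lit 1))) (Tb.leaf (nat_lit 5388) (nat_lit 564) (V.cons (nat_lit 482) false (nat_lit 8) (V.cons (nat_lit 484) true (nat_lit 6) (V.cons (nat_lit 486) true (nat_lit 2) (V.cons (nat_lit 490) true (nat_lit 8) (V.cons (nat_lit 492) true (nat_lit 14) (V.cons (nat_lit 498) false (nat_lit 18) (V.cons (nat_lit 500) false (nat_lit 4) (V.cons (nat_lit 502) false (nat_lit 6) (V.cons (nat_lit 504) true (nat_lit 2) (V.cons (nat_lit 506) true (nat_lit 24) (V.cons (nat_lit 508) true (nat_lit 18) (V.cons (nat_lit 510) true (nat_lit 36) (V.cons (nat_lit 512) false (nat_lit 6) (V.cons (nat_lit 514) true (nat_lit 12) (V.cons (nat_lit 516) false (nat_lit 12) V.nil))))))))))))))) (Rw.rw (nat_lit 1) (nat_lit 0) (Ct.cons true (nat_lit 1) (nat_lit 1) (nat_lit 3626780917619396466180099) (Ct.cons true (nat_lit 3) (nat_lit 0) (nat_lit 11529232638257659907)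 (Ct.cons false (nat_lit 2) (nat_lit 0) (nat_lit 18446755068828975107) (Ct.cons true (nat_lit 2) (nat_lit 0) (nat_lit 40352255959779770371) (Ct.cons false (nat_lit 4) (nat_lit 0) (nat_lit 5764622916213800963) (Ct.cons true (nat_lit 4) (nat_lit 0) (nat_lit 8070497811251068931) (Ct.cons false (nat_lit 4) (nat_lit 0) (nat_lit 5764650403990863875) (Ct.cons true (nat_lit 4) (nat_lit 0) (nat_lit 8070468124450750467) (Ct.cons true (nat_lit 4) (nat_lit 0) (nat_lit 18446751770307723267) (Ct.cons true (nat_lit 4) (nat_lit 0) (nat_lit 18446749571282370563) (Ct.cons true (nat_lit 3) (nat_lit 0) (nat_lit 5764646005944352771) (Ct.cons true (nat_lit 2) (nat_lit 0) (nat_lit 20752592580491870211) Ct.nil))))))))))))))) (Tb.node (nat_lit 5392) (Tb.leaf (nat_lit 5390) (nat_lit 547) (V.cons (nat_lit 498) false (nat_lit 6) V.nil) (Rw.df (nat_lit 498) (nat_lit 1) (nat_lit 1))) (Tb.node (nat_lit 5394) (Tb.leaf (nat_lit 5392) (nat_lit 560) (V.cons (nat_lit 482) true (nat_lit 4) (V.cons (nat_lit 484) false (nat_lit 2) (V.cons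 (nat_lit 490) false (nat_lit 4) (V.cons (nat_lit 492) false (nat_lit 6) (V.cons (nat_lit 494) true (nat_lit 2) (V.cons (nat_lit 496) false (nat_lit 6) (V.cons (nat_lit 498) true (nat_lit 6) (V.cons (nat_lit 500) true (nat_lit 2) (V.cons (nat_lit 502) true (nat_lit 2) (V.cons (nat_lit 504) false (nat_lit 2) (V.cons (nat_lit 506) false (nat_lit 12) (V.cons (nat_lit 508) false (nat_lit 12) (V.cons (nat_lit 510) false (nat_lit 12) (V.cons (nat_lit 516) true (nat_lit 12) V.nil)))))))))))))) (Rw.rw (nat_lit 0) (nat_lit 0) (Ct.cons true (nat_lit 1) (nat_lit 0) (nat_lit 5764622916213800963) (Ct.cons false (nat_lit 1) (nat_lit 0) (nat_lit 8070497811251068931) (Ct.cons false (nat_lit 1) (nat_lit 0) (nat_lit 18446749571282370563) (Ct.cons true (nat_lit 1) (nat_lit 0) (nat_lit 5764650403990863875) (Ct.cons false (nat_lit 1) (nat_lit 0) (nat_lit 8070468124450750467) (Ct.cons true (nat_lit 1) (nat_lit 0) (nat_lit 18446755068828975107) (Ct.cons false (nat_lit 1) (nat_lit 0) (nat_lit 8070456029857447939) (Ct.cons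 true (nat_lit 1) (nat_lit 0) (nat_lit 56493159223300980739) (Ct.cons true (nat_lit 1) (nat_lit 0) (nat_lit 8070504408322932739) (Ct.cons false (nat_lit 1) (nat_lit 0) (nat_lit 18446751770307723267) Ct.nil)))))))))))) (Tb.leaf (nat_lit 5394) (nat_lit 548) (V.cons (nat_lit 500) false (nat_lit 2) V.nil) (Rw.df (nat_lit 500) (nat_lit 1) (nat_lit 0))))))
def tK69 : Tb := (Tb.node (nat_lit 5386) tK67 tK68)
def tK70 : Tb := (Tb.node (nat_lit 5376) tK66 tK69)
def tK71 : Tb := (Tb.node (nat_lit 7175) (Tb.node (nat_lit 7174) (Tb.leaf (nat_lit 5404) (nat_lit 553) (V.cons (nat_lit 510) false (nat_lit 6) V.nil) (Rw.df (nat_lit 510) (nat_lit 1) (nat_lit 1))) (Tb.leaf (nat_lit 7174) (nat_lit 0) (V.cons (nat_lit 8) false (nat_lit 1) V.nil) (Rw.df (nat_lit 8) (nat_lit 0) (nat_lit 0)))) (Tb.node (nat_lit 7177) (Tb.leaf (nat_lit 7175) (nat_lit 6) (V.cons (nat_lit 21) false (nat_lit 1) V.nil) (Rw.df (nat_lit 21) (nat_lit 0) (nat_lit 0))) (Tb.node (nat_lit 7179) (Tb.leaf (nat_lit 7177) (nat_lit 8) (V.cons (nat_lit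 25) false (nat_lit 1) V.nil) (Rw.df (nat_lit 25) (nat_lit 0) (nat_lit 0))) (Tb.leaf (nat_lit 7179) (nat_lit 10) (V.cons (nat_lit 29) false (nat_lit 1) V.nil) (Rw.df (nat_lit 29) (nat_lit 0) (nat_lit 0))))))
def tK72 : Tb := (Tb.node (nat_lit 5404) (Tb.node (nat_lit 5400) (Tb.node (nat_lit 5398) (Tb.leaf (nat_lit 5396) (nat_lit 549) (V.cons (nat_lit 502) false (nat_lit 2) V.nil) (Rw.df (nat_lit 502) (nat_lit 1) (nat_lit 0))) (Tb.leaf (nat_lit 5398) (nat_lit 550) (V.cons (nat_lit 504) false (nat_lit 2) V.nil) (Rw.df (nat_lit 504) (nat_lit 1) (nat_lit 0)))) (Tb.node (nat_lit 5402) (Tb.leaf (nat_lit 5400) (nat_lit 551) (V.cons (nat_lit 506) false (nat_lit 6) V.nil) (Rw.df (nat_lit 506) (nat_lit 1) (nat_lit 1))) (Tb.leaf (nat_lit 5402) (nat_lit 552) (V.cons (nat_lit 508) false (nat_lit 6) V.nil) (Rw.df (nat_lit 508) (nat_lit 1) (nat_lit 1))))) tK71)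
def tK73 : Tb := (Tb.node (nat_lit 7185) (Tb.node (nat_lit 7183) (Tb.leaf (nat_lit 7181) (nat_lit 12) (V.cons (nat_lit 33) false (nat_lit 1) V.nil) (Rw.df (nat_lit 33) (nat_lit 0) (nat_lit 0))) (Tb.leaf (nat_lit 7183) (nat_lit 15) (V.cons (nat_lit 39) false (nat_lit 1) V.nil) (Rw.df (nat_lit 39) (nat_lit 0) (nat_lit 0)))) (Tb.node (nat_lit 7190) (Tb.leaf (nat_lit 7185) (nat_lit 19) (V.cons (nat_lit 47) false (nat_lit 1) V.nil) (Rw.df (nat_lit 47) (nat_lit 0) (nat_lit 0))) (Tb.node (nat_lit 7192) (Tb.leaf (nat_lit 7190) (nat_lit 24) (V.cons (nat_lit 56) false (nat_lit 1) V.nil) (Rw.df (nat_lit 56) (nat_lit 0) (nat_lit 0))) (Tb.leaf (nat_lit 7192) (nat_lit 25) (V.cons (nat_lit 58) false (nat_lit 1) V.nil) (Rw.df (nat_lit 58) (nat_lit 0) (nat_lit 0))))))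
def tK74 : Tb := (Tb.node (nat_lit 7198) (Tb.node (nat_lit 7196) (Tb.leaf (nat_lit 7194) (nat_lit 29) (V.cons (nat_lit 64) false (nat_lit 1) V.nil) (Rw.df (nat_lit 64) (nat_lit 0) (nat_lit 0))) (Tb.leaf (nat_lit 7196) (nat_lit 30) (V.cons (nat_lit 60) true (nat_lit 1) (V.cons (nat_lit 62) false (nat_lit 1) (V.cons (nat_lit 64) false (nat_lit 1) V.nil))) (Rw.rw (nat_lit 0) (nat_lit 0) (Ct.cons false (nat_lit 1) (nat_lit 0) (nat_lit 8070458228834566149) Ct.nil)))) (Tb.node (nat_lit 7200) (Tb.leaf (nat_lit 7198) (nat_lit 33) (V.cons (nat_lit 68) false (nat_lit 1) V.nil) (Rw.df (nat_lit 68) (nat_lit 0) (nat_lit 0))) (Tb.node (nat_lit 7202) (Tb.leaf (nat_lit 7200) (nat_lit 34) (V.cons (nat_lit 70) false (nat_lit 1) V.nil) (Rw.df (nat_lit 70) (nat_lit 0) (nat_lit 0))) (Tb.leaf (nat_lit 7202) (nat_lit 39) (V.cons (nat_lit 78) false (nat_lit 1) V.nil) (Rw.df (nat_lit 78) (nat_lit 0) (nat_lit 0))))))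
def tK75 : Tb := (Tb.node (nat_lit 7194) tK73 tK74)
def tK76 : Tb := (Tb.node (nat_lit 7181) tK72 tK75)
def tK77 : Tb := (Tb.node (nat_lit 5396) tK70 tK76)
def tK78 : Tb := (Tb.node (nat_lit 5332) tK64 tK77)
def tK79 : Tb := (Tb.node (nat_lit 7216) (Tb.node (nat_lit 7214) (Tb.leaf (nat_lit 7212) (nat_lit 56) (V.cons (nat_lit 100) false (nat_lit 1) V.nil) (Rw.df (nat_lit 100) (nat_lit 0) (nat_lit 0))) (Tb.leaf (nat_lit 7214) (nat_lit 57) (V.cons (nat_lit 96) true (nat_lit 1) (V.cons (nat_lit 98) false (nat_lit 1) (V.cons (nat_lit 100) false (nat_lit 1) V.nil))) (Rw.rw (nat_lit 0) (nat_lit 0) (Ct.cons false (nat_lit 1) (nat_lit 0) (nat_lit 8070458228832468995) Ct.nil)))) (Tb.node (nat_lit 7218) (Tb.leaf (nat_lit 7216) (nat_lit 64) (V.cons (nat_lit 112) false (nat_lit 1) V.nil) (Rw.df (nat_lit 112) (nat_lit 0) (nat_lit 0))) (Tb.node (nat_lit 7220) (Tb.leaf (nat_lit 7218) (nat_lit 67) (V.cons (nat_lit 102) true (nat_lit 2) (V.cons (nat_lit 104) false (nat_lit 1) (V.cons (nat_lit 106) false (nat_lit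 1) (V.cons (nat_lit 108) false (nat_lit 1) (V.cons (nat_lit 110) true (nat_lit 1) (V.cons (nat_lit 112) false (nat_lit 1) V.nil)))))) (Rw.rw (nat_lit 0) (nat_lit 0) (Ct.cons false (nat_lit 1) (nat_lit 0) (nat_lit 8070456029809213443) Ct.nil))) (Tb.leaf (nat_lit 7220) (nat_lit 75) (V.cons (nat_lit 124) false (nat_lit 1) V.nil) (Rw.df (nat_lit 124) (nat_lit 0) (nat_lit 0))))))
def tK80 : Tb := (Tb.node (nat_lit 7212) (Tb.node (nat_lit 7208) (Tb.node (nat_lit 7206) (Tb.leaf (nat_lit 7204) (nat_lit 40) (V.cons (nat_lit 80) false (nat_lit 1) V.nil) (Rw.df (nat_lit 80) (nat_lit 0) (nat_lit 0))) (Tb.leaf (nat_lit 7206) (nat_lit 41) (V.cons (nat_lit 82) false (nat_lit 1) V.nil) (Rw.df (nat_lit 82) (nat_lit 0) (nat_lit 0)))) (Tb.node (nat_lit 7210) (Tb.leaf (nat_lit 7208) (nat_lit 51) (V.cons (nat_lit 84) false (nat_lit 1) (V.cons (nat_lit 88) true (nat_lit 1) (V.cons (nat_lit 90) false (nat_lit 1) (V.cons (nat_lit 94) true (nat_lit 1) V.nil)))) (Rw.rw (nat_lit 0) (nat_lit 0) (Ct.cons false (nat_lit 1)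 (nat_lit 0) (nat_lit 5764613020599713795) Ct.nil))) (Tb.leaf (nat_lit 7210) (nat_lit 49) (V.cons (nat_lit 92) false (nat_lit 1) V.nil) (Rw.df (nat_lit 92) (nat_lit 0) (nat_lit 0))))) tK79)
def tK81 : Tb := (Tb.node (nat_lit 7245) (Tb.node (nat_lit 7243) (Tb.leaf (nat_lit 7241) (nat_lit 97) (V.cons (nat_lit 155) false (nat_lit 1) V.nil) (Rw.df (nat_lit 155) (nat_lit 0) (nat_lit 0))) (Tb.leaf (nat_lit 7243) (nat_lit 98) (V.cons (nat_lit 157) false (nat_lit 1) V.nil) (Rw.df (nat_lit 157) (nat_lit 0) (nat_lit 0)))) (Tb.node (nat_lit 7247) (Tb.leaf (nat_lit 7245) (nat_lit 99) (V.cons (nat_lit 159) false (nat_lit 1) V.nil) (Rw.df (nat_lit 159) (nat_lit 0) (nat_lit 0))) (Tb.node (nat_lit 7249) (Tb.leaf (nat_lit 7247) (nat_lit 108) (V.cons (nat_lit 145) true (nat_lit 1) (V.cons (nat_lit 147) true (nat_lit 1) (V.cons (nat_lit 149) false (nat_lit 2) (V.cons (nat_lit 151) false (nat_lit 2) (V.cons (nat_lit 153) true (nat_lit 4) (V.cons (nat_lit 157) false (nat_lit 1) (V.cons (nat_lit 159) false (nat_lit 2)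 (V.cons (nat_lit 161) true (nat_lit 2) V.nil)))))))) (Rw.rw (nat_lit 0) (nat_lit 0) (Ct.cons false (nat_lit 1) (nat_lit 0) (nat_lit 8070465925418057733) Ct.nil))) (Tb.leaf (nat_lit 7249) (nat_lit 107) (V.cons (nat_lit 145) true (nat_lit 1) (V.cons (nat_lit 147) true (nat_lit 1) (V.cons (nat_lit 149) false (nat_lit 1) (V.cons (nat_lit 151) false (nat_lit 2) (V.cons (nat_lit 153) true (nat_lit 2) (V.cons (nat_lit 155) true (nat_lit 1) (V.cons (nat_lit 157) false (nat_lit 1) (V.cons (nat_lit 159) false (nat_lit 2) (V.cons (nat_lit 161) true (nat_lit 1) (V.cons (nat_lit 163) false (nat_lit 1) V.nil)))))))))) (Rw.rw (nat_lit 1) (nat_lit 0) (Ct.cons true (nat_lit 3) (nat_lit 0) (nat_lit 16140908761084592133) (Ct.cons false (nat_lit 3) (nat_lit 0) (nat_lit 11529222742657204227) (Ct.cons true (nat_lit 1) (nat_lit 1) (nat_lit 8462488807760633057509379) (Ct.cons false (nat_lit 2) (nat_lit 0) (nat_lit 8070458228844003333) (Ct.cons true (nat_lit 2) (nat_lit 0) (nat_lit 9223379733441413123) (Ct.cons false (nat_lit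 2) (nat_lit 0) (nat_lit 18446751770298286087) (Ct.cons true (nat_lit 2) (nat_lit 0) (nat_lit 8070456029814456323) Ct.nil))))))))))))
def tK82 : Tb := (Tb.node (nat_lit 7241) (Tb.node (nat_lit 7231) (Tb.node (nat_lit 7229) (Tb.leaf (nat_lit 7227) (nat_lit 91) (V.cons (nat_lit 133) false (nat_lit 1) (V.cons (nat_lit 135) false (nat_lit 1) (V.cons (nat_lit 137) true (nat_lit 1) (V.cons (nat_lit 141) true (nat_lit 1) (V.cons (nat_lit 143) false (nat_lit 1) V.nil))))) (Rw.rw (nat_lit 0) (nat_lit 0) (Ct.cons false (nat_lit 1) (nat_lit 0) (nat_lit 9223377534420254725) Ct.nil))) (Tb.leaf (nat_lit 7229) (nat_lit 83) (V.cons (nat_lit 137) false (nat_lit 1) V.nil) (Rw.df (nat_lit 137) (nat_lit 0) (nat_lit 0)))) (Tb.node (nat_lit 7239) (Tb.leaf (nat_lit 7231) (nat_lit 84) (V.cons (nat_lit 139) false (nat_lit 1) V.nil) (Rw.df (nat_lit 139) (nat_lit 0) (nat_lit 0))) (Tb.leaf (nat_lit 7239) (nat_lit 96) (V.cons (nat_lit 153) false (nat_lit 1) V.nil) (Rw.df (nat_lit 153) (nat_lit 0) (nat_lit 0))))) tK81)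
def tK83 : Tb := (Tb.node (nat_lit 7227) tK80 tK82)
def tK84 : Tb := (Tb.node (nat_lit 7263) (Tb.node (nat_lit 7261) (Tb.leaf (nat_lit 7259) (nat_lit 121) (V.cons (nat_lit 183) false (nat_lit 1) V.nil) (Rw.df (nat_lit 183) (nat_lit 0) (nat_lit 0))) (Tb.leaf (nat_lit 7261) (nat_lit 122) (V.cons (nat_lit 185) false (nat_lit 1) V.nil) (Rw.df (nat_lit 185) (nat_lit 0) (nat_lit 0)))) (Tb.node (nat_lit 7265) (Tb.leaf (nat_lit 7263) (nat_lit 140) (V.cons (nat_lit 195) false (nat_lit 1) V.nil) (Rw.df (nat_lit 195) (nat_lit 0) (nat_lit 0))) (Tb.node (nat_lit 7267) (Tb.leaf (nat_lit 7265) (nat_lit 141) (V.cons (nat_lit 197) false (nat_lit 1) V.nil) (Rw.df (nat_lit 197) (nat_lit 0) (nat_lit 0))) (Tb.leaf (nat_lit 7267) (nat_lit 142) (V.cons (nat_lit 199) false (nat_lit 1) V.nil) (Rw.df (nat_lit 199) (nat_lit 0) (nat_lit 0))))))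
def tK85 : Tb := (Tb.node (nat_lit 7259) (Tb.node (nat_lit 7255) (Tb.node (nat_lit 7253) (Tb.leaf (nat_lit 7251) (nat_lit 117) (V.cons (nat_lit 175) false (nat_lit 1) V.nil) (Rw.df (nat_lit 175) (nat_lit 0) (nat_lit 0))) (Tb.leaf (nat_lit 7253) (nat_lit 118) (V.cons (nat_lit 177) false (nat_lit 1) V.nil) (Rw.df (nat_lit 177) (nat_lit 0) (nat_lit 0)))) (Tb.node (nat_lit 7257) (Tb.leaf (nat_lit 7255) (nat_lit 119) (V.cons (nat_lit 179) false (nat_lit 1) V.nil) (Rw.df (nat_lit 179) (nat_lit 0) (nat_lit 0))) (Tb.leaf (nat_lit 7257) (nat_lit 120) (V.cons (nat_lit 181) false (nat_lit 1) V.nil) (Rw.df (nat_lit 181) (nat_lit 0) (nat_lit 0))))) tK84)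
def tK86 : Tb := (Tb.node (nat_lit 7273) (Tb.node (nat_lit 7271) (Tb.leaf (nat_lit 7269) (nat_lit 157) (V.cons (nat_lit 219) false (nat_lit 1) V.nil) (Rw.df (nat_lit 219) (nat_lit 0) (nat_lit 0))) (Tb.leaf (nat_lit 7271) (nat_lit 158) (V.cons (nat_lit 221) false (nat_lit 1) V.nil) (Rw.df (nat_lit 221) (nat_lit 0) (nat_lit 0)))) (Tb.node (nat_lit 7275) (Tb.leaf (nat_lit 7273) (nat_lit 170) (V.cons (nat_lit 205) true (nat_lit 1) (V.cons (nat_lit 207) true (nat_lit 1) (V.cons (nat_lit 209) false (nat_lit 1) (V.cons (nat_lit 213) true (nat_lit 1) (V.cons (nat_lit 217) false (nat_lit 2) (V.cons (nat_lit 219) false (nat_lit 1) (V.cons (nat_lit 221) true (nat_lit 1) (V.cons (nat_lit 223) false (nat_lit 1) (V.cons (nat_lit 225) false (nat_lit 1) (V.cons (nat_lit 227) true (nat_lit 1) V.nil)))))))))) (Rw.rw (nat_lit 1) (nat_lit 0) (Ct.cons false (nat_lit 1) (nat_lit 0) (nat_lit 8070458228848197637) Ct.nil))) (Tb.node (nat_lit 7277) (Tb.leaf (nat_lit 7275) (nat_lit 171) (V.cons (nat_lit 207) false (nat_lit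 2) (V.cons (nat_lit 211) true (nat_lit 2) (V.cons (nat_lit 213) false (nat_lit 2) (V.cons (nat_lit 215) false (nat_lit 2) (V.cons (nat_lit 217) true (nat_lit 4) (V.cons (nat_lit 219) true (nat_lit 2) (V.cons (nat_lit 221) false (nat_lit 3) (V.cons (nat_lit 225) true (nat_lit 1) (V.cons (nat_lit 227) false (nat_lit 1) V.nil))))))))) (Rw.rw (nat_lit 0) (nat_lit 0) (Ct.cons true (nat_lit 1) (nat_lit 1) (nat_lit 8462484196074614630121475) Ct.nil))) (Tb.leaf (nat_lit 7277) (nat_lit 159) (V.cons (nat_lit 223) false (nat_lit 1) V.nil) (Rw.df (nat_lit 223) (nat_lit 0) (nat_lit 0))))))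
def tK87 : Tb := (Tb.node (nat_lit 7283) (Tb.node (nat_lit 7281) (Tb.leaf (nat_lit 7279) (nat_lit 172) (V.cons (nat_lit 203) false (nat_lit 1) (V.cons (nat_lit 205) true (nat_lit 1) (V.cons (nat_lit 207) true (nat_lit 3) (V.cons (nat_lit 211) false (nat_lit 2) (V.cons (nat_lit 213) true (nat_lit 3) (V.cons (nat_lit 215) true (nat_lit 2) (V.cons (nat_lit 217) false (nat_lit 6) (V.cons (nat_lit 219) false (nat_lit 3) (V.cons (nat_lit 221) true (nat_lit 3) (V.cons (nat_lit 223) false (nat_lit 1) (V.cons (nat_lit 225) false (nat_lit 3) (V.cons (nat_lit 227) true (nat_lit 1) V.nil)))))))))))) (Rw.rw (nat_lit 0) (nat_lit 0) (Ct.cons true (nat_lit 1) (nat_lit 0) (nat_lit 20752594779511980037) Ct.nil))) (Tb.leaf (nat_lit 7281) (nat_lit 184) (V.cons (nat_lit 247) false (nat_lit 1) V.nil) (Rw.df (nat_lit 247) (nat_lit 0) (nat_lit 0)))) (Tb.node (nat_lit 7285) (Tb.leaf (nat_lit 7283) (nat_lit 185) (V.cons (nat_lit 249) false (nat_lit 1) V.nil) (Rw.df (nat_lit 249) (nat_lit 0) (nat_lit 0))) (Tb.node (nat_lit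 7287) (Tb.leaf (nat_lit 7285) (nat_lit 193) (V.cons (nat_lit 235) false (nat_lit 1) (V.cons (nat_lit 237) false (nat_lit 1) (V.cons (nat_lit 249) true (nat_lit 1) (V.cons (nat_lit 251) true (nat_lit 1) (V.cons (nat_lit 253) false (nat_lit 1) V.nil))))) (Rw.rw (nat_lit 0) (nat_lit 0) (Ct.cons true (nat_lit 1) (nat_lit 0) (nat_lit 18446751770296188931) (Ct.cons false (nat_lit 1) (nat_lit 0) (nat_lit 5764615219632406531) (Ct.cons false (nat_lit 1) (nat_lit 0) (nat_lit 18446749571275030531) (Ct.cons true (nat_lit 1) (nat_lit 0) (nat_lit 8070468124439216131) Ct.nil)))))) (Tb.leaf (nat_lit 7287) (nat_lit 203) (V.cons (nat_lit 259) false (nat_lit 1) V.nil) (Rw.df (nat_lit 259) (nat_lit 0) (nat_lit 0))))))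
def tK88 : Tb := (Tb.node (nat_lit 7279) tK86 tK87)
def tK89 : Tb := (Tb.node (nat_lit 7269) tK85 tK88)
def tK90 : Tb := (Tb.node (nat_lit 7251) tK83 tK89)
def tK91 : Tb := (Tb.node (nat_lit 7334) (Tb.node (nat_lit 7332) (Tb.leaf (nat_lit 7297) (nat_lit 229) (V.cons (nat_lit 267) false (nat_lit 2) (V.cons (nat_lit 269) true (nat_lit 1) (V.cons (nat_lit 271) true (nat_lit 1) (V.cons (nat_lit 273) false (nat_lit 2) (V.cons (nat_lit 275) true (nat_lit 2) (V.cons (nat_lit 277) true (nat_lit 2) (V.cons (nat_lit 281) false (nat_lit 3) (V.cons (nat_lit 285) false (nat_lit 2) V.nil)))))))) (Rw.rw (nat_lit 0) (nat_lit 1) (Ct.cons true (nat_lit 1) (nat_lit 1) (nat_lit 3626780917616097931296771) Ct.nil))) (Tb.leaf (nat_lit 7332) (nat_lit 252) (V.cons (nat_lit 316) false (nat_lit 3) V.nil) (Rw.df (nat_lit 316) (nat_lit 0) (nat_lit 1)))) (Tb.node (nat_lit 7336) (Tb.leaf (nat_lit 7334) (nat_lit 253) (V.cons (nat_lit 318) false (nat_lit 1) V.nil) (Rw.df (nat_lit 318) (nat_lit 0) (nat_lit 0))) (Tb.node (nat_lit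 7338) (Tb.leaf (nat_lit 7336) (nat_lit 293) (V.cons (nat_lit 298) true (nat_lit 31) (V.cons (nat_lit 300) true (nat_lit 11) (V.cons (nat_lit 302) false (nat_lit 220) (V.cons (nat_lit 304) true (nat_lit 23) (V.cons (nat_lit 306) true (nat_lit 67) (V.cons (nat_lit 308) false (nat_lit 38) (V.cons (nat_lit 310) false (nat_lit 97) (V.cons (nat_lit 312) true (nat_lit 280) (V.cons (nat_lit 314) false (nat_lit 76) (V.cons (nat_lit 316) false (nat_lit 91) (V.cons (nat_lit 318) false (nat_lit 27) (V.cons (nat_lit 320) false (nat_lit 187) (V.cons (nat_lit 322) false (nat_lit 14) (V.cons (nat_lit 324) true (nat_lit 311) (V.cons (nat_lit 326) true (nat_lit 53) (V.cons (nat_lit 328) true (nat_lit 14) (V.cons (nat_lit 330) false (nat_lit 200) (V.cons (nat_lit 332) false (nat_lit 385) V.nil)))))))))))))))))) (Rw.rw (nat_lit 0) (nat_lit 0) (Ct.cons true (nat_lit 1) (nat_lit 1) (nat_lit 9671412321532253018521603) Ct.nil))) (Tb.leaf (nat_lit 7338) (nat_lit 254) (V.cons (nat_lit 320) false (nat_lit 3) V.nil) (Rw.df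 (nat_lit 320) (nat_lit 0) (nat_lit 1))))))
def tK92 : Tb := (Tb.node (nat_lit 7297) (Tb.node (nat_lit 7293) (Tb.node (nat_lit 7291) (Tb.leaf (nat_lit 7289) (nat_lit 204) (V.cons (nat_lit 261) false (nat_lit 1) V.nil) (Rw.df (nat_lit 261) (nat_lit 0) (nat_lit 0))) (Tb.leaf (nat_lit 7291) (nat_lit 207) (V.cons (nat_lit 255) false (nat_lit 1) (V.cons (nat_lit 257) true (nat_lit 1) (V.cons (nat_lit 261) false (nat_lit 1) (V.cons (nat_lit 265) false (nat_lit 2) V.nil)))) (Rw.rw (nat_lit 0) (nat_lit 0) (Ct.cons false (nat_lit 1) (nat_lit 0) (nat_lit 8070465925413863427) Ct.nil)))) (Tb.node (nat_lit 7295) (Tb.leaf (nat_lit 7293) (nat_lit 224) (V.cons (nat_lit 267) true (nat_lit 1) (V.cons (nat_lit 271) false (nat_lit 1) (V.cons (nat_lit 275) false (nat_lit 2) (V.cons (nat_lit 281) true (nat_lit 1) (V.cons (nat_lit 283) true (nat_lit 1) (V.cons (nat_lit 285) true (nat_lit 1) V.nil)))))) (Rw.rw (nat_lit 0) (nat_lit 0) (Ct.cons false (nat_lit 1) (nat_lit 0) (nat_lit 18446747372251774979) Ct.nil))) (Tb.leaf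 (nat_lit 7295) (nat_lit 219) (V.cons (nat_lit 281) false (nat_lit 1) V.nil) (Rw.df (nat_lit 281) (nat_lit 0) (nat_lit 0))))) tK91)
def tK93 : Tb := (Tb.node (nat_lit 7344) (Tb.node (nat_lit 7342) (Tb.leaf (nat_lit 7340) (nat_lit 255) (V.cons (nat_lit 322) false (nat_lit 1) V.nil) (Rw.df (nat_lit 322) (nat_lit 0) (nat_lit 0))) (Tb.leaf (nat_lit 7342) (nat_lit 256) (V.cons (nat_lit 324) false (nat_lit 3) V.nil) (Rw.df (nat_lit 324) (nat_lit 0) (nat_lit 1)))) (Tb.node (nat_lit 7346) (Tb.leaf (nat_lit 7344) (nat_lit 257) (V.cons (nat_lit 326) false (nat_lit 3) V.nil) (Rw.df (nat_lit 326) (nat_lit 0) (nat_lit 1))) (Tb.node (nat_lit 7348) (Tb.leaf (nat_lit 7346) (nat_lit 258) (V.cons (nat_lit 328) false (nat_lit 1) V.nil) (Rw.df (nat_lit 328) (nat_lit 0) (nat_lit 0))) (Tb.leaf (nat_lit 7348) (nat_lit 289) (V.cons (nat_lit 298) false (nat_lit 24) (V.cons (nat_lit 300) false (nat_lit 7) (V.cons (nat_lit 302) true (nat_lit 164) (V.cons (nat_lit 304) false (nat_lit 18) (V.cons (nat_lit 306) false (nat_lit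 50) (V.cons (nat_lit 308) true (nat_lit 28) (V.cons (nat_lit 310) true (nat_lit 71) (V.cons (nat_lit 312) false (nat_lit 203) (V.cons (nat_lit 314) true (nat_lit 56) (V.cons (nat_lit 316) true (nat_lit 74) (V.cons (nat_lit 318) true (nat_lit 17) (V.cons (nat_lit 320) true (nat_lit 137) (V.cons (nat_lit 322) true (nat_lit 11) (V.cons (nat_lit 324) false (nat_lit 238) (V.cons (nat_lit 326) false (nat_lit 31) (V.cons (nat_lit 328) false (nat_lit 12) (V.cons (nat_lit 330) true (nat_lit 151) (V.cons (nat_lit 332) true (nat_lit 290) V.nil)))))))))))))))))) (Rw.rw (nat_lit 0) (nat_lit 0) (Ct.cons true (nat_lit 1) (nat_lit 0) (nat_lit 8070459328357728261) Ct.nil))))))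
def tK94 : Tb := (Tb.node (nat_lit 7354) (Tb.node (nat_lit 7352) (Tb.leaf (nat_lit 7350) (nat_lit 292) (V.cons (nat_lit 298) false (nat_lit 11) (V.cons (nat_lit 300) false (nat_lit 3) (V.cons (nat_lit 302) true (nat_lit 75) (V.cons (nat_lit 304) false (nat_lit 8) (V.cons (nat_lit 306) false (nat_lit 21) (V.cons (nat_lit 308) true (nat_lit 12) (V.cons (nat_lit 310) true (nat_lit 30) (V.cons (nat_lit 312) false (nat_lit 84) (V.cons (nat_lit 314) true (nat_lit 21) (V.cons (nat_lit 316) true (nat_lit 33) (V.cons (nat_lit 318) true (nat_lit 8) (V.cons (nat_lit 320) true (nat_lit 60) (V.cons (nat_lit 322) true (nat_lit 4) (V.cons (nat_lit 324) false (nat_lit 102) (V.cons (nat_lit 326) false (nat_lit 15) (V.cons (nat_lit 328) false (nat_lit 5) (V.cons (nat_lit 330) true (nat_lit 69) (V.cons (nat_lit 332) true (nat_lit 123) V.nil)))))))))))))))))) (Rw.rw (nat_lit 0) (nat_lit 0) (Ct.cons false (nat_lit 1) (nat_lit 0) (nat_lit 8070468124442361861) Ct.nil))) (Tb.leaf (nat_lit 7352) (nat_lit 259) (V.cons (nat_lit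 330) false (nat_lit 3) V.nil) (Rw.df (nat_lit 330) (nat_lit 0) (nat_lit 1)))) (Tb.node (nat_lit 7356) (Tb.leaf (nat_lit 7354) (nat_lit 260) (V.cons (nat_lit 332) false (nat_lit 3) V.nil) (Rw.df (nat_lit 332) (nat_lit 0) (nat_lit 1))) (Tb.node (nat_lit 7370) (Tb.leaf (nat_lit 7356) (nat_lit 279) (V.cons (nat_lit 298) true (nat_lit 8) (V.cons (nat_lit 300) true (nat_lit 3) (V.cons (nat_lit 302) false (nat_lit 57) (V.cons (nat_lit 304) true (nat_lit 6) (V.cons (nat_lit 306) true (nat_lit 18) (V.cons (nat_lit 308) false (nat_lit 10) (V.cons (nat_lit 310) false (nat_lit 26) (V.cons (nat_lit 312) true (nat_lit 75) (V.cons (nat_lit 314) false (nat_lit 21) (V.cons (nat_lit 316) false (nat_lit 24) (V.cons (nat_lit 318) false (nat_lit 8) (V.cons (nat_lit 320) false (nat_lit 48) (V.cons (nat_lit 322) false (nat_lit 4) (V.cons (nat_lit 324) true (nat_lit 84) (V.cons (nat_lit 326) true (nat_lit 15) (V.cons (nat_lit 328) true (nat_lit 4) (V.cons (nat_lit 330) false (nat_lit 54) (V.cons (nat_lit 332) false (nat_lit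 102) V.nil)))))))))))))))))) (Rw.rw (nat_lit 0) (nat_lit 0) (Ct.cons true (nat_lit 1) (nat_lit 0) (nat_lit 18446751770301431815) Ct.nil))) (Tb.leaf (nat_lit 7370) (nat_lit 315) (V.cons (nat_lit 356) false (nat_lit 3) V.nil) (Rw.df (nat_lit 356) (nat_lit 0) (nat_lit 1))))))
def tK95 : Tb := (Tb.node (nat_lit 7350) tK93 tK94)
def tK96 : Tb := (Tb.node (nat_lit 7340) tK92 tK95)
def tK97 : Tb := (Tb.node (nat_lit 7382) (Tb.leaf (nat_lit 7380) (nat_lit 347) (V.cons (nat_lit 336) false (nat_lit 15) (V.cons (nat_lit 338) false (nat_lit 3) (V.cons (nat_lit 340) true (nat_lit 408) (V.cons (nat_lit 342) true (nat_lit 20) (V.cons (nat_lit 344) false (nat_lit 963) (V.cons (nat_lit 346) false (nat_lit 1) (V.cons (nat_lit 348) false (nat_lit 57) (V.cons (nat_lit 350) false (nat_lit 420) (V.cons (nat_lit 352) false (nat_lit 297) (V.cons (nat_lit 354) false (nat_lit 6) (V.cons (nat_lit 356) true (nat_lit 96) (V.cons (nat_lit 358) true (nat_lit 5) (V.cons (nat_lit 360) true (nat_lit 1) (V.cons (nat_lit 362) true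 (nat_lit 54) (V.cons (nat_lit 364) false (nat_lit 231) (V.cons (nat_lit 366) false (nat_lit 246) (V.cons (nat_lit 368) true (nat_lit 243) (V.cons (nat_lit 370) true (nat_lit 168) (V.cons (nat_lit 372) false (nat_lit 33) V.nil))))))))))))))))))) (Rw.rw (nat_lit 4) (nat_lit 0) (Ct.cons true (nat_lit 695) (nat_lit 0) (nat_lit 11529230439238598659) (Ct.cons true (nat_lit 699) (nat_lit 0) (nat_lit 8070465925421203459) (Ct.cons false (nat_lit 376) (nat_lit 0) (nat_lit 11529223842164637699) (Ct.cons true (nat_lit 351) (nat_lit 0) (nat_lit 8070458228866023427) (Ct.cons false (nat_lit 269) (nat_lit 0) (nat_lit 8070489015162241027) (Ct.cons false (nat_lit 143) (nat_lit 0) (nat_lit 40352260357828378627) (Ct.cons true (nat_lit 1115) (nat_lit 0) (nat_lit 11529222742664544259) (Ct.cons false (nat_lit 280) (nat_lit 1) (nat_lit 8462484196077913167101955) (Ct.cons true (nat_lit 37) (nat_lit 0) (nat_lit 8070461527378886659) (Ct.cons false (nat_lit 2) (nat_lit 1) (nat_lit 8462484196075714141749251) (Ct.cons true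 (nat_lit 13) (nat_lit 0) (nat_lit 58799004431537930247) (Ct.cons true (nat_lit 98) (nat_lit 0) (nat_lit 8070502209301774341) (Ct.cons false (nat_lit 97) (nat_lit 0) (nat_lit 42658103367042072579) (Ct.cons true (nat_lit 219) (nat_lit 0) (nat_lit 16140916457665986565) (Ct.cons false (nat_lit 89) (nat_lit 0) (nat_lit 8070456029840670723) (Ct.cons true (nat_lit 98) (nat_lit 0) (nat_lit 28823045311755714563) (Ct.cons false (nat_lit 63) (nat_lit 0) (nat_lit 8070486816136888323) (Ct.cons false (nat_lit 105) (nat_lit 0) (nat_lit 9223389629048160259) (Ct.cons true (nat_lit 85) (nat_lit 0) (nat_lit 56493161422324236295) (Ct.cons false (nat_lit 11) (nat_lit 0) (nat_lit 5764615219648135171) (Ct.cons false (nat_lit 123) (nat_lit 0) (nat_lit 9223383031974199299) (Ct.cons true (nat_lit 28) (nat_lit 0) (nat_lit 8070500010278518789) (Ct.cons false (nat_lit 93) (nat_lit 0) (nat_lit 8070484617113632771) (Ct.cons false (nat_lit 93) (nat_lit 0) (nat_lit 35740572140377735171) (Ct.cons true (nat_lit 93) (nat_lit 0) (nat_lit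 24211357094305071107) (Ct.cons true (nat_lit 39) (nat_lit 0) (nat_lit 18446759466879680519) (Ct.cons false (nat_lit 109) (nat_lit 0) (nat_lit 5764622916205412355) (Ct.cons false (nat_lit 109) (nat_lit 0) (nat_lit 8070458228876509189) (Ct.cons false (nat_lit 27) (nat_lit 0) (nat_lit 38046417348612587523) (Ct.cons false (nat_lit 185) (nat_lit 0) (nat_lit 38046415149591429123) (Ct.cons true (nat_lit 159) (nat_lit 0) (nat_lit 8070456029838573571) (Ct.cons true (nat_lit 74) (nat_lit 0) (nat_lit 24211354895283912707) (Ct.cons true (nat_lit 26) (nat_lit 0) (nat_lit 11529218344611741699) (Ct.cons false (nat_lit 106) (nat_lit 0) (nat_lit 9223391828071415813) (Ct.cons true (nat_lit 12) (nat_lit 0) (nat_lit 5764643806925291523) (Ct.cons true (nat_lit 54) (nat_lit 0) (nat_lit 5764630612781563907) (Ct.cons false (nat_lit 10) (nat_lit 0) (nat_lit 18446751770305626119) (Ct.cons true (nat_lit 62) (nat_lit 1) (nat_lit 8462488807768329638903811) (Ct.cons true (nat_lit 16) (nat_lit 1) (nat_lit 8462488807772727687512069)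 (Ct.cons true (nat_lit 32) (nat_lit 0) (nat_lit 28823040913713397763) (Ct.cons true (nat_lit 20) (nat_lit 1) (nat_lit 8462484196082311213613061) Ct.nil))))))))))))))))))))))))))))))))))))))))))) (Tb.leaf (nat_lit 7382) (nat_lit 335) (V.cons (nat_lit 336) true (nat_lit 4) (V.cons (nat_lit 338) true (nat_lit 3) (V.cons (nat_lit 340) false (nat_lit 98) (V.cons (nat_lit 342) false (nat_lit 7) (V.cons (nat_lit 344) true (nat_lit 241) (V.cons (nat_lit 348) false (nat_lit 7) (V.cons (nat_lit 350) true (nat_lit 98) (V.cons (nat_lit 352) true (nat_lit 61) (V.cons (nat_lit 356) false (nat_lit 19) (V.cons (nat_lit 358) false (nat_lit 1) (V.cons (nat_lit 362) false (nat_lit 8) (V.cons (nat_lit 364) true (nat_lit 49) (V.cons (nat_lit 366) true (nat_lit 46) (V.cons (nat_lit 368) false (nat_lit 41) (V.cons (nat_lit 370) false (nat_lit 40) (V.cons (nat_lit 372) true (nat_lit 7) V.nil)))))))))))))))) (Rw.rw (nat_lit 4) (nat_lit 1) (Ct.cons false (nat_lit 86) (nat_lit 0) (nat_lit 24211354895283912707) (Ct.cons false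 (nat_lit 86) (nat_lit 0) (nat_lit 11529218344611741699) (Ct.cons true (nat_lit 163) (nat_lit 0) (nat_lit 8070489015162241027) (Ct.cons false (nat_lit 175) (nat_lit 0) (nat_lit 40352260357828378627) (Ct.cons false (nat_lit 79) (nat_lit 0) (nat_lit 24211357094305071107) (Ct.cons false (nat_lit 401) (nat_lit 0) (nat_lit 16140916457665986565) (Ct.cons false (nat_lit 391) (nat_lit 0) (nat_lit 8070461527378886659) (Ct.cons true (nat_lit 155) (nat_lit 0) (nat_lit 9223389629048160259) (Ct.cons false (nat_lit 111) (nat_lit 0) (nat_lit 56493161422324236295) (Ct.cons true (nat_lit 71) (nat_lit 0) (nat_lit 5764622916205412355) (Ct.cons true (nat_lit 71) (nat_lit 0) (nat_lit 8070458228876509189) (Ct.cons true (nat_lit 41) (nat_lit 0) (nat_lit 38046417348612587523) (Ct.cons false (nat_lit 118) (nat_lit 0) (nat_lit 8070502209301774341) (Ct.cons false (nat_lit 118) (nat_lit 0) (nat_lit 28823045311755714563) (Ct.cons true (nat_lit 86) (nat_lit 0) (nat_lit 9223391828071415813) (Ct.cons true (nat_lit 201) (nat_lit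 0) (nat_lit 9223383031974199299) (Ct.cons false (nat_lit 53) (nat_lit 0) (nat_lit 8070456029840670723) (Ct.cons false (nat_lit 301) (nat_lit 0) (nat_lit 11529230439238598659) (Ct.cons false (nat_lit 233) (nat_lit 0) (nat_lit 8070465925421203459) (Ct.cons true (nat_lit 252) (nat_lit 0) (nat_lit 11529223842164637699) (Ct.cons false (nat_lit 217) (nat_lit 0) (nat_lit 8070458228866023427) (Ct.cons true (nat_lit 133) (nat_lit 0) (nat_lit 8070486816136888323) (Ct.cons true (nat_lit 299) (nat_lit 0) (nat_lit 38046415149591429123) (Ct.cons true (nat_lit 135) (nat_lit 0) (nat_lit 8070484617113632771) (Ct.cons true (nat_lit 135) (nat_lit 0) (nat_lit 35740572140377735171) (Ct.cons false (nat_lit 253) (nat_lit 0) (nat_lit 8070456029838573571) (Ct.cons true (nat_lit 4) (nat_lit 0) (nat_lit 5764643806925291523) (Ct.cons true (nat_lit 120) (nat_lit 1) (nat_lit 8462484196077913167101955) (Ct.cons false (nat_lit 809) (nat_lit 0) (nat_lit 11529222742664544259) (Ct.cons false (nat_lit 37) (nat_lit 0) (nat_lit 18446759466879680519)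 (Ct.cons true (nat_lit 235) (nat_lit 0) (nat_lit 42658103367042072579) (Ct.cons true (nat_lit 17) (nat_lit 0) (nat_lit 5764615219648135171) (Ct.cons false (nat_lit 7) (nat_lit 0) (nat_lit 58799004431537930247) (Ct.cons true (nat_lit 78) (nat_lit 0) (nat_lit 18446751770305626119) (Ct.cons false (nat_lit 68) (nat_lit 0) (nat_lit 8070500010278518789) (Ct.cons true (nat_lit 54) (nat_lit 1) (nat_lit 8462484196075714141749251) (Ct.cons false (nat_lit 42) (nat_lit 0) (nat_lit 5764630612781563907) (Ct.cons false (nat_lit 42) (nat_lit 1) (nat_lit 8462488807768329638903811) (Ct.cons true (nat_lit 12) (nat_lit 1) (nat_lit 8462484196082311213613061) Ct.nil))))))))))))))))))))))))))))))))))))))))))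
def tK98 : Tb := (Tb.node (nat_lit 7384) tK97 (Tb.node (nat_lit 7386) (Tb.leaf (nat_lit 7384) (nat_lit 352) (V.cons (nat_lit 336) false (nat_lit 7) (V.cons (nat_lit 338) false (nat_lit 2) (V.cons (nat_lit 340) true (nat_lit 208) (V.cons (nat_lit 342) true (nat_lit 10) (V.cons (nat_lit 344) false (nat_lit 485) (V.cons (nat_lit 346) false (nat_lit 1) (V.cons (nat_lit 348) false (nat_lit 37) (V.cons (nat_lit 350) false (nat_lit 214) (V.cons (nat_lit 352) false (nat_lit 152) (V.cons (nat_lit 354) false (nat_lit 3) (V.cons (nat_lit 356) true (nat_lit 50) (V.cons (nat_lit 358) true (nat_lit 2) (V.cons (nat_lit 360) true (nat_lit 1) (V.cons (nat_lit 362) true (nat_lit 25) (V.cons (nat_lit 364) false (nat_lit 119) (V.cons (nat_lit 366) false (nat_lit 125) (V.cons (nat_lit 368) true (nat_lit 124) (V.cons (nat_lit 370) true (nat_lit 86) (V.cons (nat_lit 372) false (nat_lit 17) V.nil))))))))))))))))))) (Rw.rw (nat_lit 2) (nat_lit 0) (Ct.cons false (nat_lit 1) (nat_lit 0) (nat_lit 8070486816136888323) Ct.nil)))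 (Tb.node (nat_lit 7388) (Tb.leaf (nat_lit 7386) (nat_lit 328) (V.cons (nat_lit 340) false (nat_lit 21) (V.cons (nat_lit 344) true (nat_lit 42) (V.cons (nat_lit 348) true (nat_lit 12) (V.cons (nat_lit 350) true (nat_lit 18) (V.cons (nat_lit 352) true (nat_lit 18) (V.cons (nat_lit 356) false (nat_lit 6) (V.cons (nat_lit 360) false (nat_lit 1) (V.cons (nat_lit 364) true (nat_lit 12) (V.cons (nat_lit 366) true (nat_lit 12) (V.cons (nat_lit 368) false (nat_lit 12) (V.cons (nat_lit 370) false (nat_lit 6) V.nil))))))))))) (Rw.rw (nat_lit 0) (nat_lit 0) (Ct.cons true (nat_lit 1) (nat_lit 0) (nat_lit 40352260357828378627) Ct.nil))) (Tb.leaf (nat_lit 7388) (nat_lit 346) (V.cons (nat_lit 336) false (nat_lit 9) (V.cons (nat_lit 338) false (nat_lit 1) (V.cons (nat_lit 340) true (nat_lit 236) (V.cons (nat_lit 342) true (nat_lit 11) (V.cons (nat_lit 344) false (nat_lit 556) (V.cons (nat_lit 346) false (nat_lit 1) (V.cons (nat_lit 348) false (nat_lit 38) (V.cons (nat_lit 350) false (nat_lit 245) (V.cons (nat_lit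 352) false (nat_lit 172) (V.cons (nat_lit 354) false (nat_lit 3) (V.cons (nat_lit 356) true (nat_lit 61) (V.cons (nat_lit 358) true (nat_lit 2) (V.cons (nat_lit 362) true (nat_lit 29) (V.cons (nat_lit 364) false (nat_lit 136) (V.cons (nat_lit 366) false (nat_lit 148) (V.cons (nat_lit 368) true (nat_lit 143) (V.cons (nat_lit 370) true (nat_lit 100) (V.cons (nat_lit 372) false (nat_lit 18) V.nil)))))))))))))))))) (Rw.rw (nat_lit 3) (nat_lit 1) (Ct.cons false (nat_lit 53) (nat_lit 0) (nat_lit 42658103367042072579) (Ct.cons true (nat_lit 961) (nat_lit 0) (nat_lit 11529222742664544259) (Ct.cons true (nat_lit 145) (nat_lit 0) (nat_lit 16140916457665986565) (Ct.cons false (nat_lit 89) (nat_lit 0) (nat_lit 8070456029840670723) (Ct.cons false (nat_lit 160) (nat_lit 0) (nat_lit 40352260357828378627) (Ct.cons false (nat_lit 252) (nat_lit 1) (nat_lit 8462484196077913167101955) (Ct.cons false (nat_lit 25) (nat_lit 0) (nat_lit 8070461527378886659) (Ct.cons true (nat_lit 671) (nat_lit 0) (nat_lit 11529230439238598659)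 (Ct.cons true (nat_lit 673) (nat_lit 0) (nat_lit 8070465925421203459) (Ct.cons false (nat_lit 309) (nat_lit 0) (nat_lit 11529223842164637699) (Ct.cons true (nat_lit 290) (nat_lit 0) (nat_lit 8070458228866023427) (Ct.cons false (nat_lit 224) (nat_lit 0) (nat_lit 8070489015162241027) (Ct.cons true (nat_lit 11) (nat_lit 0) (nat_lit 58799004431537930247) (Ct.cons true (nat_lit 74) (nat_lit 0) (nat_lit 8070502209301774341) (Ct.cons true (nat_lit 74) (nat_lit 0) (nat_lit 28823045311755714563) (Ct.cons false (nat_lit 41) (nat_lit 0) (nat_lit 8070486816136888323) (Ct.cons false (nat_lit 79) (nat_lit 0) (nat_lit 9223389629048160259) (Ct.cons true (nat_lit 63) (nat_lit 0) (nat_lit 56493161422324236295) (Ct.cons false (nat_lit 13) (nat_lit 0) (nat_lit 5764615219648135171) (Ct.cons false (nat_lit 93) (nat_lit 0) (nat_lit 9223383031974199299) (Ct.cons true (nat_lit 22) (nat_lit 0) (nat_lit 8070500010278518789) (Ct.cons false (nat_lit 75) (nat_lit 0) (nat_lit 8070484617113632771) (Ct.cons false (nat_lit 75)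 (nat_lit 0) (nat_lit 35740572140377735171) (Ct.cons true (nat_lit 71) (nat_lit 0) (nat_lit 24211357094305071107) (Ct.cons true (nat_lit 29) (nat_lit 0) (nat_lit 18446759466879680519) (Ct.cons false (nat_lit 85) (nat_lit 0) (nat_lit 5764622916205412355) (Ct.cons false (nat_lit 85) (nat_lit 0) (nat_lit 8070458228876509189) (Ct.cons false (nat_lit 19) (nat_lit 0) (nat_lit 38046417348612587523) (Ct.cons false (nat_lit 133) (nat_lit 0) (nat_lit 38046415149591429123) (Ct.cons true (nat_lit 125) (nat_lit 0) (nat_lit 8070456029838573571) (Ct.cons true (nat_lit 58) (nat_lit 0) (nat_lit 24211354895283912707) (Ct.cons true (nat_lit 22) (nat_lit 0) (nat_lit 11529218344611741699) (Ct.cons false (nat_lit 82) (nat_lit 0) (nat_lit 9223391828071415813) (Ct.cons true (nat_lit 10) (nat_lit 0) (nat_lit 5764643806925291523) (Ct.cons true (nat_lit 42) (nat_lit 0) (nat_lit 5764630612781563907) (Ct.cons false (nat_lit 6) (nat_lit 0) (nat_lit 18446751770305626119) (Ct.cons true (nat_lit 48) (nat_lit 1) (nat_lit 8462488807768329638903811)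 (Ct.cons true (nat_lit 12) (nat_lit 1) (nat_lit 8462488807772727687512069) (Ct.cons true (nat_lit 24) (nat_lit 0) (nat_lit 28823040913713397763) (Ct.cons true (nat_lit 18) (nat_lit 1) (nat_lit 8462484196082311213613061) Ct.nil)))))))))))))))))))))))))))))))))))))))))))))
def tK99 : Tb := (Tb.node (nat_lit 7380) (Tb.node (nat_lit 7376) (Tb.node (nat_lit 7374) (Tb.leaf (nat_lit 7372) (nat_lit 316) (V.cons (nat_lit 358) false (nat_lit 1) V.nil) (Rw.df (nat_lit 358) (nat_lit 0) (nat_lit 0))) (Tb.leaf (nat_lit 7374) (nat_lit 336) (V.cons (nat_lit 336) false (nat_lit 9) (V.cons (nat_lit 338) false (nat_lit 4) (V.cons (nat_lit 340) true (nat_lit 246) (V.cons (nat_lit 342) true (nat_lit 14) (V.cons (nat_lit 344) false (nat_lit 585) (V.cons (nat_lit 346) false (nat_lit 1) (V.cons (nat_lit 348) false (nat_lit 21) (V.cons (nat_lit 350) false (nat_lit 252) (V.cons (nat_lit 352) false (nat_lit 171) (V.cons (nat_lit 354) false (nat_lit 3) (V.cons (nat_lit 356) true (nat_lit 54) (V.cons (nat_lit 358) true (nat_lit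 2) (V.cons (nat_lit 360) true (nat_lit 1) (V.cons (nat_lit 362) true (nat_lit 30) (V.cons (nat_lit 364) false (nat_lit 135) (V.cons (nat_lit 366) false (nat_lit 138) (V.cons (nat_lit 368) true (nat_lit 135) (V.cons (nat_lit 370) true (nat_lit 102) (V.cons (nat_lit 372) false (nat_lit 21) V.nil))))))))))))))))))) (Rw.rw (nat_lit 4) (nat_lit 0) (Ct.cons true (nat_lit 8) (nat_lit 1) (nat_lit 8462488807772727687512069) (Ct.cons false (nat_lit 15) (nat_lit 0) (nat_lit 8070456029840670723) (Ct.cons true (nat_lit 13) (nat_lit 0) (nat_lit 40352260357828378627) (Ct.cons true (nat_lit 167) (nat_lit 0) (nat_lit 8070461527378886659) (Ct.cons true (nat_lit 345) (nat_lit 0) (nat_lit 11529230439238598659) (Ct.cons true (nat_lit 329) (nat_lit 0) (nat_lit 8070465925421203459) (Ct.cons false (nat_lit 234) (nat_lit 0) (nat_lit 11529223842164637699) (Ct.cons true (nat_lit 215) (nat_lit 0) (nat_lit 8070458228866023427) (Ct.cons true (nat_lit 705) (nat_lit 0) (nat_lit 11529222742664544259) (Ct.cons true (nat_lit 29)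 (nat_lit 0) (nat_lit 18446759466879680519) (Ct.cons false (nat_lit 119) (nat_lit 0) (nat_lit 42658103367042072579) (Ct.cons true (nat_lit 225) (nat_lit 0) (nat_lit 16140916457665986565) (Ct.cons false (nat_lit 77) (nat_lit 0) (nat_lit 8070486816136888323) (Ct.cons false (nat_lit 91) (nat_lit 0) (nat_lit 9223389629048160259) (Ct.cons true (nat_lit 71) (nat_lit 0) (nat_lit 56493161422324236295) (Ct.cons false (nat_lit 1) (nat_lit 0) (nat_lit 5764615219648135171) (Ct.cons false (nat_lit 67) (nat_lit 0) (nat_lit 5764622916205412355) (Ct.cons false (nat_lit 67) (nat_lit 0) (nat_lit 8070458228876509189) (Ct.cons false (nat_lit 29) (nat_lit 0) (nat_lit 38046417348612587523) (Ct.cons true (nat_lit 78) (nat_lit 0) (nat_lit 8070502209301774341) (Ct.cons false (nat_lit 183) (nat_lit 0) (nat_lit 38046415149591429123) (Ct.cons true (nat_lit 78) (nat_lit 0) (nat_lit 28823045311755714563) (Ct.cons true (nat_lit 7) (nat_lit 0) (nat_lit 58799004431537930247) (Ct.cons false (nat_lit 113) (nat_lit 0) (nat_lit 9223383031974199299)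 (Ct.cons true (nat_lit 32) (nat_lit 0) (nat_lit 8070500010278518789) (Ct.cons false (nat_lit 71) (nat_lit 0) (nat_lit 8070484617113632771) (Ct.cons false (nat_lit 71) (nat_lit 0) (nat_lit 35740572140377735171) (Ct.cons true (nat_lit 63) (nat_lit 0) (nat_lit 24211357094305071107) (Ct.cons true (nat_lit 133) (nat_lit 0) (nat_lit 8070456029838573571) (Ct.cons true (nat_lit 54) (nat_lit 0) (nat_lit 24211354895283912707) (Ct.cons true (nat_lit 30) (nat_lit 0) (nat_lit 11529218344611741699) (Ct.cons false (nat_lit 70) (nat_lit 0) (nat_lit 9223391828071415813) (Ct.cons false (nat_lit 18) (nat_lit 1) (nat_lit 8462484196075714141749251) (Ct.cons true (nat_lit 38) (nat_lit 1) (nat_lit 8462488807768329638903811) (Ct.cons false (nat_lit 169) (nat_lit 0) (nat_lit 8070489015162241027) (Ct.cons true (nat_lit 34) (nat_lit 0) (nat_lit 5764630612781563907) (Ct.cons false (nat_lit 144) (nat_lit 1) (nat_lit 8462484196077913167101955) (Ct.cons false (nat_lit 30) (nat_lit 0) (nat_lit 18446751770305626119) (Ct.cons true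 (nat_lit 16) (nat_lit 0) (nat_lit 28823040913713397763) Ct.nil)))))))))))))))))))))))))))))))))))))))))) (Tb.node (nat_lit 7378) (Tb.leaf (nat_lit 7376) (nat_lit 317) (V.cons (nat_lit 360) false (nat_lit 1) V.nil) (Rw.df (nat_lit 360) (nat_lit 0) (nat_lit 0))) (Tb.leaf (nat_lit 7378) (nat_lit 348) (V.cons (nat_lit 336) false (nat_lit 16) (V.cons (nat_lit 338) false (nat_lit 2) (V.cons (nat_lit 340) true (nat_lit 429) (V.cons (nat_lit 342) true (nat_lit 20) (V.cons (nat_lit 344) false (nat_lit 1011) (V.cons (nat_lit 346) false (nat_lit 1) (V.cons (nat_lit 348) false (nat_lit 63) (V.cons (nat_lit 350) false (nat_lit 441) (V.cons (nat_lit 352) false (nat_lit 315) (V.cons (nat_lit 354) false (nat_lit 6) (V.cons (nat_lit 356) true (nat_lit 105) (V.cons (nat_lit 358) true (nat_lit 4) (V.cons (nat_lit 360) true (nat_lit 1) (V.cons (nat_lit 362) true (nat_lit 57) (V.cons (nat_lit 364) false (nat_lit 243) (V.cons (nat_lit 366) false (nat_lit 264) (V.cons (nat_lit 368) true (nat_lit 258) (V.cons (nat_lit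 370) true (nat_lit 177) (V.cons (nat_lit 372) false (nat_lit 33) V.nil))))))))))))))))))) (Rw.rw (nat_lit 0) (nat_lit 1) (Ct.cons true (nat_lit 1) (nat_lit 1) (nat_lit 8462484196077913167101955) Ct.nil))))) tK98)
def tK100 : Tb := (Tb.node (nat_lit 7394) (Tb.node (nat_lit 7392) (Tb.leaf (nat_lit 7390) (nat_lit 355) (V.cons (nat_lit 336) false (nat_lit 32) (V.cons (nat_lit 338) false (nat_lit 8) (V.cons (nat_lit 340) true (nat_lit 870) (V.cons (nat_lit 342) true (nat_lit 43) (V.cons (nat_lit 344) false (nat_lit 2055) (V.cons (nat_lit 346) false (nat_lit 2) (V.cons (nat_lit 348) false (nat_lit 111) (V.cons (nat_lit 350) false (nat_lit 894) (V.cons (nat_lit 352) false (nat_lit 624) (V.cons (nat_lit 354) false (nat_lit 11) (V.cons (nat_lit 356) true (nat_lit 204) (V.cons (nat_lit 358) true (nat_lit 9) (V.cons (nat_lit 360) true (nat_lit 3) (V.cons (nat_lit 362) true (nat_lit 105) (V.cons (nat_lit 364) false (nat_lit 489) (V.cons (nat_lit 366) false (nat_lit 516) (V.cons (nat_lit 368) true (nat_lit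 501) (V.cons (nat_lit 370) true (nat_lit 363) (V.cons (nat_lit 372) false (nat_lit 69) V.nil))))))))))))))))))) (Rw.rw (nat_lit 0) (nat_lit 0) (Ct.cons true (nat_lit 1) (nat_lit 0) (nat_lit 8070475821018513411) Ct.nil))) (Tb.leaf (nat_lit 7392) (nat_lit 327) (V.cons (nat_lit 340) false (nat_lit 18) (V.cons (nat_lit 344) true (nat_lit 36) (V.cons (nat_lit 348) true (nat_lit 12) (V.cons (nat_lit 350) true (nat_lit 18) (V.cons (nat_lit 352) true (nat_lit 15) (V.cons (nat_lit 356) false (nat_lit 6) (V.cons (nat_lit 364) true (nat_lit 12) (V.cons (nat_lit 366) true (nat_lit 12) (V.cons (nat_lit 368) false (nat_lit 9) (V.cons (nat_lit 370) false (nat_lit 9) V.nil)))))))))) (Rw.rw (nat_lit 0) (nat_lit 0) (Ct.cons false (nat_lit 1) (nat_lit 0) (nat_lit 8070461527378886659) Ct.nil)))) (Tb.node (nat_lit 7396) (Tb.leaf (nat_lit 7394) (nat_lit 318) (V.cons (nat_lit 362) false (nat_lit 3) V.nil) (Rw.df (nat_lit 362) (nat_lit 0) (nat_lit 1))) (Tb.node (nat_lit 7398) (Tb.leaf (nat_lit 7396) (nat_lit 416) (V.cons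 (nat_lit 374) true (nat_lit 96) (V.cons (nat_lit 376) false (nat_lit 93) (V.cons (nat_lit 378) true (nat_lit 39) (V.cons (nat_lit 380) false (nat_lit 114) (V.cons (nat_lit 382) true (nat_lit 93) (V.cons (nat_lit 384) false (nat_lit 21) (V.cons (nat_lit 386) true (nat_lit 54) (V.cons (nat_lit 388) false (nat_lit 27) (V.cons (nat_lit 390) false (nat_lit 1) (V.cons (nat_lit 392) true (nat_lit 33) (V.cons (nat_lit 394) true (nat_lit 24) (V.cons (nat_lit 396) false (nat_lit 6) (V.cons (nat_lit 398) false (nat_lit 15) (V.cons (nat_lit 400) true (nat_lit 3) (V.cons (nat_lit 402) true (nat_lit 57) (V.cons (nat_lit 404) false (nat_lit 24) (V.cons (nat_lit 406) false (nat_lit 30) (V.cons (nat_lit 408) true (nat_lit 12) (V.cons (nat_lit 410) true (nat_lit 75) (V.cons (nat_lit 412) false (nat_lit 81) (V.cons (nat_lit 414) true (nat_lit 5) (V.cons (nat_lit 416) true (nat_lit 30) (V.cons (nat_lit 418) true (nat_lit 6) (V.cons (nat_lit 420) false (nat_lit 7) (V.cons (nat_lit 422) true (nat_lit 5) V.nil)))))))))))))))))))))))))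 (Rw.rw (nat_lit 0) (nat_lit 0) (Ct.cons true (nat_lit 1) (nat_lit 0) (nat_lit 31128888320969408515) Ct.nil))) (Tb.leaf (nat_lit 7398) (nat_lit 436) (V.cons (nat_lit 374) true (nat_lit 23) (V.cons (nat_lit 376) true (nat_lit 38) (V.cons (nat_lit 378) true (nat_lit 49) (V.cons (nat_lit 380) false (nat_lit 59) (V.cons (nat_lit 382) true (nat_lit 40) (V.cons (nat_lit 384) false (nat_lit 13) (V.cons (nat_lit 386) true (nat_lit 11) (V.cons (nat_lit 388) false (nat_lit 11) (V.cons (nat_lit 390) false (nat_lit 3) (V.cons (nat_lit 392) true (nat_lit 77) (V.cons (nat_lit 394) false (nat_lit 61) (V.cons (nat_lit 396) true (nat_lit 2) (V.cons (nat_lit 398) false (nat_lit 59) (V.cons (nat_lit 400) false (nat_lit 23) (V.cons (nat_lit 402) true (nat_lit 46) (V.cons (nat_lit 404) false (nat_lit 59) (V.cons (nat_lit 406) false (nat_lit 28) (V.cons (nat_lit 408) true (nat_lit 91) (V.cons (nat_lit 410) true (nat_lit 133) (V.cons (nat_lit 412) false (nat_lit 76) (V.cons (nat_lit 414) true (nat_lit 7) (V.cons (nat_lit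 416) true (nat_lit 37) (V.cons (nat_lit 418) false (nat_lit 10) (V.cons (nat_lit 420) false (nat_lit 8) (V.cons (nat_lit 422) true (nat_lit 6) V.nil))))))))))))))))))))))))) (Rw.rw (nat_lit 0) (nat_lit 0) (Ct.cons false (nat_lit 1) (nat_lit 0) (nat_lit 5764646005948547075) Ct.nil))))))
def tK101 : Tb := (Tb.node (nat_lit 7404) (Tb.node (nat_lit 7402) (Tb.leaf (nat_lit 7400) (nat_lit 433) (V.cons (nat_lit 374) false (nat_lit 11) (V.cons (nat_lit 376) false (nat_lit 53) (V.cons (nat_lit 378) false (nat_lit 43) (V.cons (nat_lit 380) true (nat_lit 47) (V.cons (nat_lit 382) false (nat_lit 34) (V.cons (nat_lit 384) true (nat_lit 10) (V.cons (nat_lit 386) false (nat_lit 5) (V.cons (nat_lit 388) true (nat_lit 5) (V.cons (nat_lit 390) true (nat_lit 7) (V.cons (nat_lit 392) false (nat_lit 65) (V.cons (nat_lit 394) true (nat_lit 64) (V.cons (nat_lit 396) false (nat_lit 5) (V.cons (nat_lit 398) true (nat_lit 65) (V.cons (nat_lit 400) true (nat_lit 11) (V.cons (nat_lit 402) false (nat_lit 34) (V.cons (nat_lit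 404) true (nat_lit 47) (V.cons (nat_lit 406) true (nat_lit 22) (V.cons (nat_lit 408) false (nat_lit 76) (V.cons (nat_lit 410) false (nat_lit 91) (V.cons (nat_lit 412) true (nat_lit 52) (V.cons (nat_lit 414) false (nat_lit 3) (V.cons (nat_lit 416) false (nat_lit 31) (V.cons (nat_lit 418) true (nat_lit 7) (V.cons (nat_lit 420) true (nat_lit 4) (V.cons (nat_lit 422) false (nat_lit 6) V.nil))))))))))))))))))))))))) (Rw.rw (nat_lit 3) (nat_lit 2) (Ct.cons false (nat_lit 44) (nat_lit 0) (nat_lit 8070495612232007683) (Ct.cons true (nat_lit 182) (nat_lit 0) (nat_lit 5764646005948547075) (Ct.cons true (nat_lit 58) (nat_lit 0) (nat_lit 40352260357826281475) (Ct.cons false (nat_lit 222) (nat_lit 0) (nat_lit 16140908761094029317) (Ct.cons false (nat_lit 59) (nat_lit 0) (nat_lit 49575632394683154435) (Ct.cons true (nat_lit 76) (nat_lit 0) (nat_lit 38046415149589331971) (Ct.cons false (nat_lit 198) (nat_lit 0) (nat_lit 5764615219654426627) (Ct.cons false (nat_lit 198) (nat_lit 0) (nat_lit 8070489015160143875)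 (Ct.cons false (nat_lit 46) (nat_lit 0) (nat_lit 11529222742666641411) (Ct.cons true (nat_lit 24) (nat_lit 0) (nat_lit 8070470323467714565) (Ct.cons true (nat_lit 24) (nat_lit 0) (nat_lit 28823043112732459011) (Ct.cons false (nat_lit 66) (nat_lit 0) (nat_lit 11529230439236501507) (Ct.cons false (nat_lit 212) (nat_lit 0) (nat_lit 44963944177232510979) (Ct.cons true (nat_lit 202) (nat_lit 0) (nat_lit 8070456029846962179) (Ct.cons true (nat_lit 44) (nat_lit 0) (nat_lit 8070463726402142211) (Ct.cons true (nat_lit 52) (nat_lit 0) (nat_lit 5764615219652329475) (Ct.cons false (nat_lit 52) (nat_lit 0) (nat_lit 8070456029842767875) (Ct.cons true (nat_lit 52) (nat_lit 0) (nat_lit 31128883922927091715) (Ct.cons true (nat_lit 12) (nat_lit 0) (nat_lit 28823040913711300611) (Ct.cons false (nat_lit 202) (nat_lit 0) (nat_lit 11529232638261854211) (Ct.cons false (nat_lit 50) (nat_lit 0) (nat_lit 5764641607899938819) (Ct.cons true (nat_lit 144) (nat_lit 0) (nat_lit 8070500010276421637) (Ct.cons false (nat_lit 172)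 (nat_lit 0) (nat_lit 8070480219065024515) (Ct.cons false (nat_lit 104) (nat_lit 0) (nat_lit 18446751770301431811) (Ct.cons false (nat_lit 182) (nat_lit 0) (nat_lit 11529220543641288707) (Ct.cons false (nat_lit 190) (nat_lit 0) (nat_lit 8070468124444459011) (Ct.cons false (nat_lit 119) (nat_lit 0) (nat_lit 8070458228874412035) (Ct.cons false (nat_lit 58) (nat_lit 0) (nat_lit 8070493413206654979) (Ct.cons true (nat_lit 10) (nat_lit 0) (nat_lit 20752594779517222919) (Ct.cons true (nat_lit 17) (nat_lit 0) (nat_lit 8070497811255263235) (Ct.cons true (nat_lit 69) (nat_lit 0) (nat_lit 18446752869807816707) (Ct.cons true (nat_lit 4) (nat_lit 0) (nat_lit 8070491214183399427) (Ct.cons true (nat_lit 4) (nat_lit 0) (nat_lit 42658101168018817027) (Ct.cons true (nat_lit 78) (nat_lit 0) (nat_lit 8070461527380983811) (Ct.cons true (nat_lit 54) (nat_lit 0) (nat_lit 20752595879021510661) (Ct.cons false (nat_lit 54) (nat_lit 0) (nat_lit 9223391828069318661) (Ct.cons true (nat_lit 10) (nat_lit 0) (nat_lit 31128888320969408515)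 (Ct.cons false (nat_lit 10) (nat_lit 0) (nat_lit 54187316214087286789) (Ct.cons true (nat_lit 202) (nat_lit 0) (nat_lit 18446761665902936071) (Ct.cons true (nat_lit 202) (nat_lit 0) (nat_lit 5764650403995058179) (Ct.cons true (nat_lit 150) (nat_lit 0) (nat_lit 9223377534429691907) (Ct.cons true (nat_lit 14) (nat_lit 0) (nat_lit 5764622916207509507) (Ct.cons true (nat_lit 2) (nat_lit 1) (nat_lit 3626780917619396468277253) (Ct.cons false (nat_lit 4) (nat_lit 1) (nat_lit 8462486501927519450562563) (Ct.cons false (nat_lit 50) (nat_lit 0) (nat_lit 9223385230997454851) (Ct.cons true (nat_lit 50) (nat_lit 0) (nat_lit 5764613020624879619) (Ct.cons true (nat_lit 154) (nat_lit 0) (nat_lit 42658103367039975427) (Ct.cons false (nat_lit 32) (nat_lit 1) (nat_lit 12089261654918502154240003) (Ct.cons true (nat_lit 29) (nat_lit 1) (nat_lit 8462488807770528662159363) (Ct.cons true (nat_lit 22) (nat_lit 1) (nat_lit 8462486501929718473818117) (Ct.cons true (nat_lit 5) (nat_lit 1) (nat_lit 6044632556846455792336899)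 (Ct.cons false (nat_lit 20) (nat_lit 1) (nat_lit 6044632556848654817689603) Ct.nil)))))))))))))))))))))))))))))))))))))))))))))))))))))) (Tb.leaf (nat_lit 7402) (nat_lit 390) (V.cons (nat_lit 420) false (nat_lit 2) V.nil) (Rw.df (nat_lit 420) (nat_lit 1) (nat_lit 0)))) (Tb.node (nat_lit 7406) (Tb.leaf (nat_lit 7404) (nat_lit 439) (V.cons (nat_lit 374) true (nat_lit 25) (V.cons (nat_lit 376) true (nat_lit 1) (V.cons (nat_lit 378) true (nat_lit 29) (V.cons (nat_lit 380) false (nat_lit 43) (V.cons (nat_lit 382) true (nat_lit 38) (V.cons (nat_lit 384) false (nat_lit 11) (V.cons (nat_lit 386) true (nat_lit 17) (V.cons (nat_lit 388) false (nat_lit 10) (V.cons (nat_lit 390) false (nat_lit 1) (V.cons (nat_lit 392) true (nat_lit 43) (V.cons (nat_lit 394) false (nat_lit 26) (V.cons (nat_lit 396) true (nat_lit 1) (V.cons (nat_lit 398) false (nat_lit 61) (V.cons (nat_lit 400) false (nat_lit 37) (V.cons (nat_lit 402) true (nat_lit 68) (V.cons (nat_lit 404) false (nat_lit 88) (V.cons (nat_lit 406) false (nat_lit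 50) (V.cons (nat_lit 408) true (nat_lit 122) (V.cons (nat_lit 410) true (nat_lit 179) (V.cons (nat_lit 412) false (nat_lit 86) (V.cons (nat_lit 414) true (nat_lit 7) (V.cons (nat_lit 416) true (nat_lit 59) (V.cons (nat_lit 418) false (nat_lit 5) (V.cons (nat_lit 420) false (nat_lit 10) (V.cons (nat_lit 422) true (nat_lit 4) V.nil))))))))))))))))))))))))) (Rw.rw (nat_lit 0) (nat_lit 0) (Ct.cons false (nat_lit 1) (nat_lit 0) (nat_lit 8070458228880703493) Ct.nil))) (Tb.node (nat_lit 7408) (Tb.leaf (nat_lit 7406) (nat_lit 445) (V.cons (nat_lit 374) false (nat_lit 5) (V.cons (nat_lit 376) true (nat_lit 142) (V.cons (nat_lit 378) true (nat_lit 77) (V.cons (nat_lit 380) false (nat_lit 67) (V.cons (nat_lit 382) true (nat_lit 32) (V.cons (nat_lit 384) false (nat_lit 17) (V.cons (nat_lit 386) false (nat_lit 3) (V.cons (nat_lit 388) false (nat_lit 7) (V.cons (nat_lit 390) false (nat_lit 13) (V.cons (nat_lit 392) true (nat_lit 139) (V.cons (nat_lit 394) false (nat_lit 137) (V.cons (nat_lit 396) true (nat_lit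 10) (V.cons (nat_lit 398) false (nat_lit 139) (V.cons (nat_lit 400) false (nat_lit 7) (V.cons (nat_lit 402) true (nat_lit 38) (V.cons (nat_lit 404) false (nat_lit 67) (V.cons (nat_lit 406) false (nat_lit 8) (V.cons (nat_lit 408) true (nat_lit 107) (V.cons (nat_lit 410) true (nat_lit 137) (V.cons (nat_lit 412) false (nat_lit 80) (V.cons (nat_lit 414) true (nat_lit 7) (V.cons (nat_lit 416) true (nat_lit 35) (V.cons (nat_lit 418) false (nat_lit 20) (V.cons (nat_lit 420) false (nat_lit 6) (V.cons (nat_lit 422) true (nat_lit 10) V.nil))))))))))))))))))))))))) (Rw.rw (nat_lit 0) (nat_lit 1) (Ct.cons true (nat_lit 1) (nat_lit 1) (nat_lit 6044632556853052864200709) Ct.nil))) (Tb.leaf (nat_lit 7408) (nat_lit 447) (V.cons (nat_lit 374) true (nat_lit 43) (V.cons (nat_lit 376) true (nat_lit 28) (V.cons (nat_lit 378) true (nat_lit 65) (V.cons (nat_lit 380) false (nat_lit 85) (V.cons (nat_lit 382) true (nat_lit 65) (V.cons (nat_lit 384) false (nat_lit 17) (V.cons (nat_lit 386) true (nat_lit 21) (V.cons (nat_lit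 388) false (nat_lit 19) (V.cons (nat_lit 390) false (nat_lit 5) (V.cons (nat_lit 392) true (nat_lit 97) (V.cons (nat_lit 394) false (nat_lit 71) (V.cons (nat_lit 396) true (nat_lit 4) (V.cons (nat_lit 398) false (nat_lit 97) (V.cons (nat_lit 400) false (nat_lit 25) (V.cons (nat_lit 402) true (nat_lit 62) (V.cons (nat_lit 404) false (nat_lit 79) (V.cons (nat_lit 406) false (nat_lit 32) (V.cons (nat_lit 408) true (nat_lit 113) (V.cons (nat_lit 410) true (nat_lit 161) (V.cons (nat_lit 412) false (nat_lit 98) (V.cons (nat_lit 414) true (nat_lit 9) (V.cons (nat_lit 416) true (nat_lit 50) (V.cons (nat_lit 418) false (nat_lit 11) (V.cons (nat_lit 420) false (nat_lit 10) (V.cons (nat_lit 422) true (nat_lit 8) V.nil))))))))))))))))))))))))) (Rw.rw (nat_lit 0) (nat_lit 1) (Ct.cons false (nat_lit 1) (nat_lit 1) (nat_lit 16924967239220028066758659) Ct.nil))))))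
def tK102 : Tb := (Tb.node (nat_lit 7400) tK100 tK101)
def tK103 : Tb := (Tb.node (nat_lit 7390) tK99 tK102)
def tK104 : Tb := (Tb.node (nat_lit 7372) tK96 tK103)
def tK105 : Tb := (Tb.node (nat_lit 7289) tK90 tK104)
def tK106 : Tb := (Tb.node (nat_lit 7204) tK78 tK105)
def tK107 : Tb := (Tb.node (nat_lit 5201) tK52 tK106)
def tK108 : Tb := (Tb.node (nat_lit 7414) (Tb.node (nat_lit 7412) (Tb.leaf (nat_lit 7410) (nat_lit 391) (V.cons (nat_lit 422) false (nat_lit 2) V.nil) (Rw.df (nat_lit 422) (nat_lit 1) (nat_lit 0))) (Tb.leaf (nat_lit 7412) (nat_lit 412) (V.cons (nat_lit 374) false (nat_lit 144) (V.cons (nat_lit 376) false (nat_lit 216) (V.cons (nat_lit 378) false (nat_lit 306) (V.cons (nat_lit 380) true (nat_lit 360) (V.cons (nat_lit 382) false (nat_lit 288) (V.cons (nat_lit 384) true (nat_lit 72) (V.cons (nat_lit 386) false (nat_lit 70) (V.cons (nat_lit 388) true (nat_lit 72) (V.cons (nat_lit 390) true (nat_lit 32) (V.cons (nat_lit 392) false (nat_lit 432) (V.cons (nat_lit 394) true (nat_lit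 360) (V.cons (nat_lit 396) false (nat_lit 24) (V.cons (nat_lit 398) true (nat_lit 432) (V.cons (nat_lit 400) true (nat_lit 90) (V.cons (nat_lit 402) false (nat_lit 234) (V.cons (nat_lit 404) true (nat_lit 315) (V.cons (nat_lit 406) true (nat_lit 108) (V.cons (nat_lit 408) false (nat_lit 450) (V.cons (nat_lit 410) false (nat_lit 630) (V.cons (nat_lit 412) true (nat_lit 372) (V.cons (nat_lit 414) false (nat_lit 32) (V.cons (nat_lit 416) false (nat_lit 207) (V.cons (nat_lit 418) true (nat_lit 45) (V.cons (nat_lit 420) true (nat_lit 38) (V.cons (nat_lit 422) false (nat_lit 40) V.nil))))))))))))))))))))))))) (Rw.rw (nat_lit 1) (nat_lit 1) (Ct.cons true (nat_lit 12) (nat_lit 0) (nat_lit 40352260357826281475) (Ct.cons true (nat_lit 21) (nat_lit 0) (nat_lit 11529222742666641411) (Ct.cons false (nat_lit 35) (nat_lit 0) (nat_lit 8070470323467714565) (Ct.cons false (nat_lit 35) (nat_lit 0) (nat_lit 28823043112732459011) (Ct.cons false (nat_lit 224) (nat_lit 0) (nat_lit 16140908761094029317) (Ct.cons false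 (nat_lit 97) (nat_lit 0) (nat_lit 49575632394683154435) (Ct.cons true (nat_lit 64) (nat_lit 0) (nat_lit 38046415149589331971) (Ct.cons true (nat_lit 20) (nat_lit 0) (nat_lit 5764622916207509507) (Ct.cons false (nat_lit 148) (nat_lit 0) (nat_lit 44963944177232510979) (Ct.cons true (nat_lit 154) (nat_lit 0) (nat_lit 8070456029846962179) (Ct.cons false (nat_lit 58) (nat_lit 0) (nat_lit 8070493413206654979) (Ct.cons true (nat_lit 63) (nat_lit 0) (nat_lit 5764646005948547075) (Ct.cons true (nat_lit 96) (nat_lit 0) (nat_lit 8070500010276421637) (Ct.cons false (nat_lit 115) (nat_lit 0) (nat_lit 8070480219065024515) (Ct.cons false (nat_lit 103) (nat_lit 0) (nat_lit 11529220543641288707) (Ct.cons false (nat_lit 91) (nat_lit 0) (nat_lit 8070468124444459011) (Ct.cons false (nat_lit 90) (nat_lit 0) (nat_lit 11529232638261854211) (Ct.cons false (nat_lit 22) (nat_lit 0) (nat_lit 8070495612232007683) (Ct.cons false (nat_lit 112) (nat_lit 0) (nat_lit 5764615219654426627) (Ct.cons true (nat_lit 90) (nat_lit 0)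 (nat_lit 42658103367039975427) (Ct.cons false (nat_lit 112) (nat_lit 0) (nat_lit 8070489015160143875) (Ct.cons true (nat_lit 22) (nat_lit 0) (nat_lit 8070463726402142211) (Ct.cons false (nat_lit 10) (nat_lit 0) (nat_lit 13835061353825435651) (Ct.cons false (nat_lit 9) (nat_lit 0) (nat_lit 31128883922927091715) (Ct.cons false (nat_lit 1) (nat_lit 0) (nat_lit 28823040913711300611) (Ct.cons false (nat_lit 34) (nat_lit 0) (nat_lit 5764641607899938819) (Ct.cons false (nat_lit 21) (nat_lit 0) (nat_lit 18446751770301431811) (Ct.cons false (nat_lit 105) (nat_lit 0) (nat_lit 8070458228874412035) (Ct.cons false (nat_lit 12) (nat_lit 0) (nat_lit 20752594779517222919) (Ct.cons false (nat_lit 33) (nat_lit 0) (nat_lit 8070497811255263235) (Ct.cons true (nat_lit 71) (nat_lit 0) (nat_lit 18446752869807816707) (Ct.cons true (nat_lit 36) (nat_lit 0) (nat_lit 8070491214183399427) (Ct.cons true (nat_lit 36) (nat_lit 0) (nat_lit 42658101168018817027) (Ct.cons true (nat_lit 103) (nat_lit 0) (nat_lit 8070461527380983811)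 (Ct.cons true (nat_lit 2) (nat_lit 0) (nat_lit 20752595879021510661) (Ct.cons false (nat_lit 2) (nat_lit 0) (nat_lit 9223391828069318661) (Ct.cons false (nat_lit 12) (nat_lit 0) (nat_lit 31128888320969408515) (Ct.cons true (nat_lit 12) (nat_lit 0) (nat_lit 54187316214087286789) (Ct.cons true (nat_lit 142) (nat_lit 0) (nat_lit 18446761665902936071) (Ct.cons true (nat_lit 142) (nat_lit 0) (nat_lit 5764650403995058179) (Ct.cons true (nat_lit 118) (nat_lit 0) (nat_lit 9223377534429691907) (Ct.cons true (nat_lit 7) (nat_lit 1) (nat_lit 3626780917619396468277253) (Ct.cons true (nat_lit 10) (nat_lit 0) (nat_lit 11529230439236501507) (Ct.cons false (nat_lit 7) (nat_lit 1) (nat_lit 6044632556848654817689603) (Ct.cons false (nat_lit 7) (nat_lit 1) (nat_lit 8462486501927519450562563) (Ct.cons false (nat_lit 44) (nat_lit 0) (nat_lit 9223385230997454851) (Ct.cons true (nat_lit 44) (nat_lit 0) (nat_lit 5764613020624879619) (Ct.cons false (nat_lit 16) (nat_lit 1) (nat_lit 12089261654918502154240003) (Ct.cons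 true (nat_lit 19) (nat_lit 1) (nat_lit 8462488807770528662159363) (Ct.cons true (nat_lit 7) (nat_lit 1) (nat_lit 8462486501929718473818117) (Ct.cons false (nat_lit 5) (nat_lit 1) (nat_lit 6044632556846455792336899) Ct.nil)))))))))))))))))))))))))))))))))))))))))))))))))))))) (Tb.node (nat_lit 7416) (Tb.leaf (nat_lit 7414) (nat_lit 446) (V.cons (nat_lit 374) true (nat_lit 6) (V.cons (nat_lit 376) false (nat_lit 210) (V.cons (nat_lit 378) false (nat_lit 141) (V.cons (nat_lit 380) true (nat_lit 102) (V.cons (nat_lit 382) false (nat_lit 87) (V.cons (nat_lit 384) true (nat_lit 27) (V.cons (nat_lit 386) true (nat_lit 6) (V.cons (nat_lit 388) true (nat_lit 18) (V.cons (nat_lit 390) true (nat_lit 19) (V.cons (nat_lit 392) false (nat_lit 219) (V.cons (nat_lit 394) true (nat_lit 213) (V.cons (nat_lit 396) false (nat_lit 15) (V.cons (nat_lit 398) true (nat_lit 201) (V.cons (nat_lit 400) true (nat_lit 27) (V.cons (nat_lit 402) false (nat_lit 63) (V.cons (nat_lit 404) true (nat_lit 120) (V.cons (nat_lit 406)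 true (nat_lit 15) (V.cons (nat_lit 408) false (nat_lit 177) (V.cons (nat_lit 410) false (nat_lit 231) (V.cons (nat_lit 412) true (nat_lit 123) (V.cons (nat_lit 414) false (nat_lit 11) (V.cons (nat_lit 416) false (nat_lit 60) (V.cons (nat_lit 418) true (nat_lit 27) (V.cons (nat_lit 420) true (nat_lit 9) (V.cons (nat_lit 422) false (nat_lit 15) V.nil))))))))))))))))))))))))) (Rw.rw (nat_lit 0) (nat_lit 0) (Ct.cons false (nat_lit 1) (nat_lit 0) (nat_lit 58799004431537930245) Ct.nil))) (Tb.leaf (nat_lit 7416) (nat_lit 411) (V.cons (nat_lit 374) false (nat_lit 3) (V.cons (nat_lit 376) false (nat_lit 201) (V.cons (nat_lit 378) false (nat_lit 141) (V.cons (nat_lit 380) true (nat_lit 111) (V.cons (nat_lit 382) false (nat_lit 87) (V.cons (nat_lit 384) true (nat_lit 27) (V.cons (nat_lit 386) true (nat_lit 3) (V.cons (nat_lit 388) true (nat_lit 18) (V.cons (nat_lit 390) true (nat_lit 19) (V.cons (nat_lit 392) false (nat_lit 219) (V.cons (nat_lit 394) true (nat_lit 213) (V.cons (nat_lit 396) false (nat_lit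 15) (V.cons (nat_lit 398) true (nat_lit 201) (V.cons (nat_lit 400) true (nat_lit 27) (V.cons (nat_lit 402) false (nat_lit 72) (V.cons (nat_lit 404) true (nat_lit 120) (V.cons (nat_lit 406) true (nat_lit 24) (V.cons (nat_lit 408) false (nat_lit 186) (V.cons (nat_lit 410) false (nat_lit 231) (V.cons (nat_lit 412) true (nat_lit 132) (V.cons (nat_lit 414) false (nat_lit 11) (V.cons (nat_lit 416) false (nat_lit 60) (V.cons (nat_lit 418) true (nat_lit 27) (V.cons (nat_lit 420) true (nat_lit 12) (V.cons (nat_lit 422) false (nat_lit 18) V.nil))))))))))))))))))))))))) (Rw.rw (nat_lit 3) (nat_lit 1) (Ct.cons true (nat_lit 254) (nat_lit 0) (nat_lit 18446761665902936071) (Ct.cons true (nat_lit 254) (nat_lit 0) (nat_lit 5764650403995058179) (Ct.cons false (nat_lit 42) (nat_lit 0) (nat_lit 8070470323467714565) (Ct.cons false (nat_lit 42) (nat_lit 0) (nat_lit 28823043112732459011) (Ct.cons true (nat_lit 34) (nat_lit 0) (nat_lit 11529222742666641411) (Ct.cons true (nat_lit 20) (nat_lit 0) (nat_lit 18446751770301431811)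 (Ct.cons true (nat_lit 32) (nat_lit 0) (nat_lit 38046415149589331971) (Ct.cons true (nat_lit 135) (nat_lit 0) (nat_lit 18446752869807816707) (Ct.cons true (nat_lit 62) (nat_lit 0) (nat_lit 8070491214183399427) (Ct.cons true (nat_lit 62) (nat_lit 0) (nat_lit 42658101168018817027) (Ct.cons true (nat_lit 88) (nat_lit 0) (nat_lit 5764646005948547075) (Ct.cons false (nat_lit 138) (nat_lit 0) (nat_lit 5764615219654426627) (Ct.cons false (nat_lit 232) (nat_lit 0) (nat_lit 44963944177232510979) (Ct.cons true (nat_lit 116) (nat_lit 0) (nat_lit 42658103367039975427) (Ct.cons false (nat_lit 138) (nat_lit 0) (nat_lit 8070489015160143875) (Ct.cons true (nat_lit 132) (nat_lit 0) (nat_lit 8070500010276421637) (Ct.cons false (nat_lit 136) (nat_lit 0) (nat_lit 11529220543641288707) (Ct.cons false (nat_lit 110) (nat_lit 0) (nat_lit 8070468124444459011) (Ct.cons false (nat_lit 110) (nat_lit 0) (nat_lit 11529232638261854211) (Ct.cons true (nat_lit 2) (nat_lit 0) (nat_lit 40352260357826281475) (Ct.cons false (nat_lit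 330) (nat_lit 0) (nat_lit 16140908761094029317) (Ct.cons false (nat_lit 12) (nat_lit 0) (nat_lit 11529230439236501507) (Ct.cons false (nat_lit 8) (nat_lit 0) (nat_lit 5764622916207509507) (Ct.cons false (nat_lit 116) (nat_lit 0) (nat_lit 8070493413206654979) (Ct.cons true (nat_lit 32) (nat_lit 0) (nat_lit 5764615219652329475) (Ct.cons false (nat_lit 32) (nat_lit 0) (nat_lit 8070456029842767875) (Ct.cons false (nat_lit 83) (nat_lit 0) (nat_lit 8070497811255263235) (Ct.cons false (nat_lit 58) (nat_lit 0) (nat_lit 5764641607899938819) (Ct.cons true (nat_lit 198) (nat_lit 0) (nat_lit 8070461527380983811) (Ct.cons false (nat_lit 16) (nat_lit 0) (nat_lit 20752594779517222919) (Ct.cons false (nat_lit 12) (nat_lit 0) (nat_lit 13835061353825435651) (Ct.cons false (nat_lit 16) (nat_lit 0) (nat_lit 31128888320969408515) (Ct.cons true (nat_lit 16) (nat_lit 0) (nat_lit 54187316214087286789) (Ct.cons false (nat_lit 16) (nat_lit 0) (nat_lit 31128883922927091715) (Ct.cons false (nat_lit 193) (nat_lit 0) (nat_lit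 8070458228874412035) (Ct.cons true (nat_lit 228) (nat_lit 0) (nat_lit 9223377534429691907) (Ct.cons false (nat_lit 4) (nat_lit 1) (nat_lit 6044632556848654817689603) (Ct.cons false (nat_lit 115) (nat_lit 0) (nat_lit 49575632394683154435) (Ct.cons false (nat_lit 152) (nat_lit 0) (nat_lit 8070480219065024515) (Ct.cons true (nat_lit 284) (nat_lit 0) (nat_lit 8070456029846962179) (Ct.cons false (nat_lit 22) (nat_lit 0) (nat_lit 8070495612232007683) (Ct.cons true (nat_lit 22) (nat_lit 0) (nat_lit 8070463726402142211) (Ct.cons true (nat_lit 4) (nat_lit 1) (nat_lit 3626780917619396468277253) (Ct.cons true (nat_lit 4) (nat_lit 1) (nat_lit 8462486501927519450562563) (Ct.cons false (nat_lit 16) (nat_lit 1) (nat_lit 12089261654918502154240003) (Ct.cons true (nat_lit 31) (nat_lit 1) (nat_lit 8462488807770528662159363) (Ct.cons true (nat_lit 8) (nat_lit 1) (nat_lit 8462486501929718473818117) (Ct.cons false (nat_lit 5) (nat_lit 1) (nat_lit 6044632556846455792336899) (Ct.cons false (nat_lit 70) (nat_lit 0) (nat_lit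 9223385230997454851) (Ct.cons true (nat_lit 70) (nat_lit 0) (nat_lit 5764613020624879619) Ct.nil))))))))))))))))))))))))))))))))))))))))))))))))))))))
def tK109 : Tb := (Tb.node (nat_lit 7422) (Tb.node (nat_lit 7420) (Tb.leaf (nat_lit 7418) (nat_lit 440) (V.cons (nat_lit 374) false (nat_lit 17) (V.cons (nat_lit 376) true (nat_lit 67) (V.cons (nat_lit 378) true (nat_lit 35) (V.cons (nat_lit 380) false (nat_lit 7) (V.cons (nat_lit 382) true (nat_lit 17) (V.cons (nat_lit 384) false (nat_lit 5) (V.cons (nat_lit 386) false (nat_lit 9) (V.cons (nat_lit 388) false (nat_lit 1) (V.cons (nat_lit 390) false (nat_lit 5) (V.cons (nat_lit 392) true (nat_lit 55) (V.cons (nat_lit 394) false (nat_lit 59) (V.cons (nat_lit 396) true (nat_lit 4) (V.cons (nat_lit 398) false (nat_lit 55) (V.cons (nat_lit 400) false (nat_lit 19) (V.cons (nat_lit 402) true (nat_lit 32) (V.cons (nat_lit 404) false (nat_lit 55) (V.cons (nat_lit 406) false (nat_lit 20) (V.cons (nat_lit 408) true (nat_lit 83) (V.cons (nat_lit 410) true (nat_lit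 95) (V.cons (nat_lit 412) false (nat_lit 44) (V.cons (nat_lit 414) true (nat_lit 3) (V.cons (nat_lit 416) true (nat_lit 20) (V.cons (nat_lit 418) false (nat_lit 8) (V.cons (nat_lit 420) false (nat_lit 6) (V.cons (nat_lit 422) true (nat_lit 6) V.nil))))))))))))))))))))))))) (Rw.rw (nat_lit 0) (nat_lit 0) (Ct.cons true (nat_lit 1) (nat_lit 0) (nat_lit 8070468124448653317) Ct.nil))) (Tb.leaf (nat_lit 7420) (nat_lit 403) (V.cons (nat_lit 374) false (nat_lit 30) (V.cons (nat_lit 376) true (nat_lit 15) (V.cons (nat_lit 378) false (nat_lit 24) (V.cons (nat_lit 380) true (nat_lit 42) (V.cons (nat_lit 382) false (nat_lit 51) (V.cons (nat_lit 384) true (nat_lit 6) (V.cons (nat_lit 386) false (nat_lit 12) (V.cons (nat_lit 388) true (nat_lit 12) (V.cons (nat_lit 390) true (nat_lit 6) (V.cons (nat_lit 392) false (nat_lit 30) (V.cons (nat_lit 394) true (nat_lit 6) (V.cons (nat_lit 396) false (nat_lit 3) (V.cons (nat_lit 398) true (nat_lit 12) (V.cons (nat_lit 400) false (nat_lit 18) (V.cons (nat_lit 404) false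 (nat_lit 15) (V.cons (nat_lit 406) false (nat_lit 12) (V.cons (nat_lit 408) true (nat_lit 30) (V.cons (nat_lit 410) true (nat_lit 48) (V.cons (nat_lit 414) true (nat_lit 2) (V.cons (nat_lit 416) true (nat_lit 12) (V.cons (nat_lit 418) false (nat_lit 3) (V.cons (nat_lit 422) false (nat_lit 4) V.nil)))))))))))))))))))))) (Rw.rw (nat_lit 1) (nat_lit 1) (Ct.cons true (nat_lit 11) (nat_lit 0) (nat_lit 40352260357826281475) (Ct.cons false (nat_lit 17) (nat_lit 0) (nat_lit 11529222742666641411) (Ct.cons true (nat_lit 15) (nat_lit 0) (nat_lit 8070470323467714565) (Ct.cons true (nat_lit 15) (nat_lit 0) (nat_lit 28823043112732459011) (Ct.cons true (nat_lit 9) (nat_lit 0) (nat_lit 16140908761094029317) (Ct.cons true (nat_lit 8) (nat_lit 0) (nat_lit 49575632394683154435) (Ct.cons false (nat_lit 9) (nat_lit 0) (nat_lit 11529230439236501507) (Ct.cons false (nat_lit 8) (nat_lit 0) (nat_lit 5764622916207509507) (Ct.cons true (nat_lit 2) (nat_lit 0) (nat_lit 20752594779517222919) (Ct.cons false (nat_lit 1) (nat_lit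 0) (nat_lit 5764615219652329475) (Ct.cons true (nat_lit 1) (nat_lit 0) (nat_lit 8070456029842767875) (Ct.cons false (nat_lit 14) (nat_lit 0) (nat_lit 11529232638261854211) (Ct.cons true (nat_lit 1) (nat_lit 0) (nat_lit 8070497811255263235) (Ct.cons true (nat_lit 10) (nat_lit 0) (nat_lit 8070493413206654979) (Ct.cons false (nat_lit 1) (nat_lit 0) (nat_lit 42658103367039975427) (Ct.cons false (nat_lit 3) (nat_lit 0) (nat_lit 8070500010276421637) (Ct.cons true (nat_lit 4) (nat_lit 0) (nat_lit 8070480219065024515) (Ct.cons true (nat_lit 2) (nat_lit 0) (nat_lit 11529220543641288707) (Ct.cons false (nat_lit 8) (nat_lit 0) (nat_lit 8070468124444459011) (Ct.cons true (nat_lit 11) (nat_lit 0) (nat_lit 44963944177232510979) (Ct.cons true (nat_lit 5) (nat_lit 0) (nat_lit 8070456029846962179) (Ct.cons false (nat_lit 10) (nat_lit 0) (nat_lit 18446751770301431811) (Ct.cons false (nat_lit 9) (nat_lit 0) (nat_lit 18446752869807816707) (Ct.cons false (nat_lit 4) (nat_lit 0) (nat_lit 8070491214183399427) (Ct.cons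 false (nat_lit 4) (nat_lit 0) (nat_lit 42658101168018817027) (Ct.cons true (nat_lit 3) (nat_lit 0) (nat_lit 8070461527380983811) (Ct.cons true (nat_lit 6) (nat_lit 0) (nat_lit 20752595879021510661) (Ct.cons false (nat_lit 6) (nat_lit 0) (nat_lit 9223391828069318661) (Ct.cons true (nat_lit 3) (nat_lit 0) (nat_lit 13835061353825435651) (Ct.cons false (nat_lit 7) (nat_lit 0) (nat_lit 5764641607899938819) (Ct.cons true (nat_lit 6) (nat_lit 0) (nat_lit 28823040913711300611) (Ct.cons true (nat_lit 2) (nat_lit 0) (nat_lit 31128888320969408515) (Ct.cons false (nat_lit 2) (nat_lit 0) (nat_lit 54187316214087286789) (Ct.cons true (nat_lit 2) (nat_lit 0) (nat_lit 31128883922927091715) (Ct.cons false (nat_lit 10) (nat_lit 0) (nat_lit 18446761665902936071) (Ct.cons false (nat_lit 10) (nat_lit 0) (nat_lit 5764650403995058179) (Ct.cons false (nat_lit 7) (nat_lit 0) (nat_lit 38046415149589331971) (Ct.cons true (nat_lit 2) (nat_lit 0) (nat_lit 8070458228874412035) (Ct.cons false (nat_lit 1) (nat_lit 1) (nat_lit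 6044632556848654817689603) (Ct.cons false (nat_lit 1) (nat_lit 0) (nat_lit 8070495612232007683) (Ct.cons true (nat_lit 1) (nat_lit 0) (nat_lit 8070463726402142211) (Ct.cons true (nat_lit 1) (nat_lit 1) (nat_lit 3626780917619396468277253) (Ct.cons true (nat_lit 1) (nat_lit 1) (nat_lit 8462486501927519450562563) (Ct.cons false (nat_lit 4) (nat_lit 0) (nat_lit 9223385230997454851) (Ct.cons true (nat_lit 4) (nat_lit 0) (nat_lit 5764613020624879619) (Ct.cons false (nat_lit 4) (nat_lit 1) (nat_lit 12089261654918502154240003) (Ct.cons true (nat_lit 13) (nat_lit 0) (nat_lit 5764646005948547075) (Ct.cons true (nat_lit 1) (nat_lit 1) (nat_lit 8462488807770528662159363) (Ct.cons true (nat_lit 2) (nat_lit 1) (nat_lit 8462486501929718473818117) (Ct.cons true (nat_lit 1) (nat_lit 1) (nat_lit 6044632556846455792336899) Ct.nil))))))))))))))))))))))))))))))))))))))))))))))))))))) (Tb.node (nat_lit 7424) (Tb.leaf (nat_lit 7422) (nat_lit 455) (V.cons (nat_lit 434) false (nat_lit 1) V.nil) (Rw.df (nat_lit 434) (nat_lit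 0) (nat_lit 0))) (Tb.node (nat_lit 7426) (Tb.leaf (nat_lit 7424) (nat_lit 456) (V.cons (nat_lit 436) false (nat_lit 1) V.nil) (Rw.df (nat_lit 436) (nat_lit 0) (nat_lit 0))) (Tb.leaf (nat_lit 7426) (nat_lit 467) (V.cons (nat_lit 428) true (nat_lit 1) (V.cons (nat_lit 432) true (nat_lit 1) (V.cons (nat_lit 434) false (nat_lit 1) (V.cons (nat_lit 436) false (nat_lit 1) (V.cons (nat_lit 438) true (nat_lit 1) V.nil))))) (Rw.rw (nat_lit 0) (nat_lit 0) (Ct.cons true (nat_lit 1) (nat_lit 0) (nat_lit 51881475403896848387) Ct.nil))))))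
def tK110 : Tb := (Tb.node (nat_lit 7418) tK108 tK109)
def tK111 : Tb := (Tb.node (nat_lit 7440) (Tb.node (nat_lit 7438) (Tb.leaf (nat_lit 7436) (nat_lit 520) (V.cons (nat_lit 444) true (nat_lit 24) (V.cons (nat_lit 446) false (nat_lit 23) (V.cons (nat_lit 448) false (nat_lit 190) (V.cons (nat_lit 450) false (nat_lit 23) (V.cons (nat_lit 452) true (nat_lit 50) (V.cons (nat_lit 454) false (nat_lit 119) (V.cons (nat_lit 456) true (nat_lit 98) (V.cons (nat_lit 458) false (nat_lit 22) (V.cons (nat_lit 460) true (nat_lit 34) (V.cons (nat_lit 462) true (nat_lit 57) (V.cons (nat_lit 464) false (nat_lit 35) (V.cons (nat_lit 466) false (nat_lit 104) (V.cons (nat_lit 468) true (nat_lit 76) (V.cons (nat_lit 470) true (nat_lit 20) (V.cons (nat_lit 472) false (nat_lit 56) (V.cons (nat_lit 474) true (nat_lit 34) (V.cons (nat_lit 476) false (nat_lit 97) (V.cons (nat_lit 478) true (nat_lit 86) (V.cons (nat_lit 480) false (nat_lit 91) V.nil))))))))))))))))))) (Rw.rw (nat_lit 0) (nat_lit 0) (Ct.cons false (nat_lit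 1) (nat_lit 0) (nat_lit 42658098968995561475) Ct.nil))) (Tb.leaf (nat_lit 7438) (nat_lit 489) (V.cons (nat_lit 468) false (nat_lit 3) V.nil) (Rw.df (nat_lit 468) (nat_lit 0) (nat_lit 1)))) (Tb.node (nat_lit 7442) (Tb.leaf (nat_lit 7440) (nat_lit 490) (V.cons (nat_lit 470) false (nat_lit 3) V.nil) (Rw.df (nat_lit 470) (nat_lit 0) (nat_lit 1))) (Tb.node (nat_lit 7444) (Tb.leaf (nat_lit 7442) (nat_lit 522) (V.cons (nat_lit 444) false (nat_lit 38) (V.cons (nat_lit 446) true (nat_lit 39) (V.cons (nat_lit 448) true (nat_lit 306) (V.cons (nat_lit 450) true (nat_lit 43) (V.cons (nat_lit 452) false (nat_lit 90) (V.cons (nat_lit 454) true (nat_lit 195) (V.cons (nat_lit 456) false (nat_lit 156) (V.cons (nat_lit 458) true (nat_lit 30) (V.cons (nat_lit 460) false (nat_lit 56) (V.cons (nat_lit 462) false (nat_lit 95) (V.cons (nat_lit 464) true (nat_lit 66) (V.cons (nat_lit 466) true (nat_lit 159) (V.cons (nat_lit 468) false (nat_lit 120) (V.cons (nat_lit 470) false (nat_lit 39) (V.cons (nat_lit 472) true (nat_lit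 93) (V.cons (nat_lit 474) false (nat_lit 54) (V.cons (nat_lit 476) true (nat_lit 153) (V.cons (nat_lit 478) false (nat_lit 144) (V.cons (nat_lit 480) true (nat_lit 153) V.nil))))))))))))))))))) (Rw.rw (nat_lit 0) (nat_lit 0) (Ct.cons true (nat_lit 1) (nat_lit 0) (nat_lit 18446759466879680515) Ct.nil))) (Tb.leaf (nat_lit 7444) (nat_lit 499) (V.cons (nat_lit 444) false (nat_lit 18) (V.cons (nat_lit 446) true (nat_lit 18) (V.cons (nat_lit 448) true (nat_lit 146) (V.cons (nat_lit 450) true (nat_lit 22) (V.cons (nat_lit 452) false (nat_lit 46) (V.cons (nat_lit 454) true (nat_lit 100) (V.cons (nat_lit 456) false (nat_lit 76) (V.cons (nat_lit 458) true (nat_lit 14) (V.cons (nat_lit 460) false (nat_lit 28) (V.cons (nat_lit 462) false (nat_lit 47) (V.cons (nat_lit 464) true (nat_lit 31) (V.cons (nat_lit 466) true (nat_lit 82) (V.cons (nat_lit 468) false (nat_lit 62) (V.cons (nat_lit 470) false (nat_lit 19) (V.cons (nat_lit 472) true (nat_lit 46) (V.cons (nat_lit 474) false (nat_lit 27) (V.cons (nat_lit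 476) true (nat_lit 77) (V.cons (nat_lit 478) false (nat_lit 70) (V.cons (nat_lit 480) true (nat_lit 74) V.nil))))))))))))))))))) (Rw.rw (nat_lit 1) (nat_lit 1) (Ct.cons true (nat_lit 454) (nat_lit 0) (nat_lit 40352260357824184323) (Ct.cons false (nat_lit 155) (nat_lit 0) (nat_lit 20752594779519320069) (Ct.cons false (nat_lit 666) (nat_lit 0) (nat_lit 11529230439234404355) (Ct.cons true (nat_lit 332) (nat_lit 0) (nat_lit 8070461527383080963) (Ct.cons false (nat_lit 126) (nat_lit 0) (nat_lit 5764622916211703811) (Ct.cons true (nat_lit 74) (nat_lit 0) (nat_lit 8070491214181302275) (Ct.cons true (nat_lit 182) (nat_lit 0) (nat_lit 16140918656689242115) (Ct.cons true (nat_lit 182) (nat_lit 0) (nat_lit 18446763864926191623) (Ct.cons false (nat_lit 150) (nat_lit 0) (nat_lit 16140904363041226755) (Ct.cons false (nat_lit 52) (nat_lit 0) (nat_lit 51881473204873592835) (Ct.cons true (nat_lit 166) (nat_lit 0) (nat_lit 35740569941352382467) (Ct.cons true (nat_lit 76) (nat_lit 0) (nat_lit 5764641607897841667)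 (Ct.cons true (nat_lit 162) (nat_lit 0) (nat_lit 44963946376251572227) (Ct.cons true (nat_lit 200) (nat_lit 0) (nat_lit 16140912059615281155) (Ct.cons true (nat_lit 218) (nat_lit 0) (nat_lit 16140906562068676611) (Ct.cons true (nat_lit 490) (nat_lit 0) (nat_lit 40352255959781867523) (Ct.cons true (nat_lit 345) (nat_lit 0) (nat_lit 38046415149587234819) (Ct.cons false (nat_lit 345) (nat_lit 0) (nat_lit 16140920855712497669) (Ct.cons false (nat_lit 104) (nat_lit 0) (nat_lit 8070465925429592069) (Ct.cons false (nat_lit 104) (nat_lit 0) (nat_lit 54187316214087286787) (Ct.cons true (nat_lit 78) (nat_lit 0) (nat_lit 54187318413108445187) (Ct.cons true (nat_lit 422) (nat_lit 0) (nat_lit 5764659200088080387) (Ct.cons true (nat_lit 506) (nat_lit 0) (nat_lit 20752594779515125763) (Ct.cons false (nat_lit 122) (nat_lit 0) (nat_lit 61104847440751624197) (Ct.cons true (nat_lit 182) (nat_lit 0) (nat_lit 28823040913709203459) (Ct.cons false (nat_lit 96) (nat_lit 0) (nat_lit 38046412950566076419) (Ct.cons true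 (nat_lit 7) (nat_lit 1) (nat_lit 3626780917623794514788357) (Ct.cons true (nat_lit 86) (nat_lit 0) (nat_lit 5764643806921097219) (Ct.cons false (nat_lit 122) (nat_lit 0) (nat_lit 8070456029855350787) (Ct.cons true (nat_lit 71) (nat_lit 0) (nat_lit 16140908761094029315) (Ct.cons false (nat_lit 73) (nat_lit 0) (nat_lit 5764615219662815235) (Ct.cons false (nat_lit 49) (nat_lit 0) (nat_lit 8070489015158046723) (Ct.cons true (nat_lit 174) (nat_lit 0) (nat_lit 51881475403894751235) (Ct.cons true (nat_lit 174) (nat_lit 0) (nat_lit 5764657001064824835) (Ct.cons true (nat_lit 45) (nat_lit 1) (nat_lit 8462484196082311211515907) (Ct.cons false (nat_lit 30) (nat_lit 1) (nat_lit 3626780917617197442924547) (Ct.cons true (nat_lit 60) (nat_lit 0) (nat_lit 8070508806371540997) (Ct.cons false (nat_lit 150) (nat_lit 0) (nat_lit 9223389629043965955) (Ct.cons true (nat_lit 60) (nat_lit 0) (nat_lit 18446752869805719555) (Ct.cons true (nat_lit 8) (nat_lit 1) (nat_lit 8462484196086709260124165) (Ct.cons false (nat_lit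 19) (nat_lit 1) (nat_lit 3626780917619396468277251) Ct.nil))))))))))))))))))))))))))))))))))))))))))))))
def tK112 : Tb := (Tb.node (nat_lit 7436) (Tb.node (nat_lit 7432) (Tb.node (nat_lit 7430) (Tb.leaf (nat_lit 7428) (nat_lit 475) (V.cons (nat_lit 426) true (nat_lit 1) (V.cons (nat_lit 428) true (nat_lit 8) (V.cons (nat_lit 430) false (nat_lit 8) (V.cons (nat_lit 432) true (nat_lit 2) (V.cons (nat_lit 434) false (nat_lit 5) (V.cons (nat_lit 436) true (nat_lit 3) (V.cons (nat_lit 440) true (nat_lit 3) (V.cons (nat_lit 442) false (nat_lit 3) V.nil)))))))) (Rw.rw (nat_lit 1) (nat_lit 0) (Ct.cons true (nat_lit 1) (nat_lit 1) (nat_lit 3626780917617197445021699) Ct.nil))) (Tb.leaf (nat_lit 7430) (nat_lit 473) (V.cons (nat_lit 428) false (nat_lit 8) (V.cons (nat_lit 430) true (nat_lit 6) (V.cons (nat_lit 432) false (nat_lit 3) (V.cons (nat_lit 434) true (nat_lit 6) (V.cons (nat_lit 436) false (nat_lit 4) (V.cons (nat_lit 440) false (nat_lit 2) (V.cons (nat_lit 442) true (nat_lit 2) V.nil))))))) (Rw.rw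 (nat_lit 0) (nat_lit 0) (Ct.cons true (nat_lit 1) (nat_lit 0) (nat_lit 8070470323465617411) Ct.nil)))) (Tb.node (nat_lit 7434) (Tb.leaf (nat_lit 7432) (nat_lit 457) (V.cons (nat_lit 438) false (nat_lit 1) V.nil) (Rw.df (nat_lit 438) (nat_lit 0) (nat_lit 0))) (Tb.leaf (nat_lit 7434) (nat_lit 488) (V.cons (nat_lit 466) false (nat_lit 3) V.nil) (Rw.df (nat_lit 466) (nat_lit 0) (nat_lit 1))))) tK111)
def tK113 : Tb := (Tb.node (nat_lit 7428) tK110 tK112)
def tK114 : Tb := (Tb.node (nat_lit 7458) (Tb.node (nat_lit 7456) (Tb.leaf (nat_lit 7454) (nat_lit 575) (V.cons (nat_lit 482) true (nat_lit 47) (V.cons (nat_lit 484) false (nat_lit 21) (V.cons (nat_lit 488) true (nat_lit 10) (V.cons (nat_lit 490) false (nat_lit 49) (V.cons (nat_lit 492) false (nat_lit 63) (V.cons (nat_lit 494) true (nat_lit 29) (V.cons (nat_lit 496) false (nat_lit 137) (V.cons (nat_lit 498) true (nat_lit 137) (V.cons (nat_lit 500) true (nat_lit 41) (V.cons (nat_lit 502) true (nat_lit 30) (V.cons (nat_lit 504) false (nat_lit 10) (V.cons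 (nat_lit 506) false (nat_lit 197) (V.cons (nat_lit 508) false (nat_lit 137) (V.cons (nat_lit 510) false (nat_lit 190) (V.cons (nat_lit 512) false (nat_lit 7) (V.cons (nat_lit 514) false (nat_lit 2) (V.cons (nat_lit 516) true (nat_lit 137) V.nil))))))))))))))))) (Rw.rw (nat_lit 0) (nat_lit 0) (Ct.cons false (nat_lit 1) (nat_lit 0) (nat_lit 8070468124452847621) Ct.nil))) (Tb.leaf (nat_lit 7456) (nat_lit 554) (V.cons (nat_lit 512) false (nat_lit 3) V.nil) (Rw.df (nat_lit 512) (nat_lit 0) (nat_lit 1)))) (Tb.node (nat_lit 7460) (Tb.leaf (nat_lit 7458) (nat_lit 555) (V.cons (nat_lit 514) false (nat_lit 6) V.nil) (Rw.df (nat_lit 514) (nat_lit 1) (nat_lit 1))) (Tb.node (nat_lit 7462) (Tb.leaf (nat_lit 7460) (nat_lit 593) (V.cons (nat_lit 482) false (nat_lit 74) (V.cons (nat_lit 484) true (nat_lit 37) (V.cons (nat_lit 486) true (nat_lit 2) (V.cons (nat_lit 488) false (nat_lit 11) (V.cons (nat_lit 490) true (nat_lit 72) (V.cons (nat_lit 492) true (nat_lit 107) (V.cons (nat_lit 494) false (nat_lit 44) (V.cons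 (nat_lit 496) true (nat_lit 208) (V.cons (nat_lit 498) false (nat_lit 220) (V.cons (nat_lit 500) false (nat_lit 68) (V.cons (nat_lit 502) false (nat_lit 41) (V.cons (nat_lit 504) true (nat_lit 17) (V.cons (nat_lit 506) true (nat_lit 286) (V.cons (nat_lit 508) true (nat_lit 226) (V.cons (nat_lit 510) true (nat_lit 293) (V.cons (nat_lit 512) true (nat_lit 8) (V.cons (nat_lit 514) true (nat_lit 7) (V.cons (nat_lit 516) false (nat_lit 190) V.nil)))))))))))))))))) (Rw.rw (nat_lit 0) (nat_lit 0) (Ct.cons false (nat_lit 1) (nat_lit 0) (nat_lit 61104845241728368645) Ct.nil))) (Tb.leaf (nat_lit 7462) (nat_lit 587) (V.cons (nat_lit 482) true (nat_lit 26) (V.cons (nat_lit 484) false (nat_lit 7) (V.cons (nat_lit 486) true (nat_lit 4) (V.cons (nat_lit 488) true (nat_lit 11) (V.cons (nat_lit 490) false (nat_lit 24) (V.cons (nat_lit 492) false (nat_lit 29) (V.cons (nat_lit 494) true (nat_lit 32) (V.cons (nat_lit 496) false (nat_lit 136) (V.cons (nat_lit 498) true (nat_lit 112) (V.cons (nat_lit 500) true (nat_lit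 30) (V.cons (nat_lit 502) true (nat_lit 11) (V.cons (nat_lit 504) false (nat_lit 5) (V.cons (nat_lit 506) false (nat_lit 130) (V.cons (nat_lit 508) false (nat_lit 106) (V.cons (nat_lit 510) false (nat_lit 107) (V.cons (nat_lit 512) false (nat_lit 23) (V.cons (nat_lit 514) true (nat_lit 29) (V.cons (nat_lit 516) true (nat_lit 112) V.nil)))))))))))))))))) (Rw.rw (nat_lit 0) (nat_lit 0) (Ct.cons true (nat_lit 1) (nat_lit 0) (nat_lit 8070508806369443845) Ct.nil))))))
def tK115 : Tb := (Tb.node (nat_lit 7454) (Tb.node (nat_lit 7450) (Tb.node (nat_lit 7448) (Tb.leaf (nat_lit 7446) (nat_lit 525) (V.cons (nat_lit 444) false (nat_lit 18) (V.cons (nat_lit 446) true (nat_lit 19) (V.cons (nat_lit 448) true (nat_lit 147) (V.cons (nat_lit 450) true (nat_lit 25) (V.cons (nat_lit 452) false (nat_lit 48) (V.cons (nat_lit 454) true (nat_lit 96) (V.cons (nat_lit 456) false (nat_lit 75) (V.cons (nat_lit 458) true (nat_lit 12) (V.cons (nat_lit 460) false (nat_lit 28) (V.cons (nat_lit 462) false (nat_lit 48) (V.cons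 (nat_lit 464) true (nat_lit 36) (V.cons (nat_lit 466) true (nat_lit 78) (V.cons (nat_lit 468) false (nat_lit 60) (V.cons (nat_lit 470) false (nat_lit 21) (V.cons (nat_lit 472) true (nat_lit 48) (V.cons (nat_lit 474) false (nat_lit 27) (V.cons (nat_lit 476) true (nat_lit 75) (V.cons (nat_lit 478) false (nat_lit 69) (V.cons (nat_lit 480) true (nat_lit 75) V.nil))))))))))))))))))) (Rw.rw (nat_lit 0) (nat_lit 0) (Ct.cons true (nat_lit 1) (nat_lit 0) (nat_lit 11529222742668738563) Ct.nil))) (Tb.leaf (nat_lit 7448) (nat_lit 523) (V.cons (nat_lit 444) false (nat_lit 41) (V.cons (nat_lit 446) true (nat_lit 43) (V.cons (nat_lit 448) true (nat_lit 339) (V.cons (nat_lit 450) true (nat_lit 51) (V.cons (nat_lit 452) false (nat_lit 108) (V.cons (nat_lit 454) true (nat_lit 225) (V.cons (nat_lit 456) false (nat_lit 173) (V.cons (nat_lit 458) true (nat_lit 30) (V.cons (nat_lit 460) false (nat_lit 63) (V.cons (nat_lit 462) false (nat_lit 107) (V.cons (nat_lit 464) true (nat_lit 75) (V.cons (nat_lit 466) true (nat_lit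 180) (V.cons (nat_lit 468) false (nat_lit 135) (V.cons (nat_lit 470) false (nat_lit 45) (V.cons (nat_lit 472) true (nat_lit 108) (V.cons (nat_lit 474) false (nat_lit 60) (V.cons (nat_lit 476) true (nat_lit 171) (V.cons (nat_lit 478) false (nat_lit 165) (V.cons (nat_lit 480) true (nat_lit 174) V.nil))))))))))))))))))) (Rw.rw (nat_lit 0) (nat_lit 0) (Ct.cons true (nat_lit 1) (nat_lit 0) (nat_lit 8070458228880703491) Ct.nil)))) (Tb.node (nat_lit 7452) (Tb.leaf (nat_lit 7450) (nat_lit 491) (V.cons (nat_lit 472) false (nat_lit 3) V.nil) (Rw.df (nat_lit 472) (nat_lit 0) (nat_lit 1))) (Tb.leaf (nat_lit 7452) (nat_lit 500) (V.cons (nat_lit 444) false (nat_lit 24) (V.cons (nat_lit 446) true (nat_lit 23) (V.cons (nat_lit 448) true (nat_lit 186) (V.cons (nat_lit 450) true (nat_lit 24) (V.cons (nat_lit 452) false (nat_lit 48) (V.cons (nat_lit 454) true (nat_lit 114) (V.cons (nat_lit 456) false (nat_lit 96) (V.cons (nat_lit 458) true (nat_lit 21) (V.cons (nat_lit 460) false (nat_lit 34) (V.cons (nat_lit 462)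 false (nat_lit 57) (V.cons (nat_lit 464) true (nat_lit 36) (V.cons (nat_lit 466) true (nat_lit 102) (V.cons (nat_lit 468) false (nat_lit 78) (V.cons (nat_lit 470) false (nat_lit 18) (V.cons (nat_lit 472) true (nat_lit 54) (V.cons (nat_lit 474) false (nat_lit 34) (V.cons (nat_lit 476) true (nat_lit 96) (V.cons (nat_lit 478) false (nat_lit 81) (V.cons (nat_lit 480) true (nat_lit 87) V.nil))))))))))))))))))) (Rw.rw (nat_lit 1) (nat_lit 0) (Ct.cons true (nat_lit 76) (nat_lit 0) (nat_lit 51881475403894751235) (Ct.cons true (nat_lit 84) (nat_lit 0) (nat_lit 16140912059615281155) (Ct.cons true (nat_lit 204) (nat_lit 0) (nat_lit 40352255959781867523) (Ct.cons false (nat_lit 46) (nat_lit 0) (nat_lit 5764622916211703811) (Ct.cons false (nat_lit 18) (nat_lit 0) (nat_lit 51881473204873592835) (Ct.cons true (nat_lit 76) (nat_lit 0) (nat_lit 5764657001064824835) (Ct.cons false (nat_lit 63) (nat_lit 0) (nat_lit 20752594779519320069) (Ct.cons false (nat_lit 276) (nat_lit 0) (nat_lit 11529230439234404355) (Ct.cons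 true (nat_lit 140) (nat_lit 0) (nat_lit 38046415149587234819) (Ct.cons false (nat_lit 140) (nat_lit 0) (nat_lit 16140920855712497669) (Ct.cons true (nat_lit 192) (nat_lit 0) (nat_lit 40352260357824184323) (Ct.cons true (nat_lit 140) (nat_lit 0) (nat_lit 8070461527383080963) (Ct.cons true (nat_lit 74) (nat_lit 0) (nat_lit 16140918656689242115) (Ct.cons true (nat_lit 35) (nat_lit 0) (nat_lit 5764643806921097219) (Ct.cons false (nat_lit 31) (nat_lit 0) (nat_lit 5764615219662815235) (Ct.cons true (nat_lit 32) (nat_lit 0) (nat_lit 54187318413108445187) (Ct.cons true (nat_lit 28) (nat_lit 0) (nat_lit 8070491214181302275) (Ct.cons true (nat_lit 172) (nat_lit 0) (nat_lit 5764659200088080387) (Ct.cons true (nat_lit 210) (nat_lit 0) (nat_lit 20752594779515125763) (Ct.cons false (nat_lit 52) (nat_lit 0) (nat_lit 61104847440751624197) (Ct.cons true (nat_lit 74) (nat_lit 0) (nat_lit 18446763864926191623) (Ct.cons false (nat_lit 62) (nat_lit 0) (nat_lit 16140904363041226755) (Ct.cons false (nat_lit 52) (nat_lit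 0) (nat_lit 8070456029855350787) (Ct.cons true (nat_lit 78) (nat_lit 0) (nat_lit 28823040913709203459) (Ct.cons true (nat_lit 68) (nat_lit 0) (nat_lit 35740569941352382467) (Ct.cons true (nat_lit 29) (nat_lit 0) (nat_lit 5764641607897841667) (Ct.cons false (nat_lit 19) (nat_lit 0) (nat_lit 8070489015158046723) (Ct.cons true (nat_lit 93) (nat_lit 0) (nat_lit 16140906562068676611) (Ct.cons true (nat_lit 2) (nat_lit 1) (nat_lit 3626780917623794514788357) (Ct.cons false (nat_lit 42) (nat_lit 0) (nat_lit 8070465925429592069) (Ct.cons false (nat_lit 42) (nat_lit 0) (nat_lit 54187316214087286787) (Ct.cons true (nat_lit 31) (nat_lit 0) (nat_lit 16140908761094029315) (Ct.cons true (nat_lit 66) (nat_lit 0) (nat_lit 44963946376251572227) (Ct.cons false (nat_lit 39) (nat_lit 0) (nat_lit 38046412950566076419) (Ct.cons true (nat_lit 18) (nat_lit 1) (nat_lit 8462484196082311211515907) (Ct.cons false (nat_lit 13) (nat_lit 1) (nat_lit 3626780917617197442924547) (Ct.cons true (nat_lit 26) (nat_lit 0) (nat_lit 8070508806371540997)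 (Ct.cons false (nat_lit 65) (nat_lit 0) (nat_lit 9223389629043965955) (Ct.cons true (nat_lit 26) (nat_lit 0) (nat_lit 18446752869805719555) (Ct.cons true (nat_lit 3) (nat_lit 1) (nat_lit 8462484196086709260124165) (Ct.cons false (nat_lit 7) (nat_lit 1) (nat_lit 3626780917619396468277251) Ct.nil))))))))))))))))))))))))))))))))))))))))))))) tK114)
def tK116 : Tb := (Tb.node (nat_lit 8203) (Tb.node (nat_lit 8201) (Tb.leaf (nat_lit 7464) (nat_lit 556) (V.cons (nat_lit 516) false (nat_lit 6) V.nil) (Rw.df (nat_lit 516) (nat_lit 1) (nat_lit 1))) (Tb.leaf (nat_lit 8201) (nat_lit 26) (V.cons (nat_lit 54) false (nat_lit 1) (V.cons (nat_lit 56) true (nat_lit 1) V.nil)) (Rw.rw (nat_lit 0) (nat_lit 0) (Ct.cons false (nat_lit 1) (nat_lit 0) (nat_lit 8070458228836663301) Ct.nil)))) (Tb.node (nat_lit 8205) (Tb.leaf (nat_lit 8203) (nat_lit 31) (V.cons (nat_lit 62) false (nat_lit 2) (V.cons (nat_lit 64) true (nat_lit 2) V.nil)) (Rw.rw (nat_lit 0) (nat_lit 0) (Ct.cons false (nat_lit 1) (nat_lit 0) (nat_lit 8070456029813407749)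 Ct.nil))) (Tb.node (nat_lit 8207) (Tb.leaf (nat_lit 8205) (nat_lit 35) (V.cons (nat_lit 66) false (nat_lit 1) (V.cons (nat_lit 68) true (nat_lit 1) V.nil)) (Rw.rw (nat_lit 0) (nat_lit 0) (Ct.cons false (nat_lit 1) (nat_lit 0) (nat_lit 8070458228836663299) Ct.nil))) (Tb.leaf (nat_lit 8207) (nat_lit 42) (V.cons (nat_lit 72) false (nat_lit 1) (V.cons (nat_lit 76) false (nat_lit 1) (V.cons (nat_lit 78) true (nat_lit 1) (V.cons (nat_lit 80) true (nat_lit 1) V.nil)))) (Rw.rw (nat_lit 0) (nat_lit 0) (Ct.cons false (nat_lit 1) (nat_lit 0) (nat_lit 8070456029813407747) Ct.nil))))))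
def tK117 : Tb := (Tb.node (nat_lit 8220) (Tb.node (nat_lit 8218) (Tb.leaf (nat_lit 8209) (nat_lit 58) (V.cons (nat_lit 98) false (nat_lit 2) (V.cons (nat_lit 100) true (nat_lit 2) V.nil)) (Rw.rw (nat_lit 0) (nat_lit 0) (Ct.cons false (nat_lit 1) (nat_lit 0) (nat_lit 8070453830790152195) Ct.nil))) (Tb.leaf (nat_lit 8218) (nat_lit 90) (V.cons (nat_lit 135) false (nat_lit 1) (V.cons (nat_lit 137) true (nat_lit 1) (V.cons (nat_lit 141) true (nat_lit 1) V.nil))) (Rw.rw (nat_lit 0) (nat_lit 0) (Ct.cons true (nat_lit 1) (nat_lit 0) (nat_lit 8070459328346193925) Ct.nil)))) (Tb.node (nat_lit 8226) (Tb.leaf (nat_lit 8220) (nat_lit 88) (V.cons (nat_lit 137) false (nat_lit 2) (V.cons (nat_lit 139) true (nat_lit 2) (V.cons (nat_lit 143) true (nat_lit 1) V.nil))) (Rw.rw (nat_lit 0) (nat_lit 0) (Ct.cons true (nat_lit 1) (nat_lit 0) (nat_lit 13835065751870898183) Ct.nil))) (Tb.node (nat_lit 8228) (Tb.leaf (nat_lit 8226) (nat_lit 100) (V.cons (nat_lit 161) false (nat_lit 1) V.nil) (Rw.df (nat_lit 161) (nat_lit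 0) (nat_lit 0))) (Tb.leaf (nat_lit 8228) (nat_lit 105) (V.cons (nat_lit 147) false (nat_lit 1) (V.cons (nat_lit 149) false (nat_lit 2) (V.cons (nat_lit 151) true (nat_lit 1) (V.cons (nat_lit 153) true (nat_lit 2) (V.cons (nat_lit 161) true (nat_lit 1) (V.cons (nat_lit 163) true (nat_lit 2) V.nil)))))) (Rw.rw (nat_lit 0) (nat_lit 0) (Ct.cons false (nat_lit 1) (nat_lit 0) (nat_lit 8070458228839809027) (Ct.cons true (nat_lit 1) (nat_lit 0) (nat_lit 8070459328346193923) (Ct.cons true (nat_lit 1) (nat_lit 0) (nat_lit 8070461527371546627) (Ct.cons true (nat_lit 1) (nat_lit 0) (nat_lit 16140908761084592133) Ct.nil)))))))))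
def tK118 : Tb := (Tb.node (nat_lit 8209) tK116 tK117)
def tK119 : Tb := (Tb.node (nat_lit 7464) tK115 tK118)
def tK120 : Tb := (Tb.node (nat_lit 7446) tK113 tK119)
def tK121 : Tb := (Tb.node (nat_lit 8242) (Tb.node (nat_lit 8240) (Tb.leaf (nat_lit 8238) (nat_lit 148) (V.cons (nat_lit 191) false (nat_lit 1) (V.cons (nat_lit 195) true (nat_lit 1) (V.cons (nat_lit 201) true (nat_lit 1) V.nil))) (Rw.rw (nat_lit 0) (nat_lit 0) (Ct.cons true (nat_lit 1) (nat_lit 0) (nat_lit 20752594779511980039) Ct.nil))) (Tb.leaf (nat_lit 8240) (nat_lit 168) (V.cons (nat_lit 203) true (nat_lit 1) (V.cons (nat_lit 205) false (nat_lit 2) (V.cons (nat_lit 207) false (nat_lit 2) (V.cons (nat_lit 209) true (nat_lit 1) (V.cons (nat_lit 211) false (nat_lit 1) (V.cons (nat_lit 213) false (nat_lit 3) (V.cons (nat_lit 217) true (nat_lit 4) (V.cons (nat_lit 219) true (nat_lit 1) (V.cons (nat_lit 223) true (nat_lit 1) (V.cons (nat_lit 225) true (nat_lit 3) (V.cons (nat_lit 227) false (nat_lit 2) V.nil))))))))))) (Rw.rw (nat_lit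 0) (nat_lit 0) (Ct.cons true (nat_lit 1) (nat_lit 0) (nat_lit 5764616319130402819) Ct.nil)))) (Tb.node (nat_lit 8244) (Tb.leaf (nat_lit 8242) (nat_lit 166) (V.cons (nat_lit 205) true (nat_lit 1) (V.cons (nat_lit 207) false (nat_lit 1) (V.cons (nat_lit 209) false (nat_lit 2) (V.cons (nat_lit 211) false (nat_lit 2) (V.cons (nat_lit 213) true (nat_lit 1) (V.cons (nat_lit 215) true (nat_lit 1) (V.cons (nat_lit 219) true (nat_lit 1) (V.cons (nat_lit 223) true (nat_lit 1) (V.cons (nat_lit 225) true (nat_lit 1) V.nil))))))))) (Rw.rw (nat_lit 0) (nat_lit 0) (Ct.cons true (nat_lit 1) (nat_lit 0) (nat_lit 9223377534416060419) Ct.nil))) (Tb.node (nat_lit 8275) (Tb.leaf (nat_lit 8244) (nat_lit 205) (V.cons (nat_lit 263) false (nat_lit 1) V.nil) (Rw.df (nat_lit 263) (nat_lit 0) (nat_lit 0))) (Tb.leaf (nat_lit 8275) (nat_lit 266) (V.cons (nat_lit 300) false (nat_lit 4) (V.cons (nat_lit 302) true (nat_lit 6) (V.cons (nat_lit 306) true (nat_lit 3) (V.cons (nat_lit 308) false (nat_lit 1) (V.cons (nat_lit 310) true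 (nat_lit 5) (V.cons (nat_lit 312) false (nat_lit 3) (V.cons (nat_lit 314) false (nat_lit 15) (V.cons (nat_lit 316) true (nat_lit 3) (V.cons (nat_lit 318) true (nat_lit 6) (V.cons (nat_lit 320) true (nat_lit 6) (V.cons (nat_lit 322) true (nat_lit 1) (V.cons (nat_lit 324) false (nat_lit 9) (V.cons (nat_lit 326) false (nat_lit 3) (V.cons (nat_lit 328) false (nat_lit 1) (V.cons (nat_lit 330) true (nat_lit 9) (V.cons (nat_lit 332) true (nat_lit 6) (V.cons (nat_lit 334) false (nat_lit 1) V.nil))))))))))))))))) (Rw.rw (nat_lit 2) (nat_lit 0) (Ct.cons true (nat_lit 2) (nat_lit 0) (nat_lit 8070458228866023429) (Ct.cons false (nat_lit 7) (nat_lit 0) (nat_lit 11529222742660349955) (Ct.cons false (nat_lit 12) (nat_lit 0) (nat_lit 8070478020043866115) (Ct.cons false (nat_lit 12) (nat_lit 0) (nat_lit 28823043112736653315) (Ct.cons false (nat_lit 2) (nat_lit 0) (nat_lit 9223383031976296451) (Ct.cons false (nat_lit 2) (nat_lit 0) (nat_lit 18446751770301431815) (Ct.cons true (nat_lit 6) (nat_lit 0) (nat_lit 16140908761087737861)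 (Ct.cons false (nat_lit 6) (nat_lit 0) (nat_lit 8070480219069218819) (Ct.cons true (nat_lit 6) (nat_lit 0) (nat_lit 11529232638261854215) (Ct.cons false (nat_lit 6) (nat_lit 0) (nat_lit 44963946376255766533) (Ct.cons true (nat_lit 2) (nat_lit 0) (nat_lit 18446755068833169415) (Ct.cons false (nat_lit 6) (nat_lit 0) (nat_lit 40352260357828378629) (Ct.cons true (nat_lit 3) (nat_lit 0) (nat_lit 5764630612783661059) (Ct.cons true (nat_lit 3) (nat_lit 0) (nat_lit 24211357094307168259) (Ct.cons false (nat_lit 3) (nat_lit 0) (nat_lit 16140909860594122757) (Ct.cons true (nat_lit 6) (nat_lit 0) (nat_lit 5764615219641843715) (Ct.cons true (nat_lit 6) (nat_lit 0) (nat_lit 8070486816136888325) (Ct.cons true (nat_lit 3) (nat_lit 0) (nat_lit 9223385231001649155) (Ct.cons false (nat_lit 3) (nat_lit 0) (nat_lit 5764613020614393859) (Ct.cons false (nat_lit 2) (nat_lit 1) (nat_lit 8462488807763931592392707) (Ct.cons false (nat_lit 2) (nat_lit 0) (nat_lit 11529220543634997251) (Ct.cons false (nat_lit 1) (nat_lit 1)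 (nat_lit 8462486501920922380795907) (Ct.cons false (nat_lit 6) (nat_lit 0) (nat_lit 13835073448452292615) (Ct.cons true (nat_lit 6) (nat_lit 0) (nat_lit 33434731330187296771) (Ct.cons true (nat_lit 3) (nat_lit 0) (nat_lit 16140906562062385157) (Ct.cons true (nat_lit 3) (nat_lit 0) (nat_lit 9223387430022807557) (Ct.cons true (nat_lit 2) (nat_lit 0) (nat_lit 5764635010832269315) (Ct.cons false (nat_lit 2) (nat_lit 1) (nat_lit 8462484196077913167101957) Ct.nil)))))))))))))))))))))))))))))))))
def tK122 : Tb := (Tb.node (nat_lit 8238) (Tb.node (nat_lit 8234) (Tb.node (nat_lit 8232) (Tb.leaf (nat_lit 8230) (nat_lit 104) (V.cons (nat_lit 145) false (nat_lit 1) (V.cons (nat_lit 153) false (nat_lit 2) (V.cons (nat_lit 155) true (nat_lit 1) (V.cons (nat_lit 159) true (nat_lit 2) (V.cons (nat_lit 161) false (nat_lit 1) V.nil))))) (Rw.rw (nat_lit 0) (nat_lit 0) (Ct.cons true (nat_lit 1) (nat_lit 0) (nat_lit 18446751770298286087) (Ct.cons false (nat_lit 1) (nat_lit 0) (nat_lit 8070456029814456323) (Ct.cons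 false (nat_lit 1) (nat_lit 0) (nat_lit 16140908761084592133) (Ct.cons true (nat_lit 1) (nat_lit 0) (nat_lit 11529222742657204227) Ct.nil)))))) (Tb.leaf (nat_lit 8232) (nat_lit 130) (V.cons (nat_lit 165) true (nat_lit 1) (V.cons (nat_lit 169) false (nat_lit 1) (V.cons (nat_lit 171) false (nat_lit 1) (V.cons (nat_lit 173) false (nat_lit 1) (V.cons (nat_lit 175) true (nat_lit 1) (V.cons (nat_lit 181) false (nat_lit 1) (V.cons (nat_lit 183) true (nat_lit 2) (V.cons (nat_lit 185) true (nat_lit 1) (V.cons (nat_lit 187) false (nat_lit 1) V.nil))))))))) (Rw.rw (nat_lit 0) (nat_lit 0) (Ct.cons true (nat_lit 1) (nat_lit 0) (nat_lit 8070463726394802179) Ct.nil)))) (Tb.node (nat_lit 8236) (Tb.leaf (nat_lit 8234) (nat_lit 127) (V.cons (nat_lit 171) false (nat_lit 1) (V.cons (nat_lit 173) false (nat_lit 1) (V.cons (nat_lit 175) true (nat_lit 1) (V.cons (nat_lit 181) true (nat_lit 1) (V.cons (nat_lit 185) false (nat_lit 1) (V.cons (nat_lit 187) false (nat_lit 1) V.nil)))))) (Rw.rw (nat_lit 0) (nat_lit 0) (Ct.cons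 true (nat_lit 1) (nat_lit 0) (nat_lit 8070468124441313285) Ct.nil))) (Tb.leaf (nat_lit 8236) (nat_lit 146) (V.cons (nat_lit 193) false (nat_lit 2) (V.cons (nat_lit 197) true (nat_lit 1) (V.cons (nat_lit 199) true (nat_lit 1) (V.cons (nat_lit 201) false (nat_lit 1) V.nil)))) (Rw.rw (nat_lit 0) (nat_lit 0) (Ct.cons true (nat_lit 1) (nat_lit 0) (nat_lit 8070459328344096771) Ct.nil))))) tK121)
def tK123 : Tb := (Tb.node (nat_lit 8281) (Tb.node (nat_lit 8279) (Tb.leaf (nat_lit 8277) (nat_lit 281) (V.cons (nat_lit 298) true (nat_lit 24) (V.cons (nat_lit 300) true (nat_lit 8) (V.cons (nat_lit 302) false (nat_lit 174) (V.cons (nat_lit 304) true (nat_lit 18) (V.cons (nat_lit 306) true (nat_lit 54) (V.cons (nat_lit 308) false (nat_lit 30) (V.cons (nat_lit 310) false (nat_lit 77) (V.cons (nat_lit 312) true (nat_lit 222) (V.cons (nat_lit 314) false (nat_lit 60) (V.cons (nat_lit 316) false (nat_lit 78) (V.cons (nat_lit 318) false (nat_lit 18) (V.cons (nat_lit 320) false (nat_lit 138) (V.cons (nat_lit 322) false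 (nat_lit 14) (V.cons (nat_lit 324) true (nat_lit 246) (V.cons (nat_lit 326) true (nat_lit 33) (V.cons (nat_lit 328) true (nat_lit 14) (V.cons (nat_lit 330) false (nat_lit 156) (V.cons (nat_lit 332) false (nat_lit 300) (V.cons (nat_lit 334) false (nat_lit 1) V.nil))))))))))))))))))) (Rw.rw (nat_lit 0) (nat_lit 0) (Ct.cons false (nat_lit 1) (nat_lit 0) (nat_lit 8070489015162241029) Ct.nil))) (Tb.leaf (nat_lit 8279) (nat_lit 295) (V.cons (nat_lit 298) true (nat_lit 29) (V.cons (nat_lit 300) true (nat_lit 12) (V.cons (nat_lit 302) false (nat_lit 206) (V.cons (nat_lit 304) true (nat_lit 22) (V.cons (nat_lit 306) true (nat_lit 62) (V.cons (nat_lit 308) false (nat_lit 35) (V.cons (nat_lit 310) false (nat_lit 96) (V.cons (nat_lit 312) true (nat_lit 266) (V.cons (nat_lit 314) false (nat_lit 65) (V.cons (nat_lit 316) false (nat_lit 98) (V.cons (nat_lit 318) false (nat_lit 24) (V.cons (nat_lit 320) false (nat_lit 167) (V.cons (nat_lit 322) false (nat_lit 18) (V.cons (nat_lit 324) true (nat_lit 310) (V.cons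 (nat_lit 326) true (nat_lit 34) (V.cons (nat_lit 328) true (nat_lit 18) (V.cons (nat_lit 330) false (nat_lit 196) (V.cons (nat_lit 332) false (nat_lit 374) (V.cons (nat_lit 334) false (nat_lit 1) V.nil))))))))))))))))))) (Rw.rw (nat_lit 1) (nat_lit 0) (Ct.cons true (nat_lit 1) (nat_lit 1) (nat_lit 6044632556846455794434053) Ct.nil)))) (Tb.node (nat_lit 8283) (Tb.leaf (nat_lit 8281) (nat_lit 291) (V.cons (nat_lit 298) true (nat_lit 36) (V.cons (nat_lit 300) true (nat_lit 13) (V.cons (nat_lit 302) false (nat_lit 256) (V.cons (nat_lit 304) true (nat_lit 27) (V.cons (nat_lit 306) true (nat_lit 79) (V.cons (nat_lit 308) false (nat_lit 44) (V.cons (nat_lit 310) false (nat_lit 114) (V.cons (nat_lit 312) true (nat_lit 328) (V.cons (nat_lit 314) false (nat_lit 88) (V.cons (nat_lit 316) false (nat_lit 109) (V.cons (nat_lit 318) false (nat_lit 33) (V.cons (nat_lit 320) false (nat_lit 211) (V.cons (nat_lit 322) false (nat_lit 18) (V.cons (nat_lit 324) true (nat_lit 365) (V.cons (nat_lit 326) true (nat_lit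 62) (V.cons (nat_lit 328) true (nat_lit 18) (V.cons (nat_lit 330) false (nat_lit 236) (V.cons (nat_lit 332) false (nat_lit 445) (V.cons (nat_lit 334) false (nat_lit 1) V.nil))))))))))))))))))) (Rw.rw (nat_lit 0) (nat_lit 0) (Ct.cons true (nat_lit 1) (nat_lit 0) (nat_lit 18446751770299334661) Ct.nil))) (Tb.node (nat_lit 8285) (Tb.leaf (nat_lit 8283) (nat_lit 294) (V.cons (nat_lit 298) true (nat_lit 7) (V.cons (nat_lit 300) true (nat_lit 3) (V.cons (nat_lit 302) false (nat_lit 56) (V.cons (nat_lit 304) true (nat_lit 5) (V.cons (nat_lit 306) true (nat_lit 17) (V.cons (nat_lit 308) false (nat_lit 9) (V.cons (nat_lit 310) false (nat_lit 26) (V.cons (nat_lit 312) true (nat_lit 80) (V.cons (nat_lit 314) false (nat_lit 23) (V.cons (nat_lit 316) false (nat_lit 20) (V.cons (nat_lit 318) false (nat_lit 9) (V.cons (nat_lit 320) false (nat_lit 44) (V.cons (nat_lit 322) false (nat_lit 3) (V.cons (nat_lit 324) true (nat_lit 70) (V.cons (nat_lit 326) true (nat_lit 22) (V.cons (nat_lit 328) true (nat_lit 3) (V.cons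 (nat_lit 330) false (nat_lit 49) (V.cons (nat_lit 332) false (nat_lit 89) (V.cons (nat_lit 334) false (nat_lit 1) V.nil))))))))))))))))))) (Rw.rw (nat_lit 0) (nat_lit 0) (Ct.cons false (nat_lit 1) (nat_lit 1) (nat_lit 6044634862689465008128003) Ct.nil))) (Tb.leaf (nat_lit 8285) (nat_lit 278) (V.cons (nat_lit 298) true (nat_lit 16) (V.cons (nat_lit 300) true (nat_lit 3) (V.cons (nat_lit 302) false (nat_lit 102) (V.cons (nat_lit 304) true (nat_lit 12) (V.cons (nat_lit 306) true (nat_lit 36) (V.cons (nat_lit 308) false (nat_lit 20) (V.cons (nat_lit 310) false (nat_lit 46) (V.cons (nat_lit 312) true (nat_lit 138) (V.cons (nat_lit 314) false (nat_lit 48) (V.cons (nat_lit 316) false (nat_lit 48) (V.cons (nat_lit 318) false (nat_lit 9) (V.cons (nat_lit 320) false (nat_lit 90) (V.cons (nat_lit 322) false (nat_lit 8) (V.cons (nat_lit 324) true (nat_lit 162) (V.cons (nat_lit 326) true (nat_lit 18) (V.cons (nat_lit 328) true (nat_lit 8) (V.cons (nat_lit 330) false (nat_lit 99) (V.cons (nat_lit 332) false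 (nat_lit 198) V.nil)))))))))))))))))) (Rw.rw (nat_lit 0) (nat_lit 0) (Ct.cons true (nat_lit 1) (nat_lit 0) (nat_lit 9223383031976296451) Ct.nil))))))
def tK124 : Tb := (Tb.node (nat_lit 8297) (Tb.node (nat_lit 8295) (Tb.leaf (nat_lit 8293) (nat_lit 325) (V.cons (nat_lit 340) false (nat_lit 21) (V.cons (nat_lit 344) true (nat_lit 42) (V.cons (nat_lit 348) true (nat_lit 6) (V.cons (nat_lit 350) true (nat_lit 21) (V.cons (nat_lit 352) true (nat_lit 18) (V.cons (nat_lit 356) false (nat_lit 6) (V.cons (nat_lit 360) true (nat_lit 1) (V.cons (nat_lit 362) false (nat_lit 3) (V.cons (nat_lit 364) true (nat_lit 12) (V.cons (nat_lit 366) true (nat_lit 12) (V.cons (nat_lit 368) false (nat_lit 12) (V.cons (nat_lit 370) false (nat_lit 9) V.nil)))))))))))) (Rw.rw (nat_lit 0) (nat_lit 0) (Ct.cons true (nat_lit 1) (nat_lit 0) (nat_lit 40352260357828378627) (Ct.cons true (nat_lit 1) (nat_lit 1) (nat_lit 8462484196077913167101955) (Ct.cons true (nat_lit 1) (nat_lit 0) (nat_lit 8070461527378886659) (Ct.cons false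 (nat_lit 3) (nat_lit 0) (nat_lit 11529230439238598659) (Ct.cons false (nat_lit 3) (nat_lit 0) (nat_lit 8070465925421203459) (Ct.cons true (nat_lit 1) (nat_lit 0) (nat_lit 11529223842164637699) (Ct.cons false (nat_lit 1) (nat_lit 0) (nat_lit 8070458228866023427) (Ct.cons false (nat_lit 3) (nat_lit 0) (nat_lit 11529222742664544259) Ct.nil)))))))))) (Tb.leaf (nat_lit 8295) (nat_lit 344) (V.cons (nat_lit 336) true (nat_lit 8) (V.cons (nat_lit 338) true (nat_lit 3) (V.cons (nat_lit 340) false (nat_lit 233) (V.cons (nat_lit 342) false (nat_lit 12) (V.cons (nat_lit 344) true (nat_lit 550) (V.cons (nat_lit 348) true (nat_lit 26) (V.cons (nat_lit 350) true (nat_lit 239) (V.cons (nat_lit 352) true (nat_lit 166) (V.cons (nat_lit 354) true (nat_lit 3) (V.cons (nat_lit 356) false (nat_lit 55) (V.cons (nat_lit 358) false (nat_lit 2) (V.cons (nat_lit 362) false (nat_lit 29) (V.cons (nat_lit 364) true (nat_lit 130) (V.cons (nat_lit 366) true (nat_lit 136) (V.cons (nat_lit 368) false (nat_lit 131) (V.cons (nat_lit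 370) false (nat_lit 100) (V.cons (nat_lit 372) true (nat_lit 18) V.nil))))))))))))))))) (Rw.rw (nat_lit 3) (nat_lit 1) (Ct.cons true (nat_lit 73) (nat_lit 0) (nat_lit 5764622916205412355) (Ct.cons true (nat_lit 73) (nat_lit 0) (nat_lit 8070458228876509189) (Ct.cons false (nat_lit 551) (nat_lit 0) (nat_lit 11529230439238598659) (Ct.cons false (nat_lit 523) (nat_lit 0) (nat_lit 8070465925421203459) (Ct.cons true (nat_lit 318) (nat_lit 0) (nat_lit 11529223842164637699) (Ct.cons false (nat_lit 305) (nat_lit 0) (nat_lit 8070458228866023427) (Ct.cons true (nat_lit 239) (nat_lit 0) (nat_lit 8070489015162241027) (Ct.cons true (nat_lit 37) (nat_lit 0) (nat_lit 40352260357828378627) (Ct.cons false (nat_lit 1003) (nat_lit 0) (nat_lit 11529222742664544259) (Ct.cons true (nat_lit 137) (nat_lit 0) (nat_lit 42658103367042072579) (Ct.cons false (nat_lit 271) (nat_lit 0) (nat_lit 16140916457665986565) (Ct.cons true (nat_lit 29) (nat_lit 0) (nat_lit 8070456029840670723) (Ct.cons true (nat_lit 95) (nat_lit 0) (nat_lit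 8070486816136888323) (Ct.cons false (nat_lit 173) (nat_lit 0) (nat_lit 8070461527378886659) (Ct.cons false (nat_lit 16) (nat_lit 0) (nat_lit 5764643806925291523) (Ct.cons true (nat_lit 19) (nat_lit 0) (nat_lit 38046417348612587523) (Ct.cons false (nat_lit 70) (nat_lit 0) (nat_lit 24211354895283912707) (Ct.cons false (nat_lit 34) (nat_lit 0) (nat_lit 11529218344611741699) (Ct.cons false (nat_lit 77) (nat_lit 0) (nat_lit 24211357094305071107) (Ct.cons true (nat_lit 109) (nat_lit 0) (nat_lit 9223389629048160259) (Ct.cons false (nat_lit 81) (nat_lit 0) (nat_lit 56493161422324236295) (Ct.cons false (nat_lit 98) (nat_lit 0) (nat_lit 8070502209301774341) (Ct.cons false (nat_lit 98) (nat_lit 0) (nat_lit 28823045311755714563) (Ct.cons true (nat_lit 94) (nat_lit 0) (nat_lit 9223391828071415813) (Ct.cons true (nat_lit 147) (nat_lit 0) (nat_lit 9223383031974199299) (Ct.cons true (nat_lit 229) (nat_lit 0) (nat_lit 38046415149591429123) (Ct.cons true (nat_lit 93) (nat_lit 0) (nat_lit 8070484617113632771) (Ct.cons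 true (nat_lit 93) (nat_lit 0) (nat_lit 35740572140377735171) (Ct.cons false (nat_lit 167) (nat_lit 0) (nat_lit 8070456029838573571) (Ct.cons false (nat_lit 35) (nat_lit 0) (nat_lit 18446759466879680519) (Ct.cons true (nat_lit 7) (nat_lit 0) (nat_lit 5764615219648135171) (Ct.cons false (nat_lit 17) (nat_lit 0) (nat_lit 58799004431537930247) (Ct.cons true (nat_lit 42) (nat_lit 0) (nat_lit 18446751770305626119) (Ct.cons false (nat_lit 52) (nat_lit 0) (nat_lit 8070500010278518789) (Ct.cons true (nat_lit 18) (nat_lit 1) (nat_lit 8462484196075714141749251) (Ct.cons false (nat_lit 42) (nat_lit 0) (nat_lit 5764630612781563907) (Ct.cons false (nat_lit 54) (nat_lit 1) (nat_lit 8462488807768329638903811) (Ct.cons false (nat_lit 12) (nat_lit 1) (nat_lit 8462488807772727687512069) (Ct.cons true (nat_lit 216) (nat_lit 1) (nat_lit 8462484196077913167101955) (Ct.cons false (nat_lit 24) (nat_lit 0) (nat_lit 28823040913713397763) Ct.nil))))))))))))))))))))))))))))))))))))))))))) (Tb.node (nat_lit 8299) (Tb.leaf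 (nat_lit 8297) (nat_lit 356) (V.cons (nat_lit 336) true (nat_lit 12) (V.cons (nat_lit 338) false (nat_lit 2) (V.cons (nat_lit 340) false (nat_lit 254) (V.cons (nat_lit 342) false (nat_lit 11) (V.cons (nat_lit 344) true (nat_lit 613) (V.cons (nat_lit 348) true (nat_lit 29) (V.cons (nat_lit 350) true (nat_lit 266) (V.cons (nat_lit 352) true (nat_lit 193) (V.cons (nat_lit 354) true (nat_lit 4) (V.cons (nat_lit 356) false (nat_lit 70) (V.cons (nat_lit 358) false (nat_lit 3) (V.cons (nat_lit 360) true (nat_lit 1) (V.cons (nat_lit 362) false (nat_lit 38) (V.cons (nat_lit 364) true (nat_lit 145) (V.cons (nat_lit 366) true (nat_lit 172) (V.cons (nat_lit 368) false (nat_lit 170) (V.cons (nat_lit 370) false (nat_lit 103) (V.cons (nat_lit 372) true (nat_lit 17) V.nil)))))))))))))))))) (Rw.rw (nat_lit 0) (nat_lit 0) (Ct.cons true (nat_lit 1) (nat_lit 0) (nat_lit 18446751770299334659) Ct.nil))) (Tb.node (nat_lit 8301) (Tb.leaf (nat_lit 8299) (nat_lit 360) (V.cons (nat_lit 336) true (nat_lit 7) (V.cons (nat_lit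 340) false (nat_lit 202) (V.cons (nat_lit 342) false (nat_lit 8) (V.cons (nat_lit 344) true (nat_lit 470) (V.cons (nat_lit 348) true (nat_lit 46) (V.cons (nat_lit 350) true (nat_lit 208) (V.cons (nat_lit 352) true (nat_lit 152) (V.cons (nat_lit 354) true (nat_lit 3) (V.cons (nat_lit 356) false (nat_lit 56) (V.cons (nat_lit 358) false (nat_lit 2) (V.cons (nat_lit 362) false (nat_lit 28) (V.cons (nat_lit 364) true (nat_lit 116) (V.cons (nat_lit 366) true (nat_lit 134) (V.cons (nat_lit 368) false (nat_lit 130) (V.cons (nat_lit 370) false (nat_lit 86) (V.cons (nat_lit 372) true (nat_lit 14) V.nil)))))))))))))))) (Rw.rw (nat_lit 1) (nat_lit 0) (Ct.cons true (nat_lit 1) (nat_lit 1) (nat_lit 6044632556846455794434051) Ct.nil))) (Tb.leaf (nat_lit 8301) (nat_lit 337) (V.cons (nat_lit 336) true (nat_lit 4) (V.cons (nat_lit 338) false (nat_lit 3) (V.cons (nat_lit 340) false (nat_lit 71) (V.cons (nat_lit 342) false (nat_lit 1) (V.cons (nat_lit 344) true (nat_lit 178) (V.cons (nat_lit 348) true (nat_lit 14)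 (V.cons (nat_lit 350) true (nat_lit 77) (V.cons (nat_lit 352) true (nat_lit 58) (V.cons (nat_lit 354) true (nat_lit 1) (V.cons (nat_lit 356) false (nat_lit 31) (V.cons (nat_lit 358) false (nat_lit 1) (V.cons (nat_lit 360) true (nat_lit 2) (V.cons (nat_lit 362) false (nat_lit 11) (V.cons (nat_lit 364) true (nat_lit 40) (V.cons (nat_lit 366) true (nat_lit 64) (V.cons (nat_lit 368) false (nat_lit 59) (V.cons (nat_lit 370) false (nat_lit 34) (V.cons (nat_lit 372) true (nat_lit 4) V.nil)))))))))))))))))) (Rw.rw (nat_lit 2) (nat_lit 1) (Ct.cons false (nat_lit 10) (nat_lit 0) (nat_lit 8070502209301774341) (Ct.cons false (nat_lit 169) (nat_lit 0) (nat_lit 11529230439238598659) (Ct.cons false (nat_lit 173) (nat_lit 0) (nat_lit 8070465925421203459) (Ct.cons true (nat_lit 27) (nat_lit 0) (nat_lit 11529223842164637699) (Ct.cons false (nat_lit 22) (nat_lit 0) (nat_lit 8070458228866023427) (Ct.cons true (nat_lit 16) (nat_lit 0) (nat_lit 8070489015162241027) (Ct.cons true (nat_lit 68) (nat_lit 0) (nat_lit 40352260357828378627)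 (Ct.cons false (nat_lit 161) (nat_lit 0) (nat_lit 11529222742664544259) (Ct.cons false (nat_lit 11) (nat_lit 0) (nat_lit 8070486816136888323) (Ct.cons false (nat_lit 17) (nat_lit 0) (nat_lit 42658103367042072579) (Ct.cons true (nat_lit 13) (nat_lit 0) (nat_lit 16140916457665986565) (Ct.cons true (nat_lit 25) (nat_lit 0) (nat_lit 8070456029840670723) (Ct.cons true (nat_lit 77) (nat_lit 0) (nat_lit 8070461527378886659) (Ct.cons false (nat_lit 7) (nat_lit 0) (nat_lit 38046415149591429123) (Ct.cons false (nat_lit 10) (nat_lit 0) (nat_lit 28823045311755714563) (Ct.cons true (nat_lit 48) (nat_lit 1) (nat_lit 8462484196077913167101955) (Ct.cons false (nat_lit 6) (nat_lit 0) (nat_lit 5764630612781563907) (Ct.cons true (nat_lit 5) (nat_lit 0) (nat_lit 18446759466879680519) (Ct.cons false (nat_lit 7) (nat_lit 0) (nat_lit 9223389629048160259) (Ct.cons true (nat_lit 3) (nat_lit 0) (nat_lit 56493161422324236295) (Ct.cons true (nat_lit 11) (nat_lit 0) (nat_lit 5764615219648135171) (Ct.cons true (nat_lit 5) (nat_lit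 0) (nat_lit 5764622916205412355) (Ct.cons true (nat_lit 5) (nat_lit 0) (nat_lit 8070458228876509189) (Ct.cons false (nat_lit 7) (nat_lit 0) (nat_lit 38046417348612587523) (Ct.cons false (nat_lit 1) (nat_lit 0) (nat_lit 58799004431537930247) (Ct.cons false (nat_lit 6) (nat_lit 0) (nat_lit 18446751770305626119) (Ct.cons false (nat_lit 9) (nat_lit 0) (nat_lit 9223383031974199299) (Ct.cons true (nat_lit 4) (nat_lit 0) (nat_lit 8070500010278518789) (Ct.cons true (nat_lit 9) (nat_lit 0) (nat_lit 8070484617113632771) (Ct.cons true (nat_lit 9) (nat_lit 0) (nat_lit 35740572140377735171) (Ct.cons false (nat_lit 1) (nat_lit 0) (nat_lit 24211357094305071107) (Ct.cons false (nat_lit 7) (nat_lit 0) (nat_lit 8070456029838573571) (Ct.cons false (nat_lit 2) (nat_lit 0) (nat_lit 24211354895283912707) (Ct.cons false (nat_lit 2) (nat_lit 0) (nat_lit 11529218344611741699) (Ct.cons true (nat_lit 2) (nat_lit 0) (nat_lit 9223391828071415813) (Ct.cons false (nat_lit 2) (nat_lit 0) (nat_lit 5764643806925291523) (Ct.cons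 false (nat_lit 6) (nat_lit 1) (nat_lit 8462488807768329638903811) (Ct.cons false (nat_lit 6) (nat_lit 1) (nat_lit 8462484196075714141749251) (Ct.cons false (nat_lit 6) (nat_lit 1) (nat_lit 8462484196082311213613061) Ct.nil))))))))))))))))))))))))))))))))))))))))))))
def tK125 : Tb := (Tb.node (nat_lit 8293) tK123 tK124)
def tK126 : Tb := (Tb.node (nat_lit 8277) tK122 tK125)
def tK127 : Tb := (Tb.node (nat_lit 8309) (Tb.leaf (nat_lit 8307) (nat_lit 394) (V.cons (nat_lit 374) true (nat_lit 54) (V.cons (nat_lit 376) false (nat_lit 180) (V.cons (nat_lit 378) false (nat_lit 72) (V.cons (nat_lit 382) true (nat_lit 9) (V.cons (nat_lit 384) true (nat_lit 12) (V.cons (nat_lit 386) true (nat_lit 28) (V.cons (nat_lit 388) false (nat_lit 6) (V.cons (nat_lit 390) true (nat_lit 8) (V.cons (nat_lit 392) false (nat_lit 126) (V.cons (nat_lit 394) true (nat_lit 153) (V.cons (nat_lit 396) false (nat_lit 9) (V.cons (nat_lit 398) true (nat_lit 126) (V.cons (nat_lit 400) true (nat_lit 24) (V.cons (nat_lit 402) false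 (nat_lit 12) (V.cons (nat_lit 404) true (nat_lit 72) (V.cons (nat_lit 408) false (nat_lit 126) (V.cons (nat_lit 410) false (nat_lit 144) (V.cons (nat_lit 412) true (nat_lit 54) (V.cons (nat_lit 414) false (nat_lit 8) (V.cons (nat_lit 416) false (nat_lit 36) (V.cons (nat_lit 418) true (nat_lit 21) (V.cons (nat_lit 420) true (nat_lit 6) (V.cons (nat_lit 422) false (nat_lit 6) (V.cons (nat_lit 424) false (nat_lit 1) V.nil)))))))))))))))))))))))) (Rw.rw (nat_lit 2) (nat_lit 0) (Ct.cons false (nat_lit 13) (nat_lit 0) (nat_lit 8070497811255263235) (Ct.cons false (nat_lit 4) (nat_lit 0) (nat_lit 5764646005948547075) (Ct.cons false (nat_lit 12) (nat_lit 0) (nat_lit 40352260357826281475) (Ct.cons false (nat_lit 22) (nat_lit 0) (nat_lit 8070493413206654979) (Ct.cons false (nat_lit 2) (nat_lit 0) (nat_lit 38046415149589331971) (Ct.cons false (nat_lit 6) (nat_lit 0) (nat_lit 5764615219654426627) (Ct.cons true (nat_lit 8) (nat_lit 0) (nat_lit 42658103367039975427) (Ct.cons false (nat_lit 6) (nat_lit 0) (nat_lit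 8070489015160143875) (Ct.cons true (nat_lit 10) (nat_lit 0) (nat_lit 8070500010276421637) (Ct.cons false (nat_lit 12) (nat_lit 0) (nat_lit 8070480219065024515) (Ct.cons false (nat_lit 10) (nat_lit 0) (nat_lit 11529220543641288707) (Ct.cons false (nat_lit 2) (nat_lit 0) (nat_lit 8070468124444459011) (Ct.cons false (nat_lit 32) (nat_lit 0) (nat_lit 16140908761094029317) (Ct.cons false (nat_lit 30) (nat_lit 0) (nat_lit 44963944177232510979) (Ct.cons true (nat_lit 10) (nat_lit 0) (nat_lit 18446751770301431811) (Ct.cons false (nat_lit 2) (nat_lit 0) (nat_lit 20752594779517222919) (Ct.cons true (nat_lit 10) (nat_lit 0) (nat_lit 11529222742666641411) (Ct.cons false (nat_lit 10) (nat_lit 0) (nat_lit 8070470323467714565) (Ct.cons false (nat_lit 10) (nat_lit 0) (nat_lit 28823043112732459011) (Ct.cons true (nat_lit 19) (nat_lit 0) (nat_lit 18446752869807816707) (Ct.cons true (nat_lit 8) (nat_lit 0) (nat_lit 8070491214183399427) (Ct.cons true (nat_lit 8) (nat_lit 0) (nat_lit 42658101168018817027) (Ct.cons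 true (nat_lit 20) (nat_lit 0) (nat_lit 8070461527380983811) (Ct.cons false (nat_lit 2) (nat_lit 0) (nat_lit 20752595879021510661) (Ct.cons true (nat_lit 2) (nat_lit 0) (nat_lit 9223391828069318661) (Ct.cons false (nat_lit 2) (nat_lit 0) (nat_lit 13835061353825435651) (Ct.cons false (nat_lit 4) (nat_lit 0) (nat_lit 5764641607899938819) (Ct.cons false (nat_lit 2) (nat_lit 0) (nat_lit 28823040913711300611) (Ct.cons false (nat_lit 2) (nat_lit 0) (nat_lit 31128888320969408515) (Ct.cons true (nat_lit 2) (nat_lit 0) (nat_lit 54187316214087286789) (Ct.cons false (nat_lit 2) (nat_lit 0) (nat_lit 31128883922927091715) (Ct.cons true (nat_lit 34) (nat_lit 0) (nat_lit 18446761665902936071) (Ct.cons true (nat_lit 34) (nat_lit 0) (nat_lit 5764650403995058179) (Ct.cons false (nat_lit 23) (nat_lit 0) (nat_lit 8070458228874412035) (Ct.cons true (nat_lit 26) (nat_lit 0) (nat_lit 9223377534429691907) (Ct.cons true (nat_lit 8) (nat_lit 0) (nat_lit 5764615219652329475) (Ct.cons false (nat_lit 8) (nat_lit 0) (nat_lit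 8070456029842767875) (Ct.cons false (nat_lit 11) (nat_lit 0) (nat_lit 49575632394683154435) (Ct.cons true (nat_lit 2) (nat_lit 0) (nat_lit 11529230439236501507) (Ct.cons true (nat_lit 2) (nat_lit 0) (nat_lit 5764622916207509507) (Ct.cons false (nat_lit 6) (nat_lit 0) (nat_lit 9223385230997454851) (Ct.cons true (nat_lit 6) (nat_lit 0) (nat_lit 5764613020624879619) (Ct.cons true (nat_lit 28) (nat_lit 0) (nat_lit 8070456029846962179) (Ct.cons true (nat_lit 2) (nat_lit 0) (nat_lit 8070495612232007683) (Ct.cons false (nat_lit 2) (nat_lit 0) (nat_lit 8070463726402142211) (Ct.cons true (nat_lit 3) (nat_lit 1) (nat_lit 8462488807770528662159363) (Ct.cons false (nat_lit 1) (nat_lit 1) (nat_lit 6044632556846455792336899) Ct.nil))))))))))))))))))))))))))))))))))))))))))))))))) (Tb.leaf (nat_lit 8309) (nat_lit 393) (V.cons (nat_lit 374) true (nat_lit 45) (V.cons (nat_lit 376) false (nat_lit 54) (V.cons (nat_lit 380) false (nat_lit 54) (V.cons (nat_lit 382) true (nat_lit 36) (V.cons (nat_lit 386) true (nat_lit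 22) (V.cons (nat_lit 388) false (nat_lit 12) (V.cons (nat_lit 394) true (nat_lit 18) (V.cons (nat_lit 400) false (nat_lit 12) (V.cons (nat_lit 402) true (nat_lit 54) (V.cons (nat_lit 404) false (nat_lit 36) (V.cons (nat_lit 406) false (nat_lit 45) (V.cons (nat_lit 408) true (nat_lit 54) (V.cons (nat_lit 410) true (nat_lit 72) (V.cons (nat_lit 412) false (nat_lit 54) (V.cons (nat_lit 416) true (nat_lit 18) (V.cons (nat_lit 420) false (nat_lit 6) (V.cons (nat_lit 422) true (nat_lit 6) (V.cons (nat_lit 424) false (nat_lit 1) V.nil)))))))))))))))))) (Rw.rw (nat_lit 1) (nat_lit 0) (Ct.cons true (nat_lit 1) (nat_lit 0) (nat_lit 9223377534429691907) (Ct.cons true (nat_lit 3) (nat_lit 0) (nat_lit 8070461527380983811) (Ct.cons false (nat_lit 4) (nat_lit 0) (nat_lit 5764646005948547075) (Ct.cons true (nat_lit 2) (nat_lit 0) (nat_lit 49575632394683154435) (Ct.cons false (nat_lit 5) (nat_lit 0) (nat_lit 38046415149589331971) (Ct.cons false (nat_lit 5) (nat_lit 0) (nat_lit 8070500010276421637) (Ct.cons true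 (nat_lit 6) (nat_lit 0) (nat_lit 8070480219065024515) (Ct.cons true (nat_lit 1) (nat_lit 0) (nat_lit 18446751770301431811) (Ct.cons true (nat_lit 5) (nat_lit 0) (nat_lit 11529220543641288707) (Ct.cons true (nat_lit 4) (nat_lit 0) (nat_lit 8070468124444459011) (Ct.cons true (nat_lit 3) (nat_lit 0) (nat_lit 11529232638261854211) (Ct.cons true (nat_lit 2) (nat_lit 0) (nat_lit 5764615219652329475) (Ct.cons false (nat_lit 2) (nat_lit 0) (nat_lit 8070456029842767875) (Ct.cons true (nat_lit 6) (nat_lit 0) (nat_lit 5764615219654426627) (Ct.cons true (nat_lit 3) (nat_lit 0) (nat_lit 44963944177232510979) (Ct.cons true (nat_lit 2) (nat_lit 0) (nat_lit 8070456029846962179) (Ct.cons false (nat_lit 4) (nat_lit 0) (nat_lit 42658103367039975427) (Ct.cons true (nat_lit 6) (nat_lit 0) (nat_lit 8070489015160143875) (Ct.cons false (nat_lit 3) (nat_lit 0) (nat_lit 40352260357826281475) (Ct.cons false (nat_lit 3) (nat_lit 0) (nat_lit 8070497811255263235) (Ct.cons false (nat_lit 1) (nat_lit 0) (nat_lit 8070493413206654979)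 (Ct.cons true (nat_lit 3) (nat_lit 0) (nat_lit 16140908761094029317) (Ct.cons false (nat_lit 3) (nat_lit 0) (nat_lit 5764641607899938819) (Ct.cons true (nat_lit 2) (nat_lit 0) (nat_lit 8070495612232007683) (Ct.cons false (nat_lit 2) (nat_lit 0) (nat_lit 8070463726402142211) (Ct.cons false (nat_lit 1) (nat_lit 0) (nat_lit 8070458228874412035) (Ct.cons false (nat_lit 2) (nat_lit 0) (nat_lit 9223385230997454851) (Ct.cons true (nat_lit 2) (nat_lit 0) (nat_lit 5764613020624879619) (Ct.cons false (nat_lit 2) (nat_lit 0) (nat_lit 18446761665902936071) (Ct.cons false (nat_lit 2) (nat_lit 0) (nat_lit 5764650403995058179) (Ct.cons true (nat_lit 2) (nat_lit 0) (nat_lit 8070470323467714565) (Ct.cons true (nat_lit 2) (nat_lit 0) (nat_lit 28823043112732459011) (Ct.cons false (nat_lit 2) (nat_lit 0) (nat_lit 11529222742666641411) (Ct.cons false (nat_lit 2) (nat_lit 0) (nat_lit 18446752869807816707) (Ct.cons false (nat_lit 1) (nat_lit 0) (nat_lit 8070491214183399427) (Ct.cons false (nat_lit 1) (nat_lit 0) (nat_lit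 42658101168018817027) (Ct.cons false (nat_lit 1) (nat_lit 0) (nat_lit 11529230439236501507) (Ct.cons false (nat_lit 1) (nat_lit 0) (nat_lit 5764622916207509507) (Ct.cons true (nat_lit 1) (nat_lit 0) (nat_lit 20752594779517222919) (Ct.cons true (nat_lit 1) (nat_lit 0) (nat_lit 20752595879021510661) (Ct.cons false (nat_lit 1) (nat_lit 0) (nat_lit 9223391828069318661) (Ct.cons true (nat_lit 1) (nat_lit 0) (nat_lit 13835061353825435651) (Ct.cons true (nat_lit 1) (nat_lit 0) (nat_lit 28823040913711300611) (Ct.cons true (nat_lit 1) (nat_lit 0) (nat_lit 31128888320969408515) (Ct.cons false (nat_lit 1) (nat_lit 0) (nat_lit 54187316214087286789) (Ct.cons true (nat_lit 1) (nat_lit 0) (nat_lit 31128883922927091715) Ct.nil)))))))))))))))))))))))))))))))))))))))))))))))))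
def tK128 : Tb := (Tb.node (nat_lit 8315) (Tb.node (nat_lit 8313) (Tb.leaf (nat_lit 8311) (nat_lit 462) (V.cons (nat_lit 430) false (nat_lit 1) (V.cons (nat_lit 436) true (nat_lit 1) (V.cons (nat_lit 438) false (nat_lit 2) (V.cons (nat_lit 442) false (nat_lit 1) V.nil)))) (Rw.rw (nat_lit 0) (nat_lit 0) (Ct.cons false (nat_lit 1) (nat_lit 0) (nat_lit 8070500010278518787) Ct.nil))) (Tb.leaf (nat_lit 8313) (nat_lit 470) (V.cons (nat_lit 428) false (nat_lit 3) (V.cons (nat_lit 430) true (nat_lit 2) (V.cons (nat_lit 432) false (nat_lit 2) (V.cons (nat_lit 436) true (nat_lit 1) (V.cons (nat_lit 440) false (nat_lit 1) V.nil))))) (Rw.rw (nat_lit 0) (nat_lit 0) (Ct.cons true (nat_lit 1) (nat_lit 0) (nat_lit 9223387430020710403) Ct.nil)))) (Tb.node (nat_lit 8317) (Tb.leaf (nat_lit 8315) (nat_lit 458) (V.cons (nat_lit 440) false (nat_lit 1) V.nil) (Rw.df (nat_lit 440) (nat_lit 0) (nat_lit 0))) (Tb.node (nat_lit 8319) (Tb.leaf (nat_lit 8317) (nat_lit 502) (V.cons (nat_lit 444) true (nat_lit 38) (V.cons (nat_lit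 446) false (nat_lit 39) (V.cons (nat_lit 448) false (nat_lit 309) (V.cons (nat_lit 450) false (nat_lit 41) (V.cons (nat_lit 452) true (nat_lit 90) (V.cons (nat_lit 454) false (nat_lit 201) (V.cons (nat_lit 456) true (nat_lit 158) (V.cons (nat_lit 458) false (nat_lit 30) (V.cons (nat_lit 460) true (nat_lit 55) (V.cons (nat_lit 462) true (nat_lit 97) (V.cons (nat_lit 464) false (nat_lit 60) (V.cons (nat_lit 466) false (nat_lit 165) (V.cons (nat_lit 468) true (nat_lit 123) (V.cons (nat_lit 470) true (nat_lit 39) (V.cons (nat_lit 472) false (nat_lit 93) (V.cons (nat_lit 474) true (nat_lit 56) (V.cons (nat_lit 476) false (nat_lit 156) (V.cons (nat_lit 478) true (nat_lit 144) (V.cons (nat_lit 480) false (nat_lit 159) V.nil))))))))))))))))))) (Rw.rw (nat_lit 1) (nat_lit 0) (Ct.cons false (nat_lit 40) (nat_lit 0) (nat_lit 18446752869805719555) (Ct.cons false (nat_lit 302) (nat_lit 0) (nat_lit 40352260357824184323) (Ct.cons true (nat_lit 445) (nat_lit 0) (nat_lit 11529230439234404355) (Ct.cons false (nat_lit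 326) (nat_lit 0) (nat_lit 40352255959781867523) (Ct.cons false (nat_lit 124) (nat_lit 0) (nat_lit 18446763864926191623) (Ct.cons true (nat_lit 100) (nat_lit 0) (nat_lit 16140904363041226755) (Ct.cons false (nat_lit 234) (nat_lit 0) (nat_lit 38046415149587234819) (Ct.cons true (nat_lit 234) (nat_lit 0) (nat_lit 16140920855712497669) (Ct.cons true (nat_lit 80) (nat_lit 0) (nat_lit 8070456029855350787) (Ct.cons false (nat_lit 120) (nat_lit 0) (nat_lit 51881475403894751235) (Ct.cons true (nat_lit 82) (nat_lit 0) (nat_lit 5764622916211703811) (Ct.cons true (nat_lit 34) (nat_lit 0) (nat_lit 51881473204873592835) (Ct.cons false (nat_lit 120) (nat_lit 0) (nat_lit 5764657001064824835) (Ct.cons true (nat_lit 104) (nat_lit 0) (nat_lit 20752594779519320069) (Ct.cons false (nat_lit 124) (nat_lit 0) (nat_lit 16140918656689242115) (Ct.cons false (nat_lit 58) (nat_lit 0) (nat_lit 5764643806921097219) (Ct.cons true (nat_lit 48) (nat_lit 0) (nat_lit 5764615219662815235) (Ct.cons false (nat_lit 48) (nat_lit 0) (nat_lit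 8070491214181302275) (Ct.cons false (nat_lit 112) (nat_lit 0) (nat_lit 35740569941352382467) (Ct.cons false (nat_lit 108) (nat_lit 0) (nat_lit 44963946376251572227) (Ct.cons false (nat_lit 52) (nat_lit 0) (nat_lit 54187318413108445187) (Ct.cons false (nat_lit 48) (nat_lit 0) (nat_lit 16140908761094029315) (Ct.cons false (nat_lit 47) (nat_lit 0) (nat_lit 5764641607897841667) (Ct.cons true (nat_lit 33) (nat_lit 0) (nat_lit 8070489015158046723) (Ct.cons false (nat_lit 222) (nat_lit 0) (nat_lit 8070461527383080963) (Ct.cons false (nat_lit 284) (nat_lit 0) (nat_lit 5764659200088080387) (Ct.cons false (nat_lit 338) (nat_lit 0) (nat_lit 20752594779515125763) (Ct.cons true (nat_lit 80) (nat_lit 0) (nat_lit 61104847440751624197) (Ct.cons false (nat_lit 134) (nat_lit 0) (nat_lit 16140912059615281155) (Ct.cons false (nat_lit 122) (nat_lit 0) (nat_lit 28823040913709203459) (Ct.cons true (nat_lit 72) (nat_lit 0) (nat_lit 8070465925429592069) (Ct.cons true (nat_lit 72) (nat_lit 0) (nat_lit 54187316214087286787)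 (Ct.cons true (nat_lit 66) (nat_lit 0) (nat_lit 38046412950566076419) (Ct.cons false (nat_lit 149) (nat_lit 0) (nat_lit 16140906562068676611) (Ct.cons false (nat_lit 4) (nat_lit 1) (nat_lit 3626780917623794514788357) (Ct.cons false (nat_lit 31) (nat_lit 1) (nat_lit 8462484196082311211515907) (Ct.cons true (nat_lit 21) (nat_lit 1) (nat_lit 3626780917617197442924547) (Ct.cons false (nat_lit 42) (nat_lit 0) (nat_lit 8070508806371540997) (Ct.cons true (nat_lit 105) (nat_lit 0) (nat_lit 9223389629043965955) (Ct.cons false (nat_lit 6) (nat_lit 1) (nat_lit 8462484196086709260124165) (Ct.cons true (nat_lit 13) (nat_lit 1) (nat_lit 3626780917619396468277251) Ct.nil))))))))))))))))))))))))))))))))))))))))))) (Tb.leaf (nat_lit 8319) (nat_lit 536) (V.cons (nat_lit 444) true (nat_lit 127) (V.cons (nat_lit 446) false (nat_lit 125) (V.cons (nat_lit 448) false (nat_lit 1014) (V.cons (nat_lit 450) false (nat_lit 131) (V.cons (nat_lit 452) true (nat_lit 279) (V.cons (nat_lit 454) false (nat_lit 642) (V.cons (nat_lit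 456) true (nat_lit 518) (V.cons (nat_lit 458) false (nat_lit 105) (V.cons (nat_lit 460) true (nat_lit 181) (V.cons (nat_lit 462) true (nat_lit 307) (V.cons (nat_lit 464) false (nat_lit 201) (V.cons (nat_lit 466) false (nat_lit 540) (V.cons (nat_lit 468) true (nat_lit 405) (V.cons (nat_lit 470) true (nat_lit 117) (V.cons (nat_lit 472) false (nat_lit 306) (V.cons (nat_lit 474) true (nat_lit 179) (V.cons (nat_lit 476) false (nat_lit 510) (V.cons (nat_lit 478) true (nat_lit 465) (V.cons (nat_lit 480) false (nat_lit 495) V.nil))))))))))))))))))) (Rw.rw (nat_lit 0) (nat_lit 0) (Ct.cons false (nat_lit 1) (nat_lit 0) (nat_lit 20752594779521417223) Ct.nil))))))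
def tK129 : Tb := (Tb.node (nat_lit 8311) (Tb.node (nat_lit 8307) (Tb.node (nat_lit 8305) (Tb.leaf (nat_lit 8303) (nat_lit 359) (V.cons (nat_lit 336) true (nat_lit 12) (V.cons (nat_lit 338) true (nat_lit 2) (V.cons (nat_lit 340) false (nat_lit 306) (V.cons (nat_lit 342) false (nat_lit 15) (V.cons (nat_lit 344) true (nat_lit 735) (V.cons (nat_lit 348) true (nat_lit 27) (V.cons (nat_lit 350) true (nat_lit 312) (V.cons (nat_lit 352) true (nat_lit 225) (V.cons (nat_lit 354) true (nat_lit 4) (V.cons (nat_lit 356) false (nat_lit 75) (V.cons (nat_lit 358) false (nat_lit 3) (V.cons (nat_lit 362) false (nat_lit 42) (V.cons (nat_lit 364) true (nat_lit 165) (V.cons (nat_lit 366) true (nat_lit 186) (V.cons (nat_lit 368) false (nat_lit 183) (V.cons (nat_lit 370) false (nat_lit 120) (V.cons (nat_lit 372) true (nat_lit 21) V.nil))))))))))))))))) (Rw.rw (nat_lit 0) (nat_lit 0) (Ct.cons false (nat_lit 1) (nat_lit 0) (nat_lit 8070459328357728259) Ct.nil))) (Tb.leaf (nat_lit 8305) (nat_lit 392) (V.cons (nat_lit 424)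 false (nat_lit 1) V.nil) (Rw.df (nat_lit 424) (nat_lit 0) (nat_lit 0)))) tK127) tK128)
def tK130 : Tb := (Tb.node (nat_lit 10255) (Tb.node (nat_lit 10253) (Tb.leaf (nat_lit 8321) (nat_lit 535) (V.cons (nat_lit 444) true (nat_lit 70) (V.cons (nat_lit 446) false (nat_lit 73) (V.cons (nat_lit 448) false (nat_lit 588) (V.cons (nat_lit 450) false (nat_lit 87) (V.cons (nat_lit 452) true (nat_lit 186) (V.cons (nat_lit 454) false (nat_lit 390) (V.cons (nat_lit 456) true (nat_lit 300) (V.cons (nat_lit 458) false (nat_lit 51) (V.cons (nat_lit 460) true (nat_lit 107) (V.cons (nat_lit 462) true (nat_lit 183) (V.cons (nat_lit 464) false (nat_lit 129) (V.cons (nat_lit 466) false (nat_lit 312) (V.cons (nat_lit 468) true (nat_lit 231) (V.cons (nat_lit 470) true (nat_lit 75) (V.cons (nat_lit 472) false (nat_lit 186) (V.cons (nat_lit 474) true (nat_lit 103) (V.cons (nat_lit 476) false (nat_lit 294) (V.cons (nat_lit 478) true (nat_lit 279) (V.cons (nat_lit 480) false (nat_lit 297) V.nil))))))))))))))))))) (Rw.rw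 (nat_lit 0) (nat_lit 0) (Ct.cons false (nat_lit 1) (nat_lit 0) (nat_lit 8070508806371540997) Ct.nil))) (Tb.leaf (nat_lit 10253) (nat_lit 43) (V.cons (nat_lit 72) false (nat_lit 1) (V.cons (nat_lit 74) true (nat_lit 1) (V.cons (nat_lit 80) false (nat_lit 1) (V.cons (nat_lit 82) true (nat_lit 1) V.nil)))) (Rw.rw (nat_lit 0) (nat_lit 0) (Ct.cons false (nat_lit 1) (nat_lit 0) (nat_lit 8070458228834566147) Ct.nil)))) (Tb.node (nat_lit 10257) (Tb.leaf (nat_lit 10255) (nat_lit 50) (V.cons (nat_lit 94) false (nat_lit 1) V.nil) (Rw.df (nat_lit 94) (nat_lit 0) (nat_lit 0))) (Tb.node (nat_lit 10262) (Tb.leaf (nat_lit 10257) (nat_lit 65) (V.cons (nat_lit 104) false (nat_lit 1) (V.cons (nat_lit 106) false (nat_lit 1) (V.cons (nat_lit 108) true (nat_lit 1) (V.cons (nat_lit 112) true (nat_lit 1) V.nil)))) (Rw.rw (nat_lit 0) (nat_lit 0) (Ct.cons false (nat_lit 1) (nat_lit 0) (nat_lit 8070453830788055043) Ct.nil))) (Tb.leaf (nat_lit 10262) (nat_lit 89) (V.cons (nat_lit 135) true (nat_lit 1) (V.cons (nat_lit 139)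 false (nat_lit 1) (V.cons (nat_lit 141) true (nat_lit 1) V.nil))) (Rw.rw (nat_lit 0) (nat_lit 0) (Ct.cons true (nat_lit 1) (nat_lit 0) (nat_lit 8070458228839809029) Ct.nil))))))
def tK131 : Tb := (Tb.node (nat_lit 10272) (Tb.node (nat_lit 10270) (Tb.leaf (nat_lit 10264) (nat_lit 85) (V.cons (nat_lit 141) false (nat_lit 1) V.nil) (Rw.df (nat_lit 141) (nat_lit 0) (nat_lit 0))) (Tb.leaf (nat_lit 10270) (nat_lit 103) (V.cons (nat_lit 145) true (nat_lit 1) (V.cons (nat_lit 147) false (nat_lit 1) (V.cons (nat_lit 149) true (nat_lit 2) (V.cons (nat_lit 159) false (nat_lit 2) (V.cons (nat_lit 161) false (nat_lit 1) (V.cons (nat_lit 163) false (nat_lit 2) V.nil)))))) (Rw.rw (nat_lit 0) (nat_lit 0) (Ct.cons false (nat_lit 1) (nat_lit 0) (nat_lit 11529222742657204227) (Ct.cons true (nat_lit 1) (nat_lit 0) (nat_lit 8070458228839809027) (Ct.cons false (nat_lit 1) (nat_lit 0) (nat_lit 8070461527371546627) Ct.nil)))))) (Tb.node (nat_lit 10274) (Tb.leaf (nat_lit 10272) (nat_lit 101) (V.cons (nat_lit 163) false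 (nat_lit 1) V.nil) (Rw.df (nat_lit 163) (nat_lit 0) (nat_lit 0))) (Tb.node (nat_lit 10276) (Tb.leaf (nat_lit 10274) (nat_lit 137) (V.cons (nat_lit 165) false (nat_lit 2) (V.cons (nat_lit 167) true (nat_lit 5) (V.cons (nat_lit 171) true (nat_lit 1) (V.cons (nat_lit 173) false (nat_lit 2) (V.cons (nat_lit 175) true (nat_lit 1) (V.cons (nat_lit 177) false (nat_lit 5) (V.cons (nat_lit 179) true (nat_lit 2) (V.cons (nat_lit 185) true (nat_lit 1) (V.cons (nat_lit 187) false (nat_lit 1) (V.cons (nat_lit 189) false (nat_lit 2) V.nil)))))))))) (Rw.rw (nat_lit 0) (nat_lit 0) (Ct.cons true (nat_lit 1) (nat_lit 0) (nat_lit 5764615219626115075) Ct.nil))) (Tb.leaf (nat_lit 10276) (nat_lit 123) (V.cons (nat_lit 187) false (nat_lit 1) V.nil) (Rw.df (nat_lit 187) (nat_lit 0) (nat_lit 0))))))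
def tK132 : Tb := (Tb.node (nat_lit 10264) tK130 tK131)
def tK133 : Tb := (Tb.node (nat_lit 8321) tK129 tK132)
def tK134 : Tb := (Tb.node (nat_lit 8303) tK126 tK133)
def tK135 : Tb := (Tb.node (nat_lit 8230) tK120 tK134)
def tK136 : Tb := (Tb.node (nat_lit 10311) (Tb.node (nat_lit 10292) (Tb.leaf (nat_lit 10290) (nat_lit 189) (V.cons (nat_lit 229) false (nat_lit 1) (V.cons (nat_lit 239) true (nat_lit 1) (V.cons (nat_lit 241) true (nat_lit 1) (V.cons (nat_lit 253) true (nat_lit 1) V.nil)))) (Rw.rw (nat_lit 0) (nat_lit 0) (Ct.cons true (nat_lit 1) (nat_lit 0) (nat_lit 11529220543629754371) Ct.nil))) (Tb.leaf (nat_lit 10292) (nat_lit 220) (V.cons (nat_lit 283) false (nat_lit 1) V.nil) (Rw.df (nat_lit 283) (nat_lit 0) (nat_lit 0)))) (Tb.node (nat_lit 10313) (Tb.leaf (nat_lit 10311) (nat_lit 263) (V.cons (nat_lit 300) false (nat_lit 1) (V.cons (nat_lit 302) true (nat_lit 3) (V.cons (nat_lit 310) true (nat_lit 1) (V.cons (nat_lit 312) false (nat_lit 3) (V.cons (nat_lit 318) true (nat_lit 1) (V.cons (nat_lit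 320) true (nat_lit 3) (V.cons (nat_lit 324) false (nat_lit 3) (V.cons (nat_lit 332) true (nat_lit 3) (V.cons (nat_lit 334) false (nat_lit 1) V.nil))))))))) (Rw.rw (nat_lit 0) (nat_lit 0) (Ct.cons false (nat_lit 1) (nat_lit 0) (nat_lit 8070478020043866115) Ct.nil))) (Tb.node (nat_lit 10315) (Tb.leaf (nat_lit 10313) (nat_lit 275) (V.cons (nat_lit 298) true (nat_lit 8) (V.cons (nat_lit 300) true (nat_lit 3) (V.cons (nat_lit 302) false (nat_lit 60) (V.cons (nat_lit 304) true (nat_lit 6) (V.cons (nat_lit 306) true (nat_lit 21) (V.cons (nat_lit 308) false (nat_lit 11) (V.cons (nat_lit 310) false (nat_lit 28) (V.cons (nat_lit 312) true (nat_lit 81) (V.cons (nat_lit 314) false (nat_lit 24) (V.cons (nat_lit 316) false (nat_lit 30) (V.cons (nat_lit 318) false (nat_lit 5) (V.cons (nat_lit 320) false (nat_lit 45) (V.cons (nat_lit 322) false (nat_lit 6) (V.cons (nat_lit 324) true (nat_lit 90) (V.cons (nat_lit 326) true (nat_lit 6) (V.cons (nat_lit 328) true (nat_lit 6) (V.cons (nat_lit 330) false (nat_lit 57)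 (V.cons (nat_lit 332) false (nat_lit 108) (V.cons (nat_lit 334) false (nat_lit 1) V.nil))))))))))))))))))) (Rw.rw (nat_lit 1) (nat_lit 0) (Ct.cons false (nat_lit 24) (nat_lit 0) (nat_lit 8070458228866023429) (Ct.cons false (nat_lit 32) (nat_lit 0) (nat_lit 11529222742660349955) (Ct.cons true (nat_lit 58) (nat_lit 0) (nat_lit 8070478020043866115) (Ct.cons true (nat_lit 58) (nat_lit 0) (nat_lit 28823043112736653315) (Ct.cons true (nat_lit 24) (nat_lit 0) (nat_lit 9223383031976296451) (Ct.cons true (nat_lit 26) (nat_lit 0) (nat_lit 18446751770301431815) (Ct.cons false (nat_lit 32) (nat_lit 0) (nat_lit 16140908761087737861) (Ct.cons false (nat_lit 6) (nat_lit 0) (nat_lit 8070480219069218819) (Ct.cons true (nat_lit 4) (nat_lit 0) (nat_lit 11529220543634997251) (Ct.cons true (nat_lit 8) (nat_lit 0) (nat_lit 18446755068833169415) (Ct.cons false (nat_lit 14) (nat_lit 0) (nat_lit 31128888320973602819) (Ct.cons false (nat_lit 38) (nat_lit 0) (nat_lit 11529232638261854215) (Ct.cons true (nat_lit 2) (nat_lit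 0) (nat_lit 13835073448452292615) (Ct.cons false (nat_lit 2) (nat_lit 0) (nat_lit 33434731330187296771) (Ct.cons true (nat_lit 1) (nat_lit 0) (nat_lit 5764630612783661059) (Ct.cons false (nat_lit 5) (nat_lit 0) (nat_lit 24211357094307168259) (Ct.cons false (nat_lit 9) (nat_lit 0) (nat_lit 16140906562062385157) (Ct.cons false (nat_lit 6) (nat_lit 0) (nat_lit 13835066851382525955) (Ct.cons true (nat_lit 6) (nat_lit 0) (nat_lit 35740574339398893573) (Ct.cons false (nat_lit 8) (nat_lit 0) (nat_lit 11529223842166734851) (Ct.cons true (nat_lit 6) (nat_lit 0) (nat_lit 49575632394683154439) (Ct.cons false (nat_lit 11) (nat_lit 0) (nat_lit 9223385231001649155) (Ct.cons true (nat_lit 11) (nat_lit 0) (nat_lit 5764613020614393859) (Ct.cons false (nat_lit 9) (nat_lit 0) (nat_lit 9223387430022807557) (Ct.cons false (nat_lit 8) (nat_lit 0) (nat_lit 8070486816136888325) (Ct.cons true (nat_lit 4) (nat_lit 0) (nat_lit 11529226041192087555) (Ct.cons true (nat_lit 10) (nat_lit 0) (nat_lit 40352260357828378629) (Ct.cons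 false (nat_lit 4) (nat_lit 0) (nat_lit 8070458228857634819) (Ct.cons false (nat_lit 2) (nat_lit 0) (nat_lit 26517200103522959363) (Ct.cons true (nat_lit 4) (nat_lit 1) (nat_lit 8462488807763931592392707) (Ct.cons false (nat_lit 6) (nat_lit 0) (nat_lit 44963946376255766533) (Ct.cons false (nat_lit 2) (nat_lit 1) (nat_lit 8462488807770528664256517) (Ct.cons false (nat_lit 36) (nat_lit 0) (nat_lit 5764635010832269315) (Ct.cons true (nat_lit 7) (nat_lit 0) (nat_lit 16140909860594122757) (Ct.cons false (nat_lit 14) (nat_lit 0) (nat_lit 5764615219641843715) (Ct.cons true (nat_lit 12) (nat_lit 0) (nat_lit 35740572140377735173) (Ct.cons true (nat_lit 4) (nat_lit 0) (nat_lit 8070458228868120581) (Ct.cons true (nat_lit 2) (nat_lit 1) (nat_lit 8462484196077913167101957) (Ct.cons true (nat_lit 2) (nat_lit 1) (nat_lit 8462486501918723355443203) Ct.nil))))))))))))))))))))))))))))))))))))))))) (Tb.leaf (nat_lit 10315) (nat_lit 286) (V.cons (nat_lit 298) true (nat_lit 8) (V.cons (nat_lit 300) true (nat_lit 3)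 (V.cons (nat_lit 302) false (nat_lit 60) (V.cons (nat_lit 304) true (nat_lit 6) (V.cons (nat_lit 306) true (nat_lit 21) (V.cons (nat_lit 308) false (nat_lit 11) (V.cons (nat_lit 310) false (nat_lit 28) (V.cons (nat_lit 312) true (nat_lit 81) (V.cons (nat_lit 314) false (nat_lit 24) (V.cons (nat_lit 316) false (nat_lit 30) (V.cons (nat_lit 318) false (nat_lit 5) (V.cons (nat_lit 320) false (nat_lit 45) (V.cons (nat_lit 322) false (nat_lit 6) (V.cons (nat_lit 324) true (nat_lit 90) (V.cons (nat_lit 326) true (nat_lit 6) (V.cons (nat_lit 328) true (nat_lit 6) (V.cons (nat_lit 330) false (nat_lit 57) (V.cons (nat_lit 332) false (nat_lit 108) (V.cons (nat_lit 334) false (nat_lit 1) V.nil))))))))))))))))))) (Rw.rw (nat_lit 0) (nat_lit 0) (Ct.cons true (nat_lit 1) (nat_lit 0) (nat_lit 16140908761087737861) Ct.nil))))))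
def tK137 : Tb := (Tb.node (nat_lit 10290) (Tb.node (nat_lit 10286) (Tb.node (nat_lit 10284) (Tb.leaf (nat_lit 10278) (nat_lit 124) (V.cons (nat_lit 189) false (nat_lit 1) V.nil) (Rw.df (nat_lit 189) (nat_lit 0) (nat_lit 0))) (Tb.leaf (nat_lit 10284) (nat_lit 160) (V.cons (nat_lit 225) false (nat_lit 1) V.nil) (Rw.df (nat_lit 225) (nat_lit 0) (nat_lit 0)))) (Tb.node (nat_lit 10288) (Tb.leaf (nat_lit 10286) (nat_lit 163) (V.cons (nat_lit 205) false (nat_lit 1) (V.cons (nat_lit 211) true (nat_lit 1) (V.cons (nat_lit 213) false (nat_lit 1) (V.cons (nat_lit 219) true (nat_lit 1) (V.cons (nat_lit 227) true (nat_lit 1) V.nil))))) (Rw.rw (nat_lit 0) (nat_lit 0) (Ct.cons true (nat_lit 1) (nat_lit 0) (nat_lit 11529222742653009923) Ct.nil))) (Tb.leaf (nat_lit 10288) (nat_lit 186) (V.cons (nat_lit 251) false (nat_lit 1) V.nil) (Rw.df (nat_lit 251) (nat_lit 0) (nat_lit 0))))) tK136)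
def tK138 : Tb := (Tb.node (nat_lit 10321) (Tb.node (nat_lit 10319) (Tb.leaf (nat_lit 10317) (nat_lit 287) (V.cons (nat_lit 298) true (nat_lit 16) (V.cons (nat_lit 300) true (nat_lit 5) (V.cons (nat_lit 302) false (nat_lit 108) (V.cons (nat_lit 304) true (nat_lit 12) (V.cons (nat_lit 306) true (nat_lit 36) (V.cons (nat_lit 308) false (nat_lit 20) (V.cons (nat_lit 310) false (nat_lit 51) (V.cons (nat_lit 312) true (nat_lit 147) (V.cons (nat_lit 314) false (nat_lit 42) (V.cons (nat_lit 316) false (nat_lit 54) (V.cons (nat_lit 318) false (nat_lit 10) (V.cons (nat_lit 320) false (nat_lit 90) (V.cons (nat_lit 322) false (nat_lit 10) (V.cons (nat_lit 324) true (nat_lit 168) (V.cons (nat_lit 326) true (nat_lit 15) (V.cons (nat_lit 328) true (nat_lit 10) (V.cons (nat_lit 330) false (nat_lit 105) (V.cons (nat_lit 332) false (nat_lit 204) (V.cons (nat_lit 334) false (nat_lit 1) V.nil))))))))))))))))))) (Rw.rw (nat_lit 1) (nat_lit 0) (Ct.cons true (nat_lit 1) (nat_lit 1) (nat_lit 8462484196077913167101957)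 Ct.nil))) (Tb.leaf (nat_lit 10319) (nat_lit 271) (V.cons (nat_lit 298) true (nat_lit 8) (V.cons (nat_lit 300) true (nat_lit 1) (V.cons (nat_lit 302) false (nat_lit 57) (V.cons (nat_lit 304) true (nat_lit 6) (V.cons (nat_lit 306) true (nat_lit 21) (V.cons (nat_lit 308) false (nat_lit 11) (V.cons (nat_lit 310) false (nat_lit 23) (V.cons (nat_lit 312) true (nat_lit 72) (V.cons (nat_lit 314) false (nat_lit 24) (V.cons (nat_lit 316) false (nat_lit 24) (V.cons (nat_lit 318) false (nat_lit 4) (V.cons (nat_lit 320) false (nat_lit 45) (V.cons (nat_lit 322) false (nat_lit 4) (V.cons (nat_lit 324) true (nat_lit 75) (V.cons (nat_lit 326) true (nat_lit 12) (V.cons (nat_lit 328) true (nat_lit 4) (V.cons (nat_lit 330) false (nat_lit 48) (V.cons (nat_lit 332) false (nat_lit 93) (V.cons (nat_lit 334) false (nat_lit 1) V.nil))))))))))))))))))) (Rw.rw (nat_lit 2) (nat_lit 0) (Ct.cons false (nat_lit 4) (nat_lit 0) (nat_lit 11529226041192087555) (Ct.cons true (nat_lit 34) (nat_lit 0) (nat_lit 40352260357828378629)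 (Ct.cons false (nat_lit 47) (nat_lit 0) (nat_lit 11529222742660349955) (Ct.cons true (nat_lit 4) (nat_lit 1) (nat_lit 8462488807763931592392707) (Ct.cons false (nat_lit 52) (nat_lit 0) (nat_lit 16140908761087737861) (Ct.cons true (nat_lit 4) (nat_lit 0) (nat_lit 8070480219069218819) (Ct.cons true (nat_lit 24) (nat_lit 0) (nat_lit 11529220543634997251) (Ct.cons false (nat_lit 14) (nat_lit 0) (nat_lit 31128888320973602819) (Ct.cons false (nat_lit 58) (nat_lit 0) (nat_lit 11529232638261854215) (Ct.cons true (nat_lit 96) (nat_lit 0) (nat_lit 8070478020043866115) (Ct.cons true (nat_lit 96) (nat_lit 0) (nat_lit 28823043112736653315) (Ct.cons false (nat_lit 68) (nat_lit 0) (nat_lit 5764635010832269315) (Ct.cons true (nat_lit 2) (nat_lit 1) (nat_lit 8462484196077913167101957) (Ct.cons true (nat_lit 1) (nat_lit 1) (nat_lit 8462486501920922380795907) (Ct.cons false (nat_lit 10) (nat_lit 0) (nat_lit 44963946376255766533) (Ct.cons true (nat_lit 1) (nat_lit 0) (nat_lit 5764630612783661059) (Ct.cons false (nat_lit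 11) (nat_lit 0) (nat_lit 24211357094307168259) (Ct.cons true (nat_lit 15) (nat_lit 0) (nat_lit 16140909860594122757) (Ct.cons false (nat_lit 30) (nat_lit 0) (nat_lit 5764615219641843715) (Ct.cons false (nat_lit 18) (nat_lit 0) (nat_lit 8070486816136888325) (Ct.cons false (nat_lit 23) (nat_lit 0) (nat_lit 9223385231001649155) (Ct.cons true (nat_lit 23) (nat_lit 0) (nat_lit 5764613020614393859) (Ct.cons true (nat_lit 6) (nat_lit 0) (nat_lit 13835073448452292615) (Ct.cons false (nat_lit 6) (nat_lit 0) (nat_lit 33434731330187296771) (Ct.cons false (nat_lit 19) (nat_lit 0) (nat_lit 16140906562062385157) (Ct.cons false (nat_lit 19) (nat_lit 0) (nat_lit 9223387430022807557) (Ct.cons false (nat_lit 46) (nat_lit 0) (nat_lit 8070458228866023429) (Ct.cons true (nat_lit 46) (nat_lit 0) (nat_lit 9223383031976296451) (Ct.cons true (nat_lit 50) (nat_lit 0) (nat_lit 18446751770301431815) (Ct.cons false (nat_lit 12) (nat_lit 0) (nat_lit 13835066851382525955) (Ct.cons true (nat_lit 12) (nat_lit 0) (nat_lit 35740574339398893573)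 (Ct.cons false (nat_lit 16) (nat_lit 0) (nat_lit 11529223842166734851) (Ct.cons true (nat_lit 12) (nat_lit 0) (nat_lit 49575632394683154439) (Ct.cons false (nat_lit 8) (nat_lit 0) (nat_lit 8070458228857634819) (Ct.cons false (nat_lit 4) (nat_lit 0) (nat_lit 26517200103522959363) (Ct.cons false (nat_lit 4) (nat_lit 1) (nat_lit 8462488807770528664256517) (Ct.cons true (nat_lit 24) (nat_lit 0) (nat_lit 35740572140377735173) (Ct.cons true (nat_lit 8) (nat_lit 0) (nat_lit 8070458228868120581) (Ct.cons true (nat_lit 4) (nat_lit 1) (nat_lit 8462486501918723355443203) Ct.nil)))))))))))))))))))))))))))))))))))))))))) (Tb.node (nat_lit 10335) (Tb.leaf (nat_lit 10321) (nat_lit 267) (V.cons (nat_lit 298) true (nat_lit 8) (V.cons (nat_lit 302) false (nat_lit 45) (V.cons (nat_lit 304) true (nat_lit 6) (V.cons (nat_lit 306) true (nat_lit 18) (V.cons (nat_lit 308) false (nat_lit 10) (V.cons (nat_lit 310) false (nat_lit 20) (V.cons (nat_lit 312) true (nat_lit 63) (V.cons (nat_lit 314) false (nat_lit 27) (V.cons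 (nat_lit 316) false (nat_lit 24) (V.cons (nat_lit 318) false (nat_lit 1) (V.cons (nat_lit 320) false (nat_lit 39) (V.cons (nat_lit 322) false (nat_lit 4) (V.cons (nat_lit 324) true (nat_lit 75) (V.cons (nat_lit 326) true (nat_lit 3) (V.cons (nat_lit 328) true (nat_lit 4) (V.cons (nat_lit 330) false (nat_lit 45) (V.cons (nat_lit 332) false (nat_lit 93) (V.cons (nat_lit 334) false (nat_lit 1) V.nil)))))))))))))))))) (Rw.rw (nat_lit 1) (nat_lit 0) (Ct.cons false (nat_lit 24) (nat_lit 0) (nat_lit 16140908761087737861) (Ct.cons true (nat_lit 2) (nat_lit 0) (nat_lit 8070480219069218819) (Ct.cons true (nat_lit 12) (nat_lit 0) (nat_lit 11529220543634997251) (Ct.cons false (nat_lit 6) (nat_lit 0) (nat_lit 31128888320973602819) (Ct.cons false (nat_lit 26) (nat_lit 0) (nat_lit 11529232638261854215) (Ct.cons true (nat_lit 2) (nat_lit 0) (nat_lit 13835073448452292615) (Ct.cons false (nat_lit 2) (nat_lit 0) (nat_lit 33434731330187296771) (Ct.cons true (nat_lit 1) (nat_lit 0) (nat_lit 5764630612783661059) (Ct.cons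 false (nat_lit 5) (nat_lit 0) (nat_lit 24211357094307168259) (Ct.cons true (nat_lit 7) (nat_lit 0) (nat_lit 16140909860594122757) (Ct.cons false (nat_lit 22) (nat_lit 0) (nat_lit 8070458228866023429) (Ct.cons true (nat_lit 22) (nat_lit 0) (nat_lit 9223383031976296451) (Ct.cons false (nat_lit 9) (nat_lit 0) (nat_lit 16140906562062385157) (Ct.cons false (nat_lit 6) (nat_lit 0) (nat_lit 13835066851382525955) (Ct.cons true (nat_lit 6) (nat_lit 0) (nat_lit 35740574339398893573) (Ct.cons false (nat_lit 8) (nat_lit 0) (nat_lit 11529223842166734851) (Ct.cons true (nat_lit 6) (nat_lit 0) (nat_lit 49575632394683154439) (Ct.cons false (nat_lit 11) (nat_lit 0) (nat_lit 9223385231001649155) (Ct.cons true (nat_lit 11) (nat_lit 0) (nat_lit 5764613020614393859) (Ct.cons false (nat_lit 9) (nat_lit 0) (nat_lit 9223387430022807557) (Ct.cons false (nat_lit 8) (nat_lit 0) (nat_lit 8070486816136888325) (Ct.cons true (nat_lit 14) (nat_lit 0) (nat_lit 40352260357828378629) (Ct.cons false (nat_lit 14) (nat_lit 0) (nat_lit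 5764615219641843715) (Ct.cons true (nat_lit 24) (nat_lit 0) (nat_lit 18446751770301431815) (Ct.cons false (nat_lit 4) (nat_lit 0) (nat_lit 8070458228857634819) (Ct.cons false (nat_lit 2) (nat_lit 0) (nat_lit 26517200103522959363) (Ct.cons true (nat_lit 2) (nat_lit 1) (nat_lit 8462488807763931592392707) (Ct.cons true (nat_lit 44) (nat_lit 0) (nat_lit 8070478020043866115) (Ct.cons true (nat_lit 44) (nat_lit 0) (nat_lit 28823043112736653315) (Ct.cons false (nat_lit 24) (nat_lit 0) (nat_lit 11529222742660349955) (Ct.cons false (nat_lit 32) (nat_lit 0) (nat_lit 5764635010832269315) (Ct.cons false (nat_lit 6) (nat_lit 0) (nat_lit 44963946376255766533) (Ct.cons false (nat_lit 2) (nat_lit 1) (nat_lit 8462488807770528664256517) (Ct.cons true (nat_lit 12) (nat_lit 0) (nat_lit 35740572140377735173) (Ct.cons true (nat_lit 4) (nat_lit 0) (nat_lit 8070458228868120581) (Ct.cons true (nat_lit 2) (nat_lit 1) (nat_lit 8462486501918723355443203) Ct.nil)))))))))))))))))))))))))))))))))))))) (Tb.leaf (nat_lit 10335)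 (nat_lit 319) (V.cons (nat_lit 364) false (nat_lit 6) V.nil) (Rw.df (nat_lit 364) (nat_lit 1) (nat_lit 1)))))
def tK139 : Tb := (Tb.node (nat_lit 10341) (Tb.node (nat_lit 10339) (Tb.leaf (nat_lit 10337) (nat_lit 330) (V.cons (nat_lit 336) false (nat_lit 1) (V.cons (nat_lit 338) true (nat_lit 1) (V.cons (nat_lit 340) true (nat_lit 18) (V.cons (nat_lit 344) false (nat_lit 42) (V.cons (nat_lit 348) false (nat_lit 6) (V.cons (nat_lit 350) false (nat_lit 18) (V.cons (nat_lit 352) false (nat_lit 15) (V.cons (nat_lit 356) true (nat_lit 6) (V.cons (nat_lit 362) true (nat_lit 3) (V.cons (nat_lit 364) false (nat_lit 12) (V.cons (nat_lit 366) false (nat_lit 15) (V.cons (nat_lit 368) true (nat_lit 12) (V.cons (nat_lit 370) true (nat_lit 6) V.nil))))))))))))) (Rw.rw (nat_lit 1) (nat_lit 0) (Ct.cons true (nat_lit 1) (nat_lit 0) (nat_lit 11529223842164637699) Ct.nil))) (Tb.leaf (nat_lit 10339) (nat_lit 320) (V.cons (nat_lit 366) false (nat_lit 3) V.nil) (Rw.df (nat_lit 366) (nat_lit 0) (nat_lit 1)))) (Tb.node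 (nat_lit 10343) (Tb.leaf (nat_lit 10341) (nat_lit 435) (V.cons (nat_lit 374) true (nat_lit 43) (V.cons (nat_lit 376) false (nat_lit 17) (V.cons (nat_lit 378) true (nat_lit 38) (V.cons (nat_lit 380) false (nat_lit 76) (V.cons (nat_lit 382) true (nat_lit 47) (V.cons (nat_lit 384) false (nat_lit 8) (V.cons (nat_lit 386) true (nat_lit 26) (V.cons (nat_lit 388) false (nat_lit 16) (V.cons (nat_lit 390) true (nat_lit 2) (V.cons (nat_lit 392) true (nat_lit 16) (V.cons (nat_lit 394) false (nat_lit 26) (V.cons (nat_lit 396) true (nat_lit 4) (V.cons (nat_lit 398) false (nat_lit 88) (V.cons (nat_lit 400) false (nat_lit 82) (V.cons (nat_lit 402) true (nat_lit 134) (V.cons (nat_lit 404) false (nat_lit 160) (V.cons (nat_lit 406) false (nat_lit 113) (V.cons (nat_lit 408) true (nat_lit 248) (V.cons (nat_lit 410) true (nat_lit 332) (V.cons (nat_lit 412) false (nat_lit 152) (V.cons (nat_lit 414) true (nat_lit 10) (V.cons (nat_lit 416) true (nat_lit 113) (V.cons (nat_lit 418) false (nat_lit 11) (V.cons (nat_lit 420)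 false (nat_lit 16) (V.cons (nat_lit 422) true (nat_lit 8) (V.cons (nat_lit 424) false (nat_lit 1) V.nil)))))))))))))))))))))))))) (Rw.rw (nat_lit 2) (nat_lit 0) (Ct.cons true (nat_lit 1) (nat_lit 1) (nat_lit 8462484196077913165004803) Ct.nil))) (Tb.node (nat_lit 10345) (Tb.leaf (nat_lit 10343) (nat_lit 434) (V.cons (nat_lit 374) true (nat_lit 5) (V.cons (nat_lit 376) true (nat_lit 182) (V.cons (nat_lit 378) true (nat_lit 112) (V.cons (nat_lit 380) false (nat_lit 116) (V.cons (nat_lit 382) true (nat_lit 49) (V.cons (nat_lit 384) false (nat_lit 22) (V.cons (nat_lit 386) true (nat_lit 6) (V.cons (nat_lit 388) false (nat_lit 14) (V.cons (nat_lit 390) false (nat_lit 8) (V.cons (nat_lit 392) true (nat_lit 176) (V.cons (nat_lit 394) false (nat_lit 196) (V.cons (nat_lit 396) true (nat_lit 14) (V.cons (nat_lit 398) false (nat_lit 230) (V.cons (nat_lit 400) false (nat_lit 116) (V.cons (nat_lit 402) true (nat_lit 190) (V.cons (nat_lit 404) false (nat_lit 266) (V.cons (nat_lit 406) false (nat_lit 145) (V.cons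 (nat_lit 408) true (nat_lit 424) (V.cons (nat_lit 410) true (nat_lit 556) (V.cons (nat_lit 412) false (nat_lit 256) (V.cons (nat_lit 414) true (nat_lit 20) (V.cons (nat_lit 416) true (nat_lit 172) (V.cons (nat_lit 418) false (nat_lit 34) (V.cons (nat_lit 420) false (nat_lit 26) (V.cons (nat_lit 422) true (nat_lit 18) (V.cons (nat_lit 424) false (nat_lit 1) V.nil)))))))))))))))))))))))))) (Rw.rw (nat_lit 0) (nat_lit 0) (Ct.cons false (nat_lit 1) (nat_lit 0) (nat_lit 5764648204971802627) Ct.nil))) (Tb.leaf (nat_lit 10345) (nat_lit 400) (V.cons (nat_lit 374) false (nat_lit 9) (V.cons (nat_lit 376) false (nat_lit 18) (V.cons (nat_lit 378) false (nat_lit 36) (V.cons (nat_lit 380) true (nat_lit 18) (V.cons (nat_lit 382) false (nat_lit 36) (V.cons (nat_lit 384) true (nat_lit 12) (V.cons (nat_lit 386) false (nat_lit 6) (V.cons (nat_lit 388) true (nat_lit 6) (V.cons (nat_lit 390) true (nat_lit 4) (V.cons (nat_lit 392) false (nat_lit 54) (V.cons (nat_lit 394) true (nat_lit 36) (V.cons (nat_lit 396) true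 (nat_lit 3) (V.cons (nat_lit 398) true (nat_lit 18) (V.cons (nat_lit 400) false (nat_lit 30) (V.cons (nat_lit 402) true (nat_lit 30) (V.cons (nat_lit 404) false (nat_lit 27) (V.cons (nat_lit 406) false (nat_lit 45) (V.cons (nat_lit 408) true (nat_lit 72) (V.cons (nat_lit 410) true (nat_lit 54) (V.cons (nat_lit 412) false (nat_lit 12) (V.cons (nat_lit 414) false (nat_lit 2) (V.cons (nat_lit 416) true (nat_lit 27) (V.cons (nat_lit 418) false (nat_lit 3) (V.cons (nat_lit 422) false (nat_lit 2) (V.cons (nat_lit 424) false (nat_lit 1) V.nil))))))))))))))))))))))))) (Rw.rw (nat_lit 0) (nat_lit 0) (Ct.cons false (nat_lit 1) (nat_lit 0) (nat_lit 5764650403995058179) Ct.nil))))))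
def tK140 : Tb := (Tb.node (nat_lit 10337) tK138 tK139)
def tK141 : Tb := (Tb.node (nat_lit 10317) tK137 tK140)
def tK142 : Tb := (Tb.node (nat_lit 10365) (Tb.node (nat_lit 10363) (Tb.leaf (nat_lit 10361) (nat_lit 515) (V.cons (nat_lit 444) true (nat_lit 12) (V.cons (nat_lit 446) false (nat_lit 12) (V.cons (nat_lit 448) false (nat_lit 93) (V.cons (nat_lit 450) false (nat_lit 12) (V.cons (nat_lit 452) true (nat_lit 24) (V.cons (nat_lit 454) false (nat_lit 54) (V.cons (nat_lit 456) true (nat_lit 48) (V.cons (nat_lit 458) false (nat_lit 12) (V.cons (nat_lit 460) true (nat_lit 16) (V.cons (nat_lit 462) true (nat_lit 29) (V.cons (nat_lit 464) false (nat_lit 24) (V.cons (nat_lit 466) false (nat_lit 51) (V.cons (nat_lit 468) true (nat_lit 42) (V.cons (nat_lit 470) true (nat_lit 12) (V.cons (nat_lit 472) false (nat_lit 27) (V.cons (nat_lit 474) true (nat_lit 17) (V.cons (nat_lit 476) false (nat_lit 48) (V.cons (nat_lit 478) true (nat_lit 42) (V.cons (nat_lit 480) false (nat_lit 48) V.nil)))))))))))))))))))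 (Rw.rw (nat_lit 0) (nat_lit 0) (Ct.cons true (nat_lit 1) (nat_lit 0) (nat_lit 11529230439234404355) Ct.nil))) (Tb.leaf (nat_lit 10363) (nat_lit 501) (V.cons (nat_lit 444) true (nat_lit 12) (V.cons (nat_lit 446) false (nat_lit 12) (V.cons (nat_lit 448) false (nat_lit 96) (V.cons (nat_lit 450) false (nat_lit 12) (V.cons (nat_lit 452) true (nat_lit 24) (V.cons (nat_lit 454) false (nat_lit 54) (V.cons (nat_lit 456) true (nat_lit 51) (V.cons (nat_lit 458) false (nat_lit 12) (V.cons (nat_lit 460) true (nat_lit 16) (V.cons (nat_lit 462) true (nat_lit 31) (V.cons (nat_lit 464) false (nat_lit 18) (V.cons (nat_lit 466) false (nat_lit 57) (V.cons (nat_lit 468) true (nat_lit 42) (V.cons (nat_lit 470) true (nat_lit 12) (V.cons (nat_lit 472) false (nat_lit 27) (V.cons (nat_lit 474) true (nat_lit 19) (V.cons (nat_lit 476) false (nat_lit 54) (V.cons (nat_lit 478) true (nat_lit 42) (V.cons (nat_lit 480) false (nat_lit 48) V.nil))))))))))))))))))) (Rw.rw (nat_lit 1) (nat_lit 0) (Ct.cons true (nat_lit 129) (nat_lit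 0) (nat_lit 11529230439234404355) (Ct.cons false (nat_lit 96) (nat_lit 0) (nat_lit 20752594779515125763) (Ct.cons false (nat_lit 40) (nat_lit 0) (nat_lit 16140912059615281155) (Ct.cons false (nat_lit 32) (nat_lit 0) (nat_lit 44963946376251572227) (Ct.cons false (nat_lit 16) (nat_lit 0) (nat_lit 16140908761094029315) (Ct.cons false (nat_lit 88) (nat_lit 0) (nat_lit 40352260357824184323) (Ct.cons false (nat_lit 64) (nat_lit 0) (nat_lit 8070461527383080963) (Ct.cons true (nat_lit 20) (nat_lit 0) (nat_lit 5764615219662815235) (Ct.cons true (nat_lit 20) (nat_lit 0) (nat_lit 5764622916211703811) (Ct.cons false (nat_lit 40) (nat_lit 0) (nat_lit 51881475403894751235) (Ct.cons false (nat_lit 40) (nat_lit 0) (nat_lit 5764657001064824835) (Ct.cons true (nat_lit 8) (nat_lit 0) (nat_lit 51881473204873592835) (Ct.cons false (nat_lit 36) (nat_lit 0) (nat_lit 16140918656689242115) (Ct.cons false (nat_lit 18) (nat_lit 0) (nat_lit 5764643806921097219) (Ct.cons false (nat_lit 12) (nat_lit 0) (nat_lit 8070491214181302275)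 (Ct.cons false (nat_lit 84) (nat_lit 0) (nat_lit 5764659200088080387) (Ct.cons true (nat_lit 24) (nat_lit 0) (nat_lit 8070456029855350787) (Ct.cons false (nat_lit 36) (nat_lit 0) (nat_lit 18446763864926191623) (Ct.cons true (nat_lit 28) (nat_lit 0) (nat_lit 16140904363041226755) (Ct.cons false (nat_lit 32) (nat_lit 0) (nat_lit 35740569941352382467) (Ct.cons false (nat_lit 14) (nat_lit 0) (nat_lit 5764641607897841667) (Ct.cons true (nat_lit 20) (nat_lit 0) (nat_lit 8070465925429592069) (Ct.cons true (nat_lit 20) (nat_lit 0) (nat_lit 54187316214087286787) (Ct.cons false (nat_lit 16) (nat_lit 0) (nat_lit 54187318413108445187) (Ct.cons true (nat_lit 28) (nat_lit 0) (nat_lit 20752594779519320069) (Ct.cons true (nat_lit 24) (nat_lit 0) (nat_lit 61104847440751624197) (Ct.cons false (nat_lit 36) (nat_lit 0) (nat_lit 28823040913709203459) (Ct.cons true (nat_lit 18) (nat_lit 0) (nat_lit 38046412950566076419) (Ct.cons true (nat_lit 17) (nat_lit 0) (nat_lit 8070489015158046723) (Ct.cons false (nat_lit 92)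 (nat_lit 0) (nat_lit 40352255959781867523) (Ct.cons false (nat_lit 66) (nat_lit 0) (nat_lit 38046415149587234819) (Ct.cons true (nat_lit 66) (nat_lit 0) (nat_lit 16140920855712497669) (Ct.cons false (nat_lit 42) (nat_lit 0) (nat_lit 16140906562068676611) (Ct.cons false (nat_lit 2) (nat_lit 1) (nat_lit 3626780917623794514788357) (Ct.cons false (nat_lit 10) (nat_lit 1) (nat_lit 8462484196082311211515907) (Ct.cons true (nat_lit 6) (nat_lit 1) (nat_lit 3626780917617197442924547) (Ct.cons false (nat_lit 12) (nat_lit 0) (nat_lit 8070508806371540997) (Ct.cons true (nat_lit 30) (nat_lit 0) (nat_lit 9223389629043965955) (Ct.cons false (nat_lit 12) (nat_lit 0) (nat_lit 18446752869805719555) (Ct.cons false (nat_lit 2) (nat_lit 1) (nat_lit 8462484196086709260124165) (Ct.cons true (nat_lit 5) (nat_lit 1) (nat_lit 3626780917619396468277251) Ct.nil)))))))))))))))))))))))))))))))))))))))))))) (Tb.node (nat_lit 10367) (Tb.leaf (nat_lit 10365) (nat_lit 557) (V.cons (nat_lit 518) false (nat_lit 1) V.nil) (Rw.df (nat_lit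 518) (nat_lit 0) (nat_lit 0))) (Tb.node (nat_lit 10369) (Tb.leaf (nat_lit 10367) (nat_lit 581) (V.cons (nat_lit 482) true (nat_lit 18) (V.cons (nat_lit 484) false (nat_lit 6) (V.cons (nat_lit 486) true (nat_lit 3) (V.cons (nat_lit 488) true (nat_lit 6) (V.cons (nat_lit 490) false (nat_lit 18) (V.cons (nat_lit 492) false (nat_lit 24) (V.cons (nat_lit 494) true (nat_lit 18) (V.cons (nat_lit 496) false (nat_lit 96) (V.cons (nat_lit 498) true (nat_lit 78) (V.cons (nat_lit 500) true (nat_lit 22) (V.cons (nat_lit 502) true (nat_lit 12) (V.cons (nat_lit 504) false (nat_lit 4) (V.cons (nat_lit 506) false (nat_lit 102) (V.cons (nat_lit 508) false (nat_lit 72) (V.cons (nat_lit 510) false (nat_lit 78) (V.cons (nat_lit 512) false (nat_lit 15) (V.cons (nat_lit 514) true (nat_lit 24) (V.cons (nat_lit 516) true (nat_lit 84) (V.cons (nat_lit 518) false (nat_lit 1) V.nil))))))))))))))))))) (Rw.rw (nat_lit 0) (nat_lit 0) (Ct.cons true (nat_lit 1) (nat_lit 0) (nat_lit 20752592580491870211) Ct.nil))) (Tb.leaf (nat_lit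 10369) (nat_lit 582) (V.cons (nat_lit 482) true (nat_lit 36) (V.cons (nat_lit 484) false (nat_lit 16) (V.cons (nat_lit 486) true (nat_lit 3) (V.cons (nat_lit 488) true (nat_lit 12) (V.cons (nat_lit 490) false (nat_lit 36) (V.cons (nat_lit 492) false (nat_lit 50) (V.cons (nat_lit 494) true (nat_lit 32) (V.cons (nat_lit 496) false (nat_lit 150) (V.cons (nat_lit 498) true (nat_lit 132) (V.cons (nat_lit 500) true (nat_lit 36) (V.cons (nat_lit 502) true (nat_lit 24) (V.cons (nat_lit 504) false (nat_lit 8) (V.cons (nat_lit 506) false (nat_lit 180) (V.cons (nat_lit 508) false (nat_lit 126) (V.cons (nat_lit 510) false (nat_lit 156) (V.cons (nat_lit 512) false (nat_lit 18) (V.cons (nat_lit 514) true (nat_lit 24) (V.cons (nat_lit 516) true (nat_lit 144) (V.cons (nat_lit 518) false (nat_lit 1) V.nil))))))))))))))))))) (Rw.rw (nat_lit 0) (nat_lit 0) (Ct.cons false (nat_lit 1) (nat_lit 0) (nat_lit 18446751770309820421) Ct.nil))))))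
def tK143 : Tb := (Tb.node (nat_lit 10361) (Tb.node (nat_lit 10351) (Tb.node (nat_lit 10349) (Tb.leaf (nat_lit 10347) (nat_lit 430) (V.cons (nat_lit 374) true (nat_lit 33) (V.cons (nat_lit 376) true (nat_lit 96) (V.cons (nat_lit 378) true (nat_lit 84) (V.cons (nat_lit 380) false (nat_lit 114) (V.cons (nat_lit 382) true (nat_lit 57) (V.cons (nat_lit 384) false (nat_lit 18) (V.cons (nat_lit 386) true (nat_lit 20) (V.cons (nat_lit 388) false (nat_lit 18) (V.cons (nat_lit 390) false (nat_lit 4) (V.cons (nat_lit 392) true (nat_lit 114) (V.cons (nat_lit 394) false (nat_lit 129) (V.cons (nat_lit 396) true (nat_lit 9) (V.cons (nat_lit 398) false (nat_lit 168) (V.cons (nat_lit 400) false (nat_lit 96) (V.cons (nat_lit 402) true (nat_lit 168) (V.cons (nat_lit 404) false (nat_lit 213) (V.cons (nat_lit 406) false (nat_lit 129) (V.cons (nat_lit 408) true (nat_lit 336) (V.cons (nat_lit 410) true (nat_lit 444) (V.cons (nat_lit 412) false (nat_lit 216) (V.cons (nat_lit 414) true (nat_lit 16) (V.cons (nat_lit 416)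 true (nat_lit 147) (V.cons (nat_lit 418) false (nat_lit 24) (V.cons (nat_lit 420) false (nat_lit 22) (V.cons (nat_lit 422) true (nat_lit 14) (V.cons (nat_lit 424) false (nat_lit 1) V.nil)))))))))))))))))))))))))) (Rw.rw (nat_lit 0) (nat_lit 0) (Ct.cons false (nat_lit 1) (nat_lit 0) (nat_lit 11529220543641288707) Ct.nil))) (Tb.leaf (nat_lit 10349) (nat_lit 413) (V.cons (nat_lit 374) false (nat_lit 9) (V.cons (nat_lit 376) true (nat_lit 252) (V.cons (nat_lit 378) true (nat_lit 126) (V.cons (nat_lit 380) false (nat_lit 126) (V.cons (nat_lit 382) true (nat_lit 45) (V.cons (nat_lit 384) false (nat_lit 24) (V.cons (nat_lit 386) false (nat_lit 4) (V.cons (nat_lit 388) false (nat_lit 12) (V.cons (nat_lit 390) false (nat_lit 16) (V.cons (nat_lit 392) true (nat_lit 234) (V.cons (nat_lit 394) false (nat_lit 243) (V.cons (nat_lit 396) true (nat_lit 21) (V.cons (nat_lit 398) false (nat_lit 270) (V.cons (nat_lit 400) false (nat_lit 90) (V.cons (nat_lit 402) true (nat_lit 168) (V.cons (nat_lit 404) false (nat_lit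 243) (V.cons (nat_lit 406) false (nat_lit 117) (V.cons (nat_lit 408) true (nat_lit 396) (V.cons (nat_lit 410) true (nat_lit 486) (V.cons (nat_lit 412) false (nat_lit 240) (V.cons (nat_lit 414) true (nat_lit 18) (V.cons (nat_lit 416) true (nat_lit 153) (V.cons (nat_lit 418) false (nat_lit 42) (V.cons (nat_lit 420) false (nat_lit 22) (V.cons (nat_lit 422) true (nat_lit 20) (V.cons (nat_lit 424) false (nat_lit 1) V.nil)))))))))))))))))))))))))) (Rw.rw (nat_lit 0) (nat_lit 0) (Ct.cons true (nat_lit 1) (nat_lit 0) (nat_lit 54187318413108445189) Ct.nil)))) (Tb.node (nat_lit 10359) (Tb.leaf (nat_lit 10351) (nat_lit 438) (V.cons (nat_lit 374) true (nat_lit 25) (V.cons (nat_lit 376) false (nat_lit 53) (V.cons (nat_lit 378) false (nat_lit 16) (V.cons (nat_lit 380) false (nat_lit 22) (V.cons (nat_lit 382) false (nat_lit 7) (V.cons (nat_lit 384) true (nat_lit 4) (V.cons (nat_lit 386) true (nat_lit 16) (V.cons (nat_lit 388) false (nat_lit 4) (V.cons (nat_lit 390) true (nat_lit 6) (V.cons (nat_lit 392) false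 (nat_lit 38) (V.cons (nat_lit 394) true (nat_lit 37) (V.cons (nat_lit 396) true (nat_lit 1) (V.cons (nat_lit 398) false (nat_lit 16) (V.cons (nat_lit 400) false (nat_lit 52) (V.cons (nat_lit 402) true (nat_lit 74) (V.cons (nat_lit 404) false (nat_lit 79) (V.cons (nat_lit 406) false (nat_lit 77) (V.cons (nat_lit 408) true (nat_lit 140) (V.cons (nat_lit 410) true (nat_lit 170) (V.cons (nat_lit 412) false (nat_lit 74) (V.cons (nat_lit 414) true (nat_lit 4) (V.cons (nat_lit 416) true (nat_lit 68) (V.cons (nat_lit 418) false (nat_lit 5) (V.cons (nat_lit 420) false (nat_lit 6) (V.cons (nat_lit 424) false (nat_lit 1) V.nil))))))))))))))))))))))))) (Rw.rw (nat_lit 0) (nat_lit 0) (Ct.cons true (nat_lit 1) (nat_lit 0) (nat_lit 5764618518165192707) Ct.nil))) (Tb.leaf (nat_lit 10359) (nat_lit 492) (V.cons (nat_lit 474) false (nat_lit 1) V.nil) (Rw.df (nat_lit 474) (nat_lit 0) (nat_lit 0))))) tK142)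
def tK144 : Tb := (Tb.node (nat_lit 12308) (Tb.node (nat_lit 12305) (Tb.leaf (nat_lit 12301) (nat_lit 52) (V.cons (nat_lit 84) false (nat_lit 1) (V.cons (nat_lit 86) true (nat_lit 1) (V.cons (nat_lit 90) true (nat_lit 1) (V.cons (nat_lit 92) false (nat_lit 1) V.nil)))) (Rw.rw (nat_lit 0) (nat_lit 0) (Ct.cons false (nat_lit 1) (nat_lit 0) (nat_lit 5764615219620872195) Ct.nil))) (Tb.leaf (nat_lit 12305) (nat_lit 72) (V.cons (nat_lit 116) false (nat_lit 2) (V.cons (nat_lit 118) true (nat_lit 2) V.nil)) (Rw.rw (nat_lit 0) (nat_lit 0) (Ct.cons false (nat_lit 1) (nat_lit 0) (nat_lit 5764610821574361091) Ct.nil)))) (Tb.node (nat_lit 12318) (Tb.leaf (nat_lit 12308) (nat_lit 86) (V.cons (nat_lit 143) false (nat_lit 1) V.nil) (Rw.df (nat_lit 143) (nat_lit 0) (nat_lit 0))) (Tb.node (nat_lit 12320) (Tb.leaf (nat_lit 12318) (nat_lit 132) (V.cons (nat_lit 165) false (nat_lit 1) (V.cons (nat_lit 167) true (nat_lit 4) (V.cons (nat_lit 169) true (nat_lit 1) (V.cons (nat_lit 171) false (nat_lit 1) (V.cons (nat_lit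 173) true (nat_lit 1) (V.cons (nat_lit 175) false (nat_lit 1) (V.cons (nat_lit 177) false (nat_lit 2) (V.cons (nat_lit 181) false (nat_lit 3) (V.cons (nat_lit 183) true (nat_lit 2) (V.cons (nat_lit 185) true (nat_lit 3) (V.cons (nat_lit 187) false (nat_lit 1) (V.cons (nat_lit 189) false (nat_lit 2) V.nil)))))))))))) (Rw.rw (nat_lit 0) (nat_lit 0) (Ct.cons true (nat_lit 1) (nat_lit 0) (nat_lit 8070458228841906179) Ct.nil))) (Tb.leaf (nat_lit 12320) (nat_lit 128) (V.cons (nat_lit 169) true (nat_lit 1) (V.cons (nat_lit 173) true (nat_lit 1) (V.cons (nat_lit 177) false (nat_lit 1) (V.cons (nat_lit 179) false (nat_lit 1) (V.cons (nat_lit 189) false (nat_lit 1) V.nil))))) (Rw.rw (nat_lit 0) (nat_lit 0) (Ct.cons true (nat_lit 1) (nat_lit 0) (nat_lit 16140906562061336581) (Ct.cons false (nat_lit 1) (nat_lit 0) (nat_lit 11529222742655107075) Ct.nil)))))))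
def tK145 : Tb := (Tb.node (nat_lit 12340) (Tb.node (nat_lit 12334) (Tb.leaf (nat_lit 12332) (nat_lit 191) (V.cons (nat_lit 233) false (nat_lit 1) (V.cons (nat_lit 235) false (nat_lit 1) (V.cons (nat_lit 241) true (nat_lit 1) (V.cons (nat_lit 245) true (nat_lit 1) (V.cons (nat_lit 253) false (nat_lit 1) V.nil))))) (Rw.rw (nat_lit 0) (nat_lit 0) (Ct.cons true (nat_lit 1) (nat_lit 0) (nat_lit 5764622916202266627) (Ct.cons false (nat_lit 1) (nat_lit 0) (nat_lit 5764615219632406531) Ct.nil)))) (Tb.leaf (nat_lit 12334) (nat_lit 195) (V.cons (nat_lit 229) true (nat_lit 2) (V.cons (nat_lit 231) false (nat_lit 3) (V.cons (nat_lit 235) true (nat_lit 1) (V.cons (nat_lit 237) true (nat_lit 1) (V.cons (nat_lit 239) false (nat_lit 3) (V.cons (nat_lit 241) true (nat_lit 1) (V.cons (nat_lit 245) true (nat_lit 1) (V.cons (nat_lit 247) true (nat_lit 1) (V.cons (nat_lit 249) false (nat_lit 4) (V.cons (nat_lit 251) false (nat_lit 2) (V.cons (nat_lit 253) true (nat_lit 1) V.nil))))))))))) (Rw.rw (nat_lit 0) (nat_lit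 0) (Ct.cons true (nat_lit 1) (nat_lit 0) (nat_lit 13835065751866703875) Ct.nil)))) (Tb.node (nat_lit 12353) (Tb.leaf (nat_lit 12340) (nat_lit 236) (V.cons (nat_lit 295) false (nat_lit 1) V.nil) (Rw.df (nat_lit 295) (nat_lit 0) (nat_lit 0))) (Tb.node (nat_lit 12355) (Tb.leaf (nat_lit 12353) (nat_lit 300) (V.cons (nat_lit 298) true (nat_lit 40) (V.cons (nat_lit 300) true (nat_lit 14) (V.cons (nat_lit 302) false (nat_lit 288) (V.cons (nat_lit 304) true (nat_lit 31) (V.cons (nat_lit 306) true (nat_lit 93) (V.cons (nat_lit 308) false (nat_lit 50) (V.cons (nat_lit 310) false (nat_lit 129) (V.cons (nat_lit 312) true (nat_lit 372) (V.cons (nat_lit 314) false (nat_lit 102) (V.cons (nat_lit 316) false (nat_lit 126) (V.cons (nat_lit 318) false (nat_lit 34) (V.cons (nat_lit 320) false (nat_lit 237) (V.cons (nat_lit 322) false (nat_lit 21) (V.cons (nat_lit 324) true (nat_lit 414) (V.cons (nat_lit 326) true (nat_lit 63) (V.cons (nat_lit 328) true (nat_lit 21) (V.cons (nat_lit 330) false (nat_lit 264) (V.cons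 (nat_lit 332) false (nat_lit 507) (V.cons (nat_lit 334) false (nat_lit 1) V.nil))))))))))))))))))) (Rw.rw (nat_lit 0) (nat_lit 0) (Ct.cons false (nat_lit 1) (nat_lit 0) (nat_lit 8070459328353533955) Ct.nil))) (Tb.leaf (nat_lit 12355) (nat_lit 301) (V.cons (nat_lit 298) true (nat_lit 15) (V.cons (nat_lit 300) true (nat_lit 4) (V.cons (nat_lit 302) false (nat_lit 110) (V.cons (nat_lit 304) true (nat_lit 11) (V.cons (nat_lit 306) true (nat_lit 38) (V.cons (nat_lit 308) false (nat_lit 20) (V.cons (nat_lit 310) false (nat_lit 45) (V.cons (nat_lit 312) true (nat_lit 143) (V.cons (nat_lit 314) false (nat_lit 50) (V.cons (nat_lit 316) false (nat_lit 32) (V.cons (nat_lit 318) false (nat_lit 16) (V.cons (nat_lit 320) false (nat_lit 98) (V.cons (nat_lit 322) false (nat_lit 3) (V.cons (nat_lit 324) true (nat_lit 136) (V.cons (nat_lit 326) true (nat_lit 49) (V.cons (nat_lit 328) true (nat_lit 3) (V.cons (nat_lit 330) false (nat_lit 94) (V.cons (nat_lit 332) false (nat_lit 179) (V.cons (nat_lit 334) false (nat_lit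 1) V.nil))))))))))))))))))) (Rw.rw (nat_lit 0) (nat_lit 0) (Ct.cons false (nat_lit 1) (nat_lit 0) (nat_lit 13835066851382525955) Ct.nil))))))
def tK146 : Tb := (Tb.node (nat_lit 12332) tK144 tK145)
def tK147 : Tb := (Tb.node (nat_lit 12301) tK143 tK146)
def tK148 : Tb := (Tb.node (nat_lit 10347) tK141 tK147)
def tK149 : Tb := (Tb.node (nat_lit 12411) (Tb.node (nat_lit 12409) (Tb.leaf (nat_lit 12407) (nat_lit 598) (V.cons (nat_lit 482) false (nat_lit 17) (V.cons (nat_lit 484) true (nat_lit 11) (V.cons (nat_lit 486) true (nat_lit 4) (V.cons (nat_lit 488) true (nat_lit 12) (V.cons (nat_lit 490) true (nat_lit 11) (V.cons (nat_lit 492) true (nat_lit 25) (V.cons (nat_lit 494) true (nat_lit 7) (V.cons (nat_lit 496) false (nat_lit 15) (V.cons (nat_lit 498) false (nat_lit 9) (V.cons (nat_lit 500) false (nat_lit 13) (V.cons (nat_lit 502) false (nat_lit 2) (V.cons (nat_lit 504) true (nat_lit 2) (V.cons (nat_lit 506) true (nat_lit 9) (V.cons (nat_lit 508) true (nat_lit 21) (V.cons (nat_lit 510) true (nat_lit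 48) (V.cons (nat_lit 512) false (nat_lit 15) (V.cons (nat_lit 514) true (nat_lit 42) (V.cons (nat_lit 516) true (nat_lit 15) (V.cons (nat_lit 518) false (nat_lit 1) V.nil))))))))))))))))))) (Rw.rw (nat_lit 0) (nat_lit 0) (Ct.cons true (nat_lit 1) (nat_lit 0) (nat_lit 16140914258638536707) Ct.nil))) (Tb.leaf (nat_lit 12409) (nat_lit 599) (V.cons (nat_lit 482) true (nat_lit 50) (V.cons (nat_lit 484) false (nat_lit 17) (V.cons (nat_lit 486) true (nat_lit 5) (V.cons (nat_lit 488) true (nat_lit 21) (V.cons (nat_lit 490) false (nat_lit 56) (V.cons (nat_lit 492) false (nat_lit 61) (V.cons (nat_lit 494) true (nat_lit 44) (V.cons (nat_lit 496) false (nat_lit 210) (V.cons (nat_lit 498) true (nat_lit 180) (V.cons (nat_lit 500) true (nat_lit 48) (V.cons (nat_lit 502) true (nat_lit 33) (V.cons (nat_lit 504) false (nat_lit 9) (V.cons (nat_lit 506) false (nat_lit 252) (V.cons (nat_lit 508) false (nat_lit 168) (V.cons (nat_lit 510) false (nat_lit 207) (V.cons (nat_lit 512) false (nat_lit 21) (V.cons (nat_lit 514)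 true (nat_lit 33) (V.cons (nat_lit 516) true (nat_lit 192) (V.cons (nat_lit 518) false (nat_lit 1) V.nil))))))))))))))))))) (Rw.rw (nat_lit 0) (nat_lit 0) (Ct.cons true (nat_lit 1) (nat_lit 0) (nat_lit 13835073448448098307) Ct.nil)))) (Tb.node (nat_lit 14351) (Tb.leaf (nat_lit 12411) (nat_lit 592) (V.cons (nat_lit 482) false (nat_lit 49) (V.cons (nat_lit 484) true (nat_lit 27) (V.cons (nat_lit 486) true (nat_lit 5) (V.cons (nat_lit 490) true (nat_lit 43) (V.cons (nat_lit 492) true (nat_lit 75) (V.cons (nat_lit 494) false (nat_lit 23) (V.cons (nat_lit 496) true (nat_lit 105) (V.cons (nat_lit 498) false (nat_lit 135) (V.cons (nat_lit 500) false (nat_lit 45) (V.cons (nat_lit 502) false (nat_lit 26) (V.cons (nat_lit 504) true (nat_lit 14) (V.cons (nat_lit 506) true (nat_lit 171) (V.cons (nat_lit 508) true (nat_lit 147) (V.cons (nat_lit 510) true (nat_lit 198) (V.cons (nat_lit 512) false (nat_lit 3) (V.cons (nat_lit 514) true (nat_lit 24) (V.cons (nat_lit 516) false (nat_lit 105) (V.cons (nat_lit 518)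 false (nat_lit 1) V.nil)))))))))))))))))) (Rw.rw (nat_lit 0) (nat_lit 0) (Ct.cons false (nat_lit 1) (nat_lit 0) (nat_lit 13835065751882432515) Ct.nil))) (Tb.node (nat_lit 14353) (Tb.leaf (nat_lit 14351) (nat_lit 66) (V.cons (nat_lit 102) false (nat_lit 1) (V.cons (nat_lit 104) true (nat_lit 1) (V.cons (nat_lit 110) false (nat_lit 1) (V.cons (nat_lit 112) true (nat_lit 1) V.nil)))) (Rw.rw (nat_lit 0) (nat_lit 0) (Ct.cons true (nat_lit 1) (nat_lit 0) (nat_lit 5764615219618775043) Ct.nil))) (Tb.leaf (nat_lit 14353) (nat_lit 76) (V.cons (nat_lit 122) false (nat_lit 1) (V.cons (nat_lit 124) true (nat_lit 1) V.nil)) (Rw.rw (nat_lit 0) (nat_lit 0) (Ct.cons false (nat_lit 1) (nat_lit 0) (nat_lit 8070453830785957891) Ct.nil))))))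
def tK150 : Tb := (Tb.node (nat_lit 12407) (Tb.node (nat_lit 12385) (Tb.node (nat_lit 12383) (Tb.leaf (nat_lit 12357) (nat_lit 302) (V.cons (nat_lit 298) true (nat_lit 14) (V.cons (nat_lit 300) true (nat_lit 4) (V.cons (nat_lit 302) false (nat_lit 110) (V.cons (nat_lit 304) true (nat_lit 10) (V.cons (nat_lit 306) true (nat_lit 38) (V.cons (nat_lit 308) false (nat_lit 20) (V.cons (nat_lit 310) false (nat_lit 48) (V.cons (nat_lit 312) true (nat_lit 152) (V.cons (nat_lit 314) false (nat_lit 50) (V.cons (nat_lit 316) false (nat_lit 41) (V.cons (nat_lit 318) false (nat_lit 10) (V.cons (nat_lit 320) false (nat_lit 92) (V.cons (nat_lit 322) false (nat_lit 7) (V.cons (nat_lit 324) true (nat_lit 139) (V.cons (nat_lit 326) true (nat_lit 34) (V.cons (nat_lit 328) true (nat_lit 7) (V.cons (nat_lit 330) false (nat_lit 91) (V.cons (nat_lit 332) false (nat_lit 182) (V.cons (nat_lit 334) false (nat_lit 1) V.nil))))))))))))))))))) (Rw.rw (nat_lit 1) (nat_lit 0) (Ct.cons false (nat_lit 1) (nat_lit 1) (nat_lit 8462488807766130617745411)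 Ct.nil))) (Tb.leaf (nat_lit 12383) (nat_lit 406) (V.cons (nat_lit 374) true (nat_lit 162) (V.cons (nat_lit 376) false (nat_lit 252) (V.cons (nat_lit 378) false (nat_lit 18) (V.cons (nat_lit 380) false (nat_lit 144) (V.cons (nat_lit 382) true (nat_lit 144) (V.cons (nat_lit 384) false (nat_lit 12) (V.cons (nat_lit 386) true (nat_lit 84) (V.cons (nat_lit 388) false (nat_lit 42) (V.cons (nat_lit 390) true (nat_lit 2) (V.cons (nat_lit 392) false (nat_lit 54) (V.cons (nat_lit 394) true (nat_lit 126) (V.cons (nat_lit 396) false (nat_lit 6) (V.cons (nat_lit 398) true (nat_lit 54) (V.cons (nat_lit 400) true (nat_lit 18) (V.cons (nat_lit 402) true (nat_lit 54) (V.cons (nat_lit 406) false (nat_lit 36) (V.cons (nat_lit 408) false (nat_lit 36) (V.cons (nat_lit 410) false (nat_lit 18) (V.cons (nat_lit 412) false (nat_lit 54) (V.cons (nat_lit 414) false (nat_lit 2) (V.cons (nat_lit 416) true (nat_lit 18) (V.cons (nat_lit 418) true (nat_lit 18) (V.cons (nat_lit 420) false (nat_lit 6) (V.cons (nat_lit 422) true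 (nat_lit 6) (V.cons (nat_lit 424) false (nat_lit 1) V.nil))))))))))))))))))))))))) (Rw.rw (nat_lit 0) (nat_lit 0) (Ct.cons false (nat_lit 1) (nat_lit 0) (nat_lit 5764641607899938819) Ct.nil)))) (Tb.node (nat_lit 12387) (Tb.leaf (nat_lit 12385) (nat_lit 422) (V.cons (nat_lit 374) true (nat_lit 78) (V.cons (nat_lit 376) false (nat_lit 318) (V.cons (nat_lit 378) false (nat_lit 150) (V.cons (nat_lit 380) true (nat_lit 30) (V.cons (nat_lit 382) false (nat_lit 15) (V.cons (nat_lit 384) true (nat_lit 21) (V.cons (nat_lit 386) true (nat_lit 48) (V.cons (nat_lit 388) false (nat_lit 3) (V.cons (nat_lit 390) true (nat_lit 20) (V.cons (nat_lit 392) false (nat_lit 246) (V.cons (nat_lit 394) true (nat_lit 276) (V.cons (nat_lit 396) false (nat_lit 18) (V.cons (nat_lit 398) true (nat_lit 210) (V.cons (nat_lit 400) true (nat_lit 18) (V.cons (nat_lit 404) true (nat_lit 75) (V.cons (nat_lit 406) false (nat_lit 30) (V.cons (nat_lit 408) false (nat_lit 141) (V.cons (nat_lit 410) false (nat_lit 150) (V.cons (nat_lit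 412) true (nat_lit 60) (V.cons (nat_lit 414) false (nat_lit 10) (V.cons (nat_lit 416) false (nat_lit 24) (V.cons (nat_lit 418) true (nat_lit 36) (V.cons (nat_lit 420) true (nat_lit 6) (V.cons (nat_lit 422) false (nat_lit 12) (V.cons (nat_lit 424) false (nat_lit 1) V.nil))))))))))))))))))))))))) (Rw.rw (nat_lit 2) (nat_lit 0) (Ct.cons true (nat_lit 2) (nat_lit 0) (nat_lit 54187316214087286789) (Ct.cons false (nat_lit 1) (nat_lit 0) (nat_lit 20752592580489773061) Ct.nil)))) (Tb.leaf (nat_lit 12387) (nat_lit 432) (V.cons (nat_lit 374) true (nat_lit 15) (V.cons (nat_lit 376) false (nat_lit 336) (V.cons (nat_lit 378) false (nat_lit 231) (V.cons (nat_lit 380) true (nat_lit 156) (V.cons (nat_lit 382) false (nat_lit 123) (V.cons (nat_lit 384) true (nat_lit 42) (V.cons (nat_lit 386) true (nat_lit 14) (V.cons (nat_lit 388) true (nat_lit 24) (V.cons (nat_lit 390) true (nat_lit 29) (V.cons (nat_lit 392) false (nat_lit 363) (V.cons (nat_lit 394) true (nat_lit 357) (V.cons (nat_lit 396) false (nat_lit 24) (V.cons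 (nat_lit 398) true (nat_lit 345) (V.cons (nat_lit 400) true (nat_lit 57) (V.cons (nat_lit 402) false (nat_lit 93) (V.cons (nat_lit 404) true (nat_lit 201) (V.cons (nat_lit 406) true (nat_lit 15) (V.cons (nat_lit 408) false (nat_lit 303) (V.cons (nat_lit 410) false (nat_lit 393) (V.cons (nat_lit 412) true (nat_lit 195) (V.cons (nat_lit 414) false (nat_lit 21) (V.cons (nat_lit 416) false (nat_lit 105) (V.cons (nat_lit 418) true (nat_lit 48) (V.cons (nat_lit 420) true (nat_lit 21) (V.cons (nat_lit 422) false (nat_lit 27) (V.cons (nat_lit 424) false (nat_lit 1) V.nil)))))))))))))))))))))))))) (Rw.rw (nat_lit 1) (nat_lit 0) (Ct.cons false (nat_lit 1) (nat_lit 0) (nat_lit 13835066851378331651) Ct.nil))))) tK149)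
def tK151 : Tb := (Tb.node (nat_lit 14362) (Tb.node (nat_lit 14360) (Tb.leaf (nat_lit 14358) (nat_lit 111) (V.cons (nat_lit 145) true (nat_lit 2) (V.cons (nat_lit 147) true (nat_lit 1) (V.cons (nat_lit 149) false (nat_lit 2) (V.cons (nat_lit 151) false (nat_lit 3) (V.cons (nat_lit 153) true (nat_lit 5) (V.cons (nat_lit 159) false (nat_lit 3) (V.cons (nat_lit 161) true (nat_lit 3) V.nil))))))) (Rw.rw (nat_lit 0) (nat_lit 0) (Ct.cons true (nat_lit 1) (nat_lit 0) (nat_lit 9223379733441413123) Ct.nil))) (Tb.leaf (nat_lit 14360) (nat_lit 102) (V.cons (nat_lit 145) false (nat_lit 1) (V.cons (nat_lit 147) true (nat_lit 1) (V.cons (nat_lit 153) false (nat_lit 1) (V.cons (nat_lit 159) true (nat_lit 1) (V.cons (nat_lit 163) true (nat_lit 1) V.nil))))) (Rw.rw (nat_lit 0) (nat_lit 0) (Ct.cons true (nat_lit 1) (nat_lit 0) (nat_lit 11529222742657204227) Ct.nil)))) (Tb.node (nat_lit 14364) (Tb.leaf (nat_lit 14362) (nat_lit 136) (V.cons (nat_lit 165) true (nat_lit 2) (V.cons (nat_lit 167) false (nat_lit 4) (V.cons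 (nat_lit 171) false (nat_lit 2) (V.cons (nat_lit 173) true (nat_lit 2) (V.cons (nat_lit 175) false (nat_lit 1) (V.cons (nat_lit 177) true (nat_lit 5) (V.cons (nat_lit 179) false (nat_lit 2) (V.cons (nat_lit 187) true (nat_lit 1) (V.cons (nat_lit 189) true (nat_lit 2) V.nil))))))))) (Rw.rw (nat_lit 0) (nat_lit 0) (Ct.cons true (nat_lit 1) (nat_lit 0) (nat_lit 8070465925415960581) Ct.nil))) (Tb.node (nat_lit 14366) (Tb.leaf (nat_lit 14364) (nat_lit 131) (V.cons (nat_lit 167) false (nat_lit 4) (V.cons (nat_lit 169) false (nat_lit 1) (V.cons (nat_lit 171) true (nat_lit 2) (V.cons (nat_lit 173) false (nat_lit 1) (V.cons (nat_lit 175) true (nat_lit 1) (V.cons (nat_lit 177) true (nat_lit 2) (V.cons (nat_lit 179) true (nat_lit 1) (V.cons (nat_lit 181) true (nat_lit 1) (V.cons (nat_lit 183) false (nat_lit 1) (V.cons (nat_lit 185) false (nat_lit 2) (V.cons (nat_lit 187) true (nat_lit 2) (V.cons (nat_lit 189) true (nat_lit 3) V.nil)))))))))))) (Rw.rw (nat_lit 0) (nat_lit 0) (Ct.cons true (nat_lit 1) (nat_lit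 0) (nat_lit 13835065751870898179) Ct.nil))) (Tb.leaf (nat_lit 14366) (nat_lit 143) (V.cons (nat_lit 201) false (nat_lit 1) V.nil) (Rw.df (nat_lit 201) (nat_lit 0) (nat_lit 0))))))
def tK152 : Tb := (Tb.node (nat_lit 14372) (Tb.node (nat_lit 14370) (Tb.leaf (nat_lit 14368) (nat_lit 144) (V.cons (nat_lit 193) true (nat_lit 1) (V.cons (nat_lit 199) false (nat_lit 1) (V.cons (nat_lit 201) true (nat_lit 1) V.nil))) (Rw.rw (nat_lit 0) (nat_lit 0) (Ct.cons true (nat_lit 1) (nat_lit 0) (nat_lit 8070458228844003331) Ct.nil))) (Tb.leaf (nat_lit 14370) (nat_lit 161) (V.cons (nat_lit 227) false (nat_lit 1) V.nil) (Rw.df (nat_lit 227) (nat_lit 0) (nat_lit 0)))) (Tb.node (nat_lit 14374) (Tb.leaf (nat_lit 14372) (nat_lit 173) (V.cons (nat_lit 203) false (nat_lit 1) (V.cons (nat_lit 205) true (nat_lit 1) (V.cons (nat_lit 207) true (nat_lit 3) (V.cons (nat_lit 211) false (nat_lit 3) (V.cons (nat_lit 213) true (nat_lit 3) (V.cons (nat_lit 215) true (nat_lit 2) (V.cons (nat_lit 217) false (nat_lit 5) (V.cons (nat_lit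 219) false (nat_lit 2) (V.cons (nat_lit 221) true (nat_lit 2) (V.cons (nat_lit 225) false (nat_lit 2) (V.cons (nat_lit 227) true (nat_lit 1) V.nil))))))))))) (Rw.rw (nat_lit 0) (nat_lit 0) (Ct.cons true (nat_lit 1) (nat_lit 0) (nat_lit 5764615219630309379) Ct.nil))) (Tb.node (nat_lit 14376) (Tb.leaf (nat_lit 14374) (nat_lit 164) (V.cons (nat_lit 207) false (nat_lit 1) (V.cons (nat_lit 221) true (nat_lit 1) (V.cons (nat_lit 225) true (nat_lit 1) V.nil))) (Rw.rw (nat_lit 0) (nat_lit 0) (Ct.cons true (nat_lit 1) (nat_lit 0) (nat_lit 5764622916204363779) Ct.nil))) (Tb.leaf (nat_lit 14376) (nat_lit 194) (V.cons (nat_lit 229) false (nat_lit 1) (V.cons (nat_lit 231) true (nat_lit 1) (V.cons (nat_lit 233) true (nat_lit 1) (V.cons (nat_lit 235) false (nat_lit 2) (V.cons (nat_lit 237) false (nat_lit 1) (V.cons (nat_lit 239) true (nat_lit 2) (V.cons (nat_lit 241) false (nat_lit 1) (V.cons (nat_lit 245) false (nat_lit 1) (V.cons (nat_lit 249) true (nat_lit 4) (V.cons (nat_lit 251) true (nat_lit 2) (V.cons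 (nat_lit 253) false (nat_lit 1) V.nil))))))))))) (Rw.rw (nat_lit 0) (nat_lit 0) (Ct.cons true (nat_lit 1) (nat_lit 0) (nat_lit 8070463726390607875) Ct.nil))))))
def tK153 : Tb := (Tb.node (nat_lit 14368) tK151 tK152)
def tK154 : Tb := (Tb.node (nat_lit 14358) tK150 tK153)
def tK155 : Tb := (Tb.node (nat_lit 14397) (Tb.node (nat_lit 14395) (Tb.leaf (nat_lit 14386) (nat_lit 227) (V.cons (nat_lit 269) false (nat_lit 2) (V.cons (nat_lit 271) true (nat_lit 2) (V.cons (nat_lit 273) true (nat_lit 1) (V.cons (nat_lit 277) false (nat_lit 1) (V.cons (nat_lit 283) false (nat_lit 1) V.nil))))) (Rw.rw (nat_lit 0) (nat_lit 0) (Ct.cons true (nat_lit 1) (nat_lit 0) (nat_lit 16140906562057142275) Ct.nil))) (Tb.leaf (nat_lit 14395) (nat_lit 298) (V.cons (nat_lit 298) true (nat_lit 24) (V.cons (nat_lit 300) true (nat_lit 4) (V.cons (nat_lit 302) false (nat_lit 150) (V.cons (nat_lit 304) true (nat_lit 18) (V.cons (nat_lit 306) true (nat_lit 51) (V.cons (nat_lit 308) false (nat_lit 29) (V.cons (nat_lit 310) false (nat_lit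 66) (V.cons (nat_lit 312) true (nat_lit 198) (V.cons (nat_lit 314) false (nat_lit 72) (V.cons (nat_lit 316) false (nat_lit 72) (V.cons (nat_lit 318) false (nat_lit 10) (V.cons (nat_lit 320) false (nat_lit 126) (V.cons (nat_lit 322) false (nat_lit 12) (V.cons (nat_lit 324) true (nat_lit 234) (V.cons (nat_lit 326) true (nat_lit 18) (V.cons (nat_lit 328) true (nat_lit 12) (V.cons (nat_lit 330) false (nat_lit 144) (V.cons (nat_lit 332) false (nat_lit 288) (V.cons (nat_lit 334) false (nat_lit 1) V.nil))))))))))))))))))) (Rw.rw (nat_lit 1) (nat_lit 0) (Ct.cons true (nat_lit 1) (nat_lit 1) (nat_lit 8462486501925320427307013) Ct.nil)))) (Tb.node (nat_lit 14399) (Tb.leaf (nat_lit 14397) (nat_lit 282) (V.cons (nat_lit 298) true (nat_lit 32) (V.cons (nat_lit 300) true (nat_lit 10) (V.cons (nat_lit 302) false (nat_lit 225) (V.cons (nat_lit 304) true (nat_lit 24) (V.cons (nat_lit 306) true (nat_lit 72) (V.cons (nat_lit 308) false (nat_lit 40) (V.cons (nat_lit 310) false (nat_lit 100) (V.cons (nat_lit 312) true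 (nat_lit 291) (V.cons (nat_lit 314) false (nat_lit 84) (V.cons (nat_lit 316) false (nat_lit 102) (V.cons (nat_lit 318) false (nat_lit 22) (V.cons (nat_lit 320) false (nat_lit 183) (V.cons (nat_lit 322) false (nat_lit 18) (V.cons (nat_lit 324) true (nat_lit 327) (V.cons (nat_lit 326) true (nat_lit 39) (V.cons (nat_lit 328) true (nat_lit 18) (V.cons (nat_lit 330) false (nat_lit 207) (V.cons (nat_lit 332) false (nat_lit 399) (V.cons (nat_lit 334) false (nat_lit 1) V.nil))))))))))))))))))) (Rw.rw (nat_lit 0) (nat_lit 0) (Ct.cons true (nat_lit 1) (nat_lit 0) (nat_lit 5764615219641843715) Ct.nil))) (Tb.node (nat_lit 14407) (Tb.leaf (nat_lit 14399) (nat_lit 284) (V.cons (nat_lit 298) true (nat_lit 16) (V.cons (nat_lit 300) true (nat_lit 6) (V.cons (nat_lit 302) false (nat_lit 114) (V.cons (nat_lit 304) true (nat_lit 12) (V.cons (nat_lit 306) true (nat_lit 39) (V.cons (nat_lit 308) false (nat_lit 21) (V.cons (nat_lit 310) false (nat_lit 53) (V.cons (nat_lit 312) true (nat_lit 153) (V.cons (nat_lit 314)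 false (nat_lit 45) (V.cons (nat_lit 316) false (nat_lit 54) (V.cons (nat_lit 318) false (nat_lit 11) (V.cons (nat_lit 320) false (nat_lit 93) (V.cons (nat_lit 322) false (nat_lit 10) (V.cons (nat_lit 324) true (nat_lit 171) (V.cons (nat_lit 326) true (nat_lit 18) (V.cons (nat_lit 328) true (nat_lit 10) (V.cons (nat_lit 330) false (nat_lit 108) (V.cons (nat_lit 332) false (nat_lit 210) (V.cons (nat_lit 334) false (nat_lit 1) V.nil))))))))))))))))))) (Rw.rw (nat_lit 0) (nat_lit 0) (Ct.cons true (nat_lit 1) (nat_lit 0) (nat_lit 31128888320973602819) Ct.nil))) (Tb.leaf (nat_lit 14407) (nat_lit 321) (V.cons (nat_lit 368) false (nat_lit 3) V.nil) (Rw.df (nat_lit 368) (nat_lit 0) (nat_lit 1))))))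
def tK156 : Tb := (Tb.node (nat_lit 14386) (Tb.node (nat_lit 14382) (Tb.node (nat_lit 14380) (Tb.leaf (nat_lit 14378) (nat_lit 200) (V.cons (nat_lit 233) false (nat_lit 2) (V.cons (nat_lit 235) true (nat_lit 3) (V.cons (nat_lit 237) false (nat_lit 2) (V.cons (nat_lit 241) true (nat_lit 2) (V.cons (nat_lit 243) false (nat_lit 3) (V.cons (nat_lit 247) false (nat_lit 2) (V.cons (nat_lit 249) true (nat_lit 4) (V.cons (nat_lit 251) true (nat_lit 1) V.nil)))))))) (Rw.rw (nat_lit 0) (nat_lit 0) (Ct.cons true (nat_lit 1) (nat_lit 0) (nat_lit 18446751770296188931) Ct.nil))) (Tb.leaf (nat_lit 14380) (nat_lit 206) (V.cons (nat_lit 265) false (nat_lit 1) V.nil) (Rw.df (nat_lit 265) (nat_lit 0) (nat_lit 0)))) (Tb.node (nat_lit 14384) (Tb.leaf (nat_lit 14382) (nat_lit 210) (V.cons (nat_lit 255) false (nat_lit 1) (V.cons (nat_lit 259) true (nat_lit 1) (V.cons (nat_lit 265) true (nat_lit 1) V.nil))) (Rw.rw (nat_lit 0) (nat_lit 0) (Ct.cons true (nat_lit 1) (nat_lit 0) (nat_lit 20752594779511980035) Ct.nil))) (Tb.leaf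 (nat_lit 14384) (nat_lit 221) (V.cons (nat_lit 285) false (nat_lit 1) V.nil) (Rw.df (nat_lit 285) (nat_lit 0) (nat_lit 0))))) tK155)
def tK157 : Tb := (Tb.node (nat_lit 14413) (Tb.node (nat_lit 14411) (Tb.leaf (nat_lit 14409) (nat_lit 353) (V.cons (nat_lit 336) false (nat_lit 8) (V.cons (nat_lit 338) false (nat_lit 1) (V.cons (nat_lit 340) true (nat_lit 198) (V.cons (nat_lit 342) true (nat_lit 10) (V.cons (nat_lit 344) false (nat_lit 471) (V.cons (nat_lit 348) false (nat_lit 27) (V.cons (nat_lit 350) false (nat_lit 204) (V.cons (nat_lit 352) false (nat_lit 141) (V.cons (nat_lit 354) false (nat_lit 3) (V.cons (nat_lit 356) true (nat_lit 48) (V.cons (nat_lit 358) true (nat_lit 2) (V.cons (nat_lit 360) true (nat_lit 1) (V.cons (nat_lit 362) true (nat_lit 24) (V.cons (nat_lit 364) false (nat_lit 111) (V.cons (nat_lit 366) false (nat_lit 120) (V.cons (nat_lit 368) true (nat_lit 114) (V.cons (nat_lit 370) true (nat_lit 81) (V.cons (nat_lit 372) false (nat_lit 15) V.nil)))))))))))))))))) (Rw.rw (nat_lit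 1) (nat_lit 0) (Ct.cons true (nat_lit 1) (nat_lit 1) (nat_lit 8462486501925320427307011) Ct.nil))) (Tb.leaf (nat_lit 14411) (nat_lit 345) (V.cons (nat_lit 336) false (nat_lit 7) (V.cons (nat_lit 338) false (nat_lit 2) (V.cons (nat_lit 340) true (nat_lit 180) (V.cons (nat_lit 342) true (nat_lit 10) (V.cons (nat_lit 344) false (nat_lit 429) (V.cons (nat_lit 348) false (nat_lit 21) (V.cons (nat_lit 350) false (nat_lit 186) (V.cons (nat_lit 352) false (nat_lit 126) (V.cons (nat_lit 354) false (nat_lit 3) (V.cons (nat_lit 356) true (nat_lit 42) (V.cons (nat_lit 358) true (nat_lit 2) (V.cons (nat_lit 360) true (nat_lit 1) (V.cons (nat_lit 362) true (nat_lit 21) (V.cons (nat_lit 364) false (nat_lit 105) (V.cons (nat_lit 366) false (nat_lit 105) (V.cons (nat_lit 368) true (nat_lit 102) (V.cons (nat_lit 370) true (nat_lit 75) (V.cons (nat_lit 372) false (nat_lit 15) V.nil)))))))))))))))))) (Rw.rw (nat_lit 0) (nat_lit 0) (Ct.cons false (nat_lit 1) (nat_lit 0) (nat_lit 5764622916205412355) Ct.nil)))) (Tb.node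 (nat_lit 14415) (Tb.leaf (nat_lit 14413) (nat_lit 322) (V.cons (nat_lit 370) false (nat_lit 3) V.nil) (Rw.df (nat_lit 370) (nat_lit 0) (nat_lit 1))) (Tb.node (nat_lit 14417) (Tb.leaf (nat_lit 14415) (nat_lit 343) (V.cons (nat_lit 336) false (nat_lit 15) (V.cons (nat_lit 338) false (nat_lit 3) (V.cons (nat_lit 340) true (nat_lit 378) (V.cons (nat_lit 342) true (nat_lit 20) (V.cons (nat_lit 344) false (nat_lit 900) (V.cons (nat_lit 348) false (nat_lit 48) (V.cons (nat_lit 350) false (nat_lit 390) (V.cons (nat_lit 352) false (nat_lit 273) (V.cons (nat_lit 354) false (nat_lit 6) (V.cons (nat_lit 356) true (nat_lit 90) (V.cons (nat_lit 358) true (nat_lit 4) (V.cons (nat_lit 360) true (nat_lit 2) (V.cons (nat_lit 362) true (nat_lit 51) (V.cons (nat_lit 364) false (nat_lit 216) (V.cons (nat_lit 366) false (nat_lit 231) (V.cons (nat_lit 368) true (nat_lit 228) (V.cons (nat_lit 370) true (nat_lit 153) (V.cons (nat_lit 372) false (nat_lit 30) V.nil)))))))))))))))))) (Rw.rw (nat_lit 3) (nat_lit 0) (Ct.cons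 true (nat_lit 519) (nat_lit 0) (nat_lit 11529222742664544259) (Ct.cons true (nat_lit 99) (nat_lit 0) (nat_lit 16140916457665986565) (Ct.cons false (nat_lit 35) (nat_lit 0) (nat_lit 8070456029840670723) (Ct.cons false (nat_lit 76) (nat_lit 0) (nat_lit 40352260357828378627) (Ct.cons false (nat_lit 27) (nat_lit 0) (nat_lit 8070486816136888323) (Ct.cons false (nat_lit 175) (nat_lit 0) (nat_lit 11529223842164637699) (Ct.cons true (nat_lit 162) (nat_lit 0) (nat_lit 8070458228866023427) (Ct.cons false (nat_lit 124) (nat_lit 0) (nat_lit 8070489015162241027) (Ct.cons true (nat_lit 325) (nat_lit 0) (nat_lit 11529230439238598659) (Ct.cons true (nat_lit 331) (nat_lit 0) (nat_lit 8070465925421203459) (Ct.cons false (nat_lit 39) (nat_lit 0) (nat_lit 42658103367042072579) (Ct.cons true (nat_lit 13) (nat_lit 0) (nat_lit 8070461527378886659) (Ct.cons false (nat_lit 132) (nat_lit 1) (nat_lit 8462484196077913167101955) (Ct.cons true (nat_lit 34) (nat_lit 0) (nat_lit 24211354895283912707) (Ct.cons true (nat_lit 10)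 (nat_lit 0) (nat_lit 11529218344611741699) (Ct.cons true (nat_lit 45) (nat_lit 0) (nat_lit 24211357094305071107) (Ct.cons false (nat_lit 49) (nat_lit 0) (nat_lit 9223389629048160259) (Ct.cons true (nat_lit 41) (nat_lit 0) (nat_lit 56493161422324236295) (Ct.cons false (nat_lit 51) (nat_lit 0) (nat_lit 5764622916205412355) (Ct.cons false (nat_lit 51) (nat_lit 0) (nat_lit 8070458228876509189) (Ct.cons false (nat_lit 13) (nat_lit 0) (nat_lit 38046417348612587523) (Ct.cons true (nat_lit 46) (nat_lit 0) (nat_lit 8070502209301774341) (Ct.cons true (nat_lit 46) (nat_lit 0) (nat_lit 28823045311755714563) (Ct.cons false (nat_lit 50) (nat_lit 0) (nat_lit 9223391828071415813) (Ct.cons false (nat_lit 55) (nat_lit 0) (nat_lit 9223383031974199299) (Ct.cons false (nat_lit 87) (nat_lit 0) (nat_lit 38046415149591429123) (Ct.cons false (nat_lit 41) (nat_lit 0) (nat_lit 8070484617113632771) (Ct.cons false (nat_lit 41) (nat_lit 0) (nat_lit 35740572140377735171) (Ct.cons true (nat_lit 71) (nat_lit 0) (nat_lit 8070456029838573571)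 (Ct.cons true (nat_lit 6) (nat_lit 0) (nat_lit 5764643806925291523) (Ct.cons true (nat_lit 19) (nat_lit 0) (nat_lit 18446759466879680519) (Ct.cons false (nat_lit 3) (nat_lit 0) (nat_lit 5764615219648135171) (Ct.cons true (nat_lit 5) (nat_lit 0) (nat_lit 58799004431537930247) (Ct.cons false (nat_lit 2) (nat_lit 0) (nat_lit 18446751770305626119) (Ct.cons true (nat_lit 10) (nat_lit 0) (nat_lit 8070500010278518789) (Ct.cons true (nat_lit 26) (nat_lit 0) (nat_lit 5764630612781563907) (Ct.cons true (nat_lit 28) (nat_lit 1) (nat_lit 8462488807768329638903811) (Ct.cons true (nat_lit 8) (nat_lit 1) (nat_lit 8462488807772727687512069) (Ct.cons true (nat_lit 16) (nat_lit 0) (nat_lit 28823040913713397763) (Ct.cons true (nat_lit 10) (nat_lit 1) (nat_lit 8462484196082311213613061) Ct.nil)))))))))))))))))))))))))))))))))))))))))) (Tb.leaf (nat_lit 14417) (nat_lit 354) (V.cons (nat_lit 336) false (nat_lit 7) (V.cons (nat_lit 338) false (nat_lit 2) (V.cons (nat_lit 340) true (nat_lit 180) (V.cons (nat_lit 342)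 true (nat_lit 10) (V.cons (nat_lit 344) false (nat_lit 429) (V.cons (nat_lit 348) false (nat_lit 21) (V.cons (nat_lit 350) false (nat_lit 186) (V.cons (nat_lit 352) false (nat_lit 129) (V.cons (nat_lit 354) false (nat_lit 3) (V.cons (nat_lit 356) true (nat_lit 42) (V.cons (nat_lit 358) true (nat_lit 2) (V.cons (nat_lit 360) true (nat_lit 1) (V.cons (nat_lit 362) true (nat_lit 24) (V.cons (nat_lit 364) false (nat_lit 105) (V.cons (nat_lit 366) false (nat_lit 108) (V.cons (nat_lit 368) true (nat_lit 108) (V.cons (nat_lit 370) true (nat_lit 72) (V.cons (nat_lit 372) false (nat_lit 15) V.nil)))))))))))))))))) (Rw.rw (nat_lit 0) (nat_lit 0) (Ct.cons false (nat_lit 1) (nat_lit 0) (nat_lit 8070465925425397765) Ct.nil))))))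
def tK158 : Tb := (Tb.node (nat_lit 14421) (Tb.leaf (nat_lit 14419) (nat_lit 414) (V.cons (nat_lit 374) false (nat_lit 3) (V.cons (nat_lit 376) false (nat_lit 120) (V.cons (nat_lit 378) false (nat_lit 96) (V.cons (nat_lit 380) true (nat_lit 66) (V.cons (nat_lit 382) false (nat_lit 69) (V.cons (nat_lit 384) true (nat_lit 21) (V.cons (nat_lit 386) true (nat_lit 2) (V.cons (nat_lit 388) true (nat_lit 12) (V.cons (nat_lit 390) true (nat_lit 16) (V.cons (nat_lit 392) false (nat_lit 156) (V.cons (nat_lit 394) true (nat_lit 132) (V.cons (nat_lit 396) false (nat_lit 6) (V.cons (nat_lit 398) true (nat_lit 102) (V.cons (nat_lit 400) false (nat_lit 36) (V.cons (nat_lit 402) true (nat_lit 24) (V.cons (nat_lit 404) false (nat_lit 6) (V.cons (nat_lit 406) false (nat_lit 57) (V.cons (nat_lit 408) true (nat_lit 30) (V.cons (nat_lit 410) true (nat_lit 12) (V.cons (nat_lit 412) true (nat_lit 18) (V.cons (nat_lit 414) false (nat_lit 4) (V.cons (nat_lit 416) true (nat_lit 30) (V.cons (nat_lit 418) true (nat_lit 12)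 (V.cons (nat_lit 420) true (nat_lit 2) (V.cons (nat_lit 422) false (nat_lit 10) (V.cons (nat_lit 424) false (nat_lit 1) V.nil)))))))))))))))))))))))))) (Rw.rw (nat_lit 2) (nat_lit 1) (Ct.cons false (nat_lit 30) (nat_lit 0) (nat_lit 38046415149589331971) (Ct.cons true (nat_lit 35) (nat_lit 0) (nat_lit 5764646005948547075) (Ct.cons false (nat_lit 6) (nat_lit 0) (nat_lit 8070500010276421637) (Ct.cons false (nat_lit 38) (nat_lit 0) (nat_lit 18446751770301431811) (Ct.cons true (nat_lit 5) (nat_lit 0) (nat_lit 11529220543641288707) (Ct.cons false (nat_lit 36) (nat_lit 0) (nat_lit 8070468124444459011) (Ct.cons false (nat_lit 58) (nat_lit 0) (nat_lit 11529232638261854211) (Ct.cons false (nat_lit 23) (nat_lit 0) (nat_lit 18446752869807816707) (Ct.cons true (nat_lit 28) (nat_lit 0) (nat_lit 5764615219652329475) (Ct.cons false (nat_lit 28) (nat_lit 0) (nat_lit 8070456029842767875) (Ct.cons false (nat_lit 11) (nat_lit 0) (nat_lit 8070491214183399427) (Ct.cons false (nat_lit 11) (nat_lit 0) (nat_lit 42658101168018817027)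 (Ct.cons true (nat_lit 62) (nat_lit 0) (nat_lit 8070461527380983811) (Ct.cons true (nat_lit 4) (nat_lit 0) (nat_lit 40352260357826281475) (Ct.cons false (nat_lit 2) (nat_lit 0) (nat_lit 5764615219654426627) (Ct.cons false (nat_lit 10) (nat_lit 0) (nat_lit 44963944177232510979) (Ct.cons true (nat_lit 93) (nat_lit 0) (nat_lit 8070456029846962179) (Ct.cons true (nat_lit 1) (nat_lit 0) (nat_lit 42658103367039975427) (Ct.cons false (nat_lit 2) (nat_lit 0) (nat_lit 8070489015160143875) (Ct.cons false (nat_lit 28) (nat_lit 0) (nat_lit 8070497811255263235) (Ct.cons false (nat_lit 9) (nat_lit 0) (nat_lit 8070493413206654979) (Ct.cons false (nat_lit 52) (nat_lit 0) (nat_lit 11529222742666641411) (Ct.cons true (nat_lit 41) (nat_lit 0) (nat_lit 8070470323467714565) (Ct.cons true (nat_lit 41) (nat_lit 0) (nat_lit 28823043112732459011) (Ct.cons true (nat_lit 10) (nat_lit 0) (nat_lit 13835061353825435651) (Ct.cons false (nat_lit 52) (nat_lit 0) (nat_lit 5764641607899938819) (Ct.cons false (nat_lit 31) (nat_lit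 0) (nat_lit 11529230439236501507) (Ct.cons true (nat_lit 22) (nat_lit 0) (nat_lit 28823040913711300611) (Ct.cons true (nat_lit 10) (nat_lit 0) (nat_lit 31128883922927091715) (Ct.cons true (nat_lit 53) (nat_lit 0) (nat_lit 9223377534429691907) (Ct.cons false (nat_lit 1) (nat_lit 0) (nat_lit 8070495612232007683) (Ct.cons true (nat_lit 1) (nat_lit 0) (nat_lit 8070463726402142211) (Ct.cons false (nat_lit 42) (nat_lit 0) (nat_lit 9223385230997454851) (Ct.cons true (nat_lit 42) (nat_lit 0) (nat_lit 5764613020624879619) (Ct.cons true (nat_lit 2) (nat_lit 0) (nat_lit 49575632394683154435) (Ct.cons true (nat_lit 12) (nat_lit 0) (nat_lit 18446761665902936071) (Ct.cons true (nat_lit 12) (nat_lit 0) (nat_lit 5764650403995058179) (Ct.cons false (nat_lit 29) (nat_lit 0) (nat_lit 8070458228874412035) (Ct.cons true (nat_lit 7) (nat_lit 1) (nat_lit 3626780917619396468277253) (Ct.cons false (nat_lit 28) (nat_lit 0) (nat_lit 16140908761094029317) (Ct.cons false (nat_lit 16) (nat_lit 1) (nat_lit 12089261654918502154240003)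 (Ct.cons true (nat_lit 7) (nat_lit 0) (nat_lit 20752594779517222919) (Ct.cons true (nat_lit 25) (nat_lit 0) (nat_lit 20752595879021510661) (Ct.cons false (nat_lit 25) (nat_lit 0) (nat_lit 9223391828069318661) (Ct.cons false (nat_lit 15) (nat_lit 0) (nat_lit 5764622916207509507) (Ct.cons true (nat_lit 7) (nat_lit 0) (nat_lit 31128888320969408515) (Ct.cons false (nat_lit 7) (nat_lit 0) (nat_lit 54187316214087286789) (Ct.cons true (nat_lit 9) (nat_lit 1) (nat_lit 8462486501929718473818117) (Ct.cons true (nat_lit 1) (nat_lit 1) (nat_lit 6044632556846455792336899) (Ct.cons true (nat_lit 13) (nat_lit 1) (nat_lit 8462488807770528662159363) (Ct.cons false (nat_lit 4) (nat_lit 1) (nat_lit 6044632556848654817689603) Ct.nil))))))))))))))))))))))))))))))))))))))))))))))))))))) (Tb.leaf (nat_lit 14421) (nat_lit 443) (V.cons (nat_lit 374) false (nat_lit 49) (V.cons (nat_lit 376) true (nat_lit 2) (V.cons (nat_lit 378) false (nat_lit 68) (V.cons (nat_lit 380) true (nat_lit 76) (V.cons (nat_lit 382) false (nat_lit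 95) (V.cons (nat_lit 384) true (nat_lit 20) (V.cons (nat_lit 386) false (nat_lit 22) (V.cons (nat_lit 388) true (nat_lit 22) (V.cons (nat_lit 390) true (nat_lit 12) (V.cons (nat_lit 392) false (nat_lit 94) (V.cons (nat_lit 394) true (nat_lit 47) (V.cons (nat_lit 396) false (nat_lit 1) (V.cons (nat_lit 398) true (nat_lit 40) (V.cons (nat_lit 400) false (nat_lit 56) (V.cons (nat_lit 402) true (nat_lit 46) (V.cons (nat_lit 404) false (nat_lit 59) (V.cons (nat_lit 406) false (nat_lit 73) (V.cons (nat_lit 408) true (nat_lit 118) (V.cons (nat_lit 410) true (nat_lit 124) (V.cons (nat_lit 412) false (nat_lit 22) (V.cons (nat_lit 416) true (nat_lit 46) (V.cons (nat_lit 418) false (nat_lit 1) (V.cons (nat_lit 420) false (nat_lit 2) (V.cons (nat_lit 422) false (nat_lit 6) (V.cons (nat_lit 424) false (nat_lit 1) V.nil))))))))))))))))))))))))) (Rw.rw (nat_lit 0) (nat_lit 0) (Ct.cons false (nat_lit 1) (nat_lit 0) (nat_lit 16140914258642731011) Ct.nil))))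
def tK159 : Tb := (Tb.node (nat_lit 14423) tK158 (Tb.node (nat_lit 14425) (Tb.leaf (nat_lit 14423) (nat_lit 441) (V.cons (nat_lit 374) true (nat_lit 43) (V.cons (nat_lit 376) true (nat_lit 46) (V.cons (nat_lit 378) true (nat_lit 74) (V.cons (nat_lit 380) false (nat_lit 106) (V.cons (nat_lit 382) true (nat_lit 65) (V.cons (nat_lit 384) false (nat_lit 17) (V.cons (nat_lit 386) true (nat_lit 26) (V.cons (nat_lit 388) false (nat_lit 19) (V.cons (nat_lit 390) false (nat_lit 2) (V.cons (nat_lit 392) true (nat_lit 88) (V.cons (nat_lit 394) false (nat_lit 89) (V.cons (nat_lit 396) true (nat_lit 10) (V.cons (nat_lit 398) false (nat_lit 160) (V.cons (nat_lit 400) false (nat_lit 100) (V.cons (nat_lit 402) true (nat_lit 164) (V.cons (nat_lit 404) false (nat_lit 214) (V.cons (nat_lit 406) false (nat_lit 131) (V.cons (nat_lit 408) true (nat_lit 329) (V.cons (nat_lit 410) true (nat_lit 422) (V.cons (nat_lit 412) false (nat_lit 200) (V.cons (nat_lit 414) true (nat_lit 14) (V.cons (nat_lit 416) true (nat_lit 149)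 (V.cons (nat_lit 418) false (nat_lit 20) (V.cons (nat_lit 420) false (nat_lit 20) (V.cons (nat_lit 422) true (nat_lit 12) (V.cons (nat_lit 424) false (nat_lit 1) V.nil)))))))))))))))))))))))))) (Rw.rw (nat_lit 0) (nat_lit 0) (Ct.cons true (nat_lit 1) (nat_lit 0) (nat_lit 5764615219654426627) Ct.nil))) (Tb.node (nat_lit 14427) (Tb.leaf (nat_lit 14425) (nat_lit 401) (V.cons (nat_lit 374) false (nat_lit 9) (V.cons (nat_lit 376) false (nat_lit 18) (V.cons (nat_lit 378) false (nat_lit 36) (V.cons (nat_lit 380) true (nat_lit 18) (V.cons (nat_lit 382) false (nat_lit 27) (V.cons (nat_lit 384) true (nat_lit 12) (V.cons (nat_lit 386) false (nat_lit 6) (V.cons (nat_lit 388) true (nat_lit 6) (V.cons (nat_lit 390) true (nat_lit 4) (V.cons (nat_lit 392) false (nat_lit 54) (V.cons (nat_lit 394) true (nat_lit 27) (V.cons (nat_lit 396) true (nat_lit 3) (V.cons (nat_lit 398) true (nat_lit 18) (V.cons (nat_lit 400) false (nat_lit 24) (V.cons (nat_lit 402) true (nat_lit 30) (V.cons (nat_lit 404) false (nat_lit 36)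 (V.cons (nat_lit 406) false (nat_lit 45) (V.cons (nat_lit 408) true (nat_lit 72) (V.cons (nat_lit 410) true (nat_lit 54) (V.cons (nat_lit 412) false (nat_lit 18) (V.cons (nat_lit 414) false (nat_lit 2) (V.cons (nat_lit 416) true (nat_lit 18) (V.cons (nat_lit 418) false (nat_lit 3) (V.cons (nat_lit 420) false (nat_lit 2) (V.cons (nat_lit 424) false (nat_lit 1) V.nil))))))))))))))))))))))))) (Rw.rw (nat_lit 0) (nat_lit 0) (Ct.cons true (nat_lit 1) (nat_lit 0) (nat_lit 44963946376253669379) Ct.nil))) (Tb.leaf (nat_lit 14427) (nat_lit 442) (V.cons (nat_lit 374) true (nat_lit 25) (V.cons (nat_lit 376) false (nat_lit 98) (V.cons (nat_lit 378) false (nat_lit 52) (V.cons (nat_lit 380) true (nat_lit 2) (V.cons (nat_lit 382) false (nat_lit 16) (V.cons (nat_lit 384) true (nat_lit 10) (V.cons (nat_lit 386) true (nat_lit 16) (V.cons (nat_lit 388) false (nat_lit 1) (V.cons (nat_lit 390) true (nat_lit 10) (V.cons (nat_lit 392) false (nat_lit 92) (V.cons (nat_lit 394) true (nat_lit 82) (V.cons (nat_lit 396) false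 (nat_lit 2) (V.cons (nat_lit 398) true (nat_lit 38) (V.cons (nat_lit 400) false (nat_lit 28) (V.cons (nat_lit 402) true (nat_lit 50) (V.cons (nat_lit 404) false (nat_lit 43) (V.cons (nat_lit 406) false (nat_lit 59) (V.cons (nat_lit 408) true (nat_lit 59) (V.cons (nat_lit 410) true (nat_lit 80) (V.cons (nat_lit 412) false (nat_lit 32) (V.cons (nat_lit 416) true (nat_lit 32) (V.cons (nat_lit 418) true (nat_lit 4) (V.cons (nat_lit 420) false (nat_lit 4) (V.cons (nat_lit 422) false (nat_lit 2) (V.cons (nat_lit 424) false (nat_lit 1) V.nil))))))))))))))))))))))))) (Rw.rw (nat_lit 0) (nat_lit 0) (Ct.cons false (nat_lit 1) (nat_lit 0) (nat_lit 16140908761094029317) Ct.nil))))))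
def tK160 : Tb := (Tb.node (nat_lit 14419) tK157 tK159)
def tK161 : Tb := (Tb.node (nat_lit 14409) tK156 tK160)
def tK162 : Tb := (Tb.node (nat_lit 14378) tK154 tK161)
def tK163 : Tb := (Tb.node (nat_lit 12357) tK148 tK162)
def tK164 : Tb := (Tb.node (nat_lit 10278) tK135 tK163)
def tK165 : Tb := (Tb.node (nat_lit 14441) (Tb.node (nat_lit 14439) (Tb.leaf (nat_lit 14437) (nat_lit 493) (V.cons (nat_lit 476) false (nat_lit 3) V.nil) (Rw.df (nat_lit 476) (nat_lit 0) (nat_lit 1))) (Tb.leaf (nat_lit 14439) (nat_lit 505) (V.cons (nat_lit 444) false (nat_lit 52) (V.cons (nat_lit 446) true (nat_lit 51) (V.cons (nat_lit 448) true (nat_lit 413) (V.cons (nat_lit 450) true (nat_lit 53) (V.cons (nat_lit 452) false (nat_lit 112) (V.cons (nat_lit 454) true (nat_lit 259) (V.cons (nat_lit 456) false (nat_lit 211) (V.cons (nat_lit 458) true (nat_lit 43) (V.cons (nat_lit 460) false (nat_lit 74) (V.cons (nat_lit 462) false (nat_lit 125) (V.cons (nat_lit 464) true (nat_lit 79) (V.cons (nat_lit 466) true (nat_lit 220)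 (V.cons (nat_lit 468) false (nat_lit 164) (V.cons (nat_lit 470) false (nat_lit 46) (V.cons (nat_lit 472) true (nat_lit 124) (V.cons (nat_lit 474) false (nat_lit 73) (V.cons (nat_lit 476) true (nat_lit 206) (V.cons (nat_lit 478) false (nat_lit 190) (V.cons (nat_lit 480) true (nat_lit 200) V.nil))))))))))))))))))) (Rw.rw (nat_lit 2) (nat_lit 1) (Ct.cons true (nat_lit 400) (nat_lit 0) (nat_lit 8070491214181302275) (Ct.cons false (nat_lit 290) (nat_lit 0) (nat_lit 51881473204873592835) (Ct.cons true (nat_lit 1024) (nat_lit 0) (nat_lit 16140918656689242115) (Ct.cons true (nat_lit 484) (nat_lit 0) (nat_lit 5764643806921097219) (Ct.cons false (nat_lit 690) (nat_lit 0) (nat_lit 5764622916211703811) (Ct.cons false (nat_lit 586) (nat_lit 0) (nat_lit 8070465925429592069) (Ct.cons false (nat_lit 586) (nat_lit 0) (nat_lit 54187316214087286787) (Ct.cons true (nat_lit 1822) (nat_lit 0) (nat_lit 8070461527383080963) (Ct.cons true (nat_lit 2486) (nat_lit 0) (nat_lit 40352260357824184323) (Ct.cons false (nat_lit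 3618) (nat_lit 0) (nat_lit 11529230439234404355) (Ct.cons true (nat_lit 414) (nat_lit 0) (nat_lit 54187318413108445187) (Ct.cons false (nat_lit 847) (nat_lit 0) (nat_lit 20752594779519320069) (Ct.cons false (nat_lit 383) (nat_lit 0) (nat_lit 5764615219662815235) (Ct.cons true (nat_lit 966) (nat_lit 0) (nat_lit 51881475403894751235) (Ct.cons true (nat_lit 966) (nat_lit 0) (nat_lit 5764657001064824835) (Ct.cons true (nat_lit 2302) (nat_lit 0) (nat_lit 5764659200088080387) (Ct.cons true (nat_lit 2776) (nat_lit 0) (nat_lit 20752594779515125763) (Ct.cons false (nat_lit 664) (nat_lit 0) (nat_lit 61104847440751624197) (Ct.cons true (nat_lit 1000) (nat_lit 0) (nat_lit 18446763864926191623) (Ct.cons false (nat_lit 816) (nat_lit 0) (nat_lit 16140904363041226755) (Ct.cons false (nat_lit 664) (nat_lit 0) (nat_lit 8070456029855350787) (Ct.cons true (nat_lit 397) (nat_lit 0) (nat_lit 16140908761094029315) (Ct.cons true (nat_lit 1006) (nat_lit 0) (nat_lit 28823040913709203459) (Ct.cons true (nat_lit 908) (nat_lit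 0) (nat_lit 35740569941352382467) (Ct.cons true (nat_lit 395) (nat_lit 0) (nat_lit 5764641607897841667) (Ct.cons true (nat_lit 888) (nat_lit 0) (nat_lit 44963946376251572227) (Ct.cons true (nat_lit 2684) (nat_lit 0) (nat_lit 40352255959781867523) (Ct.cons false (nat_lit 540) (nat_lit 0) (nat_lit 38046412950566076419) (Ct.cons true (nat_lit 1893) (nat_lit 0) (nat_lit 38046415149587234819) (Ct.cons false (nat_lit 1893) (nat_lit 0) (nat_lit 16140920855712497669) (Ct.cons true (nat_lit 1096) (nat_lit 0) (nat_lit 16140912059615281155) (Ct.cons true (nat_lit 1228) (nat_lit 0) (nat_lit 16140906562068676611) (Ct.cons false (nat_lit 221) (nat_lit 0) (nat_lit 8070489015158046723) (Ct.cons true (nat_lit 29) (nat_lit 1) (nat_lit 3626780917623794514788357) (Ct.cons true (nat_lit 243) (nat_lit 1) (nat_lit 8462484196082311211515907) (Ct.cons false (nat_lit 171) (nat_lit 1) (nat_lit 3626780917617197442924547) (Ct.cons true (nat_lit 342) (nat_lit 0) (nat_lit 8070508806371540997) (Ct.cons false (nat_lit 855) (nat_lit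 0) (nat_lit 9223389629043965955) (Ct.cons true (nat_lit 342) (nat_lit 0) (nat_lit 18446752869805719555) (Ct.cons true (nat_lit 46) (nat_lit 1) (nat_lit 8462484196086709260124165) (Ct.cons false (nat_lit 95) (nat_lit 1) (nat_lit 3626780917619396468277251) Ct.nil)))))))))))))))))))))))))))))))))))))))))))) (Tb.node (nat_lit 14443) (Tb.leaf (nat_lit 14441) (nat_lit 513) (V.cons (nat_lit 444) true (nat_lit 20) (V.cons (nat_lit 446) false (nat_lit 22) (V.cons (nat_lit 448) false (nat_lit 164) (V.cons (nat_lit 450) false (nat_lit 26) (V.cons (nat_lit 452) true (nat_lit 52) (V.cons (nat_lit 454) false (nat_lit 103) (V.cons (nat_lit 456) true (nat_lit 82) (V.cons (nat_lit 458) false (nat_lit 13) (V.cons (nat_lit 460) true (nat_lit 30) (V.cons (nat_lit 462) true (nat_lit 52) (V.cons (nat_lit 464) false (nat_lit 40) (V.cons (nat_lit 466) false (nat_lit 82) (V.cons (nat_lit 468) true (nat_lit 62) (V.cons (nat_lit 470) true (nat_lit 22) (V.cons (nat_lit 472) false (nat_lit 52) (V.cons (nat_lit 474) true (nat_lit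 28) (V.cons (nat_lit 476) false (nat_lit 80) (V.cons (nat_lit 478) true (nat_lit 79) (V.cons (nat_lit 480) false (nat_lit 86) V.nil))))))))))))))))))) (Rw.rw (nat_lit 0) (nat_lit 0) (Ct.cons true (nat_lit 1) (nat_lit 0) (nat_lit 18446751770305626115) Ct.nil))) (Tb.node (nat_lit 14445) (Tb.leaf (nat_lit 14443) (nat_lit 507) (V.cons (nat_lit 444) false (nat_lit 36) (V.cons (nat_lit 446) true (nat_lit 34) (V.cons (nat_lit 448) true (nat_lit 285) (V.cons (nat_lit 450) true (nat_lit 34) (V.cons (nat_lit 452) false (nat_lit 72) (V.cons (nat_lit 454) true (nat_lit 174) (V.cons (nat_lit 456) false (nat_lit 147) (V.cons (nat_lit 458) true (nat_lit 33) (V.cons (nat_lit 460) false (nat_lit 50) (V.cons (nat_lit 462) false (nat_lit 86) (V.cons (nat_lit 464) true (nat_lit 48) (V.cons (nat_lit 466) true (nat_lit 156) (V.cons (nat_lit 468) false (nat_lit 117) (V.cons (nat_lit 470) false (nat_lit 30) (V.cons (nat_lit 472) true (nat_lit 84) (V.cons (nat_lit 474) false (nat_lit 52) (V.cons (nat_lit 476) true (nat_lit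 144) (V.cons (nat_lit 478) false (nat_lit 126) (V.cons (nat_lit 480) true (nat_lit 135) V.nil))))))))))))))))))) (Rw.rw (nat_lit 2) (nat_lit 0) (Ct.cons true (nat_lit 252) (nat_lit 0) (nat_lit 16140912059615281155) (Ct.cons true (nat_lit 604) (nat_lit 0) (nat_lit 40352255959781867523) (Ct.cons false (nat_lit 142) (nat_lit 0) (nat_lit 5764622916211703811) (Ct.cons false (nat_lit 58) (nat_lit 0) (nat_lit 51881473204873592835) (Ct.cons true (nat_lit 84) (nat_lit 0) (nat_lit 8070491214181302275) (Ct.cons false (nat_lit 185) (nat_lit 0) (nat_lit 20752594779519320069) (Ct.cons false (nat_lit 820) (nat_lit 0) (nat_lit 11529230439234404355) (Ct.cons true (nat_lit 419) (nat_lit 0) (nat_lit 38046415149587234819) (Ct.cons false (nat_lit 419) (nat_lit 0) (nat_lit 16140920855712497669) (Ct.cons true (nat_lit 566) (nat_lit 0) (nat_lit 40352260357824184323) (Ct.cons true (nat_lit 414) (nat_lit 0) (nat_lit 8070461527383080963) (Ct.cons false (nat_lit 97) (nat_lit 0) (nat_lit 5764615219662815235) (Ct.cons true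 (nat_lit 230) (nat_lit 0) (nat_lit 51881475403894751235) (Ct.cons true (nat_lit 230) (nat_lit 0) (nat_lit 5764657001064824835) (Ct.cons true (nat_lit 94) (nat_lit 0) (nat_lit 54187318413108445187) (Ct.cons true (nat_lit 228) (nat_lit 0) (nat_lit 16140918656689242115) (Ct.cons true (nat_lit 108) (nat_lit 0) (nat_lit 5764643806921097219) (Ct.cons true (nat_lit 518) (nat_lit 0) (nat_lit 5764659200088080387) (Ct.cons true (nat_lit 624) (nat_lit 0) (nat_lit 20752594779515125763) (Ct.cons false (nat_lit 152) (nat_lit 0) (nat_lit 61104847440751624197) (Ct.cons true (nat_lit 224) (nat_lit 0) (nat_lit 18446763864926191623) (Ct.cons false (nat_lit 184) (nat_lit 0) (nat_lit 16140904363041226755) (Ct.cons false (nat_lit 152) (nat_lit 0) (nat_lit 8070456029855350787) (Ct.cons true (nat_lit 230) (nat_lit 0) (nat_lit 28823040913709203459) (Ct.cons true (nat_lit 204) (nat_lit 0) (nat_lit 35740569941352382467) (Ct.cons true (nat_lit 87) (nat_lit 0) (nat_lit 5764641607897841667) (Ct.cons false (nat_lit 61) (nat_lit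 0) (nat_lit 8070489015158046723) (Ct.cons true (nat_lit 274) (nat_lit 0) (nat_lit 16140906562068676611) (Ct.cons true (nat_lit 7) (nat_lit 1) (nat_lit 3626780917623794514788357) (Ct.cons false (nat_lit 130) (nat_lit 0) (nat_lit 8070465925429592069) (Ct.cons false (nat_lit 130) (nat_lit 0) (nat_lit 54187316214087286787) (Ct.cons true (nat_lit 95) (nat_lit 0) (nat_lit 16140908761094029315) (Ct.cons true (nat_lit 200) (nat_lit 0) (nat_lit 44963946376251572227) (Ct.cons false (nat_lit 120) (nat_lit 0) (nat_lit 38046412950566076419) (Ct.cons true (nat_lit 55) (nat_lit 1) (nat_lit 8462484196082311211515907) (Ct.cons false (nat_lit 39) (nat_lit 1) (nat_lit 3626780917617197442924547) (Ct.cons true (nat_lit 78) (nat_lit 0) (nat_lit 8070508806371540997) (Ct.cons false (nat_lit 195) (nat_lit 0) (nat_lit 9223389629043965955) (Ct.cons true (nat_lit 78) (nat_lit 0) (nat_lit 18446752869805719555) (Ct.cons true (nat_lit 10) (nat_lit 1) (nat_lit 8462484196086709260124165) (Ct.cons false (nat_lit 23) (nat_lit 1)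 (nat_lit 3626780917619396468277251) Ct.nil))))))))))))))))))))))))))))))))))))))))))) (Tb.leaf (nat_lit 14445) (nat_lit 510) (V.cons (nat_lit 444) false (nat_lit 68) (V.cons (nat_lit 446) true (nat_lit 63) (V.cons (nat_lit 448) true (nat_lit 534) (V.cons (nat_lit 450) true (nat_lit 61) (V.cons (nat_lit 452) false (nat_lit 132) (V.cons (nat_lit 454) true (nat_lit 330) (V.cons (nat_lit 456) false (nat_lit 276) (V.cons (nat_lit 458) true (nat_lit 63) (V.cons (nat_lit 460) false (nat_lit 94) (V.cons (nat_lit 462) false (nat_lit 159) (V.cons (nat_lit 464) true (nat_lit 87) (V.cons (nat_lit 466) true (nat_lit 294) (V.cons (nat_lit 468) false (nat_lit 219) (V.cons (nat_lit 470) false (nat_lit 54) (V.cons (nat_lit 472) true (nat_lit 156) (V.cons (nat_lit 474) false (nat_lit 97) (V.cons (nat_lit 476) true (nat_lit 276) (V.cons (nat_lit 478) false (nat_lit 237) (V.cons (nat_lit 480) true (nat_lit 249) V.nil))))))))))))))))))) (Rw.rw (nat_lit 0) (nat_lit 0) (Ct.cons true (nat_lit 1) (nat_lit 0) (nat_lit 8070465925427494915)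 Ct.nil))))))
def tK166 : Tb := (Tb.node (nat_lit 14437) (Tb.node (nat_lit 14433) (Tb.node (nat_lit 14431) (Tb.leaf (nat_lit 14429) (nat_lit 444) (V.cons (nat_lit 374) false (nat_lit 32) (V.cons (nat_lit 376) false (nat_lit 128) (V.cons (nat_lit 378) false (nat_lit 112) (V.cons (nat_lit 380) true (nat_lit 122) (V.cons (nat_lit 382) false (nat_lit 76) (V.cons (nat_lit 384) true (nat_lit 28) (V.cons (nat_lit 386) false (nat_lit 18) (V.cons (nat_lit 388) true (nat_lit 20) (V.cons (nat_lit 390) true (nat_lit 8) (V.cons (nat_lit 392) false (nat_lit 176) (V.cons (nat_lit 394) true (nat_lit 160) (V.cons (nat_lit 396) false (nat_lit 8) (V.cons (nat_lit 398) true (nat_lit 176) (V.cons (nat_lit 400) true (nat_lit 56) (V.cons (nat_lit 402) false (nat_lit 112) (V.cons (nat_lit 404) true (nat_lit 158) (V.cons (nat_lit 406) true (nat_lit 64) (V.cons (nat_lit 408) false (nat_lit 226) (V.cons (nat_lit 410) false (nat_lit 340) (V.cons (nat_lit 412) true (nat_lit 172) (V.cons (nat_lit 414) false (nat_lit 16) (V.cons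 (nat_lit 416) false (nat_lit 100) (V.cons (nat_lit 418) true (nat_lit 22) (V.cons (nat_lit 420) true (nat_lit 18) (V.cons (nat_lit 422) false (nat_lit 14) V.nil))))))))))))))))))))))))) (Rw.rw (nat_lit 1) (nat_lit 0) (Ct.cons false (nat_lit 1) (nat_lit 1) (nat_lit 8462486501925320425209859) Ct.nil))) (Tb.leaf (nat_lit 14431) (nat_lit 468) (V.cons (nat_lit 442) false (nat_lit 1) V.nil) (Rw.rw (nat_lit 1) (nat_lit 0) (Ct.cons true (nat_lit 1) (nat_lit 1) (nat_lit 8462484196082311213613059) Ct.nil)))) (Tb.node (nat_lit 14435) (Tb.leaf (nat_lit 14433) (nat_lit 459) (V.cons (nat_lit 442) false (nat_lit 1) V.nil) (Rw.df (nat_lit 442) (nat_lit 0) (nat_lit 0))) (Tb.leaf (nat_lit 14435) (nat_lit 465) (V.cons (nat_lit 430) true (nat_lit 1) (V.cons (nat_lit 434) false (nat_lit 1) (V.cons (nat_lit 442) false (nat_lit 1) V.nil))) (Rw.rw (nat_lit 2) (nat_lit 0) (Ct.cons false (nat_lit 4) (nat_lit 0) (nat_lit 8070465925425397763) (Ct.cons true (nat_lit 1) (nat_lit 0) (nat_lit 16140904363039129603) (Ct.cons false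 (nat_lit 1) (nat_lit 0) (nat_lit 61104847440751624199) (Ct.cons false (nat_lit 1) (nat_lit 0) (nat_lit 8070470323465617411) (Ct.cons false (nat_lit 1) (nat_lit 0) (nat_lit 9223387430020710403) (Ct.cons true (nat_lit 1) (nat_lit 0) (nat_lit 8070458228876509187) (Ct.cons true (nat_lit 3) (nat_lit 0) (nat_lit 8070486816134791171) (Ct.cons true (nat_lit 1) (nat_lit 0) (nat_lit 8070500010278518787) (Ct.cons true (nat_lit 1) (nat_lit 1) (nat_lit 8462484196082311213613059) Ct.nil))))))))))))) tK165)
def tK167 : Tb := (Tb.node (nat_lit 14451) (Tb.node (nat_lit 14449) (Tb.leaf (nat_lit 14447) (nat_lit 504) (V.cons (nat_lit 444) false (nat_lit 8) (V.cons (nat_lit 446) true (nat_lit 7) (V.cons (nat_lit 448) true (nat_lit 63) (V.cons (nat_lit 450) true (nat_lit 5) (V.cons (nat_lit 452) false (nat_lit 12) (V.cons (nat_lit 454) true (nat_lit 36) (V.cons (nat_lit 456) false (nat_lit 33) (V.cons (nat_lit 458) true (nat_lit 9) (V.cons (nat_lit 460) false (nat_lit 10) (V.cons (nat_lit 462) false (nat_lit 18) (V.cons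 (nat_lit 464) true (nat_lit 6) (V.cons (nat_lit 466) true (nat_lit 36) (V.cons (nat_lit 468) false (nat_lit 27) (V.cons (nat_lit 470) false (nat_lit 6) (V.cons (nat_lit 472) true (nat_lit 18) (V.cons (nat_lit 474) false (nat_lit 12) (V.cons (nat_lit 476) true (nat_lit 33) (V.cons (nat_lit 478) false (nat_lit 27) (V.cons (nat_lit 480) true (nat_lit 27) V.nil))))))))))))))))))) (Rw.rw (nat_lit 1) (nat_lit 0) (Ct.cons false (nat_lit 10) (nat_lit 0) (nat_lit 5764622916211703811) (Ct.cons false (nat_lit 4) (nat_lit 0) (nat_lit 51881473204873592835) (Ct.cons false (nat_lit 16) (nat_lit 0) (nat_lit 20752594779519320069) (Ct.cons false (nat_lit 83) (nat_lit 0) (nat_lit 11529230439234404355) (Ct.cons true (nat_lit 60) (nat_lit 0) (nat_lit 40352255959781867523) (Ct.cons true (nat_lit 39) (nat_lit 0) (nat_lit 38046415149587234819) (Ct.cons false (nat_lit 39) (nat_lit 0) (nat_lit 16140920855712497669) (Ct.cons true (nat_lit 58) (nat_lit 0) (nat_lit 40352260357824184323) (Ct.cons true (nat_lit 42) (nat_lit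 0) (nat_lit 8070461527383080963) (Ct.cons false (nat_lit 16) (nat_lit 0) (nat_lit 5764615219662815235) (Ct.cons true (nat_lit 6) (nat_lit 0) (nat_lit 8070491214181302275) (Ct.cons true (nat_lit 22) (nat_lit 0) (nat_lit 16140918656689242115) (Ct.cons true (nat_lit 11) (nat_lit 0) (nat_lit 5764643806921097219) (Ct.cons false (nat_lit 12) (nat_lit 0) (nat_lit 8070465925429592069) (Ct.cons false (nat_lit 12) (nat_lit 0) (nat_lit 54187316214087286787) (Ct.cons true (nat_lit 10) (nat_lit 0) (nat_lit 54187318413108445187) (Ct.cons true (nat_lit 52) (nat_lit 0) (nat_lit 5764659200088080387) (Ct.cons true (nat_lit 62) (nat_lit 0) (nat_lit 20752594779515125763) (Ct.cons true (nat_lit 22) (nat_lit 0) (nat_lit 18446763864926191623) (Ct.cons false (nat_lit 18) (nat_lit 0) (nat_lit 16140904363041226755) (Ct.cons true (nat_lit 20) (nat_lit 0) (nat_lit 35740569941352382467) (Ct.cons true (nat_lit 8) (nat_lit 0) (nat_lit 5764641607897841667) (Ct.cons true (nat_lit 20) (nat_lit 0) (nat_lit 44963946376251572227)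 (Ct.cons false (nat_lit 11) (nat_lit 0) (nat_lit 38046412950566076419) (Ct.cons false (nat_lit 11) (nat_lit 0) (nat_lit 8070489015158046723) (Ct.cons true (nat_lit 28) (nat_lit 0) (nat_lit 16140912059615281155) (Ct.cons true (nat_lit 26) (nat_lit 0) (nat_lit 16140906562068676611) (Ct.cons true (nat_lit 1) (nat_lit 1) (nat_lit 3626780917623794514788357) (Ct.cons true (nat_lit 28) (nat_lit 0) (nat_lit 51881475403894751235) (Ct.cons true (nat_lit 28) (nat_lit 0) (nat_lit 5764657001064824835) (Ct.cons true (nat_lit 6) (nat_lit 1) (nat_lit 8462484196082311211515907) (Ct.cons true (nat_lit 1) (nat_lit 1) (nat_lit 8462484196086709260124165) (Ct.cons false (nat_lit 3) (nat_lit 1) (nat_lit 3626780917619396468277251) (Ct.cons true (nat_lit 10) (nat_lit 0) (nat_lit 16140908761094029315) (Ct.cons false (nat_lit 16) (nat_lit 0) (nat_lit 8070456029855350787) (Ct.cons false (nat_lit 16) (nat_lit 0) (nat_lit 61104847440751624197) (Ct.cons true (nat_lit 24) (nat_lit 0) (nat_lit 28823040913709203459) (Ct.cons false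 (nat_lit 4) (nat_lit 1) (nat_lit 3626780917617197442924547) (Ct.cons true (nat_lit 8) (nat_lit 0) (nat_lit 8070508806371540997) (Ct.cons false (nat_lit 20) (nat_lit 0) (nat_lit 9223389629043965955) (Ct.cons true (nat_lit 8) (nat_lit 0) (nat_lit 18446752869805719555) Ct.nil))))))))))))))))))))))))))))))))))))))))))) (Tb.leaf (nat_lit 14449) (nat_lit 595) (V.cons (nat_lit 482) false (nat_lit 104) (V.cons (nat_lit 484) true (nat_lit 52) (V.cons (nat_lit 486) true (nat_lit 4) (V.cons (nat_lit 488) false (nat_lit 12) (V.cons (nat_lit 490) true (nat_lit 102) (V.cons (nat_lit 492) true (nat_lit 146) (V.cons (nat_lit 494) false (nat_lit 54) (V.cons (nat_lit 496) true (nat_lit 258) (V.cons (nat_lit 498) false (nat_lit 282) (V.cons (nat_lit 500) false (nat_lit 90) (V.cons (nat_lit 502) false (nat_lit 64) (V.cons (nat_lit 504) true (nat_lit 24) (V.cons (nat_lit 506) true (nat_lit 402) (V.cons (nat_lit 508) true (nat_lit 294) (V.cons (nat_lit 510) true (nat_lit 420) (V.cons (nat_lit 514) true (nat_lit 30)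 (V.cons (nat_lit 516) false (nat_lit 270) (V.cons (nat_lit 518) false (nat_lit 1) V.nil)))))))))))))))))) (Rw.rw (nat_lit 0) (nat_lit 0) (Ct.cons false (nat_lit 1) (nat_lit 0) (nat_lit 20752602476091277317) Ct.nil)))) (Tb.node (nat_lit 14453) (Tb.leaf (nat_lit 14451) (nat_lit 571) (V.cons (nat_lit 482) false (nat_lit 34) (V.cons (nat_lit 484) true (nat_lit 18) (V.cons (nat_lit 486) true (nat_lit 2) (V.cons (nat_lit 490) true (nat_lit 32) (V.cons (nat_lit 492) true (nat_lit 48) (V.cons (nat_lit 494) false (nat_lit 14) (V.cons (nat_lit 496) true (nat_lit 72) (V.cons (nat_lit 498) false (nat_lit 84) (V.cons (nat_lit 500) false (nat_lit 30) (V.cons (nat_lit 502) false (nat_lit 20) (V.cons (nat_lit 504) true (nat_lit 8) (V.cons (nat_lit 506) true (nat_lit 120) (V.cons (nat_lit 508) true (nat_lit 90) (V.cons (nat_lit 510) true (nat_lit 132) (V.cons (nat_lit 512) false (nat_lit 3) (V.cons (nat_lit 514) true (nat_lit 18) (V.cons (nat_lit 516) false (nat_lit 72) (V.cons (nat_lit 518) false (nat_lit 1) V.nil))))))))))))))))))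 (Rw.rw (nat_lit 1) (nat_lit 0) (Ct.cons true (nat_lit 16) (nat_lit 0) (nat_lit 18446749571282370563) (Ct.cons false (nat_lit 12) (nat_lit 0) (nat_lit 5764650403990863875) (Ct.cons true (nat_lit 16) (nat_lit 0) (nat_lit 8070468124450750467) (Ct.cons false (nat_lit 20) (nat_lit 0) (nat_lit 18446755068828975107) (Ct.cons true (nat_lit 18) (nat_lit 0) (nat_lit 8070456029857447939) (Ct.cons true (nat_lit 4) (nat_lit 0) (nat_lit 56493161422322139139) (Ct.cons false (nat_lit 14) (nat_lit 0) (nat_lit 56493159223300980739) (Ct.cons true (nat_lit 23) (nat_lit 0) (nat_lit 18446751770307723267) (Ct.cons false (nat_lit 2) (nat_lit 0) (nat_lit 16140920855710400517) (Ct.cons true (nat_lit 2) (nat_lit 0) (nat_lit 42658101168014622723) (Ct.cons true (nat_lit 4) (nat_lit 0) (nat_lit 42658098968993464323) (Ct.cons false (nat_lit 20) (nat_lit 0) (nat_lit 5764622916213800963) (Ct.cons true (nat_lit 18) (nat_lit 0) (nat_lit 8070497811251068931) (Ct.cons false (nat_lit 4) (nat_lit 0) (nat_lit 16140918656687144963) (Ct.cons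 false (nat_lit 14) (nat_lit 0) (nat_lit 8070504408322932739) (Ct.cons false (nat_lit 1) (nat_lit 1) (nat_lit 6044632556855251887456259) (Ct.cons false (nat_lit 2) (nat_lit 0) (nat_lit 8070463726406336515) (Ct.cons false (nat_lit 2) (nat_lit 0) (nat_lit 5764613020641656835) (Ct.cons true (nat_lit 2) (nat_lit 0) (nat_lit 18446747372254920707) (Ct.cons false (nat_lit 2) (nat_lit 0) (nat_lit 49575627996636643331) (Ct.cons true (nat_lit 2) (nat_lit 0) (nat_lit 13835073448448098307) (Ct.cons true (nat_lit 2) (nat_lit 0) (nat_lit 8070495612227813379) (Ct.cons true (nat_lit 1) (nat_lit 0) (nat_lit 5764646005944352771) (Ct.cons true (nat_lit 1) (nat_lit 1) (nat_lit 3626780917619396466180099) (Ct.cons true (nat_lit 3) (nat_lit 0) (nat_lit 11529232638257659907) (Ct.cons true (nat_lit 2) (nat_lit 0) (nat_lit 20752592580491870211) Ct.nil)))))))))))))))))))))))))))) (Tb.leaf (nat_lit 14453) (nat_lit 569) (V.cons (nat_lit 482) false (nat_lit 22) (V.cons (nat_lit 484) true (nat_lit 10) (V.cons (nat_lit 488) false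 (nat_lit 2) (V.cons (nat_lit 490) true (nat_lit 22) (V.cons (nat_lit 492) true (nat_lit 26) (V.cons (nat_lit 494) false (nat_lit 12) (V.cons (nat_lit 496) true (nat_lit 58) (V.cons (nat_lit 498) false (nat_lit 58) (V.cons (nat_lit 500) false (nat_lit 20) (V.cons (nat_lit 502) false (nat_lit 12) (V.cons (nat_lit 504) true (nat_lit 4) (V.cons (nat_lit 506) true (nat_lit 82) (V.cons (nat_lit 508) true (nat_lit 58) (V.cons (nat_lit 510) true (nat_lit 86) (V.cons (nat_lit 512) false (nat_lit 1) (V.cons (nat_lit 514) true (nat_lit 10) (V.cons (nat_lit 516) false (nat_lit 58) (V.cons (nat_lit 518) false (nat_lit 1) V.nil)))))))))))))))))) (Rw.rw (nat_lit 0) (nat_lit 0) (Ct.cons true (nat_lit 1) (nat_lit 0) (nat_lit 56493161422322139139) Ct.nil)))))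
def tK168 : Tb := (Tb.node (nat_lit 16406) (Tb.node (nat_lit 16404) (Tb.leaf (nat_lit 16401) (nat_lit 80) (V.cons (nat_lit 128) false (nat_lit 1) (V.cons (nat_lit 130) true (nat_lit 1) V.nil)) (Rw.rw (nat_lit 0) (nat_lit 0) (Ct.cons false (nat_lit 1) (nat_lit 0) (nat_lit 5764610821572263939) Ct.nil))) (Tb.leaf (nat_lit 16404) (nat_lit 110) (V.cons (nat_lit 147) false (nat_lit 1) (V.cons (nat_lit 149) true (nat_lit 2) (V.cons (nat_lit 151) true (nat_lit 2) (V.cons (nat_lit 153) false (nat_lit 3) (V.cons (nat_lit 155) false (nat_lit 1) (V.cons (nat_lit 159) true (nat_lit 1) (V.cons (nat_lit 161) false (nat_lit 1) V.nil))))))) (Rw.rw (nat_lit 0) (nat_lit 0) (Ct.cons true (nat_lit 1) (nat_lit 0) (nat_lit 8070456029814456323) Ct.nil)))) (Tb.node (nat_lit 16408) (Tb.leaf (nat_lit 16406) (nat_lit 125) (V.cons (nat_lit 173) true (nat_lit 1) (V.cons (nat_lit 183) false (nat_lit 1) (V.cons (nat_lit 185) false (nat_lit 1) (V.cons (nat_lit 189) true (nat_lit 1) V.nil)))) (Rw.rw (nat_lit 0) (nat_lit 0) (Ct.cons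 true (nat_lit 1) (nat_lit 0) (nat_lit 8070458228846100485) Ct.nil))) (Tb.node (nat_lit 16414) (Tb.leaf (nat_lit 16408) (nat_lit 126) (V.cons (nat_lit 171) true (nat_lit 1) (V.cons (nat_lit 175) false (nat_lit 1) (V.cons (nat_lit 187) true (nat_lit 1) V.nil))) (Rw.rw (nat_lit 0) (nat_lit 0) (Ct.cons true (nat_lit 1) (nat_lit 0) (nat_lit 11529220543633948675) Ct.nil))) (Tb.leaf (nat_lit 16414) (nat_lit 165) (V.cons (nat_lit 207) true (nat_lit 1) (V.cons (nat_lit 213) true (nat_lit 1) (V.cons (nat_lit 219) false (nat_lit 1) (V.cons (nat_lit 223) false (nat_lit 1) (V.cons (nat_lit 225) false (nat_lit 1) V.nil))))) (Rw.rw (nat_lit 0) (nat_lit 0) (Ct.cons true (nat_lit 1) (nat_lit 0) (nat_lit 8070458228846100483) Ct.nil))))))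
def tK169 : Tb := (Tb.node (nat_lit 16401) tK167 tK168)
def tK170 : Tb := (Tb.node (nat_lit 14447) tK166 tK169)
def tK171 : Tb := (Tb.node (nat_lit 16432) (Tb.node (nat_lit 16430) (Tb.leaf (nat_lit 16428) (nat_lit 223) (V.cons (nat_lit 269) true (nat_lit 1) (V.cons (nat_lit 271) false (nat_lit 1) (V.cons (nat_lit 277) true (nat_lit 1) (V.cons (nat_lit 279) false (nat_lit 1) (V.cons (nat_lit 285) true (nat_lit 1) V.nil))))) (Rw.rw (nat_lit 0) (nat_lit 0) (Ct.cons true (nat_lit 1) (nat_lit 0) (nat_lit 5764622916200169475) Ct.nil))) (Tb.leaf (nat_lit 16430) (nat_lit 231) (V.cons (nat_lit 267) false (nat_lit 4) (V.cons (nat_lit 269) true (nat_lit 1) (V.cons (nat_lit 271) true (nat_lit 3) (V.cons (nat_lit 273) false (nat_lit 3) (V.cons (nat_lit 275) true (nat_lit 4) (V.cons (nat_lit 277) true (nat_lit 1) (V.cons (nat_lit 279) true (nat_lit 1) (V.cons (nat_lit 281) false (nat_lit 3) (V.cons (nat_lit 283) false (nat_lit 1) (V.cons (nat_lit 285) false (nat_lit 2) V.nil)))))))))) (Rw.rw (nat_lit 0) (nat_lit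 0) (Ct.cons true (nat_lit 1) (nat_lit 0) (nat_lit 8070456029824942083) Ct.nil)))) (Tb.node (nat_lit 16434) (Tb.leaf (nat_lit 16432) (nat_lit 237) (V.cons (nat_lit 297) false (nat_lit 1) V.nil) (Rw.df (nat_lit 297) (nat_lit 0) (nat_lit 0))) (Tb.node (nat_lit 16437) (Tb.leaf (nat_lit 16434) (nat_lit 241) (V.cons (nat_lit 287) false (nat_lit 1) (V.cons (nat_lit 291) true (nat_lit 1) (V.cons (nat_lit 297) true (nat_lit 1) V.nil))) (Rw.rw (nat_lit 0) (nat_lit 0) (Ct.cons true (nat_lit 1) (nat_lit 0) (nat_lit 20752592580486627331) Ct.nil))) (Tb.leaf (nat_lit 16437) (nat_lit 268) (V.cons (nat_lit 298) true (nat_lit 2) (V.cons (nat_lit 300) false (nat_lit 1) (V.cons (nat_lit 302) false (nat_lit 12) (V.cons (nat_lit 304) true (nat_lit 1) (V.cons (nat_lit 306) true (nat_lit 6) (V.cons (nat_lit 308) false (nat_lit 3) (V.cons (nat_lit 310) false (nat_lit 5) (V.cons (nat_lit 312) true (nat_lit 24) (V.cons (nat_lit 314) false (nat_lit 15) (V.cons (nat_lit 316) false (nat_lit 3) (V.cons (nat_lit 318) false (nat_lit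 1) (V.cons (nat_lit 320) false (nat_lit 6) (V.cons (nat_lit 324) true (nat_lit 9) (V.cons (nat_lit 326) true (nat_lit 9) (V.cons (nat_lit 330) false (nat_lit 6) (V.cons (nat_lit 332) false (nat_lit 15) (V.cons (nat_lit 334) false (nat_lit 1) V.nil))))))))))))))))) (Rw.rw (nat_lit 2) (nat_lit 0) (Ct.cons true (nat_lit 12) (nat_lit 0) (nat_lit 40352260357828378629) (Ct.cons false (nat_lit 16) (nat_lit 0) (nat_lit 8070458228866023429) (Ct.cons true (nat_lit 16) (nat_lit 0) (nat_lit 9223383031976296451) (Ct.cons true (nat_lit 16) (nat_lit 0) (nat_lit 18446751770301431815) (Ct.cons false (nat_lit 18) (nat_lit 0) (nat_lit 5764635010832269315) (Ct.cons true (nat_lit 12) (nat_lit 0) (nat_lit 11529220543634997251) (Ct.cons false (nat_lit 12) (nat_lit 0) (nat_lit 18446755068833169415) (Ct.cons false (nat_lit 1) (nat_lit 0) (nat_lit 24211357094307168259) (Ct.cons true (nat_lit 1) (nat_lit 0) (nat_lit 5764630612783661059) (Ct.cons true (nat_lit 5) (nat_lit 0) (nat_lit 16140909860594122757) (Ct.cons false (nat_lit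 10) (nat_lit 0) (nat_lit 5764615219641843715) (Ct.cons true (nat_lit 6) (nat_lit 0) (nat_lit 35740572140377735173) (Ct.cons false (nat_lit 2) (nat_lit 0) (nat_lit 11529226041192087555) (Ct.cons true (nat_lit 9) (nat_lit 0) (nat_lit 8070480219069218819) (Ct.cons true (nat_lit 3) (nat_lit 0) (nat_lit 31128888320973602819) (Ct.cons false (nat_lit 6) (nat_lit 0) (nat_lit 11529232638261854215) (Ct.cons false (nat_lit 5) (nat_lit 0) (nat_lit 9223387430022807557) (Ct.cons false (nat_lit 5) (nat_lit 0) (nat_lit 16140906562062385157) (Ct.cons true (nat_lit 2) (nat_lit 0) (nat_lit 13835073448452292615) (Ct.cons false (nat_lit 2) (nat_lit 0) (nat_lit 33434731330187296771) (Ct.cons true (nat_lit 18) (nat_lit 0) (nat_lit 8070478020043866115) (Ct.cons true (nat_lit 18) (nat_lit 0) (nat_lit 28823043112736653315) (Ct.cons false (nat_lit 2) (nat_lit 0) (nat_lit 13835066851382525955) (Ct.cons true (nat_lit 2) (nat_lit 0) (nat_lit 35740574339398893573) (Ct.cons false (nat_lit 3) (nat_lit 0) (nat_lit 11529223842166734851)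 (Ct.cons true (nat_lit 2) (nat_lit 0) (nat_lit 49575632394683154439) (Ct.cons false (nat_lit 10) (nat_lit 0) (nat_lit 16140908761087737861) (Ct.cons false (nat_lit 11) (nat_lit 0) (nat_lit 11529222742660349955) (Ct.cons false (nat_lit 1) (nat_lit 1) (nat_lit 8462488807763931592392707) (Ct.cons true (nat_lit 1) (nat_lit 1) (nat_lit 8462486501920922380795907) (Ct.cons false (nat_lit 5) (nat_lit 0) (nat_lit 9223385231001649155) (Ct.cons true (nat_lit 5) (nat_lit 0) (nat_lit 5764613020614393859) (Ct.cons false (nat_lit 6) (nat_lit 0) (nat_lit 8070486816136888325) (Ct.cons false (nat_lit 2) (nat_lit 1) (nat_lit 8462484196077913167101957) (Ct.cons true (nat_lit 1) (nat_lit 1) (nat_lit 8462486501918723355443203) (Ct.cons false (nat_lit 3) (nat_lit 0) (nat_lit 8070458228857634819) Ct.nil)))))))))))))))))))))))))))))))))))))))))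
def tK172 : Tb := (Tb.node (nat_lit 16428) (Tb.node (nat_lit 16420) (Tb.node (nat_lit 16418) (Tb.leaf (nat_lit 16416) (nat_lit 174) (V.cons (nat_lit 207) false (nat_lit 2) (V.cons (nat_lit 211) true (nat_lit 3) (V.cons (nat_lit 213) false (nat_lit 2) (V.cons (nat_lit 215) false (nat_lit 2) (V.cons (nat_lit 217) true (nat_lit 4) (V.cons (nat_lit 219) true (nat_lit 2) (V.cons (nat_lit 221) false (nat_lit 3) (V.cons (nat_lit 225) true (nat_lit 1) V.nil)))))))) (Rw.rw (nat_lit 0) (nat_lit 0) (Ct.cons true (nat_lit 1) (nat_lit 0) (nat_lit 16140906562061336579) Ct.nil))) (Tb.leaf (nat_lit 16418) (nat_lit 187) (V.cons (nat_lit 253) false (nat_lit 1) V.nil) (Rw.df (nat_lit 253) (nat_lit 0) (nat_lit 0)))) (Tb.node (nat_lit 16422) (Tb.leaf (nat_lit 16420) (nat_lit 190) (V.cons (nat_lit 237) false (nat_lit 1) (V.cons (nat_lit 243) true (nat_lit 1) (V.cons (nat_lit 251) true (nat_lit 1) V.nil))) (Rw.rw (nat_lit 0) (nat_lit 0) (Ct.cons true (nat_lit 1) (nat_lit 0) (nat_lit 8070468124439216131) Ct.nil))) (Tb.leaf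 (nat_lit 16422) (nat_lit 199) (V.cons (nat_lit 233) true (nat_lit 2) (V.cons (nat_lit 235) false (nat_lit 2) (V.cons (nat_lit 237) true (nat_lit 3) (V.cons (nat_lit 239) false (nat_lit 1) (V.cons (nat_lit 241) false (nat_lit 2) (V.cons (nat_lit 243) true (nat_lit 2) (V.cons (nat_lit 247) true (nat_lit 2) (V.cons (nat_lit 249) false (nat_lit 5) (V.cons (nat_lit 251) false (nat_lit 2) (V.cons (nat_lit 253) true (nat_lit 1) V.nil)))))))))) (Rw.rw (nat_lit 0) (nat_lit 0) (Ct.cons true (nat_lit 1) (nat_lit 0) (nat_lit 8070456029822844931) Ct.nil))))) tK171)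
def tK173 : Tb := (Tb.node (nat_lit 16449) (Tb.node (nat_lit 16441) (Tb.leaf (nat_lit 16439) (nat_lit 272) (V.cons (nat_lit 298) true (nat_lit 18) (V.cons (nat_lit 300) true (nat_lit 6) (V.cons (nat_lit 302) false (nat_lit 132) (V.cons (nat_lit 304) true (nat_lit 13) (V.cons (nat_lit 306) true (nat_lit 42) (V.cons (nat_lit 308) false (nat_lit 23) (V.cons (nat_lit 310) false (nat_lit 58) (V.cons (nat_lit 312) true (nat_lit 177) (V.cons (nat_lit 314) false (nat_lit 51) (V.cons (nat_lit 316) false (nat_lit 51) (V.cons (nat_lit 318) false (nat_lit 18) (V.cons (nat_lit 320) false (nat_lit 111) (V.cons (nat_lit 322) false (nat_lit 8) (V.cons (nat_lit 324) true (nat_lit 177) (V.cons (nat_lit 326) true (nat_lit 42) (V.cons (nat_lit 328) true (nat_lit 8) (V.cons (nat_lit 330) false (nat_lit 117) (V.cons (nat_lit 332) false (nat_lit 219) (V.cons (nat_lit 334) false (nat_lit 1) V.nil))))))))))))))))))) (Rw.rw (nat_lit 2) (nat_lit 0) (Ct.cons false (nat_lit 52) (nat_lit 0) (nat_lit 9223385231001649155) (Ct.cons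 true (nat_lit 52) (nat_lit 0) (nat_lit 5764613020614393859) (Ct.cons true (nat_lit 74) (nat_lit 0) (nat_lit 40352260357828378629) (Ct.cons false (nat_lit 106) (nat_lit 0) (nat_lit 8070458228866023429) (Ct.cons true (nat_lit 106) (nat_lit 0) (nat_lit 9223383031976296451) (Ct.cons true (nat_lit 114) (nat_lit 0) (nat_lit 18446751770301431815) (Ct.cons false (nat_lit 158) (nat_lit 0) (nat_lit 5764635010832269315) (Ct.cons true (nat_lit 52) (nat_lit 0) (nat_lit 11529220543634997251) (Ct.cons true (nat_lit 54) (nat_lit 0) (nat_lit 35740572140377735173) (Ct.cons false (nat_lit 44) (nat_lit 0) (nat_lit 8070486816136888325) (Ct.cons false (nat_lit 2) (nat_lit 0) (nat_lit 11529226041192087555) (Ct.cons true (nat_lit 9) (nat_lit 0) (nat_lit 8070480219069218819) (Ct.cons false (nat_lit 35) (nat_lit 0) (nat_lit 31128888320973602819) (Ct.cons false (nat_lit 140) (nat_lit 0) (nat_lit 11529232638261854215) (Ct.cons false (nat_lit 44) (nat_lit 0) (nat_lit 9223387430022807557) (Ct.cons false (nat_lit 44) (nat_lit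 0) (nat_lit 16140906562062385157) (Ct.cons true (nat_lit 4) (nat_lit 1) (nat_lit 8462486501920922380795907) (Ct.cons false (nat_lit 108) (nat_lit 0) (nat_lit 11529222742660349955) (Ct.cons true (nat_lit 234) (nat_lit 0) (nat_lit 8070478020043866115) (Ct.cons true (nat_lit 234) (nat_lit 0) (nat_lit 28823043112736653315) (Ct.cons false (nat_lit 126) (nat_lit 0) (nat_lit 16140908761087737861) (Ct.cons true (nat_lit 11) (nat_lit 1) (nat_lit 8462488807763931592392707) (Ct.cons true (nat_lit 16) (nat_lit 0) (nat_lit 13835073448452292615) (Ct.cons false (nat_lit 16) (nat_lit 0) (nat_lit 33434731330187296771) (Ct.cons false (nat_lit 8) (nat_lit 1) (nat_lit 8462488807770528664256517) (Ct.cons true (nat_lit 2) (nat_lit 0) (nat_lit 5764630612783661059) (Ct.cons false (nat_lit 24) (nat_lit 0) (nat_lit 24211357094307168259) (Ct.cons false (nat_lit 26) (nat_lit 0) (nat_lit 13835066851382525955) (Ct.cons true (nat_lit 26) (nat_lit 0) (nat_lit 35740574339398893573) (Ct.cons false (nat_lit 35) (nat_lit 0) (nat_lit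 11529223842166734851) (Ct.cons true (nat_lit 26) (nat_lit 0) (nat_lit 49575632394683154439) (Ct.cons false (nat_lit 18) (nat_lit 0) (nat_lit 44963946376255766533) (Ct.cons true (nat_lit 16) (nat_lit 0) (nat_lit 8070458228868120581) (Ct.cons true (nat_lit 4) (nat_lit 1) (nat_lit 8462484196077913167101957) (Ct.cons true (nat_lit 36) (nat_lit 0) (nat_lit 16140909860594122757) (Ct.cons false (nat_lit 72) (nat_lit 0) (nat_lit 5764615219641843715) (Ct.cons false (nat_lit 19) (nat_lit 0) (nat_lit 8070458228857634819) (Ct.cons false (nat_lit 8) (nat_lit 0) (nat_lit 26517200103522959363) (Ct.cons true (nat_lit 9) (nat_lit 1) (nat_lit 8462486501918723355443203) Ct.nil))))))))))))))))))))))))))))))))))))))))) (Tb.leaf (nat_lit 16441) (nat_lit 261) (V.cons (nat_lit 334) false (nat_lit 1) V.nil) (Rw.df (nat_lit 334) (nat_lit 0) (nat_lit 0)))) (Tb.node (nat_lit 16451) (Tb.leaf (nat_lit 16449) (nat_lit 358) (V.cons (nat_lit 336) true (nat_lit 23) (V.cons (nat_lit 338) true (nat_lit 4) (V.cons (nat_lit 340) false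 (nat_lit 610) (V.cons (nat_lit 342) false (nat_lit 29) (V.cons (nat_lit 344) true (nat_lit 1454) (V.cons (nat_lit 348) true (nat_lit 58) (V.cons (nat_lit 350) true (nat_lit 622) (V.cons (nat_lit 352) true (nat_lit 440) (V.cons (nat_lit 354) true (nat_lit 7) (V.cons (nat_lit 356) false (nat_lit 146) (V.cons (nat_lit 358) false (nat_lit 5) (V.cons (nat_lit 362) false (nat_lit 76) (V.cons (nat_lit 364) true (nat_lit 332) (V.cons (nat_lit 366) true (nat_lit 362) (V.cons (nat_lit 368) false (nat_lit 343) (V.cons (nat_lit 370) false (nat_lit 254) (V.cons (nat_lit 372) true (nat_lit 44) V.nil))))))))))))))))) (Rw.rw (nat_lit 0) (nat_lit 0) (Ct.cons false (nat_lit 1) (nat_lit 0) (nat_lit 18446759466879680519) Ct.nil))) (Tb.node (nat_lit 16453) (Tb.leaf (nat_lit 16451) (nat_lit 340) (V.cons (nat_lit 336) false (nat_lit 3) (V.cons (nat_lit 338) false (nat_lit 3) (V.cons (nat_lit 340) true (nat_lit 131) (V.cons (nat_lit 342) true (nat_lit 7) (V.cons (nat_lit 344) false (nat_lit 292) (V.cons (nat_lit 348)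 false (nat_lit 32) (V.cons (nat_lit 350) false (nat_lit 131) (V.cons (nat_lit 352) false (nat_lit 94) (V.cons (nat_lit 354) false (nat_lit 2) (V.cons (nat_lit 356) true (nat_lit 25) (V.cons (nat_lit 358) true (nat_lit 1) (V.cons (nat_lit 360) true (nat_lit 2) (V.cons (nat_lit 362) true (nat_lit 17) (V.cons (nat_lit 364) false (nat_lit 76) (V.cons (nat_lit 366) false (nat_lit 70) (V.cons (nat_lit 368) true (nat_lit 71) (V.cons (nat_lit 370) true (nat_lit 52) (V.cons (nat_lit 372) false (nat_lit 12) V.nil)))))))))))))))))) (Rw.rw (nat_lit 1) (nat_lit 1) (Ct.cons true (nat_lit 50) (nat_lit 0) (nat_lit 8070458228866023427) (Ct.cons true (nat_lit 23) (nat_lit 0) (nat_lit 8070456029838573571) (Ct.cons false (nat_lit 5) (nat_lit 0) (nat_lit 8070456029840670723) (Ct.cons true (nat_lit 14) (nat_lit 0) (nat_lit 8070502209301774341) (Ct.cons true (nat_lit 62) (nat_lit 0) (nat_lit 11529230439238598659) (Ct.cons true (nat_lit 61) (nat_lit 0) (nat_lit 8070465925421203459) (Ct.cons false (nat_lit 51) (nat_lit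 0) (nat_lit 11529223842164637699) (Ct.cons false (nat_lit 44) (nat_lit 0) (nat_lit 8070489015162241027) (Ct.cons true (nat_lit 139) (nat_lit 0) (nat_lit 11529222742664544259) (Ct.cons true (nat_lit 40) (nat_lit 0) (nat_lit 16140916457665986565) (Ct.cons true (nat_lit 35) (nat_lit 0) (nat_lit 8070461527378886659) (Ct.cons true (nat_lit 14) (nat_lit 0) (nat_lit 28823045311755714563) (Ct.cons false (nat_lit 17) (nat_lit 0) (nat_lit 8070486816136888323) (Ct.cons false (nat_lit 16) (nat_lit 0) (nat_lit 9223389629048160259) (Ct.cons true (nat_lit 12) (nat_lit 0) (nat_lit 56493161422324236295) (Ct.cons false (nat_lit 30) (nat_lit 1) (nat_lit 8462484196077913167101955) (Ct.cons false (nat_lit 24) (nat_lit 0) (nat_lit 9223383031974199299) (Ct.cons false (nat_lit 9) (nat_lit 0) (nat_lit 8070484617113632771) (Ct.cons false (nat_lit 9) (nat_lit 0) (nat_lit 35740572140377735171) (Ct.cons true (nat_lit 14) (nat_lit 0) (nat_lit 24211357094305071107) (Ct.cons false (nat_lit 13) (nat_lit 0) (nat_lit 5764622916205412355)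 (Ct.cons false (nat_lit 13) (nat_lit 0) (nat_lit 8070458228876509189) (Ct.cons false (nat_lit 4) (nat_lit 0) (nat_lit 38046417348612587523) (Ct.cons false (nat_lit 37) (nat_lit 0) (nat_lit 38046415149591429123) (Ct.cons true (nat_lit 6) (nat_lit 0) (nat_lit 5764630612781563907) (Ct.cons true (nat_lit 10) (nat_lit 0) (nat_lit 24211354895283912707) (Ct.cons true (nat_lit 1) (nat_lit 0) (nat_lit 11529218344611741699) (Ct.cons false (nat_lit 16) (nat_lit 0) (nat_lit 9223391828071415813) (Ct.cons true (nat_lit 4) (nat_lit 0) (nat_lit 5764643806925291523) (Ct.cons false (nat_lit 3) (nat_lit 1) (nat_lit 8462484196075714141749251) (Ct.cons true (nat_lit 2) (nat_lit 0) (nat_lit 58799004431537930247) (Ct.cons false (nat_lit 4) (nat_lit 0) (nat_lit 40352260357828378627) (Ct.cons false (nat_lit 20) (nat_lit 0) (nat_lit 42658103367042072579) (Ct.cons true (nat_lit 2) (nat_lit 0) (nat_lit 5764615219648135171) (Ct.cons true (nat_lit 7) (nat_lit 0) (nat_lit 8070500010278518789) (Ct.cons true (nat_lit 8) (nat_lit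 0) (nat_lit 18446759466879680519) (Ct.cons false (nat_lit 6) (nat_lit 0) (nat_lit 18446751770305626119) (Ct.cons true (nat_lit 9) (nat_lit 1) (nat_lit 8462488807768329638903811) (Ct.cons true (nat_lit 3) (nat_lit 1) (nat_lit 8462488807772727687512069) (Ct.cons true (nat_lit 6) (nat_lit 0) (nat_lit 28823040913713397763) Ct.nil)))))))))))))))))))))))))))))))))))))))))) (Tb.leaf (nat_lit 16453) (nat_lit 323) (V.cons (nat_lit 372) false (nat_lit 2) V.nil) (Rw.df (nat_lit 372) (nat_lit 1) (nat_lit 0))))))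
def tK174 : Tb := (Tb.node (nat_lit 16459) (Tb.node (nat_lit 16457) (Tb.leaf (nat_lit 16455) (nat_lit 420) (V.cons (nat_lit 374) true (nat_lit 87) (V.cons (nat_lit 376) true (nat_lit 60) (V.cons (nat_lit 378) true (nat_lit 120) (V.cons (nat_lit 380) false (nat_lit 186) (V.cons (nat_lit 382) true (nat_lit 120) (V.cons (nat_lit 384) false (nat_lit 30) (V.cons (nat_lit 386) true (nat_lit 46) (V.cons (nat_lit 388) false (nat_lit 36) (V.cons (nat_lit 390) false (nat_lit 8) (V.cons (nat_lit 392) true (nat_lit 168) (V.cons (nat_lit 394) false (nat_lit 138) (V.cons (nat_lit 396) true (nat_lit 12) (V.cons (nat_lit 398) false (nat_lit 204) (V.cons (nat_lit 400) false (nat_lit 90) (V.cons (nat_lit 402) true (nat_lit 186) (V.cons (nat_lit 404) false (nat_lit 222) (V.cons (nat_lit 406) false (nat_lit 129) (V.cons (nat_lit 408) true (nat_lit 336) (V.cons (nat_lit 410) true (nat_lit 462) (V.cons (nat_lit 412) false (nat_lit 246) (V.cons (nat_lit 414) true (nat_lit 18) (V.cons (nat_lit 416) true (nat_lit 156)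 (V.cons (nat_lit 418) false (nat_lit 24) (V.cons (nat_lit 420) false (nat_lit 24) (V.cons (nat_lit 422) true (nat_lit 18) (V.cons (nat_lit 424) false (nat_lit 1) V.nil)))))))))))))))))))))))))) (Rw.rw (nat_lit 0) (nat_lit 0) (Ct.cons false (nat_lit 1) (nat_lit 0) (nat_lit 5764635010828075011) Ct.nil))) (Tb.leaf (nat_lit 16457) (nat_lit 404) (V.cons (nat_lit 374) false (nat_lit 63) (V.cons (nat_lit 376) true (nat_lit 18) (V.cons (nat_lit 378) false (nat_lit 72) (V.cons (nat_lit 380) true (nat_lit 90) (V.cons (nat_lit 382) false (nat_lit 99) (V.cons (nat_lit 384) true (nat_lit 24) (V.cons (nat_lit 386) false (nat_lit 34) (V.cons (nat_lit 388) true (nat_lit 24) (V.cons (nat_lit 390) true (nat_lit 6) (V.cons (nat_lit 392) false (nat_lit 72) (V.cons (nat_lit 394) true (nat_lit 45) (V.cons (nat_lit 396) true (nat_lit 3) (V.cons (nat_lit 398) true (nat_lit 54) (V.cons (nat_lit 400) false (nat_lit 6) (V.cons (nat_lit 402) false (nat_lit 24) (V.cons (nat_lit 404) true (nat_lit 18) (V.cons (nat_lit 406)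 false (nat_lit 9) (V.cons (nat_lit 410) false (nat_lit 54) (V.cons (nat_lit 412) true (nat_lit 54) (V.cons (nat_lit 414) false (nat_lit 6) (V.cons (nat_lit 416) false (nat_lit 18) (V.cons (nat_lit 418) false (nat_lit 3) (V.cons (nat_lit 420) true (nat_lit 6) (V.cons (nat_lit 422) false (nat_lit 6) (V.cons (nat_lit 424) false (nat_lit 1) V.nil))))))))))))))))))))))))) (Rw.rw (nat_lit 1) (nat_lit 0) (Ct.cons false (nat_lit 8) (nat_lit 0) (nat_lit 11529222742666641411) (Ct.cons true (nat_lit 4) (nat_lit 0) (nat_lit 8070470323467714565) (Ct.cons true (nat_lit 4) (nat_lit 0) (nat_lit 28823043112732459011) (Ct.cons true (nat_lit 1) (nat_lit 0) (nat_lit 8070461527380983811) (Ct.cons false (nat_lit 2) (nat_lit 0) (nat_lit 49575632394683154435) (Ct.cons true (nat_lit 3) (nat_lit 0) (nat_lit 38046415149589331971) (Ct.cons false (nat_lit 6) (nat_lit 0) (nat_lit 18446752869807816707) (Ct.cons false (nat_lit 1) (nat_lit 0) (nat_lit 11529230439236501507) (Ct.cons true (nat_lit 2) (nat_lit 0) (nat_lit 5764615219652329475)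 (Ct.cons false (nat_lit 2) (nat_lit 0) (nat_lit 8070456029842767875) (Ct.cons true (nat_lit 3) (nat_lit 0) (nat_lit 5764622916207509507) (Ct.cons false (nat_lit 3) (nat_lit 0) (nat_lit 44963944177232510979) (Ct.cons true (nat_lit 1) (nat_lit 0) (nat_lit 40352260357826281475) (Ct.cons false (nat_lit 10) (nat_lit 0) (nat_lit 8070468124444459011) (Ct.cons false (nat_lit 13) (nat_lit 0) (nat_lit 11529232638261854211) (Ct.cons false (nat_lit 5) (nat_lit 0) (nat_lit 16140908761094029317) (Ct.cons true (nat_lit 1) (nat_lit 0) (nat_lit 20752594779517222919) (Ct.cons false (nat_lit 6) (nat_lit 0) (nat_lit 5764615219654426627) (Ct.cons true (nat_lit 4) (nat_lit 0) (nat_lit 42658103367039975427) (Ct.cons false (nat_lit 6) (nat_lit 0) (nat_lit 8070489015160143875) (Ct.cons true (nat_lit 3) (nat_lit 0) (nat_lit 8070500010276421637) (Ct.cons false (nat_lit 4) (nat_lit 0) (nat_lit 8070480219065024515) (Ct.cons false (nat_lit 5) (nat_lit 0) (nat_lit 11529220543641288707) (Ct.cons true (nat_lit 6) (nat_lit 0) (nat_lit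 8070456029846962179) (Ct.cons false (nat_lit 13) (nat_lit 0) (nat_lit 18446751770301431811) (Ct.cons false (nat_lit 1) (nat_lit 0) (nat_lit 8070491214183399427) (Ct.cons false (nat_lit 1) (nat_lit 0) (nat_lit 42658101168018817027) (Ct.cons true (nat_lit 5) (nat_lit 0) (nat_lit 20752595879021510661) (Ct.cons false (nat_lit 5) (nat_lit 0) (nat_lit 9223391828069318661) (Ct.cons true (nat_lit 1) (nat_lit 0) (nat_lit 13835061353825435651) (Ct.cons false (nat_lit 7) (nat_lit 0) (nat_lit 5764641607899938819) (Ct.cons true (nat_lit 3) (nat_lit 0) (nat_lit 28823040913711300611) (Ct.cons true (nat_lit 1) (nat_lit 0) (nat_lit 31128888320969408515) (Ct.cons false (nat_lit 1) (nat_lit 0) (nat_lit 54187316214087286789) (Ct.cons true (nat_lit 3) (nat_lit 0) (nat_lit 31128883922927091715) (Ct.cons true (nat_lit 3) (nat_lit 0) (nat_lit 9223377534429691907) (Ct.cons false (nat_lit 2) (nat_lit 0) (nat_lit 8070495612232007683) (Ct.cons true (nat_lit 2) (nat_lit 0) (nat_lit 8070463726402142211) (Ct.cons false (nat_lit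 6) (nat_lit 0) (nat_lit 9223385230997454851) (Ct.cons true (nat_lit 6) (nat_lit 0) (nat_lit 5764613020624879619) (Ct.cons false (nat_lit 1) (nat_lit 0) (nat_lit 8070458228874412035) (Ct.cons false (nat_lit 2) (nat_lit 1) (nat_lit 6044632556848654817689603) (Ct.cons true (nat_lit 6) (nat_lit 0) (nat_lit 5764646005948547075) (Ct.cons true (nat_lit 2) (nat_lit 1) (nat_lit 3626780917619396468277253) (Ct.cons false (nat_lit 2) (nat_lit 1) (nat_lit 8462486501927519450562563) (Ct.cons false (nat_lit 4) (nat_lit 1) (nat_lit 12089261654918502154240003) (Ct.cons true (nat_lit 1) (nat_lit 0) (nat_lit 8070493413206654979) (Ct.cons true (nat_lit 1) (nat_lit 0) (nat_lit 8070497811255263235) (Ct.cons true (nat_lit 2) (nat_lit 1) (nat_lit 8462488807770528662159363) (Ct.cons true (nat_lit 2) (nat_lit 1) (nat_lit 8462486501929718473818117) Ct.nil))))))))))))))))))))))))))))))))))))))))))))))))))))) (Tb.node (nat_lit 16461) (Tb.leaf (nat_lit 16459) (nat_lit 424) (V.cons (nat_lit 374) false (nat_lit 21) (V.cons (nat_lit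 376) false (nat_lit 138) (V.cons (nat_lit 378) false (nat_lit 114) (V.cons (nat_lit 380) true (nat_lit 102) (V.cons (nat_lit 382) false (nat_lit 87) (V.cons (nat_lit 384) true (nat_lit 30) (V.cons (nat_lit 386) false (nat_lit 10) (V.cons (nat_lit 388) true (nat_lit 18) (V.cons (nat_lit 390) true (nat_lit 18) (V.cons (nat_lit 392) false (nat_lit 192) (V.cons (nat_lit 394) true (nat_lit 159) (V.cons (nat_lit 396) false (nat_lit 9) (V.cons (nat_lit 398) true (nat_lit 156) (V.cons (nat_lit 400) false (nat_lit 12) (V.cons (nat_lit 402) false (nat_lit 24) (V.cons (nat_lit 404) true (nat_lit 48) (V.cons (nat_lit 406) false (nat_lit 21) (V.cons (nat_lit 408) false (nat_lit 60) (V.cons (nat_lit 410) false (nat_lit 96) (V.cons (nat_lit 412) true (nat_lit 78) (V.cons (nat_lit 414) false (nat_lit 8) (V.cons (nat_lit 416) false (nat_lit 24) (V.cons (nat_lit 418) true (nat_lit 15) (V.cons (nat_lit 420) true (nat_lit 6) (V.cons (nat_lit 422) false (nat_lit 12) (V.cons (nat_lit 424) false (nat_lit 1) V.nil))))))))))))))))))))))))))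 (Rw.rw (nat_lit 0) (nat_lit 0) (Ct.cons true (nat_lit 1) (nat_lit 0) (nat_lit 38046415149589331971) Ct.nil))) (Tb.node (nat_lit 16463) (Tb.leaf (nat_lit 16461) (nat_lit 429) (V.cons (nat_lit 374) true (nat_lit 24) (V.cons (nat_lit 376) true (nat_lit 15) (V.cons (nat_lit 378) true (nat_lit 21) (V.cons (nat_lit 380) false (nat_lit 57) (V.cons (nat_lit 382) true (nat_lit 21) (V.cons (nat_lit 384) false (nat_lit 3) (V.cons (nat_lit 386) true (nat_lit 13) (V.cons (nat_lit 388) false (nat_lit 9) (V.cons (nat_lit 390) true (nat_lit 1) (V.cons (nat_lit 392) true (nat_lit 33) (V.cons (nat_lit 394) false (nat_lit 30) (V.cons (nat_lit 396) true (nat_lit 6) (V.cons (nat_lit 398) false (nat_lit 69) (V.cons (nat_lit 400) false (nat_lit 63) (V.cons (nat_lit 402) true (nat_lit 108) (V.cons (nat_lit 404) false (nat_lit 123) (V.cons (nat_lit 406) false (nat_lit 93) (V.cons (nat_lit 408) true (nat_lit 201) (V.cons (nat_lit 410) true (nat_lit 255) (V.cons (nat_lit 412) false (nat_lit 120) (V.cons (nat_lit 414) true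 (nat_lit 7) (V.cons (nat_lit 416) true (nat_lit 84) (V.cons (nat_lit 418) false (nat_lit 12) (V.cons (nat_lit 420) false (nat_lit 12) (V.cons (nat_lit 422) true (nat_lit 6) (V.cons (nat_lit 424) false (nat_lit 1) V.nil)))))))))))))))))))))))))) (Rw.rw (nat_lit 0) (nat_lit 0) (Ct.cons false (nat_lit 1) (nat_lit 0) (nat_lit 5764632811804819459) Ct.nil))) (Tb.leaf (nat_lit 16463) (nat_lit 428) (V.cons (nat_lit 374) false (nat_lit 30) (V.cons (nat_lit 376) true (nat_lit 33) (V.cons (nat_lit 378) false (nat_lit 15) (V.cons (nat_lit 380) true (nat_lit 27) (V.cons (nat_lit 382) false (nat_lit 42) (V.cons (nat_lit 384) true (nat_lit 9) (V.cons (nat_lit 386) false (nat_lit 15) (V.cons (nat_lit 388) true (nat_lit 9) (V.cons (nat_lit 390) true (nat_lit 5) (V.cons (nat_lit 392) false (nat_lit 21) (V.cons (nat_lit 394) false (nat_lit 12) (V.cons (nat_lit 396) true (nat_lit 3) (V.cons (nat_lit 398) false (nat_lit 15) (V.cons (nat_lit 400) false (nat_lit 45) (V.cons (nat_lit 402) true (nat_lit 48) (V.cons (nat_lit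 404) false (nat_lit 69) (V.cons (nat_lit 406) false (nat_lit 57) (V.cons (nat_lit 408) true (nat_lit 129) (V.cons (nat_lit 410) true (nat_lit 147) (V.cons (nat_lit 412) false (nat_lit 48) (V.cons (nat_lit 414) true (nat_lit 3) (V.cons (nat_lit 416) true (nat_lit 39) (V.cons (nat_lit 418) false (nat_lit 9) (V.cons (nat_lit 420) false (nat_lit 6) (V.cons (nat_lit 424) false (nat_lit 1) V.nil))))))))))))))))))))))))) (Rw.rw (nat_lit 0) (nat_lit 0) (Ct.cons false (nat_lit 1) (nat_lit 0) (nat_lit 8070468124444459011) Ct.nil))))))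
def tK175 : Tb := (Tb.node (nat_lit 16455) tK173 tK174)
def tK176 : Tb := (Tb.node (nat_lit 16439) tK172 tK175)
def tK177 : Tb := (Tb.node (nat_lit 16416) tK170 tK176)
def tK178 : Tb := (Tb.node (nat_lit 16489) (Tb.node (nat_lit 16487) (Tb.leaf (nat_lit 16485) (nat_lit 579) (V.cons (nat_lit 482) true (nat_lit 18) (V.cons (nat_lit 484) false (nat_lit 8) (V.cons (nat_lit 488) true (nat_lit 6) (V.cons (nat_lit 490) false (nat_lit 18) (V.cons (nat_lit 492) false (nat_lit 26) (V.cons (nat_lit 494) true (nat_lit 14) (V.cons (nat_lit 496) false (nat_lit 60) (V.cons (nat_lit 498) true (nat_lit 60) (V.cons (nat_lit 500) true (nat_lit 16) (V.cons (nat_lit 502) true (nat_lit 12) (V.cons (nat_lit 504) false (nat_lit 4) (V.cons (nat_lit 506) false (nat_lit 84) (V.cons (nat_lit 508) false (nat_lit 60) (V.cons (nat_lit 510) false (nat_lit 78) (V.cons (nat_lit 512) false (nat_lit 6) (V.cons (nat_lit 514) true (nat_lit 6) (V.cons (nat_lit 516) true (nat_lit 66) (V.cons (nat_lit 518) false (nat_lit 1) V.nil))))))))))))))))))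 (Rw.rw (nat_lit 2) (nat_lit 0) (Ct.cons false (nat_lit 1) (nat_lit 1) (nat_lit 3626780917625993538043909) Ct.nil))) (Tb.leaf (nat_lit 16487) (nat_lit 566) (V.cons (nat_lit 482) false (nat_lit 12) (V.cons (nat_lit 484) true (nat_lit 8) (V.cons (nat_lit 486) true (nat_lit 2) (V.cons (nat_lit 488) true (nat_lit 2) (V.cons (nat_lit 490) true (nat_lit 12) (V.cons (nat_lit 492) true (nat_lit 18) (V.cons (nat_lit 496) true (nat_lit 6) (V.cons (nat_lit 498) false (nat_lit 18) (V.cons (nat_lit 500) false (nat_lit 8) (V.cons (nat_lit 502) false (nat_lit 8) (V.cons (nat_lit 504) true (nat_lit 4) (V.cons (nat_lit 506) true (nat_lit 30) (V.cons (nat_lit 508) true (nat_lit 24) (V.cons (nat_lit 510) true (nat_lit 48) (V.cons (nat_lit 512) false (nat_lit 9) (V.cons (nat_lit 514) true (nat_lit 18) (V.cons (nat_lit 516) false (nat_lit 18) (V.cons (nat_lit 518) false (nat_lit 1) V.nil)))))))))))))))))) (Rw.rw (nat_lit 1) (nat_lit 0) (Ct.cons true (nat_lit 2) (nat_lit 0) (nat_lit 16140918656687144963) (Ct.cons true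 (nat_lit 6) (nat_lit 0) (nat_lit 18446749571282370563) (Ct.cons false (nat_lit 6) (nat_lit 0) (nat_lit 5764650403990863875) (Ct.cons true (nat_lit 6) (nat_lit 0) (nat_lit 8070468124450750467) (Ct.cons false (nat_lit 6) (nat_lit 0) (nat_lit 5764622916213800963) (Ct.cons true (nat_lit 6) (nat_lit 0) (nat_lit 8070497811251068931) (Ct.cons true (nat_lit 2) (nat_lit 0) (nat_lit 8070504408322932739) (Ct.cons true (nat_lit 1) (nat_lit 1) (nat_lit 3626780917619396466180099) (Ct.cons true (nat_lit 3) (nat_lit 0) (nat_lit 11529232638257659907) (Ct.cons false (nat_lit 2) (nat_lit 0) (nat_lit 18446755068828975107) (Ct.cons true (nat_lit 2) (nat_lit 0) (nat_lit 40352255959779770371) (Ct.cons true (nat_lit 4) (nat_lit 0) (nat_lit 18446751770307723267) (Ct.cons true (nat_lit 3) (nat_lit 0) (nat_lit 5764646005944352771) (Ct.cons true (nat_lit 2) (nat_lit 0) (nat_lit 20752592580491870211) Ct.nil))))))))))))))))) (Tb.node (nat_lit 16491) (Tb.leaf (nat_lit 16489) (nat_lit 567) (V.cons (nat_lit 482) false (nat_lit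 22) (V.cons (nat_lit 484) true (nat_lit 10) (V.cons (nat_lit 488) false (nat_lit 2) (V.cons (nat_lit 490) true (nat_lit 22) (V.cons (nat_lit 492) true (nat_lit 28) (V.cons (nat_lit 494) false (nat_lit 12) (V.cons (nat_lit 496) true (nat_lit 60) (V.cons (nat_lit 498) false (nat_lit 60) (V.cons (nat_lit 500) false (nat_lit 20) (V.cons (nat_lit 502) false (nat_lit 12) (V.cons (nat_lit 504) true (nat_lit 4) (V.cons (nat_lit 506) true (nat_lit 84) (V.cons (nat_lit 508) true (nat_lit 60) (V.cons (nat_lit 510) true (nat_lit 84) (V.cons (nat_lit 514) true (nat_lit 6) (V.cons (nat_lit 516) false (nat_lit 48) (V.cons (nat_lit 518) false (nat_lit 1) V.nil))))))))))))))))) (Rw.rw (nat_lit 1) (nat_lit 0) (Ct.cons true (nat_lit 4) (nat_lit 0) (nat_lit 56493161422322139139) (Ct.cons false (nat_lit 6) (nat_lit 0) (nat_lit 5764650403990863875) (Ct.cons true (nat_lit 21) (nat_lit 0) (nat_lit 18446751770307723267) (Ct.cons false (nat_lit 12) (nat_lit 0) (nat_lit 56493159223300980739) (Ct.cons false (nat_lit 14) (nat_lit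 0) (nat_lit 8070504408322932739) (Ct.cons false (nat_lit 2) (nat_lit 0) (nat_lit 16140920855710400517) (Ct.cons true (nat_lit 2) (nat_lit 0) (nat_lit 42658101168014622723) (Ct.cons false (nat_lit 18) (nat_lit 0) (nat_lit 18446755068828975107) (Ct.cons true (nat_lit 18) (nat_lit 0) (nat_lit 8070456029857447939) (Ct.cons true (nat_lit 4) (nat_lit 0) (nat_lit 42658098968993464323) (Ct.cons false (nat_lit 16) (nat_lit 0) (nat_lit 5764622916213800963) (Ct.cons true (nat_lit 14) (nat_lit 0) (nat_lit 8070497811251068931) (Ct.cons false (nat_lit 6) (nat_lit 0) (nat_lit 16140918656687144963) (Ct.cons false (nat_lit 1) (nat_lit 1) (nat_lit 6044632556855251887456259) (Ct.cons false (nat_lit 2) (nat_lit 0) (nat_lit 8070463726406336515) (Ct.cons false (nat_lit 2) (nat_lit 0) (nat_lit 5764613020641656835) (Ct.cons true (nat_lit 10) (nat_lit 0) (nat_lit 8070468124450750467) (Ct.cons true (nat_lit 10) (nat_lit 0) (nat_lit 18446749571282370563) (Ct.cons true (nat_lit 2) (nat_lit 0) (nat_lit 18446747372254920707)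 (Ct.cons false (nat_lit 2) (nat_lit 0) (nat_lit 49575627996636643331) (Ct.cons true (nat_lit 2) (nat_lit 0) (nat_lit 13835073448448098307) (Ct.cons true (nat_lit 2) (nat_lit 0) (nat_lit 8070495612227813379) (Ct.cons false (nat_lit 2) (nat_lit 0) (nat_lit 40352255959779770371) (Ct.cons false (nat_lit 2) (nat_lit 0) (nat_lit 5764646005944352771) Ct.nil)))))))))))))))))))))))))) (Tb.node (nat_lit 16493) (Tb.leaf (nat_lit 16491) (nat_lit 570) (V.cons (nat_lit 482) false (nat_lit 32) (V.cons (nat_lit 484) true (nat_lit 18) (V.cons (nat_lit 486) true (nat_lit 2) (V.cons (nat_lit 488) false (nat_lit 2) (V.cons (nat_lit 490) true (nat_lit 32) (V.cons (nat_lit 492) true (nat_lit 46) (V.cons (nat_lit 494) false (nat_lit 14) (V.cons (nat_lit 496) true (nat_lit 70) (V.cons (nat_lit 498) false (nat_lit 82) (V.cons (nat_lit 500) false (nat_lit 28) (V.cons (nat_lit 502) false (nat_lit 20) (V.cons (nat_lit 504) true (nat_lit 8) (V.cons (nat_lit 506) true (nat_lit 118) (V.cons (nat_lit 508) true (nat_lit 88) (V.cons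 (nat_lit 510) true (nat_lit 128) (V.cons (nat_lit 512) false (nat_lit 4) (V.cons (nat_lit 514) true (nat_lit 16) (V.cons (nat_lit 516) false (nat_lit 76) (V.cons (nat_lit 518) false (nat_lit 1) V.nil))))))))))))))))))) (Rw.rw (nat_lit 0) (nat_lit 0) (Ct.cons false (nat_lit 1) (nat_lit 0) (nat_lit 18446755068828975107) Ct.nil))) (Tb.leaf (nat_lit 16493) (nat_lit 578) (V.cons (nat_lit 482) false (nat_lit 32) (V.cons (nat_lit 484) true (nat_lit 18) (V.cons (nat_lit 486) true (nat_lit 2) (V.cons (nat_lit 488) false (nat_lit 2) (V.cons (nat_lit 490) true (nat_lit 32) (V.cons (nat_lit 492) true (nat_lit 46) (V.cons (nat_lit 494) false (nat_lit 14) (V.cons (nat_lit 496) true (nat_lit 70) (V.cons (nat_lit 498) false (nat_lit 82) (V.cons (nat_lit 500) false (nat_lit 28) (V.cons (nat_lit 502) false (nat_lit 20) (V.cons (nat_lit 504) true (nat_lit 8) (V.cons (nat_lit 506) true (nat_lit 118) (V.cons (nat_lit 508) true (nat_lit 88) (V.cons (nat_lit 510) true (nat_lit 128) (V.cons (nat_lit 512) false (nat_lit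 4) (V.cons (nat_lit 514) true (nat_lit 16) (V.cons (nat_lit 516) false (nat_lit 76) (V.cons (nat_lit 518) false (nat_lit 1) V.nil))))))))))))))))))) (Rw.rw (nat_lit 0) (nat_lit 0) (Ct.cons false (nat_lit 1) (nat_lit 0) (nat_lit 8070470323474006021) Ct.nil))))))
def tK179 : Tb := (Tb.node (nat_lit 16485) (Tb.node (nat_lit 16481) (Tb.node (nat_lit 16479) (Tb.leaf (nat_lit 16465) (nat_lit 426) (V.cons (nat_lit 374) true (nat_lit 66) (V.cons (nat_lit 376) true (nat_lit 21) (V.cons (nat_lit 378) true (nat_lit 87) (V.cons (nat_lit 380) false (nat_lit 129) (V.cons (nat_lit 382) true (nat_lit 87) (V.cons (nat_lit 384) false (nat_lit 21) (V.cons (nat_lit 386) true (nat_lit 37) (V.cons (nat_lit 388) false (nat_lit 27) (V.cons (nat_lit 390) true (nat_lit 1) (V.cons (nat_lit 392) true (nat_lit 93) (V.cons (nat_lit 394) false (nat_lit 87) (V.cons (nat_lit 396) true (nat_lit 6) (V.cons (nat_lit 398) false (nat_lit 147) (V.cons (nat_lit 400) false (nat_lit 111) (V.cons (nat_lit 402) true (nat_lit 180) (V.cons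 (nat_lit 404) false (nat_lit 219) (V.cons (nat_lit 406) false (nat_lit 141) (V.cons (nat_lit 408) true (nat_lit 339) (V.cons (nat_lit 410) true (nat_lit 465) (V.cons (nat_lit 412) false (nat_lit 222) (V.cons (nat_lit 414) true (nat_lit 17) (V.cons (nat_lit 416) true (nat_lit 159) (V.cons (nat_lit 418) false (nat_lit 18) (V.cons (nat_lit 420) false (nat_lit 24) (V.cons (nat_lit 422) true (nat_lit 12) (V.cons (nat_lit 424) false (nat_lit 1) V.nil)))))))))))))))))))))))))) (Rw.rw (nat_lit 1) (nat_lit 0) (Ct.cons false (nat_lit 1) (nat_lit 0) (nat_lit 9223377534429691907) Ct.nil))) (Tb.leaf (nat_lit 16479) (nat_lit 526) (V.cons (nat_lit 444) false (nat_lit 32) (V.cons (nat_lit 446) true (nat_lit 29) (V.cons (nat_lit 448) true (nat_lit 249) (V.cons (nat_lit 450) true (nat_lit 27) (V.cons (nat_lit 452) false (nat_lit 60) (V.cons (nat_lit 454) true (nat_lit 156) (V.cons (nat_lit 456) false (nat_lit 129) (V.cons (nat_lit 458) true (nat_lit 30) (V.cons (nat_lit 460) false (nat_lit 44) (V.cons (nat_lit 462)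 false (nat_lit 73) (V.cons (nat_lit 464) true (nat_lit 39) (V.cons (nat_lit 466) true (nat_lit 138) (V.cons (nat_lit 468) false (nat_lit 102) (V.cons (nat_lit 470) false (nat_lit 24) (V.cons (nat_lit 472) true (nat_lit 72) (V.cons (nat_lit 474) false (nat_lit 45) (V.cons (nat_lit 476) true (nat_lit 132) (V.cons (nat_lit 478) false (nat_lit 114) (V.cons (nat_lit 480) true (nat_lit 114) V.nil))))))))))))))))))) (Rw.rw (nat_lit 1) (nat_lit 0) (Ct.cons true (nat_lit 1) (nat_lit 1) (nat_lit 8462484196084510236868611) Ct.nil)))) (Tb.node (nat_lit 16483) (Tb.leaf (nat_lit 16481) (nat_lit 494) (V.cons (nat_lit 478) false (nat_lit 3) V.nil) (Rw.df (nat_lit 478) (nat_lit 0) (nat_lit 1))) (Tb.leaf (nat_lit 16483) (nat_lit 495) (V.cons (nat_lit 480) false (nat_lit 3) V.nil) (Rw.df (nat_lit 480) (nat_lit 0) (nat_lit 1))))) tK178)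
def tK180 : Tb := (Tb.node (nat_lit 18454) (Tb.node (nat_lit 18452) (Tb.leaf (nat_lit 16495) (nat_lit 561) (V.cons (nat_lit 482) false (nat_lit 2) (V.cons (nat_lit 484) true (nat_lit 2) (V.cons (nat_lit 488) true (nat_lit 2) (V.cons (nat_lit 490) true (nat_lit 2) (V.cons (nat_lit 492) true (nat_lit 2) (V.cons (nat_lit 496) true (nat_lit 2) (V.cons (nat_lit 498) false (nat_lit 2) (V.cons (nat_lit 500) false (nat_lit 2) (V.cons (nat_lit 506) true (nat_lit 2) (V.cons (nat_lit 508) true (nat_lit 2) (V.cons (nat_lit 510) true (nat_lit 4) (V.cons (nat_lit 512) false (nat_lit 2) (V.cons (nat_lit 514) true (nat_lit 2) (V.cons (nat_lit 516) true (nat_lit 4) (V.cons (nat_lit 518) false (nat_lit 1) V.nil))))))))))))))) (Rw.rw (nat_lit 1) (nat_lit 1) (Ct.cons true (nat_lit 2) (nat_lit 0) (nat_lit 8070504408322932739) (Ct.cons false (nat_lit 1) (nat_lit 0) (nat_lit 5764650403990863875) (Ct.cons false (nat_lit 4) (nat_lit 0) (nat_lit 18446755068828975107) (Ct.cons true (nat_lit 4) (nat_lit 0) (nat_lit 8070456029857447939)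 (Ct.cons true (nat_lit 5) (nat_lit 0) (nat_lit 8070497811251068931) (Ct.cons true (nat_lit 3) (nat_lit 0) (nat_lit 18446751770307723267) (Ct.cons true (nat_lit 2) (nat_lit 0) (nat_lit 16140918656687144963) (Ct.cons true (nat_lit 1) (nat_lit 0) (nat_lit 8070468124450750467) (Ct.cons true (nat_lit 5) (nat_lit 0) (nat_lit 18446749571282370563) (Ct.cons false (nat_lit 5) (nat_lit 0) (nat_lit 5764622916213800963) (Ct.cons false (nat_lit 1) (nat_lit 1) (nat_lit 3626780917625993538043909) Ct.nil))))))))))))) (Tb.leaf (nat_lit 18452) (nat_lit 147) (V.cons (nat_lit 191) true (nat_lit 1) (V.cons (nat_lit 195) false (nat_lit 1) (V.cons (nat_lit 197) false (nat_lit 2) (V.cons (nat_lit 199) true (nat_lit 2) (V.cons (nat_lit 201) false (nat_lit 1) V.nil))))) (Rw.rw (nat_lit 0) (nat_lit 0) (Ct.cons true (nat_lit 1) (nat_lit 0) (nat_lit 9223375335396999171) Ct.nil)))) (Tb.node (nat_lit 18456) (Tb.leaf (nat_lit 18454) (nat_lit 169) (V.cons (nat_lit 205) true (nat_lit 3) (V.cons (nat_lit 207) true (nat_lit 3) (V.cons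 (nat_lit 209) false (nat_lit 2) (V.cons (nat_lit 213) true (nat_lit 3) (V.cons (nat_lit 215) false (nat_lit 1) (V.cons (nat_lit 217) false (nat_lit 4) (V.cons (nat_lit 219) false (nat_lit 1) (V.cons (nat_lit 223) false (nat_lit 1) (V.cons (nat_lit 225) false (nat_lit 3) (V.cons (nat_lit 227) true (nat_lit 2) V.nil)))))))))) (Rw.rw (nat_lit 0) (nat_lit 0) (Ct.cons true (nat_lit 1) (nat_lit 0) (nat_lit 9223375335394902019) Ct.nil))) (Tb.node (nat_lit 18458) (Tb.leaf (nat_lit 18456) (nat_lit 162) (V.cons (nat_lit 203) true (nat_lit 1) (V.cons (nat_lit 205) false (nat_lit 1) (V.cons (nat_lit 209) true (nat_lit 1) (V.cons (nat_lit 211) true (nat_lit 1) (V.cons (nat_lit 213) false (nat_lit 1) (V.cons (nat_lit 219) false (nat_lit 1) (V.cons (nat_lit 225) true (nat_lit 1) V.nil))))))) (Rw.rw (nat_lit 0) (nat_lit 0) (Ct.cons true (nat_lit 1) (nat_lit 0) (nat_lit 11529218344610693123) Ct.nil))) (Tb.leaf (nat_lit 18458) (nat_lit 188) (V.cons (nat_lit 231) true (nat_lit 1) (V.cons (nat_lit 239) true (nat_lit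 1) (V.cons (nat_lit 241) false (nat_lit 1) (V.cons (nat_lit 251) true (nat_lit 1) V.nil)))) (Rw.rw (nat_lit 0) (nat_lit 0) (Ct.cons true (nat_lit 1) (nat_lit 0) (nat_lit 11529218344608595971) Ct.nil))))))
def tK181 : Tb := (Tb.node (nat_lit 18464) (Tb.node (nat_lit 18462) (Tb.leaf (nat_lit 18460) (nat_lit 192) (V.cons (nat_lit 229) true (nat_lit 2) (V.cons (nat_lit 231) false (nat_lit 1) (V.cons (nat_lit 235) true (nat_lit 1) (V.cons (nat_lit 237) true (nat_lit 1) (V.cons (nat_lit 239) false (nat_lit 1) (V.cons (nat_lit 241) false (nat_lit 1) (V.cons (nat_lit 245) false (nat_lit 1) (V.cons (nat_lit 247) false (nat_lit 1) (V.cons (nat_lit 253) true (nat_lit 1) V.nil))))))))) (Rw.rw (nat_lit 0) (nat_lit 0) (Ct.cons true (nat_lit 1) (nat_lit 0) (nat_lit 13835061353824387075) Ct.nil))) (Tb.leaf (nat_lit 18462) (nat_lit 208) (V.cons (nat_lit 255) true (nat_lit 2) (V.cons (nat_lit 257) false (nat_lit 2) (V.cons (nat_lit 263) true (nat_lit 1) V.nil))) (Rw.rw (nat_lit 0) (nat_lit 0) (Ct.cons true (nat_lit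 1) (nat_lit 0) (nat_lit 9223375335392804867) Ct.nil)))) (Tb.node (nat_lit 18466) (Tb.leaf (nat_lit 18464) (nat_lit 209) (V.cons (nat_lit 257) true (nat_lit 1) (V.cons (nat_lit 259) false (nat_lit 1) (V.cons (nat_lit 265) true (nat_lit 1) V.nil))) (Rw.rw (nat_lit 0) (nat_lit 0) (Ct.cons true (nat_lit 1) (nat_lit 0) (nat_lit 16140904363038081027) Ct.nil))) (Tb.node (nat_lit 18468) (Tb.leaf (nat_lit 18466) (nat_lit 230) (V.cons (nat_lit 267) true (nat_lit 2) (V.cons (nat_lit 269) true (nat_lit 1) (V.cons (nat_lit 271) false (nat_lit 3) (V.cons (nat_lit 273) true (nat_lit 2) (V.cons (nat_lit 275) false (nat_lit 2) (V.cons (nat_lit 277) false (nat_lit 1) (V.cons (nat_lit 279) false (nat_lit 1) (V.cons (nat_lit 281) true (nat_lit 2) (V.cons (nat_lit 283) true (nat_lit 1) (V.cons (nat_lit 285) true (nat_lit 2) V.nil)))))))))) (Rw.rw (nat_lit 0) (nat_lit 0) (Ct.cons true (nat_lit 1) (nat_lit 0) (nat_lit 5764615219634503683) Ct.nil))) (Tb.leaf (nat_lit 18468) (nat_lit 226) (V.cons (nat_lit 267) true (nat_lit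 2) (V.cons (nat_lit 269) false (nat_lit 2) (V.cons (nat_lit 273) true (nat_lit 1) (V.cons (nat_lit 275) false (nat_lit 2) (V.cons (nat_lit 279) true (nat_lit 1) (V.cons (nat_lit 283) true (nat_lit 1) V.nil)))))) (Rw.rw (nat_lit 0) (nat_lit 0) (Ct.cons true (nat_lit 1) (nat_lit 0) (nat_lit 16140904363035983875) Ct.nil))))))
def tK182 : Tb := (Tb.node (nat_lit 18460) tK180 tK181)
def tK183 : Tb := (Tb.node (nat_lit 16495) tK179 tK182)
def tK184 : Tb := (Tb.node (nat_lit 18491) (Tb.node (nat_lit 18489) (Tb.leaf (nat_lit 18487) (nat_lit 349) (V.cons (nat_lit 336) true (nat_lit 17) (V.cons (nat_lit 338) false (nat_lit 2) (V.cons (nat_lit 340) false (nat_lit 364) (V.cons (nat_lit 342) false (nat_lit 17) (V.cons (nat_lit 344) true (nat_lit 878) (V.cons (nat_lit 348) true (nat_lit 58) (V.cons (nat_lit 350) true (nat_lit 382) (V.cons (nat_lit 352) true (nat_lit 278) (V.cons (nat_lit 354) true (nat_lit 7) (V.cons (nat_lit 356) false (nat_lit 101) (V.cons (nat_lit 358) false (nat_lit 5) (V.cons (nat_lit 360)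 false (nat_lit 1) (V.cons (nat_lit 362) false (nat_lit 58) (V.cons (nat_lit 364) true (nat_lit 212) (V.cons (nat_lit 366) true (nat_lit 248) (V.cons (nat_lit 368) false (nat_lit 253) (V.cons (nat_lit 370) false (nat_lit 143) (V.cons (nat_lit 372) true (nat_lit 26) V.nil)))))))))))))))))) (Rw.rw (nat_lit 0) (nat_lit 0) (Ct.cons true (nat_lit 1) (nat_lit 0) (nat_lit 26517197904499703811) Ct.nil))) (Tb.leaf (nat_lit 18489) (nat_lit 332) (V.cons (nat_lit 336) false (nat_lit 2) (V.cons (nat_lit 338) true (nat_lit 2) (V.cons (nat_lit 340) true (nat_lit 21) (V.cons (nat_lit 344) false (nat_lit 48) (V.cons (nat_lit 350) false (nat_lit 21) (V.cons (nat_lit 352) false (nat_lit 18) (V.cons (nat_lit 356) true (nat_lit 3) (V.cons (nat_lit 362) true (nat_lit 3) (V.cons (nat_lit 364) false (nat_lit 12) (V.cons (nat_lit 366) false (nat_lit 18) (V.cons (nat_lit 368) true (nat_lit 15) (V.cons (nat_lit 370) true (nat_lit 6) V.nil)))))))))))) (Rw.rw (nat_lit 0) (nat_lit 0) (Ct.cons true (nat_lit 1) (nat_lit 0) (nat_lit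 28823040913713397763) Ct.nil)))) (Tb.node (nat_lit 18493) (Tb.leaf (nat_lit 18491) (nat_lit 409) (V.cons (nat_lit 374) false (nat_lit 27) (V.cons (nat_lit 376) false (nat_lit 270) (V.cons (nat_lit 378) false (nat_lit 234) (V.cons (nat_lit 380) true (nat_lit 198) (V.cons (nat_lit 382) false (nat_lit 171) (V.cons (nat_lit 384) true (nat_lit 54) (V.cons (nat_lit 386) false (nat_lit 18) (V.cons (nat_lit 388) true (nat_lit 36) (V.cons (nat_lit 390) true (nat_lit 26) (V.cons (nat_lit 392) false (nat_lit 360) (V.cons (nat_lit 394) true (nat_lit 333) (V.cons (nat_lit 396) false (nat_lit 21) (V.cons (nat_lit 398) true (nat_lit 360) (V.cons (nat_lit 400) true (nat_lit 66) (V.cons (nat_lit 402) false (nat_lit 156) (V.cons (nat_lit 404) true (nat_lit 270) (V.cons (nat_lit 406) true (nat_lit 63) (V.cons (nat_lit 408) false (nat_lit 360) (V.cons (nat_lit 410) false (nat_lit 522) (V.cons (nat_lit 412) true (nat_lit 270) (V.cons (nat_lit 414) false (nat_lit 26) (V.cons (nat_lit 416) false (nat_lit 144) (V.cons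 (nat_lit 418) true (nat_lit 39) (V.cons (nat_lit 420) true (nat_lit 30) (V.cons (nat_lit 422) false (nat_lit 30) (V.cons (nat_lit 424) false (nat_lit 1) V.nil)))))))))))))))))))))))))) (Rw.rw (nat_lit 0) (nat_lit 0) (Ct.cons true (nat_lit 1) (nat_lit 0) (nat_lit 26517197904497606659) Ct.nil))) (Tb.node (nat_lit 18495) (Tb.leaf (nat_lit 18493) (nat_lit 418) (V.cons (nat_lit 374) false (nat_lit 3) (V.cons (nat_lit 376) true (nat_lit 87) (V.cons (nat_lit 378) true (nat_lit 30) (V.cons (nat_lit 380) false (nat_lit 42) (V.cons (nat_lit 382) false (nat_lit 15) (V.cons (nat_lit 384) false (nat_lit 6) (V.cons (nat_lit 386) true (nat_lit 2) (V.cons (nat_lit 392) true (nat_lit 60) (V.cons (nat_lit 394) false (nat_lit 75) (V.cons (nat_lit 396) true (nat_lit 3) (V.cons (nat_lit 398) false (nat_lit 96) (V.cons (nat_lit 400) false (nat_lit 66) (V.cons (nat_lit 402) true (nat_lit 108) (V.cons (nat_lit 404) false (nat_lit 132) (V.cons (nat_lit 406) false (nat_lit 93) (V.cons (nat_lit 408) true (nat_lit 228) (V.cons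 (nat_lit 410) true (nat_lit 300) (V.cons (nat_lit 412) false (nat_lit 138) (V.cons (nat_lit 414) true (nat_lit 10) (V.cons (nat_lit 416) true (nat_lit 93) (V.cons (nat_lit 418) false (nat_lit 18) (V.cons (nat_lit 420) false (nat_lit 12) (V.cons (nat_lit 422) true (nat_lit 6) (V.cons (nat_lit 424) false (nat_lit 1) V.nil)))))))))))))))))))))))) (Rw.rw (nat_lit 1) (nat_lit 0) (Ct.cons true (nat_lit 1) (nat_lit 0) (nat_lit 20752595879021510661) Ct.nil))) (Tb.leaf (nat_lit 18495) (nat_lit 417) (V.cons (nat_lit 374) true (nat_lit 69) (V.cons (nat_lit 376) false (nat_lit 21) (V.cons (nat_lit 378) true (nat_lit 39) (V.cons (nat_lit 380) false (nat_lit 114) (V.cons (nat_lit 382) true (nat_lit 66) (V.cons (nat_lit 384) false (nat_lit 15) (V.cons (nat_lit 386) true (nat_lit 42) (V.cons (nat_lit 388) false (nat_lit 21) (V.cons (nat_lit 390) false (nat_lit 1) (V.cons (nat_lit 392) true (nat_lit 51) (V.cons (nat_lit 394) false (nat_lit 21) (V.cons (nat_lit 398) false (nat_lit 69) (V.cons (nat_lit 400) false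 (nat_lit 57) (V.cons (nat_lit 402) true (nat_lit 135) (V.cons (nat_lit 404) false (nat_lit 132) (V.cons (nat_lit 406) false (nat_lit 111) (V.cons (nat_lit 408) true (nat_lit 210) (V.cons (nat_lit 410) true (nat_lit 291) (V.cons (nat_lit 412) false (nat_lit 165) (V.cons (nat_lit 414) true (nat_lit 9) (V.cons (nat_lit 416) true (nat_lit 102) (V.cons (nat_lit 418) false (nat_lit 9) (V.cons (nat_lit 420) false (nat_lit 15) (V.cons (nat_lit 422) true (nat_lit 9) (V.cons (nat_lit 424) false (nat_lit 1) V.nil))))))))))))))))))))))))) (Rw.rw (nat_lit 0) (nat_lit 0) (Ct.cons true (nat_lit 1) (nat_lit 0) (nat_lit 31128883922927091715) Ct.nil))))))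
def tK185 : Tb := (Tb.node (nat_lit 18487) (Tb.node (nat_lit 18474) (Tb.node (nat_lit 18472) (Tb.leaf (nat_lit 18470) (nat_lit 222) (V.cons (nat_lit 273) false (nat_lit 1) (V.cons (nat_lit 277) false (nat_lit 1) (V.cons (nat_lit 279) true (nat_lit 1) (V.cons (nat_lit 281) true (nat_lit 1) (V.cons (nat_lit 283) true (nat_lit 1) V.nil))))) (Rw.rw (nat_lit 0) (nat_lit 0) (Ct.cons true (nat_lit 1) (nat_lit 0) (nat_lit 5764627314250874883) Ct.nil))) (Tb.leaf (nat_lit 18472) (nat_lit 239) (V.cons (nat_lit 287) true (nat_lit 2) (V.cons (nat_lit 289) false (nat_lit 2) (V.cons (nat_lit 295) true (nat_lit 1) V.nil))) (Rw.rw (nat_lit 0) (nat_lit 0) (Ct.cons true (nat_lit 1) (nat_lit 0) (nat_lit 13835061353820192771) Ct.nil)))) (Tb.node (nat_lit 18485) (Tb.leaf (nat_lit 18474) (nat_lit 240) (V.cons (nat_lit 289) true (nat_lit 1) (V.cons (nat_lit 291) false (nat_lit 1) (V.cons (nat_lit 297) true (nat_lit 1) V.nil))) (Rw.rw (nat_lit 0) (nat_lit 0) (Ct.cons true (nat_lit 1) (nat_lit 0) (nat_lit 18446747372249677827)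 Ct.nil))) (Tb.leaf (nat_lit 18485) (nat_lit 350) (V.cons (nat_lit 336) true (nat_lit 16) (V.cons (nat_lit 338) false (nat_lit 1) (V.cons (nat_lit 340) false (nat_lit 391) (V.cons (nat_lit 342) false (nat_lit 17) (V.cons (nat_lit 344) true (nat_lit 920) (V.cons (nat_lit 348) true (nat_lit 76) (V.cons (nat_lit 350) true (nat_lit 403) (V.cons (nat_lit 352) true (nat_lit 302) (V.cons (nat_lit 354) true (nat_lit 7) (V.cons (nat_lit 356) false (nat_lit 107) (V.cons (nat_lit 358) false (nat_lit 5) (V.cons (nat_lit 362) false (nat_lit 61) (V.cons (nat_lit 364) true (nat_lit 230) (V.cons (nat_lit 366) true (nat_lit 260) (V.cons (nat_lit 368) false (nat_lit 265) (V.cons (nat_lit 370) false (nat_lit 152) (V.cons (nat_lit 372) true (nat_lit 26) V.nil))))))))))))))))) (Rw.rw (nat_lit 0) (nat_lit 0) (Ct.cons false (nat_lit 1) (nat_lit 0) (nat_lit 20752598078046863367) Ct.nil))))) tK184)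
def tK186 : Tb := (Tb.node (nat_lit 18501) (Tb.node (nat_lit 18499) (Tb.leaf (nat_lit 18497) (nat_lit 469) (V.cons (nat_lit 428) false (nat_lit 1) (V.cons (nat_lit 430) true (nat_lit 2) (V.cons (nat_lit 434) false (nat_lit 2) (V.cons (nat_lit 436) true (nat_lit 1) (V.cons (nat_lit 440) false (nat_lit 1) V.nil))))) (Rw.rw (nat_lit 0) (nat_lit 0) (Ct.cons false (nat_lit 1) (nat_lit 0) (nat_lit 20752602476093374471) Ct.nil))) (Tb.leaf (nat_lit 18499) (nat_lit 463) (V.cons (nat_lit 428) false (nat_lit 2) (V.cons (nat_lit 430) true (nat_lit 2) (V.cons (nat_lit 432) false (nat_lit 2) (V.cons (nat_lit 440) false (nat_lit 1) V.nil)))) (Rw.rw (nat_lit 0) (nat_lit 0) (Ct.cons true (nat_lit 1) (nat_lit 0) (nat_lit 8070470323465617411) (Ct.cons true (nat_lit 1) (nat_lit 0) (nat_lit 8070484617111535619) (Ct.cons true (nat_lit 1) (nat_lit 0) (nat_lit 9223387430020710403) (Ct.cons true (nat_lit 1) (nat_lit 0) (nat_lit 24211354895281815555) Ct.nil))))))) (Tb.node (nat_lit 18503) (Tb.leaf (nat_lit 18501) (nat_lit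 471) (V.cons (nat_lit 428) true (nat_lit 1) (V.cons (nat_lit 430) false (nat_lit 1) (V.cons (nat_lit 438) false (nat_lit 2) (V.cons (nat_lit 442) false (nat_lit 1) V.nil)))) (Rw.rw (nat_lit 0) (nat_lit 0) (Ct.cons false (nat_lit 1) (nat_lit 0) (nat_lit 20752594779519320071) Ct.nil))) (Tb.node (nat_lit 18505) (Tb.leaf (nat_lit 18503) (nat_lit 517) (V.cons (nat_lit 444) true (nat_lit 7) (V.cons (nat_lit 446) false (nat_lit 7) (V.cons (nat_lit 448) false (nat_lit 60) (V.cons (nat_lit 450) false (nat_lit 9) (V.cons (nat_lit 452) true (nat_lit 21) (V.cons (nat_lit 454) false (nat_lit 45) (V.cons (nat_lit 456) true (nat_lit 32) (V.cons (nat_lit 458) false (nat_lit 6) (V.cons (nat_lit 460) true (nat_lit 11) (V.cons (nat_lit 462) true (nat_lit 19) (V.cons (nat_lit 464) false (nat_lit 15) (V.cons (nat_lit 466) false (nat_lit 36) (V.cons (nat_lit 468) true (nat_lit 27) (V.cons (nat_lit 470) true (nat_lit 9) (V.cons (nat_lit 472) false (nat_lit 18) (V.cons (nat_lit 474) true (nat_lit 11) (V.cons (nat_lit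 476) false (nat_lit 33) (V.cons (nat_lit 478) true (nat_lit 30) (V.cons (nat_lit 480) false (nat_lit 33) V.nil))))))))))))))))))) (Rw.rw (nat_lit 0) (nat_lit 0) (Ct.cons false (nat_lit 1) (nat_lit 0) (nat_lit 8070461527383080963) Ct.nil))) (Tb.leaf (nat_lit 18505) (nat_lit 528) (V.cons (nat_lit 444) true (nat_lit 64) (V.cons (nat_lit 446) false (nat_lit 65) (V.cons (nat_lit 448) false (nat_lit 516) (V.cons (nat_lit 450) false (nat_lit 71) (V.cons (nat_lit 452) true (nat_lit 150) (V.cons (nat_lit 454) false (nat_lit 330) (V.cons (nat_lit 456) true (nat_lit 264) (V.cons (nat_lit 458) false (nat_lit 51) (V.cons (nat_lit 460) true (nat_lit 93) (V.cons (nat_lit 462) true (nat_lit 161) (V.cons (nat_lit 464) false (nat_lit 111) (V.cons (nat_lit 466) false (nat_lit 276) (V.cons (nat_lit 468) true (nat_lit 207) (V.cons (nat_lit 470) true (nat_lit 63) (V.cons (nat_lit 472) false (nat_lit 156) (V.cons (nat_lit 474) true (nat_lit 93) (V.cons (nat_lit 476) false (nat_lit 264) (V.cons (nat_lit 478) true (nat_lit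 243) (V.cons (nat_lit 480) false (nat_lit 261) V.nil))))))))))))))))))) (Rw.rw (nat_lit 1) (nat_lit 0) (Ct.cons true (nat_lit 1) (nat_lit 1) (nat_lit 8462486501929718473818115) Ct.nil))))))
def tK187 : Tb := (Tb.node (nat_lit 18513) (Tb.leaf (nat_lit 18511) (nat_lit 519) (V.cons (nat_lit 444) false (nat_lit 16) (V.cons (nat_lit 446) true (nat_lit 14) (V.cons (nat_lit 448) true (nat_lit 123) (V.cons (nat_lit 450) true (nat_lit 14) (V.cons (nat_lit 452) false (nat_lit 30) (V.cons (nat_lit 454) true (nat_lit 78) (V.cons (nat_lit 456) false (nat_lit 63) (V.cons (nat_lit 458) true (nat_lit 15) (V.cons (nat_lit 460) false (nat_lit 22) (V.cons (nat_lit 462) false (nat_lit 35) (V.cons (nat_lit 464) true (nat_lit 21) (V.cons (nat_lit 466) true (nat_lit 66) (V.cons (nat_lit 468) false (nat_lit 51) (V.cons (nat_lit 470) false (nat_lit 12) (V.cons (nat_lit 472) true (nat_lit 36) (V.cons (nat_lit 474) false (nat_lit 22) (V.cons (nat_lit 476) true (nat_lit 63) (V.cons (nat_lit 478) false (nat_lit 54) (V.cons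 (nat_lit 480) true (nat_lit 54) V.nil))))))))))))))))))) (Rw.rw (nat_lit 2) (nat_lit 0) (Ct.cons true (nat_lit 175) (nat_lit 0) (nat_lit 38046415149587234819) (Ct.cons false (nat_lit 175) (nat_lit 0) (nat_lit 16140920855712497669) (Ct.cons true (nat_lit 116) (nat_lit 0) (nat_lit 16140912059615281155) (Ct.cons true (nat_lit 264) (nat_lit 0) (nat_lit 40352255959781867523) (Ct.cons false (nat_lit 68) (nat_lit 0) (nat_lit 8070456029855350787) (Ct.cons true (nat_lit 182) (nat_lit 0) (nat_lit 8070461527383080963) (Ct.cons false (nat_lit 356) (nat_lit 0) (nat_lit 11529230439234404355) (Ct.cons true (nat_lit 84) (nat_lit 0) (nat_lit 44963946376251572227) (Ct.cons true (nat_lit 41) (nat_lit 0) (nat_lit 16140908761094029315) (Ct.cons false (nat_lit 51) (nat_lit 0) (nat_lit 5764615219662815235) (Ct.cons false (nat_lit 54) (nat_lit 0) (nat_lit 5764622916211703811) (Ct.cons false (nat_lit 22) (nat_lit 0) (nat_lit 51881473204873592835) (Ct.cons true (nat_lit 42) (nat_lit 0) (nat_lit 5764643806921097219) (Ct.cons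 true (nat_lit 32) (nat_lit 0) (nat_lit 8070491214181302275) (Ct.cons true (nat_lit 272) (nat_lit 0) (nat_lit 20752594779515125763) (Ct.cons true (nat_lit 96) (nat_lit 0) (nat_lit 18446763864926191623) (Ct.cons false (nat_lit 80) (nat_lit 0) (nat_lit 16140904363041226755) (Ct.cons true (nat_lit 88) (nat_lit 0) (nat_lit 35740569941352382467) (Ct.cons true (nat_lit 37) (nat_lit 0) (nat_lit 5764641607897841667) (Ct.cons true (nat_lit 42) (nat_lit 0) (nat_lit 54187318413108445187) (Ct.cons false (nat_lit 79) (nat_lit 0) (nat_lit 20752594779519320069) (Ct.cons true (nat_lit 250) (nat_lit 0) (nat_lit 40352260357824184323) (Ct.cons false (nat_lit 68) (nat_lit 0) (nat_lit 61104847440751624197) (Ct.cons true (nat_lit 222) (nat_lit 0) (nat_lit 5764659200088080387) (Ct.cons false (nat_lit 54) (nat_lit 0) (nat_lit 8070465925429592069) (Ct.cons false (nat_lit 54) (nat_lit 0) (nat_lit 54187316214087286787) (Ct.cons false (nat_lit 50) (nat_lit 0) (nat_lit 38046412950566076419) (Ct.cons true (nat_lit 116) (nat_lit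 0) (nat_lit 16140906562068676611) (Ct.cons true (nat_lit 3) (nat_lit 1) (nat_lit 3626780917623794514788357) (Ct.cons true (nat_lit 92) (nat_lit 0) (nat_lit 16140918656689242115) (Ct.cons true (nat_lit 106) (nat_lit 0) (nat_lit 51881475403894751235) (Ct.cons true (nat_lit 106) (nat_lit 0) (nat_lit 5764657001064824835) (Ct.cons true (nat_lit 23) (nat_lit 1) (nat_lit 8462484196082311211515907) (Ct.cons false (nat_lit 17) (nat_lit 1) (nat_lit 3626780917617197442924547) (Ct.cons true (nat_lit 34) (nat_lit 0) (nat_lit 8070508806371540997) (Ct.cons false (nat_lit 85) (nat_lit 0) (nat_lit 9223389629043965955) (Ct.cons true (nat_lit 34) (nat_lit 0) (nat_lit 18446752869805719555) (Ct.cons true (nat_lit 4) (nat_lit 1) (nat_lit 8462484196086709260124165) (Ct.cons true (nat_lit 102) (nat_lit 0) (nat_lit 28823040913709203459) (Ct.cons false (nat_lit 9) (nat_lit 1) (nat_lit 3626780917619396468277251) (Ct.cons false (nat_lit 27) (nat_lit 0) (nat_lit 8070489015158046723) Ct.nil)))))))))))))))))))))))))))))))))))))))))))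 (Tb.node (nat_lit 18515) (Tb.leaf (nat_lit 18513) (nat_lit 506) (V.cons (nat_lit 444) false (nat_lit 73) (V.cons (nat_lit 446) true (nat_lit 72) (V.cons (nat_lit 448) true (nat_lit 579) (V.cons (nat_lit 450) true (nat_lit 76) (V.cons (nat_lit 452) false (nat_lit 159) (V.cons (nat_lit 454) true (nat_lit 363) (V.cons (nat_lit 456) false (nat_lit 295) (V.cons (nat_lit 458) true (nat_lit 60) (V.cons (nat_lit 460) false (nat_lit 104) (V.cons (nat_lit 462) false (nat_lit 176) (V.cons (nat_lit 464) true (nat_lit 114) (V.cons (nat_lit 466) true (nat_lit 306) (V.cons (nat_lit 468) false (nat_lit 231) (V.cons (nat_lit 470) false (nat_lit 66) (V.cons (nat_lit 472) true (nat_lit 174) (V.cons (nat_lit 474) false (nat_lit 103) (V.cons (nat_lit 476) true (nat_lit 291) (V.cons (nat_lit 478) false (nat_lit 267) (V.cons (nat_lit 480) true (nat_lit 282) V.nil))))))))))))))))))) (Rw.rw (nat_lit 2) (nat_lit 0) (Ct.cons false (nat_lit 382) (nat_lit 0) (nat_lit 16140904363041226755) (Ct.cons true (nat_lit 883) (nat_lit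 0) (nat_lit 38046415149587234819) (Ct.cons false (nat_lit 883) (nat_lit 0) (nat_lit 16140920855712497669) (Ct.cons true (nat_lit 518) (nat_lit 0) (nat_lit 16140912059615281155) (Ct.cons true (nat_lit 1258) (nat_lit 0) (nat_lit 40352255959781867523) (Ct.cons false (nat_lit 312) (nat_lit 0) (nat_lit 8070456029855350787) (Ct.cons true (nat_lit 1166) (nat_lit 0) (nat_lit 40352260357824184323) (Ct.cons true (nat_lit 424) (nat_lit 0) (nat_lit 35740569941352382467) (Ct.cons true (nat_lit 184) (nat_lit 0) (nat_lit 5764641607897841667) (Ct.cons true (nat_lit 412) (nat_lit 0) (nat_lit 44963946376251572227) (Ct.cons true (nat_lit 184) (nat_lit 0) (nat_lit 16140908761094029315) (Ct.cons false (nat_lit 186) (nat_lit 0) (nat_lit 5764615219662815235) (Ct.cons false (nat_lit 312) (nat_lit 0) (nat_lit 5764622916211703811) (Ct.cons true (nat_lit 460) (nat_lit 0) (nat_lit 51881475403894751235) (Ct.cons true (nat_lit 460) (nat_lit 0) (nat_lit 5764657001064824835) (Ct.cons false (nat_lit 130) (nat_lit 0) (nat_lit 51881473204873592835)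 (Ct.cons true (nat_lit 470) (nat_lit 0) (nat_lit 16140918656689242115) (Ct.cons true (nat_lit 219) (nat_lit 0) (nat_lit 5764643806921097219) (Ct.cons true (nat_lit 182) (nat_lit 0) (nat_lit 8070491214181302275) (Ct.cons true (nat_lit 1076) (nat_lit 0) (nat_lit 5764659200088080387) (Ct.cons true (nat_lit 1300) (nat_lit 0) (nat_lit 20752594779515125763) (Ct.cons true (nat_lit 470) (nat_lit 0) (nat_lit 18446763864926191623) (Ct.cons false (nat_lit 104) (nat_lit 0) (nat_lit 8070489015158046723) (Ct.cons true (nat_lit 194) (nat_lit 0) (nat_lit 54187318413108445187) (Ct.cons false (nat_lit 396) (nat_lit 0) (nat_lit 20752594779519320069) (Ct.cons false (nat_lit 1694) (nat_lit 0) (nat_lit 11529230439234404355) (Ct.cons true (nat_lit 854) (nat_lit 0) (nat_lit 8070461527383080963) (Ct.cons false (nat_lit 312) (nat_lit 0) (nat_lit 61104847440751624197) (Ct.cons true (nat_lit 472) (nat_lit 0) (nat_lit 28823040913709203459) (Ct.cons false (nat_lit 272) (nat_lit 0) (nat_lit 8070465925429592069) (Ct.cons false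 (nat_lit 272) (nat_lit 0) (nat_lit 54187316214087286787) (Ct.cons false (nat_lit 251) (nat_lit 0) (nat_lit 38046412950566076419) (Ct.cons true (nat_lit 572) (nat_lit 0) (nat_lit 16140906562068676611) (Ct.cons true (nat_lit 13) (nat_lit 1) (nat_lit 3626780917623794514788357) (Ct.cons true (nat_lit 114) (nat_lit 1) (nat_lit 8462484196082311211515907) (Ct.cons false (nat_lit 80) (nat_lit 1) (nat_lit 3626780917617197442924547) (Ct.cons true (nat_lit 160) (nat_lit 0) (nat_lit 8070508806371540997) (Ct.cons false (nat_lit 400) (nat_lit 0) (nat_lit 9223389629043965955) (Ct.cons true (nat_lit 160) (nat_lit 0) (nat_lit 18446752869805719555) (Ct.cons true (nat_lit 21) (nat_lit 1) (nat_lit 8462484196086709260124165) (Ct.cons false (nat_lit 44) (nat_lit 1) (nat_lit 3626780917619396468277251) Ct.nil))))))))))))))))))))))))))))))))))))))))))) (Tb.leaf (nat_lit 18515) (nat_lit 586) (V.cons (nat_lit 482) true (nat_lit 12) (V.cons (nat_lit 484) false (nat_lit 3) (V.cons (nat_lit 486) true (nat_lit 3) (V.cons (nat_lit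 488) true (nat_lit 7) (V.cons (nat_lit 490) false (nat_lit 14) (V.cons (nat_lit 492) false (nat_lit 15) (V.cons (nat_lit 494) true (nat_lit 14) (V.cons (nat_lit 496) false (nat_lit 68) (V.cons (nat_lit 498) true (nat_lit 50) (V.cons (nat_lit 500) true (nat_lit 12) (V.cons (nat_lit 502) true (nat_lit 11) (V.cons (nat_lit 504) false (nat_lit 3) (V.cons (nat_lit 506) false (nat_lit 74) (V.cons (nat_lit 508) false (nat_lit 44) (V.cons (nat_lit 510) false (nat_lit 55) (V.cons (nat_lit 512) false (nat_lit 10) (V.cons (nat_lit 514) true (nat_lit 19) (V.cons (nat_lit 516) true (nat_lit 68) (V.cons (nat_lit 518) false (nat_lit 1) V.nil))))))))))))))))))) (Rw.rw (nat_lit 0) (nat_lit 0) (Ct.cons true (nat_lit 1) (nat_lit 0) (nat_lit 11529220543645483011) Ct.nil)))))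
def tK188 : Tb := (Tb.node (nat_lit 18511) (Tb.node (nat_lit 18509) (Tb.leaf (nat_lit 18507) (nat_lit 527) (V.cons (nat_lit 444) true (nat_lit 52) (V.cons (nat_lit 446) false (nat_lit 53) (V.cons (nat_lit 448) false (nat_lit 423) (V.cons (nat_lit 450) false (nat_lit 59) (V.cons (nat_lit 452) true (nat_lit 126) (V.cons (nat_lit 454) false (nat_lit 276) (V.cons (nat_lit 456) true (nat_lit 216) (V.cons (nat_lit 458) false (nat_lit 39) (V.cons (nat_lit 460) true (nat_lit 77) (V.cons (nat_lit 462) true (nat_lit 132) (V.cons (nat_lit 464) false (nat_lit 87) (V.cons (nat_lit 466) false (nat_lit 225) (V.cons (nat_lit 468) true (nat_lit 165) (V.cons (nat_lit 470) true (nat_lit 51) (V.cons (nat_lit 472) false (nat_lit 129) (V.cons (nat_lit 474) true (nat_lit 75) (V.cons (nat_lit 476) false (nat_lit 216) (V.cons (nat_lit 478) true (nat_lit 201) (V.cons (nat_lit 480) false (nat_lit 213) V.nil))))))))))))))))))) (Rw.rw (nat_lit 0) (nat_lit 0) (Ct.cons false (nat_lit 1) (nat_lit 0) (nat_lit 18446747372252823555)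 Ct.nil))) (Tb.leaf (nat_lit 18509) (nat_lit 516) (V.cons (nat_lit 444) true (nat_lit 6) (V.cons (nat_lit 446) false (nat_lit 6) (V.cons (nat_lit 448) false (nat_lit 48) (V.cons (nat_lit 450) false (nat_lit 6) (V.cons (nat_lit 452) true (nat_lit 12) (V.cons (nat_lit 454) false (nat_lit 27) (V.cons (nat_lit 456) true (nat_lit 25) (V.cons (nat_lit 458) false (nat_lit 6) (V.cons (nat_lit 460) true (nat_lit 8) (V.cons (nat_lit 462) true (nat_lit 14) (V.cons (nat_lit 464) false (nat_lit 15) (V.cons (nat_lit 466) false (nat_lit 27) (V.cons (nat_lit 468) true (nat_lit 21) (V.cons (nat_lit 470) true (nat_lit 6) (V.cons (nat_lit 472) false (nat_lit 15) (V.cons (nat_lit 474) true (nat_lit 8) (V.cons (nat_lit 476) false (nat_lit 24) (V.cons (nat_lit 478) true (nat_lit 21) (V.cons (nat_lit 480) false (nat_lit 24) V.nil))))))))))))))))))) (Rw.rw (nat_lit 0) (nat_lit 0) (Ct.cons false (nat_lit 1) (nat_lit 0) (nat_lit 20752594779515125763) Ct.nil)))) tK187)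
def tK189 : Tb := (Tb.node (nat_lit 18507) tK186 tK188)
def tK190 : Tb := (Tb.node (nat_lit 18497) tK185 tK189)
def tK191 : Tb := (Tb.node (nat_lit 18470) tK183 tK190)
def tK192 : Tb := (Tb.node (nat_lit 16465) tK177 tK191)
def tK193 : Tb := (Tb.node (nat_lit 21546) (Tb.node (nat_lit 21544) (Tb.leaf (nat_lit 18525) (nat_lit 577) (V.cons (nat_lit 482) false (nat_lit 18) (V.cons (nat_lit 484) true (nat_lit 8) (V.cons (nat_lit 488) false (nat_lit 6) (V.cons (nat_lit 490) true (nat_lit 18) (V.cons (nat_lit 492) true (nat_lit 24) (V.cons (nat_lit 494) false (nat_lit 12) (V.cons (nat_lit 496) true (nat_lit 60) (V.cons (nat_lit 498) false (nat_lit 60) (V.cons (nat_lit 500) false (nat_lit 16) (V.cons (nat_lit 502) false (nat_lit 12) (V.cons (nat_lit 504) true (nat_lit 4) (V.cons (nat_lit 506) true (nat_lit 84) (V.cons (nat_lit 508) true (nat_lit 60) (V.cons (nat_lit 510) true (nat_lit 78) (V.cons (nat_lit 512) true (nat_lit 6) (V.cons (nat_lit 514) false (nat_lit 6) (V.cons (nat_lit 516) false (nat_lit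 66) V.nil))))))))))))))))) (Rw.rw (nat_lit 2) (nat_lit 0) (Ct.cons false (nat_lit 7) (nat_lit 0) (nat_lit 11529232638257659907) (Ct.cons false (nat_lit 30) (nat_lit 0) (nat_lit 18446755068828975107) (Ct.cons true (nat_lit 2) (nat_lit 0) (nat_lit 5764618518169387011) (Ct.cons true (nat_lit 2) (nat_lit 0) (nat_lit 40352258158800928771) (Ct.cons false (nat_lit 23) (nat_lit 0) (nat_lit 5764622916213800963) (Ct.cons true (nat_lit 19) (nat_lit 0) (nat_lit 8070497811251068931) (Ct.cons true (nat_lit 13) (nat_lit 0) (nat_lit 18446749571282370563) (Ct.cons false (nat_lit 9) (nat_lit 0) (nat_lit 5764650403990863875) (Ct.cons true (nat_lit 15) (nat_lit 0) (nat_lit 8070468124450750467) (Ct.cons true (nat_lit 30) (nat_lit 0) (nat_lit 8070456029857447939) (Ct.cons false (nat_lit 24) (nat_lit 0) (nat_lit 56493159223300980739) (Ct.cons false (nat_lit 32) (nat_lit 0) (nat_lit 8070504408322932739) (Ct.cons true (nat_lit 34) (nat_lit 0) (nat_lit 18446751770307723267) (Ct.cons false (nat_lit 2) (nat_lit 0) (nat_lit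 58799004431535833091) (Ct.cons true (nat_lit 6) (nat_lit 0) (nat_lit 56493161422322139139) (Ct.cons false (nat_lit 3) (nat_lit 0) (nat_lit 16140920855710400517) (Ct.cons true (nat_lit 8) (nat_lit 0) (nat_lit 42658098968993464323) (Ct.cons false (nat_lit 16) (nat_lit 0) (nat_lit 16140918656687144963) (Ct.cons true (nat_lit 3) (nat_lit 0) (nat_lit 20752592580496064517) (Ct.cons false (nat_lit 7) (nat_lit 0) (nat_lit 5764646005944352771) (Ct.cons false (nat_lit 2) (nat_lit 0) (nat_lit 8070470323474006021) (Ct.cons false (nat_lit 1) (nat_lit 1) (nat_lit 6044632556855251887456259) (Ct.cons true (nat_lit 5) (nat_lit 0) (nat_lit 13835073448448098307) (Ct.cons true (nat_lit 5) (nat_lit 0) (nat_lit 8070495612227813379) (Ct.cons false (nat_lit 1) (nat_lit 1) (nat_lit 3626780917619396466180099) (Ct.cons true (nat_lit 1) (nat_lit 1) (nat_lit 3626780917625993538043909) (Ct.cons true (nat_lit 4) (nat_lit 0) (nat_lit 42658101168014622723) (Ct.cons false (nat_lit 2) (nat_lit 0) (nat_lit 8070463726406336515) (Ct.cons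 false (nat_lit 2) (nat_lit 0) (nat_lit 5764613020641656835) (Ct.cons false (nat_lit 4) (nat_lit 0) (nat_lit 49575627996636643331) (Ct.cons false (nat_lit 1) (nat_lit 1) (nat_lit 6044634862700460124405763) (Ct.cons true (nat_lit 2) (nat_lit 0) (nat_lit 8070508806369443845) (Ct.cons true (nat_lit 2) (nat_lit 0) (nat_lit 31128883922922897411) (Ct.cons false (nat_lit 1) (nat_lit 0) (nat_lit 20752602476091277317) Ct.nil)))))))))))))))))))))))))))))))))))) (Tb.leaf (nat_lit 21544) (nat_lit 303) (V.cons (nat_lit 298) false (nat_lit 38) (V.cons (nat_lit 300) false (nat_lit 16) (V.cons (nat_lit 302) true (nat_lit 264) (V.cons (nat_lit 304) false (nat_lit 28) (V.cons (nat_lit 306) false (nat_lit 75) (V.cons (nat_lit 308) true (nat_lit 44) (V.cons (nat_lit 310) true (nat_lit 119) (V.cons (nat_lit 312) false (nat_lit 324) (V.cons (nat_lit 314) true (nat_lit 72) (V.cons (nat_lit 316) true (nat_lit 120) (V.cons (nat_lit 318) true (nat_lit 32) (V.cons (nat_lit 320) true (nat_lit 225) (V.cons (nat_lit 322) true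 (nat_lit 21) (V.cons (nat_lit 324) false (nat_lit 396) (V.cons (nat_lit 326) false (nat_lit 45) (V.cons (nat_lit 328) false (nat_lit 21) (V.cons (nat_lit 330) true (nat_lit 252) (V.cons (nat_lit 332) true (nat_lit 477) (V.cons (nat_lit 334) false (nat_lit 1) V.nil))))))))))))))))))) (Rw.rw (nat_lit 0) (nat_lit 0) (Ct.cons true (nat_lit 1) (nat_lit 0) (nat_lit 8070463726395850755) Ct.nil)))) (Tb.node (nat_lit 21552) (Tb.leaf (nat_lit 21546) (nat_lit 277) (V.cons (nat_lit 298) false (nat_lit 17) (V.cons (nat_lit 300) false (nat_lit 4) (V.cons (nat_lit 302) true (nat_lit 108) (V.cons (nat_lit 304) false (nat_lit 13) (V.cons (nat_lit 306) false (nat_lit 33) (V.cons (nat_lit 308) true (nat_lit 19) (V.cons (nat_lit 310) true (nat_lit 45) (V.cons (nat_lit 312) false (nat_lit 123) (V.cons (nat_lit 314) true (nat_lit 33) (V.cons (nat_lit 316) true (nat_lit 54) (V.cons (nat_lit 318) true (nat_lit 8) (V.cons (nat_lit 320) true (nat_lit 96) (V.cons (nat_lit 322) true (nat_lit 9) (V.cons (nat_lit 324) false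 (nat_lit 171) (V.cons (nat_lit 326) false (nat_lit 9) (V.cons (nat_lit 328) false (nat_lit 9) (V.cons (nat_lit 330) true (nat_lit 105) (V.cons (nat_lit 332) true (nat_lit 204) (V.cons (nat_lit 334) false (nat_lit 1) V.nil))))))))))))))))))) (Rw.rw (nat_lit 0) (nat_lit 0) (Ct.cons false (nat_lit 1) (nat_lit 0) (nat_lit 24211357094307168259) Ct.nil))) (Tb.node (nat_lit 21554) (Tb.leaf (nat_lit 21552) (nat_lit 366) (V.cons (nat_lit 336) true (nat_lit 31) (V.cons (nat_lit 338) true (nat_lit 5) (V.cons (nat_lit 340) false (nat_lit 824) (V.cons (nat_lit 342) false (nat_lit 40) (V.cons (nat_lit 344) true (nat_lit 1960) (V.cons (nat_lit 348) true (nat_lit 92) (V.cons (nat_lit 350) true (nat_lit 839) (V.cons (nat_lit 352) true (nat_lit 604) (V.cons (nat_lit 354) true (nat_lit 11) (V.cons (nat_lit 356) false (nat_lit 199) (V.cons (nat_lit 358) false (nat_lit 7) (V.cons (nat_lit 360) false (nat_lit 1) (V.cons (nat_lit 362) false (nat_lit 110) (V.cons (nat_lit 364) true (nat_lit 454) (V.cons (nat_lit 366)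 true (nat_lit 496) (V.cons (nat_lit 368) false (nat_lit 482) (V.cons (nat_lit 370) false (nat_lit 331) (V.cons (nat_lit 372) true (nat_lit 58) V.nil)))))))))))))))))) (Rw.rw (nat_lit 0) (nat_lit 0) (Ct.cons false (nat_lit 1) (nat_lit 0) (nat_lit 24211354895283912707) Ct.nil))) (Tb.leaf (nat_lit 21554) (nat_lit 365) (V.cons (nat_lit 336) true (nat_lit 33) (V.cons (nat_lit 338) true (nat_lit 6) (V.cons (nat_lit 340) false (nat_lit 845) (V.cons (nat_lit 342) false (nat_lit 43) (V.cons (nat_lit 344) true (nat_lit 2014) (V.cons (nat_lit 348) true (nat_lit 98) (V.cons (nat_lit 350) true (nat_lit 860) (V.cons (nat_lit 352) true (nat_lit 616) (V.cons (nat_lit 354) true (nat_lit 11) (V.cons (nat_lit 356) false (nat_lit 208) (V.cons (nat_lit 358) false (nat_lit 7) (V.cons (nat_lit 360) false (nat_lit 1) (V.cons (nat_lit 362) false (nat_lit 113) (V.cons (nat_lit 364) true (nat_lit 466) (V.cons (nat_lit 366) true (nat_lit 514) (V.cons (nat_lit 368) false (nat_lit 500) (V.cons (nat_lit 370) false (nat_lit 337)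 (V.cons (nat_lit 372) true (nat_lit 58) V.nil)))))))))))))))))) (Rw.rw (nat_lit 0) (nat_lit 0) (Ct.cons true (nat_lit 1) (nat_lit 0) (nat_lit 8070470323465617413) Ct.nil))))))
def tK194 : Tb := (Tb.node (nat_lit 18525) (Tb.node (nat_lit 18521) (Tb.node (nat_lit 18519) (Tb.leaf (nat_lit 18517) (nat_lit 559) (V.cons (nat_lit 486) true (nat_lit 1) (V.cons (nat_lit 492) false (nat_lit 2) (V.cons (nat_lit 494) false (nat_lit 2) (V.cons (nat_lit 496) false (nat_lit 12) (V.cons (nat_lit 498) true (nat_lit 6) (V.cons (nat_lit 500) true (nat_lit 2) (V.cons (nat_lit 506) false (nat_lit 6) (V.cons (nat_lit 508) false (nat_lit 6) (V.cons (nat_lit 512) false (nat_lit 3) (V.cons (nat_lit 514) true (nat_lit 6) (V.cons (nat_lit 516) true (nat_lit 6) (V.cons (nat_lit 518) false (nat_lit 1) V.nil)))))))))))) (Rw.rw (nat_lit 0) (nat_lit 0) (Ct.cons true (nat_lit 1) (nat_lit 0) (nat_lit 40352255959779770371) Ct.nil))) (Tb.leaf (nat_lit 18519) (nat_lit 591) (V.cons (nat_lit 482) false (nat_lit 51) (V.cons (nat_lit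 484) true (nat_lit 20) (V.cons (nat_lit 486) false (nat_lit 2) (V.cons (nat_lit 488) false (nat_lit 11) (V.cons (nat_lit 490) true (nat_lit 51) (V.cons (nat_lit 492) true (nat_lit 64) (V.cons (nat_lit 494) false (nat_lit 39) (V.cons (nat_lit 496) true (nat_lit 175) (V.cons (nat_lit 498) false (nat_lit 163) (V.cons (nat_lit 500) false (nat_lit 49) (V.cons (nat_lit 502) false (nat_lit 29) (V.cons (nat_lit 504) true (nat_lit 9) (V.cons (nat_lit 506) true (nat_lit 223) (V.cons (nat_lit 508) true (nat_lit 157) (V.cons (nat_lit 510) true (nat_lit 203) (V.cons (nat_lit 512) true (nat_lit 14) (V.cons (nat_lit 514) false (nat_lit 11) (V.cons (nat_lit 516) false (nat_lit 157) (V.cons (nat_lit 518) false (nat_lit 1) V.nil))))))))))))))))))) (Rw.rw (nat_lit 1) (nat_lit 0) (Ct.cons false (nat_lit 1) (nat_lit 1) (nat_lit 8462486501929718471720963) Ct.nil)))) (Tb.node (nat_lit 18523) (Tb.leaf (nat_lit 18521) (nat_lit 574) (V.cons (nat_lit 482) false (nat_lit 34) (V.cons (nat_lit 484) true (nat_lit 14) (V.cons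 (nat_lit 488) false (nat_lit 4) (V.cons (nat_lit 490) true (nat_lit 34) (V.cons (nat_lit 492) true (nat_lit 42) (V.cons (nat_lit 494) false (nat_lit 20) (V.cons (nat_lit 496) true (nat_lit 92) (V.cons (nat_lit 498) false (nat_lit 92) (V.cons (nat_lit 500) false (nat_lit 30) (V.cons (nat_lit 502) false (nat_lit 18) (V.cons (nat_lit 504) true (nat_lit 6) (V.cons (nat_lit 506) true (nat_lit 128) (V.cons (nat_lit 508) true (nat_lit 92) (V.cons (nat_lit 510) true (nat_lit 130) (V.cons (nat_lit 512) true (nat_lit 1) (V.cons (nat_lit 514) true (nat_lit 8) (V.cons (nat_lit 516) false (nat_lit 92) (V.cons (nat_lit 518) false (nat_lit 1) V.nil)))))))))))))))))) (Rw.rw (nat_lit 0) (nat_lit 1) (Ct.cons true (nat_lit 6) (nat_lit 0) (nat_lit 11529232638257659907) (Ct.cons false (nat_lit 39) (nat_lit 0) (nat_lit 56493159223300980739) (Ct.cons true (nat_lit 47) (nat_lit 0) (nat_lit 8070456029857447939) (Ct.cons false (nat_lit 44) (nat_lit 0) (nat_lit 8070504408322932739) (Ct.cons false (nat_lit 3) (nat_lit 0)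 (nat_lit 5764618518169387011) (Ct.cons false (nat_lit 3) (nat_lit 0) (nat_lit 40352258158800928771) (Ct.cons false (nat_lit 31) (nat_lit 0) (nat_lit 5764622916213800963) (Ct.cons true (nat_lit 31) (nat_lit 0) (nat_lit 8070497811251068931) (Ct.cons true (nat_lit 22) (nat_lit 0) (nat_lit 18446749571282370563) (Ct.cons false (nat_lit 8) (nat_lit 0) (nat_lit 5764650403990863875) (Ct.cons true (nat_lit 20) (nat_lit 0) (nat_lit 8070468124450750467) (Ct.cons false (nat_lit 47) (nat_lit 0) (nat_lit 18446755068828975107) (Ct.cons true (nat_lit 48) (nat_lit 0) (nat_lit 18446751770307723267) (Ct.cons false (nat_lit 3) (nat_lit 0) (nat_lit 5764646005944352771) (Ct.cons false (nat_lit 3) (nat_lit 0) (nat_lit 20752592580491870211) (Ct.cons false (nat_lit 9) (nat_lit 0) (nat_lit 40352255959779770371) (Ct.cons true (nat_lit 12) (nat_lit 0) (nat_lit 42658098968993464323) (Ct.cons false (nat_lit 17) (nat_lit 0) (nat_lit 16140918656687144963) (Ct.cons true (nat_lit 3) (nat_lit 0) (nat_lit 20752592580496064517) (Ct.cons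 false (nat_lit 3) (nat_lit 0) (nat_lit 8070463726406336515) (Ct.cons false (nat_lit 3) (nat_lit 0) (nat_lit 5764613020641656835) (Ct.cons false (nat_lit 3) (nat_lit 0) (nat_lit 58799004431535833091) (Ct.cons false (nat_lit 3) (nat_lit 0) (nat_lit 8070470323474006021) (Ct.cons true (nat_lit 3) (nat_lit 0) (nat_lit 8070470323469811715) (Ct.cons true (nat_lit 3) (nat_lit 0) (nat_lit 61104847440749527045) (Ct.cons false (nat_lit 3) (nat_lit 0) (nat_lit 49575632394678960131) (Ct.cons false (nat_lit 3) (nat_lit 0) (nat_lit 5764659200085983235) (Ct.cons false (nat_lit 3) (nat_lit 1) (nat_lit 6044632556855251887456259) (Ct.cons true (nat_lit 6) (nat_lit 0) (nat_lit 13835073448448098307) (Ct.cons true (nat_lit 6) (nat_lit 0) (nat_lit 8070495612227813379) (Ct.cons true (nat_lit 1) (nat_lit 1) (nat_lit 3626780917625993538043909) (Ct.cons true (nat_lit 12) (nat_lit 0) (nat_lit 56493161422322139139) (Ct.cons false (nat_lit 6) (nat_lit 0) (nat_lit 16140920855710400517) (Ct.cons true (nat_lit 6) (nat_lit 0) (nat_lit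 42658101168014622723) Ct.nil)))))))))))))))))))))))))))))))))))) (Tb.leaf (nat_lit 18523) (nat_lit 576) (V.cons (nat_lit 482) true (nat_lit 29) (V.cons (nat_lit 484) false (nat_lit 11) (V.cons (nat_lit 486) true (nat_lit 2) (V.cons (nat_lit 488) true (nat_lit 14) (V.cons (nat_lit 490) false (nat_lit 31) (V.cons (nat_lit 492) false (nat_lit 37) (V.cons (nat_lit 494) true (nat_lit 27) (V.cons (nat_lit 496) false (nat_lit 115) (V.cons (nat_lit 498) true (nat_lit 103) (V.cons (nat_lit 500) true (nat_lit 25) (V.cons (nat_lit 502) true (nat_lit 22) (V.cons (nat_lit 504) false (nat_lit 6) (V.cons (nat_lit 506) false (nat_lit 151) (V.cons (nat_lit 508) false (nat_lit 97) (V.cons (nat_lit 510) false (nat_lit 128) (V.cons (nat_lit 512) false (nat_lit 14) (V.cons (nat_lit 514) true (nat_lit 20) (V.cons (nat_lit 516) true (nat_lit 115) (V.cons (nat_lit 518) false (nat_lit 1) V.nil))))))))))))))))))) (Rw.rw (nat_lit 0) (nat_lit 0) (Ct.cons true (nat_lit 1) (nat_lit 0) (nat_lit 18446763864926191621) Ct.nil)))))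 tK193)
def tK195 : Tb := (Tb.node (nat_lit 23588) (Tb.node (nat_lit 23586) (Tb.leaf (nat_lit 21556) (nat_lit 472) (V.cons (nat_lit 428) true (nat_lit 8) (V.cons (nat_lit 430) false (nat_lit 6) (V.cons (nat_lit 432) true (nat_lit 3) (V.cons (nat_lit 434) false (nat_lit 6) (V.cons (nat_lit 436) true (nat_lit 4) (V.cons (nat_lit 440) true (nat_lit 1) (V.cons (nat_lit 442) false (nat_lit 2) V.nil))))))) (Rw.rw (nat_lit 1) (nat_lit 0) (Ct.cons true (nat_lit 1) (nat_lit 1) (nat_lit 8462488807772727687512067) (Ct.cons true (nat_lit 1) (nat_lit 0) (nat_lit 8070484617111535619) (Ct.cons false (nat_lit 3) (nat_lit 0) (nat_lit 16140904363039129603) (Ct.cons false (nat_lit 2) (nat_lit 0) (nat_lit 8070470323465617411) (Ct.cons true (nat_lit 1) (nat_lit 0) (nat_lit 8070458228876509187) (Ct.cons false (nat_lit 1) (nat_lit 0) (nat_lit 16140916457665986563) (Ct.cons true (nat_lit 7) (nat_lit 0) (nat_lit 8070465925425397763) (Ct.cons false (nat_lit 3) (nat_lit 0) (nat_lit 8070486816134791171) (Ct.cons false (nat_lit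 3) (nat_lit 0) (nat_lit 8070500010278518787) (Ct.cons false (nat_lit 2) (nat_lit 0) (nat_lit 35740574339396796419) (Ct.cons false (nat_lit 2) (nat_lit 0) (nat_lit 8070459328359825411) (Ct.cons false (nat_lit 4) (nat_lit 0) (nat_lit 24211354895281815555) (Ct.cons true (nat_lit 2) (nat_lit 0) (nat_lit 38046412950568173571) Ct.nil))))))))))))))) (Tb.leaf (nat_lit 23586) (nat_lit 264) (V.cons (nat_lit 300) false (nat_lit 1) (V.cons (nat_lit 302) true (nat_lit 6) (V.cons (nat_lit 310) true (nat_lit 1) (V.cons (nat_lit 312) false (nat_lit 3) (V.cons (nat_lit 314) false (nat_lit 3) (V.cons (nat_lit 318) true (nat_lit 1) (V.cons (nat_lit 320) true (nat_lit 3) (V.cons (nat_lit 324) false (nat_lit 3) (V.cons (nat_lit 326) true (nat_lit 3) (V.cons (nat_lit 332) true (nat_lit 3) (V.cons (nat_lit 334) false (nat_lit 1) V.nil))))))))))) (Rw.rw (nat_lit 0) (nat_lit 0) (Ct.cons false (nat_lit 1) (nat_lit 0) (nat_lit 8070478020043866115) (Ct.cons false (nat_lit 1) (nat_lit 0) (nat_lit 28823043112736653315) (Ct.cons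 false (nat_lit 1) (nat_lit 0) (nat_lit 11529222742660349955) (Ct.cons false (nat_lit 1) (nat_lit 0) (nat_lit 8070458228866023429) Ct.nil))))))) (Tb.node (nat_lit 23590) (Tb.leaf (nat_lit 23588) (nat_lit 304) (V.cons (nat_lit 298) true (nat_lit 52) (V.cons (nat_lit 300) true (nat_lit 18) (V.cons (nat_lit 302) false (nat_lit 372) (V.cons (nat_lit 304) true (nat_lit 39) (V.cons (nat_lit 306) true (nat_lit 114) (V.cons (nat_lit 308) false (nat_lit 64) (V.cons (nat_lit 310) false (nat_lit 164) (V.cons (nat_lit 312) true (nat_lit 471) (V.cons (nat_lit 314) false (nat_lit 123) (V.cons (nat_lit 316) false (nat_lit 165) (V.cons (nat_lit 318) false (nat_lit 42) (V.cons (nat_lit 320) false (nat_lit 300) (V.cons (nat_lit 322) false (nat_lit 29) (V.cons (nat_lit 324) true (nat_lit 531) (V.cons (nat_lit 326) true (nat_lit 72) (V.cons (nat_lit 328) true (nat_lit 29) (V.cons (nat_lit 330) false (nat_lit 339) (V.cons (nat_lit 332) false (nat_lit 642) (V.cons (nat_lit 334) false (nat_lit 1) V.nil)))))))))))))))))))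 (Rw.rw (nat_lit 0) (nat_lit 0) (Ct.cons false (nat_lit 1) (nat_lit 0) (nat_lit 9223387430022807557) Ct.nil))) (Tb.node (nat_lit 23596) (Tb.leaf (nat_lit 23590) (nat_lit 288) (V.cons (nat_lit 298) true (nat_lit 28) (V.cons (nat_lit 300) true (nat_lit 7) (V.cons (nat_lit 302) false (nat_lit 186) (V.cons (nat_lit 304) true (nat_lit 21) (V.cons (nat_lit 306) true (nat_lit 57) (V.cons (nat_lit 308) false (nat_lit 32) (V.cons (nat_lit 310) false (nat_lit 80) (V.cons (nat_lit 312) true (nat_lit 228) (V.cons (nat_lit 314) false (nat_lit 66) (V.cons (nat_lit 316) false (nat_lit 87) (V.cons (nat_lit 318) false (nat_lit 17) (V.cons (nat_lit 320) false (nat_lit 150) (V.cons (nat_lit 322) false (nat_lit 14) (V.cons (nat_lit 324) true (nat_lit 270) (V.cons (nat_lit 326) true (nat_lit 30) (V.cons (nat_lit 328) true (nat_lit 14) (V.cons (nat_lit 330) false (nat_lit 171) (V.cons (nat_lit 332) false (nat_lit 330) (V.cons (nat_lit 334) false (nat_lit 1) V.nil))))))))))))))))))) (Rw.rw (nat_lit 0) (nat_lit 0) (Ct.cons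 true (nat_lit 1) (nat_lit 0) (nat_lit 5764632811809013763) Ct.nil))) (Tb.leaf (nat_lit 23596) (nat_lit 334) (V.cons (nat_lit 336) false (nat_lit 3) (V.cons (nat_lit 338) false (nat_lit 6) (V.cons (nat_lit 340) true (nat_lit 108) (V.cons (nat_lit 342) true (nat_lit 9) (V.cons (nat_lit 344) false (nat_lit 261) (V.cons (nat_lit 348) true (nat_lit 15) (V.cons (nat_lit 350) false (nat_lit 105) (V.cons (nat_lit 352) false (nat_lit 63) (V.cons (nat_lit 356) true (nat_lit 12) (V.cons (nat_lit 360) true (nat_lit 1) (V.cons (nat_lit 362) true (nat_lit 6) (V.cons (nat_lit 364) false (nat_lit 51) (V.cons (nat_lit 366) false (nat_lit 36) (V.cons (nat_lit 368) true (nat_lit 27) (V.cons (nat_lit 370) true (nat_lit 45) (V.cons (nat_lit 372) false (nat_lit 9) V.nil)))))))))))))))) (Rw.rw (nat_lit 4) (nat_lit 0) (Ct.cons false (nat_lit 45) (nat_lit 0) (nat_lit 8070458228876509189) (Ct.cons false (nat_lit 1) (nat_lit 0) (nat_lit 11529230439238598659) (Ct.cons false (nat_lit 41) (nat_lit 0) (nat_lit 8070465925421203459)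 (Ct.cons false (nat_lit 110) (nat_lit 0) (nat_lit 11529223842164637699) (Ct.cons true (nat_lit 97) (nat_lit 0) (nat_lit 8070458228866023427) (Ct.cons false (nat_lit 79) (nat_lit 0) (nat_lit 8070489015162241027) (Ct.cons true (nat_lit 187) (nat_lit 0) (nat_lit 40352260357828378627) (Ct.cons true (nat_lit 319) (nat_lit 0) (nat_lit 11529222742664544259) (Ct.cons false (nat_lit 161) (nat_lit 0) (nat_lit 42658103367042072579) (Ct.cons true (nat_lit 247) (nat_lit 0) (nat_lit 16140916457665986565) (Ct.cons true (nat_lit 63) (nat_lit 0) (nat_lit 8070456029840670723) (Ct.cons false (nat_lit 16) (nat_lit 1) (nat_lit 8462484196077913167101955) (Ct.cons true (nat_lit 329) (nat_lit 0) (nat_lit 8070461527378886659) (Ct.cons true (nat_lit 14) (nat_lit 0) (nat_lit 5764630612781563907) (Ct.cons true (nat_lit 27) (nat_lit 0) (nat_lit 18446759466879680519) (Ct.cons false (nat_lit 99) (nat_lit 0) (nat_lit 8070486816136888323) (Ct.cons false (nat_lit 93) (nat_lit 0) (nat_lit 9223389629048160259) (Ct.cons true (nat_lit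 65) (nat_lit 0) (nat_lit 56493161422324236295) (Ct.cons true (nat_lit 9) (nat_lit 0) (nat_lit 5764615219648135171) (Ct.cons false (nat_lit 29) (nat_lit 0) (nat_lit 5764622916205412355) (Ct.cons false (nat_lit 27) (nat_lit 0) (nat_lit 38046417348612587523) (Ct.cons true (nat_lit 66) (nat_lit 0) (nat_lit 8070502209301774341) (Ct.cons false (nat_lit 185) (nat_lit 0) (nat_lit 38046415149591429123) (Ct.cons true (nat_lit 66) (nat_lit 0) (nat_lit 28823045311755714563) (Ct.cons true (nat_lit 1) (nat_lit 0) (nat_lit 58799004431537930247) (Ct.cons false (nat_lit 50) (nat_lit 0) (nat_lit 18446751770305626119) (Ct.cons false (nat_lit 119) (nat_lit 0) (nat_lit 9223383031974199299) (Ct.cons true (nat_lit 40) (nat_lit 0) (nat_lit 8070500010278518789) (Ct.cons false (nat_lit 57) (nat_lit 0) (nat_lit 8070484617113632771) (Ct.cons false (nat_lit 57) (nat_lit 0) (nat_lit 35740572140377735171) (Ct.cons true (nat_lit 41) (nat_lit 0) (nat_lit 24211357094305071107) (Ct.cons true (nat_lit 123) (nat_lit 0) (nat_lit 8070456029838573571)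 (Ct.cons true (nat_lit 42) (nat_lit 0) (nat_lit 24211354895283912707) (Ct.cons true (nat_lit 42) (nat_lit 0) (nat_lit 11529218344611741699) (Ct.cons false (nat_lit 42) (nat_lit 0) (nat_lit 9223391828071415813) (Ct.cons false (nat_lit 38) (nat_lit 1) (nat_lit 8462484196075714141749251) (Ct.cons true (nat_lit 18) (nat_lit 1) (nat_lit 8462488807768329638903811) (Ct.cons false (nat_lit 16) (nat_lit 1) (nat_lit 8462484196082311213613061) Ct.nil)))))))))))))))))))))))))))))))))))))))))))
def tK196 : Tb := (Tb.node (nat_lit 23602) (Tb.node (nat_lit 23600) (Tb.leaf (nat_lit 23598) (nat_lit 364) (V.cons (nat_lit 336) true (nat_lit 3) (V.cons (nat_lit 340) false (nat_lit 135) (V.cons (nat_lit 342) false (nat_lit 3) (V.cons (nat_lit 344) true (nat_lit 300) (V.cons (nat_lit 348) true (nat_lit 48) (V.cons (nat_lit 350) true (nat_lit 138) (V.cons (nat_lit 352) true (nat_lit 108) (V.cons (nat_lit 354) true (nat_lit 3) (V.cons (nat_lit 356) false (nat_lit 36) (V.cons (nat_lit 358) false (nat_lit 3) (V.cons (nat_lit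 360) false (nat_lit 1) (V.cons (nat_lit 362) false (nat_lit 21) (V.cons (nat_lit 364) true (nat_lit 84) (V.cons (nat_lit 366) true (nat_lit 90) (V.cons (nat_lit 368) false (nat_lit 96) (V.cons (nat_lit 370) false (nat_lit 57) (V.cons (nat_lit 372) true (nat_lit 12) V.nil))))))))))))))))) (Rw.rw (nat_lit 0) (nat_lit 0) (Ct.cons false (nat_lit 1) (nat_lit 0) (nat_lit 20752595879023607813) Ct.nil))) (Tb.leaf (nat_lit 23600) (nat_lit 408) (V.cons (nat_lit 374) true (nat_lit 27) (V.cons (nat_lit 376) false (nat_lit 270) (V.cons (nat_lit 378) false (nat_lit 162) (V.cons (nat_lit 380) true (nat_lit 90) (V.cons (nat_lit 382) false (nat_lit 81) (V.cons (nat_lit 384) true (nat_lit 36) (V.cons (nat_lit 386) true (nat_lit 14) (V.cons (nat_lit 388) true (nat_lit 12) (V.cons (nat_lit 390) true (nat_lit 20) (V.cons (nat_lit 392) false (nat_lit 270) (V.cons (nat_lit 394) true (nat_lit 270) (V.cons (nat_lit 396) false (nat_lit 15) (V.cons (nat_lit 398) true (nat_lit 252) (V.cons (nat_lit 400) true (nat_lit 48)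 (V.cons (nat_lit 402) false (nat_lit 78) (V.cons (nat_lit 404) true (nat_lit 171) (V.cons (nat_lit 406) true (nat_lit 27) (V.cons (nat_lit 408) false (nat_lit 252) (V.cons (nat_lit 410) false (nat_lit 342) (V.cons (nat_lit 412) true (nat_lit 162) (V.cons (nat_lit 414) false (nat_lit 18) (V.cons (nat_lit 416) false (nat_lit 90) (V.cons (nat_lit 418) true (nat_lit 33) (V.cons (nat_lit 420) true (nat_lit 18) (V.cons (nat_lit 422) false (nat_lit 18) (V.cons (nat_lit 424) false (nat_lit 1) V.nil)))))))))))))))))))))))))) (Rw.rw (nat_lit 0) (nat_lit 0) (Ct.cons false (nat_lit 1) (nat_lit 0) (nat_lit 9223389629046063107) Ct.nil)))) (Tb.node (nat_lit 23604) (Tb.leaf (nat_lit 23602) (nat_lit 410) (V.cons (nat_lit 374) false (nat_lit 189) (V.cons (nat_lit 376) true (nat_lit 234) (V.cons (nat_lit 378) false (nat_lit 90) (V.cons (nat_lit 380) true (nat_lit 198) (V.cons (nat_lit 382) false (nat_lit 243) (V.cons (nat_lit 384) true (nat_lit 42) (V.cons (nat_lit 386) false (nat_lit 106) (V.cons (nat_lit 388) true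 (nat_lit 60) (V.cons (nat_lit 390) true (nat_lit 6) (V.cons (nat_lit 392) false (nat_lit 36) (V.cons (nat_lit 394) false (nat_lit 81) (V.cons (nat_lit 396) true (nat_lit 9) (V.cons (nat_lit 398) true (nat_lit 18) (V.cons (nat_lit 400) false (nat_lit 36) (V.cons (nat_lit 402) false (nat_lit 36) (V.cons (nat_lit 404) false (nat_lit 9) (V.cons (nat_lit 406) false (nat_lit 18) (V.cons (nat_lit 408) true (nat_lit 108) (V.cons (nat_lit 410) true (nat_lit 36) (V.cons (nat_lit 412) true (nat_lit 54) (V.cons (nat_lit 414) false (nat_lit 4) (V.cons (nat_lit 416) false (nat_lit 27) (V.cons (nat_lit 418) false (nat_lit 27) (V.cons (nat_lit 420) true (nat_lit 6) (V.cons (nat_lit 422) false (nat_lit 6) (V.cons (nat_lit 424) false (nat_lit 1) V.nil)))))))))))))))))))))))))) (Rw.rw (nat_lit 0) (nat_lit 0) (Ct.cons false (nat_lit 1) (nat_lit 0) (nat_lit 9223391828069318661) Ct.nil))) (Tb.node (nat_lit 25634) (Tb.leaf (nat_lit 23604) (nat_lit 529) (V.cons (nat_lit 444) true (nat_lit 134) (V.cons (nat_lit 446) false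 (nat_lit 137) (V.cons (nat_lit 448) false (nat_lit 1098) (V.cons (nat_lit 450) false (nat_lit 153) (V.cons (nat_lit 452) true (nat_lit 327) (V.cons (nat_lit 454) false (nat_lit 708) (V.cons (nat_lit 456) true (nat_lit 561) (V.cons (nat_lit 458) false (nat_lit 105) (V.cons (nat_lit 460) true (nat_lit 199) (V.cons (nat_lit 462) true (nat_lit 339) (V.cons (nat_lit 464) false (nat_lit 228) (V.cons (nat_lit 466) false (nat_lit 585) (V.cons (nat_lit 468) true (nat_lit 435) (V.cons (nat_lit 470) true (nat_lit 132) (V.cons (nat_lit 472) false (nat_lit 336) (V.cons (nat_lit 474) true (nat_lit 194) (V.cons (nat_lit 476) false (nat_lit 555) (V.cons (nat_lit 478) true (nat_lit 516) (V.cons (nat_lit 480) false (nat_lit 546) V.nil))))))))))))))))))) (Rw.rw (nat_lit 0) (nat_lit 0) (Ct.cons false (nat_lit 1) (nat_lit 0) (nat_lit 26517197904495509507) Ct.nil))) (Tb.leaf (nat_lit 25634) (nat_lit 280) (V.cons (nat_lit 298) true (nat_lit 8) (V.cons (nat_lit 300) true (nat_lit 2) (V.cons (nat_lit 302) false (nat_lit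 60) (V.cons (nat_lit 304) true (nat_lit 6) (V.cons (nat_lit 306) true (nat_lit 18) (V.cons (nat_lit 308) false (nat_lit 10) (V.cons (nat_lit 310) false (nat_lit 25) (V.cons (nat_lit 312) true (nat_lit 72) (V.cons (nat_lit 314) false (nat_lit 15) (V.cons (nat_lit 316) false (nat_lit 24) (V.cons (nat_lit 318) false (nat_lit 7) (V.cons (nat_lit 320) false (nat_lit 48) (V.cons (nat_lit 322) false (nat_lit 4) (V.cons (nat_lit 324) true (nat_lit 75) (V.cons (nat_lit 326) true (nat_lit 18) (V.cons (nat_lit 328) true (nat_lit 4) (V.cons (nat_lit 330) false (nat_lit 51) (V.cons (nat_lit 332) false (nat_lit 93) (V.cons (nat_lit 334) false (nat_lit 1) V.nil))))))))))))))))))) (Rw.rw (nat_lit 0) (nat_lit 0) (Ct.cons false (nat_lit 1) (nat_lit 0) (nat_lit 8070456029832282115) Ct.nil))))))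
def tK197 : Tb := (Tb.node (nat_lit 23598) tK195 tK196)
def tK198 : Tb := (Tb.node (nat_lit 21556) tK194 tK197)
def tK199 : Tb := (Tb.node (nat_lit 25652) (Tb.node (nat_lit 25650) (Tb.leaf (nat_lit 25648) (nat_lit 419) (V.cons (nat_lit 374) true (nat_lit 15) (V.cons (nat_lit 376) true (nat_lit 51) (V.cons (nat_lit 378) true (nat_lit 30) (V.cons (nat_lit 380) false (nat_lit 60) (V.cons (nat_lit 382) true (nat_lit 3) (V.cons (nat_lit 384) false (nat_lit 6) (V.cons (nat_lit 386) true (nat_lit 10) (V.cons (nat_lit 388) false (nat_lit 6) (V.cons (nat_lit 392) true (nat_lit 60) (V.cons (nat_lit 394) false (nat_lit 66) (V.cons (nat_lit 396) true (nat_lit 6) (V.cons (nat_lit 398) false (nat_lit 96) (V.cons (nat_lit 400) false (nat_lit 66) (V.cons (nat_lit 402) true (nat_lit 108) (V.cons (nat_lit 404) false (nat_lit 132) (V.cons (nat_lit 406) false (nat_lit 93) (V.cons (nat_lit 408) true (nat_lit 228) (V.cons (nat_lit 410) true (nat_lit 300) (V.cons (nat_lit 412) false (nat_lit 138) (V.cons (nat_lit 414)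 true (nat_lit 10) (V.cons (nat_lit 416) true (nat_lit 93) (V.cons (nat_lit 418) false (nat_lit 18) (V.cons (nat_lit 420) false (nat_lit 12) (V.cons (nat_lit 422) true (nat_lit 6) (V.cons (nat_lit 424) false (nat_lit 1) V.nil))))))))))))))))))))))))) (Rw.rw (nat_lit 0) (nat_lit 0) (Ct.cons false (nat_lit 1) (nat_lit 0) (nat_lit 28823040913711300611) Ct.nil))) (Tb.leaf (nat_lit 25650) (nat_lit 421) (V.cons (nat_lit 374) true (nat_lit 105) (V.cons (nat_lit 376) false (nat_lit 93) (V.cons (nat_lit 378) true (nat_lit 30) (V.cons (nat_lit 380) false (nat_lit 132) (V.cons (nat_lit 382) true (nat_lit 84) (V.cons (nat_lit 384) false (nat_lit 12) (V.cons (nat_lit 386) true (nat_lit 56) (V.cons (nat_lit 388) false (nat_lit 30) (V.cons (nat_lit 390) true (nat_lit 2) (V.cons (nat_lit 392) true (nat_lit 24) (V.cons (nat_lit 394) true (nat_lit 15) (V.cons (nat_lit 398) false (nat_lit 60) (V.cons (nat_lit 400) false (nat_lit 48) (V.cons (nat_lit 402) true (nat_lit 120) (V.cons (nat_lit 404) false (nat_lit 105)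 (V.cons (nat_lit 406) false (nat_lit 93) (V.cons (nat_lit 408) true (nat_lit 156) (V.cons (nat_lit 410) true (nat_lit 228) (V.cons (nat_lit 412) false (nat_lit 138) (V.cons (nat_lit 414) true (nat_lit 8) (V.cons (nat_lit 416) true (nat_lit 93) (V.cons (nat_lit 418) false (nat_lit 3) (V.cons (nat_lit 420) false (nat_lit 12) (V.cons (nat_lit 422) true (nat_lit 6) (V.cons (nat_lit 424) false (nat_lit 1) V.nil))))))))))))))))))))))))) (Rw.rw (nat_lit 0) (nat_lit 0) (Ct.cons false (nat_lit 1) (nat_lit 0) (nat_lit 28823043112732459011) Ct.nil)))) (Tb.node (nat_lit 27678) (Tb.leaf (nat_lit 25652) (nat_lit 518) (V.cons (nat_lit 444) true (nat_lit 13) (V.cons (nat_lit 446) false (nat_lit 13) (V.cons (nat_lit 448) false (nat_lit 114) (V.cons (nat_lit 450) false (nat_lit 15) (V.cons (nat_lit 452) true (nat_lit 33) (V.cons (nat_lit 454) false (nat_lit 72) (V.cons (nat_lit 456) true (nat_lit 60) (V.cons (nat_lit 458) false (nat_lit 12) (V.cons (nat_lit 460) true (nat_lit 19) (V.cons (nat_lit 462) true (nat_lit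 35) (V.cons (nat_lit 464) false (nat_lit 21) (V.cons (nat_lit 466) false (nat_lit 66) (V.cons (nat_lit 468) true (nat_lit 48) (V.cons (nat_lit 470) true (nat_lit 15) (V.cons (nat_lit 472) false (nat_lit 33) (V.cons (nat_lit 474) true (nat_lit 21) (V.cons (nat_lit 476) false (nat_lit 60) (V.cons (nat_lit 478) true (nat_lit 51) (V.cons (nat_lit 480) false (nat_lit 57) V.nil))))))))))))))))))) (Rw.rw (nat_lit 0) (nat_lit 0) (Ct.cons false (nat_lit 1) (nat_lit 0) (nat_lit 28823040913709203459) Ct.nil))) (Tb.node (nat_lit 27680) (Tb.leaf (nat_lit 27678) (nat_lit 285) (V.cons (nat_lit 298) true (nat_lit 24) (V.cons (nat_lit 300) true (nat_lit 7) (V.cons (nat_lit 302) false (nat_lit 168) (V.cons (nat_lit 304) true (nat_lit 18) (V.cons (nat_lit 306) true (nat_lit 57) (V.cons (nat_lit 308) false (nat_lit 31) (V.cons (nat_lit 310) false (nat_lit 76) (V.cons (nat_lit 312) true (nat_lit 225) (V.cons (nat_lit 314) false (nat_lit 72) (V.cons (nat_lit 316) false (nat_lit 75) (V.cons (nat_lit 318) false (nat_lit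 17) (V.cons (nat_lit 320) false (nat_lit 138) (V.cons (nat_lit 322) false (nat_lit 13) (V.cons (nat_lit 324) true (nat_lit 252) (V.cons (nat_lit 326) true (nat_lit 30) (V.cons (nat_lit 328) true (nat_lit 13) (V.cons (nat_lit 330) false (nat_lit 159) (V.cons (nat_lit 332) false (nat_lit 309) (V.cons (nat_lit 334) false (nat_lit 1) V.nil))))))))))))))))))) (Rw.rw (nat_lit 0) (nat_lit 0) (Ct.cons false (nat_lit 1) (nat_lit 0) (nat_lit 8070458228857634819) Ct.nil))) (Tb.leaf (nat_lit 27680) (nat_lit 283) (V.cons (nat_lit 298) true (nat_lit 32) (V.cons (nat_lit 300) true (nat_lit 10) (V.cons (nat_lit 302) false (nat_lit 225) (V.cons (nat_lit 304) true (nat_lit 24) (V.cons (nat_lit 306) true (nat_lit 75) (V.cons (nat_lit 308) false (nat_lit 41) (V.cons (nat_lit 310) false (nat_lit 102) (V.cons (nat_lit 312) true (nat_lit 300) (V.cons (nat_lit 314) false (nat_lit 93) (V.cons (nat_lit 316) false (nat_lit 108) (V.cons (nat_lit 318) false (nat_lit 19) (V.cons (nat_lit 320) false (nat_lit 180) (V.cons (nat_lit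 322) false (nat_lit 20) (V.cons (nat_lit 324) true (nat_lit 339) (V.cons (nat_lit 326) true (nat_lit 27) (V.cons (nat_lit 328) true (nat_lit 20) (V.cons (nat_lit 330) false (nat_lit 210) (V.cons (nat_lit 332) false (nat_lit 414) (V.cons (nat_lit 334) false (nat_lit 1) V.nil))))))))))))))))))) (Rw.rw (nat_lit 0) (nat_lit 0) (Ct.cons true (nat_lit 1) (nat_lit 0) (nat_lit 8070461527378886661) Ct.nil))))))
def tK200 : Tb := (Tb.node (nat_lit 25648) (Tb.node (nat_lit 25644) (Tb.node (nat_lit 25638) (Tb.leaf (nat_lit 25636) (nat_lit 262) (V.cons (nat_lit 302) true (nat_lit 3) (V.cons (nat_lit 312) false (nat_lit 3) (V.cons (nat_lit 318) true (nat_lit 1) (V.cons (nat_lit 334) false (nat_lit 1) V.nil)))) (Rw.rw (nat_lit 0) (nat_lit 0) (Ct.cons false (nat_lit 1) (nat_lit 0) (nat_lit 28823043112736653315) Ct.nil))) (Tb.leaf (nat_lit 25638) (nat_lit 273) (V.cons (nat_lit 298) true (nat_lit 24) (V.cons (nat_lit 300) true (nat_lit 7) (V.cons (nat_lit 302) false (nat_lit 165) (V.cons (nat_lit 304) true (nat_lit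 18) (V.cons (nat_lit 306) true (nat_lit 54) (V.cons (nat_lit 308) false (nat_lit 30) (V.cons (nat_lit 310) false (nat_lit 73) (V.cons (nat_lit 312) true (nat_lit 216) (V.cons (nat_lit 314) false (nat_lit 63) (V.cons (nat_lit 316) false (nat_lit 72) (V.cons (nat_lit 318) false (nat_lit 18) (V.cons (nat_lit 320) false (nat_lit 141) (V.cons (nat_lit 322) false (nat_lit 12) (V.cons (nat_lit 324) true (nat_lit 240) (V.cons (nat_lit 326) true (nat_lit 36) (V.cons (nat_lit 328) true (nat_lit 12) (V.cons (nat_lit 330) false (nat_lit 153) (V.cons (nat_lit 332) false (nat_lit 294) (V.cons (nat_lit 334) false (nat_lit 1) V.nil))))))))))))))))))) (Rw.rw (nat_lit 0) (nat_lit 0) (Ct.cons false (nat_lit 1) (nat_lit 0) (nat_lit 18446755068833169415) Ct.nil)))) (Tb.node (nat_lit 25646) (Tb.leaf (nat_lit 25644) (nat_lit 331) (V.cons (nat_lit 336) false (nat_lit 1) (V.cons (nat_lit 338) true (nat_lit 1) (V.cons (nat_lit 340) true (nat_lit 21) (V.cons (nat_lit 344) false (nat_lit 48) (V.cons (nat_lit 348) false (nat_lit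 6) (V.cons (nat_lit 350) false (nat_lit 21) (V.cons (nat_lit 352) false (nat_lit 21) (V.cons (nat_lit 356) true (nat_lit 6) (V.cons (nat_lit 362) true (nat_lit 3) (V.cons (nat_lit 364) false (nat_lit 12) (V.cons (nat_lit 366) false (nat_lit 18) (V.cons (nat_lit 368) true (nat_lit 15) (V.cons (nat_lit 370) true (nat_lit 6) V.nil))))))))))))) (Rw.rw (nat_lit 1) (nat_lit 0) (Ct.cons true (nat_lit 8) (nat_lit 0) (nat_lit 8070465925421203459) (Ct.cons false (nat_lit 1) (nat_lit 0) (nat_lit 11529223842164637699) (Ct.cons true (nat_lit 1) (nat_lit 0) (nat_lit 8070458228866023427) (Ct.cons false (nat_lit 1) (nat_lit 0) (nat_lit 8070489015162241027) (Ct.cons false (nat_lit 3) (nat_lit 0) (nat_lit 40352260357828378627) (Ct.cons true (nat_lit 8) (nat_lit 0) (nat_lit 11529222742664544259) (Ct.cons false (nat_lit 2) (nat_lit 1) (nat_lit 8462484196077913167101955) (Ct.cons false (nat_lit 2) (nat_lit 0) (nat_lit 8070461527378886659) (Ct.cons true (nat_lit 6) (nat_lit 0) (nat_lit 11529230439238598659) Ct.nil)))))))))))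 (Tb.leaf (nat_lit 25646) (nat_lit 324) (V.cons (nat_lit 336) true (nat_lit 1) (V.cons (nat_lit 338) false (nat_lit 1) (V.cons (nat_lit 340) true (nat_lit 3) (V.cons (nat_lit 344) true (nat_lit 6) (V.cons (nat_lit 348) false (nat_lit 6) (V.cons (nat_lit 352) false (nat_lit 3) (V.cons (nat_lit 356) false (nat_lit 3) (V.cons (nat_lit 368) false (nat_lit 3) V.nil)))))))) (Rw.rw (nat_lit 0) (nat_lit 0) (Ct.cons false (nat_lit 1) (nat_lit 0) (nat_lit 28823045311755714563) Ct.nil))))) tK199)
def tK201 : Tb := (Tb.node (nat_lit 27694) (Tb.leaf (nat_lit 27692) (nat_lit 402) (V.cons (nat_lit 374) false (nat_lit 27) (V.cons (nat_lit 376) false (nat_lit 54) (V.cons (nat_lit 378) false (nat_lit 90) (V.cons (nat_lit 380) true (nat_lit 72) (V.cons (nat_lit 382) false (nat_lit 81) (V.cons (nat_lit 384) true (nat_lit 21) (V.cons (nat_lit 386) false (nat_lit 12) (V.cons (nat_lit 388) true (nat_lit 18) (V.cons (nat_lit 390) true (nat_lit 10) (V.cons (nat_lit 392) false (nat_lit 126) (V.cons (nat_lit 394) true (nat_lit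 90) (V.cons (nat_lit 396) false (nat_lit 3) (V.cons (nat_lit 398) true (nat_lit 90) (V.cons (nat_lit 400) false (nat_lit 18) (V.cons (nat_lit 402) true (nat_lit 12) (V.cons (nat_lit 404) true (nat_lit 9) (V.cons (nat_lit 406) false (nat_lit 45) (V.cons (nat_lit 408) true (nat_lit 18) (V.cons (nat_lit 410) false (nat_lit 18) (V.cons (nat_lit 412) true (nat_lit 24) (V.cons (nat_lit 414) false (nat_lit 6) (V.cons (nat_lit 416) true (nat_lit 9) (V.cons (nat_lit 418) true (nat_lit 6) (V.cons (nat_lit 420) true (nat_lit 4) (V.cons (nat_lit 422) false (nat_lit 8) (V.cons (nat_lit 424) false (nat_lit 1) V.nil)))))))))))))))))))))))))) (Rw.rw (nat_lit 2) (nat_lit 1) (Ct.cons false (nat_lit 13) (nat_lit 0) (nat_lit 49575632394683154435) (Ct.cons false (nat_lit 20) (nat_lit 0) (nat_lit 38046415149589331971) (Ct.cons true (nat_lit 27) (nat_lit 0) (nat_lit 5764646005948547075) (Ct.cons false (nat_lit 36) (nat_lit 0) (nat_lit 18446751770301431811) (Ct.cons true (nat_lit 18) (nat_lit 0) (nat_lit 5764615219652329475)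 (Ct.cons false (nat_lit 18) (nat_lit 0) (nat_lit 8070456029842767875) (Ct.cons false (nat_lit 7) (nat_lit 0) (nat_lit 5764622916207509507) (Ct.cons false (nat_lit 16) (nat_lit 0) (nat_lit 44963944177232510979) (Ct.cons true (nat_lit 31) (nat_lit 0) (nat_lit 8070470323467714565) (Ct.cons true (nat_lit 31) (nat_lit 0) (nat_lit 28823043112732459011) (Ct.cons false (nat_lit 42) (nat_lit 0) (nat_lit 11529222742666641411) (Ct.cons false (nat_lit 44) (nat_lit 0) (nat_lit 16140908761094029317) (Ct.cons false (nat_lit 17) (nat_lit 0) (nat_lit 11529230439236501507) (Ct.cons false (nat_lit 1) (nat_lit 0) (nat_lit 8070495612232007683) (Ct.cons false (nat_lit 4) (nat_lit 0) (nat_lit 5764615219654426627) (Ct.cons true (nat_lit 3) (nat_lit 0) (nat_lit 42658103367039975427) (Ct.cons false (nat_lit 4) (nat_lit 0) (nat_lit 8070489015160143875) (Ct.cons true (nat_lit 1) (nat_lit 0) (nat_lit 8070463726402142211) (Ct.cons true (nat_lit 8) (nat_lit 0) (nat_lit 13835061353825435651) (Ct.cons false (nat_lit 48) (nat_lit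 0) (nat_lit 11529232638261854211) (Ct.cons false (nat_lit 52) (nat_lit 0) (nat_lit 5764641607899938819) (Ct.cons true (nat_lit 2) (nat_lit 0) (nat_lit 8070480219065024515) (Ct.cons false (nat_lit 1) (nat_lit 0) (nat_lit 11529220543641288707) (Ct.cons false (nat_lit 28) (nat_lit 0) (nat_lit 8070468124444459011) (Ct.cons true (nat_lit 3) (nat_lit 0) (nat_lit 20752594779517222919) (Ct.cons false (nat_lit 33) (nat_lit 0) (nat_lit 8070497811255263235) (Ct.cons true (nat_lit 17) (nat_lit 0) (nat_lit 20752595879021510661) (Ct.cons false (nat_lit 17) (nat_lit 0) (nat_lit 9223391828069318661) (Ct.cons true (nat_lit 3) (nat_lit 0) (nat_lit 31128888320969408515) (Ct.cons false (nat_lit 3) (nat_lit 0) (nat_lit 54187316214087286789) (Ct.cons true (nat_lit 49) (nat_lit 0) (nat_lit 9223377534429691907) (Ct.cons false (nat_lit 44) (nat_lit 0) (nat_lit 9223385230997454851) (Ct.cons true (nat_lit 44) (nat_lit 0) (nat_lit 5764613020624879619) (Ct.cons false (nat_lit 30) (nat_lit 0) (nat_lit 8070458228874412035) (Ct.cons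 true (nat_lit 10) (nat_lit 0) (nat_lit 18446761665902936071) (Ct.cons true (nat_lit 10) (nat_lit 0) (nat_lit 5764650403995058179) (Ct.cons false (nat_lit 22) (nat_lit 0) (nat_lit 18446752869807816707) (Ct.cons false (nat_lit 9) (nat_lit 0) (nat_lit 8070491214183399427) (Ct.cons false (nat_lit 9) (nat_lit 0) (nat_lit 42658101168018817027) (Ct.cons true (nat_lit 20) (nat_lit 0) (nat_lit 28823040913711300611) (Ct.cons false (nat_lit 4) (nat_lit 1) (nat_lit 6044632556848654817689603) (Ct.cons true (nat_lit 64) (nat_lit 0) (nat_lit 8070461527380983811) (Ct.cons true (nat_lit 7) (nat_lit 1) (nat_lit 3626780917619396468277253) (Ct.cons false (nat_lit 4) (nat_lit 1) (nat_lit 8462486501927519450562563) (Ct.cons true (nat_lit 10) (nat_lit 1) (nat_lit 8462488807770528662159363) (Ct.cons false (nat_lit 13) (nat_lit 0) (nat_lit 8070493413206654979) (Ct.cons true (nat_lit 7) (nat_lit 1) (nat_lit 8462486501929718473818117) (Ct.cons true (nat_lit 91) (nat_lit 0) (nat_lit 8070456029846962179) (Ct.cons false (nat_lit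 2) (nat_lit 1) (nat_lit 6044632556846455792336899) (Ct.cons false (nat_lit 16) (nat_lit 1) (nat_lit 12089261654918502154240003) Ct.nil)))))))))))))))))))))))))))))))))))))))))))))))))))) (Tb.leaf (nat_lit 27694) (nat_lit 415) (V.cons (nat_lit 374) true (nat_lit 75) (V.cons (nat_lit 376) false (nat_lit 186) (V.cons (nat_lit 378) false (nat_lit 57) (V.cons (nat_lit 380) false (nat_lit 30) (V.cons (nat_lit 382) true (nat_lit 6) (V.cons (nat_lit 384) true (nat_lit 3) (V.cons (nat_lit 386) true (nat_lit 48) (V.cons (nat_lit 388) false (nat_lit 9) (V.cons (nat_lit 390) true (nat_lit 15) (V.cons (nat_lit 392) false (nat_lit 123) (V.cons (nat_lit 394) true (nat_lit 147) (V.cons (nat_lit 396) false (nat_lit 12) (V.cons (nat_lit 398) true (nat_lit 87) (V.cons (nat_lit 400) false (nat_lit 33) (V.cons (nat_lit 402) true (nat_lit 81) (V.cons (nat_lit 404) false (nat_lit 30) (V.cons (nat_lit 406) false (nat_lit 87) (V.cons (nat_lit 408) true (nat_lit 42) (V.cons (nat_lit 410) true (nat_lit 87) (V.cons (nat_lit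 412) false (nat_lit 63) (V.cons (nat_lit 414) true (nat_lit 1) (V.cons (nat_lit 416) true (nat_lit 60) (V.cons (nat_lit 418) true (nat_lit 18) (V.cons (nat_lit 420) false (nat_lit 5) (V.cons (nat_lit 422) false (nat_lit 5) (V.cons (nat_lit 424) false (nat_lit 1) V.nil)))))))))))))))))))))))))) (Rw.rw (nat_lit 3) (nat_lit 1) (Ct.cons false (nat_lit 14) (nat_lit 0) (nat_lit 31128888320969408515) (Ct.cons true (nat_lit 84) (nat_lit 0) (nat_lit 8070480219065024515) (Ct.cons false (nat_lit 198) (nat_lit 0) (nat_lit 38046415149589331971) (Ct.cons false (nat_lit 28) (nat_lit 0) (nat_lit 5764646005948547075) (Ct.cons false (nat_lit 90) (nat_lit 0) (nat_lit 8070500010276421637) (Ct.cons true (nat_lit 70) (nat_lit 0) (nat_lit 18446751770301431811) (Ct.cons true (nat_lit 98) (nat_lit 0) (nat_lit 11529220543641288707) (Ct.cons true (nat_lit 78) (nat_lit 0) (nat_lit 8070468124444459011) (Ct.cons true (nat_lit 44) (nat_lit 0) (nat_lit 11529232638261854211) (Ct.cons false (nat_lit 5) (nat_lit 0) (nat_lit 18446752869807816707)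 (Ct.cons true (nat_lit 88) (nat_lit 0) (nat_lit 5764615219652329475) (Ct.cons false (nat_lit 88) (nat_lit 0) (nat_lit 8070456029842767875) (Ct.cons false (nat_lit 20) (nat_lit 0) (nat_lit 8070491214183399427) (Ct.cons false (nat_lit 20) (nat_lit 0) (nat_lit 42658101168018817027) (Ct.cons true (nat_lit 80) (nat_lit 0) (nat_lit 8070461527380983811) (Ct.cons false (nat_lit 56) (nat_lit 0) (nat_lit 40352260357826281475) (Ct.cons true (nat_lit 130) (nat_lit 0) (nat_lit 5764615219654426627) (Ct.cons true (nat_lit 26) (nat_lit 0) (nat_lit 44963944177232510979) (Ct.cons true (nat_lit 108) (nat_lit 0) (nat_lit 8070456029846962179) (Ct.cons false (nat_lit 80) (nat_lit 0) (nat_lit 42658103367039975427) (Ct.cons true (nat_lit 130) (nat_lit 0) (nat_lit 8070489015160143875) (Ct.cons false (nat_lit 85) (nat_lit 0) (nat_lit 8070497811255263235) (Ct.cons false (nat_lit 54) (nat_lit 0) (nat_lit 8070493413206654979) (Ct.cons false (nat_lit 70) (nat_lit 0) (nat_lit 11529222742666641411) (Ct.cons true (nat_lit 86)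 (nat_lit 0) (nat_lit 8070470323467714565) (Ct.cons true (nat_lit 86) (nat_lit 0) (nat_lit 28823043112732459011) (Ct.cons true (nat_lit 22) (nat_lit 0) (nat_lit 13835061353825435651) (Ct.cons false (nat_lit 52) (nat_lit 0) (nat_lit 5764641607899938819) (Ct.cons false (nat_lit 82) (nat_lit 0) (nat_lit 11529230439236501507) (Ct.cons true (nat_lit 34) (nat_lit 0) (nat_lit 28823040913711300611) (Ct.cons false (nat_lit 14) (nat_lit 0) (nat_lit 31128883922927091715) (Ct.cons true (nat_lit 86) (nat_lit 0) (nat_lit 9223377534429691907) (Ct.cons true (nat_lit 50) (nat_lit 0) (nat_lit 8070495612232007683) (Ct.cons false (nat_lit 50) (nat_lit 0) (nat_lit 8070463726402142211) (Ct.cons false (nat_lit 30) (nat_lit 0) (nat_lit 9223385230997454851) (Ct.cons true (nat_lit 30) (nat_lit 0) (nat_lit 5764613020624879619) (Ct.cons true (nat_lit 113) (nat_lit 0) (nat_lit 49575632394683154435) (Ct.cons true (nat_lit 30) (nat_lit 0) (nat_lit 18446761665902936071) (Ct.cons true (nat_lit 30) (nat_lit 0) (nat_lit 5764650403995058179)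 (Ct.cons false (nat_lit 47) (nat_lit 0) (nat_lit 8070458228874412035) (Ct.cons false (nat_lit 8) (nat_lit 1) (nat_lit 3626780917619396468277253) (Ct.cons true (nat_lit 116) (nat_lit 0) (nat_lit 16140908761094029317) (Ct.cons true (nat_lit 8) (nat_lit 1) (nat_lit 6044632556848654817689603) (Ct.cons true (nat_lit 24) (nat_lit 1) (nat_lit 8462486501927519450562563) (Ct.cons true (nat_lit 8) (nat_lit 1) (nat_lit 12089261654918502154240003) (Ct.cons true (nat_lit 10) (nat_lit 0) (nat_lit 20752594779517222919) (Ct.cons true (nat_lit 10) (nat_lit 0) (nat_lit 20752595879021510661) (Ct.cons false (nat_lit 10) (nat_lit 0) (nat_lit 9223391828069318661) (Ct.cons false (nat_lit 90) (nat_lit 0) (nat_lit 5764622916207509507) (Ct.cons false (nat_lit 10) (nat_lit 0) (nat_lit 54187316214087286789) (Ct.cons true (nat_lit 7) (nat_lit 1) (nat_lit 8462488807770528662159363) (Ct.cons true (nat_lit 7) (nat_lit 1) (nat_lit 6044632556846455792336899) Ct.nil)))))))))))))))))))))))))))))))))))))))))))))))))))))))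
def tK202 : Tb := (Tb.node (nat_lit 27700) tK201 (Tb.node (nat_lit 29726) (Tb.leaf (nat_lit 27700) (nat_lit 584) (V.cons (nat_lit 482) false (nat_lit 6) (V.cons (nat_lit 484) true (nat_lit 1) (V.cons (nat_lit 486) true (nat_lit 1) (V.cons (nat_lit 488) true (nat_lit 1) (V.cons (nat_lit 490) true (nat_lit 4) (V.cons (nat_lit 492) true (nat_lit 5) (V.cons (nat_lit 494) false (nat_lit 4) (V.cons (nat_lit 496) true (nat_lit 10) (V.cons (nat_lit 498) false (nat_lit 16) (V.cons (nat_lit 500) false (nat_lit 6) (V.cons (nat_lit 502) false (nat_lit 1) (V.cons (nat_lit 504) true (nat_lit 1) (V.cons (nat_lit 506) true (nat_lit 16) (V.cons (nat_lit 508) true (nat_lit 22) (V.cons (nat_lit 510) true (nat_lit 23) (V.cons (nat_lit 512) false (nat_lit 1) (V.cons (nat_lit 514) true (nat_lit 7) (V.cons (nat_lit 516) false (nat_lit 4) (V.cons (nat_lit 518) false (nat_lit 1) V.nil))))))))))))))))))) (Rw.rw (nat_lit 3) (nat_lit 1) (Ct.cons false (nat_lit 60) (nat_lit 0) (nat_lit 56493159223300980739) (Ct.cons true (nat_lit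 38) (nat_lit 0) (nat_lit 8070456029857447939) (Ct.cons false (nat_lit 56) (nat_lit 0) (nat_lit 8070504408322932739) (Ct.cons true (nat_lit 6) (nat_lit 0) (nat_lit 8070508806369443845) (Ct.cons false (nat_lit 62) (nat_lit 0) (nat_lit 18446755068828975107) (Ct.cons false (nat_lit 19) (nat_lit 0) (nat_lit 5764622916213800963) (Ct.cons true (nat_lit 31) (nat_lit 0) (nat_lit 8070497811251068931) (Ct.cons false (nat_lit 5) (nat_lit 0) (nat_lit 5764650403990863875) (Ct.cons true (nat_lit 11) (nat_lit 0) (nat_lit 8070468124450750467) (Ct.cons true (nat_lit 42) (nat_lit 0) (nat_lit 18446751770307723267) (Ct.cons false (nat_lit 6) (nat_lit 0) (nat_lit 58799004431535833091) (Ct.cons true (nat_lit 6) (nat_lit 0) (nat_lit 56493161422322139139) (Ct.cons false (nat_lit 3) (nat_lit 0) (nat_lit 16140920855710400517) (Ct.cons true (nat_lit 12) (nat_lit 0) (nat_lit 42658098968993464323) (Ct.cons false (nat_lit 8) (nat_lit 0) (nat_lit 16140918656687144963) (Ct.cons true (nat_lit 15) (nat_lit 0) (nat_lit 20752592580496064517)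 (Ct.cons false (nat_lit 24) (nat_lit 0) (nat_lit 18446747372254920707) (Ct.cons false (nat_lit 6) (nat_lit 0) (nat_lit 8070470323474006021) (Ct.cons false (nat_lit 9) (nat_lit 0) (nat_lit 20752602476091277317) (Ct.cons true (nat_lit 12) (nat_lit 0) (nat_lit 8070470323469811715) (Ct.cons true (nat_lit 12) (nat_lit 0) (nat_lit 61104847440749527045) (Ct.cons false (nat_lit 12) (nat_lit 0) (nat_lit 49575632394678960131) (Ct.cons false (nat_lit 12) (nat_lit 0) (nat_lit 5764659200085983235) (Ct.cons false (nat_lit 9) (nat_lit 1) (nat_lit 6044632556855251887456259) (Ct.cons true (nat_lit 37) (nat_lit 0) (nat_lit 18446749571282370563) (Ct.cons true (nat_lit 9) (nat_lit 0) (nat_lit 13835073448448098307) (Ct.cons true (nat_lit 9) (nat_lit 0) (nat_lit 8070495612227813379) (Ct.cons true (nat_lit 9) (nat_lit 0) (nat_lit 5764646005944352771) (Ct.cons true (nat_lit 3) (nat_lit 1) (nat_lit 3626780917619396466180099) (Ct.cons true (nat_lit 33) (nat_lit 0) (nat_lit 11529232638257659907) (Ct.cons true (nat_lit 1)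 (nat_lit 1) (nat_lit 3626780917625993538043909) (Ct.cons true (nat_lit 12) (nat_lit 0) (nat_lit 42658101168014622723) (Ct.cons false (nat_lit 18) (nat_lit 0) (nat_lit 31128883922922897411) (Ct.cons false (nat_lit 18) (nat_lit 0) (nat_lit 5764618518169387011) (Ct.cons false (nat_lit 18) (nat_lit 0) (nat_lit 40352258158800928771) (Ct.cons true (nat_lit 6) (nat_lit 0) (nat_lit 8070463726406336515) (Ct.cons true (nat_lit 6) (nat_lit 0) (nat_lit 5764613020641656835) (Ct.cons true (nat_lit 12) (nat_lit 0) (nat_lit 49575627996636643331) (Ct.cons true (nat_lit 3) (nat_lit 1) (nat_lit 6044634862700460124405763) Ct.nil))))))))))))))))))))))))))))))))))))))))) (Tb.node (nat_lit 29728) (Tb.leaf (nat_lit 29726) (nat_lit 299) (V.cons (nat_lit 298) true (nat_lit 32) (V.cons (nat_lit 300) true (nat_lit 10) (V.cons (nat_lit 302) false (nat_lit 234) (V.cons (nat_lit 304) true (nat_lit 24) (V.cons (nat_lit 306) true (nat_lit 75) (V.cons (nat_lit 308) false (nat_lit 40) (V.cons (nat_lit 310) false (nat_lit 103) (V.cons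 (nat_lit 312) true (nat_lit 300) (V.cons (nat_lit 314) false (nat_lit 84) (V.cons (nat_lit 316) false (nat_lit 102) (V.cons (nat_lit 318) false (nat_lit 24) (V.cons (nat_lit 320) false (nat_lit 189) (V.cons (nat_lit 322) false (nat_lit 17) (V.cons (nat_lit 324) true (nat_lit 330) (V.cons (nat_lit 326) true (nat_lit 45) (V.cons (nat_lit 328) true (nat_lit 17) (V.cons (nat_lit 330) false (nat_lit 210) (V.cons (nat_lit 332) false (nat_lit 405) (V.cons (nat_lit 334) false (nat_lit 1) V.nil))))))))))))))))))) (Rw.rw (nat_lit 0) (nat_lit 0) (Ct.cons false (nat_lit 1) (nat_lit 0) (nat_lit 8070458228859731971) Ct.nil))) (Tb.leaf (nat_lit 29728) (nat_lit 296) (V.cons (nat_lit 298) false (nat_lit 11) (V.cons (nat_lit 300) false (nat_lit 2) (V.cons (nat_lit 302) true (nat_lit 63) (V.cons (nat_lit 304) false (nat_lit 9) (V.cons (nat_lit 306) false (nat_lit 15) (V.cons (nat_lit 308) true (nat_lit 10) (V.cons (nat_lit 310) true (nat_lit 27) (V.cons (nat_lit 312) false (nat_lit 69) (V.cons (nat_lit 314) true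 (nat_lit 15) (V.cons (nat_lit 316) true (nat_lit 36) (V.cons (nat_lit 318) true (nat_lit 5) (V.cons (nat_lit 320) true (nat_lit 51) (V.cons (nat_lit 322) true (nat_lit 6) (V.cons (nat_lit 324) false (nat_lit 108) (V.cons (nat_lit 326) true (nat_lit 3) (V.cons (nat_lit 328) false (nat_lit 6) (V.cons (nat_lit 330) true (nat_lit 63) (V.cons (nat_lit 332) true (nat_lit 123) (V.cons (nat_lit 334) false (nat_lit 1) V.nil))))))))))))))))))) (Rw.rw (nat_lit 0) (nat_lit 0) (Ct.cons true (nat_lit 1) (nat_lit 0) (nat_lit 8070482418092474371) Ct.nil))))))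
def tK203 : Tb := (Tb.node (nat_lit 29748) (Tb.node (nat_lit 29742) (Tb.leaf (nat_lit 29740) (nat_lit 448) (V.cons (nat_lit 374) true (nat_lit 75) (V.cons (nat_lit 376) false (nat_lit 186) (V.cons (nat_lit 378) false (nat_lit 57) (V.cons (nat_lit 380) false (nat_lit 30) (V.cons (nat_lit 382) true (nat_lit 15) (V.cons (nat_lit 384) true (nat_lit 3) (V.cons (nat_lit 386) true (nat_lit 46) (V.cons (nat_lit 388) false (nat_lit 12) (V.cons (nat_lit 390) true (nat_lit 15) (V.cons (nat_lit 392) false (nat_lit 123) (V.cons (nat_lit 394) true (nat_lit 138) (V.cons (nat_lit 396) false (nat_lit 12) (V.cons (nat_lit 398) true (nat_lit 87) (V.cons (nat_lit 400) false (nat_lit 27) (V.cons (nat_lit 402) true (nat_lit 81) (V.cons (nat_lit 404) false (nat_lit 39) (V.cons (nat_lit 406) false (nat_lit 87) (V.cons (nat_lit 408) true (nat_lit 42) (V.cons (nat_lit 410) true (nat_lit 105) (V.cons (nat_lit 412) false (nat_lit 63) (V.cons (nat_lit 414) true (nat_lit 1) (V.cons (nat_lit 416) true (nat_lit 51) (V.cons (nat_lit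 418) true (nat_lit 18) (V.cons (nat_lit 420) false (nat_lit 5) (V.cons (nat_lit 422) false (nat_lit 5) (V.cons (nat_lit 424) false (nat_lit 1) V.nil)))))))))))))))))))))))))) (Rw.rw (nat_lit 0) (nat_lit 0) (Ct.cons true (nat_lit 1) (nat_lit 0) (nat_lit 8070465925423300611) Ct.nil))) (Tb.leaf (nat_lit 29742) (nat_lit 398) (V.cons (nat_lit 374) false (nat_lit 153) (V.cons (nat_lit 376) true (nat_lit 36) (V.cons (nat_lit 378) false (nat_lit 180) (V.cons (nat_lit 380) true (nat_lit 234) (V.cons (nat_lit 382) false (nat_lit 243) (V.cons (nat_lit 384) true (nat_lit 48) (V.cons (nat_lit 386) false (nat_lit 74) (V.cons (nat_lit 388) true (nat_lit 60) (V.cons (nat_lit 390) true (nat_lit 16) (V.cons (nat_lit 392) false (nat_lit 198) (V.cons (nat_lit 394) true (nat_lit 117) (V.cons (nat_lit 396) false (nat_lit 3) (V.cons (nat_lit 398) true (nat_lit 180) (V.cons (nat_lit 400) true (nat_lit 6) (V.cons (nat_lit 402) false (nat_lit 66) (V.cons (nat_lit 404) true (nat_lit 81) (V.cons (nat_lit 406) false (nat_lit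 18) (V.cons (nat_lit 408) false (nat_lit 54) (V.cons (nat_lit 410) false (nat_lit 162) (V.cons (nat_lit 412) true (nat_lit 132) (V.cons (nat_lit 414) false (nat_lit 14) (V.cons (nat_lit 416) false (nat_lit 63) (V.cons (nat_lit 418) true (nat_lit 3) (V.cons (nat_lit 420) true (nat_lit 16) (V.cons (nat_lit 422) false (nat_lit 20) (V.cons (nat_lit 424) false (nat_lit 1) V.nil)))))))))))))))))))))))))) (Rw.rw (nat_lit 2) (nat_lit 1) (Ct.cons false (nat_lit 12) (nat_lit 0) (nat_lit 54187318413108445189) (Ct.cons false (nat_lit 134) (nat_lit 0) (nat_lit 16140908761094029317) (Ct.cons true (nat_lit 34) (nat_lit 0) (nat_lit 8070470323467714565) (Ct.cons true (nat_lit 34) (nat_lit 0) (nat_lit 28823043112732459011) (Ct.cons true (nat_lit 96) (nat_lit 0) (nat_lit 5764646005948547075) (Ct.cons true (nat_lit 28) (nat_lit 0) (nat_lit 38046415149589331971) (Ct.cons true (nat_lit 48) (nat_lit 0) (nat_lit 8070500010276421637) (Ct.cons false (nat_lit 64) (nat_lit 0) (nat_lit 8070480219065024515) (Ct.cons false (nat_lit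 64) (nat_lit 0) (nat_lit 11529220543641288707) (Ct.cons false (nat_lit 106) (nat_lit 0) (nat_lit 8070468124444459011) (Ct.cons false (nat_lit 138) (nat_lit 0) (nat_lit 11529232638261854211) (Ct.cons false (nat_lit 25) (nat_lit 0) (nat_lit 18446752869807816707) (Ct.cons false (nat_lit 6) (nat_lit 0) (nat_lit 8070491214183399427) (Ct.cons false (nat_lit 6) (nat_lit 0) (nat_lit 42658101168018817027) (Ct.cons false (nat_lit 78) (nat_lit 0) (nat_lit 11529222742666641411) (Ct.cons true (nat_lit 8) (nat_lit 0) (nat_lit 5764622916207509507) (Ct.cons false (nat_lit 64) (nat_lit 0) (nat_lit 44963944177232510979) (Ct.cons true (nat_lit 148) (nat_lit 0) (nat_lit 8070456029846962179) (Ct.cons true (nat_lit 30) (nat_lit 0) (nat_lit 40352260357826281475) (Ct.cons false (nat_lit 4) (nat_lit 0) (nat_lit 8070493413206654979) (Ct.cons false (nat_lit 22) (nat_lit 0) (nat_lit 8070495612232007683) (Ct.cons false (nat_lit 82) (nat_lit 0) (nat_lit 5764615219654426627) (Ct.cons true (nat_lit 60) (nat_lit 0) (nat_lit 42658103367039975427)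 (Ct.cons false (nat_lit 82) (nat_lit 0) (nat_lit 8070489015160143875) (Ct.cons true (nat_lit 22) (nat_lit 0) (nat_lit 8070463726402142211) (Ct.cons true (nat_lit 8) (nat_lit 0) (nat_lit 13835061353825435651) (Ct.cons false (nat_lit 27) (nat_lit 0) (nat_lit 8070497811255263235) (Ct.cons false (nat_lit 108) (nat_lit 0) (nat_lit 18446751770301431811) (Ct.cons true (nat_lit 32) (nat_lit 0) (nat_lit 20752595879021510661) (Ct.cons false (nat_lit 32) (nat_lit 0) (nat_lit 9223391828069318661) (Ct.cons true (nat_lit 76) (nat_lit 0) (nat_lit 9223377534429691907) (Ct.cons true (nat_lit 82) (nat_lit 0) (nat_lit 8070461527380983811) (Ct.cons false (nat_lit 55) (nat_lit 0) (nat_lit 49575632394683154435) (Ct.cons false (nat_lit 57) (nat_lit 0) (nat_lit 8070458228874412035) (Ct.cons false (nat_lit 74) (nat_lit 0) (nat_lit 9223385230997454851) (Ct.cons true (nat_lit 74) (nat_lit 0) (nat_lit 5764613020624879619) (Ct.cons true (nat_lit 34) (nat_lit 0) (nat_lit 18446761665902936071) (Ct.cons true (nat_lit 34) (nat_lit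 0) (nat_lit 5764650403995058179) (Ct.cons false (nat_lit 82) (nat_lit 0) (nat_lit 5764641607899938819) (Ct.cons true (nat_lit 32) (nat_lit 0) (nat_lit 28823040913711300611) (Ct.cons true (nat_lit 16) (nat_lit 1) (nat_lit 3626780917619396468277253) (Ct.cons false (nat_lit 16) (nat_lit 1) (nat_lit 6044632556848654817689603) (Ct.cons false (nat_lit 8) (nat_lit 0) (nat_lit 11529230439236501507) (Ct.cons false (nat_lit 16) (nat_lit 1) (nat_lit 8462486501927519450562563) (Ct.cons true (nat_lit 19) (nat_lit 1) (nat_lit 8462488807770528662159363) (Ct.cons true (nat_lit 16) (nat_lit 1) (nat_lit 8462486501929718473818117) (Ct.cons false (nat_lit 5) (nat_lit 1) (nat_lit 6044632556846455792336899) (Ct.cons false (nat_lit 40) (nat_lit 1) (nat_lit 12089261654918502154240003) Ct.nil))))))))))))))))))))))))))))))))))))))))))))))))))) (Tb.node (nat_lit 31778) (Tb.leaf (nat_lit 29748) (nat_lit 600) (V.cons (nat_lit 482) true (nat_lit 9) (V.cons (nat_lit 486) true (nat_lit 5) (V.cons (nat_lit 488) true (nat_lit 11)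 (V.cons (nat_lit 490) false (nat_lit 13) (V.cons (nat_lit 492) false (nat_lit 6) (V.cons (nat_lit 494) true (nat_lit 17) (V.cons (nat_lit 496) false (nat_lit 79) (V.cons (nat_lit 498) true (nat_lit 49) (V.cons (nat_lit 500) true (nat_lit 9) (V.cons (nat_lit 502) true (nat_lit 13) (V.cons (nat_lit 504) true (nat_lit 1) (V.cons (nat_lit 506) false (nat_lit 91) (V.cons (nat_lit 508) false (nat_lit 31) (V.cons (nat_lit 510) false (nat_lit 53) (V.cons (nat_lit 512) false (nat_lit 14) (V.cons (nat_lit 514) true (nat_lit 29) (V.cons (nat_lit 516) true (nat_lit 79) (V.cons (nat_lit 518) false (nat_lit 1) V.nil)))))))))))))))))) (Rw.rw (nat_lit 0) (nat_lit 0) (Ct.cons false (nat_lit 1) (nat_lit 0) (nat_lit 13835077846498803715) Ct.nil))) (Tb.node (nat_lit 31780) (Tb.leaf (nat_lit 31778) (nat_lit 329) (V.cons (nat_lit 340) true (nat_lit 21) (V.cons (nat_lit 344) false (nat_lit 42) (V.cons (nat_lit 348) false (nat_lit 18) (V.cons (nat_lit 350) false (nat_lit 18) (V.cons (nat_lit 352) false (nat_lit 18) (V.cons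 (nat_lit 356) true (nat_lit 6) (V.cons (nat_lit 360) true (nat_lit 1) (V.cons (nat_lit 362) true (nat_lit 3) (V.cons (nat_lit 364) false (nat_lit 12) (V.cons (nat_lit 366) false (nat_lit 12) (V.cons (nat_lit 368) true (nat_lit 12) (V.cons (nat_lit 370) true (nat_lit 3) V.nil)))))))))))) (Rw.rw (nat_lit 0) (nat_lit 0) (Ct.cons false (nat_lit 1) (nat_lit 0) (nat_lit 8070458228866023427) Ct.nil))) (Tb.leaf (nat_lit 31780) (nat_lit 341) (V.cons (nat_lit 336) false (nat_lit 4) (V.cons (nat_lit 338) false (nat_lit 2) (V.cons (nat_lit 340) true (nat_lit 125) (V.cons (nat_lit 342) true (nat_lit 7) (V.cons (nat_lit 344) false (nat_lit 292) (V.cons (nat_lit 348) false (nat_lit 20) (V.cons (nat_lit 350) false (nat_lit 128) (V.cons (nat_lit 352) false (nat_lit 88) (V.cons (nat_lit 354) false (nat_lit 3) (V.cons (nat_lit 356) true (nat_lit 25) (V.cons (nat_lit 358) true (nat_lit 2) (V.cons (nat_lit 360) true (nat_lit 2) (V.cons (nat_lit 362) true (nat_lit 17) (V.cons (nat_lit 364) false (nat_lit 76) (V.cons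 (nat_lit 366) false (nat_lit 70) (V.cons (nat_lit 368) true (nat_lit 71) (V.cons (nat_lit 370) true (nat_lit 52) (V.cons (nat_lit 372) false (nat_lit 12) V.nil)))))))))))))))))) (Rw.rw (nat_lit 0) (nat_lit 0) (Ct.cons false (nat_lit 1) (nat_lit 0) (nat_lit 35740572140377735171) Ct.nil))))))
def tK204 : Tb := (Tb.node (nat_lit 29740) tK202 tK203)
def tK205 : Tb := (Tb.node (nat_lit 27692) tK200 tK204)
def tK206 : Tb := (Tb.node (nat_lit 25636) tK198 tK205)
def tK207 : Tb := (Tb.node (nat_lit 31794) (Tb.node (nat_lit 31792) (Tb.leaf (nat_lit 31790) (nat_lit 476) (V.cons (nat_lit 428) false (nat_lit 8) (V.cons (nat_lit 430) true (nat_lit 8) (V.cons (nat_lit 432) false (nat_lit 1) (V.cons (nat_lit 434) true (nat_lit 4) (V.cons (nat_lit 436) false (nat_lit 4) (V.cons (nat_lit 440) false (nat_lit 3) (V.cons (nat_lit 442) true (nat_lit 2) V.nil))))))) (Rw.rw (nat_lit 0) (nat_lit 0) (Ct.cons false (nat_lit 1) (nat_lit 0) (nat_lit 8070458228878606339) Ct.nil))) (Tb.leaf (nat_lit 31792) (nat_lit 503) (V.cons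 (nat_lit 444) true (nat_lit 29) (V.cons (nat_lit 446) false (nat_lit 29) (V.cons (nat_lit 448) false (nat_lit 225) (V.cons (nat_lit 450) false (nat_lit 29) (V.cons (nat_lit 452) true (nat_lit 60) (V.cons (nat_lit 454) false (nat_lit 138) (V.cons (nat_lit 456) true (nat_lit 114) (V.cons (nat_lit 458) false (nat_lit 24) (V.cons (nat_lit 460) true (nat_lit 40) (V.cons (nat_lit 462) true (nat_lit 69) (V.cons (nat_lit 464) false (nat_lit 48) (V.cons (nat_lit 466) false (nat_lit 117) (V.cons (nat_lit 468) true (nat_lit 90) (V.cons (nat_lit 470) true (nat_lit 27) (V.cons (nat_lit 472) false (nat_lit 66) (V.cons (nat_lit 474) true (nat_lit 40) (V.cons (nat_lit 476) false (nat_lit 111) (V.cons (nat_lit 478) true (nat_lit 99) (V.cons (nat_lit 480) false (nat_lit 111) V.nil))))))))))))))))))) (Rw.rw (nat_lit 0) (nat_lit 0) (Ct.cons false (nat_lit 1) (nat_lit 0) (nat_lit 18446752869805719555) Ct.nil)))) (Tb.node (nat_lit 33826) (Tb.leaf (nat_lit 31794) (nat_lit 524) (V.cons (nat_lit 444) true (nat_lit 8) (V.cons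 (nat_lit 446) false (nat_lit 11) (V.cons (nat_lit 448) false (nat_lit 78) (V.cons (nat_lit 450) false (nat_lit 23) (V.cons (nat_lit 452) true (nat_lit 45) (V.cons (nat_lit 454) false (nat_lit 72) (V.cons (nat_lit 456) true (nat_lit 39) (V.cons (nat_lit 458) true (nat_lit 3) (V.cons (nat_lit 460) true (nat_lit 17) (V.cons (nat_lit 462) true (nat_lit 31) (V.cons (nat_lit 464) false (nat_lit 30) (V.cons (nat_lit 466) false (nat_lit 39) (V.cons (nat_lit 468) true (nat_lit 27) (V.cons (nat_lit 470) true (nat_lit 18) (V.cons (nat_lit 472) false (nat_lit 30) (V.cons (nat_lit 474) true (nat_lit 14) (V.cons (nat_lit 476) false (nat_lit 39) (V.cons (nat_lit 478) true (nat_lit 48) (V.cons (nat_lit 480) false (nat_lit 54) V.nil))))))))))))))))))) (Rw.rw (nat_lit 0) (nat_lit 0) (Ct.cons false (nat_lit 1) (nat_lit 0) (nat_lit 8070458228882800643) Ct.nil))) (Tb.node (nat_lit 33828) (Tb.leaf (nat_lit 33826) (nat_lit 326) (V.cons (nat_lit 340) false (nat_lit 21) (V.cons (nat_lit 344) true (nat_lit 42) (V.cons (nat_lit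 348) true (nat_lit 12) (V.cons (nat_lit 350) true (nat_lit 21) (V.cons (nat_lit 352) true (nat_lit 18) (V.cons (nat_lit 356) false (nat_lit 6) (V.cons (nat_lit 364) true (nat_lit 12) (V.cons (nat_lit 366) true (nat_lit 12) (V.cons (nat_lit 368) false (nat_lit 12) (V.cons (nat_lit 370) false (nat_lit 9) V.nil)))))))))) (Rw.rw (nat_lit 0) (nat_lit 0) (Ct.cons true (nat_lit 1) (nat_lit 0) (nat_lit 8070489015162241027) Ct.nil))) (Tb.leaf (nat_lit 33828) (nat_lit 351) (V.cons (nat_lit 336) false (nat_lit 8) (V.cons (nat_lit 338) false (nat_lit 1) (V.cons (nat_lit 340) true (nat_lit 191) (V.cons (nat_lit 342) true (nat_lit 10) (V.cons (nat_lit 344) false (nat_lit 457) (V.cons (nat_lit 348) false (nat_lit 23) (V.cons (nat_lit 350) false (nat_lit 197) (V.cons (nat_lit 352) false (nat_lit 136) (V.cons (nat_lit 354) false (nat_lit 3) (V.cons (nat_lit 356) true (nat_lit 46) (V.cons (nat_lit 358) true (nat_lit 2) (V.cons (nat_lit 360) true (nat_lit 1) (V.cons (nat_lit 362) true (nat_lit 23) (V.cons (nat_lit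 364) false (nat_lit 109) (V.cons (nat_lit 366) false (nat_lit 115) (V.cons (nat_lit 368) true (nat_lit 113) (V.cons (nat_lit 370) true (nat_lit 76) (V.cons (nat_lit 372) false (nat_lit 15) V.nil)))))))))))))))))) (Rw.rw (nat_lit 0) (nat_lit 0) (Ct.cons false (nat_lit 1) (nat_lit 0) (nat_lit 42658103367042072579) Ct.nil))))))
def tK208 : Tb := (Tb.node (nat_lit 31790) (Tb.node (nat_lit 31786) (Tb.node (nat_lit 31784) (Tb.leaf (nat_lit 31782) (nat_lit 339) (V.cons (nat_lit 336) true (nat_lit 19) (V.cons (nat_lit 338) true (nat_lit 8) (V.cons (nat_lit 340) false (nat_lit 533) (V.cons (nat_lit 342) false (nat_lit 28) (V.cons (nat_lit 344) true (nat_lit 1264) (V.cons (nat_lit 348) true (nat_lit 44) (V.cons (nat_lit 350) true (nat_lit 542) (V.cons (nat_lit 352) true (nat_lit 376) (V.cons (nat_lit 354) true (nat_lit 6) (V.cons (nat_lit 356) false (nat_lit 115) (V.cons (nat_lit 358) false (nat_lit 5) (V.cons (nat_lit 360) false (nat_lit 2) (V.cons (nat_lit 362) false (nat_lit 65) (V.cons (nat_lit 364)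 true (nat_lit 286) (V.cons (nat_lit 366) true (nat_lit 298) (V.cons (nat_lit 368) false (nat_lit 287) (V.cons (nat_lit 370) false (nat_lit 220) (V.cons (nat_lit 372) true (nat_lit 42) V.nil)))))))))))))))))) (Rw.rw (nat_lit 0) (nat_lit 0) (Ct.cons true (nat_lit 1) (nat_lit 0) (nat_lit 5764641607902035971) Ct.nil))) (Tb.leaf (nat_lit 31784) (nat_lit 407) (V.cons (nat_lit 374) false (nat_lit 63) (V.cons (nat_lit 376) true (nat_lit 18) (V.cons (nat_lit 378) false (nat_lit 90) (V.cons (nat_lit 380) true (nat_lit 90) (V.cons (nat_lit 382) false (nat_lit 99) (V.cons (nat_lit 384) true (nat_lit 24) (V.cons (nat_lit 386) false (nat_lit 34) (V.cons (nat_lit 388) true (nat_lit 24) (V.cons (nat_lit 390) true (nat_lit 6) (V.cons (nat_lit 392) false (nat_lit 72) (V.cons (nat_lit 394) true (nat_lit 45) (V.cons (nat_lit 396) true (nat_lit 3) (V.cons (nat_lit 398) true (nat_lit 54) (V.cons (nat_lit 400) false (nat_lit 12) (V.cons (nat_lit 402) false (nat_lit 24) (V.cons (nat_lit 404) true (nat_lit 9) (V.cons (nat_lit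 410) false (nat_lit 36) (V.cons (nat_lit 412) true (nat_lit 54) (V.cons (nat_lit 414) false (nat_lit 4) (V.cons (nat_lit 416) false (nat_lit 9) (V.cons (nat_lit 418) false (nat_lit 3) (V.cons (nat_lit 420) true (nat_lit 6) (V.cons (nat_lit 422) false (nat_lit 6) (V.cons (nat_lit 424) false (nat_lit 1) V.nil)))))))))))))))))))))))) (Rw.rw (nat_lit 0) (nat_lit 0) (Ct.cons false (nat_lit 1) (nat_lit 0) (nat_lit 9223385230997454851) Ct.nil)))) (Tb.node (nat_lit 31788) (Tb.leaf (nat_lit 31786) (nat_lit 405) (V.cons (nat_lit 374) true (nat_lit 162) (V.cons (nat_lit 376) false (nat_lit 252) (V.cons (nat_lit 380) false (nat_lit 144) (V.cons (nat_lit 382) true (nat_lit 144) (V.cons (nat_lit 384) false (nat_lit 12) (V.cons (nat_lit 386) true (nat_lit 84) (V.cons (nat_lit 388) false (nat_lit 42) (V.cons (nat_lit 390) true (nat_lit 2) (V.cons (nat_lit 392) false (nat_lit 54) (V.cons (nat_lit 394) true (nat_lit 126) (V.cons (nat_lit 396) false (nat_lit 6) (V.cons (nat_lit 398) true (nat_lit 36) (V.cons (nat_lit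 400) true (nat_lit 12) (V.cons (nat_lit 402) true (nat_lit 54) (V.cons (nat_lit 404) false (nat_lit 9) (V.cons (nat_lit 406) false (nat_lit 36) (V.cons (nat_lit 408) false (nat_lit 36) (V.cons (nat_lit 412) false (nat_lit 54) (V.cons (nat_lit 416) true (nat_lit 27) (V.cons (nat_lit 418) true (nat_lit 18) (V.cons (nat_lit 420) false (nat_lit 6) (V.cons (nat_lit 422) true (nat_lit 6) (V.cons (nat_lit 424) false (nat_lit 1) V.nil))))))))))))))))))))))) (Rw.rw (nat_lit 0) (nat_lit 0) (Ct.cons false (nat_lit 1) (nat_lit 0) (nat_lit 35740572140375638019) Ct.nil))) (Tb.leaf (nat_lit 31788) (nat_lit 464) (V.cons (nat_lit 428) false (nat_lit 1) (V.cons (nat_lit 432) false (nat_lit 1) (V.cons (nat_lit 436) true (nat_lit 1) (V.cons (nat_lit 442) false (nat_lit 1) V.nil)))) (Rw.rw (nat_lit 0) (nat_lit 0) (Ct.cons false (nat_lit 1) (nat_lit 0) (nat_lit 8070458228876509187) (Ct.cons true (nat_lit 1) (nat_lit 0) (nat_lit 16140916457665986563) (Ct.cons true (nat_lit 2) (nat_lit 0) (nat_lit 8070465925425397763)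 (Ct.cons false (nat_lit 1) (nat_lit 0) (nat_lit 8070486816134791171) Ct.nil)))))))) tK207)
def tK209 : Tb := (Tb.node (nat_lit 33834) (Tb.node (nat_lit 33832) (Tb.leaf (nat_lit 33830) (nat_lit 357) (V.cons (nat_lit 336) false (nat_lit 16) (V.cons (nat_lit 338) false (nat_lit 5) (V.cons (nat_lit 340) true (nat_lit 454) (V.cons (nat_lit 342) true (nat_lit 23) (V.cons (nat_lit 344) false (nat_lit 1070) (V.cons (nat_lit 348) false (nat_lit 58) (V.cons (nat_lit 350) false (nat_lit 463) (V.cons (nat_lit 352) false (nat_lit 326) (V.cons (nat_lit 354) false (nat_lit 6) (V.cons (nat_lit 356) true (nat_lit 104) (V.cons (nat_lit 358) true (nat_lit 4) (V.cons (nat_lit 360) true (nat_lit 2) (V.cons (nat_lit 362) true (nat_lit 58) (V.cons (nat_lit 364) false (nat_lit 254) (V.cons (nat_lit 366) false (nat_lit 266) (V.cons (nat_lit 368) true (nat_lit 259) (V.cons (nat_lit 370) true (nat_lit 185) (V.cons (nat_lit 372) false (nat_lit 36) V.nil)))))))))))))))))) (Rw.rw (nat_lit 0) (nat_lit 0) (Ct.cons true (nat_lit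 1) (nat_lit 0) (nat_lit 8070493413208752131) Ct.nil))) (Tb.leaf (nat_lit 33832) (nat_lit 425) (V.cons (nat_lit 374) true (nat_lit 78) (V.cons (nat_lit 376) false (nat_lit 318) (V.cons (nat_lit 378) false (nat_lit 132) (V.cons (nat_lit 380) true (nat_lit 30) (V.cons (nat_lit 382) false (nat_lit 6) (V.cons (nat_lit 384) true (nat_lit 21) (V.cons (nat_lit 386) true (nat_lit 46) (V.cons (nat_lit 388) false (nat_lit 6) (V.cons (nat_lit 390) true (nat_lit 20) (V.cons (nat_lit 392) false (nat_lit 246) (V.cons (nat_lit 394) true (nat_lit 267) (V.cons (nat_lit 396) false (nat_lit 18) (V.cons (nat_lit 398) true (nat_lit 210) (V.cons (nat_lit 400) true (nat_lit 30) (V.cons (nat_lit 402) false (nat_lit 36) (V.cons (nat_lit 404) true (nat_lit 111) (V.cons (nat_lit 406) true (nat_lit 6) (V.cons (nat_lit 408) false (nat_lit 195) (V.cons (nat_lit 410) false (nat_lit 222) (V.cons (nat_lit 412) true (nat_lit 96) (V.cons (nat_lit 414) false (nat_lit 10) (V.cons (nat_lit 416) false (nat_lit 42) (V.cons (nat_lit 418)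 true (nat_lit 36) (V.cons (nat_lit 420) true (nat_lit 6) (V.cons (nat_lit 422) false (nat_lit 12) (V.cons (nat_lit 424) false (nat_lit 1) V.nil)))))))))))))))))))))))))) (Rw.rw (nat_lit 0) (nat_lit 0) (Ct.cons false (nat_lit 1) (nat_lit 0) (nat_lit 5764613020626976771) Ct.nil)))) (Tb.node (nat_lit 33836) (Tb.leaf (nat_lit 33834) (nat_lit 423) (V.cons (nat_lit 374) false (nat_lit 21) (V.cons (nat_lit 376) false (nat_lit 138) (V.cons (nat_lit 378) false (nat_lit 132) (V.cons (nat_lit 380) true (nat_lit 102) (V.cons (nat_lit 382) false (nat_lit 96) (V.cons (nat_lit 384) true (nat_lit 30) (V.cons (nat_lit 386) false (nat_lit 8) (V.cons (nat_lit 388) true (nat_lit 21) (V.cons (nat_lit 390) true (nat_lit 18) (V.cons (nat_lit 392) false (nat_lit 192) (V.cons (nat_lit 394) true (nat_lit 168) (V.cons (nat_lit 396) false (nat_lit 9) (V.cons (nat_lit 398) true (nat_lit 156) (V.cons (nat_lit 400) false (nat_lit 6) (V.cons (nat_lit 402) false (nat_lit 24) (V.cons (nat_lit 404) true (nat_lit 48) (V.cons (nat_lit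 406) false (nat_lit 21) (V.cons (nat_lit 408) false (nat_lit 69) (V.cons (nat_lit 410) false (nat_lit 96) (V.cons (nat_lit 412) true (nat_lit 78) (V.cons (nat_lit 414) false (nat_lit 8) (V.cons (nat_lit 416) false (nat_lit 24) (V.cons (nat_lit 418) true (nat_lit 15) (V.cons (nat_lit 420) true (nat_lit 6) (V.cons (nat_lit 422) false (nat_lit 12) (V.cons (nat_lit 424) false (nat_lit 1) V.nil)))))))))))))))))))))))))) (Rw.rw (nat_lit 0) (nat_lit 0) (Ct.cons true (nat_lit 1) (nat_lit 0) (nat_lit 5764643806923194371) Ct.nil))) (Tb.node (nat_lit 33838) (Tb.leaf (nat_lit 33836) (nat_lit 461) (V.cons (nat_lit 438) false (nat_lit 1) (V.cons (nat_lit 442) false (nat_lit 1) V.nil)) (Rw.rw (nat_lit 0) (nat_lit 0) (Ct.cons true (nat_lit 1) (nat_lit 0) (nat_lit 8070465925425397763) Ct.nil))) (Tb.leaf (nat_lit 33838) (nat_lit 460) (V.cons (nat_lit 430) true (nat_lit 1) (V.cons (nat_lit 432) false (nat_lit 1) (V.cons (nat_lit 434) false (nat_lit 1) (V.cons (nat_lit 442) false (nat_lit 1) V.nil)))) (Rw.rw (nat_lit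 0) (nat_lit 0) (Ct.cons false (nat_lit 1) (nat_lit 0) (nat_lit 38046417348610490371) Ct.nil))))))
def tK210 : Tb := (Tb.node (nat_lit 35874) (Tb.node (nat_lit 33842) (Tb.leaf (nat_lit 33840) (nat_lit 538) (V.cons (nat_lit 444) true (nat_lit 22) (V.cons (nat_lit 446) false (nat_lit 22) (V.cons (nat_lit 448) false (nat_lit 174) (V.cons (nat_lit 450) false (nat_lit 23) (V.cons (nat_lit 452) true (nat_lit 48) (V.cons (nat_lit 454) false (nat_lit 111) (V.cons (nat_lit 456) true (nat_lit 90) (V.cons (nat_lit 458) false (nat_lit 18) (V.cons (nat_lit 460) true (nat_lit 32) (V.cons (nat_lit 462) true (nat_lit 55) (V.cons (nat_lit 464) false (nat_lit 33) (V.cons (nat_lit 466) false (nat_lit 96) (V.cons (nat_lit 468) true (nat_lit 72) (V.cons (nat_lit 470) true (nat_lit 18) (V.cons (nat_lit 472) false (nat_lit 51) (V.cons (nat_lit 474) true (nat_lit 32) (V.cons (nat_lit 476) false (nat_lit 90) (V.cons (nat_lit 478) true (nat_lit 78) (V.cons (nat_lit 480) false (nat_lit 87) V.nil))))))))))))))))))) (Rw.rw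 (nat_lit 0) (nat_lit 0) (Ct.cons false (nat_lit 1) (nat_lit 0) (nat_lit 38046412950566076419) Ct.nil))) (Tb.leaf (nat_lit 33842) (nat_lit 537) (V.cons (nat_lit 444) true (nat_lit 22) (V.cons (nat_lit 446) false (nat_lit 22) (V.cons (nat_lit 448) false (nat_lit 177) (V.cons (nat_lit 450) false (nat_lit 26) (V.cons (nat_lit 452) true (nat_lit 54) (V.cons (nat_lit 454) false (nat_lit 120) (V.cons (nat_lit 456) true (nat_lit 90) (V.cons (nat_lit 458) false (nat_lit 15) (V.cons (nat_lit 460) true (nat_lit 33) (V.cons (nat_lit 462) true (nat_lit 55) (V.cons (nat_lit 464) false (nat_lit 42) (V.cons (nat_lit 466) false (nat_lit 93) (V.cons (nat_lit 468) true (nat_lit 69) (V.cons (nat_lit 470) true (nat_lit 21) (V.cons (nat_lit 472) false (nat_lit 54) (V.cons (nat_lit 474) true (nat_lit 31) (V.cons (nat_lit 476) false (nat_lit 90) (V.cons (nat_lit 478) true (nat_lit 84) (V.cons (nat_lit 480) false (nat_lit 90) V.nil))))))))))))))))))) (Rw.rw (nat_lit 0) (nat_lit 0) (Ct.cons true (nat_lit 1) (nat_lit 0)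 (nat_lit 8070506607348285443) Ct.nil)))) (Tb.node (nat_lit 35876) (Tb.leaf (nat_lit 35874) (nat_lit 449) (V.cons (nat_lit 374) false (nat_lit 19) (V.cons (nat_lit 376) false (nat_lit 13) (V.cons (nat_lit 378) false (nat_lit 44) (V.cons (nat_lit 380) true (nat_lit 28) (V.cons (nat_lit 382) false (nat_lit 44) (V.cons (nat_lit 384) true (nat_lit 14) (V.cons (nat_lit 386) false (nat_lit 10) (V.cons (nat_lit 388) true (nat_lit 10) (V.cons (nat_lit 390) true (nat_lit 6) (V.cons (nat_lit 392) false (nat_lit 64) (V.cons (nat_lit 394) true (nat_lit 41) (V.cons (nat_lit 396) true (nat_lit 2) (V.cons (nat_lit 398) true (nat_lit 28) (V.cons (nat_lit 400) false (nat_lit 38) (V.cons (nat_lit 402) true (nat_lit 46) (V.cons (nat_lit 404) false (nat_lit 44) (V.cons (nat_lit 406) false (nat_lit 61) (V.cons (nat_lit 408) true (nat_lit 88) (V.cons (nat_lit 410) true (nat_lit 94) (V.cons (nat_lit 412) false (nat_lit 22) (V.cons (nat_lit 414) false (nat_lit 2) (V.cons (nat_lit 416) true (nat_lit 34) (V.cons (nat_lit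 418) true (nat_lit 2) (V.cons (nat_lit 420) false (nat_lit 2) (V.cons (nat_lit 422) false (nat_lit 2) (V.cons (nat_lit 424) false (nat_lit 1) V.nil)))))))))))))))))))))))))) (Rw.rw (nat_lit 0) (nat_lit 0) (Ct.cons false (nat_lit 1) (nat_lit 0) (nat_lit 8070456029842767875) Ct.nil))) (Tb.node (nat_lit 35878) (Tb.leaf (nat_lit 35876) (nat_lit 437) (V.cons (nat_lit 374) true (nat_lit 1) (V.cons (nat_lit 376) true (nat_lit 94) (V.cons (nat_lit 378) true (nat_lit 62) (V.cons (nat_lit 380) false (nat_lit 64) (V.cons (nat_lit 382) true (nat_lit 35) (V.cons (nat_lit 384) false (nat_lit 8) (V.cons (nat_lit 386) true (nat_lit 2) (V.cons (nat_lit 388) false (nat_lit 10) (V.cons (nat_lit 390) false (nat_lit 6) (V.cons (nat_lit 392) true (nat_lit 82) (V.cons (nat_lit 394) false (nat_lit 104) (V.cons (nat_lit 396) true (nat_lit 13) (V.cons (nat_lit 398) false (nat_lit 154) (V.cons (nat_lit 400) false (nat_lit 82) (V.cons (nat_lit 402) true (nat_lit 128) (V.cons (nat_lit 404) false (nat_lit 181) (V.cons (nat_lit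 406) false (nat_lit 101) (V.cons (nat_lit 408) true (nat_lit 290) (V.cons (nat_lit 410) true (nat_lit 338) (V.cons (nat_lit 412) false (nat_lit 152) (V.cons (nat_lit 414) true (nat_lit 10) (V.cons (nat_lit 416) true (nat_lit 110) (V.cons (nat_lit 418) false (nat_lit 23) (V.cons (nat_lit 420) false (nat_lit 16) (V.cons (nat_lit 422) true (nat_lit 12) (V.cons (nat_lit 424) false (nat_lit 1) V.nil)))))))))))))))))))))))))) (Rw.rw (nat_lit 0) (nat_lit 0) (Ct.cons false (nat_lit 1) (nat_lit 0) (nat_lit 40352258158805123075) Ct.nil))) (Tb.leaf (nat_lit 35878) (nat_lit 431) (V.cons (nat_lit 374) true (nat_lit 66) (V.cons (nat_lit 376) true (nat_lit 21) (V.cons (nat_lit 378) true (nat_lit 87) (V.cons (nat_lit 380) false (nat_lit 129) (V.cons (nat_lit 382) true (nat_lit 87) (V.cons (nat_lit 384) false (nat_lit 21) (V.cons (nat_lit 386) true (nat_lit 37) (V.cons (nat_lit 388) false (nat_lit 27) (V.cons (nat_lit 390) false (nat_lit 1) (V.cons (nat_lit 392) true (nat_lit 93) (V.cons (nat_lit 394) false (nat_lit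 87) (V.cons (nat_lit 396) true (nat_lit 6) (V.cons (nat_lit 398) false (nat_lit 147) (V.cons (nat_lit 400) false (nat_lit 105) (V.cons (nat_lit 402) true (nat_lit 180) (V.cons (nat_lit 404) false (nat_lit 219) (V.cons (nat_lit 406) false (nat_lit 141) (V.cons (nat_lit 408) true (nat_lit 339) (V.cons (nat_lit 410) true (nat_lit 465) (V.cons (nat_lit 412) false (nat_lit 228) (V.cons (nat_lit 414) true (nat_lit 17) (V.cons (nat_lit 416) true (nat_lit 150) (V.cons (nat_lit 418) false (nat_lit 18) (V.cons (nat_lit 420) false (nat_lit 24) (V.cons (nat_lit 422) true (nat_lit 14) (V.cons (nat_lit 424) false (nat_lit 1) V.nil)))))))))))))))))))))))))) (Rw.rw (nat_lit 0) (nat_lit 0) (Ct.cons false (nat_lit 1) (nat_lit 0) (nat_lit 8070456029846962179) Ct.nil))))))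
def tK211 : Tb := (Tb.node (nat_lit 33840) tK209 tK210)
def tK212 : Tb := (Tb.node (nat_lit 33830) tK208 tK211)
def tK213 : Tb := (Tb.node (nat_lit 37932) (Tb.node (nat_lit 37926) (Tb.leaf (nat_lit 37924) (nat_lit 450) (V.cons (nat_lit 374) false (nat_lit 37) (V.cons (nat_lit 376) true (nat_lit 248) (V.cons (nat_lit 378) true (nat_lit 118) (V.cons (nat_lit 380) false (nat_lit 80) (V.cons (nat_lit 382) true (nat_lit 28) (V.cons (nat_lit 384) false (nat_lit 16) (V.cons (nat_lit 386) false (nat_lit 20) (V.cons (nat_lit 388) false (nat_lit 2) (V.cons (nat_lit 390) false (nat_lit 12) (V.cons (nat_lit 392) true (nat_lit 188) (V.cons (nat_lit 394) false (nat_lit 229) (V.cons (nat_lit 396) true (nat_lit 17) (V.cons (nat_lit 398) false (nat_lit 224) (V.cons (nat_lit 400) false (nat_lit 98) (V.cons (nat_lit 402) true (nat_lit 148) (V.cons (nat_lit 404) false (nat_lit 233) (V.cons (nat_lit 406) false (nat_lit 115) (V.cons (nat_lit 408) true (nat_lit 385) (V.cons (nat_lit 410) true (nat_lit 472) (V.cons (nat_lit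 412) false (nat_lit 214) (V.cons (nat_lit 414) true (nat_lit 16) (V.cons (nat_lit 416) true (nat_lit 133) (V.cons (nat_lit 418) false (nat_lit 37) (V.cons (nat_lit 420) false (nat_lit 22) (V.cons (nat_lit 422) true (nat_lit 18) (V.cons (nat_lit 424) false (nat_lit 1) V.nil)))))))))))))))))))))))))) (Rw.rw (nat_lit 0) (nat_lit 0) (Ct.cons false (nat_lit 1) (nat_lit 0) (nat_lit 16140916457663889413) Ct.nil))) (Tb.leaf (nat_lit 37926) (nat_lit 427) (V.cons (nat_lit 374) false (nat_lit 6) (V.cons (nat_lit 376) true (nat_lit 147) (V.cons (nat_lit 378) true (nat_lit 87) (V.cons (nat_lit 380) false (nat_lit 75) (V.cons (nat_lit 382) true (nat_lit 24) (V.cons (nat_lit 384) false (nat_lit 15) (V.cons (nat_lit 386) false (nat_lit 1) (V.cons (nat_lit 388) false (nat_lit 9) (V.cons (nat_lit 390) false (nat_lit 1) (V.cons (nat_lit 392) true (nat_lit 129) (V.cons (nat_lit 394) false (nat_lit 150) (V.cons (nat_lit 396) true (nat_lit 12) (V.cons (nat_lit 398) false (nat_lit 183) (V.cons (nat_lit 400) false (nat_lit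 123) (V.cons (nat_lit 402) true (nat_lit 174) (V.cons (nat_lit 404) false (nat_lit 246) (V.cons (nat_lit 406) false (nat_lit 141) (V.cons (nat_lit 408) true (nat_lit 393) (V.cons (nat_lit 410) true (nat_lit 501) (V.cons (nat_lit 412) false (nat_lit 216) (V.cons (nat_lit 414) true (nat_lit 17) (V.cons (nat_lit 416) true (nat_lit 159) (V.cons (nat_lit 418) false (nat_lit 30) (V.cons (nat_lit 420) false (nat_lit 22) (V.cons (nat_lit 422) true (nat_lit 12) (V.cons (nat_lit 424) false (nat_lit 1) V.nil)))))))))))))))))))))))))) (Rw.rw (nat_lit 0) (nat_lit 0) (Ct.cons false (nat_lit 1) (nat_lit 0) (nat_lit 44963944177232510979) Ct.nil)))) (Tb.node (nat_lit 37934) (Tb.leaf (nat_lit 37932) (nat_lit 511) (V.cons (nat_lit 444) false (nat_lit 42) (V.cons (nat_lit 446) true (nat_lit 38) (V.cons (nat_lit 448) true (nat_lit 328) (V.cons (nat_lit 450) true (nat_lit 37) (V.cons (nat_lit 452) false (nat_lit 80) (V.cons (nat_lit 454) true (nat_lit 203) (V.cons (nat_lit 456) false (nat_lit 170) (V.cons (nat_lit 458)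 true (nat_lit 40) (V.cons (nat_lit 460) false (nat_lit 58) (V.cons (nat_lit 462) false (nat_lit 97) (V.cons (nat_lit 464) true (nat_lit 53) (V.cons (nat_lit 466) true (nat_lit 182) (V.cons (nat_lit 468) false (nat_lit 136) (V.cons (nat_lit 470) false (nat_lit 32) (V.cons (nat_lit 472) true (nat_lit 95) (V.cons (nat_lit 474) false (nat_lit 60) (V.cons (nat_lit 476) true (nat_lit 169) (V.cons (nat_lit 478) false (nat_lit 143) (V.cons (nat_lit 480) true (nat_lit 151) V.nil))))))))))))))))))) (Rw.rw (nat_lit 0) (nat_lit 0) (Ct.cons false (nat_lit 1) (nat_lit 0) (nat_lit 16140916457663889411) Ct.nil))) (Tb.node (nat_lit 37936) (Tb.leaf (nat_lit 37934) (nat_lit 521) (V.cons (nat_lit 444) false (nat_lit 30) (V.cons (nat_lit 446) true (nat_lit 29) (V.cons (nat_lit 448) true (nat_lit 238) (V.cons (nat_lit 450) true (nat_lit 31) (V.cons (nat_lit 452) false (nat_lit 62) (V.cons (nat_lit 454) true (nat_lit 146) (V.cons (nat_lit 456) false (nat_lit 122) (V.cons (nat_lit 458) true (nat_lit 25) (V.cons (nat_lit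 460) false (nat_lit 42) (V.cons (nat_lit 462) false (nat_lit 73) (V.cons (nat_lit 464) true (nat_lit 41) (V.cons (nat_lit 466) true (nat_lit 128) (V.cons (nat_lit 468) false (nat_lit 97) (V.cons (nat_lit 470) false (nat_lit 26) (V.cons (nat_lit 472) true (nat_lit 71) (V.cons (nat_lit 474) false (nat_lit 43) (V.cons (nat_lit 476) true (nat_lit 118) (V.cons (nat_lit 478) false (nat_lit 107) (V.cons (nat_lit 480) true (nat_lit 115) V.nil))))))))))))))))))) (Rw.rw (nat_lit 0) (nat_lit 0) (Ct.cons false (nat_lit 1) (nat_lit 0) (nat_lit 42658103367037878275) Ct.nil))) (Tb.leaf (nat_lit 37936) (nat_lit 562) (V.cons (nat_lit 482) false (nat_lit 2) (V.cons (nat_lit 484) true (nat_lit 2) (V.cons (nat_lit 488) true (nat_lit 2) (V.cons (nat_lit 490) true (nat_lit 2) (V.cons (nat_lit 492) true (nat_lit 4) (V.cons (nat_lit 496) true (nat_lit 8) (V.cons (nat_lit 498) false (nat_lit 8) (V.cons (nat_lit 500) false (nat_lit 6) (V.cons (nat_lit 506) true (nat_lit 8) (V.cons (nat_lit 508) true (nat_lit 8) (V.cons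 (nat_lit 510) true (nat_lit 10) (V.cons (nat_lit 512) true (nat_lit 1) (V.cons (nat_lit 514) true (nat_lit 2) (V.cons (nat_lit 516) true (nat_lit 4) (V.cons (nat_lit 518) false (nat_lit 1) V.nil))))))))))))))) (Rw.rw (nat_lit 0) (nat_lit 0) (Ct.cons false (nat_lit 1) (nat_lit 0) (nat_lit 56493159223300980739) Ct.nil))))))
def tK214 : Tb := (Tb.node (nat_lit 37924) (Tb.node (nat_lit 35888) (Tb.node (nat_lit 35886) (Tb.leaf (nat_lit 35884) (nat_lit 514) (V.cons (nat_lit 444) true (nat_lit 6) (V.cons (nat_lit 446) false (nat_lit 6) (V.cons (nat_lit 448) false (nat_lit 48) (V.cons (nat_lit 450) false (nat_lit 6) (V.cons (nat_lit 452) true (nat_lit 12) (V.cons (nat_lit 454) false (nat_lit 27) (V.cons (nat_lit 456) true (nat_lit 24) (V.cons (nat_lit 458) false (nat_lit 6) (V.cons (nat_lit 460) true (nat_lit 8) (V.cons (nat_lit 462) true (nat_lit 14) (V.cons (nat_lit 464) false (nat_lit 12) (V.cons (nat_lit 466) false (nat_lit 24) (V.cons (nat_lit 468) true (nat_lit 21) (V.cons (nat_lit 470) true (nat_lit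 6) (V.cons (nat_lit 472) false (nat_lit 15) (V.cons (nat_lit 474) true (nat_lit 8) (V.cons (nat_lit 476) false (nat_lit 24) (V.cons (nat_lit 478) true (nat_lit 21) (V.cons (nat_lit 480) false (nat_lit 24) V.nil))))))))))))))))))) (Rw.rw (nat_lit 0) (nat_lit 0) (Ct.cons false (nat_lit 1) (nat_lit 0) (nat_lit 16140912059615281155) Ct.nil))) (Tb.leaf (nat_lit 35886) (nat_lit 496) (V.cons (nat_lit 448) true (nat_lit 3) (V.cons (nat_lit 464) true (nat_lit 3) (V.cons (nat_lit 466) false (nat_lit 3) (V.cons (nat_lit 476) false (nat_lit 3) V.nil)))) (Rw.rw (nat_lit 0) (nat_lit 0) (Ct.cons false (nat_lit 1) (nat_lit 0) (nat_lit 40352260357824184323) Ct.nil)))) (Tb.node (nat_lit 35890) (Tb.leaf (nat_lit 35888) (nat_lit 558) (V.cons (nat_lit 492) false (nat_lit 2) (V.cons (nat_lit 496) false (nat_lit 6) (V.cons (nat_lit 498) true (nat_lit 6) (V.cons (nat_lit 500) true (nat_lit 2) (V.cons (nat_lit 506) false (nat_lit 6) (V.cons (nat_lit 508) false (nat_lit 6) (V.cons (nat_lit 512) false (nat_lit 3) (V.cons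 (nat_lit 514) true (nat_lit 6) (V.cons (nat_lit 516) true (nat_lit 6) (V.cons (nat_lit 518) false (nat_lit 1) V.nil)))))))))) (Rw.rw (nat_lit 0) (nat_lit 0) (Ct.cons true (nat_lit 1) (nat_lit 0) (nat_lit 56493159223300980739) (Ct.cons false (nat_lit 1) (nat_lit 0) (nat_lit 8070456029857447939) (Ct.cons true (nat_lit 1) (nat_lit 0) (nat_lit 8070504408322932739) Ct.nil))))) (Tb.leaf (nat_lit 35890) (nat_lit 583) (V.cons (nat_lit 482) true (nat_lit 36) (V.cons (nat_lit 484) false (nat_lit 14) (V.cons (nat_lit 486) true (nat_lit 3) (V.cons (nat_lit 488) true (nat_lit 12) (V.cons (nat_lit 490) false (nat_lit 36) (V.cons (nat_lit 492) false (nat_lit 48) (V.cons (nat_lit 494) true (nat_lit 34) (V.cons (nat_lit 496) false (nat_lit 144) (V.cons (nat_lit 498) true (nat_lit 126) (V.cons (nat_lit 500) true (nat_lit 34) (V.cons (nat_lit 502) true (nat_lit 24) (V.cons (nat_lit 504) false (nat_lit 8) (V.cons (nat_lit 506) false (nat_lit 174) (V.cons (nat_lit 508) false (nat_lit 126) (V.cons (nat_lit 510) false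 (nat_lit 156) (V.cons (nat_lit 512) false (nat_lit 15) (V.cons (nat_lit 514) true (nat_lit 18) (V.cons (nat_lit 516) true (nat_lit 138) (V.cons (nat_lit 518) false (nat_lit 1) V.nil))))))))))))))))))) (Rw.rw (nat_lit 0) (nat_lit 0) (Ct.cons false (nat_lit 1) (nat_lit 0) (nat_lit 20752598078044766211) Ct.nil))))) tK213)
def tK215 : Tb := (Tb.node (nat_lit 39980) (Tb.node (nat_lit 39974) (Tb.leaf (nat_lit 37938) (nat_lit 594) (V.cons (nat_lit 482) false (nat_lit 47) (V.cons (nat_lit 484) true (nat_lit 18) (V.cons (nat_lit 486) false (nat_lit 2) (V.cons (nat_lit 488) false (nat_lit 15) (V.cons (nat_lit 490) true (nat_lit 51) (V.cons (nat_lit 492) true (nat_lit 54) (V.cons (nat_lit 494) false (nat_lit 37) (V.cons (nat_lit 496) true (nat_lit 153) (V.cons (nat_lit 498) false (nat_lit 141) (V.cons (nat_lit 500) false (nat_lit 39) (V.cons (nat_lit 502) false (nat_lit 31) (V.cons (nat_lit 504) true (nat_lit 9) (V.cons (nat_lit 506) true (nat_lit 207) (V.cons (nat_lit 508) true (nat_lit 135) (V.cons (nat_lit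 510) true (nat_lit 195) (V.cons (nat_lit 512) true (nat_lit 6) (V.cons (nat_lit 514) false (nat_lit 3) (V.cons (nat_lit 516) false (nat_lit 165) (V.cons (nat_lit 518) false (nat_lit 1) V.nil))))))))))))))))))) (Rw.rw (nat_lit 0) (nat_lit 0) (Ct.cons false (nat_lit 1) (nat_lit 0) (nat_lit 58799002232514674691) Ct.nil))) (Tb.leaf (nat_lit 39974) (nat_lit 399) (V.cons (nat_lit 374) false (nat_lit 9) (V.cons (nat_lit 376) false (nat_lit 18) (V.cons (nat_lit 378) false (nat_lit 36) (V.cons (nat_lit 380) true (nat_lit 18) (V.cons (nat_lit 382) false (nat_lit 27) (V.cons (nat_lit 384) true (nat_lit 12) (V.cons (nat_lit 386) false (nat_lit 6) (V.cons (nat_lit 388) true (nat_lit 6) (V.cons (nat_lit 390) true (nat_lit 4) (V.cons (nat_lit 392) false (nat_lit 54) (V.cons (nat_lit 394) true (nat_lit 36) (V.cons (nat_lit 396) true (nat_lit 3) (V.cons (nat_lit 398) true (nat_lit 18) (V.cons (nat_lit 400) false (nat_lit 24) (V.cons (nat_lit 402) true (nat_lit 30) (V.cons (nat_lit 404) false (nat_lit 27) (V.cons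 (nat_lit 406) false (nat_lit 45) (V.cons (nat_lit 408) true (nat_lit 72) (V.cons (nat_lit 410) true (nat_lit 54) (V.cons (nat_lit 412) false (nat_lit 18) (V.cons (nat_lit 414) false (nat_lit 2) (V.cons (nat_lit 416) true (nat_lit 18) (V.cons (nat_lit 418) false (nat_lit 3) (V.cons (nat_lit 420) false (nat_lit 2) (V.cons (nat_lit 422) false (nat_lit 2) (V.cons (nat_lit 424) false (nat_lit 1) V.nil)))))))))))))))))))))))))) (Rw.rw (nat_lit 1) (nat_lit 0) (Ct.cons false (nat_lit 3) (nat_lit 0) (nat_lit 5764650403995058179) (Ct.cons true (nat_lit 7) (nat_lit 0) (nat_lit 8070470323467714565) (Ct.cons true (nat_lit 7) (nat_lit 0) (nat_lit 28823043112732459011) (Ct.cons false (nat_lit 9) (nat_lit 0) (nat_lit 11529222742666641411) (Ct.cons true (nat_lit 2) (nat_lit 0) (nat_lit 49575632394683154435) (Ct.cons false (nat_lit 3) (nat_lit 0) (nat_lit 38046415149589331971) (Ct.cons false (nat_lit 7) (nat_lit 0) (nat_lit 18446752869807816707) (Ct.cons false (nat_lit 3) (nat_lit 0) (nat_lit 8070491214183399427)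 (Ct.cons false (nat_lit 3) (nat_lit 0) (nat_lit 42658101168018817027) (Ct.cons true (nat_lit 2) (nat_lit 0) (nat_lit 5764615219654426627) (Ct.cons true (nat_lit 3) (nat_lit 0) (nat_lit 44963944177232510979) (Ct.cons true (nat_lit 4) (nat_lit 0) (nat_lit 8070456029846962179) (Ct.cons true (nat_lit 2) (nat_lit 0) (nat_lit 8070489015160143875) (Ct.cons false (nat_lit 3) (nat_lit 0) (nat_lit 8070500010276421637) (Ct.cons true (nat_lit 3) (nat_lit 0) (nat_lit 8070480219065024515) (Ct.cons true (nat_lit 2) (nat_lit 0) (nat_lit 11529220543641288707) (Ct.cons false (nat_lit 4) (nat_lit 0) (nat_lit 8070468124444459011) (Ct.cons false (nat_lit 6) (nat_lit 0) (nat_lit 11529232638261854211) (Ct.cons true (nat_lit 1) (nat_lit 0) (nat_lit 40352260357826281475) (Ct.cons true (nat_lit 4) (nat_lit 0) (nat_lit 16140908761094029317) (Ct.cons false (nat_lit 3) (nat_lit 0) (nat_lit 11529230439236501507) (Ct.cons false (nat_lit 1) (nat_lit 0) (nat_lit 5764622916207509507) (Ct.cons true (nat_lit 1) (nat_lit 0) (nat_lit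 8070493413206654979) (Ct.cons true (nat_lit 2) (nat_lit 0) (nat_lit 5764615219652329475) (Ct.cons false (nat_lit 2) (nat_lit 0) (nat_lit 8070456029842767875) (Ct.cons true (nat_lit 1) (nat_lit 0) (nat_lit 20752594779517222919) (Ct.cons false (nat_lit 1) (nat_lit 0) (nat_lit 8070497811255263235) (Ct.cons true (nat_lit 3) (nat_lit 0) (nat_lit 20752595879021510661) (Ct.cons false (nat_lit 3) (nat_lit 0) (nat_lit 9223391828069318661) (Ct.cons true (nat_lit 1) (nat_lit 0) (nat_lit 13835061353825435651) (Ct.cons false (nat_lit 5) (nat_lit 0) (nat_lit 5764641607899938819) (Ct.cons true (nat_lit 2) (nat_lit 0) (nat_lit 28823040913711300611) (Ct.cons true (nat_lit 1) (nat_lit 0) (nat_lit 31128888320969408515) (Ct.cons false (nat_lit 1) (nat_lit 0) (nat_lit 54187316214087286789) (Ct.cons true (nat_lit 2) (nat_lit 0) (nat_lit 31128883922927091715) (Ct.cons false (nat_lit 4) (nat_lit 0) (nat_lit 9223385230997454851) (Ct.cons true (nat_lit 4) (nat_lit 0) (nat_lit 5764613020624879619) (Ct.cons false (nat_lit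 5) (nat_lit 0) (nat_lit 18446761665902936071) (Ct.cons true (nat_lit 2) (nat_lit 0) (nat_lit 8070461527380983811) (Ct.cons true (nat_lit 2) (nat_lit 0) (nat_lit 8070458228874412035) (Ct.cons false (nat_lit 1) (nat_lit 1) (nat_lit 6044632556848654817689603) (Ct.cons false (nat_lit 2) (nat_lit 0) (nat_lit 42658103367039975427) (Ct.cons true (nat_lit 3) (nat_lit 0) (nat_lit 5764646005948547075) (Ct.cons true (nat_lit 1) (nat_lit 1) (nat_lit 3626780917619396468277253) (Ct.cons false (nat_lit 1) (nat_lit 1) (nat_lit 8462486501927519450562563) (Ct.cons false (nat_lit 2) (nat_lit 1) (nat_lit 12089261654918502154240003) (Ct.cons false (nat_lit 8) (nat_lit 0) (nat_lit 18446751770301431811) (Ct.cons true (nat_lit 1) (nat_lit 1) (nat_lit 8462488807770528662159363) (Ct.cons true (nat_lit 1) (nat_lit 1) (nat_lit 8462486501929718473818117) Ct.nil)))))))))))))))))))))))))))))))))))))))))))))))))))) (Tb.node (nat_lit 39982) (Tb.leaf (nat_lit 39980) (nat_lit 509) (V.cons (nat_lit 444) false (nat_lit 18) (V.cons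 (nat_lit 446) true (nat_lit 19) (V.cons (nat_lit 448) true (nat_lit 143) (V.cons (nat_lit 450) true (nat_lit 20) (V.cons (nat_lit 452) false (nat_lit 40) (V.cons (nat_lit 454) true (nat_lit 88) (V.cons (nat_lit 456) false (nat_lit 73) (V.cons (nat_lit 458) true (nat_lit 14) (V.cons (nat_lit 460) false (nat_lit 26) (V.cons (nat_lit 462) false (nat_lit 45) (V.cons (nat_lit 464) true (nat_lit 31) (V.cons (nat_lit 466) true (nat_lit 76) (V.cons (nat_lit 468) false (nat_lit 59) (V.cons (nat_lit 470) false (nat_lit 16) (V.cons (nat_lit 472) true (nat_lit 43) (V.cons (nat_lit 474) false (nat_lit 26) (V.cons (nat_lit 476) true (nat_lit 71) (V.cons (nat_lit 478) false (nat_lit 67) (V.cons (nat_lit 480) true (nat_lit 71) V.nil))))))))))))))))))) (Rw.rw (nat_lit 0) (nat_lit 0) (Ct.cons true (nat_lit 1) (nat_lit 0) (nat_lit 5764657001064824835) Ct.nil))) (Tb.node (nat_lit 39984) (Tb.leaf (nat_lit 39982) (nat_lit 534) (V.cons (nat_lit 444) false (nat_lit 38) (V.cons (nat_lit 446) true (nat_lit 36) (V.cons (nat_lit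 448) true (nat_lit 305) (V.cons (nat_lit 450) true (nat_lit 38) (V.cons (nat_lit 452) false (nat_lit 85) (V.cons (nat_lit 454) true (nat_lit 202) (V.cons (nat_lit 456) false (nat_lit 157) (V.cons (nat_lit 458) true (nat_lit 32) (V.cons (nat_lit 460) false (nat_lit 55) (V.cons (nat_lit 462) false (nat_lit 92) (V.cons (nat_lit 464) true (nat_lit 52) (V.cons (nat_lit 466) true (nat_lit 166) (V.cons (nat_lit 468) false (nat_lit 122) (V.cons (nat_lit 470) false (nat_lit 34) (V.cons (nat_lit 472) true (nat_lit 91) (V.cons (nat_lit 474) false (nat_lit 55) (V.cons (nat_lit 476) true (nat_lit 158) (V.cons (nat_lit 478) false (nat_lit 139) (V.cons (nat_lit 480) true (nat_lit 143) V.nil))))))))))))))))))) (Rw.rw (nat_lit 0) (nat_lit 0) (Ct.cons false (nat_lit 1) (nat_lit 0) (nat_lit 54187318413108445187) Ct.nil))) (Tb.leaf (nat_lit 39984) (nat_lit 568) (V.cons (nat_lit 482) false (nat_lit 22) (V.cons (nat_lit 484) true (nat_lit 10) (V.cons (nat_lit 488) false (nat_lit 2) (V.cons (nat_lit 490) true (nat_lit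 22) (V.cons (nat_lit 492) true (nat_lit 28) (V.cons (nat_lit 494) false (nat_lit 12) (V.cons (nat_lit 496) true (nat_lit 58) (V.cons (nat_lit 498) false (nat_lit 58) (V.cons (nat_lit 500) false (nat_lit 18) (V.cons (nat_lit 502) false (nat_lit 12) (V.cons (nat_lit 504) true (nat_lit 4) (V.cons (nat_lit 506) true (nat_lit 82) (V.cons (nat_lit 508) true (nat_lit 58) (V.cons (nat_lit 510) true (nat_lit 86) (V.cons (nat_lit 512) false (nat_lit 1) (V.cons (nat_lit 514) true (nat_lit 4) (V.cons (nat_lit 516) false (nat_lit 58) (V.cons (nat_lit 518) false (nat_lit 1) V.nil)))))))))))))))))) (Rw.rw (nat_lit 0) (nat_lit 0) (Ct.cons true (nat_lit 1) (nat_lit 0) (nat_lit 5764650403990863875) Ct.nil))))))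
def tK216 : Tb := (Tb.node (nat_lit 44076) (Tb.leaf (nat_lit 42030) (nat_lit 588) (V.cons (nat_lit 482) false (nat_lit 15) (V.cons (nat_lit 484) true (nat_lit 18) (V.cons (nat_lit 486) true (nat_lit 9) (V.cons (nat_lit 488) true (nat_lit 13) (V.cons (nat_lit 490) true (nat_lit 11) (V.cons (nat_lit 492) true (nat_lit 36) (V.cons (nat_lit 494) true (nat_lit 17) (V.cons (nat_lit 496) false (nat_lit 47) (V.cons (nat_lit 498) false (nat_lit 7) (V.cons (nat_lit 500) false (nat_lit 11) (V.cons (nat_lit 502) false (nat_lit 9) (V.cons (nat_lit 504) true (nat_lit 7) (V.cons (nat_lit 506) true (nat_lit 13) (V.cons (nat_lit 508) true (nat_lit 25) (V.cons (nat_lit 510) true (nat_lit 65) (V.cons (nat_lit 512) false (nat_lit 28) (V.cons (nat_lit 514) true (nat_lit 55) (V.cons (nat_lit 516) true (nat_lit 23) (V.cons (nat_lit 518) false (nat_lit 1) V.nil))))))))))))))))))) (Rw.rw (nat_lit 3) (nat_lit 1) (Ct.cons true (nat_lit 12) (nat_lit 0) (nat_lit 5764613020641656835) (Ct.cons false (nat_lit 179) (nat_lit 0)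 (nat_lit 5764650403990863875) (Ct.cons true (nat_lit 89) (nat_lit 0) (nat_lit 8070468124450750467) (Ct.cons true (nat_lit 180) (nat_lit 0) (nat_lit 56493159223300980739) (Ct.cons true (nat_lit 292) (nat_lit 0) (nat_lit 8070504408322932739) (Ct.cons true (nat_lit 141) (nat_lit 0) (nat_lit 11529232638257659907) (Ct.cons true (nat_lit 190) (nat_lit 0) (nat_lit 18446755068828975107) (Ct.cons false (nat_lit 37) (nat_lit 0) (nat_lit 5764622916213800963) (Ct.cons true (nat_lit 67) (nat_lit 0) (nat_lit 8070497811251068931) (Ct.cons true (nat_lit 139) (nat_lit 0) (nat_lit 18446749571282370563) (Ct.cons false (nat_lit 274) (nat_lit 0) (nat_lit 8070456029857447939) (Ct.cons false (nat_lit 126) (nat_lit 0) (nat_lit 18446751770307723267) (Ct.cons true (nat_lit 196) (nat_lit 0) (nat_lit 16140918656687144963) (Ct.cons true (nat_lit 12) (nat_lit 0) (nat_lit 58799004431535833091) (Ct.cons false (nat_lit 90) (nat_lit 0) (nat_lit 56493161422322139139) (Ct.cons true (nat_lit 45) (nat_lit 0) (nat_lit 16140920855710400517)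 (Ct.cons false (nat_lit 48) (nat_lit 0) (nat_lit 42658101168014622723) (Ct.cons false (nat_lit 84) (nat_lit 0) (nat_lit 42658098968993464323) (Ct.cons false (nat_lit 15) (nat_lit 0) (nat_lit 20752592580496064517) (Ct.cons true (nat_lit 207) (nat_lit 0) (nat_lit 5764646005944352771) (Ct.cons false (nat_lit 24) (nat_lit 0) (nat_lit 18446747372254920707) (Ct.cons true (nat_lit 12) (nat_lit 0) (nat_lit 8070470323474006021) (Ct.cons false (nat_lit 18) (nat_lit 0) (nat_lit 8070470323469811715) (Ct.cons false (nat_lit 18) (nat_lit 0) (nat_lit 61104847440749527045) (Ct.cons true (nat_lit 18) (nat_lit 0) (nat_lit 49575632394678960131) (Ct.cons true (nat_lit 18) (nat_lit 0) (nat_lit 5764659200085983235) (Ct.cons true (nat_lit 21) (nat_lit 1) (nat_lit 6044632556855251887456259) (Ct.cons false (nat_lit 51) (nat_lit 0) (nat_lit 13835073448448098307) (Ct.cons false (nat_lit 51) (nat_lit 0) (nat_lit 8070495612227813379) (Ct.cons true (nat_lit 51) (nat_lit 1) (nat_lit 3626780917619396466180099) (Ct.cons true (nat_lit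 114) (nat_lit 0) (nat_lit 20752592580491870211) (Ct.cons false (nat_lit 23) (nat_lit 1) (nat_lit 3626780917625993538043909) (Ct.cons true (nat_lit 150) (nat_lit 0) (nat_lit 40352255959779770371) (Ct.cons false (nat_lit 6) (nat_lit 1) (nat_lit 6044632556857450910711813) (Ct.cons true (nat_lit 36) (nat_lit 0) (nat_lit 8070463726406336515) (Ct.cons true (nat_lit 30) (nat_lit 0) (nat_lit 49575627996636643331) (Ct.cons true (nat_lit 3) (nat_lit 1) (nat_lit 6044634862700460124405763) (Ct.cons false (nat_lit 6) (nat_lit 0) (nat_lit 8070508806369443845) (Ct.cons false (nat_lit 6) (nat_lit 0) (nat_lit 31128883922922897411) (Ct.cons true (nat_lit 3) (nat_lit 0) (nat_lit 20752602476091277317) Ct.nil)))))))))))))))))))))))))))))))))))))))))) (Tb.node (nat_lit 44078) (Tb.leaf (nat_lit 44076) (nat_lit 572) (V.cons (nat_lit 482) false (nat_lit 36) (V.cons (nat_lit 484) true (nat_lit 18) (V.cons (nat_lit 486) true (nat_lit 2) (V.cons (nat_lit 490) true (nat_lit 34) (V.cons (nat_lit 492) true (nat_lit 48) (V.cons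 (nat_lit 494) false (nat_lit 14) (V.cons (nat_lit 496) true (nat_lit 72) (V.cons (nat_lit 498) false (nat_lit 84) (V.cons (nat_lit 500) false (nat_lit 30) (V.cons (nat_lit 502) false (nat_lit 20) (V.cons (nat_lit 504) true (nat_lit 8) (V.cons (nat_lit 506) true (nat_lit 120) (V.cons (nat_lit 508) true (nat_lit 90) (V.cons (nat_lit 510) true (nat_lit 132) (V.cons (nat_lit 512) false (nat_lit 6) (V.cons (nat_lit 514) true (nat_lit 24) (V.cons (nat_lit 516) false (nat_lit 78) (V.cons (nat_lit 518) false (nat_lit 1) V.nil)))))))))))))))))) (Rw.rw (nat_lit 0) (nat_lit 0) (Ct.cons true (nat_lit 1) (nat_lit 0) (nat_lit 8070497811251068931) Ct.nil))) (Tb.leaf (nat_lit 44078) (nat_lit 573) (V.cons (nat_lit 482) false (nat_lit 3) (V.cons (nat_lit 484) true (nat_lit 5) (V.cons (nat_lit 486) true (nat_lit 2) (V.cons (nat_lit 488) true (nat_lit 6) (V.cons (nat_lit 490) true (nat_lit 1) (V.cons (nat_lit 492) true (nat_lit 7) (V.cons (nat_lit 494) true (nat_lit 3) (V.cons (nat_lit 496) false (nat_lit 15) (V.cons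 (nat_lit 498) true (nat_lit 3) (V.cons (nat_lit 500) false (nat_lit 3) (V.cons (nat_lit 502) false (nat_lit 2) (V.cons (nat_lit 504) true (nat_lit 2) (V.cons (nat_lit 506) false (nat_lit 3) (V.cons (nat_lit 508) true (nat_lit 3) (V.cons (nat_lit 510) true (nat_lit 12) (V.cons (nat_lit 512) false (nat_lit 9) (V.cons (nat_lit 514) true (nat_lit 18) (V.cons (nat_lit 516) true (nat_lit 9) (V.cons (nat_lit 518) false (nat_lit 1) V.nil))))))))))))))))))) (Rw.rw (nat_lit 2) (nat_lit 0) (Ct.cons true (nat_lit 2) (nat_lit 0) (nat_lit 8070497811251068931) (Ct.cons true (nat_lit 8) (nat_lit 0) (nat_lit 18446749571282370563) (Ct.cons false (nat_lit 8) (nat_lit 0) (nat_lit 5764650403990863875) (Ct.cons true (nat_lit 6) (nat_lit 0) (nat_lit 8070468124450750467) (Ct.cons true (nat_lit 4) (nat_lit 0) (nat_lit 18446755068828975107) (Ct.cons true (nat_lit 4) (nat_lit 0) (nat_lit 56493159223300980739) (Ct.cons false (nat_lit 8) (nat_lit 0) (nat_lit 18446751770307723267) (Ct.cons false (nat_lit 4) (nat_lit 0) (nat_lit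 49575632394678960131) (Ct.cons false (nat_lit 2) (nat_lit 0) (nat_lit 56493161422322139139) (Ct.cons true (nat_lit 1) (nat_lit 0) (nat_lit 16140920855710400517) (Ct.cons false (nat_lit 2) (nat_lit 0) (nat_lit 42658101168014622723) (Ct.cons false (nat_lit 4) (nat_lit 0) (nat_lit 42658098968993464323) (Ct.cons true (nat_lit 12) (nat_lit 0) (nat_lit 16140918656687144963) (Ct.cons true (nat_lit 12) (nat_lit 0) (nat_lit 8070504408322932739) (Ct.cons false (nat_lit 2) (nat_lit 0) (nat_lit 18446747372254920707) (Ct.cons true (nat_lit 2) (nat_lit 0) (nat_lit 49575627996636643331) (Ct.cons false (nat_lit 3) (nat_lit 0) (nat_lit 13835073448448098307) (Ct.cons false (nat_lit 3) (nat_lit 0) (nat_lit 8070495612227813379) (Ct.cons true (nat_lit 13) (nat_lit 0) (nat_lit 11529232638257659907) (Ct.cons false (nat_lit 2) (nat_lit 0) (nat_lit 5764618518169387011) (Ct.cons false (nat_lit 2) (nat_lit 0) (nat_lit 40352258158800928771) (Ct.cons true (nat_lit 2) (nat_lit 0) (nat_lit 58799004431535833091) (Ct.cons false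 (nat_lit 8) (nat_lit 0) (nat_lit 8070456029857447939) (Ct.cons false (nat_lit 3) (nat_lit 0) (nat_lit 20752592580496064517) (Ct.cons true (nat_lit 2) (nat_lit 0) (nat_lit 40352255959779770371) (Ct.cons true (nat_lit 2) (nat_lit 0) (nat_lit 8070470323474006021) (Ct.cons false (nat_lit 2) (nat_lit 1) (nat_lit 6044632556855251887456259) (Ct.cons true (nat_lit 11) (nat_lit 0) (nat_lit 5764646005944352771) (Ct.cons true (nat_lit 3) (nat_lit 1) (nat_lit 3626780917619396466180099) (Ct.cons true (nat_lit 4) (nat_lit 0) (nat_lit 20752592580491870211) (Ct.cons true (nat_lit 1) (nat_lit 1) (nat_lit 6044634862700460124405763) (Ct.cons false (nat_lit 2) (nat_lit 0) (nat_lit 8070508806369443845) (Ct.cons false (nat_lit 2) (nat_lit 0) (nat_lit 31128883922922897411) (Ct.cons true (nat_lit 1) (nat_lit 0) (nat_lit 20752602476091277317) Ct.nil))))))))))))))))))))))))))))))))))))))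
def tK217 : Tb := (Tb.node (nat_lit 42030) (Tb.node (nat_lit 42028) (Tb.leaf (nat_lit 39986) (nat_lit 565) (V.cons (nat_lit 482) true (nat_lit 2) (V.cons (nat_lit 488) true (nat_lit 4) (V.cons (nat_lit 490) false (nat_lit 2) (V.cons (nat_lit 492) false (nat_lit 4) (V.cons (nat_lit 494) true (nat_lit 2) (V.cons (nat_lit 496) false (nat_lit 14) (V.cons (nat_lit 498) true (nat_lit 14) (V.cons (nat_lit 502) true (nat_lit 6) (V.cons (nat_lit 504) false (nat_lit 2) (V.cons (nat_lit 506) false (nat_lit 26) (V.cons (nat_lit 508) false (nat_lit 14) (V.cons (nat_lit 510) false (nat_lit 22) (V.cons (nat_lit 512) false (nat_lit 1) (V.cons (nat_lit 514) true (nat_lit 4) (V.cons (nat_lit 516) true (nat_lit 32) (V.cons (nat_lit 518) false (nat_lit 1) V.nil)))))))))))))))) (Rw.rw (nat_lit 0) (nat_lit 1) (Ct.cons true (nat_lit 3) (nat_lit 0) (nat_lit 8070470323474006021) (Ct.cons true (nat_lit 2) (nat_lit 0) (nat_lit 5764650403990863875) (Ct.cons false (nat_lit 2) (nat_lit 0) (nat_lit 8070468124450750467) (Ct.cons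 true (nat_lit 5) (nat_lit 0) (nat_lit 18446755068828975107) (Ct.cons false (nat_lit 5) (nat_lit 0) (nat_lit 8070456029857447939) (Ct.cons true (nat_lit 6) (nat_lit 0) (nat_lit 56493159223300980739) (Ct.cons true (nat_lit 11) (nat_lit 0) (nat_lit 8070504408322932739) (Ct.cons false (nat_lit 6) (nat_lit 0) (nat_lit 18446751770307723267) (Ct.cons true (nat_lit 5) (nat_lit 0) (nat_lit 16140918656687144963) (Ct.cons true (nat_lit 3) (nat_lit 0) (nat_lit 18446747372254920707) (Ct.cons true (nat_lit 1) (nat_lit 0) (nat_lit 5764622916213800963) (Ct.cons false (nat_lit 1) (nat_lit 0) (nat_lit 8070497811251068931) (Ct.cons false (nat_lit 1) (nat_lit 0) (nat_lit 18446749571282370563) (Ct.cons false (nat_lit 1) (nat_lit 1) (nat_lit 3626780917625993538043909) Ct.nil)))))))))))))))) (Tb.leaf (nat_lit 42028) (nat_lit 597) (V.cons (nat_lit 482) false (nat_lit 21) (V.cons (nat_lit 484) true (nat_lit 17) (V.cons (nat_lit 486) true (nat_lit 6) (V.cons (nat_lit 488) true (nat_lit 10) (V.cons (nat_lit 490) true (nat_lit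 17) (V.cons (nat_lit 492) true (nat_lit 37) (V.cons (nat_lit 494) true (nat_lit 7) (V.cons (nat_lit 496) false (nat_lit 23) (V.cons (nat_lit 498) false (nat_lit 13) (V.cons (nat_lit 500) false (nat_lit 13) (V.cons (nat_lit 502) false (nat_lit 12) (V.cons (nat_lit 504) true (nat_lit 6) (V.cons (nat_lit 506) true (nat_lit 31) (V.cons (nat_lit 508) true (nat_lit 31) (V.cons (nat_lit 510) true (nat_lit 74) (V.cons (nat_lit 512) false (nat_lit 19) (V.cons (nat_lit 514) true (nat_lit 46) (V.cons (nat_lit 516) true (nat_lit 5) (V.cons (nat_lit 518) false (nat_lit 1) V.nil))))))))))))))))))) (Rw.rw (nat_lit 0) (nat_lit 0) (Ct.cons false (nat_lit 1) (nat_lit 0) (nat_lit 47269784987422949379) Ct.nil)))) tK216)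
def tK218 : Tb := (Tb.node (nat_lit 39986) tK215 tK217)
def tK219 : Tb := (Tb.node (nat_lit 37938) tK214 tK218)
def tK220 : Tb := (Tb.node (nat_lit 35884) tK212 tK219)
def tK221 : Tb := (Tb.node (nat_lit 31782) tK206 tK220)
def tK222 : Tb := (Tb.node (nat_lit 18517) tK192 tK221)
def tK223 : Tb := (Tb.node (nat_lit 14429) tK164 tK222)
def tK224 : Tb := (Tb.node (nat_lit 7410) tK107 tK223)
def tK : Tb := tK224
def tKD : DL := (DL.cons (nat_lit 8) (nat_lit 7) (nat_lit 7) (nat_lit 0) (nat_lit 0) (DL.cons (nat_lit 10) (nat_lit 5) (nat_lit 7) (nat_lit 0) (nat_lit 0) (DL.cons (nat_lit 12) (nat_lit 5) (nat_lit 5) (nat_lit 0) (nat_lit 0) (DL.cons (nat_lit 14) (nat_lit 3) (nat_lit 7) (nat_lit 0) (nat_lit 0) (DL.cons (nat_lit 16) (nat_lit 3) (nat_lit 5) (nat_lit 0) (nat_lit 0) (DL.cons (nat_lit 18) (nat_lit 3) (nat_lit 3) (nat_lit 0) (nat_lit 0) (DL.cons (nat_lit 21) (nat_lit 7) (nat_lit 8) (nat_lit 0) (nat_lit 0) (DL.cons (nat_lit 23) (nat_lit 5) (nat_lit 8) (nat_lit 0) (nat_lit 0) (DL.cons (nat_lit 25)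 (nat_lit 7) (nat_lit 10) (nat_lit 0) (nat_lit 0) (DL.cons (nat_lit 27) (nat_lit 5) (nat_lit 10) (nat_lit 0) (nat_lit 0) (DL.cons (nat_lit 29) (nat_lit 7) (nat_lit 12) (nat_lit 0) (nat_lit 0) (DL.cons (nat_lit 31) (nat_lit 3) (nat_lit 8) (nat_lit 0) (nat_lit 0) (DL.cons (nat_lit 33) (nat_lit 7) (nat_lit 14) (nat_lit 0) (nat_lit 0) (DL.cons (nat_lit 35) (nat_lit 3) (nat_lit 10) (nat_lit 0) (nat_lit 0) (DL.cons (nat_lit 37) (nat_lit 5) (nat_lit 14) (nat_lit 0) (nat_lit 0) (DL.cons (nat_lit 39) (nat_lit 7) (nat_lit 16) (nat_lit 0) (nat_lit 0) (DL.cons (nat_lit 41) (nat_lit 3) (nat_lit 12) (nat_lit 0) (nat_lit 0) (DL.cons (nat_lit 43) (nat_lit 5) (nat_lit 16) (nat_lit 0) (nat_lit 0) (DL.cons (nat_lit 45) (nat_lit 3) (nat_lit 14) (nat_lit 0) (nat_lit 0) (DL.cons (nat_lit 47) (nat_lit 7) (nat_lit 18) (nat_lit 0) (nat_lit 0) (DL.cons (nat_lit 49) (nat_lit 3) (nat_lit 16) (nat_lit 0) (nat_lit 0) (DL.cons (nat_lit 51) (nat_lit 5) (nat_lit 18) (nat_lit 0) (nat_lit 0) (DL.cons (nat_lit 53) (nat_lit 3) (nat_lit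 18) (nat_lit 0) (nat_lit 0) (DL.cons (nat_lit 54) (nat_lit 5) (nat_lit 21) (nat_lit 0) (nat_lit 0) (DL.cons (nat_lit 56) (nat_lit 7) (nat_lit 23) (nat_lit 0) (nat_lit 0) (DL.cons (nat_lit 58) (nat_lit 7) (nat_lit 25) (nat_lit 0) (nat_lit 0) (DL.cons (nat_lit 60) (nat_lit 5) (nat_lit 23) (nat_lit 0) (nat_lit 0) (DL.cons (nat_lit 62) (nat_lit 5) (nat_lit 25) (nat_lit 0) (nat_lit 0) (DL.cons (nat_lit 64) (nat_lit 7) (nat_lit 27) (nat_lit 0) (nat_lit 0) (DL.cons (nat_lit 66) (nat_lit 3) (nat_lit 21) (nat_lit 0) (nat_lit 0) (DL.cons (nat_lit 68) (nat_lit 7) (nat_lit 31) (nat_lit 0) (nat_lit 0) (DL.cons (nat_lit 70) (nat_lit 7) (nat_lit 33) (nat_lit 0) (nat_lit 0) (DL.cons (nat_lit 72) (nat_lit 3) (nat_lit 25) (nat_lit 0) (nat_lit 0) (DL.cons (nat_lit 74) (nat_lit 5) (nat_lit 31) (nat_lit 0) (nat_lit 0) (DL.cons (nat_lit 76) (nat_lit 5) (nat_lit 33) (nat_lit 0) (nat_lit 0) (DL.cons (nat_lit 78) (nat_lit 7) (nat_lit 35) (nat_lit 0) (nat_lit 0) (DL.cons (nat_lit 80) (nat_lit 7) (nat_lit 37) (nat_lit 0)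 (nat_lit 0) (DL.cons (nat_lit 82) (nat_lit 7) (nat_lit 39) (nat_lit 0) (nat_lit 0) (DL.cons (nat_lit 84) (nat_lit 3) (nat_lit 27) (nat_lit 0) (nat_lit 0) (DL.cons (nat_lit 86) (nat_lit 5) (nat_lit 35) (nat_lit 0) (nat_lit 0) (DL.cons (nat_lit 88) (nat_lit 5) (nat_lit 37) (nat_lit 0) (nat_lit 0) (DL.cons (nat_lit 90) (nat_lit 5) (nat_lit 39) (nat_lit 0) (nat_lit 0) (DL.cons (nat_lit 92) (nat_lit 7) (nat_lit 43) (nat_lit 0) (nat_lit 0) (DL.cons (nat_lit 94) (nat_lit 10) (nat_lit 16) (nat_lit 0) (nat_lit 0) (DL.cons (nat_lit 96) (nat_lit 3) (nat_lit 31) (nat_lit 0) (nat_lit 0) (DL.cons (nat_lit 98) (nat_lit 3) (nat_lit 33) (nat_lit 0) (nat_lit 0) (DL.cons (nat_lit 100) (nat_lit 7) (nat_lit 45) (nat_lit 0) (nat_lit 0) (DL.cons (nat_lit 102) (nat_lit 3) (nat_lit 35) (nat_lit 0) (nat_lit 0) (DL.cons (nat_lit 104) (nat_lit 3) (nat_lit 37) (nat_lit 0) (nat_lit 0) (DL.cons (nat_lit 106) (nat_lit 3) (nat_lit 39) (nat_lit 0) (nat_lit 0) (DL.cons (nat_lit 108) (nat_lit 5) (nat_lit 45) (nat_lit 0) (nat_lit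 0) (DL.cons (nat_lit 110) (nat_lit 5) (nat_lit 47) (nat_lit 0) (nat_lit 0) (DL.cons (nat_lit 112) (nat_lit 7) (nat_lit 49) (nat_lit 0) (nat_lit 0) (DL.cons (nat_lit 114) (nat_lit 3) (nat_lit 41) (nat_lit 0) (nat_lit 0) (DL.cons (nat_lit 116) (nat_lit 3) (nat_lit 43) (nat_lit 0) (nat_lit 0) (DL.cons (nat_lit 118) (nat_lit 5) (nat_lit 49) (nat_lit 0) (nat_lit 0) (DL.cons (nat_lit 120) (nat_lit 3) (nat_lit 45) (nat_lit 0) (nat_lit 0) (DL.cons (nat_lit 122) (nat_lit 3) (nat_lit 47) (nat_lit 0) (nat_lit 0) (DL.cons (nat_lit 124) (nat_lit 7) (nat_lit 53) (nat_lit 0) (nat_lit 0) (DL.cons (nat_lit 126) (nat_lit 3) (nat_lit 49) (nat_lit 0) (nat_lit 0) (DL.cons (nat_lit 128) (nat_lit 3) (nat_lit 51) (nat_lit 0) (nat_lit 0) (DL.cons (nat_lit 130) (nat_lit 5) (nat_lit 53) (nat_lit 0) (nat_lit 0) (DL.cons (nat_lit 133) (nat_lit 5) (nat_lit 54) (nat_lit 0) (nat_lit 0) (DL.cons (nat_lit 135) (nat_lit 5) (nat_lit 58) (nat_lit 0) (nat_lit 0) (DL.cons (nat_lit 137) (nat_lit 7) (nat_lit 62) (nat_lit 0) (nat_lit 0)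 (DL.cons (nat_lit 139) (nat_lit 7) (nat_lit 64) (nat_lit 0) (nat_lit 0) (DL.cons (nat_lit 141) (nat_lit 10) (nat_lit 25) (nat_lit 0) (nat_lit 0) (DL.cons (nat_lit 143) (nat_lit 12) (nat_lit 21) (nat_lit 0) (nat_lit 0) (DL.cons (nat_lit 145) (nat_lit 3) (nat_lit 54) (nat_lit 0) (nat_lit 0) (DL.cons (nat_lit 147) (nat_lit 3) (nat_lit 56) (nat_lit 0) (nat_lit 0) (DL.cons (nat_lit 149) (nat_lit 3) (nat_lit 58) (nat_lit 0) (nat_lit 0) (DL.cons (nat_lit 151) (nat_lit 5) (nat_lit 68) (nat_lit 0) (nat_lit 0) (DL.cons (nat_lit 153) (nat_lit 7) (nat_lit 72) (nat_lit 0) (nat_lit 0) (DL.cons (nat_lit 155) (nat_lit 7) (nat_lit 74) (nat_lit 0) (nat_lit 0) (DL.cons (nat_lit 157) (nat_lit 7) (nat_lit 76) (nat_lit 0) (nat_lit 0) (DL.cons (nat_lit 159) (nat_lit 7) (nat_lit 78) (nat_lit 0) (nat_lit 0) (DL.cons (nat_lit 161) (nat_lit 8) (nat_lit 35) (nat_lit 0) (nat_lit 0) (DL.cons (nat_lit 163) (nat_lit 10) (nat_lit 33) (nat_lit 0) (nat_lit 0) (DL.cons (nat_lit 165) (nat_lit 3) (nat_lit 60) (nat_lit 0) (nat_lit 0)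 (DL.cons (nat_lit 167) (nat_lit 3) (nat_lit 62) (nat_lit 0) (nat_lit 0) (DL.cons (nat_lit 169) (nat_lit 5) (nat_lit 74) (nat_lit 0) (nat_lit 0) (DL.cons (nat_lit 171) (nat_lit 5) (nat_lit 78) (nat_lit 0) (nat_lit 0) (DL.cons (nat_lit 173) (nat_lit 5) (nat_lit 82) (nat_lit 0) (nat_lit 0) (DL.cons (nat_lit 175) (nat_lit 7) (nat_lit 84) (nat_lit 0) (nat_lit 0) (DL.cons (nat_lit 177) (nat_lit 7) (nat_lit 86) (nat_lit 0) (nat_lit 0) (DL.cons (nat_lit 179) (nat_lit 7) (nat_lit 88) (nat_lit 0) (nat_lit 0) (DL.cons (nat_lit 181) (nat_lit 7) (nat_lit 90) (nat_lit 0) (nat_lit 0) (DL.cons (nat_lit 183) (nat_lit 7) (nat_lit 92) (nat_lit 0) (nat_lit 0) (DL.cons (nat_lit 185) (nat_lit 7) (nat_lit 94) (nat_lit 0) (nat_lit 0) (DL.cons (nat_lit 187) (nat_lit 10) (nat_lit 37) (nat_lit 0) (nat_lit 0) (DL.cons (nat_lit 189) (nat_lit 10) (nat_lit 39) (nat_lit 0) (nat_lit 0) (DL.cons (nat_lit 191) (nat_lit 3) (nat_lit 68) (nat_lit 0) (nat_lit 0) (DL.cons (nat_lit 193) (nat_lit 3) (nat_lit 70) (nat_lit 0) (nat_lit 0)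 (DL.cons (nat_lit 195) (nat_lit 7) (nat_lit 96) (nat_lit 0) (nat_lit 0) (DL.cons (nat_lit 197) (nat_lit 7) (nat_lit 98) (nat_lit 0) (nat_lit 0) (DL.cons (nat_lit 199) (nat_lit 7) (nat_lit 100) (nat_lit 0) (nat_lit 0) (DL.cons (nat_lit 201) (nat_lit 14) (nat_lit 31) (nat_lit 0) (nat_lit 0) (DL.cons (nat_lit 203) (nat_lit 3) (nat_lit 72) (nat_lit 0) (nat_lit 0) (DL.cons (nat_lit 205) (nat_lit 3) (nat_lit 74) (nat_lit 0) (nat_lit 0) (DL.cons (nat_lit 207) (nat_lit 3) (nat_lit 76) (nat_lit 0) (nat_lit 0) (DL.cons (nat_lit 209) (nat_lit 3) (nat_lit 78) (nat_lit 0) (nat_lit 0) (DL.cons (nat_lit 211) (nat_lit 3) (nat_lit 80) (nat_lit 0) (nat_lit 0) (DL.cons (nat_lit 213) (nat_lit 3) (nat_lit 82) (nat_lit 0) (nat_lit 0) (DL.cons (nat_lit 215) (nat_lit 5) (nat_lit 96) (nat_lit 0) (nat_lit 0) (DL.cons (nat_lit 217) (nat_lit 5) (nat_lit 98) (nat_lit 0) (nat_lit 0) (DL.cons (nat_lit 219) (nat_lit 7) (nat_lit 102) (nat_lit 0) (nat_lit 0) (DL.cons (nat_lit 221) (nat_lit 7) (nat_lit 104) (nat_lit 0) (nat_lit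 0) (DL.cons (nat_lit 223) (nat_lit 7) (nat_lit 110) (nat_lit 0) (nat_lit 0) (DL.cons (nat_lit 225) (nat_lit 10) (nat_lit 45) (nat_lit 0) (nat_lit 0) (DL.cons (nat_lit 227) (nat_lit 14) (nat_lit 35) (nat_lit 0) (nat_lit 0) (DL.cons (nat_lit 229) (nat_lit 3) (nat_lit 84) (nat_lit 0) (nat_lit 0) (DL.cons (nat_lit 231) (nat_lit 3) (nat_lit 86) (nat_lit 0) (nat_lit 0) (DL.cons (nat_lit 233) (nat_lit 3) (nat_lit 88) (nat_lit 0) (nat_lit 0) (DL.cons (nat_lit 235) (nat_lit 3) (nat_lit 90) (nat_lit 0) (nat_lit 0) (DL.cons (nat_lit 237) (nat_lit 3) (nat_lit 92) (nat_lit 0) (nat_lit 0) (DL.cons (nat_lit 239) (nat_lit 3) (nat_lit 94) (nat_lit 0) (nat_lit 0) (DL.cons (nat_lit 241) (nat_lit 5) (nat_lit 102) (nat_lit 0) (nat_lit 0) (DL.cons (nat_lit 243) (nat_lit 5) (nat_lit 106) (nat_lit 0) (nat_lit 0) (DL.cons (nat_lit 245) (nat_lit 5) (nat_lit 110) (nat_lit 0) (nat_lit 0) (DL.cons (nat_lit 247) (nat_lit 7) (nat_lit 114) (nat_lit 0) (nat_lit 0) (DL.cons (nat_lit 249) (nat_lit 7) (nat_lit 116) (nat_lit 0) (nat_lit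 0) (DL.cons (nat_lit 251) (nat_lit 10) (nat_lit 49) (nat_lit 0) (nat_lit 0) (DL.cons (nat_lit 253) (nat_lit 16) (nat_lit 35) (nat_lit 0) (nat_lit 0) (DL.cons (nat_lit 255) (nat_lit 3) (nat_lit 98) (nat_lit 0) (nat_lit 0) (DL.cons (nat_lit 257) (nat_lit 3) (nat_lit 100) (nat_lit 0) (nat_lit 0) (DL.cons (nat_lit 259) (nat_lit 7) (nat_lit 120) (nat_lit 0) (nat_lit 0) (DL.cons (nat_lit 261) (nat_lit 7) (nat_lit 122) (nat_lit 0) (nat_lit 0) (DL.cons (nat_lit 263) (nat_lit 8) (nat_lit 53) (nat_lit 0) (nat_lit 0) (DL.cons (nat_lit 265) (nat_lit 14) (nat_lit 45) (nat_lit 0) (nat_lit 0) (DL.cons (nat_lit 267) (nat_lit 3) (nat_lit 102) (nat_lit 0) (nat_lit 0) (DL.cons (nat_lit 269) (nat_lit 3) (nat_lit 104) (nat_lit 0) (nat_lit 0) (DL.cons (nat_lit 271) (nat_lit 3) (nat_lit 108) (nat_lit 0) (nat_lit 0) (DL.cons (nat_lit 273) (nat_lit 3) (nat_lit 110) (nat_lit 0) (nat_lit 0) (DL.cons (nat_lit 275) (nat_lit 3) (nat_lit 112) (nat_lit 0) (nat_lit 0) (DL.cons (nat_lit 277) (nat_lit 5) (nat_lit 122) (nat_lit 0)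 (nat_lit 0) (DL.cons (nat_lit 279) (nat_lit 5) (nat_lit 124) (nat_lit 0) (nat_lit 0) (DL.cons (nat_lit 281) (nat_lit 7) (nat_lit 128) (nat_lit 0) (nat_lit 0) (DL.cons (nat_lit 283) (nat_lit 10) (nat_lit 53) (nat_lit 0) (nat_lit 0) (DL.cons (nat_lit 285) (nat_lit 14) (nat_lit 49) (nat_lit 0) (nat_lit 0) (DL.cons (nat_lit 287) (nat_lit 3) (nat_lit 116) (nat_lit 0) (nat_lit 0) (DL.cons (nat_lit 289) (nat_lit 3) (nat_lit 118) (nat_lit 0) (nat_lit 0) (DL.cons (nat_lit 291) (nat_lit 5) (nat_lit 126) (nat_lit 0) (nat_lit 0) (DL.cons (nat_lit 293) (nat_lit 5) (nat_lit 128) (nat_lit 0) (nat_lit 0) (DL.cons (nat_lit 295) (nat_lit 12) (nat_lit 53) (nat_lit 0) (nat_lit 0) (DL.cons (nat_lit 297) (nat_lit 16) (nat_lit 49) (nat_lit 0) (nat_lit 0) (DL.cons (nat_lit 298) (nat_lit 3) (nat_lit 133) (nat_lit 0) (nat_lit 0) (DL.cons (nat_lit 300) (nat_lit 3) (nat_lit 137) (nat_lit 0) (nat_lit 0) (DL.cons (nat_lit 302) (nat_lit 3) (nat_lit 141) (nat_lit 0) (nat_lit 1) (DL.cons (nat_lit 304) (nat_lit 3) (nat_lit 143)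 (nat_lit 0) (nat_lit 0) (DL.cons (nat_lit 306) (nat_lit 5) (nat_lit 145) (nat_lit 0) (nat_lit 1) (DL.cons (nat_lit 308) (nat_lit 5) (nat_lit 147) (nat_lit 0) (nat_lit 0) (DL.cons (nat_lit 310) (nat_lit 5) (nat_lit 149) (nat_lit 0) (nat_lit 0) (DL.cons (nat_lit 312) (nat_lit 5) (nat_lit 153) (nat_lit 0) (nat_lit 1) (DL.cons (nat_lit 314) (nat_lit 5) (nat_lit 159) (nat_lit 0) (nat_lit 1) (DL.cons (nat_lit 316) (nat_lit 7) (nat_lit 165) (nat_lit 0) (nat_lit 1) (DL.cons (nat_lit 318) (nat_lit 7) (nat_lit 167) (nat_lit 0) (nat_lit 0) (DL.cons (nat_lit 320) (nat_lit 7) (nat_lit 171) (nat_lit 0) (nat_lit 1) (DL.cons (nat_lit 322) (nat_lit 7) (nat_lit 173) (nat_lit 0) (nat_lit 0) (DL.cons (nat_lit 324) (nat_lit 7) (nat_lit 175) (nat_lit 0) (nat_lit 1) (DL.cons (nat_lit 326) (nat_lit 7) (nat_lit 177) (nat_lit 0) (nat_lit 1) (DL.cons (nat_lit 328) (nat_lit 7) (nat_lit 179) (nat_lit 0) (nat_lit 0) (DL.cons (nat_lit 330) (nat_lit 7) (nat_lit 185) (nat_lit 0) (nat_lit 1) (DL.cons (nat_lit 332) (nat_lit 7) (nat_lit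 187) (nat_lit 0) (nat_lit 1) (DL.cons (nat_lit 334) (nat_lit 16) (nat_lit 58) (nat_lit 0) (nat_lit 0) (DL.cons (nat_lit 336) (nat_lit 3) (nat_lit 145) (nat_lit 0) (nat_lit 0) (DL.cons (nat_lit 338) (nat_lit 3) (nat_lit 147) (nat_lit 0) (nat_lit 0) (DL.cons (nat_lit 340) (nat_lit 3) (nat_lit 149) (nat_lit 0) (nat_lit 1) (DL.cons (nat_lit 342) (nat_lit 3) (nat_lit 151) (nat_lit 0) (nat_lit 0) (DL.cons (nat_lit 344) (nat_lit 3) (nat_lit 153) (nat_lit 1) (nat_lit 1) (DL.cons (nat_lit 346) (nat_lit 3) (nat_lit 157) (nat_lit 0) (nat_lit 0) (DL.cons (nat_lit 348) (nat_lit 3) (nat_lit 159) (nat_lit 1) (nat_lit 1) (DL.cons (nat_lit 350) (nat_lit 3) (nat_lit 161) (nat_lit 0) (nat_lit 1) (DL.cons (nat_lit 352) (nat_lit 3) (nat_lit 163) (nat_lit 0) (nat_lit 1) (DL.cons (nat_lit 354) (nat_lit 5) (nat_lit 195) (nat_lit 0) (nat_lit 0) (DL.cons (nat_lit 356) (nat_lit 7) (nat_lit 203) (nat_lit 0) (nat_lit 1) (DL.cons (nat_lit 358) (nat_lit 7) (nat_lit 205) (nat_lit 0) (nat_lit 0) (DL.cons (nat_lit 360) (nat_lit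 7) (nat_lit 209) (nat_lit 0) (nat_lit 0) (DL.cons (nat_lit 362) (nat_lit 7) (nat_lit 227) (nat_lit 0) (nat_lit 1) (DL.cons (nat_lit 364) (nat_lit 10) (nat_lit 96) (nat_lit 1) (nat_lit 1) (DL.cons (nat_lit 366) (nat_lit 10) (nat_lit 100) (nat_lit 0) (nat_lit 1) (DL.cons (nat_lit 368) (nat_lit 14) (nat_lit 72) (nat_lit 0) (nat_lit 1) (DL.cons (nat_lit 370) (nat_lit 14) (nat_lit 78) (nat_lit 0) (nat_lit 1) (DL.cons (nat_lit 372) (nat_lit 16) (nat_lit 70) (nat_lit 1) (nat_lit 0) (DL.cons (nat_lit 374) (nat_lit 3) (nat_lit 165) (nat_lit 0) (nat_lit 2) (DL.cons (nat_lit 376) (nat_lit 3) (nat_lit 167) (nat_lit 0) (nat_lit 2) (DL.cons (nat_lit 378) (nat_lit 3) (nat_lit 169) (nat_lit 1) (nat_lit 2) (DL.cons (nat_lit 380) (nat_lit 3) (nat_lit 171) (nat_lit 1) (nat_lit 1) (DL.cons (nat_lit 382) (nat_lit 3) (nat_lit 173) (nat_lit 0) (nat_lit 2) (DL.cons (nat_lit 384) (nat_lit 3) (nat_lit 175) (nat_lit 0) (nat_lit 1) (DL.cons (nat_lit 386) (nat_lit 3) (nat_lit 177) (nat_lit 1) (nat_lit 0) (DL.cons (nat_lit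 388) (nat_lit 3) (nat_lit 179) (nat_lit 0) (nat_lit 1) (DL.cons (nat_lit 390) (nat_lit 3) (nat_lit 181) (nat_lit 1) (nat_lit 0) (DL.cons (nat_lit 392) (nat_lit 3) (nat_lit 185) (nat_lit 1) (nat_lit 2) (DL.cons (nat_lit 394) (nat_lit 3) (nat_lit 189) (nat_lit 0) (nat_lit 2) (DL.cons (nat_lit 396) (nat_lit 5) (nat_lit 203) (nat_lit 0) (nat_lit 1) (DL.cons (nat_lit 398) (nat_lit 5) (nat_lit 205) (nat_lit 1) (nat_lit 2) (DL.cons (nat_lit 400) (nat_lit 5) (nat_lit 207) (nat_lit 1) (nat_lit 1) (DL.cons (nat_lit 402) (nat_lit 5) (nat_lit 211) (nat_lit 1) (nat_lit 1) (DL.cons (nat_lit 404) (nat_lit 5) (nat_lit 213) (nat_lit 0) (nat_lit 2) (DL.cons (nat_lit 406) (nat_lit 5) (nat_lit 215) (nat_lit 0) (nat_lit 2) (DL.cons (nat_lit 408) (nat_lit 5) (nat_lit 217) (nat_lit 0) (nat_lit 2) (DL.cons (nat_lit 410) (nat_lit 5) (nat_lit 219) (nat_lit 1) (nat_lit 2) (DL.cons (nat_lit 412) (nat_lit 5) (nat_lit 221) (nat_lit 1) (nat_lit 1) (DL.cons (nat_lit 414) (nat_lit 5) (nat_lit 223) (nat_lit 1) (nat_lit 0) (DL.cons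 (nat_lit 416) (nat_lit 5) (nat_lit 225) (nat_lit 0) (nat_lit 2) (DL.cons (nat_lit 418) (nat_lit 5) (nat_lit 227) (nat_lit 0) (nat_lit 1) (DL.cons (nat_lit 420) (nat_lit 7) (nat_lit 235) (nat_lit 1) (nat_lit 0) (DL.cons (nat_lit 422) (nat_lit 7) (nat_lit 243) (nat_lit 1) (nat_lit 0) (DL.cons (nat_lit 424) (nat_lit 8) (nat_lit 114) (nat_lit 0) (nat_lit 0) (DL.cons (nat_lit 426) (nat_lit 3) (nat_lit 195) (nat_lit 0) (nat_lit 0) (DL.cons (nat_lit 428) (nat_lit 3) (nat_lit 197) (nat_lit 0) (nat_lit 0) (DL.cons (nat_lit 430) (nat_lit 3) (nat_lit 199) (nat_lit 0) (nat_lit 0) (DL.cons (nat_lit 432) (nat_lit 3) (nat_lit 201) (nat_lit 0) (nat_lit 0) (DL.cons (nat_lit 434) (nat_lit 7) (nat_lit 255) (nat_lit 0) (nat_lit 0) (DL.cons (nat_lit 436) (nat_lit 7) (nat_lit 257) (nat_lit 0) (nat_lit 0) (DL.cons (nat_lit 438) (nat_lit 7) (nat_lit 265) (nat_lit 0) (nat_lit 0) (DL.cons (nat_lit 440) (nat_lit 8) (nat_lit 124) (nat_lit 0) (nat_lit 0) (DL.cons (nat_lit 442) (nat_lit 14) (nat_lit 98) (nat_lit 0) (nat_lit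 0) (DL.cons (nat_lit 444) (nat_lit 3) (nat_lit 205) (nat_lit 0) (nat_lit 0) (DL.cons (nat_lit 446) (nat_lit 3) (nat_lit 207) (nat_lit 0) (nat_lit 0) (DL.cons (nat_lit 448) (nat_lit 3) (nat_lit 209) (nat_lit 0) (nat_lit 1) (DL.cons (nat_lit 450) (nat_lit 3) (nat_lit 211) (nat_lit 0) (nat_lit 0) (DL.cons (nat_lit 452) (nat_lit 3) (nat_lit 215) (nat_lit 0) (nat_lit 1) (DL.cons (nat_lit 454) (nat_lit 3) (nat_lit 217) (nat_lit 0) (nat_lit 1) (DL.cons (nat_lit 456) (nat_lit 3) (nat_lit 219) (nat_lit 0) (nat_lit 0) (DL.cons (nat_lit 458) (nat_lit 3) (nat_lit 221) (nat_lit 0) (nat_lit 0) (DL.cons (nat_lit 460) (nat_lit 3) (nat_lit 223) (nat_lit 0) (nat_lit 0) (DL.cons (nat_lit 462) (nat_lit 3) (nat_lit 225) (nat_lit 0) (nat_lit 0) (DL.cons (nat_lit 464) (nat_lit 3) (nat_lit 227) (nat_lit 0) (nat_lit 1) (DL.cons (nat_lit 466) (nat_lit 7) (nat_lit 267) (nat_lit 0) (nat_lit 1) (DL.cons (nat_lit 468) (nat_lit 7) (nat_lit 271) (nat_lit 0) (nat_lit 1) (DL.cons (nat_lit 470) (nat_lit 7) (nat_lit 273) (nat_lit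 0) (nat_lit 1) (DL.cons (nat_lit 472) (nat_lit 7) (nat_lit 283) (nat_lit 0) (nat_lit 1) (DL.cons (nat_lit 474) (nat_lit 10) (nat_lit 120) (nat_lit 0) (nat_lit 0) (DL.cons (nat_lit 476) (nat_lit 14) (nat_lit 102) (nat_lit 0) (nat_lit 1) (DL.cons (nat_lit 478) (nat_lit 16) (nat_lit 98) (nat_lit 0) (nat_lit 1) (DL.cons (nat_lit 480) (nat_lit 16) (nat_lit 100) (nat_lit 0) (nat_lit 1) (DL.cons (nat_lit 482) (nat_lit 3) (nat_lit 237) (nat_lit 1) (nat_lit 0) (DL.cons (nat_lit 484) (nat_lit 3) (nat_lit 239) (nat_lit 1) (nat_lit 0) (DL.cons (nat_lit 486) (nat_lit 3) (nat_lit 241) (nat_lit 0) (nat_lit 0) (DL.cons (nat_lit 488) (nat_lit 3) (nat_lit 243) (nat_lit 1) (nat_lit 0) (DL.cons (nat_lit 490) (nat_lit 3) (nat_lit 249) (nat_lit 1) (nat_lit 0) (DL.cons (nat_lit 492) (nat_lit 3) (nat_lit 251) (nat_lit 1) (nat_lit 0) (DL.cons (nat_lit 494) (nat_lit 3) (nat_lit 253) (nat_lit 1) (nat_lit 0) (DL.cons (nat_lit 496) (nat_lit 5) (nat_lit 267) (nat_lit 1) (nat_lit 1) (DL.cons (nat_lit 498) (nat_lit 5) (nat_lit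 271) (nat_lit 1) (nat_lit 1) (DL.cons (nat_lit 500) (nat_lit 5) (nat_lit 275) (nat_lit 1) (nat_lit 0) (DL.cons (nat_lit 502) (nat_lit 5) (nat_lit 277) (nat_lit 1) (nat_lit 0) (DL.cons (nat_lit 504) (nat_lit 5) (nat_lit 279) (nat_lit 1) (nat_lit 0) (DL.cons (nat_lit 506) (nat_lit 5) (nat_lit 281) (nat_lit 1) (nat_lit 1) (DL.cons (nat_lit 508) (nat_lit 5) (nat_lit 283) (nat_lit 1) (nat_lit 1) (DL.cons (nat_lit 510) (nat_lit 5) (nat_lit 285) (nat_lit 1) (nat_lit 1) (DL.cons (nat_lit 512) (nat_lit 7) (nat_lit 289) (nat_lit 0) (nat_lit 1) (DL.cons (nat_lit 514) (nat_lit 7) (nat_lit 291) (nat_lit 1) (nat_lit 1) (DL.cons (nat_lit 516) (nat_lit 7) (nat_lit 297) (nat_lit 1) (nat_lit 1) (DL.cons (nat_lit 518) (nat_lit 10) (nat_lit 126) (nat_lit 0) (nat_lit 0) DL.nil))))))))))))))))))))))))))))))))))))))))))))))))))))))))))))))))))))))))))))))))))))))))))))))))))))))))))))))))))))))))))))))))))))))))))))))))))))))))))))))))))))))))))))))))))))))))))))))))))))))))))))))))))))))))))))))))))))))))))))))))))))))))))))))))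

def cK5 : Ct := (Ct.cons false (nat_lit 2658204022979101235701594292969910446702229924656127281110601726993985529574756467309198068047364) (nat_lit 2) (nat_lit 3626788988067729702387715) (Ct.cons false (nat_lit 2636668867907429064909978782620034307252561817623471435961040807137799327218623735499554384509976) (nat_lit 3) (nat_lit 8462484196150480932438019) (Ct.cons false (nat_lit 2188862685177968751574656951844976092691071401764077727211605085293062033358520793481432260559976) (nat_lit 3) (nat_lit 8462484196168073120579587) (Ct.cons true (nat_lit 1092850844759529708392968942780656707028329404709602792909714293919738590587752577066357956235544) (nat_lit 3) (nat_lit 12089263960805491835142147) (Ct.cons true (nat_lit 4314510896638630718236315812076349209181393768922575153575806739231136271998167030659589439875872) (nat_lit 3) (nat_lit 8462484196163675074068483) (Ct.cons true (nat_lit 174623923782557598346475929377981349877055678104083554683276734305826833779246540270533449633216) (nat_lit 2) (nat_lit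 3626844328294453261369347) (Ct.cons false (nat_lit 1805997283834438423283479746600464448873340765028132226099802910180972056429933675518694945362304) (nat_lit 2) (nat_lit 6044647544832612754259971) (Ct.cons true (nat_lit 230526292995106297959714176338003491118694167354433543834771557656083642369289210589339246344144) (nat_lit 2) (nat_lit 6044685591234568205107207) (Ct.cons false (nat_lit 997481725594786581787870837525046803595962551152823675643846719314311837133095824557475553594176) (nat_lit 3) (nat_lit 6044632556927819654889475) (Ct.cons false (nat_lit 329751985686507755901777733210424645885882322567867439721681652363448449157131297588751922837316) (nat_lit 3) (nat_lit 16924964933382516414349315) (Ct.cons false (nat_lit 96635191229444260528056687309768430000144794908263148065203538898059790127417645798085841575032) (nat_lit 3) (nat_lit 8462484196187864329879557) (Ct.cons true (nat_lit 3456) (nat_lit 2) (nat_lit 8462530312934798917632007) (Ct.cons false (nat_lit 845596652309314435743177614749703282732669295619414266344649135724638374103063322794472762735104)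 (nat_lit 2) (nat_lit 9671458438390238269145091) (Ct.cons false (nat_lit 4032) (nat_lit 2) (nat_lit 6044690202920586628300807) (Ct.cons false (nat_lit 537259908799289874000343010455625263085579111888310855427346221462430014325835468542177489527048) (nat_lit 3) (nat_lit 21760672823529250565914629) (Ct.cons true (nat_lit 85043659146223452999174653476335644699873725587446352723994272686719406398026421243765861070256) (nat_lit 2) (nat_lit 8462541842149844977713157) (Ct.cons true (nat_lit 1150456907337696936813276081973653443644050559826924455087106828378093354522539557124655432122536) (nat_lit 3) (nat_lit 56819521592349098580639747) (Ct.cons false (nat_lit 2019767279171746372006488521378886614257856175971977290852633769700658609257107406513927398051560) (nat_lit 3) (nat_lit 8462486502019878425198595) (Ct.cons false (nat_lit 24320286571991030411439890763092142243283831716227324823499297962114529160097553594936905176760) (nat_lit 3) (nat_lit 19342821184318683908931587) (Ct.cons false (nat_lit 2592) (nat_lit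 2) (nat_lit 3626820116945055543984131) (Ct.cons false (nat_lit 504) (nat_lit 3) (nat_lit 44730258784514589382934531) (Ct.cons false (nat_lit 864) (nat_lit 2) (nat_lit 8462523395401373221650435) (Ct.cons true (nat_lit 144) (nat_lit 2) (nat_lit 8462516477874544610115587) (Ct.cons false (nat_lit 144) (nat_lit 4) (nat_lit 17747125328164756681792102072323) (Ct.cons false (nat_lit 72) (nat_lit 4) (nat_lit 26620666231576040886139865792515) (Ct.cons false (nat_lit 288) (nat_lit 4) (nat_lit 12676514464779172221734290980867) (Ct.cons true (nat_lit 144) (nat_lit 4) (nat_lit 39297177069561613359623596670979) Ct.nil)))))))))))))))))))))))))))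

def cK4 : Ct := (Ct.cons false (nat_lit 570406040507332843010371439812367276981904754991945181975751713248228854203682027825173634577032) (nat_lit 3) (nat_lit 16924967239264008533966853) (Ct.cons false (nat_lit 66209584648953809890096412282955767263364963722584389227848765818208396801920801406371773883760) (nat_lit 3) (nat_lit 9671410015696940393562115) (Ct.cons true (nat_lit 170511345489997101028176582976645826901283200981152035065746464451700437115997155351805433859744) (nat_lit 3) (nat_lit 16924964933384715441799175) (Ct.cons true (nat_lit 3173924004060075464354351902927819730459711271385337366715445471640254432032152990473053583680816) (nat_lit 3) (nat_lit 8462484196107599990489095) (Ct.cons true (nat_lit 309193228931471580341673446364404412935961157853581766828506363872603956039778901252587577147188) (nat_lit 3) (nat_lit 19342816572609575740506115) (Ct.cons true (nat_lit 4944517800164807984822719916479079092106941468272455947051060916028917590762477263420068110196960) (nat_lit 2) (nat_lit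 12089274337050654788288515) (Ct.cons false (nat_lit 1853758840349651306438338615326101253306928096192079130812027961119221574089488486465195372670114) (nat_lit 2) (nat_lit 8462501489907079340621829) (Ct.cons false (nat_lit 72) (nat_lit 2) (nat_lit 3626801670198782815371267) (Ct.cons false (nat_lit 1136404566387085841388709571086793888232773690188703999475769868308843819328679137584881662754464) (nat_lit 3) (nat_lit 16924967239232122699907079) (Ct.cons false (nat_lit 159242514338653820254142366663765014619392846345151713046657944227689638534192692744796283326464) (nat_lit 3) (nat_lit 54401667647274631994277891) (Ct.cons true (nat_lit 281897633084652151019851585816911524024933031441546859660104770325304780090017160654409052104136) (nat_lit 3) (nat_lit 21760672823529250568011783) (Ct.cons false (nat_lit 5612250741843332366373531924574893994906626441642160856222493558332071244577140698355503620622632) (nat_lit 2) (nat_lit 8462537230471523128573957) (Ct.cons true (nat_lit 3807386922051146634296008863994331586399983806051068754277730796880838233816969064797828807805740)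 (nat_lit 2) (nat_lit 3626793599755947153031175) (Ct.cons true (nat_lit 2314055432881313310426126286562503502181230535884269822695920436423151585883689151252798084048882) (nat_lit 2) (nat_lit 3626791293910738913984515) (Ct.cons true (nat_lit 1454924861591844697701904959409535753358919252011964586245204916361040155943636082313208447691930) (nat_lit 2) (nat_lit 16924982227197388935659525) (Ct.cons true (nat_lit 85043659146223452999174653476335644699873725587446352723994272686719406398026421243765861066224) (nat_lit 2) (nat_lit 3626817811104245361934343) (Ct.cons true (nat_lit 228438131564594164795902299345290116682538491216032939719832517653911237609641745677732677883056) (nat_lit 2) (nat_lit 3626788988066630221168645) (Ct.cons true (nat_lit 3025556612500960830192904008028990379740266400972320870830290696410458761676102568942453631750718) (nat_lit 2) (nat_lit 9671425003676500275232771) (Ct.cons true (nat_lit 5979162364629095299032427546462735572225602457102215123248128406243731439602513193923979352093504)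 (nat_lit 3) (nat_lit 8462486501961604314169347) (Ct.cons false (nat_lit 1614828758496988711339704974944936035025502966624775670053281605314686732904443532159820246195088) (nat_lit 3) (nat_lit 21760673976452954192871429) (Ct.cons true (nat_lit 122292196115759639672907842692607253221561768561303269440226682572729662081883256672438471568624) (nat_lit 2) (nat_lit 6044669450329105656446979) (Ct.cons true (nat_lit 688150490115406004865270324267699712599886445461860694600740168062328658444739446377454790819690) (nat_lit 2) (nat_lit 12089278948748767840436229) (Ct.cons false (nat_lit 72607565427621801152390855983097095180756655036339308441014305257085683431977708556765692742672) (nat_lit 2) (nat_lit 16924997215176948821524483) (Ct.cons true (nat_lit 811562798003342708300293753815888581060785309772709892925903196225016976950979692679758031512660) (nat_lit 3) (nat_lit 12089261654930596785291269) (Ct.cons false (nat_lit 838635661512218356857403181252357205046492665264348617724822994238204714300954848333430529216324)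 (nat_lit 3) (nat_lit 19342821184302191237660675) (Ct.cons true (nat_lit 2137974196585577600431683635383342453663373541471748818105458303528068071434559924417726887410242) (nat_lit 2) (nat_lit 21760683199816194954625029) (Ct.cons true (nat_lit 355008422956675430546880588359899496854123926379472363148826285448810939498832213443681082528024) (nat_lit 3) (nat_lit 16924964933396810062364675) (Ct.cons true (nat_lit 236221266528456502246037038448289267883487864168730437863244205867719303786086119067086554610900) (nat_lit 2) (nat_lit 6044690202920586626203653) (Ct.cons false (nat_lit 542220570202799091049388843477166341999761952566238894641833842407774518690667988867642481793464) (nat_lit 3) (nat_lit 8462486501961604320460807) (Ct.cons false (nat_lit 1462396521018997397860178702681262843264602741608145747958692149724025795993586655254651616683332) (nat_lit 3) (nat_lit 16924967239255212440944643) (Ct.cons false (nat_lit 6828011572374705851736289643718055837550947577726435198341693675184951302927061058266845535116036)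 (nat_lit 2) (nat_lit 16924975309670560324124675) (Ct.cons false (nat_lit 264338046950081404291259709890359845224897372297459232248513452931068362788137002641676464712852) (nat_lit 2) (nat_lit 21760673976440859568111619) (Ct.cons true (nat_lit 73011698181548472177162884435544356462397928555992717827627079910209014253962052680401136783232) (nat_lit 3) (nat_lit 47148115035436463229501443) (Ct.cons true (nat_lit 2649299018926926733898405625470548866800903163048334225426739768237123741561571299958901764304872) (nat_lit 3) (nat_lit 19342821184299992216502275) (Ct.cons false (nat_lit 922951851161070230757737180832339762516611676003759327576799943244295190894740245176245031197416) (nat_lit 2) (nat_lit 8462598335303570707972099) (Ct.cons false (nat_lit 799841927684713796588015758441407879808471937980817881879145075401685900626939584942732930135192) (nat_lit 3) (nat_lit 21760670517693937928372227) (Ct.cons false (nat_lit 544495943360380910898650829590789293204459695568179718222750834865794813953638307354506111485560)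 (nat_lit 3) (nat_lit 8462484196170272143835139) (Ct.cons false (nat_lit 344218179061835057303359494628217900240801835701411973205407625799530001307702749958170729699100) (nat_lit 3) (nat_lit 9671414627387356867461123) (Ct.cons true (nat_lit 1036287465396580865900603467459884417478192131911396856570207789553300231631875630859910569128588) (nat_lit 3) (nat_lit 9671412321542148632608771) (Ct.cons true (nat_lit 972081357234173221775492088407993098882347334388048573654491531997624571795705860286933972937200) (nat_lit 2) (nat_lit 21760702799478474736140293) (Ct.cons true (nat_lit 592018276336021204905936615234390688398323955979172224852042331243110168308754783997995873269700) (nat_lit 3) (nat_lit 9671412321544347657961479) (Ct.cons true (nat_lit 1809977425327450890345282500854403164496207510470212560375857791184826970285218264901627656758392) (nat_lit 3) (nat_lit 12089261654930596787388423) (Ct.cons true (nat_lit 170087318292446905998349306952671289399747451174892705447988545373438812796052842487531722142672)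 (nat_lit 2) (nat_lit 3626892750999845774295045) (Ct.cons true (nat_lit 3054355251649724841397820108120001464887788258274463398454519597408908246724053461149283463791692) (nat_lit 3) (nat_lit 16924967239229923674554371) (Ct.cons false (nat_lit 338769616269787390667606001370463471947785024615577104550144302846674921357959291523278532500968) (nat_lit 3) (nat_lit 8462484196159277027557379) (Ct.cons false (nat_lit 322380867052988948500240648338759769372886694287420729410921490203923264354279199129650019418920) (nat_lit 2) (nat_lit 8462528007099486273798147) (Ct.cons false (nat_lit 155114589335430524536306304625410935446768648465144465077186696894771951518875714577784012629104) (nat_lit 3) (nat_lit 12089266266616615221067783) (Ct.cons false (nat_lit 60450817441077643442774463609086900915777343987155608982742596711440323936012098148228113666516) (nat_lit 3) (nat_lit 56819519286510487415554053) (Ct.cons true (nat_lit 1508502382041553680036190759913707994358202001617797685240685872514036925712073322878872758788256)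 (nat_lit 3) (nat_lit 8462484196165874097324035) (Ct.cons false (nat_lit 112653338641715172098655310110711428199540538016268867111348118766362145640916836097892161468608) (nat_lit 3) (nat_lit 37476703866829013357953027) (Ct.cons false (nat_lit 417924728572421841983536676040503885555125426875057209969599952918392580927018700441751399540848) (nat_lit 3) (nat_lit 44730263396209403905441795) (Ct.cons false (nat_lit 4994871199775045789774782004007617307514263169068855195546725952010161379644614501262148941647592) (nat_lit 3) (nat_lit 8462484196181267260112901) (Ct.cons true (nat_lit 1889962698942835491464449890639353867854039852156707083734458743649731578714115375993609097619608) (nat_lit 3) (nat_lit 8462484196161476050812931) (Ct.cons false (nat_lit 2687202343929344847180633884232482082289682565588531359789826261295892257917329437975617377518040) (nat_lit 2) (nat_lit 16924979921356578751512581) (Ct.cons true (nat_lit 1670062032333092533700501742570707349142863037251487544287528777781196511065939843976515449337540)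 (nat_lit 3) (nat_lit 116056884447619620392665091) (Ct.cons false (nat_lit 1489109245872708546861053542465235880351332628471753053272330427903046640925949482845375513779780) (nat_lit 3) (nat_lit 6044632556919023561867267) (Ct.cons false (nat_lit 1374721656834671016345392420589406634108960681424881700952337031794018122041722421578143072113516) (nat_lit 3) (nat_lit 120892587726078137091489795) (Ct.cons false (nat_lit 635676509772770194265904282053988332114444012812950642352819849617994118517824961449211942335184) (nat_lit 2) (nat_lit 3626806281887000268111875) (Ct.cons true (nat_lit 76842097665035432653238058779334497039564722451477847944923852552027880789763070196446415446896) (nat_lit 2) (nat_lit 6044664838645286258606083) (Ct.cons true (nat_lit 621721458222415677262278529617952276208607364751955472768699011113534829415351166895495233040096) (nat_lit 2) (nat_lit 16925013356078013319479301) cK5))))))))))))))))))))))))))))))))))))))))))))))))))))))))))))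

def cK3 : Ct := (Ct.cons true (nat_lit 597328422958105897293860191571897128852727121736468512170016928949036479329839189770449915140712) (nat_lit 3) (nat_lit 8462484196116396079316999) (Ct.cons false (nat_lit 7500798607885906125023017025094982301019742435657489373585085051265133886715521746895100161470272) (nat_lit 2) (nat_lit 16924973003825352087175171) (Ct.cons false (nat_lit 1846761637860465578786740135632851071867393495559327399910869870661274562597374442812343670338688) (nat_lit 3) (nat_lit 44730258784516788408287235) (Ct.cons false (nat_lit 321593314126419339362383086222196000149600382203491063629056004824421220273848479206611944626592) (nat_lit 3) (nat_lit 8462484196146082885926915) (Ct.cons false (nat_lit 831340905221805464981897696685188482545864976067220058472237686440426168257064833495064424793124) (nat_lit 3) (nat_lit 8462486501935216043491331) (Ct.cons true (nat_lit 6706371176397728657725578209689773787152113940073719670995764747129549958163462504620085574671208) (nat_lit 3) (nat_lit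 6044632556889336751063047) (Ct.cons false (nat_lit 5780377228506020038898172966269292174102354744830576972292168255196277017998640752550571459586732) (nat_lit 2) (nat_lit 3626795905603354406944775) (Ct.cons false (nat_lit 522777448984143219228890610228816254314221213346422574712504205705749684396440481804960027132112) (nat_lit 3) (nat_lit 8462484196101002916528131) (Ct.cons false (nat_lit 129424016646680219194486773492959986116200743079493846692138132339342229584439455888966512359624) (nat_lit 2) (nat_lit 3626822422793562314768387) (Ct.cons false (nat_lit 306138415223653179469870186135676567346434483024856159447170584770635723303848849131081101232216) (nat_lit 2) (nat_lit 3626895056845054011244549) (Ct.cons false (nat_lit 91705885017845430860938681428700866064174652641191077437722649571550167798111599931334533104656) (nat_lit 3) (nat_lit 37476706172680818666766341) (Ct.cons true (nat_lit 1968417783771050123856822311823559034663919387859404118243068326678323264597465311882517818863060) (nat_lit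 2) (nat_lit 6044680979549649279909891) (Ct.cons false (nat_lit 10668459421533568886760987702771202645313639505280241290962876888635103294836295098881138120372176) (nat_lit 2) (nat_lit 8462499184061871109963781) (Ct.cons false (nat_lit 352158208667170309883907986908571230745283992918429344540211962271496108744457735967654589650070) (nat_lit 2) (nat_lit 3626803976058284698238981) (Ct.cons false (nat_lit 1291630366369270672064780262477410140196014786564494984613182999340735538486110659657411444633668) (nat_lit 2) (nat_lit 3626795905596757341372421) (Ct.cons false (nat_lit 1292544614046821264070913646427720651687032144403455155821829135178344055300652523986688383125664) (nat_lit 3) (nat_lit 39894557811910077016178693) (Ct.cons false (nat_lit 3130602719097352681992277162442236911155633777815420110076809950124762623778703830848209121938600) (nat_lit 3) (nat_lit 19342822337221496818106371) (Ct.cons true (nat_lit 1883665098595046449517066758688974659936230543799835592306364870730561677799230640896403768640184)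 (nat_lit 2) (nat_lit 6044664838655181853818883) (Ct.cons false (nat_lit 170087318292446905998349306952671289399747451174892705447988545373438812796052842487531722142672) (nat_lit 2) (nat_lit 3626890445156836560601093) (Ct.cons false (nat_lit 234043473245624292529494403615844144243265652065123002466580497237312843917440952755937681567424) (nat_lit 2) (nat_lit 8462496878208966313639939) (Ct.cons false (nat_lit 713846315496444279128048554931943696900145420434850043297945386143793182295544948634373187934684) (nat_lit 3) (nat_lit 8462484196114197051867139) (Ct.cons true (nat_lit 776995494365859332066522879241036528333014195054543190036122751677084897773865116400645343346752) (nat_lit 3) (nat_lit 8462486502044067683106821) (Ct.cons true (nat_lit 389868391254834245652473198938679582619282959815838899177631992626140269861131630472843011159936) (nat_lit 3) (nat_lit 6044632556880540662235143) (Ct.cons false (nat_lit 475957860895274474815893251185462067057964992770548178022989589308821192930383002949945381292924)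 (nat_lit 3) (nat_lit 6044632556871744571310087) (Ct.cons true (nat_lit 442189512154859452941391065318681845293121514874819613446352624167832633811644855774630480331984) (nat_lit 2) (nat_lit 8462570665183062097133571) (Ct.cons true (nat_lit 53196626689341874375953810071271441934973348607898896322500551640585579433584485803168871735400) (nat_lit 3) (nat_lit 8462484196109799013744647) (Ct.cons true (nat_lit 290143109297274024640789262323261916664269040873747481295331156891631913376415556916669996914378) (nat_lit 2) (nat_lit 21760680893969887207096325) (Ct.cons true (nat_lit 1191463067682755826886540532113441344181428184152267210905293700116922250827980663576939513343304) (nat_lit 3) (nat_lit 8462484196096604872114179) (Ct.cons true (nat_lit 1162087884769671262725014142034275066119412778051827618959862313784257109396035513222496342197320) (nat_lit 3) (nat_lit 6044632556880540655943683) (Ct.cons true (nat_lit 2400795681736409792289802740546726632474921415177353093493931834721181167736361920655179352380336)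 (nat_lit 3) (nat_lit 8462484196107599988391941) (Ct.cons true (nat_lit 2592) (nat_lit 2) (nat_lit 3626829340317092398759941) (Ct.cons false (nat_lit 3103819009313572917359373952665895835994697712208299369674170669710607214792875642811845471431928) (nat_lit 3) (nat_lit 47148110423746046757699587) (Ct.cons false (nat_lit 4531539714539016662474757127944165421189203608247188456219975004067280207893031356269535926415456) (nat_lit 3) (nat_lit 8462484196118595100475397) (Ct.cons false (nat_lit 770518644713405842618372444602805905458715507754872108621190354828330017568193102235544692330688) (nat_lit 3) (nat_lit 21760673976446357121007619) (Ct.cons false (nat_lit 2284497041487298922518092373659259454848960272074667106393601261644898226321403330536892439206664) (nat_lit 2) (nat_lit 8462501489902681300402183) (Ct.cons true (nat_lit 315346368057479585058359232375299267167538563750772545855909412569062851232006319865608322422992) (nat_lit 3) (nat_lit 12089261654953686528425987) (Ct.cons false (nat_lit 1499587648316189660385393036119341318219536748596636372021063595166072632825044426003213603300600)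 (nat_lit 3) (nat_lit 8462484196094405850955779) (Ct.cons true (nat_lit 1402670754735635930811275440749763578225014068820400206034688258941534628441940279327868173700192) (nat_lit 2) (nat_lit 8462501489907079342718983) (Ct.cons false (nat_lit 3739980947102036217335859127544714648542427902508224310218100199465566195772605502833518541989128) (nat_lit 3) (nat_lit 8462484196105400960942083) (Ct.cons true (nat_lit 280357896464413485829002255616825961955497324885473246532861327869324875657523577360398511335578) (nat_lit 2) (nat_lit 8462514172045829038145539) (Ct.cons true (nat_lit 137281072367694824614602928164666698758511438631018686331706864834672710362999438298253939653840) (nat_lit 2) (nat_lit 3626831646160101612453893) (Ct.cons false (nat_lit 188732782858493106465283486991079021577499322827350664342435504190290303853593812314659541586116) (nat_lit 3) (nat_lit 6044632556912426490003459) (Ct.cons true (nat_lit 562451919981464845805807030549120831675826665113949042420454648758739187561134953590205408827038)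 (nat_lit 2) (nat_lit 8462539536307935270404099) (Ct.cons true (nat_lit 44739208802884854270702949639304180545463731882759740204954255816315876595911182224281802627752) (nat_lit 3) (nat_lit 8462484196096604876308487) (Ct.cons false (nat_lit 142249320944692598863607863278694220370584664969885101692132707411919022653312214686954386552984) (nat_lit 3) (nat_lit 6044632556878341638979591) (Ct.cons false (nat_lit 1483109609983939388198118069608975432266254393444562256107736397565302996317406312129933265811352) (nat_lit 3) (nat_lit 8462486502022077450551299) (Ct.cons true (nat_lit 287770770822647371047205471328040962463832889569164907429086809204181630060740532947079940460508) (nat_lit 3) (nat_lit 21760672823527051540561923) (Ct.cons true (nat_lit 554150030877064735836509855855493340539141771936193748260634516512503913667950282372044516485328) (nat_lit 2) (nat_lit 3626817811104245359837189) (Ct.cons false (nat_lit 1119276542761839487088807743073953560190859123533657604977423951517980991375678298154024887817824)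 (nat_lit 2) (nat_lit 8462525701258676083359747) (Ct.cons true (nat_lit 375846831862639485737986577691724709731349569765671368882435677434687011769422748795245902871160) (nat_lit 2) (nat_lit 8462537230467125082062851) (Ct.cons false (nat_lit 3762843311002667982917059483313515597961519825580319587398517085979120504440009554844567949081200) (nat_lit 3) (nat_lit 21760676282293764383309829) (Ct.cons false (nat_lit 4283675545779725636609430294033803669755568805648084634896418267077603332514910185752169251403240) (nat_lit 3) (nat_lit 16924967239229923680845831) (Ct.cons false (nat_lit 3354740918059386348009652477062375396325768486457979333929632521127720222037490928718724733291824) (nat_lit 3) (nat_lit 19342821184302191243952135) (Ct.cons true (nat_lit 549611546414157711576250575831496606801852650061648568188119341106827205871538368913896019707404) (nat_lit 2) (nat_lit 6044655615287543047651331) (Ct.cons false (nat_lit 785384611690261210683857762983705884168176879996341534199751220832617427484547102194011425056552)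 (nat_lit 3) (nat_lit 6044632556923421608378371) (Ct.cons true (nat_lit 1447988397412540550870963442535774558959006697938305750947249813609441022190006507507602336681476) (nat_lit 2) (nat_lit 8462534924630712938135557) (Ct.cons true (nat_lit 1164439218737935926076951134432353924096641389084716376436301506310886784901785105904747042609156) (nat_lit 2) (nat_lit 8462523395415666869665795) (Ct.cons true (nat_lit 69790444947379111924916115010808139310253721660913698508605660183976892981136847542014235652332) (nat_lit 2) (nat_lit 3626824728634372505206787) (Ct.cons false (nat_lit 597871757862777229337730869983617812646360524254485821683069551829217304842319831621269052722392) (nat_lit 2) (nat_lit 3626831646165599169544197) (Ct.cons true (nat_lit 3083136507063288753858955593992713751091138413811380812301103409787255546284433686429059361957476) (nat_lit 2) (nat_lit 6044667144498191067512835) cK4))))))))))))))))))))))))))))))))))))))))))))))))))))))))))))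

def cK2 : Ct := (Ct.cons false (nat_lit 786228732940840886975487911877760746358391075173881681081575598033362637690263523378228023372004) (nat_lit 3) (nat_lit 9671410015720030130405379) (Ct.cons false (nat_lit 1677827300017505722604214240539716799005791666053251842029029830700460155706717309668735076370264) (nat_lit 3) (nat_lit 19342821184323081957539843) (Ct.cons false (nat_lit 516988614996525101987644158720405286478282342662148765871012180214669216831980212027339046186566) (nat_lit 2) (nat_lit 6044649850669024906575879) (Ct.cons false (nat_lit 222554693309183281607166565396890639424040579392820973545322839367839984006905204043988835967700) (nat_lit 3) (nat_lit 9671412321544347655864325) (Ct.cons true (nat_lit 2341476816388691588587882402767937962798217931089074582843761673210747642678405301756318242296508) (nat_lit 3) (nat_lit 8462484196105400965136389) (Ct.cons true (nat_lit 638493213086572932626015107035536855314658605421346654324189400817454036209800864644853591920816) (nat_lit 2) (nat_lit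 8462494572369255617003523) (Ct.cons false (nat_lit 8269648339430507428777013984388279229078909514301375306840086469582505996788888656619294589477030) (nat_lit 2) (nat_lit 16924977615519067088617475) (Ct.cons true (nat_lit 60639283575520355321585709120216834250780568372904969253753098808653099612624446706959565935448) (nat_lit 3) (nat_lit 12089261654928397762035715) (Ct.cons true (nat_lit 4299481731514610712796507481274570165715525450950721811270009112671170574644372659517452538860) (nat_lit 2) (nat_lit 3626820116954951147585541) (Ct.cons false (nat_lit 1162833419501164166850095632652215844290489091368051072550369872612358159357598968312282483294400) (nat_lit 3) (nat_lit 12089266266655098118602757) (Ct.cons false (nat_lit 480617787854334330503585318869429741664822599557561105153214809842510879641871421190137289006056) (nat_lit 3) (nat_lit 19342821184304390263013383) (Ct.cons false (nat_lit 981450263677200468980907196748151593888668783239618397892551298406101453539695264690922879610400) (nat_lit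 3) (nat_lit 8462484196094405853052933) (Ct.cons true (nat_lit 642747339545763632078590823539056983169214821605491822787593235123812911400593862542665932848572) (nat_lit 3) (nat_lit 9671412321544347651670019) (Ct.cons true (nat_lit 811867212772931327045832862264946995210878783446684351292699213941354322304948206169474367294532) (nat_lit 3) (nat_lit 6044632556871744565018627) (Ct.cons true (nat_lit 4724655342007934302682670259469943799427363947599428852004261260741213465459091321717254213382804) (nat_lit 3) (nat_lit 19342829254750524461285381) (Ct.cons true (nat_lit 1556677284340024130383343647546883667539425691067254461945912449304126692801324171319211834317096) (nat_lit 2) (nat_lit 6044667144502589116121093) (Ct.cons false (nat_lit 462944837088351989780596356912476888398784120186725692989242099970093754547975779720562682158980) (nat_lit 2) (nat_lit 8462501489900482279243783) (Ct.cons false (nat_lit 965728277224352438531806366232115549910513517881893854378558255867375201627458928715304884932868)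 (nat_lit 3) (nat_lit 8462486502015480378687491) (Ct.cons false (nat_lit 334199485469125315358078482887507583439780684850282119431145308181520021576627007285654836438840) (nat_lit 3) (nat_lit 12089261654951487505170435) (Ct.cons true (nat_lit 1594257891289210377015236804862478400287882422877404930032045271698966267013365501050250434756692) (nat_lit 3) (nat_lit 8462486501944012136513541) (Ct.cons true (nat_lit 455034132215225062254367388485013300467822763691712670346108158568500060255625432564930934327534) (nat_lit 2) (nat_lit 6044664838659579902427141) (Ct.cons true (nat_lit 1405212162829672412203008549656091395989758616900715907456385105406845935312424877271284717000856) (nat_lit 3) (nat_lit 64073076510036873630973957) (Ct.cons true (nat_lit 2614999466797996942733553984264966101671323077844921012892281450110879958092319039699750870510534) (nat_lit 2) (nat_lit 3626793599758146167898115) (Ct.cons false (nat_lit 534232251423199738734487410142303578898013674620028435117807516429421332570066049381845382531592)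 (nat_lit 3) (nat_lit 132981848228067438052245507) (Ct.cons false (nat_lit 1995163609476665302332824566069267495538467082158869666343832242432340248422720588571242877078368) (nat_lit 3) (nat_lit 8462486501959405297205255) (Ct.cons false (nat_lit 735217690838327564481903504959289616640371297337275522763658340681690550212095139872731876528928) (nat_lit 3) (nat_lit 8462484196103201939783683) (Ct.cons true (nat_lit 1601782564038621691831328618550836847485349489426304957729983125554708214425512675722705198825556) (nat_lit 3) (nat_lit 39894557811905678967570435) (Ct.cons false (nat_lit 307368390660141730612952235117337988158258889805911391779695410208111523159052280785785661796656) (nat_lit 2) (nat_lit 8462516477874544612212741) (Ct.cons true (nat_lit 2681136232688364236690727644333038754673517393830758391231254205520158388786166876721210484177492) (nat_lit 3) (nat_lit 6044632556889336748965893) (Ct.cons true (nat_lit 2795067813905720851085967218067795086147865313917906414413318486777233372226139030324069531533176)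 (nat_lit 2) (nat_lit 8462501489900482277146629) (Ct.cons false (nat_lit 1025778678466154960159444745437024804913707350881748414800736453584262544290607707596958411177196) (nat_lit 2) (nat_lit 3626820116950553101074435) (Ct.cons true (nat_lit 46299570591623820442239267471595545788159993792095219690379499370850262807124201810859061733118) (nat_lit 2) (nat_lit 6044649850669024904478725) (Ct.cons true (nat_lit 1491366517284282902240960893401906636180484636901375908349596995701458218335307475636679490926608) (nat_lit 2) (nat_lit 8462523395417865892921349) (Ct.cons false (nat_lit 153684195330070865306476117558668994079129444902955695889847705104055761579526140392892830897248) (nat_lit 2) (nat_lit 8462534924618618317570053) (Ct.cons false (nat_lit 652022774691981793934469826687630165578521839653301089766398939956421468785444733487214604967536) (nat_lit 3) (nat_lit 8462486501948410183024647) (Ct.cons true (nat_lit 1118584624028033832501863524640485121884347248875574596792483400527163402297620866860827566594524)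 (nat_lit 2) (nat_lit 6044671756184209496997891) (Ct.cons true (nat_lit 755841270795744436977843593335824897896503208583227876109997329207978298952606074012302250303512) (nat_lit 3) (nat_lit 8462484196120794121633797) (Ct.cons false (nat_lit 1352704142858080136550852198113570564854258498398101701958106547878852804767535841496702233984392) (nat_lit 3) (nat_lit 59237373231582754978660357) (Ct.cons false (nat_lit 344895526863210935183383958421681621239751552987449556338708253875851847758693989192193179214008) (nat_lit 3) (nat_lit 8462486501952808229535751) (Ct.cons true (nat_lit 1423457635393549922419135694462729576351397889525673412570332816070588826779349555568523072779368) (nat_lit 3) (nat_lit 8462484196101002920722437) (Ct.cons true (nat_lit 2325060211934787231650294537342549525624476044980886140093155611098291949023623783048045568142768) (nat_lit 3) (nat_lit 6044632556860749455032323) (Ct.cons true (nat_lit 1571307354248948417371445588632909766556112991234997204567839514358268900311081414167450318071148)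 (nat_lit 3) (nat_lit 6044632556878341632688131) (Ct.cons true (nat_lit 361843244927694854984374774596598158971897981688445846383789302133804892345125436632094645592280) (nat_lit 3) (nat_lit 8462484196105400967233543) (Ct.cons true (nat_lit 1394422299865111108005565823153804456757628812574689922194035955370138851447409681048478188008456) (nat_lit 3) (nat_lit 16924969545109216770916357) (Ct.cons false (nat_lit 1902563007531842304370720527622995287695663286933083872749508550457587073936616665803886828104776) (nat_lit 3) (nat_lit 8462484196114197058158599) (Ct.cons false (nat_lit 1319758997363792768182264093571703395850951926594200349940491957016542228542657265426266307059752) (nat_lit 3) (nat_lit 8462486501950609206280199) (Ct.cons false (nat_lit 550683170563443558224503364501354373272329283711019850261896946597975840292989986009515885868588) (nat_lit 3) (nat_lit 8462486501963803335327747) (Ct.cons true (nat_lit 1228324206745607214841091113630593266538092946246457402977953058698175075866703461493451584659136)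 (nat_lit 3) (nat_lit 6044632556865147503640583) (Ct.cons true (nat_lit 540807174839000062437521888160481649606953379671785737730256887972849251143629572943894027936264) (nat_lit 3) (nat_lit 12089266266650700072091651) (Ct.cons true (nat_lit 2540153392121027459350350621365379076699376693403698036669854339379231463569263902698525123156568) (nat_lit 3) (nat_lit 30223148949147835381579779) (Ct.cons true (nat_lit 785790579636416865698522078512250592480358141101811151811194263654763999751876832357953139606696) (nat_lit 2) (nat_lit 6044645238985205504540679) (Ct.cons false (nat_lit 904851952174625700852267229688062899639811059192677469160226628071582827378390160697194104168028) (nat_lit 3) (nat_lit 21760672823531449587073029) (Ct.cons true (nat_lit 1106924389629678350376106459447958573844159652402494488150723156007733434386249038161186638765154) (nat_lit 2) (nat_lit 6044683285392658493603843) (Ct.cons true (nat_lit 2940298574487153136711620249113860918013916264278158596569778692300485886952863458201584474867680)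 (nat_lit 3) (nat_lit 16924973003839645730996229) (Ct.cons true (nat_lit 5341314042560846504925999365607829282987098862235711169824579019103646209640135573946110241512344) (nat_lit 3) (nat_lit 19342829254743927389421571) (Ct.cons true (nat_lit 3573758267903465036139534279860959670923884566081063670924879273054828404804837639315218084745064) (nat_lit 3) (nat_lit 8462486502017679401943043) (Ct.cons true (nat_lit 307368390660141730612952235117337988158258889805911391779695410208111523159052280785785661800040) (nat_lit 2) (nat_lit 3626801670200981844918277) (Ct.cons true (nat_lit 442189512154859452941391065318681845293121514874819613446352624167832633811644855774630480325072) (nat_lit 2) (nat_lit 3626867386726744423661571) (Ct.cons true (nat_lit 3654171874559838012581037579697129023360104419685567831717914124051164402016769226172974169976660) (nat_lit 3) (nat_lit 8462484196109799011647493) (Ct.cons true (nat_lit 1362714150768457857077989776029098574598885889734350942552915904198495064715379521303546738452972)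 (nat_lit 3) (nat_lit 21760670517688440373379079) cK3))))))))))))))))))))))))))))))))))))))))))))))))))))))))))))

def cK1 : Ct := (Ct.cons true (nat_lit 2913498298090856288196936003564464575193952658135363449490906227444131791466985562039971371819336) (nat_lit 2) (nat_lit 6044674062027218710691843) (Ct.cons false (nat_lit 1878816989884896349966445100651366989947316027730756348520923848922527531619140174278078436556516) (nat_lit 3) (nat_lit 8462484196086709263269898) (Ct.cons true (nat_lit 2485279162258140557747604952925891821670458182885119327179815717234085750551120581556407439242196) (nat_lit 3) (nat_lit 16924973003835247682387971) (Ct.cons false (nat_lit 1818548811847648936675383346079947978060259319367729000691984229991023622946246469801232645216336) (nat_lit 3) (nat_lit 9671412321582830555496453) (Ct.cons false (nat_lit 2126430711068493846692199089141232000352188293255402589616778664136446561156853051098893831859576) (nat_lit 2) (nat_lit 3626806281896895863324675) (Ct.cons true (nat_lit 1209684319602717302502825384522105001803040288069092822899498498235702065299701623200264791370320)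 (nat_lit 3) (nat_lit 123310441671150404654596099) (Ct.cons false (nat_lit 1189019205719609079466235658354301838064128361211908088441929990699603433237165108465067393253614) (nat_lit 2) (nat_lit 19342831560586936605212675) (Ct.cons true (nat_lit 1290090545728737706912150317178718783614512386100657563996669180786351041248437989340947172184024) (nat_lit 3) (nat_lit 42312411756977946530676739) (Ct.cons true (nat_lit 420600486130493059938357874264413220581279767248866287449463706431841549851690710485251975362140) (nat_lit 3) (nat_lit 8462486501927519457902606) (Ct.cons true (nat_lit 2668358028603541389128042473443228205280343096233540168609901148401817207382241579669730282716736) (nat_lit 2) (nat_lit 3626813199421525457895427) (Ct.cons false (nat_lit 1308230931558538912406217880725037677099512533123195512882449405165018933292310318947934651396980) (nat_lit 3) (nat_lit 8462484196084510246305800) (Ct.cons true (nat_lit 1290231707259255013621874409370961380906985553833584002905652315840409690874128028551632125597718)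 (nat_lit 2) (nat_lit 9671427309515111442415619) (Ct.cons true (nat_lit 1716948188399610385591787002995045311219197307951565372562613674316087946815562338975339441558144) (nat_lit 2) (nat_lit 6044669450341200283303939) (Ct.cons true (nat_lit 1727719229676350431172103107647936052225137340923004203043934675827247163300720524001496400802120) (nat_lit 3) (nat_lit 64073074204191665394024453) (Ct.cons true (nat_lit 3506682779752532285551421501660084049317869573510964214727403281370546527175508058347720241484732) (nat_lit 3) (nat_lit 6044632556860749457129477) (Ct.cons false (nat_lit 1442597049004989266304370771133746237211359756116248899384347253450757011792852600974083886474024) (nat_lit 2) (nat_lit 8462532618787703724441605) (Ct.cons true (nat_lit 3516857027827232243650715175753680816565229818957728504230233570994926805775747697290210184134928) (nat_lit 3) (nat_lit 19342822337223695843459075) (Ct.cons false (nat_lit 136051096931206273471520879183005277946687031849963453999182039397196910507796006643549379092856)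 (nat_lit 2) (nat_lit 8462598335301371686813699) (Ct.cons false (nat_lit 617654632552448902106822679748907276249565582855216958432843365044698821943254205279203046259328) (nat_lit 2) (nat_lit 21760676282289366336798723) (Ct.cons true (nat_lit 2872314109063872309084529712597854680426040449144580179741734766616403539322132305328003806113504) (nat_lit 3) (nat_lit 54401669953119840231227395) (Ct.cons false (nat_lit 855171110601034641989830172555704970681772807909031130483172053597077205279515164628073114847288) (nat_lit 2) (nat_lit 12089276642905758626742275) (Ct.cons false (nat_lit 1158154060546441397483364655189003326904015105395305717143707014130960082538358981692196240689868) (nat_lit 3) (nat_lit 16924975309678256898179075) (Ct.cons true (nat_lit 759710080397121857017051866441970737272088496619326992366686017533542882364147323620376646365312) (nat_lit 3) (nat_lit 6044632556873943594565639) (Ct.cons false (nat_lit 965688611467805496477873829438950609608663623350745978790693836026460203604743348551628891776520)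 (nat_lit 2) (nat_lit 3626817811107543887380483) (Ct.cons true (nat_lit 2208029524192041665831571868566716324721648343270300283664718600710671191982533737708210181883448) (nat_lit 3) (nat_lit 16924964933407805180739589) (Ct.cons false (nat_lit 2549252240995454839490383197399094317917974045711866477741998449770869048635770447824287311652716) (nat_lit 3) (nat_lit 16924967239261809510711301) (Ct.cons false (nat_lit 373502338896151326860639966612955966641999302799749124194951070702392014149085557365340494264740) (nat_lit 2) (nat_lit 8462541842147645952360453) (Ct.cons true (nat_lit 4720259992807773415933838480036868470360988532693591670041800861902451859699668128013087964849392) (nat_lit 3) (nat_lit 6044632556873943592468485) (Ct.cons true (nat_lit 1150354627601308288141072385096896325754478815649274061275667024748951543305375462273093835838804) (nat_lit 3) (nat_lit 8462486501959405295108101) (Ct.cons false (nat_lit 1980838268875830349234283248850090218250675601592018711853701921060156152041131942810950682354556)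 (nat_lit 3) (nat_lit 19342822337225894866714629) (Ct.cons false (nat_lit 50532987120247635413848989551451872323892326307581475136483633157698756465048934221155245259532) (nat_lit 3) (nat_lit 14507119058767378167889923) (Ct.cons true (nat_lit 3428448393335286567117999388208313861557068762415334790486657777050518424143235714743471877301304) (nat_lit 3) (nat_lit 8462484196116396077219845) (Ct.cons false (nat_lit 78705038780785751545976058540052306836758014092882914512477547358928334892425017789937588007384) (nat_lit 3) (nat_lit 39894555506058271707365379) (Ct.cons false (nat_lit 2475662042337395824617973787835838743658176624067049625879260507631134267232772810001803776321756) (nat_lit 3) (nat_lit 118474736086848878742077443) (Ct.cons true (nat_lit 1797195085450864068090396822513630754302898228958321499594288519842867324669117078082535993380744) (nat_lit 3) (nat_lit 16924967239227724653395971) (Ct.cons false (nat_lit 658193032785822122139902189152278400659215346082455552575092070019896290582967549679563710730496)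 (nat_lit 2) (nat_lit 8462532618775609099681795) (Ct.cons true (nat_lit 1317865747272951914625579615510548326052375491584647540009101060089948881351438845173184767780204) (nat_lit 3) (nat_lit 42312407145285331033522179) (Ct.cons true (nat_lit 5352296052008704267679565884856137379719408128880364403706545301501886704764188939319420558352112) (nat_lit 3) (nat_lit 21760676282289366336798723) (Ct.cons false (nat_lit 1619377846091965139835009622301091616146032501624313841002296977684793917686911039874668116549420) (nat_lit 2) (nat_lit 8462496878216662877208583) (Ct.cons true (nat_lit 1968152135806276974423124377954624926929282253386523478494548219083937379236086126711790990229268) (nat_lit 2) (nat_lit 8462534924624115866271747) (Ct.cons true (nat_lit 679193172005534223296976620171841342874948916113025835377843994044076759541674668766592474427880) (nat_lit 3) (nat_lit 21760673976448556146360323) (Ct.cons false (nat_lit 2498857277094891560603107532872469327324510856320548102012363139340635040582241594742053055139832)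 (nat_lit 2) (nat_lit 21760680893975384764186629) (Ct.cons false (nat_lit 885981052452228533583211735296867892350410073880280734439914012592376968103332510760393545342304) (nat_lit 3) (nat_lit 89460514110254769335435267) (Ct.cons false (nat_lit 85043659146223452999174653476335644699873725587446352723994272686719406398026421243765861066224) (nat_lit 2) (nat_lit 3626833952005309851500551) (Ct.cons false (nat_lit 1823354565033562027681558595023547719736384190999206772943199733886968075089953336566450103488780) (nat_lit 3) (nat_lit 16924967239250814394433539) (Ct.cons true (nat_lit 1728210613096135227832784692106652311153238987912971649798396894359969548028374814870379071253840) (nat_lit 3) (nat_lit 59237373231578356932149251) (Ct.cons false (nat_lit 536854635861025791706103252776270515390800965193795214375425445175333124817689205435756689686200) (nat_lit 3) (nat_lit 16924967239232122697809925) (Ct.cons false (nat_lit 1201238217150359137482681588230381257186245207252228918697082473397546804667391445765296592060760)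 (nat_lit 3) (nat_lit 6044632556865147499446275) (Ct.cons true (nat_lit 2477598629240024194735141900527077644318806151867519116656525909821346879372620348119738088229472) (nat_lit 3) (nat_lit 6044632556871744569212933) (Ct.cons true (nat_lit 352253492578949540297396211418093143395396847551258151621769880455719701859759454043777057116644) (nat_lit 3) (nat_lit 16924967239246416345825283) (Ct.cons true (nat_lit 5755971236997891366202150453077104387378711441401156206924979598390770810480592722856973807029624) (nat_lit 3) (nat_lit 6044632556887137725710341) (Ct.cons false (nat_lit 440146011765660142357482587574341053850531117739788034852393692450536425330747983328476745299426) (nat_lit 2) (nat_lit 6044647544826015694979079) (Ct.cons true (nat_lit 3685806058322449172674475505966238293506072113289090679150621356917717916334434809509803182243488) (nat_lit 3) (nat_lit 8462486501946211159769093) (Ct.cons true (nat_lit 913975426822669842887588039197927133069776780857878179150266847761068272838492224969914697439344)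 (nat_lit 2) (nat_lit 6044649850671223921442819) (Ct.cons true (nat_lit 2987214027874476529248934075491432933266466030750235967454966222604459202224095125691622522462320) (nat_lit 3) (nat_lit 12089261654960283598192645) (Ct.cons true (nat_lit 128137397017639358025356495398877726855738802968248900529461304949481702930033514204287608411888) (nat_lit 3) (nat_lit 12089261654947089456562179) (Ct.cons true (nat_lit 1245520261805619624413572894618693898713050360250060711084615121188398566618251797989278791161024) (nat_lit 3) (nat_lit 8462486501946211157671939) (Ct.cons false (nat_lit 241200088867842726455807518342815201120755799564237311432010381067888335555222081568111381711862) (nat_lit 2) (nat_lit 8462534924626314891624451) (Ct.cons false (nat_lit 2941264139573986507959517780279177412299936688230633637566881206613253948049710316723790101940768) (nat_lit 3) (nat_lit 16924973003837446707740675) (Ct.cons true (nat_lit 2621043294625423224208841314775527630560926350386148333110731257319633610866983606531046133129069)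 (nat_lit 2) (nat_lit 14507130587971429120081923) cK2))))))))))))))))))))))))))))))))))))))))))))))))))))))))))))

def cK0 : Ct := (Ct.cons true (nat_lit 3421290163704616416838991578105272963911616362825373844833754668565828705411013290461226860578960) (nat_lit 3) (nat_lit 42312419827420782197211139) (Ct.cons true (nat_lit 2286924121641413143848164908729077603857428653596474795948528279562161816902646668143184245132292) (nat_lit 3) (nat_lit 37476718854805274712080387) (Ct.cons false (nat_lit 14552783239418688867678066498402663325570221224818656212806349820446908337346305290370025967915392) (nat_lit 3) (nat_lit 39894570494034533061492739) (Ct.cons false (nat_lit 2692653396936028828617421045965181489247200178359260533021838019662659700021128094441969615675960) (nat_lit 3) (nat_lit 54401667647276831019630595) (Ct.cons false (nat_lit 1376879018388830136213429250346865370022045644419778138955733171653337455813878431082818748153268) (nat_lit 2) (nat_lit 8462532618783305677930499) (Ct.cons false (nat_lit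 3472835671674086230474447528084452061214014748020381831254142984429814231952666903408807380223928) (nat_lit 3) (nat_lit 47148123105879298896035843) (Ct.cons true (nat_lit 1884008703768878815322470309836075319716815430569715726648016165148613883687209030091729077439648) (nat_lit 2) (nat_lit 6044653309444533831860227) (Ct.cons false (nat_lit 37248536969536186673733189216271608521688042973856916716232409886010255683856835428672610498944) (nat_lit 2) (nat_lit 3626786682221421973733379) (Ct.cons true (nat_lit 81609900143312783061145023237771814286319700741014473982582654150630149382535947294932404031688) (nat_lit 2) (nat_lit 8462521089572657655971843) (Ct.cons false (nat_lit 2449447849676056465040297003933126850861052499577490319403792875009531923616554630938711966490484) (nat_lit 2) (nat_lit 3626833952006409359982597) (Ct.cons true (nat_lit 642138206964230667115862405367213367819180698056426783143257209887295794619812119778572450012000) (nat_lit 2) (nat_lit 3626815505266733696942083) (Ct.cons false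 (nat_lit 805241271449596804925495667633559689508066349178930395973963730794204927651892558922359344274602) (nat_lit 2) (nat_lit 3626806281901293911932933) (Ct.cons false (nat_lit 2752068703410649434290678264076933951685780485367010852703795703484188051133157616479210897062528) (nat_lit 3) (nat_lit 54401673411881055516884995) (Ct.cons false (nat_lit 398255094615435807248424600369656013953217620248070716934768761505759521571267986534290293853258) (nat_lit 2) (nat_lit 6044657921130552261345283) (Ct.cons true (nat_lit 1608768518376659390192330411300082750630413135443506158023705254882865307957179682842958451326688) (nat_lit 3) (nat_lit 30223166242960508877537283) (Ct.cons false (nat_lit 278590008051581761863850371670095008175916599234201735510690987637435730951189289078901649429478) (nat_lit 2) (nat_lit 8462511866202819824451587) (Ct.cons false (nat_lit 59459476100686487225838294086516534812172641712709381891310105576836381128942142847211728782240) (nat_lit 2) (nat_lit 3626795905596757337178115) (Ct.cons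 true (nat_lit 8488048614104394819524370465543232568177056571535702237082046239277197188625702628879051226768776) (nat_lit 3) (nat_lit 44730271466650040546623491) (Ct.cons false (nat_lit 1747839523250401608474115822134176715731172941167850540933465694772483552053332238188739697614864) (nat_lit 3) (nat_lit 94296217388713286034259971) (Ct.cons true (nat_lit 1527774409939923606366189973755802026863211200893738875607208552549004122715700222054705747321416) (nat_lit 3) (nat_lit 59237374384496563002015747) (Ct.cons false (nat_lit 56055544376297735253263391792387917872941985138976421662559470868707371107404958682656342282380) (nat_lit 2) (nat_lit 3626813199423724483248131) (Ct.cons true (nat_lit 301062457465227212487204020587324369607361701694366974897781144066959471208044213344614193822476) (nat_lit 2) (nat_lit 3626813199428122529759237) (Ct.cons true (nat_lit 2055522852149226541003110610862773986102559308474341913661659052874682775836316505538890083435940) (nat_lit 2) (nat_lit 3626827034477381718900739)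 (Ct.cons true (nat_lit 1372843639428098662221628322546289967380589927594673752787240095272248931908231613614066068452552) (nat_lit 3) (nat_lit 8462484196084510244208650) (Ct.cons true (nat_lit 135288479129241895268417722959809787014739551972085417924660931269101940555413946678861580354140) (nat_lit 3) (nat_lit 8462484196086709265367048) (Ct.cons false (nat_lit 5559495374202791511871942807819115990932687444392567408505858265561938520437919994768074817200312) (nat_lit 2) (nat_lit 8462525701256477058007043) (Ct.cons false (nat_lit 1244783793049273615340695002448278181422713830253062982695494922036608763236948827179275980156988) (nat_lit 2) (nat_lit 8462537230464926056710147) (Ct.cons true (nat_lit 1312687242424326145081716527123789784948182025338803410211434977820453545104640669541999250629458) (nat_lit 2) (nat_lit 8462521089574856679227397) (Ct.cons false (nat_lit 1074301306061669162303903689896695456141634629110547003041736658396889804633421207796900550889640) (nat_lit 2) (nat_lit 3626808587739905079115779)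 (Ct.cons false (nat_lit 972162429193341979109390494337541791903290359955759859322343705483764546719230236172805350108392) (nat_lit 2) (nat_lit 3626815505271131743453189) (Ct.cons true (nat_lit 629918245643458626430546007052113437301323383943487138262918062045385989779523724447800203844444) (nat_lit 2) (nat_lit 8462518783729648440180739) (Ct.cons true (nat_lit 2975355082063573446126830260445408681692849136547263574090514454410943670198915902047481130677184) (nat_lit 2) (nat_lit 3626788988067729704484869) (Ct.cons false (nat_lit 4611899425345783293274038174542218394296269294610093443393443876064718639711529577414411729033936) (nat_lit 3) (nat_lit 19342829254746126414774275) (Ct.cons true (nat_lit 76842097665035432653238058779334497039564722451477847944923852552027880789763070196446415450352) (nat_lit 2) (nat_lit 8462532618775609103876101) (Ct.cons false (nat_lit 3456) (nat_lit 2) (nat_lit 8462518783717553825906693) (Ct.cons false (nat_lit 453935559074927687732572044755326661711171117632751408172603423527077413488842439857950354835928)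 (nat_lit 2) (nat_lit 3626820116948354075721731) (Ct.cons true (nat_lit 1205711200696669412747079274353033892788184463711928493646609185520462175541989876336094458014096) (nat_lit 3) (nat_lit 8462486501929718481158154) (Ct.cons true (nat_lit 3632309931515138969412305595827141560195125307615410204704043579343170471158206967708392435648424) (nat_lit 2) (nat_lit 8462521089570458630619139) (Ct.cons true (nat_lit 425382685220407828535925706882807718017023302588930447906065863272931577146850214699048536489028) (nat_lit 2) (nat_lit 8462516477886639226486787) (Ct.cons true (nat_lit 4670474449629068074951022663186018541238299167658769500512892828956153095631626416951581404397292) (nat_lit 2) (nat_lit 3626829340322589955850245) (Ct.cons true (nat_lit 5053950445424986150310678232430958218396356090920748401876050483950016143356986087226941159279912) (nat_lit 2) (nat_lit 8462530312942495487492099) (Ct.cons true (nat_lit 360116124031236220465788742714768072027453719336963922699417058740658685590610924627320356695348)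 (nat_lit 3) (nat_lit 6044632556853052871540746) (Ct.cons true (nat_lit 835726091502860285495105865137463560863944429221664282762237329493481040610837738355109389350988) (nat_lit 2) (nat_lit 12089278948742170768572419) (Ct.cons false (nat_lit 30504848245025394873882954531533557233142890963747782218388781562230348638543978144551051154564) (nat_lit 2) (nat_lit 3626817811105344862027779) (Ct.cons true (nat_lit 32024397216990771304073024261417433394650048212716376307632602361281653127345079707712127172224) (nat_lit 2) (nat_lit 3626806281899094888677379) (Ct.cons false (nat_lit 460174322479752218004469530444915867558727412054233850703915781091451938201439972661404321237360) (nat_lit 2) (nat_lit 3626801670213076459192323) (Ct.cons true (nat_lit 1337192762861418049310346408112781676902896156734492125947943520037813132831309313613444523579796) (nat_lit 3) (nat_lit 6044632556857450913857544) (Ct.cons true (nat_lit 1408318934943874653609197759402384634072982315625159085625757833641185943649153441658441303178153)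 (nat_lit 2) (nat_lit 21760678588130176527237123) (Ct.cons true (nat_lit 344711242075004504344825236330652639276803129278976260131265279679265646575299382758065171782080) (nat_lit 2) (nat_lit 3626815505259037118693379) (Ct.cons true (nat_lit 1215286117399660082508644826499071396223871245513508636717841981047208008240346201509717112871400) (nat_lit 2) (nat_lit 6044690202921686136782853) (Ct.cons false (nat_lit 4151335378518480527448912066762490357986224355486762225180960581221880005415423197141325050986976) (nat_lit 3) (nat_lit 21760676282287167311446019) (Ct.cons true (nat_lit 1393883810819864582379463674848784235815650054354286543209397686088328031713910488950353832390870) (nat_lit 2) (nat_lit 3626798211444164595286023) (Ct.cons true (nat_lit 1535129816272477067977638490750965122332794566934061292445091147137100862838900464918261740526280) (nat_lit 2) (nat_lit 8462501489900482272952323) (Ct.cons true (nat_lit 444146541444904925459227797221980929520544092158471097105770395821099886766224022825293885908376)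 (nat_lit 2) (nat_lit 3626815505264534671589379) (Ct.cons true (nat_lit 1301103537285147717675338279554385494614143170277927717347047528344922143226179597269660891195688) (nat_lit 2) (nat_lit 8462532618781106652577795) (Ct.cons true (nat_lit 74878506334627281417212258675241436177803456230612392489729982293228651600925946768220021248024) (nat_lit 2) (nat_lit 8462541842153143509450757) (Ct.cons false (nat_lit 2226143498166156433756106287455983811587572376838524856298666255513332168878419476598413608294772) (nat_lit 2) (nat_lit 16924977615516868063264771) (Ct.cons false (nat_lit 719133600622869765514901422652346511885945102303174265879278468424023327510778001760442285000396) (nat_lit 2) (nat_lit 8462525701260875106615301) (Ct.cons true (nat_lit 287278711082891313588267016621295954384247534244622289435733427232517706848902665354710456891008) (nat_lit 3) (nat_lit 8462484196082311220953100) (Ct.cons true (nat_lit 1338367345128183617340873461407343978658502376873133388530097108446505010290715240575435624440540)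 (nat_lit 3) (nat_lit 6044632556855251894796296) cK1))))))))))))))))))))))))))))))))))))))))))))))))))))))))))))

end Pool.Agent.TP
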