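import Pool.Agent.Helper19_TP.Fin

/-! Assembly of the three characteristics for MP_ce3ba7_al (helper19). -/

set_option autoImplicit false

namespace Pool.Agent.TP

/-- MODULE C2-FIN: characteristic 2. -/
def Char2Stmt : Prop :=
  ∀ (F : Type) [Field F], (2 : F) = 0 →
    ∀ S : Set (MonoidAlgebra F (FreeMagma ℕ)), AssNil F S → AllSolv F S

/-- MODULE C3-FIN: characteristic 3. -/
def Char3Stmt : Prop :=
  ∀ (F : Type) [Field F], (3 : F) = 0 →
    ∀ S : Set (MonoidAlgebra F (FreeMagma ℕ)), AssNil F S → AllSolv F S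

theorem top (h2 : Char2Stmt) (h3 : Char3Stmt) (F : Type) [Field F]
    (S : Set (MonoidAlgebra F (FreeMagma ℕ))) (h : AssNil F S) : AllSolv F S := by
  by_cases e2 : (2 : F) = 0
  · exact h2 F e2 S h
  · by_cases e3 : (3 : F) = 0
    · exact h3 F e3 S h
    · exact fin F e2 e3 S h

end Pool.Agent.TP
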